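import Pool.Agent.Lib.MP_515a76_al.GPar

/-! A module of the block `λ` decomposes if its translation to the block `μ` is not cyclic. -/

namespace Pool.Agent.KM

open Module GMod

/-- The vectors of weight `a0` in `F₄ R`. -/
noncomputable def TT (R : GMod 16) : Submodule ℂ (Fin 16 → R.V) :=
  (Ten (std 16) R).W a0 ⊓ genOm (std 16) R 4

/-- The nilpotent part of the mixed Casimir operator. -/
noncomputable def yT (R : GMod 16) : End ℂ (Fin 16 → R.V) := Om (std 16) R - (4 : ℂ) • 1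

section LinAlg

variable {X : Type} [AddCommGroup X] [Module ℂ X]

theorem bc_pow_add (y : End ℂ X) (i j : ℕ) (u : X) : (y ^ i) ((y ^ j) u) = (y ^ (i + j)) u := by
  rw [pow_add, End.mul_apply]

theorem bc_pow_succ (y : End ℂ X) (i : ℕ) (u : X) : y ((y ^ i) u) = (y ^ (i + 1)) u := by
  rw [pow_succ', End.mul_apply]

theorem bc_pow_mem {U : Submodule ℂ X} {y : End ℂ X} (hy : ∀ u ∈ U, y u ∈ U) (i : ℕ) {u : X}
    (hu : u ∈ U) : (y ^ i) u ∈ U := by
  induction i with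
  | zero => simpa using hu
  | succ i ih => rw [← bc_pow_succ]; exact hy _ ih

/-- The span of the vectors `y ^ i t` with `j ≤ i`. -/
def bcSpan (y : End ℂ X) (t : X) (j : ℕ) : Submodule ℂ X :=
  Submodule.span ℂ (Set.range fun i : ℕ => (y ^ (i + j)) t)

theorem bcSpan_mem (y : End ℂ X) (t : X) {i j : ℕ} (h : j ≤ i) : (y ^ i) t ∈ bcSpan y t j :=
  Submodule.subset_span ⟨i - j, by simp only [Nat.sub_add_cancel h]⟩

theorem bcSpan_le {y : End ℂ X} {t : X} {j : ℕ} {S : Submodule ℂ X}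
    (h : ∀ i, j ≤ i → (y ^ i) t ∈ S) : bcSpan y t j ≤ S :=
  Submodule.span_le.2 (by rintro _ ⟨i, rfl⟩; exact h _ (Nat.le_add_left _ _))

theorem bc_split {U : Submodule ℂ X} {y : End ℂ X} (hy : ∀ u ∈ U, y u ∈ U) {k : ℕ} {t : X}
    (ht : t ∈ U) (h0 : (y ^ k) t ≠ 0) (hk : ∀ u ∈ U, (y ^ (k + 1)) u = 0) :
    ∃ U₂ : Submodule ℂ X, Disjoint (bcSpan y t 0) U₂ ∧ bcSpan y t 0 ⊔ U₂ = U ∧
      ∀ u ∈ U₂, y u ∈ U₂ := by
  obtain ⟨f, hf⟩ := Module.Projective.exists_dual_eq_one ℂ h0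
  have hz : ∀ u ∈ U, ∀ i, k + 1 ≤ i → (y ^ i) u = 0 := fun u hu i hi => by
    obtain ⟨d, rfl⟩ := Nat.exists_eq_add_of_le' hi
    rw [← bc_pow_add, hk u hu, map_zero]
  have hU : ∀ j, bcSpan y t j ≤ U := fun j => bcSpan_le fun i _ => bc_pow_mem hy i ht
  let U₂ : Submodule ℂ X := U ⊓ ⨅ i : ℕ, LinearMap.ker (f ∘ₗ (y ^ i))
  have hm : ∀ u, u ∈ U₂ ↔ u ∈ U ∧ ∀ i : ℕ, f ((y ^ i) u) = 0 := fun u => by
    simp [U₂, Submodule.mem_iInf]
  refine ⟨U₂, ?_, le_antisymm (sup_le (hU 0) inf_le_left) fun u hu => ?_, fun u hu => ?_⟩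
  · have step : ∀ j, j ≤ k + 1 → ∀ u ∈ bcSpan y t 0, u ∈ U₂ → u ∈ bcSpan y t j := by
      intro j
      induction j with
      | zero => exact fun _ u hu _ => hu
      | succ j ih =>
        intro hj u hu hu2
        have h1 : bcSpan y t j ≤ (ℂ ∙ (y ^ j) t) ⊔ bcSpan y t (j + 1) := bcSpan_le fun i hi => by
          rcases hi.eq_or_lt with rfl | hi
          · exact Submodule.mem_sup_left (Submodule.mem_span_singleton_self _)
          · exact Submodule.mem_sup_right (bcSpan_mem y t hi)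
        obtain ⟨_, h2, w, hw, rfl⟩ := Submodule.mem_sup.1 (h1 (ih (by omega) u hu hu2))
        obtain ⟨c, rfl⟩ := Submodule.mem_span_singleton.1 h2
        have h3 : bcSpan y t (j + 1) ≤ LinearMap.ker (y ^ (k - j)) := bcSpan_le fun i hi => by
          rw [LinearMap.mem_ker, bc_pow_add]
          exact hz t ht _ (by omega)
        have h4 := ((hm _).1 hu2).2 (k - j)
        rw [map_add, LinearMap.mem_ker.1 (h3 hw), add_zero, map_smul, bc_pow_add,
          Nat.sub_add_cancel (by omega), map_smul, hf, smul_eq_mul, mul_one] at h4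
        rw [h4, zero_smul, zero_add]
        exact hw
    refine Submodule.disjoint_def.2 fun u hu hu2 => ?_
    have h1 : bcSpan y t (k + 1) ≤ ⊥ := bcSpan_le fun i hi => hz t ht i hi
    exact h1 (step _ le_rfl u hu hu2)
  · have step : ∀ d, d ≤ k + 1 → ∃ w ∈ bcSpan y t 0,
        ∀ i, k + 1 ≤ i + d → f ((y ^ i) (u - w)) = 0 := by
      intro d
      induction d with
      | zero =>
        refine fun _ => ⟨0, zero_mem _, fun i hi => ?_⟩
        rw [sub_zero, hz u hu i hi, map_zero]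
      | succ d ih =>
        intro hd
        obtain ⟨w, hw, h1⟩ := ih (by omega)
        refine ⟨w + f ((y ^ (k - d)) (u - w)) • (y ^ d) t,
          add_mem hw (Submodule.smul_mem _ _ (bcSpan_mem y t (Nat.zero_le _))), fun i hi => ?_⟩
        rw [← sub_sub, map_sub, map_smul, bc_pow_add, map_sub, map_smul]
        by_cases h2 : k + 1 ≤ i + d
        · rw [h1 i h2, hz t ht _ h2, map_zero, smul_zero, sub_zero]
        · have h3 : i = k - d := by omega
          have h4 : i + d = k := by omega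
          rw [h4, hf, ← h3, smul_eq_mul, mul_one, sub_self]
    obtain ⟨w, hw, h1⟩ := step _ le_rfl
    exact Submodule.mem_sup.2 ⟨w, hw, u - w,
      (hm _).2 ⟨sub_mem hu (hU 0 hw), fun i => h1 i (by omega)⟩, add_sub_cancel _ _⟩
  · obtain ⟨h1, h2⟩ := (hm u).1 hu
    refine (hm _).2 ⟨hy u h1, fun i => ?_⟩
    rw [← End.mul_apply, ← pow_succ]
    exact h2 _

theorem bc_li {y : End ℂ X} {t : X} (h3 : y (y (y t)) ≠ 0) (h4 : y (y (y (y t))) = 0) :
    LinearIndependent ℂ ![t, y t, y (y t), y (y (y t))] := by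
  refine Fintype.linearIndependent_iff.2 fun g hg => ?_
  simp only [Fin.sum_univ_four, Matrix.cons_val_zero, Matrix.cons_val_one, Matrix.cons_val] at hg
  have e0 : g 0 = 0 := by
    have := congrArg (fun x => y (y (y x))) hg
    simpa [h4, h3] using this
  have e1 : g 1 = 0 := by
    have := congrArg (fun x => y (y x)) hg
    simpa [h4, h3, e0] using this
  have e2 : g 2 = 0 := by
    have := congrArg (fun x => y x) hg
    simpa [h4, h3, e0, e1] using this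
  have e3 : g 3 = 0 := by simpa [h3, e0, e1, e2] using hg
  intro i
  fin_cases i
  exacts [e0, e1, e2, e3]

/-- A four dimensional space with a nilpotent operator of order four is cyclic. -/
theorem bc_cyclic {U : Submodule ℂ X} [FiniteDimensional ℂ U] (hU : finrank ℂ U = 4)
    {y : End ℂ X} (hy : ∀ u ∈ U, y u ∈ U) {t : X} (ht : t ∈ U) (hn : ∃ N : ℕ, (y ^ N) t = 0)
    (h3 : y (y (y t)) ≠ 0) : y (y (y (y t))) = 0 ∧
      U ≤ Submodule.span ℂ {t, y t, y (y t), y (y (y t))} := by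
  have h4 : y (y (y (y t))) = 0 := by
    obtain ⟨N, hN⟩ := hn
    have h1 : (⟨t, ht⟩ : U) ∈ LinearMap.ker ((y.restrict hy) ^ N) := by
      rw [LinearMap.mem_ker, Module.End.pow_restrict N hy]
      exact Subtype.ext hN
    have h2 := Module.End.ker_pow_le_ker_pow_finrank (y.restrict hy) N h1
    rw [hU, LinearMap.mem_ker] at h2
    exact congrArg Subtype.val h2
  refine ⟨h4, ?_⟩
  have h1 := finrank_span_eq_card (bc_li h3 h4)
  have h2 : Set.range ![t, y t, y (y t), y (y (y t))] = {t, y t, y (y t), y (y (y t))} := by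
    simp only [Matrix.range_cons, Matrix.range_empty, Set.union_empty, Set.singleton_union]
  rw [h2] at h1
  refine (Submodule.eq_of_le_of_finrank_eq (Submodule.span_le.2 ?_) ?_).ge
  · rintro _ (rfl | rfl | rfl | rfl)
    exacts [ht, hy _ ht, hy _ (hy _ ht), hy _ (hy _ (hy _ ht))]
  · rw [h1, hU]; rfl

end LinAlg

/-- A nilpotent operator on a non-cyclic space has a nontrivial invariant decomposition. -/
theorem exists_compl_of_not_cyclic {X : Type} [AddCommGroup X] [Module ℂ X] (U : Submodule ℂ X)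
    [FiniteDimensional ℂ U] (y : End ℂ X) (hy : ∀ u ∈ U, y u ∈ U)
    (h4 : ∀ u ∈ U, y (y (y (y u))) = 0)
    (hnc : ¬ ∃ t ∈ U, U ≤ Submodule.span ℂ {t, y t, y (y t), y (y (y t))}) :
    ∃ U₁ U₂ : Submodule ℂ X, U₁ ≠ ⊥ ∧ U₂ ≠ ⊥ ∧ Disjoint U₁ U₂ ∧ U₁ ⊔ U₂ = U ∧
      (∀ u ∈ U₁, y u ∈ U₁) ∧ ∀ u ∈ U₂, y u ∈ U₂ := by
  classical
  have hex : ∃ k : ℕ, ∀ u ∈ U, (y ^ k) u = 0 := ⟨4, h4⟩
  have hpos : Nat.find hex ≠ 0 := fun h => by
    have h1 := Nat.find_spec hex
    rw [h] at h1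
    refine hnc ⟨0, zero_mem _, fun u hu => ?_⟩
    rw [show u = 0 from h1 u hu]
    exact zero_mem _
  obtain ⟨k, hk⟩ := Nat.exists_eq_succ_of_ne_zero hpos
  have h1 := Nat.find_spec hex
  rw [hk] at h1
  have h2 := Nat.find_min hex (m := k) (by omega)
  push Not at h2
  obtain ⟨t, ht, h0⟩ := h2
  obtain ⟨U₂, hd, hs, hi⟩ := bc_split hy ht h0 h1
  have ht1 : t ∈ bcSpan y t 0 := bcSpan_mem y t (i := 0) le_rfl
  refine ⟨bcSpan y t 0, U₂, fun h => h0 ?_, fun h => hnc ⟨t, ht, ?_⟩, hd, hs, fun u hu => ?_, hi⟩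
  · rw [h] at ht1
    rw [(Submodule.mem_bot ℂ).1 ht1, map_zero]
  · rw [← hs, h, sup_bot_eq]
    refine bcSpan_le fun i _ => ?_
    rcases i with _ | _ | _ | _ | i
    · exact Submodule.subset_span (Or.inl rfl)
    · exact Submodule.subset_span (Or.inr (Or.inl rfl))
    · exact Submodule.subset_span (Or.inr (Or.inr (Or.inl rfl)))
    · exact Submodule.subset_span (Or.inr (Or.inr (Or.inr rfl)))
    · have : (y ^ (i + 4)) t = 0 := by
        rw [← bc_pow_add, show (y ^ 4) t = 0 from h4 t ht, map_zero]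
      rw [show i + 1 + 1 + 1 + 1 = i + 4 from rfl, this]
      exact zero_mem _
  · have : bcSpan y t 0 ≤ (bcSpan y t 0).comap y := bcSpan_le fun i _ => by
      rw [Submodule.mem_comap, bc_pow_succ]
      exact bcSpan_mem y t (Nat.zero_le _)
    exact this hu

section Gen

variable {n : ℕ} {B : ℤ → ℤ}

theorem bc_mem_genOm_of_inj {M N : GMod n} {f : M.V →ₗ[ℂ] N.V} (hf : M.IsHom N f)
    (hi : Function.Injective f) {c : ℤ} {m : Fin n → M.V}
    (hm : ptOp (Fin n) f m ∈ genOm (std n) N c) : m ∈ genOm (std n) M c := by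
  obtain ⟨k, hk⟩ := (Module.End.mem_maxGenEigenspace _ _ _).1 hm
  refine (Module.End.mem_maxGenEigenspace _ _ _).2 ⟨k, ptOp_injective (ι := Fin n) hi ?_⟩
  rw [map_zero, ← hk]
  refine trans_pow_semi (fun v => ?_) k m
  simp only [LinearMap.sub_apply, map_sub, LinearMap.smul_apply, End.one_apply, map_smul,
    ptOp_Om (std n) hf]

/-- Lifting of vectors whose components lie in the image. -/
theorem bc_lift {M N : GMod n} (hM : M.Blk B) {f : M.V →ₗ[ℂ] N.V} (hf : M.IsHom N f) {c : ℤ}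
    {a : Wt n} {y : Fin n → N.V} (hy : y ∈ (Ten (std n) N).W a ⊓ genOm (std n) N c)
    (hr : ∀ i, y i ∈ LinearMap.range f) :
    ∃ m ∈ (Ten (std n) M).W a ⊓ genOm (std n) M c, ptOp (Fin n) f m = y := by
  have hs := isHom_subtype N _ hf.stable_range
  have h1 : (fun i => (⟨y i, hr i⟩ : LinearMap.range f)) ∈
      (Ten (std n) (N.sub _ hf.stable_range)).W a ⊓ genOm (std n) (N.sub _ hf.stable_range) c :=
    ⟨(ptOp_hom (std n) hs).mem_W_of_inj (ptOp_injective Subtype.val_injective) hy.1,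
      bc_mem_genOm_of_inj hs Subtype.val_injective hy.2⟩
  obtain ⟨m, hm, e⟩ := genF_surj hM (hf.codRestrict _ hf.stable_range fun v => ⟨v, rfl⟩)
    (fun ⟨_, v, rfl⟩ => ⟨v, rfl⟩) h1
  exact ⟨m, hm, funext fun i => congrArg Subtype.val (congrFun e i)⟩

/-- Maps into a tensor product land in the right generalised eigenspace. -/
theorem bc_hom_mem {M Y : GMod n} {c : ℤ} (hM : M.Blk (move B c)) (hY : Y.Blk B)
    {f : M.V →ₗ[ℂ] (Fin n → Y.V)} (hf : M.IsHom (Ten (std n) Y) f) (x : M.V) :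
    f x ∈ genOm (std n) Y c := by
  choose p hp hp1 hp2 hp3 using exists_pr (std n) Y (iSup_genF hY)
  have h1 : ∀ c', c' ≠ c → p c' (f x) = 0 := fun c' hc' => by
    have hc : M.IsHom (Fc Y c')
        (((p c').comp f).codRestrict (genOm (std n) Y c') fun y => hp1 c' _) :=
      ((hp c').comp hf).codRestrict _ _ _
    exact congrArg Subtype.val (LinearMap.congr_fun (Adm.hom_eq_zero hM (blk_Fc hY c')
      (Set.disjoint_singleton.mpr fun h => hc' (move_inj h).symm) hc) x)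
  have hy : f x ∈ ⨆ c : ℤ, genOm (std n) Y c := iSup_genF hY ▸ Submodule.mem_top
  obtain ⟨u, hu, hsum⟩ := (Submodule.mem_iSup_iff_exists_finsupp _ _).mp hy
  rw [← hsum]
  refine Submodule.sum_mem _ fun c' _ => ?_
  by_cases hcc : c' = c
  · exact hcc ▸ hu c'
  · have h3 := h1 c' hcc
    rw [← hsum, Finsupp.sum, map_sum, Finset.sum_eq_single c'] at h3
    · rw [hp2 c' _ (hu c')] at h3
      exact h3 ▸ zero_mem _
    · exact fun c'' _ hne => hp3 c' c'' hne _ (hu c'')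
    · intro hn
      rw [Finsupp.notMem_support_iff.mp hn, map_zero]

/-- The universal vector of `Fc (Ec M c) c`. -/
theorem bc_univ {M : GMod n} {c : ℤ} (hM : M.Blk (move B c)) {a : Wt n} {v : M.V}
    (hv : v ∈ M.W a) :
    ∃ η ∈ (Ten (std n) (Ec M c)).W a ⊓ genOm (std n) (Ec M c) c,
      ∀ R : GMod n, R.Blk B → ∀ g : M.V →ₗ[ℂ] (Fin n → R.V), M.IsHom (Ten (std n) R) g →
        ∃ φ : (Ec M c).V →ₗ[ℂ] R.V, (Ec M c).IsHom R φ ∧ ptOp (Fin n) φ η = g v := by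
  obtain ⟨π, hπ, hπ1, hπ2, hπ3⟩ := exists_pr (std n).dual M (iSup_genE' hM) (-c - n)
  have h1 : (Ten (std n).dual M).IsHom (Ec M c) (π.codRestrict _ hπ1) :=
    hπ.codRestrict _ (genOm_stable _ _ _) hπ1
  have h2 := adjR_hom (isDual_dual (std n)).symm h1
  refine ⟨adjR (π.codRestrict _ hπ1) v, ⟨h2.map_W hv, bc_hom_mem hM (trans_blk_Ec hM) h2 v⟩,
    fun R hR g hg => ?_⟩
  have h3 : (Ten (std n).dual M).IsHom R (adjL g) := adjL_hom (isDual_dual (std n)).symm hg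
  refine ⟨(adjL g).comp (genOm (std n).dual M (-c - n)).subtype, h3.comp (isHom_subtype _ _ _),
    funext fun i => ?_⟩
  have h4 : (adjL g).comp π = adjL g := by
    refine trans_ext (iSup_genE hM) fun e m hm => ?_
    by_cases hec : e = c
    · subst hec
      rw [LinearMap.comp_apply, hπ2 _ hm]
    · rw [LinearMap.comp_apply, hπ3 _ (fun h => hec (by omega)) _ hm, map_zero]
      exact (LinearMap.congr_fun (Adm.hom_eq_zero (blk_Ec hM e) hR (trans_disj_E hec)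
        (h3.comp (isHom_subtype _ _ (genOm_stable _ _ _)))) ⟨m, hm⟩).symm
  have h5 := congrFun (LinearMap.congr_fun (adjR_adjL g) v) i
  rw [← h5, adjR_apply]
  exact LinearMap.congr_fun h4 _

end Gen

theorem TT_map {M N : GMod 16} {f : M.V →ₗ[ℂ] N.V} (hf : M.IsHom N f) {m : Fin 16 → M.V}
    (hm : m ∈ TT M) : ptOp (Fin 16) f m ∈ TT N :=
  ⟨(ptOp_hom (std 16) hf).map_W hm.1, ptOp_mem_genOm (std 16) hf hm.2⟩

theorem yT_map {M N : GMod 16} {f : M.V →ₗ[ℂ] N.V} (hf : M.IsHom N f) (m : Fin 16 → M.V) :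
    ptOp (Fin 16) f (yT M m) = yT N (ptOp (Fin 16) f m) := by
  simp only [yT, LinearMap.sub_apply, map_sub, LinearMap.smul_apply, End.one_apply, map_smul,
    ptOp_Om (std 16) hf]

theorem yT_mem (M : GMod 16) : ∀ m ∈ TT M, yT M m ∈ TT M := fun _ hm =>
  (TT M).sub_mem ⟨(Om_hom (std 16) M).map_W hm.1,
    Module.End.mapsTo_maxGenEigenspace_of_comm (Commute.refl _) _ hm.2⟩
    (Submodule.smul_mem _ _ hm)

theorem yT_nil {M : GMod 16} {m : Fin 16 → M.V} (hm : m ∈ TT M) : ∃ N : ℕ, (yT M ^ N) m = 0 := by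
  obtain ⟨k, hk⟩ := (Module.End.mem_maxGenEigenspace _ _ _).1 hm.2
  exact ⟨k, by simpa [yT] using hk⟩

theorem TT_fin {M : GMod 16} {B : ℤ → ℤ} (hM : M.Blk B) : FiniteDimensional ℂ (TT M) :=
  have := (adm_ten (std 16) hM).fin a0
  Submodule.finiteDimensional_of_le (S₂ := (Ten (std 16) M).W a0) inf_le_left

theorem TT_finrank (M : GMod 16) : finrank ℂ ((Fc M 4).W a0) = finrank ℂ (TT M) := by
  have h : ((Fc M 4).W a0).map (genOm (std 16) M 4).subtype = TT M := by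
    ext m
    constructor
    · rintro ⟨x, hx, rfl⟩
      exact ⟨(mem_W_sub _ _ _ _ _).1 hx, x.2⟩
    · exact fun hm => ⟨⟨m, hm.2⟩, (mem_W_sub _ _ _ _ _).2 hm.1, rfl⟩
  rw [← h, Submodule.finrank_map_subtype_eq]

theorem bc_blk {M : GMod 16} (hM : M.Blk Blam) : (Fc M 4).Blk (cnt a0) := move_lam ▸ blk_Fc hM 4

theorem bc_par {M : GMod 16} (hP : Par M) : Par (Fc M 4) :=
  Par.of_inj (isHom_subtype _ _ _) Subtype.val_injective (hP.ten (std 16))

theorem bc_subsingleton {M : GMod 16} (hM : M.Blk Blam) (hP : Par M)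
    (h0 : ∀ m ∈ TT M, m = 0) : Subsingleton (Fc M 4).V := by
  by_contra h
  have : Nontrivial (Fc M 4).V := not_subsingleton_iff_nontrivial.1 h
  refine Par.W_ne_bot (bc_blk hM) (bc_par hP) ((Submodule.eq_bot_iff _).2 fun x hx => ?_)
  exact Subtype.ext (h0 _ ⟨(mem_W_sub _ _ _ _ _).1 hx, x.2⟩)

/-- The module `P` representing the functor `TT`. -/
theorem bc_rep : ∃ (P : GMod 16) (η : Fin 16 → P.V), P.Blk Blam ∧ η ∈ TT P ∧
    finrank ℂ (TT P) = 4 ∧ ∀ R : GMod 16, R.Blk Blam → Par R → ∀ u ∈ TT R,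
      ∃ φ : P.V →ₗ[ℂ] R.V, P.IsHom R φ ∧ ptOp (Fin 16) φ η = u := by
  obtain ⟨M, v, hS, hv, hv0, hB, -, hf, h1⟩ := exists_M0
  have hB' : M.Blk (move Blam 4) := move_lam ▸ hB
  obtain ⟨η, hη, H⟩ := bc_univ hB' hv.1
  refine ⟨Ec M 4, η, trans_blk_Ec hB', hη, ?_, fun R hR hP u hu => ?_⟩
  · have h2 := finrank_Fc_Ec hB hf a0
    rw [TT_finrank, h1, show (4 : ℤ) + 1 = 5 from rfl, cnt_a0_diff] at h2
    exact_mod_cast h2
  · obtain ⟨f, hf, e⟩ := hS.hom_of_prim hv hv0 (bc_blk hR)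
      (fun b hb => col_mu ((bc_par hP).colS hb) ((bc_blk hR).prim b hb)) (u := ⟨u, hu.2⟩)
      ((mem_W_sub _ _ _ _ _).2 hu.1)
    obtain ⟨φ, hφ, e'⟩ := H R hR _ ((isHom_subtype _ _ _).comp hf)
    exact ⟨φ, hφ, e'.trans (congrArg Subtype.val e)⟩

/-- Submodules whose translation lies in `U`. -/
def bcGood (R : GMod 16) (U : Submodule ℂ (Fin 16 → R.V)) : Set (Submodule ℂ R.V) :=
  {S | R.Stable S ∧ ∀ m ∈ TT R, (∀ i, m i ∈ S) → m ∈ U}

theorem bcGood_bot (R : GMod 16) (U : Submodule ℂ (Fin 16 → R.V)) : ⊥ ∈ bcGood R U :=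
  ⟨R.stable_bot, fun m _ h => (show m = 0 from funext h) ▸ zero_mem _⟩

theorem bcGood_sup {R : GMod 16} (hR : R.Blk Blam) {U : Submodule ℂ (Fin 16 → R.V)}
    {S T : Submodule ℂ R.V} (hS : S ∈ bcGood R U) (hT : T ∈ bcGood R U) :
    S ⊔ T ∈ bcGood R U := by
  refine ⟨hS.1.sup hT.1, fun m hm h => ?_⟩
  have h1 := (isHom_subtype R S hS.1).comp (isHom_fst (R.sub S hS.1) (R.sub T hT.1))
  have h2 := (isHom_subtype R T hT.1).comp (isHom_snd (R.sub S hS.1) (R.sub T hT.1))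
  obtain ⟨p, hp, e⟩ := bc_lift (Adm.prod (hR.sub S hS.1) (hR.sub T hT.1)) (h1.add h2) hm
    fun i => by
      obtain ⟨s, hs, t, ht, e⟩ := Submodule.mem_sup.1 (h i)
      exact ⟨(⟨s, hs⟩, ⟨t, ht⟩), e⟩
  rw [← e]
  exact add_mem (hS.2 _ (TT_map h1 hp) fun i => (p i).1.2) (hT.2 _ (TT_map h2 hp) fun i => (p i).2.2)

theorem bcGood_sSup {R : GMod 16} (hR : R.Blk Blam) (U : Submodule ℂ (Fin 16 → R.V)) :
    sSup (bcGood R U) ∈ bcGood R U := by
  refine ⟨?_, fun m hm h => ?_⟩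
  · rw [sSup_eq_iSup']
    exact stable_iSup fun S => S.2.1
  · have hd : DirectedOn (· ≤ ·) (bcGood R U) := fun S hS T hT =>
      ⟨S ⊔ T, bcGood_sup hR hS hT, le_sup_left, le_sup_right⟩
    choose S hS hS' using fun i =>
      (Submodule.mem_sSup_of_directed ⟨_, bcGood_bot R U⟩ hd).1 (h i)
    have : Finset.univ.sup S ∈ bcGood R U :=
      Finset.sup_induction (p := (· ∈ bcGood R U)) (bcGood_bot R U)
        (fun _ h1 _ h2 => bcGood_sup hR h1 h2) fun i _ => hS i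
    exact this.2 m hm fun i => Finset.le_sup (f := S) (Finset.mem_univ i) (hS' i)

attribute [local irreducible] yT in
theorem bcore (R R' : GMod 16) (hR : R.Blk Blam) (hP : Par R) (hR' : R'.Blk Blam) (hP' : Par R')
    (hq : ∃ q ∈ TT R', yT R' (yT R' (yT R' q)) ≠ 0)
    (hnc : ¬ ∃ t ∈ TT R, TT R ≤
      Submodule.span ℂ {t, yT R t, yT R (yT R t), yT R (yT R (yT R t))})
    (hsub : ∀ K, ∀ hK : R.Stable K, Subsingleton (Fc (R.sub K hK) 4).V → K = ⊥)
    (hquot : ∀ K, ∀ hK : R.Stable K, Subsingleton (Fc (R.quot K hK) 4).V → K = ⊤) :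
    ∃ N₁ N₂, R.Stable N₁ ∧ R.Stable N₂ ∧ N₁ ≠ ⊥ ∧ N₂ ≠ ⊥ ∧ IsCompl N₁ N₂ := by
  obtain ⟨P, η, hPB, hη, h4, H⟩ := bc_rep
  have := TT_fin hPB
  have := TT_fin hR
  have h3 : yT P (yT P (yT P η)) ≠ 0 := fun h => by
    obtain ⟨q, hq, hq0⟩ := hq
    obtain ⟨φ, hφ, rfl⟩ := H R' hR' hP' q hq
    exact hq0 (by rw [← yT_map hφ, ← yT_map hφ, ← yT_map hφ, h, map_zero])
  obtain ⟨hz, hcyc⟩ := bc_cyclic h4 (yT_mem P) hη (yT_nil hη) h3
  obtain ⟨U₁, U₂, h1, h2, hd, hs, hy1, hy2⟩ := exists_compl_of_not_cyclic (TT R) (yT R) (yT_mem R)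
    (fun u hu => by
      obtain ⟨φ, hφ, rfl⟩ := H R hR hP u hu
      rw [← yT_map hφ, ← yT_map hφ, ← yT_map hφ, ← yT_map hφ, hz, map_zero]) hnc
  have key : ∀ U : Submodule ℂ (Fin 16 → R.V), U ≤ TT R → (∀ u ∈ U, yT R u ∈ U) →
      ∀ u ∈ U, ∀ i, u i ∈ sSup (bcGood R U) := fun U hU hy u hu i => by
    obtain ⟨φ, hφ, rfl⟩ := H R hR hP u (hU hu)
    have hg : LinearMap.range φ ∈ bcGood R U := by
      refine ⟨hφ.stable_range, fun m hm h => ?_⟩
      obtain ⟨p, hp, rfl⟩ := bc_lift hPB hφ hm h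
      have : Submodule.span ℂ {η, yT P η, yT P (yT P η), yT P (yT P (yT P η))} ≤
          U.comap (ptOp (Fin 16) φ) := by
        have hs : ∀ x, x ∈ U.comap (ptOp (Fin 16) φ) → yT P x ∈ U.comap (ptOp (Fin 16) φ) :=
          fun x hx => by
            rw [Submodule.mem_comap, yT_map hφ]
            exact hy _ hx
        refine Submodule.span_le.2 fun x hx => ?_
        rcases hx with h | h | h | h <;> rw [h]
        exacts [hu, hs _ hu, hs _ (hs _ hu), hs _ (hs _ (hs _ hu))]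
      exact this (hcyc hp)
    exact le_sSup hg ⟨η i, rfl⟩
  have k1 := key U₁ (hs ▸ le_sup_left) hy1
  have k2 := key U₂ (hs ▸ le_sup_right) hy2
  have g1 := bcGood_sSup hR U₁
  have g2 := bcGood_sSup hR U₂
  have ne : ∀ (U : Submodule ℂ (Fin 16 → R.V)) (N : Submodule ℂ R.V), U ≠ ⊥ →
      (∀ u ∈ U, ∀ i, u i ∈ N) → N ≠ ⊥ := fun U N hU h hN =>
    hU ((Submodule.eq_bot_iff _).2 fun u hu => funext fun i => by simpa [hN] using h u hu i)
  refine ⟨_, _, g1.1, g2.1, ne _ _ h1 k1, ne _ _ h2 k2, disjoint_iff.2 ?_, codisjoint_iff.2 ?_⟩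
  · have hK := g1.1.inf g2.1
    have hi := isHom_subtype R _ hK
    refine hsub _ hK (bc_subsingleton (hR.sub _ hK) (hP.of_inj hi Subtype.val_injective)
      fun m hm => ptOp_injective (ι := Fin 16) (f := Submodule.subtype _) Subtype.val_injective ?_)
    rw [map_zero]
    exact Submodule.disjoint_def.1 hd _ (g1.2 _ (TT_map hi hm) fun i => (m i).2.1)
      (g2.2 _ (TT_map hi hm) fun i => (m i).2.2)
  · have hK := g1.1.sup g2.1
    have hi := isHom_mkQ R _ hK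
    refine hquot _ hK (bc_subsingleton (hR.quot _ hK)
      (hP.of_surj hi (Submodule.mkQ_surjective _)) fun m hm => ?_)
    obtain ⟨p, hp, rfl⟩ := genF_surj hR hi (Submodule.mkQ_surjective _) hm
    have hp' : p ∈ U₁ ⊔ U₂ := hs ▸ hp
    obtain ⟨u, hu, w, hw, rfl⟩ := Submodule.mem_sup.1 hp'
    exact funext fun i => (Submodule.Quotient.mk_eq_zero _).2
      (add_mem (Submodule.mem_sup_left (k1 u hu i)) (Submodule.mem_sup_right (k2 w hw i)))

end Pool.Agent.KM
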