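import Pool.Agent.Lib.MP_515a76_al.GHW

/-! Closure properties of admissible modules and induction principles. -/

namespace Pool.Agent.KM.GMod

open Module

variable {n : ℕ} {𝔅 𝔅' : Set (ℤ → ℤ)}

theorem Sing.prim {M : GMod n} {a : Wt n} {v : M.V} (hv : M.Sing a v) (h0 : v ≠ 0) : M.Prim a := by
  exact ⟨⊥, M.stable_bot, v, hv.1, h0, fun i j hij => hv.2 i j hij⟩

theorem Prim.of_surj {M N : GMod n} {f : M.V →ₗ[ℂ] N.V} (hf : M.IsHom N f)
    (hs : Function.Surjective f) (hw : ⨆ a, M.W a = ⊤) {a : Wt n} (h : N.Prim a) : M.Prim a := by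
  obtain ⟨K, hK, y, hy, hyK, hE⟩ := h
  obtain ⟨v, hv, rfl⟩ := hf.W_surj hw hy (hs y)
  refine ⟨K.comap f, hf.stable_comap hK, v, hv, hyK, fun i j hij => ?_⟩
  rw [Submodule.mem_comap, hf]
  exact hE i j hij

theorem Prim.of_inj {M N : GMod n} {f : M.V →ₗ[ℂ] N.V} (hf : M.IsHom N f)
    (hi : Function.Injective f) {a : Wt n} (h : M.Prim a) : N.Prim a := by
  obtain ⟨K, hK, v, hv, hvK, hE⟩ := h
  refine ⟨K.map f, hf.stable_map hK, f v, hf.map_W hv, ?_, fun i j hij => ?_⟩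
  · rintro ⟨w, hw, hwv⟩
    exact hvK (hi hwv ▸ hw)
  · exact ⟨_, hE i j hij, hf _ v⟩

theorem Adm.mono {M : GMod n} (h : M.Adm 𝔅) (hf : 𝔅'.Finite) (hp : ∀ a, M.Prim a → cnt a ∈ 𝔅') :
    M.Adm 𝔅' := ⟨hf, h.wt, h.fin, h.bdd, hp⟩

theorem IsHom.mem_W_of_inj {M N : GMod n} {f : M.V →ₗ[ℂ] N.V} (hf : M.IsHom N f)
    (hi : Function.Injective f) {a : Wt n} {v : M.V} (hv : f v ∈ N.W a) : v ∈ M.W a := by
  rw [mem_W] at hv ⊢
  intro j
  apply hi
  rw [hf, map_smul]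
  exact hv j

theorem Adm.of_inj {M N : GMod n} {f : M.V →ₗ[ℂ] N.V} (hf : M.IsHom N f)
    (hi : Function.Injective f) (h : N.Adm 𝔅) : M.Adm 𝔅 := by
  refine ⟨h.finB, ?_, fun a => ?_, ?_, fun a ha => h.prim a (ha.of_inj hf hi)⟩
  · refine top_unique fun v _ => ?_
    have h1 : LinearMap.range f ≤ (⨆ a, M.W a).map f := by
      rw [hf.stable_range.eq_iSup h.wt]
      refine iSup_le fun a => ?_
      rintro _ ⟨⟨w, rfl⟩, hw⟩
      exact ⟨w, Submodule.mem_iSup_of_mem a (hf.mem_W_of_inj hi hw), rfl⟩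
    obtain ⟨w, hw, hwv⟩ := h1 ⟨v, rfl⟩
    exact hi hwv ▸ hw
  · have := h.fin a
    refine FiniteDimensional.of_injective
      (f.restrict (p := M.W a) (q := N.W a) fun _ hx => hf.map_W hx) fun x y hxy => ?_
    exact Subtype.ext (hi (congrArg Subtype.val hxy))
  · obtain ⟨b, hb⟩ := h.bdd
    refine ⟨b, fun a ha => hb a ?_⟩
    obtain ⟨v, hv, h0⟩ := (Submodule.ne_bot_iff _).mp ha
    exact (Submodule.ne_bot_iff _).mpr ⟨f v, hf.map_W hv, fun h' => h0 (hi (h'.trans f.map_zero.symm))⟩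

theorem Adm.of_surj {M N : GMod n} {f : M.V →ₗ[ℂ] N.V} (hf : M.IsHom N f)
    (hs : Function.Surjective f) (h : M.Adm 𝔅) : N.Adm 𝔅 := by
  refine ⟨h.finB, ?_, fun a => ?_, ?_, fun a ha => h.prim a (ha.of_surj hf hs h.wt)⟩
  · have h1 : (⨆ a, M.W a).map f ≤ ⨆ a, N.W a := by
      rw [Submodule.map_iSup]
      refine iSup_mono fun a => ?_
      rintro _ ⟨w, hw, rfl⟩
      exact hf.map_W hw
    rw [h.wt, Submodule.map_top, LinearMap.range_eq_top.mpr hs] at h1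
    exact top_unique h1
  · have := h.fin a
    refine Module.Finite.of_surjective
      (f.restrict (p := M.W a) (q := N.W a) fun _ hx => hf.map_W hx) fun y => ?_
    obtain ⟨v, hv, hvy⟩ := hf.W_surj h.wt y.2 (hs y)
    exact ⟨⟨v, hv⟩, Subtype.ext hvy⟩
  · obtain ⟨b, hb⟩ := h.bdd
    refine ⟨b, fun a ha => hb a ?_⟩
    obtain ⟨y, hy, h0⟩ := (Submodule.ne_bot_iff _).mp ha
    obtain ⟨v, hv, rfl⟩ := hf.W_surj h.wt hy (hs y)
    exact (Submodule.ne_bot_iff _).mpr ⟨v, hv, fun h' => h0 (by rw [h', map_zero])⟩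

theorem Adm.sub {M : GMod n} (h : M.Adm 𝔅) (S : Submodule ℂ M.V) (hS : M.Stable S) :
    (M.sub S hS).Adm 𝔅 := Adm.of_inj (isHom_subtype M S hS) Subtype.val_injective h

theorem Adm.quot {M : GMod n} (h : M.Adm 𝔅) (S : Submodule ℂ M.V) (hS : M.Stable S) :
    (M.quot S hS).Adm 𝔅 := Adm.of_surj (isHom_mkQ M S hS) (Submodule.mkQ_surjective S) h

theorem Adm.iso {M N : GMod n} (h : M.Adm 𝔅) (e : M.Iso N) : N.Adm 𝔅 := by
  obtain ⟨e, he⟩ := e
  exact Adm.of_surj he e.surjective h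

theorem prim_ext {M : GMod n} (hw : ⨆ a, M.W a = ⊤) (S : Submodule ℂ M.V) (hS : M.Stable S)
    {a : Wt n} (h : M.Prim a) : (M.sub S hS).Prim a ∨ (M.quot S hS).Prim a := by
  obtain ⟨K, hK, v, hv, hvK, hE⟩ := h
  by_cases hvs : v ∈ K ⊔ S
  · left
    have h1 : v ∈ (M.W a ⊓ K) ⊔ (M.W a ⊓ S) := by
      rw [← W_inf_sup hw hK hS]
      exact ⟨hv, hvs⟩
    obtain ⟨k, hk, s, hs, rfl⟩ := Submodule.mem_sup.mp h1
    refine ⟨K.comap S.subtype, (isHom_subtype M S hS).stable_comap hK, ⟨s, hs.2⟩,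
      (mem_W_sub M S hS a _).mpr hs.1, fun h' => hvK (K.add_mem hk.2 h'), fun i j hij => ?_⟩
    have h2 := hE i j hij
    rw [map_add] at h2
    exact (K.add_mem_iff_right (hK _ _ hk.2)).mp h2
  · right
    refine ⟨K.map S.mkQ, (isHom_mkQ M S hS).stable_map hK, S.mkQ v, (isHom_mkQ M S hS).map_W hv,
      fun h' => hvs ?_, fun i j hij => ⟨_, hE i j hij, rfl⟩⟩
    rw [sup_comm, ← Submodule.comap_map_mkQ]
    exact h'

theorem isHom_fst (M N : GMod n) : (M.prod N).IsHom M (LinearMap.fst ℂ M.V N.V) :=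
  fun _ _ => rfl

theorem isHom_snd (M N : GMod n) : (M.prod N).IsHom N (LinearMap.snd ℂ M.V N.V) :=
  fun _ _ => rfl

theorem isHom_inl (M N : GMod n) : M.IsHom (M.prod N) (LinearMap.inl ℂ M.V N.V) :=
  fun A _ => Prod.ext rfl (N.ρ A).map_zero.symm

theorem isHom_inr (M N : GMod n) : N.IsHom (M.prod N) (LinearMap.inr ℂ M.V N.V) :=
  fun A _ => Prod.ext (M.ρ A).map_zero.symm rfl

theorem Adm.prod {M N : GMod n} (hM : M.Adm 𝔅) (hN : N.Adm 𝔅) : (M.prod N).Adm 𝔅 := by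
  have hw : ⨆ a, (M.prod N).W a = ⊤ := by
    refine top_unique fun v _ => ?_
    have h1 : (⨆ a, M.W a).map (LinearMap.inl ℂ M.V N.V) ≤ ⨆ a, (M.prod N).W a := by
      rw [Submodule.map_iSup]
      refine iSup_mono fun a => ?_
      rintro _ ⟨w, hw, rfl⟩
      exact (isHom_inl M N).map_W hw
    have h2 : (⨆ a, N.W a).map (LinearMap.inr ℂ M.V N.V) ≤ ⨆ a, (M.prod N).W a := by
      rw [Submodule.map_iSup]
      refine iSup_mono fun a => ?_
      rintro _ ⟨w, hw, rfl⟩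
      exact (isHom_inr M N).map_W hw
    rw [hM.wt] at h1
    rw [hN.wt] at h2
    have h3 : v = LinearMap.inl ℂ M.V N.V v.1 + LinearMap.inr ℂ M.V N.V v.2 := by simp
    rw [h3]
    exact Submodule.add_mem _ (h1 ⟨_, trivial, rfl⟩) (h2 ⟨_, trivial, rfl⟩)
  refine ⟨hM.finB, hw, fun a => ?_, ?_, fun a ha => ?_⟩
  · have := hM.fin a
    have := hN.fin a
    refine FiniteDimensional.of_injective (LinearMap.prod
      ((LinearMap.fst ℂ M.V N.V).restrict (p := (M.prod N).W a) (q := M.W a)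
        fun _ hx => (isHom_fst M N).map_W hx)
      ((LinearMap.snd ℂ M.V N.V).restrict (p := (M.prod N).W a) (q := N.W a)
        fun _ hx => (isHom_snd M N).map_W hx)) fun x y hxy => ?_
    exact Subtype.ext (Prod.ext (congrArg (fun p => (p.1 : M.V)) hxy)
      (congrArg (fun p => (p.2 : N.V)) hxy))
  · obtain ⟨b, hb⟩ := hM.bdd
    obtain ⟨c, hc⟩ := hN.bdd
    refine ⟨max b c, fun a ha => ?_⟩
    obtain ⟨v, hv, h0⟩ := (Submodule.ne_bot_iff _).mp ha
    by_cases h1 : v.1 = 0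
    · refine le_max_of_le_right (hc a ((Submodule.ne_bot_iff _).mpr
        ⟨v.2, (isHom_snd M N).map_W hv, fun h2 => h0 (Prod.ext h1 h2)⟩))
    · exact le_max_of_le_left (hb a ((Submodule.ne_bot_iff _).mpr
        ⟨v.1, (isHom_fst M N).map_W hv, h1⟩))
  · have hS := (isHom_snd M N).stable_ker
    rcases prim_ext hw _ hS ha with h1 | h1
    · refine hM.prim a (h1.of_inj ((isHom_fst M N).comp (isHom_subtype _ _ hS)) fun x y hxy => ?_)
      exact Subtype.ext (Prod.ext hxy ((LinearMap.mem_ker.mp x.2).trans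
        (LinearMap.mem_ker.mp y.2).symm))
    · refine hN.prim a (h1.of_inj ((isHom_snd M N).liftQ _ hS le_rfl) ?_)
      exact LinearMap.ker_eq_bot.mp (Submodule.ker_liftQ_eq_bot _ _ _ le_rfl)

theorem adm_of_subsingleton (M : GMod n) [Subsingleton M.V] (hf : 𝔅.Finite) : M.Adm 𝔅 := by
  refine ⟨hf, Subsingleton.elim _ _, fun a => inferInstance,
    ⟨0, fun a ha => absurd (Subsingleton.elim _ _) ha⟩, fun a ha => ?_⟩
  obtain ⟨K, -, v, -, hv, -⟩ := ha
  exact absurd (Subsingleton.elim 0 v ▸ K.zero_mem) hv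

theorem Adm.exists_sing_ge {M : GMod n} (h : M.Adm 𝔅) {a : Wt n} (ha : M.W a ≠ ⊥) :
    ∃ b v, v ≠ 0 ∧ M.Sing b v ∧ cnt b ∈ 𝔅 ∧ toLex a ≤ toLex b := by
  obtain ⟨c, hc⟩ := h.bdd
  have key : ∀ (k : ℕ) (a : Wt n), c - ht a < k → M.W a ≠ ⊥ →
      ∃ b v, v ≠ 0 ∧ M.Sing b v ∧ cnt b ∈ 𝔅 ∧ toLex a ≤ toLex b := by
    intro k
    induction k with
    | zero =>
      intro a h1 ha
      have := hc a ha
      omega
    | succ k ih =>
      intro a h1 ha
      obtain ⟨v, hv, h0⟩ := (Submodule.ne_bot_iff _).mp ha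
      by_cases hs : ∀ i j : Fin n, i < j → M.E i j v = 0
      · exact ⟨a, v, h0, ⟨hv, hs⟩, h.prim a (Sing.prim ⟨hv, hs⟩ h0), le_rfl⟩
      · push Not at hs
        obtain ⟨i, j, hij, hE⟩ := hs
        have h2 := ht_root a i j
        have h3 : (i : ℕ) < j := hij
        obtain ⟨b, w, hw0, hw, hb, hle⟩ := ih (a + eps i - eps j) (by omega)
          ((Submodule.ne_bot_iff _).mpr ⟨_, E_mem_W hv i j, hE⟩)
        exact ⟨b, w, hw0, hw, hb, (lex_root a hij).le.trans hle⟩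
  exact key ((c - ht a).toNat + 1) a (by omega) ha

theorem Adm.exists_sing {M : GMod n} (h : M.Adm 𝔅) [Nontrivial M.V] :
    ∃ b v, v ≠ 0 ∧ M.Sing b v ∧ cnt b ∈ 𝔅 := by
  have h1 : ∃ a, M.W a ≠ ⊥ := by
    by_contra hc
    push Not at hc
    have h2 := h.wt
    simp only [hc, iSup_bot] at h2
    exact bot_ne_top h2
  obtain ⟨a, ha⟩ := h1
  obtain ⟨b, v, h0, hv, hb, -⟩ := h.exists_sing_ge ha
  exact ⟨b, v, h0, hv, hb⟩

theorem Adm.subsingleton {M : GMod n} (h : M.Adm 𝔅) (h0 : ∀ a, M.Prim a → False) :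
    Subsingleton M.V := by
  by_contra hc
  have := not_subsingleton_iff_nontrivial.mp hc
  obtain ⟨b, v, hv0, hv, -⟩ := h.exists_sing
  exact h0 b (hv.prim hv0)

theorem Blk.subsingleton_of_neg {M : GMod n} {B : ℤ → ℤ} (h : M.Blk B) {c : ℤ} (hc : B c < 0) :
    Subsingleton M.V := by
  refine Adm.subsingleton h fun a ha => ?_
  have h1 : cnt a = B := h.prim a ha
  have h2 := cnt_nonneg a c
  rw [h1] at h2
  omega

/-- Submodules are determined by finitely many weight spaces. -/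
theorem Adm.le_of_W {M : GMod n} (h : M.Adm 𝔅) {S T : Submodule ℂ M.V} (hS : M.Stable S)
    (hT : M.Stable T) (hle : ∀ a, cnt a ∈ 𝔅 → S ⊓ M.W a ≤ T) : S ≤ T := by
  have hT' := (isHom_subtype M S hS).stable_comap hT
  have h1 := h.sub S hS
  have h2 := h1.quot _ hT'
  have h3 : Subsingleton ((M.sub S hS).quot _ hT').V := by
    by_contra hc
    have := not_subsingleton_iff_nontrivial.mp hc
    obtain ⟨b, y, hy0, hy, hb⟩ := h2.exists_sing
    obtain ⟨s, hs, rfl⟩ := (isHom_mkQ _ _ hT').W_surj h1.wt hy.1 (Submodule.mkQ_surjective _ y)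
    exact hy0 ((Submodule.Quotient.mk_eq_zero _).mpr
      (hle b hb ⟨s.2, (mem_W_sub M S hS b s).mp hs⟩))
  intro v hv
  exact (Submodule.Quotient.mk_eq_zero (T.comap S.subtype) (x := ⟨v, hv⟩)).mp
    (h3.elim _ _)

theorem Adm.finite_top {M : GMod n} (h : M.Adm 𝔅) :
    FiniteDimensional ℂ (⨆ a : {a : Wt n // cnt a ∈ 𝔅}, M.W a.1 : Submodule ℂ M.V) := by
  have h1 : {a : Wt n | cnt a ∈ 𝔅}.Finite :=
    (h.finB.biUnion fun B _ => finite_cnt (n := n) B).subset fun a ha =>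
      Set.mem_biUnion ha rfl
  have : Finite {a : Wt n // cnt a ∈ 𝔅} := h1
  have := fun a : {a : Wt n // cnt a ∈ 𝔅} => h.fin a.1
  infer_instance

theorem Adm.hom_eq_zero {M N : GMod n} (hM : M.Adm 𝔅) (hN : N.Adm 𝔅') (hd : Disjoint 𝔅 𝔅')
    {f : M.V →ₗ[ℂ] N.V} (hf : M.IsHom N f) : f = 0 := by
  have hR := hf.stable_range
  have h1 := hN.sub _ hR
  have h2 : (N.sub _ hR).Adm 𝔅 :=
    Adm.of_surj (hf.codRestrict _ hR fun v => ⟨v, rfl⟩) f.surjective_rangeRestrict hM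
  have h3 := h1.subsingleton fun a ha => Set.disjoint_left.mp hd (h2.prim a ha) (h1.prim a ha)
  ext v
  exact congrArg Subtype.val (h3.elim (⟨f v, v, rfl⟩ : LinearMap.range f) 0)

/-- The sum of the weight spaces in the given blocks. -/
def admTop (M : GMod n) (𝔅 : Set (ℤ → ℤ)) : Submodule ℂ M.V :=
  ⨆ a : {a : Wt n // cnt a ∈ 𝔅}, M.W a.1

theorem W_le_admTop {M : GMod n} {a : Wt n} (ha : cnt a ∈ 𝔅) : M.W a ≤ M.admTop 𝔅 :=
  le_iSup (fun a : {a : Wt n // cnt a ∈ 𝔅} => M.W a.1) ⟨a, ha⟩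

theorem Adm.finrank_sub_lt {M : GMod n} (h : M.Adm 𝔅) {K : Submodule ℂ M.V} (hK : M.Stable K)
    (hKt : K ≠ ⊤) : finrank ℂ ((M.sub K hK).admTop 𝔅) < finrank ℂ (M.admTop 𝔅) := by
  have i1 : FiniteDimensional ℂ (M.admTop 𝔅) := h.finite_top
  have h1 : ((M.sub K hK).admTop 𝔅).map K.subtype ≤ M.admTop 𝔅 := by
    rw [admTop, Submodule.map_iSup]
    refine iSup_le fun a => ?_
    rintro _ ⟨w, hw, rfl⟩
    exact W_le_admTop a.2 ((mem_W_sub M K hK _ w).mp hw)
  rw [← Submodule.finrank_map_subtype_eq K]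
  refine Submodule.finrank_lt_finrank_of_lt (lt_of_le_of_ne h1 fun h2 => hKt ?_)
  refine top_unique (h.le_of_W M.stable_top hK fun a ha => ?_)
  exact (inf_le_right.trans ((W_le_admTop ha).trans h2.ge)).trans (Submodule.map_subtype_le _ _)

theorem Adm.finrank_quot_lt {M : GMod n} (h : M.Adm 𝔅) {K : Submodule ℂ M.V} (hK : M.Stable K)
    {v : M.V} (hv : v ∈ M.admTop 𝔅) (hvK : v ∈ K) (h0 : v ≠ 0) :
    finrank ℂ ((M.quot K hK).admTop 𝔅) < finrank ℂ (M.admTop 𝔅) := by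
  have i1 : FiniteDimensional ℂ (M.admTop 𝔅) := h.finite_top
  have h1 : (M.quot K hK).admTop 𝔅 ≤ (M.admTop 𝔅).map K.mkQ := by
    refine iSup_le fun a y hy => ?_
    obtain ⟨w, hw, rfl⟩ := (isHom_mkQ M K hK).W_surj h.wt hy (K.mkQ_surjective y)
    exact ⟨w, W_le_admTop a.2 hw, rfl⟩
  have h2 := LinearMap.finrank_range_add_finrank_ker (K.mkQ.domRestrict (M.admTop 𝔅))
  rw [LinearMap.range_domRestrict] at h2
  have h3 : 0 < finrank ℂ (LinearMap.ker (K.mkQ.domRestrict (M.admTop 𝔅))) :=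
    Module.finrank_pos_iff_exists_ne_zero.mpr
      ⟨⟨⟨v, hv⟩, (Submodule.Quotient.mk_eq_zero K).mpr hvK⟩,
        fun h' => h0 (congrArg (fun x => (x.1.1 : M.V)) h')⟩
  exact (Submodule.finrank_mono h1).trans_lt ((Nat.lt_add_of_pos_right h3).trans_eq h2)

theorem Adm.exists_simple_quot {M : GMod n} (h : M.Adm 𝔅) [Nontrivial M.V] :
    ∃ K, ∃ hK : M.Stable K, (M.quot K hK).Simple := by
  have := h.finite_top
  obtain ⟨K, ⟨hK, hKt⟩, hmax⟩ := (InvImage.wf
    (fun K : Submodule ℂ M.V => finrank ℂ (M.admTop 𝔅) - finrank ℂ (K ⊓ M.admTop 𝔅 : Submodule ℂ M.V))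
    Nat.lt_wfRel.wf).has_min {K | M.Stable K ∧ K ≠ ⊤} ⟨⊥, M.stable_bot, bot_ne_top⟩
  refine ⟨K, hK, Submodule.Quotient.nontrivial_iff.mpr hKt, fun S hS => ?_⟩
  by_cases hSt : S = ⊤
  · exact Or.inr hSt
  left
  have hK' := (isHom_mkQ M K hK).stable_comap hS
  have h1 : S.comap K.mkQ ≠ ⊤ := fun h' => hSt (top_unique fun y _ => by
    obtain ⟨v, rfl⟩ := K.mkQ_surjective y
    exact (h'.ge Submodule.mem_top : v ∈ S.comap K.mkQ))
  have h2 : K ≤ S.comap K.mkQ := Submodule.le_comap_mkQ K S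
  have h3 := hmax _ ⟨hK', h1⟩
  have i1 : FiniteDimensional ℂ (M.admTop 𝔅) := this
  have i2 : FiniteDimensional ℂ (S.comap K.mkQ ⊓ M.admTop 𝔅 : Submodule ℂ M.V) :=
    Submodule.finiteDimensional_of_le inf_le_right
  have h4 := Submodule.finrank_mono (inf_le_right (a := S.comap K.mkQ) (b := M.admTop 𝔅))
  have h5 := Submodule.finrank_mono (inf_le_right (a := K) (b := M.admTop 𝔅))
  have h6 : K ⊓ M.admTop 𝔅 = S.comap K.mkQ ⊓ M.admTop 𝔅 := by
    refine Submodule.eq_of_le_of_finrank_le (inf_le_inf_right _ h2) ?_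
    have h7 : ¬ (finrank ℂ (M.admTop 𝔅) - finrank ℂ (S.comap K.mkQ ⊓ M.admTop 𝔅 : Submodule ℂ M.V) <
      finrank ℂ (M.admTop 𝔅) - finrank ℂ (K ⊓ M.admTop 𝔅 : Submodule ℂ M.V)) := h3
    omega
  have h8 : S.comap K.mkQ ≤ K := h.le_of_W hK' hK fun a ha =>
    ((inf_le_inf_left _ (W_le_admTop ha)).trans h6.ge).trans inf_le_left
  refine (Submodule.eq_bot_iff _).mpr fun y hy => ?_
  obtain ⟨v, rfl⟩ := K.mkQ_surjective y
  exact (Submodule.Quotient.mk_eq_zero K).mpr (h8 hy)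

/-- Induction on the length. -/
theorem Adm.induction {P : GMod n → Prop} (h0 : ∀ M : GMod n, Subsingleton M.V → P M)
    (hstep : ∀ (M : GMod n), M.Adm 𝔅 → ∀ K, ∀ hK : M.Stable K, (M.quot K hK).Simple →
      P (M.sub K hK) → P M) (M : GMod n) (hM : M.Adm 𝔅) : P M := by
  have key : ∀ (k : ℕ) (M : GMod n), M.Adm 𝔅 → finrank ℂ (M.admTop 𝔅) < k → P M := by
    intro k
    induction k with
    | zero => intro M _ h; omega
    | succ k ih =>
      intro M hM hk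
      rcases subsingleton_or_nontrivial M.V with h1 | h1
      · exact h0 M h1
      · obtain ⟨K, hK, hs⟩ := hM.exists_simple_quot
        have h2 := hM.finrank_sub_lt hK (Submodule.Quotient.nontrivial_iff.mp hs.1)
        exact hstep M hM K hK hs (ih _ (hM.sub K hK) (by omega))
  exact key _ M hM (Nat.lt_succ_self _)

/-- Induction along highest weight submodules. -/
theorem Adm.induction_hw {P : GMod n → Prop} (h0 : ∀ M : GMod n, Subsingleton M.V → P M)
    (hstep : ∀ (M : GMod n), M.Adm 𝔅 → ∀ a v, ∀ hv : M.Sing a v, v ≠ 0 → cnt a ∈ 𝔅 →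
      P (M.quot _ hv.stable_orb) → P M) (M : GMod n) (hM : M.Adm 𝔅) : P M := by
  have key : ∀ (k : ℕ) (M : GMod n), M.Adm 𝔅 → finrank ℂ (M.admTop 𝔅) < k → P M := by
    intro k
    induction k with
    | zero => intro M _ h; omega
    | succ k ih =>
      intro M hM hk
      rcases subsingleton_or_nontrivial M.V with h1 | h1
      · exact h0 M h1
      · obtain ⟨a, v, hv0, hv, ha⟩ := hM.exists_sing
        have h2 := hM.finrank_quot_lt hv.stable_orb (W_le_admTop ha hv.1) (M.self_mem_orb v) hv0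
        exact hstep M hM a v hv hv0 ha (ih _ (hM.quot _ hv.stable_orb) (by omega))
  exact key _ M hM (Nat.lt_succ_self _)

/-- The identity matrix acts by a scalar on a block. -/
theorem Blk.ρ_one {M : GMod n} {a : Wt n} (h : M.Blk (cnt a)) (v : M.V) :
    M.ρ 1 v = ((∑ j : Fin n, (a j + (j : ℕ)) : ℤ) : ℂ) • v := by
  have h1 : M.IsHom M (M.ρ 1) := fun A w => by
    have := congrArg (fun T : End ℂ M.V => T w) (M.comm 1 A)
    simpa [sub_eq_zero] using this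
  have h2 := (h1.sub ((isHom_id M).smul
    ((∑ j : Fin n, (a j + (j : ℕ)) : ℤ) : ℂ))).stable_ker
  have h3 : (1 : Mat n) = ∑ j, eM j j := by
    ext i j
    simp [Matrix.sum_apply, Matrix.one_apply, Matrix.single, ite_and, eq_comm]
  have h4 := Adm.le_of_W h M.stable_top h2 fun b hb w hw => by
    obtain ⟨σ, rfl⟩ := (cnt_eq_iff a b).mp (Eq.symm hb)
    have h5 := (M.mem_W _ w).mp hw.2
    rw [LinearMap.mem_ker, LinearMap.sub_apply, sub_eq_zero, h3, map_sum, LinearMap.sum_apply,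
      Finset.sum_congr rfl fun j _ => h5 j, ← Finset.sum_smul, ← Int.cast_sum,
      Finset.sum_add_distrib, Finset.sum_add_distrib, Equiv.sum_comp σ a]
    rfl
  exact sub_eq_zero.mp (LinearMap.mem_ker.mp (h4 (Submodule.mem_top (x := v))))

/-- If `a` is the only primitive weight, weight vectors of weight `a` receive maps from `L(a)`. -/
theorem Simple.hom_of_prim {L Y : GMod n} (hL : L.Simple) {a : Wt n} {v : L.V} (hv : L.Sing a v)
    (h0 : v ≠ 0) (hY : Y.Adm 𝔅) (hp : ∀ b, Y.Prim b → b = a) {u : Y.V} (hu : u ∈ Y.W a) :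
    ∃ f : L.V →ₗ[ℂ] Y.V, L.IsHom Y f ∧ f v = u := by
  have hu' : Y.Sing a u := by
    refine ⟨hu, fun i j hij => by_contra fun hE => ?_⟩
    obtain ⟨b, w, hw0, hw, -, hle⟩ := hY.exists_sing_ge
      ((Submodule.ne_bot_iff _).mpr ⟨_, E_mem_W hu i j, hE⟩)
    rw [hp b (hw.prim hw0)] at hle
    exact absurd (lex_root a hij) (not_lt.mpr hle)
  have hs : (L.prod Y).Sing a (v, u) := by
    refine ⟨((L.prod Y).mem_W a _).mpr fun j => Prod.ext ?_ ?_,
      fun i j hij => Prod.ext (hv.2 i j hij) (hu'.2 i j hij)⟩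
    · exact (L.mem_W a v).mp hv.1 j
    · exact (Y.mem_W a u).mp hu j
  have hG := hs.stable_orb
  have hZ := (isHom_inr L Y).stable_comap hG
  have h1 : Subsingleton (Y.sub _ hZ).V := by
    by_contra hc
    have := not_subsingleton_iff_nontrivial.mp hc
    obtain ⟨b, z, hz0, hz, -⟩ := (hY.sub _ hZ).exists_sing
    have hz' := (isHom_subtype Y _ hZ).map_sing hz
    have hz1 : (z : Y.V) ≠ 0 := fun h' => hz0 (Subtype.ext h')
    rw [hp b (hz'.prim hz1)] at hz'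
    obtain ⟨w, hw⟩ := z.2
    have h2 : (L.prod Y).act w (v, u) ∈ (L.prod Y).W a := by
      rw [← orb_apply, hw]
      exact (isHom_inr L Y).map_W hz'.1
    have h3 := act_eq_aug hs.1 h2
    rw [← orb_apply, hw] at h3
    have h4 : Um.aug w = 0 :=
      (smul_eq_zero.mp (congrArg Prod.fst h3).symm).resolve_right h0
    rw [h4, zero_smul] at h3
    exact hz1 (congrArg Prod.snd h3)
  have hp1 := (isHom_fst L Y).comp (isHom_subtype _ _ hG)
  have hb : Function.Bijective ((LinearMap.fst ℂ L.V Y.V).comp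
      (LinearMap.range ((L.prod Y).orb (v, u))).subtype) := by
    constructor
    · refine (injective_iff_map_eq_zero _).mpr fun x hx => ?_
      have hx1 : x.1.1 = 0 := hx
      have hx2 : LinearMap.inr ℂ L.V Y.V x.1.2 = x.1 := Prod.ext hx1.symm rfl
      have hx3 := congrArg Subtype.val (h1.elim
        (⟨x.1.2, by rw [Submodule.mem_comap, hx2]; exact x.2⟩ :
          (LinearMap.range ((L.prod Y).orb (v, u))).comap (LinearMap.inr ℂ L.V Y.V)) 0)
      exact Subtype.ext (Prod.ext hx1 hx3)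
    · intro x
      obtain ⟨w, rfl⟩ := hL.orb_surj hv h0 x
      exact ⟨⟨_, w, rfl⟩, (isHom_fst L Y).act w (v, u)⟩
  have he : ((L.prod Y).sub _ hG).IsHom L (LinearEquiv.ofBijective _ hb).toLinearMap := hp1
  refine ⟨_, ((isHom_snd L Y).comp (isHom_subtype _ _ hG)).comp he.symm, ?_⟩
  have h5 : (LinearEquiv.ofBijective _ hb).symm v = ⟨(v, u), (L.prod Y).self_mem_orb _⟩ :=
    (LinearEquiv.symm_apply_eq _).mpr rfl
  exact congrArg (fun x : LinearMap.range ((L.prod Y).orb (v, u)) => x.1.2) h5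

end Pool.Agent.KM.GMod
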