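import Pool.Agent.Lib.MP_515a76_al.BrDefs
import Pool.Agent.Lib.MP_515a76_al.GAdm

/-! Basic conversions between sl_n and gl_n modules. -/

namespace Pool.Agent.KM

open Module GMod LieAlgebra.SpecialLinear

attribute [local instance 100] LieRing.ofAssociativeRing

variable {n : ℕ} {c : ℤ}

theorem br1_trace (x : sl (Fin n) ℂ) : x.1.trace = 0 := x.2

theorem br1_tl_sl (x : sl (Fin n) ℂ) : tl n x.1 = x := by
  apply Subtype.ext
  rw [tl_val, br1_trace, zero_div, zero_smul, sub_zero]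

theorem toGl_sl' (M : SlMod n) (x : sl (Fin n) ℂ) (v : M.V) : glρ c M x.1 v = ⁅x, v⁆ := by
  rw [glρ_apply, br1_tl_sl, br1_trace, zero_mul, zero_smul, add_zero]

theorem toGl_E (M : SlMod n) {i j : Fin n} (h : i ≠ j) (v : M.V) :
    (toGl c M).E i j v = ⁅(single i j h (1 : ℂ) : sl (Fin n) ℂ), v⁆ :=
  toGl_sl' M (single i j h (1 : ℂ)) v

theorem toGl_sl (M : SlMod n) (x : sl (Fin n) ℂ) (v : M.V) : (toGl c M).ρ x.1 v = ⁅x, v⁆ :=
  toGl_sl' M x v

theorem br1_tl_one : tl n 1 = 0 := by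
  apply Subtype.ext
  rw [tl_val]
  rcases Nat.eq_zero_or_pos n with h | h
  · subst h; exact Subsingleton.elim _ _
  · have : (n : ℂ) ≠ 0 := by exact_mod_cast h.ne'
    rw [Matrix.trace_one, Fintype.card_fin, div_self this, one_smul, sub_self]
    rfl

theorem toGl_one (M : SlMod n) (v : M.V) : (toGl c M).ρ 1 v = ((n : ℂ) * c) • v := by
  change glρ c M 1 v = _
  rw [glρ_apply, br1_tl_one, zero_lie, zero_add, Matrix.trace_one, Fintype.card_fin]

theorem br1_sum_eM : ∑ t : Fin n, eM t t = (1 : Mat n) := by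
  ext a b
  simp only [Matrix.sum_apply, Matrix.single_apply, Matrix.one_apply]
  by_cases h : a = b
  · subst h; simp
  · rw [if_neg h]
    exact Finset.sum_eq_zero fun t _ => if_neg fun e => h (e.1.symm.trans e.2)

theorem br1_tl_diag (j : Fin n) :
    tl n (eM j j) = (n : ℂ)⁻¹ • ∑ t, (singleSubSingle j t (1 : ℂ) : sl (Fin n) ℂ) := by
  have hn : (n : ℂ) ≠ 0 := by exact_mod_cast (Fin.pos j).ne'
  apply Subtype.ext
  have h1 : ((∑ t, (singleSubSingle j t (1 : ℂ) : sl (Fin n) ℂ) : sl (Fin n) ℂ) : Mat n) =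
      (n : ℂ) • eM j j - 1 := by
    rw [AddSubmonoidClass.coe_finsetSum]
    simp only [val_singleSubSingle, Finset.sum_sub_distrib, br1_sum_eM, Finset.sum_const,
      Finset.card_univ, Fintype.card_fin, Nat.cast_smul_eq_nsmul]
  rw [tl_val, SetLike.val_smul, h1, Matrix.trace_single_eq_same, smul_sub, smul_smul,
    inv_mul_cancel₀ hn, one_smul, one_div]

/-- A weight vector for sl_n is a simultaneous eigenvector of the diagonal matrix units. -/
theorem toGl_diag (M : SlMod n) {l : Fin n → ℂ} {v : M.V} (hv : M.HasWt l v) (j : Fin n) :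
    (toGl c M).E j j v = (l j - (∑ t, l t) / n + c) • v := by
  have hn : (n : ℂ) ≠ 0 := by exact_mod_cast (Fin.pos j).ne'
  change glρ c M (eM j j) v = _
  rw [glρ_apply, br1_tl_diag, smul_lie, sum_lie, Matrix.trace_single_eq_same, one_mul]
  simp only [hv j, ← Finset.sum_smul, smul_smul, ← add_smul]
  congr 2
  rw [Finset.sum_sub_distrib, Finset.sum_const, Finset.card_univ, Fintype.card_fin, nsmul_eq_mul]
  field_simp

theorem hasWt_of_W (M : SlMod n) {a : Wt n} {v : M.V} (hv : v ∈ (toGl c M).W a) :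
    M.HasWt (fun j => ((a j + (j : ℕ) : ℤ) : ℂ)) v := by
  intro i j
  rw [mem_W] at hv
  rw [← toGl_sl (c := c), val_singleSubSingle, map_sub, LinearMap.sub_apply, sub_smul, ← hv i,
    ← hv j]

theorem br1_sum_dot (w : Equiv.Perm (Fin n)) : ∑ t, SlMod.dot w t = 0 := by
  simp only [SlMod.dot, Finset.sum_sub_distrib]
  rw [Equiv.sum_comp w.symm fun t => ((t : ℕ) : ℂ), sub_self]

theorem isSing_dot_iff (M : SlMod n) (w : Equiv.Perm (Fin n)) (v : M.V) :
    M.IsSing (SlMod.dot w) v ↔ (toGl c M).Sing (fun j => rhoC n c (w.symm j)) v := by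
  refine and_congr ⟨fun h => (mem_W _ _ _).2 fun j => ?_, fun h i j => ?_⟩ ?_
  · rw [toGl_diag M h, br1_sum_dot]
    congr 1
    simp only [SlMod.dot, rhoC]
    push_cast
    ring
  · rw [hasWt_of_W M h i j]
    congr 1
    simp only [SlMod.dot, rhoC]
    push_cast
    ring
  · refine forall_congr' fun i => forall_congr' fun j => forall_congr' fun h => ?_
    rw [toGl_E M h.ne]

theorem isSing_zero_iff (M : SlMod n) (v : M.V) :
    M.IsSing 0 v ↔ (toGl c M).Sing (rhoC n c) v := by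
  have h : SlMod.dot (1 : Equiv.Perm (Fin n)) = 0 := funext fun j => sub_self _
  rw [← h]
  exact isSing_dot_iff M 1 v

theorem isHom_toGl {M N : SlMod n} (f : SlMod.Hom M N) :
    (toGl c M).IsHom (toGl c N) f.toLinearMap := by
  intro A v
  change f (glρ c M A v) = glρ c N A (f v)
  rw [glρ_apply, glρ_apply, map_add, map_smul, f.map_lie]

theorem exists_slHom {M N : SlMod n} {f : M.V →ₗ[ℂ] N.V} (hf : (toGl c M).IsHom (toGl c N) f) :
    ∃ g : SlMod.Hom M N, g.toLinearMap = f :=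
  ⟨⟨f, fun {x v} => by
    change f ⁅x, v⁆ = ⁅x, f v⁆
    rw [← toGl_sl (c := c), ← toGl_sl (c := c)]
    exact hf x.1 v⟩, rfl⟩

theorem exists_slHom' {X Y : GMod n} {f : X.V →ₗ[ℂ] Y.V} (hf : X.IsHom Y f) :
    ∃ g : SlMod.Hom (toSl X) (toSl Y), ∀ v, g v = f v :=
  ⟨⟨f, fun {x v} => hf x.1 v⟩, fun _ => rfl⟩

theorem stable_toGl {M : SlMod n} (N : M.Sub) : (toGl c M).Stable N.toSubmodule := by
  intro A v hv
  change glρ c M A v ∈ _
  rw [glρ_apply]
  exact add_mem (N.lie_mem hv) (Submodule.smul_mem _ _ hv)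

theorem exists_slSub {M : SlMod n} {S : Submodule ℂ M.V} (hS : (toGl c M).Stable S) :
    ∃ N : M.Sub, N.toSubmodule = S :=
  ⟨⟨S, fun {x v} hv => by
    change ⁅x, v⁆ ∈ S
    rw [← toGl_sl (c := c)]
    exact hS x.1 v hv⟩, rfl⟩

theorem simple_toGl_iff (M : SlMod n) :
    (toGl c M).Simple ↔ LieModule.IsIrreducible ℂ (sl (Fin n) ℂ) M.V := by
  constructor
  · rintro ⟨h1, h2⟩
    have : Nontrivial M.V := h1
    refine ⟨fun N => ?_⟩
    rcases h2 _ (stable_toGl N) with h | h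
    · exact Or.inl ((LieSubmodule.toSubmodule_eq_bot N).1 h)
    · exact Or.inr ((LieSubmodule.toSubmodule_eq_top N).1 h)
  · intro h
    refine ⟨LieModule.nontrivial_of_isIrreducible ℂ (sl (Fin n) ℂ) M.V, fun S hS => ?_⟩
    obtain ⟨N, rfl⟩ := exists_slSub hS
    rcases eq_bot_or_eq_top N with e | e
    · exact Or.inl ((LieSubmodule.toSubmodule_eq_bot N).2 e)
    · exact Or.inr ((LieSubmodule.toSubmodule_eq_top N).2 e)

theorem br1_ρ {X : GMod n} (h : X.Blk (cnt (rhoC n c))) (A : Mat n) (v : X.V) :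
    X.ρ (tl n A).1 v + (A.trace * c) • v = X.ρ A v := by
  have h1 : ((∑ j : Fin n, (rhoC n c j + (j : ℕ)) : ℤ) : ℂ) = n * c := by
    simp [rhoC]
  rw [tl_val, map_sub, map_smul, LinearMap.sub_apply, LinearMap.smul_apply, h.ρ_one, h1,
    smul_smul]
  have h2 : A.trace / n * (n * c) = A.trace * c := by
    rcases Nat.eq_zero_or_pos n with e | e
    · subst e; simp [Matrix.trace]
    · have : (n : ℂ) ≠ 0 := by exact_mod_cast e.ne'
      field_simp
  rw [h2, sub_add_cancel]

theorem toGl_toSl {X : GMod n} (h : X.Blk (cnt (rhoC n c))) : toGl c (toSl X) = X := by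
  have h1 : glρ c (toSl X) = X.ρ := LinearMap.ext fun A => LinearMap.ext fun v => br1_ρ h A v
  obtain ⟨V, ρ, hc⟩ := X
  unfold toGl
  congr

theorem exists_equiv_toSl_toGl (M : SlMod n) :
    ∃ e : SlEquiv M (toSl (toGl c M)), ∀ v, e v = v :=
  ⟨{ LinearEquiv.refl ℂ M.V with map_lie' := fun {x v} => (toGl_sl M x v).symm }, fun _ => rfl⟩

theorem iso_toGl_of_equiv {P : SlMod n} {X : GMod n} (h : X.Blk (cnt (rhoC n c)))
    (e : SlEquiv P (toSl X)) : (toGl c P).Iso X := by
  have h1 : (toGl c P).Iso (toGl c (toSl X)) :=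
    iso_of_bijective (isHom_toGl e.toLieModuleHom) e.toLinearEquiv.bijective
  rwa [toGl_toSl h] at h1

/-- Every vector of an admissible module lies in a finite dimensional subspace which is stable
under the raising operators. -/
theorem br1_locfin {X : GMod n} {𝔅 : Set (ℤ → ℤ)} (h : X.Adm 𝔅) (v : X.V) :
    ∃ S : Submodule ℂ X.V, v ∈ S ∧ FiniteDimensional ℂ S ∧
      ∀ i j : Fin n, i < j → ∀ u ∈ S, X.E i j u ∈ S := by
  obtain ⟨b, hb⟩ := h.bdd
  have key : ∀ (k : ℕ) (a : Wt n), b - ht a < k → ∃ S : Submodule ℂ X.V, X.W a ≤ S ∧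
      FiniteDimensional ℂ S ∧ ∀ i j : Fin n, i < j → ∀ u ∈ S, X.E i j u ∈ S := by
    intro k
    induction k with
    | zero =>
      intro a ha
      refine ⟨⊥, le_of_eq ?_, inferInstance, fun i j _ u hu => ?_⟩
      · by_contra e
        have := hb a e
        omega
      · rw [(Submodule.mem_bot ℂ).1 hu, map_zero]
        exact Submodule.zero_mem _
    | succ k ih =>
      intro a ha
      have h1 : ∀ p : Low n, b - ht (a + eps p.1.2 - eps p.1.1) < k := fun p => by
        have : (p.1.2 : ℕ) < p.1.1 := p.2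
        rw [ht_root]
        push_cast at ha
        omega
      choose T hT1 hT2 hT3 using fun p : Low n => ih _ (h1 p)
      have := h.fin a
      refine ⟨X.W a ⊔ ⨆ p, T p, le_sup_left, inferInstance, fun i j hij u hu => ?_⟩
      have h2 : X.W a ⊔ ⨆ p, T p ≤ (X.W a ⊔ ⨆ p, T p).comap (X.E i j) := by
        refine sup_le (fun x hx => ?_) (iSup_le fun p x hx => ?_)
        · exact Submodule.mem_sup_right (Submodule.mem_iSup_of_mem (⟨(j, i), hij⟩ : Low n)
            (hT1 _ (E_mem_W hx i j)))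
        · exact Submodule.mem_sup_right (Submodule.mem_iSup_of_mem p (hT3 p i j hij x hx))
      exact h2 hu
  have hv : v ∈ ⨆ a, X.W a := h.wt ▸ trivial
  induction hv using Submodule.iSup_induction' with
  | mem a x hx =>
    obtain ⟨S, h1, h2⟩ := key ((b - ht a).toNat + 1) a (by push_cast; omega)
    exact ⟨S, h1 hx, h2⟩
  | zero =>
    refine ⟨⊥, Submodule.zero_mem _, inferInstance, fun i j _ u hu => ?_⟩
    rw [(Submodule.mem_bot ℂ).1 hu, map_zero]
    exact Submodule.zero_mem _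
  | add x y _ _ hx hy =>
    obtain ⟨S, h1, h2, h3⟩ := hx
    obtain ⟨T, k1, k2, k3⟩ := hy
    refine ⟨S ⊔ T, Submodule.add_mem_sup h1 k1, inferInstance, fun i j hij u hu => ?_⟩
    obtain ⟨s, hs, t, ht, rfl⟩ := Submodule.mem_sup.1 hu
    rw [map_add]
    exact Submodule.add_mem_sup (h3 i j hij s hs) (k3 i j hij t ht)

theorem br1_inO {M : SlMod n} {𝔅 : Set (ℤ → ℤ)} (h : (toGl c M).Adm 𝔅) : M.InO := by
  refine ⟨?_, ?_, fun v => ?_⟩
  · have : FiniteDimensional ℂ ((toGl c M).admTop 𝔅) := h.finite_top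
    obtain ⟨s, hs⟩ : ((toGl c M).admTop 𝔅).FG := Module.Finite.iff_fg.1 this
    refine ⟨s, (LieSubmodule.toSubmodule_eq_top _).1 (top_unique ?_)⟩
    refine h.le_of_W (stable_top _) (stable_toGl _) fun a ha => ?_
    refine inf_le_right.trans ((W_le_admTop ha).trans ?_)
    rw [← hs]
    exact Submodule.span_le.2 LieSubmodule.subset_lieSpan
  · refine top_unique ?_
    rw [← h.wt]
    exact iSup_le fun a v hv => Submodule.subset_span ⟨_, hasWt_of_W M hv⟩
  · obtain ⟨S, h1, h2, h3⟩ := br1_locfin h v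
    refine ⟨S, h1, h2, fun i j hij u hu => ?_⟩
    rw [← toGl_E (c := c)]
    exact h3 i j hij u hu

/-- Modules of the block of `rhoC` restrict to modules of the principal block. -/
theorem inO0_of_blk {M : SlMod n} (h : (toGl c M).Blk (cnt (rhoC n c))) : M.InO0 := by
  refine ⟨br1_inO h, fun N K hK => ?_⟩
  have h1 : (toGl c (M.sub N)).Blk (cnt (rhoC n c)) :=
    Adm.of_inj (isHom_toGl (M := M.sub N) (N := M) N.incl) Subtype.val_injective h
  have h2 : (toGl c ((M.sub N).quot K)).Blk (cnt (rhoC n c)) :=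
    Adm.of_surj (isHom_toGl (M := M.sub N) (N := (M.sub N).quot K) (LieSubmodule.Quotient.mk' K))
      (LieSubmodule.Quotient.surjective_mk' K) h1
  have : Nontrivial (toGl c ((M.sub N).quot K)).V :=
    LieModule.nontrivial_of_isIrreducible ℂ (sl (Fin n) ℂ) ((M.sub N).quot K).V
  obtain ⟨b, v, hv0, hv, hb⟩ := h2.exists_sing
  obtain ⟨σ, rfl⟩ := (cnt_eq_iff (rhoC n c) b).1 (Set.mem_singleton_iff.1 hb).symm
  exact ⟨σ.symm, hK, v, hv0, (isSing_dot_iff (c := c) _ σ.symm v).2 hv⟩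

theorem inO0_toSl {X : GMod n} (h : X.Blk (cnt (rhoC n c))) : (toSl X).InO0 :=
  inO0_of_blk (c := c) (by rw [toGl_toSl h]; exact h)

end Pool.Agent.KM
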