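import Pool.Agent.Lib.MP_515a76_al.Br1

/-! Modules of the principal block are admissible. -/

namespace Pool.Agent.KM

open Module GMod LieAlgebra.SpecialLinear

attribute [local instance 100] LieRing.ofAssociativeRing

variable {n : ℕ}

/-- A simultaneous eigenvector of the diagonal matrix units. -/
def B2CW (X : GMod n) (μ : Fin n → ℂ) (v : X.V) : Prop := ∀ j, X.E j j v = μ j • v

/-- Every simple subquotient has a highest weight in the block `B`. -/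
def B2Sq (X : GMod n) (B : ℤ → ℤ) : Prop :=
  ∀ K N : Submodule ℂ X.V, X.Stable K → X.Stable N → K ≤ N → K ≠ N →
    (∀ S, X.Stable S → K ≤ S → S ≤ N → S = K ∨ S = N) →
      ∃ b : Wt n, ∃ x ∈ N, x ∉ K ∧ cnt b = B ∧
        (∀ j, X.E j j x - ((b j + (j : ℕ) : ℤ) : ℂ) • x ∈ K) ∧
        ∀ i j : Fin n, i < j → X.E i j x ∈ K

/-- Finite dimensional subspaces closed under the raising operators. -/
def B2Up (X : GMod n) (S : Submodule ℂ X.V) : Prop :=
  FiniteDimensional ℂ S ∧ ∀ i j : Fin n, i < j → ∀ u ∈ S, X.E i j u ∈ S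

theorem b2_int {X : GMod n} {μ : Fin n → ℂ} {y : X.V} (hy : B2CW X μ y) (h0 : y ≠ 0)
    (hw : y ∈ ⨆ a, X.W a) : ∃ a : Wt n, ∀ j, μ j = ((a j + (j : ℕ) : ℤ) : ℂ) := by
  have key : ∀ j, ∃ k : ℤ, μ j = k := fun j => by
    by_contra hc
    push Not at hc
    refine h0 (Submodule.disjoint_def.1 ((X.E j j).eigenspaces_iSupIndep (μ j)) y
      (Module.End.mem_eigenspace_iff.2 (hy j)) ?_)
    refine (iSup_le fun a => ?_ : ⨆ a, X.W a ≤ _) hw
    intro v hv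
    exact Submodule.mem_iSup_of_mem ((a j + (j : ℕ) : ℤ) : ℂ)
      (Submodule.mem_iSup_of_mem (hc _).symm
        (Module.End.mem_eigenspace_iff.2 ((mem_W X a v).1 hv j)))
  choose k hk using key
  exact ⟨fun j => k j - (j : ℕ), fun j => by rw [hk j, sub_add_cancel]⟩

theorem b2_orb_wt {X : GMod n} {a : Wt n} {v : X.V} (hv : v ∈ X.W a) (u : Um n) :
    X.act u v ∈ ⨆ b, X.W b :=
  gh_mem_of_mon (X.orb v) (fun l => Submodule.mem_iSup_of_mem _ (mon_mem_W hv l)) u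

/-- Primitive complex weights are in the block. -/
theorem b2_prim {X : GMod n} {B : ℤ → ℤ} (h : B2Sq X B) {K : Submodule ℂ X.V} (hK : X.Stable K)
    {μ : Fin n → ℂ} {v : X.V} (hv : B2CW X μ v) (hvK : v ∉ K)
    (hs : ∀ i j : Fin n, i < j → X.E i j v ∈ K) :
    ∃ b : Wt n, cnt b = B ∧ ∀ j, μ j = ((b j + (j : ℕ) : ℤ) : ℂ) := by
  obtain ⟨K', hKK', ⟨hK', hvK'⟩, hmax⟩ := zorn_le_nonempty₀
    {S : Submodule ℂ X.V | X.Stable S ∧ v ∉ S} (fun c hc hch y hy => by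
      refine ⟨sSup c, ⟨fun A x hx => ?_, fun hx => ?_⟩, fun z hz => le_sSup hz⟩
      · obtain ⟨S, hS, hxS⟩ := (Submodule.mem_sSup_of_directed ⟨y, hy⟩ hch.directedOn).1 hx
        exact (le_sSup hS : S ≤ sSup c) ((hc hS).1 A x hxS)
      · obtain ⟨S, hS, hxS⟩ := (Submodule.mem_sSup_of_directed ⟨y, hy⟩ hch.directedOn).1 hx
        exact (hc hS).2 hxS) K ⟨hK, hvK⟩
  set N : Submodule ℂ X.V := ⨅ S : {S : Submodule ℂ X.V // X.Stable S ∧ K' ≤ S ∧ v ∈ S}, S.1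
    with hNdef
  have hN : X.Stable N := stable_iInf fun S => S.2.1
  have hKN : K' ≤ N := le_iInf fun S => S.2.2.1
  have hvN : v ∈ N := (Submodule.mem_iInf _).2 fun S => S.2.2.2
  have hsimp : ∀ S, X.Stable S → K' ≤ S → S ≤ N → S = K' ∨ S = N := fun S hS h1 h2 => by
    by_cases hvS : v ∈ S
    · exact Or.inr (le_antisymm h2 (iInf_le_of_le ⟨S, hS, h1, hvS⟩ le_rfl))
    · exact Or.inl (le_antisymm (hmax ⟨hS, hvS⟩ h1) h1)
  obtain ⟨b, x, hxN, hxK, hb, hxW, hxE⟩ :=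
    h K' N hK' hN hKN (fun e => hvK' (e ▸ hvN)) hsimp
  have hq := isHom_mkQ X K' hK'
  -- a singular vector outside `K'` generates `N` modulo `K'`
  have gen : ∀ (a : Wt n) (y : X.V), y ∈ N → y ∉ K' → (X.quot K' hK').Sing a (K'.mkQ y) →
      ∀ z ∈ N, ∃ u, (X.quot K' hK').act u (K'.mkQ y) = K'.mkQ z := by
    intro a y hyN hyK hy z hz
    have hS := hq.stable_comap hy.stable_orb
    have h1 : K' ≤ (LinearMap.range ((X.quot K' hK').orb (K'.mkQ y))).comap K'.mkQ :=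
      Submodule.le_comap_mkQ _ _
    have h2 : (LinearMap.range ((X.quot K' hK').orb (K'.mkQ y))).comap K'.mkQ ≤ N := by
      rintro w ⟨u, hu⟩
      rw [orb_apply, ← hq.act u y] at hu
      have h3 : X.act u y - w ∈ K' := (Submodule.Quotient.eq K').1 hu
      have h4 := sub_mem (hN.act_mem u hyN) (hKN h3)
      rwa [sub_sub_cancel] at h4
    rcases hsimp _ hS h1 h2 with e | e
    · exact absurd (e ▸ (self_mem_orb _ _ :
        y ∈ (LinearMap.range ((X.quot K' hK').orb (K'.mkQ y))).comap K'.mkQ)) hyK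
    · exact (e.ge hz :)
  have hx : (X.quot K' hK').Sing b (K'.mkQ x) := by
    refine ⟨(mem_W _ _ _).2 fun j => ?_, fun i j hij =>
      (Submodule.Quotient.mk_eq_zero K').2 (hxE i j hij)⟩
    exact (Submodule.Quotient.eq K').2 (hxW j)
  have hv0 : K'.mkQ v ≠ 0 := fun e => hvK' ((Submodule.Quotient.mk_eq_zero K').1 e)
  have hx0 : K'.mkQ x ≠ 0 := fun e => hxK ((Submodule.Quotient.mk_eq_zero K').1 e)
  have hvq : B2CW (X.quot K' hK') μ (K'.mkQ v) := fun j => by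
    rw [← map_smul, ← hv j]
    rfl
  obtain ⟨u, hu⟩ := gen b x hxN hxK hx v hvN
  obtain ⟨a, ha⟩ := b2_int hvq hv0 (hu ▸ b2_orb_wt hx.1 u)
  have hva : (X.quot K' hK').Sing a (K'.mkQ v) :=
    ⟨(mem_W _ _ _).2 fun j => by rw [← ha j]; exact hvq j, fun i j hij =>
      (Submodule.Quotient.mk_eq_zero K').2 (hKK' (hs i j hij))⟩
  obtain ⟨u', hu'⟩ := gen a v hvN hvK' hva x hxN
  have h1 := (orb_W_le hx.1 (hu.symm ▸ hva.1) (hu.symm ▸ hv0)).1
  have h2 := (orb_W_le hva.1 (hu'.symm ▸ hx.1) (hu'.symm ▸ hx0)).1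
  have h3 : a = b := toLex.injective (le_antisymm h1 h2)
  exact ⟨b, hb, h3 ▸ ha⟩

theorem b2_fin_eig {V : Type} [AddCommGroup V] [Module ℂ V] (H : End ℂ V) (S : Submodule ℂ V)
    [FiniteDimensional ℂ S] : {z : ℂ | ∃ y ∈ S, y ≠ 0 ∧ H y = z • y}.Finite := by
  have hi : iSupIndep fun z : ℂ => (H.eigenspace z).comap S.subtype := fun z => by
    refine Submodule.disjoint_def.2 fun x h1 h2 => Subtype.ext ?_
    refine Submodule.disjoint_def.1 (H.eigenspaces_iSupIndep z) x h1 ?_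
    have h3 : (⨆ w, ⨆ (_ : w ≠ z), (H.eigenspace w).comap S.subtype) ≤
        (⨆ w, ⨆ (_ : w ≠ z), H.eigenspace w).comap S.subtype :=
      iSup₂_le fun w hw => Submodule.comap_mono (le_iSup₂_of_le w hw le_rfl)
    exact h3 h2
  refine (Submodule.finite_ne_bot_of_iSupIndep hi).subset ?_
  rintro z ⟨y, hy, h0, hz⟩
  exact (Submodule.ne_bot_iff _).2 ⟨⟨y, hy⟩, Module.End.mem_eigenspace_iff.2 hz,
    fun e => h0 (congrArg Subtype.val e)⟩

theorem b2_raise {X : GMod n} {μ : Fin n → ℂ} {δ : Wt n} {y : X.V}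
    (hy : B2CW X (fun j => μ j + δ j) y) (s t : Fin n) :
    B2CW X (fun j => μ j + (δ + eps s - eps t : Wt n) j) (X.E s t y) := fun j => by
  rw [gh_E_comm, hy j, map_smul]
  simp only [Pi.sub_apply, Pi.add_apply, Pi.single_apply, Int.cast_sub, Int.cast_add,
    Int.cast_ite, Int.cast_one, Int.cast_zero]
  by_cases h1 : j = s <;> by_cases h2 : j = t
  · subst h1; subst h2; simp
  · subst h1; simp [h2, Ne.symm h2, add_smul, add_assoc]
  · subst h2; simp [h1, add_smul, sub_eq_add_neg, add_assoc]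
  · simp [h1, h2, Ne.symm h2]

/-- Weights are integral and bounded by a weight of the block. -/
theorem b2_wt {X : GMod n} {B : ℤ → ℤ} (h : B2Sq X B) {S : Submodule ℂ X.V} (hS : B2Up X S)
    {μ : Fin n → ℂ} {v : X.V} (hv : B2CW X μ v) (hvS : v ∈ S) (h0 : v ≠ 0) :
    ∃ a b : Wt n, cnt b = B ∧ ht a ≤ ht b ∧ ∀ j, μ j = ((a j + (j : ℕ) : ℤ) : ℂ) := by
  have := hS.1
  have hf := b2_fin_eig (∑ j : Fin n, ((n : ℂ) - (j : ℕ)) • X.E j j) S
  let T : Set ℤ := {t | ∃ δ : Wt n, ht δ = t ∧ ∃ y ∈ S, y ≠ 0 ∧ B2CW X (fun j => μ j + δ j) y}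
  have hT : T.Finite := by
    refine Set.Finite.of_finite_image (f := fun t : ℤ =>
      ∑ j : Fin n, ((n : ℂ) - (j : ℕ)) * μ j + t) (hf.subset ?_) fun s _ t _ e => ?_
    · rintro _ ⟨_, ⟨δ, rfl, y, hy, hy0, hw⟩, rfl⟩
      refine ⟨y, hy, hy0, ?_⟩
      simp only [LinearMap.sum_apply, LinearMap.smul_apply, hw _, smul_smul, ← Finset.sum_smul, ht]
      congr 1
      push_cast
      rw [← Finset.sum_add_distrib]
      exact Finset.sum_congr rfl fun j _ => mul_add _ _ _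
    · exact_mod_cast add_left_cancel e
  have hT0 : (0 : ℤ) ∈ T := ⟨0, by simp [ht], v, hvS, h0, fun j => by simpa using hv j⟩
  obtain ⟨_, ⟨δ, rfl, y, hy, hy0, hw⟩, hmax⟩ := Set.exists_max_image T id hT ⟨0, hT0⟩
  have hs : ∀ i j : Fin n, i < j → X.E i j y ∈ (⊥ : Submodule ℂ X.V) := fun i j hij => by
    by_contra hc
    have h1 := hmax _ ⟨_, rfl, _, hS.2 i j hij y hy, hc, b2_raise hw i j⟩
    have h2 : (i : ℕ) < j := hij
    simp only [id, ht_root] at h1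
    omega
  obtain ⟨b, hb, hμ⟩ := b2_prim h X.stable_bot hw hy0 hs
  refine ⟨b - δ, b, hb, ?_, fun j => ?_⟩
  · have h1 := hmax 0 hT0
    have h2 := ht_add (b - δ) δ
    rw [sub_add_cancel] at h2
    simp only [id] at h1
    omega
  · have h1 := hμ j
    simp only [Pi.sub_apply]
    push_cast at h1 ⊢
    linear_combination h1

theorem b2_up_sup {X : GMod n} {S T : Submodule ℂ X.V} (hS : B2Up X S) (hT : B2Up X T) :
    B2Up X (S ⊔ T) := by
  have := hS.1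
  have := hT.1
  refine ⟨inferInstance, fun i j hij u hu => ?_⟩
  obtain ⟨s, hs, t, ht, rfl⟩ := Submodule.mem_sup.1 hu
  rw [map_add]
  exact Submodule.add_mem_sup (hS.2 i j hij s hs) (hT.2 i j hij t ht)

theorem b2_up_bot (X : GMod n) : B2Up X ⊥ :=
  ⟨inferInstance, fun i j _ u hu => by rw [(Submodule.mem_bot ℂ).1 hu, map_zero]; exact zero_mem _⟩

theorem b2_up_mono {X : GMod n} {S T : Submodule ℂ X.V} (h : S ≤ T) :
    ⨆ a, S ⊓ X.W a ≤ ⨆ a, T ⊓ X.W a := iSup_mono fun _ => inf_le_inf_right _ h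

theorem b2_exists_up {X : GMod n} (hw : ⨆ a, X.W a = ⊤) (h3 : ∀ v, ∃ S, v ∈ S ∧ B2Up X S)
    (s : Finset X.V) : ∃ S, B2Up X S ∧ ∀ g ∈ s, g ∈ ⨆ a, S ⊓ X.W a := by
  classical
  have one : ∀ g : X.V, ∃ S, B2Up X S ∧ g ∈ ⨆ a, S ⊓ X.W a := fun g => by
    have hg : g ∈ ⨆ a, X.W a := hw ▸ trivial
    induction hg using Submodule.iSup_induction' with
    | mem a x hx =>
      obtain ⟨S, h1, h2⟩ := h3 x
      exact ⟨S, h2, Submodule.mem_iSup_of_mem a ⟨h1, hx⟩⟩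
    | zero => exact ⟨⊥, b2_up_bot X, zero_mem _⟩
    | add x y _ _ hx hy =>
      obtain ⟨S, h1, h2⟩ := hx
      obtain ⟨T, h3, h4⟩ := hy
      exact ⟨S ⊔ T, b2_up_sup h1 h3, add_mem (b2_up_mono le_sup_left h2)
        (b2_up_mono le_sup_right h4)⟩
  induction s using Finset.induction_on with
  | empty => exact ⟨⊥, b2_up_bot X, fun g hg => absurd hg (Finset.notMem_empty g)⟩
  | insert x s _ ih =>
    obtain ⟨S, h1, h2⟩ := one x
    obtain ⟨T, h3, h4⟩ := ih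
    refine ⟨S ⊔ T, b2_up_sup h1 h3, fun g hg => ?_⟩
    rcases Finset.mem_insert.1 hg with rfl | hg
    · exact b2_up_mono le_sup_left h2
    · exact b2_up_mono le_sup_right (h4 g hg)

/-- The orbits of the weight vectors of `S` span a submodule. -/
theorem b2_span {X : GMod n} {S : Submodule ℂ X.V} (hS : B2Up X S) {c : ℤ}
    (hc : ∀ a, X.W a ≠ ⊥ → ht a ≤ c) {U : Submodule ℂ X.V}
    (hU : ∀ a, ∀ y ∈ S, y ∈ X.W a → LinearMap.range (X.orb y) ≤ U) :
    ∃ K, X.Stable K ∧ K ≤ U ∧ ⨆ a, S ⊓ X.W a ≤ K := by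
  set K : Submodule ℂ X.V := ⨆ T : {T : Submodule ℂ X.V // X.Stable T ∧ T ≤ U}, T.1 with hKdef
  have hK : X.Stable K := stable_iSup fun T => T.2.1
  have hKU : K ≤ U := iSup_le fun T => T.2.2
  have key : ∀ (k : ℕ) (a : Wt n), c - ht a < k → ∀ y ∈ S, y ∈ X.W a → y ∈ K := by
    intro k
    induction k with
    | zero =>
      intro a ha y _ hy
      by_contra h0
      have := hc a ((Submodule.ne_bot_iff _).2 ⟨y, hy, fun e => h0 (e ▸ zero_mem _)⟩)
      omega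
    | succ k ih =>
      intro a ha y hyS hy
      have h1 := stable_sup_orb hK hy fun i j hij => by
        have h2 : (i : ℕ) < j := hij
        have h3 := ht_root a i j
        exact ih (a + eps i - eps j) (by omega) _ (hS.2 i j hij y hyS) (E_mem_W hy i j)
      have h2 : K ⊔ LinearMap.range (X.orb y) ≤ K :=
        le_iSup_of_le (f := fun T : {T : Submodule ℂ X.V // X.Stable T ∧ T ≤ U} => T.1)
          ⟨_, h1, sup_le hKU (hU a y hyS hy)⟩ le_rfl
      exact h2 (Submodule.mem_sup_right (self_mem_orb X y))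
  exact ⟨K, hK, hKU, iSup_le fun a y hy => key ((c - ht a).toNat + 1) a (by omega) y hy.1 hy.2⟩

theorem b2_fin {X : GMod n} {S : Submodule ℂ X.V} (hS : B2Up X S) {c : ℤ}
    (hc : ∀ a, X.W a ≠ ⊥ → ht a ≤ c)
    (hgen : ∀ K, X.Stable K → ⨆ a, S ⊓ X.W a ≤ K → K = ⊤) (b : Wt n) :
    FiniteDimensional ℂ (X.W b) := by
  have := hS.1
  have hf : Finite {l : List (Low n) // l.length ≤ (c - ht b).toNat} :=
    List.finite_length_le (Low n) (c - ht b).toNat
  set F : Submodule ℂ X.V := ⨆ l : {l : List (Low n) // l.length ≤ (c - ht b).toNat},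
    S.map (X.act (Um.mon l.1)) with hF
  have hFf : FiniteDimensional ℂ F := inferInstance
  obtain ⟨K, hK, hKU, hSK⟩ := b2_span hS hc (U := (F ⊓ X.W b) ⊔ ⨆ (a) (_ : a ≠ b), X.W a)
    fun a y hyS hy => by
      rintro _ ⟨u, rfl⟩
      refine gh_mem_of_mon (X.orb y) (fun l => ?_) u
      by_cases h0 : y = 0
      · rw [orb_apply, h0, map_zero]
        exact zero_mem _
      by_cases hl : a + lowWt l = b
      · have h1 := ht_lowWt l
        have h2 : ht b = ht a + ht (lowWt l) := by rw [← ht_add, hl]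
        have h3 := hc a ((Submodule.ne_bot_iff _).2 ⟨y, hy, h0⟩)
        refine Submodule.mem_sup_left ⟨?_, hl ▸ mon_mem_W hy l⟩
        exact Submodule.mem_iSup_of_mem ⟨l, by omega⟩ ⟨y, hyS, rfl⟩
      · exact Submodule.mem_sup_right (gh_mem_ne hl (mon_mem_W hy l))
  refine Submodule.finiteDimensional_of_le (S₂ := F) fun x hx => ?_
  obtain ⟨s, hs, y, hy, e⟩ := Submodule.mem_sup.1 (hKU (hgen K hK hSK ▸ trivial : x ∈ K))
  have h2 : y = 0 := gh_eq_zero (by simpa [← e] using sub_mem hx hs.2) hy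
  rw [← e, h2, add_zero]
  exact hs.1

theorem b2_blk {X : GMod n} {B : ℤ → ℤ}
    (h1 : ∃ s : Finset X.V, ∀ K, X.Stable K → (∀ g ∈ s, g ∈ K) → K = ⊤)
    (h2 : Submodule.span ℂ {v : X.V | ∃ μ, B2CW X μ v} = ⊤)
    (h3 : ∀ v, ∃ S, v ∈ S ∧ B2Up X S) (h4 : B2Sq X B) : X.Blk B := by
  have hw : ⨆ a, X.W a = ⊤ := by
    refine top_unique (h2.ge.trans (Submodule.span_le.2 ?_))
    rintro v ⟨μ, hv⟩
    by_cases h0 : v = 0
    · exact h0 ▸ zero_mem _
    obtain ⟨S, hvS, hS⟩ := h3 v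
    obtain ⟨a, -, -, -, ha⟩ := b2_wt h4 hS hv hvS h0
    exact Submodule.mem_iSup_of_mem a ((mem_W _ _ _).2 fun j => by rw [← ha j]; exact hv j)
  have inj : ∀ {a b : Wt n}, (∀ j, ((a j + (j : ℕ) : ℤ) : ℂ) = ((b j + (j : ℕ) : ℤ) : ℂ)) →
      a = b := fun h => funext fun j => add_right_cancel (Int.cast_injective (h j))
  have hb : ∃ c : ℤ, ∀ a, X.W a ≠ ⊥ → ht a ≤ c := by
    obtain ⟨c, hc⟩ := ((finite_cnt (n := n) B).image ht).bddAbove
    refine ⟨c, fun a ha => ?_⟩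
    obtain ⟨v, hv, h0⟩ := (Submodule.ne_bot_iff _).1 ha
    obtain ⟨S, hvS, hS⟩ := h3 v
    obtain ⟨a', b, e1, e2, e3⟩ := b2_wt h4 hS ((mem_W _ _ _).1 hv) hvS h0
    rw [inj e3]
    exact e2.trans (hc ⟨b, e1, rfl⟩)
  refine ⟨Set.finite_singleton B, hw, ?_, hb, fun a ha => ?_⟩
  · obtain ⟨c, hc⟩ := hb
    obtain ⟨s, hs⟩ := h1
    obtain ⟨S, hS, hsS⟩ := b2_exists_up hw h3 s
    exact b2_fin hS hc fun K hK hle => hs K hK fun g hg => hle (hsS g hg)
  · obtain ⟨K, hK, v, hv, hvK, hE⟩ := ha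
    obtain ⟨b, e1, e2⟩ := b2_prim h4 hK ((mem_W _ _ _).1 hv) hvK hE
    rw [inj e2]
    exact e1

theorem b2_sq {M : SlMod n} (h : M.InO0) (c : ℤ) : B2Sq (toGl c M) (cnt (rhoC n c)) := by
  intro K N hK hN hKN hne hsimp
  obtain ⟨K, rfl⟩ := exists_slSub hK
  obtain ⟨N, rfl⟩ := exists_slSub hN
  let ι : SlMod.Hom (M.sub N) M := N.incl
  let K' : (M.sub N).Sub := K.comap ι
  let π : SlMod.Hom (M.sub N) ((M.sub N).quot K') := LieSubmodule.Quotient.mk' K'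
  have hι : Function.Injective ι := Subtype.val_injective
  have hιN : ∀ x, ι x ∈ N := fun x => x.2
  have hιs : ∀ y ∈ N, ∃ x, ι x = y := fun y hy => ⟨⟨y, hy⟩, rfl⟩
  have hπ : Function.Surjective π := LieSubmodule.Quotient.surjective_mk' K'
  have hπ0 : ∀ x, π x = 0 ↔ ι x ∈ K := fun x => LieSubmodule.Quotient.mk_eq_zero (N := K')
  have hirr : LieModule.IsIrreducible ℂ (sl (Fin n) ℂ) ((M.sub N).quot K').V := by
    obtain ⟨y, hyN, hyK⟩ := SetLike.exists_of_lt (lt_of_le_of_ne hKN hne)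
    obtain ⟨x, rfl⟩ := hιs y hyN
    have : Nontrivial ((M.sub N).quot K').V := ⟨π x, 0, fun e => hyK ((hπ0 x).1 e)⟩
    refine LieModule.IsIrreducible.mk fun T hT => ?_
    rcases hsimp _ (stable_toGl ((T.comap π).map ι)) (fun z hz => by
      obtain ⟨w, rfl⟩ := hιs z (hKN hz)
      refine (LieSubmodule.mem_map _).2 ⟨w, ?_, rfl⟩
      rw [LieSubmodule.mem_comap, (hπ0 w).2 hz]
      exact zero_mem _) (fun z hz => by
      obtain ⟨w, -, rfl⟩ := (LieSubmodule.mem_map _).1 hz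
      exact hιN w) with e | e
    · refine absurd ((LieSubmodule.eq_bot_iff _).2 fun z hz => ?_) hT
      obtain ⟨w, rfl⟩ := hπ z
      exact (hπ0 w).2 (e.le ((LieSubmodule.mem_map _).2 ⟨w, hz, rfl⟩))
    · refine top_unique fun z _ => ?_
      obtain ⟨w, rfl⟩ := hπ z
      obtain ⟨w', hw', e'⟩ := (LieSubmodule.mem_map _).1 (e.ge (hιN w))
      exact hι e' ▸ hw'
  obtain ⟨w, -, y, hy0, hy⟩ := h.2 N K' hirr
  obtain ⟨x, rfl⟩ := hπ y
  have hs := (isSing_dot_iff (c := c) _ w _).1 hy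
  have e1 := isHom_toGl (c := c) ι
  have e2 := isHom_toGl (c := c) π
  refine ⟨fun j => rhoC n c (w.symm j), ι x, hιN x, fun e => hy0 ((hπ0 x).2 e),
    ((cnt_eq_iff _ _).2 ⟨w.symm, rfl⟩).symm, fun j => ?_, fun i j hij => ?_⟩
  · have h1 := (mem_W _ _ _).1 hs.1 j
    have h2 := (hπ0 ((toGl c (M.sub N)).E j j x -
      ((rhoC n c (w.symm j) + (j : ℕ) : ℤ) : ℂ) • x)).1 (by
        rw [map_sub, map_smul, sub_eq_zero]
        exact (e2 _ x).trans h1)
    rw [map_sub, map_smul] at h2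
    exact (e1 (eM j j) x) ▸ h2
  · have h2 := (hπ0 ((toGl c (M.sub N)).E i j x)).1 ((e2 _ x).trans (hs.2 i j hij))
    exact (e1 (eM i j) x) ▸ h2

theorem blk_toGl {M : SlMod n} (h : M.InO0) (c : ℤ) : (toGl c M).Blk (cnt (rhoC n c)) := by
  obtain ⟨⟨s, hs⟩, h2, h3⟩ := h.1
  refine b2_blk ⟨s, fun K hK hsK => ?_⟩ ?_ (fun v => ?_) (b2_sq h c)
  · obtain ⟨K, rfl⟩ := exists_slSub hK
    exact (LieSubmodule.toSubmodule_eq_top _).2
      (top_unique (hs.ge.trans (LieSubmodule.lieSpan_le.2 hsK)))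
  · refine top_unique (h2.ge.trans (Submodule.span_mono ?_))
    rintro v ⟨l, hl⟩
    exact ⟨_, toGl_diag M hl⟩
  · obtain ⟨S, h4, h5, h6⟩ := h3 v
    exact ⟨S, h4, h5, fun i j hij u hu => by rw [toGl_E M hij.ne]; exact h6 i j hij u hu⟩

end Pool.Agent.KM
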