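import Pool.Agent.Lib.MP_515a76_al.KDefs

/-! Basic facts on DAHA modules. -/

namespace Pool.Agent.KM.DAHA

open Module

section Nil

variable {X : Type} [AddCommGroup X] [Module ℂ X] {S T A B s : End ℂ X} {v : X}

theorem pow_zero_of_le {a n : ℕ} (h : (S ^ a) v = 0) (hn : a ≤ n) : (S ^ n) v = 0 := by
  obtain ⟨c, rfl⟩ := Nat.exists_eq_add_of_le' hn
  rw [pow_add, End.mul_apply, h, map_zero]

theorem nil_add (h : Commute S T) (hS : ∃ n, (S ^ n) v = 0) (hT : ∃ n, (T ^ n) v = 0) :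
    ∃ n, ((S + T) ^ n) v = 0 := by
  obtain ⟨a, ha⟩ := hS
  obtain ⟨b, hb⟩ := hT
  refine ⟨a + b, ?_⟩
  rw [h.add_pow, LinearMap.sum_apply]
  refine Finset.sum_eq_zero fun m _ => ?_
  rw [End.mul_apply, End.natCast_apply, map_nsmul]
  rcases le_total a m with k | k
  · rw [(h.pow_pow _ _).eq, End.mul_apply, pow_zero_of_le ha k, map_zero, smul_zero]
  · rw [End.mul_apply, pow_zero_of_le hb (by omega), map_zero, smul_zero]

theorem nil_mul (h : Commute S T) (hS : ∃ n, (S ^ n) v = 0) : ∃ n, ((S * T) ^ n) v = 0 := by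
  obtain ⟨a, ha⟩ := hS
  exact ⟨a, by rw [h.mul_pow, (h.pow_pow _ _).eq, End.mul_apply, ha, map_zero]⟩

theorem nil_comm (h : Commute S T) (hS : ∃ n, (S ^ n) v = 0) : ∃ n, (S ^ n) (T v) = 0 := by
  obtain ⟨a, ha⟩ := hS
  exact ⟨a, by rw [← End.mul_apply, (h.pow_left _).eq, End.mul_apply, ha, map_zero]⟩

theorem nil_sym (h : Commute A B) (h1 : Commute (A + B) s) (h2 : Commute (A * B) s)
    (hA : ∃ n, (A ^ n) v = 0) (hB : ∃ n, (B ^ n) v = 0) : ∃ n, (A ^ n) (s v) = 0 := by
  have c1 : Commute (A + B) A := (Commute.refl A).add_left h.symm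
  have c2 : Commute (A + B) B := h.add_left (Commute.refl B)
  have c3 : Commute A (A * B) := (Commute.refl A).mul_right h
  have n1 := nil_mul c1 (nil_comm h1 (nil_add h hA hB))
  have n2 := nil_mul (Commute.neg_one_right (A * B)) (nil_comm h2 (nil_mul h hA))
  obtain ⟨n, hn⟩ := nil_add (((c1.mul_right c2).mul_left c3).mul_right
    (Commute.neg_one_right _)) n1 n2
  have e : (A + B) * A + A * B * -1 = A ^ 2 := by
    rw [add_mul, h.symm.eq, mul_neg_one, add_neg_cancel_right, sq]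
  exact ⟨2 * n, by rw [pow_mul, ← e, hn]⟩

end Nil

variable {d : ℕ} {X Y : Type} [AddCommGroup X] [Module ℂ X] [AddCommGroup Y] [Module ℂ Y]
  (D : DAHA d X)

theorem mem_G (i : ℕ → ℤ) (m : X) :
    m ∈ D.G i ↔ ∀ k < d, ∃ N : ℕ, ((D.x k - ((i k : ℤ) : ℂ) • (1 : End ℂ X)) ^ N) m = 0 := by
  rw [G, End.mem_iInf_maxGenEigenspace_iff]
  exact ⟨fun h k hk => h ⟨k, hk⟩, fun h k => h k.1 k.2⟩

theorem G_congr {i j : ℕ → ℤ} (h : ∀ k < d, i k = j k) : D.G i = D.G j := by
  unfold G
  exact iInf_congr fun k => by rw [h k.1 k.2]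

theorem mem_NN (i : ℕ → ℤ) (J : List ℕ) (m : X) :
    m ∈ D.NN i J ↔ m ∈ D.G i ∧ ∀ r ∈ J, D.s r m = m := by
  simp only [NN, Submodule.mem_inf, Submodule.mem_iInf, LinearMap.mem_ker, LinearMap.sub_apply,
    End.one_apply, sub_eq_zero, Subtype.forall]

theorem x_mem_G (i : ℕ → ℤ) {k : ℕ} (hk : k < d) {m : X} (hm : m ∈ D.G i) : D.x k m ∈ D.G i := by
  rw [mem_G] at hm ⊢
  intro l hl
  exact nil_comm (Commute.sub_left (D.xx l k hl hk) ((Commute.one_left _).smul_left _)) (hm l hl)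

theorem s_mem_G {i : ℕ → ℤ} {r : ℕ} (hr : r + 1 < d) (hi : i r = i (r + 1)) {m : X}
    (hm : m ∈ D.G i) : D.s r m ∈ D.G i := by
  rw [mem_G] at hm ⊢
  have hr' : r < d := by omega
  have e1 := D.sx r hr
  have e2 : D.s r * D.x (r + 1) = D.x r * D.s r + 1 := by
    have : D.s r * (D.s r * D.x r) * D.s r = D.s r * (D.x (r + 1) * D.s r - 1) * D.s r := by
      rw [e1]
    rw [← mul_assoc, D.ss r hr, one_mul, mul_sub, sub_mul, mul_one, D.ss r hr, mul_assoc,
      mul_assoc, D.ss r hr, mul_one] at this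
    rw [this, sub_add_cancel]
  have e3 := D.xx r (r + 1) hr' hr
  have c1 : Commute (D.x r + D.x (r + 1)) (D.s r) := by
    rw [Commute, SemiconjBy, mul_add, add_mul, e1, e2]
    abel
  have c2 : Commute (D.x r * D.x (r + 1)) (D.s r) := by
    rw [Commute, SemiconjBy, ← mul_assoc, e1, sub_mul, mul_assoc (D.x (r + 1)), e2, mul_add,
      ← mul_assoc, ← e3, mul_one, one_mul, add_sub_cancel_right]
  set c : ℂ := ((i r : ℤ) : ℂ) with hc
  have one : ∀ (t : ℂ) (T : End ℂ X), Commute (t • (1 : End ℂ X)) T :=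
    fun t T => (Commute.one_left _).smul_left _
  have cAB : Commute (D.x r - c • 1) (D.x (r + 1) - c • 1) :=
    Commute.sub_left (Commute.sub_right e3 (one _ _).symm) (one _ _)
  have d1 : Commute (D.x r - c • 1 + (D.x (r + 1) - c • 1)) (D.s r) := by
    rw [sub_add_sub_comm]
    exact c1.sub_left ((one _ _).add_left (one _ _))
  have d2 : Commute ((D.x r - c • 1) * (D.x (r + 1) - c • 1)) (D.s r) := by
    have : (D.x r - c • 1) * (D.x (r + 1) - c • 1) =
        D.x r * D.x (r + 1) - c • (D.x r + D.x (r + 1)) + (c * c) • 1 := by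
      simp only [mul_sub, sub_mul, smul_mul_assoc, mul_smul_comm, one_mul, mul_one, smul_add,
        smul_sub, smul_smul]
      abel
    rw [this]
    exact (c2.sub_left (c1.smul_left _)).add_left (one _ _)
  have hA := hm r hr'
  have hB := hm (r + 1) hr
  rw [← hi] at hB
  intro k hk
  by_cases k1 : k = r
  · subst k1
    exact nil_sym cAB d1 d2 hA hB
  by_cases k2 : k = r + 1
  · subst k2
    rw [← hi]
    exact nil_sym cAB.symm (by rwa [add_comm]) (by rwa [← cAB.eq]) hB hA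
  exact nil_comm (Commute.sub_left (D.sxfar r k hr hk k1 k2).symm (one _ _)) (hm k hk)

theorem indep : iSupIndep fun χ : Fin d → ℂ => ⨅ k : Fin d, (D.x k).maxGenEigenspace (χ k) :=
  End.independent_iInf_maxGenEigenspace_of_forall_mapsTo (fun k : Fin d => D.x k) fun k l c =>
    End.mapsTo_maxGenEigenspace_of_comm (D.xx l k l.2 k.2) c

theorem isCompl (hI : D.Integral) (i : ℕ → ℤ) : IsCompl (D.G i) (D.Gc i) := by
  constructor
  · refine (D.indep fun k => ((i k : ℤ) : ℂ)).mono_right (iSup_le fun j => ?_)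
    refine le_iSup₂_of_le (fun k : Fin d => ((j.1 k : ℤ) : ℂ)) (fun e => ?_) le_rfl
    obtain ⟨k, hk, ne⟩ := j.2
    exact ne (Int.cast_injective (congrFun e ⟨k, hk⟩))
  · rw [codisjoint_iff, eq_top_iff, ← hI]
    refine iSup_le fun j => ?_
    by_cases h : ∃ k < d, j k ≠ i k
    · exact le_sup_of_le_right (le_iSup_of_le ⟨j, h⟩ le_rfl)
    · push Not at h
      exact le_sup_of_le_left (D.G_congr h).le

theorem e_mem (i : ℕ → ℤ) (m : X) : D.e i m ∈ D.G i := by
  unfold e
  split_ifs with h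
  · exact Submodule.projection_apply_mem h m
  · exact zero_mem _

theorem e_of_mem (hI : D.Integral) {i : ℕ → ℤ} {m : X} (hm : m ∈ D.G i) : D.e i m = m := by
  rw [e, dif_pos (D.isCompl hI i)]
  exact Submodule.projection_apply_of_mem_left _ hm

theorem e_of_ne (hI : D.Integral) {i j : ℕ → ℤ} (h : ∃ k < d, j k ≠ i k) {m : X}
    (hm : m ∈ D.G j) : D.e i m = 0 := by
  rw [e, dif_pos (D.isCompl hI i), Submodule.projection_apply_eq_zero_iff]
  exact Submodule.mem_iSup_of_mem ⟨j, h⟩ hm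

theorem sub_e_mem (hI : D.Integral) (i : ℕ → ℤ) (m : X) : m - D.e i m ∈ D.Gc i := by
  rw [e, dif_pos (D.isCompl hI i)]
  exact Submodule.sub_projection_mem _ m

theorem map_pow_sub (D' : DAHA d Y) (f : X →ₗ[ℂ] Y) {k : ℕ}
    (hf : ∀ m, f (D.x k m) = D'.x k (f m)) (c : ℂ) (N : ℕ) (m : X) :
    f (((D.x k - c • (1 : End ℂ X)) ^ N) m) = ((D'.x k - c • (1 : End ℂ Y)) ^ N) (f m) := by
  induction N with
  | zero => rfl
  | succ N ih =>
    simp only [pow_succ', End.mul_apply, LinearMap.sub_apply, LinearMap.smul_apply,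
      End.one_apply, map_sub, map_smul, hf, ih]

theorem map_G (D' : DAHA d Y) (f : X →ₗ[ℂ] Y) (hf : ∀ k < d, ∀ m, f (D.x k m) = D'.x k (f m))
    {i : ℕ → ℤ} {m : X} (hm : m ∈ D.G i) : f m ∈ D'.G i := by
  rw [mem_G] at hm ⊢
  intro k hk
  obtain ⟨N, hN⟩ := hm k hk
  exact ⟨N, by rw [← D.map_pow_sub D' f (hf k hk), hN, map_zero]⟩

theorem map_e (D' : DAHA d Y) (hI : D.Integral) (hI' : D'.Integral) (f : X →ₗ[ℂ] Y)
    (hf : ∀ k < d, ∀ m, f (D.x k m) = D'.x k (f m)) (i : ℕ → ℤ) (m : X) :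
    f (D.e i m) = D'.e i (f m) := by
  have h1 : f (m - D.e i m) ∈ D'.Gc i := by
    have : (D.Gc i).map f ≤ D'.Gc i := by
      rw [Gc, Submodule.map_iSup]
      refine iSup_mono fun j => ?_
      rintro _ ⟨v, hv, rfl⟩
      exact D.map_G D' f hf hv
    exact this ⟨_, D.sub_e_mem hI i m, rfl⟩
  have h2 : D'.e i (f (m - D.e i m)) = 0 := by
    rwa [e, dif_pos (D'.isCompl hI' i), Submodule.projection_apply_eq_zero_iff]
  rw [map_sub, map_sub, D'.e_of_mem hI' (D.map_G D' f hf (D.e_mem i m)), sub_eq_zero] at h2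
  exact h2.symm

theorem pJ_mem {i : ℕ → ℤ} {J : List ℕ} (hJ : FarJ d i J) (m : X) : D.pJ i J m ∈ D.NN i J := by
  rw [mem_NN, pJ, End.mul_apply]
  have hv := D.e_mem i m
  generalize D.e i m = v at hv
  induction J with
  | nil => exact ⟨hv, fun r hr => absurd hr List.not_mem_nil⟩
  | cons t J ih =>
    obtain ⟨g, w⟩ := ih ⟨fun r hr => hJ.1 r (List.mem_cons_of_mem _ hr), fun r hr u hu =>
      hJ.2 r (List.mem_cons_of_mem _ hr) u (List.mem_cons_of_mem _ hu)⟩
    rw [List.map_cons, List.prod_cons, End.mul_apply]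
    generalize (List.map (fun r => (1 / 2 : ℂ) • (1 + D.s r)) J).prod v = z at g w
    obtain ⟨t1, t2⟩ := hJ.1 t List.mem_cons_self
    have self : D.s t (((1 / 2 : ℂ) • (1 + D.s t)) z) = ((1 / 2 : ℂ) • (1 + D.s t)) z := by
      rw [← End.mul_apply, mul_smul_comm, mul_add, mul_one, D.ss t t1, add_comm]
    refine ⟨Submodule.smul_mem _ _ (add_mem g (D.s_mem_G t1 t2 g)), fun r hr => ?_⟩
    rcases List.mem_cons.1 hr with rfl | hr'
    · exact self
    have far : D.s r * D.s t = D.s t * D.s r →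
        D.s r (((1 / 2 : ℂ) • (1 + D.s t)) z) = ((1 / 2 : ℂ) • (1 + D.s t)) z := fun e => by
      rw [← End.mul_apply, mul_smul_comm, mul_add, e, mul_one]
      simp only [LinearMap.smul_apply, LinearMap.add_apply, End.mul_apply, End.one_apply, w r hr']
    rcases hJ.2 r hr t List.mem_cons_self with rfl | h | h
    · exact self
    · exact far (D.far r t h t1)
    · exact far (D.far t r h (hJ.1 r hr).1).symm

theorem pJ_of_mem (hI : D.Integral) {i : ℕ → ℤ} {J : List ℕ} {m : X} (hm : m ∈ D.NN i J) :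
    D.pJ i J m = m := by
  rw [mem_NN] at hm
  rw [pJ, End.mul_apply, D.e_of_mem hI hm.1]
  have h := hm.2
  clear hm
  induction J with
  | nil => rfl
  | cons t J ih =>
    rw [List.map_cons, List.prod_cons, End.mul_apply,
      ih fun r hr => h r (List.mem_cons_of_mem _ hr), LinearMap.smul_apply, LinearMap.add_apply,
      End.one_apply, h t List.mem_cons_self, ← two_smul ℂ m, smul_smul]
    norm_num

theorem map_pJ (D' : DAHA d Y) (hI : D.Integral) (hI' : D'.Integral) (f : X →ₗ[ℂ] Y)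
    (hf : ∀ k < d, ∀ m, f (D.x k m) = D'.x k (f m))
    (hs : ∀ r, r + 1 < d → ∀ m, f (D.s r m) = D'.s r (f m)) {i : ℕ → ℤ} {J : List ℕ}
    (hJ : ∀ r ∈ J, r + 1 < d) (m : X) : f (D.pJ i J m) = D'.pJ i J (f m) := by
  rw [pJ, pJ, End.mul_apply, End.mul_apply, ← D.map_e D' hI hI' f hf]
  generalize D.e i m = v
  induction J with
  | nil => rfl
  | cons t J ih =>
    simp only [List.map_cons, List.prod_cons, End.mul_apply, LinearMap.smul_apply,
      LinearMap.add_apply, End.one_apply, map_smul, map_add, hs t (hJ t List.mem_cons_self),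
      ih fun r hr => hJ r (List.mem_cons_of_mem _ hr)]

/-- Restriction to a finite dimensional invariant subspace. -/
theorem exists_restrict (hI : D.Integral) (S : Submodule ℂ X) [FiniteDimensional ℂ S]
    (hS : D.Inv S) :
    ∃ D' : DAHA d S, D'.Integral ∧ (∀ k < d, ∀ m : S, (D'.x k m : X) = D.x k m) ∧
      (∀ r, r + 1 < d → ∀ m : S, (D'.s r m : X) = D.s r m) ∧
      (∀ (i : ℕ → ℤ) (m : S), m ∈ D'.G i ↔ (m : X) ∈ D.G i) ∧
      ∀ B ∈ D.H, ∃ B' ∈ D'.H, ∀ m : S, (B' m : X) = B m := by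
  let x' : ℕ → End ℂ S := fun k => if h : k < d then (D.x k).restrict (hS.1 k h) else 0
  let s' : ℕ → End ℂ S := fun r => if h : r + 1 < d then (D.s r).restrict (hS.2 r h) else 0
  have hx : ∀ k < d, ∀ m : S, (x' k m : X) = D.x k m := fun k hk m => by
    simp only [x', dif_pos hk, LinearMap.coe_restrict_apply]
  have hs : ∀ r, r + 1 < d → ∀ m : S, (s' r m : X) = D.s r m := fun r hr m => by
    simp only [s', dif_pos hr, LinearMap.coe_restrict_apply]
  let D' : DAHA d S :=
    { x := x'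
      s := s'
      xx := fun k l hk hl => LinearMap.ext fun m => Subtype.ext (by
        simp only [End.mul_apply, hx k hk, hx l hl]
        exact LinearMap.congr_fun (D.xx k l hk hl) m)
      ss := fun r hr => LinearMap.ext fun m => Subtype.ext (by
        simp only [End.mul_apply, hs r hr]
        exact LinearMap.congr_fun (D.ss r hr) m)
      far := fun r t h ht => LinearMap.ext fun m => Subtype.ext (by
        simp only [End.mul_apply, hs r (by omega), hs t ht]
        exact LinearMap.congr_fun (D.far r t h ht) m)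
      braid := fun r hr => LinearMap.ext fun m => Subtype.ext (by
        simp only [End.mul_apply, hs r (by omega), hs (r + 1) hr]
        exact LinearMap.congr_fun (D.braid r hr) m)
      sx := fun r hr => LinearMap.ext fun m => Subtype.ext (by
        simp only [End.mul_apply, LinearMap.sub_apply, End.one_apply, Submodule.coe_sub,
          hs r hr, hx r (by omega), hx (r + 1) hr]
        exact LinearMap.congr_fun (D.sx r hr) m)
      sxfar := fun r k hr hk h1 h2 => LinearMap.ext fun m => Subtype.ext (by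
        simp only [End.mul_apply, hs r hr, hx k hk]
        exact LinearMap.congr_fun (D.sxfar r k hr hk h1 h2) m) }
  have pw : ∀ k < d, ∀ (c : ℂ) (N : ℕ) (m : S),
      (((D'.x k - c • (1 : End ℂ S)) ^ N) m : X) = ((D.x k - c • (1 : End ℂ X)) ^ N) m :=
    fun k hk c N m => D'.map_pow_sub D S.subtype (hx k hk) c N m
  have hG : ∀ (i : ℕ → ℤ) (m : S), m ∈ D'.G i ↔ (m : X) ∈ D.G i := fun i m => by
    rw [mem_G, mem_G]
    refine forall₂_congr fun k hk => exists_congr fun N => ?_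
    rw [← pw k hk, ZeroMemClass.coe_eq_zero]
  have hI' : D'.Integral := by
    rw [Integral, eq_top_iff, ← End.iSup_iInf_maxGenEigenspace_eq_top_of_forall_mapsTo
      (fun k : Fin d => D'.x k) (fun k l c =>
        End.mapsTo_maxGenEigenspace_of_comm (D'.xx l k l.2 k.2) c)
      fun k => End.iSup_maxGenEigenspace_eq_top _]
    refine iSup_le fun χ => ?_
    by_cases h : ∃ i : ℕ → ℤ, (fun k : Fin d => ((i k : ℤ) : ℂ)) = χ
    · obtain ⟨i, rfl⟩ := h
      exact le_iSup D'.G i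
    · intro m hm
      have h1 : (m : X) ∈ ⨅ k : Fin d, (D.x k).maxGenEigenspace (χ k) := by
        rw [End.mem_iInf_maxGenEigenspace_iff] at hm ⊢
        intro k
        obtain ⟨N, hN⟩ := hm k
        exact ⟨N, by rw [← pw k k.2, hN, ZeroMemClass.coe_zero]⟩
      have h2 : (⊤ : Submodule ℂ X) ≤
          ⨆ (ψ : Fin d → ℂ) (_ : ψ ≠ χ), ⨅ k : Fin d, (D.x k).maxGenEigenspace (ψ k) := by
        rw [← hI]
        exact iSup_le fun i => le_iSup₂_of_le (fun k : Fin d => ((i k : ℤ) : ℂ))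
          (fun e => h ⟨i, e⟩) le_rfl
      have h3 : m = 0 :=
        Subtype.ext (Submodule.disjoint_def.1 (D.indep χ) _ h1 (h2 Submodule.mem_top))
      rw [h3]
      exact zero_mem _
  refine ⟨D', hI', hx, hs, hG, fun B hB => ?_⟩
  induction hB using Algebra.adjoin_induction with
  | mem T hT =>
    rcases hT with (⟨k, hk, rfl⟩ | ⟨r, hr, rfl⟩) | ⟨i, rfl⟩
    · exact ⟨D'.x k, Algebra.subset_adjoin (Or.inl (Or.inl ⟨k, hk, rfl⟩)), hx k hk⟩
    · exact ⟨D'.s r, Algebra.subset_adjoin (Or.inl (Or.inr ⟨r, hr, rfl⟩)), hs r hr⟩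
    · exact ⟨D'.e i, Algebra.subset_adjoin (Or.inr ⟨i, rfl⟩),
        D'.map_e D hI' hI S.subtype hx i⟩
  | algebraMap c => exact ⟨algebraMap ℂ _ c, Subalgebra.algebraMap_mem _ c, fun m => rfl⟩
  | add T U _ _ hT hU =>
    obtain ⟨T', t1, t2⟩ := hT
    obtain ⟨U', u1, u2⟩ := hU
    exact ⟨T' + U', add_mem t1 u1, fun m => by
      rw [LinearMap.add_apply, LinearMap.add_apply, Submodule.coe_add, t2, u2]⟩
  | mul T U _ _ hT hU =>
    obtain ⟨T', t1, t2⟩ := hT
    obtain ⟨U', u1, u2⟩ := hU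
    exact ⟨T' * U', mul_mem t1 u1, fun m => by rw [End.mul_apply, End.mul_apply, t2, u2]⟩

end Pool.Agent.KM.DAHA
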