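import Pool.Agent.Lib.MP_515a76_al.GelfB
import Pool.Agent.Lib.MP_515a76_al.DBasic

/-! Tensoring with a coefficient representation. -/

namespace Pool.Agent.KM

open Module GMod

variable {n : ℕ} {ι : Type} [Fintype ι] [DecidableEq ι] {𝔅 : Set (ℤ → ℤ)}

theorem eM_diag_comm (k a b : Fin n) :
    (eM k k * eM a b - eM a b * eM k k : Mat n) =
      (((eps a - eps b : Wt n) k : ℤ) : ℂ) • eM a b := by
  have h1 : (eM k k * eM a b : Mat n) = (((eps a : Wt n) k : ℤ) : ℂ) • eM a b := by
    by_cases h : k = a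
    · subst h; simp [Matrix.single_mul_single_same]
    · rw [Matrix.single_mul_single_of_ne _ _ _ _ h]; simp [h]
  have h2 : (eM a b * eM k k : Mat n) = (((eps b : Wt n) k : ℤ) : ℂ) • eM a b := by
    by_cases h : b = k
    · subst h; simp [Matrix.single_mul_single_same]
    · rw [Matrix.single_mul_single_of_ne _ _ _ _ h]
      have h' : k ≠ b := fun e => h e.symm
      simp [h']
  rw [h1, h2, Pi.sub_apply, Int.cast_sub, sub_smul]

theorem Coef.wt_of_ne (C : Coef n ι) {a b : Fin n} {i j : ι} (h : C.C (eM a b) i j ≠ 0) :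
    C.wt i = C.wt j + eps a - eps b := by
  funext k
  have h1 := C.comm (eM k k) (eM a b)
  rw [eM_diag_comm, map_smul, C.diag] at h1
  have h2 := congrFun (congrFun h1 i) j
  simp only [Matrix.sub_apply, Matrix.diagonal_mul, Matrix.mul_diagonal, Matrix.smul_apply,
    smul_eq_mul] at h2
  have h3 : ((C.wt i k : ℤ) : ℂ) - ((C.wt j k : ℤ) : ℂ) =
      (((eps a - eps b : Wt n) k : ℤ) : ℂ) := by
    apply mul_right_cancel₀ h
    linear_combination h2
  have h4 : C.wt i k - C.wt j k = (eps a - eps b : Wt n) k := by exact_mod_cast h3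
  simp only [Pi.sub_apply, Pi.add_apply] at h4 ⊢
  linarith

theorem IsDual.wt {C C' : Coef n ι} (h : IsDual C C') (i : ι) : C'.wt i = -C.wt i := by
  funext k
  have h1 := h (eM k k)
  rw [C.diag, C'.diag] at h1
  have h2 := congrFun (congrFun h1 i) i
  simp only [Matrix.diagonal_apply_eq, Matrix.neg_apply, Matrix.transpose_apply] at h2
  exact_mod_cast h2

theorem tenρ_diag (C : Coef n ι) (M : GMod n) (j : Fin n) (m : ι → M.V) (i : ι) :
    tenρ C M (eM j j) m i = ((C.wt i j : ℤ) : ℂ) • m i + M.E j j (m i) := by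
  rw [tenρ_apply', C.diag, Finset.sum_eq_single i]
  · simp
  · intro b _ hb
    rw [Matrix.diagonal_apply_ne _ hb.symm, zero_smul]
  · simp

theorem mem_W_ten (C : Coef n ι) (M : GMod n) (a : Wt n) (m : ι → M.V) :
    m ∈ (Ten C M).W a ↔ ∀ i, m i ∈ M.W (a - C.wt i) := by
  rw [(Ten C M).mem_W a m]
  simp only [M.mem_W]
  have key : ∀ (j : Fin n) (i : ι),
      ((Ten C M).E j j m i = (((a j + (j : ℕ) : ℤ) : ℂ) • m) i) ↔
        M.E j j (m i) = ((((a - C.wt i) j + (j : ℕ) : ℤ)) : ℂ) • m i := by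
    intro j i
    have e : (Ten C M).E j j m i = ((C.wt i j : ℤ) : ℂ) • m i + M.E j j (m i) :=
      tenρ_diag C M j m i
    have e2 : ((((a - C.wt i) j + (j : ℕ) : ℤ)) : ℂ) =
        ((a j + (j : ℕ) : ℤ) : ℂ) - ((C.wt i j : ℤ) : ℂ) := by
      simp only [Pi.sub_apply]; push_cast; ring
    rw [e, e2, sub_smul, Pi.smul_apply, eq_sub_iff_add_eq']
  constructor
  · intro h i j
    exact (key j i).1 (congrFun (h j) i)
  · intro h j
    exact funext fun i => (key j i).2 (h i j)

theorem single_mem_W (C : Coef n ι) {M : GMod n} {a : Wt n} {v : M.V} (hv : v ∈ M.W a) (i : ι) :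
    (Pi.single i v : ι → M.V) ∈ (Ten C M).W (a + C.wt i) := by
  rw [mem_W_ten]
  intro j
  by_cases h : j = i
  · subst h; simpa using hv
  · simp [h]

theorem tenρ_single (C : Coef n ι) (M : GMod n) (A : Mat n) (i : ι) (v : M.V) :
    tenρ C M A (Pi.single i v) =
      ∑ j, C.C A j i • (Pi.single j v : ι → M.V) + Pi.single i (M.ρ A v) := by
  funext k
  rw [tenρ_apply', Pi.add_apply, Finset.sum_apply, Finset.sum_eq_single i, Finset.sum_eq_single k]
  · by_cases h : k = i
    · subst h; simp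
    · simp [h]
  · intro b _ hb
    simp [hb.symm]
  · simp
  · intro b _ hb
    simp [hb]
  · simp

theorem ptOp_hom (C : Coef n ι) {M N : GMod n} {f : M.V →ₗ[ℂ] N.V} (hf : M.IsHom N f) :
    (Ten C M).IsHom (Ten C N) (ptOp ι f) := by
  intro A m
  funext i
  change f (tenρ C M A m i) = tenρ C N A (ptOp ι f m) i
  simp only [tenρ_apply', map_add, map_sum, map_smul, ptOp_apply, hf A]

omit [Fintype ι] [DecidableEq ι] in
theorem ptOp_injective {X Y : Type} [AddCommGroup X] [Module ℂ X] [AddCommGroup Y] [Module ℂ Y]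
    {f : X →ₗ[ℂ] Y} (hf : Function.Injective f) : Function.Injective (ptOp ι f) :=
  fun _ _ h => funext fun i => hf (congrFun h i)

omit [Fintype ι] [DecidableEq ι] in
theorem ptOp_surjective {X Y : Type} [AddCommGroup X] [Module ℂ X] [AddCommGroup Y] [Module ℂ Y]
    {f : X →ₗ[ℂ] Y} (hf : Function.Surjective f) : Function.Surjective (ptOp ι f) := by
  intro y
  choose x hx using fun i => hf (y i)
  exact ⟨x, funext hx⟩

theorem ptOp_Om (C : Coef n ι) {M N : GMod n} {f : M.V →ₗ[ℂ] N.V} (hf : M.IsHom N f)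
    (m : ι → M.V) : ptOp ι f (Om C M m) = Om C N (ptOp ι f m) := by
  simp only [Om, LinearMap.sum_apply, map_sum, Module.End.mul_apply, ptOp_matOp]
  refine Finset.sum_congr rfl fun a _ => Finset.sum_congr rfl fun b _ => ?_
  congr 1
  funext i
  exact hf _ _

theorem Om_hom (C : Coef n ι) (M : GMod n) : (Ten C M).IsHom (Ten C M) (Om C M) := fun A m =>
  (congrArg (fun T : End ℂ (ι → M.V) => T m) (Om_comm C M A).eq).symm

theorem adjR_hom {C C' : Coef n ι} (h : IsDual C C') {Y Z : GMod n} {g : (ι → Y.V) →ₗ[ℂ] Z.V}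
    (hg : (Ten C Y).IsHom Z g) : Y.IsHom (Ten C' Z) (adjR g) := by
  intro A y
  funext i
  change g (Pi.single i (Y.ρ A y)) = tenρ C' Z A (adjR g y) i
  have h1 : g (tenρ C Y A (Pi.single i y)) = Z.ρ A (g (Pi.single i y)) := hg A _
  rw [tenρ_single, map_add, map_sum] at h1
  rw [tenρ_apply', adjR_apply, ← h1, h A]
  simp only [adjR_apply, Matrix.neg_apply, Matrix.transpose_apply, map_smul, neg_smul,
    Finset.sum_neg_distrib]
  abel

theorem adjL_hom {C C' : Coef n ι} (h : IsDual C C') {Y Z : GMod n} {g : Y.V →ₗ[ℂ] (ι → Z.V)}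
    (hg : Y.IsHom (Ten C' Z) g) : (Ten C Y).IsHom Z (adjL g) := by
  intro A m
  change adjL g (tenρ C Y A m) = Z.ρ A (adjL g m)
  have h1 : ∀ i, g (Y.ρ A (m i)) i = ∑ j, C'.C A i j • g (m i) j + Z.ρ A (g (m i) i) :=
    fun i => congrFun (hg A (m i)) i
  simp only [adjL_apply, tenρ_apply', map_add, map_sum, map_smul, Pi.add_apply, Finset.sum_apply,
    Pi.smul_apply, h1, h A, Matrix.neg_apply, Matrix.transpose_apply, neg_smul,
    Finset.sum_add_distrib, Finset.sum_neg_distrib]
  rw [Finset.sum_comm]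
  abel

theorem adjL_adjR {X Y : Type} [AddCommGroup X] [Module ℂ X] [AddCommGroup Y] [Module ℂ Y]
    (g : (ι → X) →ₗ[ℂ] Y) : adjL (adjR g) = g := by
  refine LinearMap.ext fun m => ?_
  simp only [adjL_apply, adjR_apply, ← map_sum, Finset.univ_sum_single]

theorem adjR_adjL {X Y : Type} [AddCommGroup X] [Module ℂ X] [AddCommGroup Y] [Module ℂ Y]
    (g : X →ₗ[ℂ] (ι → Y)) : adjR (adjL g) = g := by
  refine LinearMap.ext fun x => funext fun i => ?_
  rw [adjR_apply, adjL_apply, Finset.sum_eq_single i]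
  · simp
  · intro b _ hb
    simp [hb]
  · simp

theorem mem_of_single {X : Type} [AddCommGroup X] [Module ℂ X] {S : Submodule ℂ (ι → X)}
    {m : ι → X} (h : ∀ i, (Pi.single i (m i) : ι → X) ∈ S) : m ∈ S := by
  rw [← Finset.univ_sum_single m]
  exact S.sum_mem fun i _ => h i

/-- The tensor product with a highest weight module is spanned by the orbits of the `δ_i v`. -/
theorem ten_span (C : Coef n ι) {M : GMod n} {v : M.V} (hs : Function.Surjective (M.orb v)) :
    ⨆ i : ι, LinearMap.range ((Ten C M).orb (Pi.single i v)) = ⊤ := by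
  set S := ⨆ i : ι, LinearMap.range ((Ten C M).orb (Pi.single i v)) with hS
  have hcl : ∀ p : Low n, ∀ m ∈ S, (Ten C M).E p.1.1 p.1.2 m ∈ S := by
    intro p
    have : S ≤ S.comap ((Ten C M).E p.1.1 p.1.2) := by
      refine iSup_le fun i => ?_
      rintro _ ⟨u, rfl⟩
      refine Submodule.mem_iSup_of_mem i ⟨Um.f p * u, ?_⟩
      rw [orb_apply, orb_apply, map_mul, act_f]
      rfl
    exact fun m hm => this hm
  have key : ∀ u : Um n, ∀ i, (Pi.single i (M.act u v) : ι → M.V) ∈ S := by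
    intro u
    refine Um.induction (P := fun u => ∀ i, (Pi.single i (M.act u v) : ι → M.V) ∈ S)
      ?_ ?_ ?_ ?_ u
    · intro i
      rw [map_one]
      exact Submodule.mem_iSup_of_mem i (self_mem_orb (Ten C M) _)
    · intro p u hu i
      have h1 : tenρ C M (eM p.1.1 p.1.2) (Pi.single i (M.act u v)) ∈ S := hcl p _ (hu i)
      rw [tenρ_single] at h1
      rw [map_mul, act_f]
      exact (S.add_mem_iff_right (S.sum_mem fun j _ => S.smul_mem _ (hu j))).1 h1
    · intro u w hu hw i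
      rw [map_add, LinearMap.add_apply, Pi.single_add]
      exact S.add_mem (hu i) (hw i)
    · intro c u hu i
      rw [map_smul, LinearMap.smul_apply, Pi.single_smul]
      exact S.smul_mem _ (hu i)
  refine eq_top_iff.2 fun m _ => mem_of_single fun i => ?_
  obtain ⟨u, hu⟩ := hs (m i)
  rw [← hu]
  exact key u i

theorem wt_ten (C : Coef n ι) {M : GMod n} (hw : ⨆ a, M.W a = ⊤) :
    ⨆ a, (Ten C M).W a = ⊤ := by
  refine eq_top_iff.2 fun m _ => mem_of_single fun i => ?_
  have : (⊤ : Submodule ℂ M.V) ≤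
      (⨆ a, (Ten C M).W a).comap (LinearMap.single ℂ (fun _ : ι => M.V) i) := by
    rw [← hw]
    exact iSup_le fun a v hv => Submodule.mem_iSup_of_mem _ (single_mem_W C hv i)
  exact this Submodule.mem_top

theorem wt_of_surj {M N : GMod n} {f : M.V →ₗ[ℂ] N.V} (hf : M.IsHom N f)
    (hs : Function.Surjective f) (hw : ⨆ a, M.W a = ⊤) : ⨆ a, N.W a = ⊤ := by
  refine eq_top_iff.2 fun y _ => ?_
  obtain ⟨x, rfl⟩ := hs y
  have : (⊤ : Submodule ℂ M.V) ≤ (⨆ a, N.W a).comap f := by
    rw [← hw]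
    exact iSup_le fun a v hv => Submodule.mem_iSup_of_mem a (hf.map_W hv)
  exact this Submodule.mem_top

theorem not_prim_of_subsingleton {N : GMod n} (h : ∀ v : N.V, v = 0) {b : Wt n} : ¬ N.Prim b := by
  rintro ⟨K, -, v, -, hv, -⟩
  exact hv (h v ▸ K.zero_mem)

/-- Primitive weights of a module with a finite triangular system of generators. -/
theorem prim_of_gens (c : ι → Wt n) (b : Wt n) (s : Finset ι) :
    ∀ (N : GMod n) (_ : ⨆ a, N.W a = ⊤) (x : ι → N.V), (∀ k, x k ∈ N.W (c k)) →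
      (∀ k, k ∉ s → x k = 0) →
      (∀ k, ∀ i j : Fin n, i < j → ∃ t : ι → ℂ, (∀ k', t k' ≠ 0 → ht (c k) < ht (c k')) ∧
        N.E i j (x k) = ∑ k', t k' • x k') →
      ⨆ k, LinearMap.range (N.orb (x k)) = ⊤ → N.Prim b → ∃ k, cnt b = cnt (c k) := by
  induction s using Finset.induction_on_max_value (fun k => ht (c k)) with
  | empty =>
    intro N _ x _ h0 _ hsp hp
    refine absurd hp (not_prim_of_subsingleton fun v => ?_)
    have : (⊤ : Submodule ℂ N.V) ≤ ⊥ := by
      rw [← hsp]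
      refine iSup_le fun k => ?_
      rintro _ ⟨u, rfl⟩
      rw [orb_apply, h0 k (by simp), map_zero]
      exact Submodule.zero_mem _
    exact this Submodule.mem_top
  | insert k0 s _ hmax ih =>
    intro N hw x hx h0 hE hsp hp
    have hsing : N.Sing (c k0) (x k0) := by
      refine ⟨hx k0, fun i j hij => ?_⟩
      obtain ⟨t, ht', he⟩ := hE k0 i j hij
      rw [he]
      refine Finset.sum_eq_zero fun k' _ => ?_
      by_cases h1 : t k' = 0
      · rw [h1, zero_smul]
      · have h2 := ht' k' h1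
        rw [h0 k', smul_zero]
        intro hk
        rcases Finset.mem_insert.1 hk with rfl | hk
        · exact lt_irrefl _ h2
        · exact absurd (hmax k' hk) (not_le.2 h2)
    rcases prim_ext hw _ hsing.stable_orb hp with h1 | h1
    · exact ⟨k0, hsing.blk_orb.prim b h1⟩
    · have hq := isHom_mkQ N _ hsing.stable_orb
      have hqs := Submodule.mkQ_surjective (LinearMap.range (N.orb (x k0)))
      refine ih (N.quot _ hsing.stable_orb) (wt_of_surj hq hqs hw)
        (fun k => (LinearMap.range (N.orb (x k0))).mkQ (x k)) (fun k => hq.map_W (hx k))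
        (fun k hk => ?_) (fun k i j hij => ?_) ?_ h1
      · by_cases h2 : k = k0
        · subst h2
          exact (Submodule.Quotient.mk_eq_zero _).2 (self_mem_orb N _)
        · rw [h0 k (by simp [h2, hk]), map_zero]
      · obtain ⟨t, ht', he⟩ := hE k i j hij
        refine ⟨t, ht', ?_⟩
        rw [← hq (eM i j) (x k)]
        change (LinearMap.range (N.orb (x k0))).mkQ (N.E i j (x k)) = _
        rw [he]
        simp only [map_sum, map_smul]
      · refine eq_top_iff.2 fun y _ => ?_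
        obtain ⟨z, rfl⟩ := hqs y
        have : (⊤ : Submodule ℂ N.V) ≤ (⨆ k, LinearMap.range ((N.quot _ hsing.stable_orb).orb
            ((LinearMap.range (N.orb (x k0))).mkQ (x k)))).comap
              (LinearMap.range (N.orb (x k0))).mkQ := by
          rw [← hsp]
          refine iSup_le fun k => ?_
          rintro _ ⟨u, rfl⟩
          exact Submodule.mem_iSup_of_mem k ⟨u, (hq.act u (x k)).symm⟩
        exact this Submodule.mem_top

theorem prim_ten_hw (C : Coef n ι) {M : GMod n} {a : Wt n} {v : M.V} (hv : M.Sing a v)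
    (hs : Function.Surjective (M.orb v)) {b : Wt n} (hp : (Ten C M).Prim b) :
    ∃ i, cnt b = cnt (a + C.wt i) := by
  refine prim_of_gens (fun i => a + C.wt i) b Finset.univ (Ten C M)
    (wt_ten C (hw_wt hv.1 hs).1) (fun i => Pi.single i v) (fun i => single_mem_W C hv.1 i)
    (fun k hk => absurd (Finset.mem_univ k) hk) (fun k i j hij => ?_) (ten_span C hs) hp
  refine ⟨fun k' => C.C (eM i j) k' k, fun k' hk' => ?_, ?_⟩
  · have h1 := ht_root (a + C.wt k) i j
    have h2 : a + C.wt k' = a + C.wt k + eps i - eps j := by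
      rw [C.wt_of_ne hk']; abel
    have h3 : (i : ℕ) < j := hij
    show ht (a + C.wt k) < ht (a + C.wt k')
    rw [h2, h1]
    omega
  · change tenρ C M (eM i j) (Pi.single k v) = _
    rw [tenρ_single]
    have : M.ρ (eM i j) v = 0 := hv.2 i j hij
    rw [this, Pi.single_zero, add_zero]

theorem prim_ten (C : Coef n ι) {M : GMod n} (h : M.Adm 𝔅) (b : Wt n) :
    (Ten C M).Prim b → ∃ (a : Wt n) (i : ι), cnt a ∈ 𝔅 ∧ cnt b = cnt (a + C.wt i) := by
  refine Adm.induction_hw (𝔅 := 𝔅) (P := fun M => (Ten C M).Prim b →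
    ∃ (a : Wt n) (i : ι), cnt a ∈ 𝔅 ∧ cnt b = cnt (a + C.wt i)) ?_ ?_ M h
  · intro M hM hp
    exact absurd hp (not_prim_of_subsingleton fun v => funext fun i => Subsingleton.elim _ _)
  · intro M hM a v hv _ ha ih hp
    have hq := ptOp_hom C (isHom_mkQ M _ hv.stable_orb)
    rcases prim_ext (wt_ten C hM.wt) _ hq.stable_ker hp with h1 | h1
    · have hi := ptOp_hom C (isHom_subtype M _ hv.stable_orb)
      have hmem : ∀ m, ptOp ι (LinearMap.range (M.orb v)).subtype m ∈
          LinearMap.ker (ptOp ι (LinearMap.range (M.orb v)).mkQ) := fun m =>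
        funext fun i => (Submodule.Quotient.mk_eq_zero _).2 (m i).2
      have h2 : (Ten C (M.sub _ hv.stable_orb)).Prim b := by
        refine Prim.of_surj (hi.codRestrict _ hq.stable_ker hmem) ?_
          (wt_ten C (hM.sub _ hv.stable_orb).wt) h1
        rintro ⟨m, hm⟩
        exact ⟨fun i => ⟨m i, (Submodule.Quotient.mk_eq_zero _).1 (congrFun hm i)⟩, rfl⟩
      have h3 : (M.sub _ hv.stable_orb).Sing a ⟨v, self_mem_orb M v⟩ :=
        ⟨(mem_W_sub M _ _ a _).2 hv.1, fun i j hij => Subtype.ext (hv.2 i j hij)⟩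
      have h4 : Function.Surjective ((M.sub _ hv.stable_orb).orb ⟨v, self_mem_orb M v⟩) := by
        rintro ⟨_, u, rfl⟩
        exact ⟨u, Subtype.ext ((isHom_subtype M _ hv.stable_orb).act u _)⟩
      obtain ⟨i, hi⟩ := prim_ten_hw C h3 h4 h2
      exact ⟨a, i, ha, hi⟩
    · refine ih (Prim.of_inj (hq.liftQ _ hq.stable_ker le_rfl) ?_ h1)
      rw [← LinearMap.ker_eq_bot]
      exact Submodule.ker_liftQ_eq_bot _ _ _ le_rfl

theorem adm_ten (C : Coef n ι) {M : GMod n} (h : M.Adm 𝔅) :
    (Ten C M).Adm {B | ∃ (a : Wt n) (i : ι), cnt a ∈ 𝔅 ∧ B = cnt (a + C.wt i)} := by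
  refine ⟨?_, wt_ten C h.wt, fun a => ?_, ?_, fun b hb => prim_ten C h b hb⟩
  · have h1 : {a : Wt n | cnt a ∈ 𝔅}.Finite :=
      (h.finB.biUnion fun B _ => finite_cnt (n := n) B).subset fun a ha =>
        Set.mem_biUnion ha rfl
    refine ((h1.prod (Set.finite_univ (α := ι))).image
      fun p => cnt (p.1 + C.wt p.2)).subset ?_
    rintro _ ⟨a, i, ha, rfl⟩
    exact ⟨(a, i), ⟨ha, trivial⟩, rfl⟩
  · have := h.fin
    refine Submodule.finiteDimensional_of_le (S₂ := ⨆ i : ι, (M.W (a - C.wt i)).map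
      (LinearMap.single ℂ (fun _ : ι => M.V) i)) fun m hm => mem_of_single fun i => ?_
    exact Submodule.mem_iSup_of_mem i ⟨m i, (mem_W_ten C M a m).1 hm i, rfl⟩
  · obtain ⟨h0, hh⟩ := h.bdd
    refine ⟨h0 + ∑ i, |ht (C.wt i)|, fun a ha => ?_⟩
    obtain ⟨m, hm, hm0⟩ := Submodule.exists_mem_ne_zero_of_ne_bot ha
    obtain ⟨i, hi⟩ := Function.ne_iff.1 hm0
    have h1 := hh (a - C.wt i) ((Submodule.ne_bot_iff _).2 ⟨m i, (mem_W_ten C M a m).1 hm i, hi⟩)
    have h2 := ht_add (a - C.wt i) (C.wt i)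
    rw [sub_add_cancel] at h2
    have h3 : |ht (C.wt i)| ≤ ∑ i, |ht (C.wt i)| :=
      Finset.single_le_sum (f := fun i => |ht (C.wt i)|) (fun i _ => abs_nonneg _)
        (Finset.mem_univ i)
    have h4 := le_abs_self (ht (C.wt i))
    linarith

theorem Coef.wt_of_pow_ne (C : Coef n ι) {a b : Fin n} (hab : a ≠ b) (N : ℕ) :
    ∀ i j : ι, (C.C (eM a b) ^ N) i j ≠ 0 → C.wt i a = C.wt j a + N := by
  induction N with
  | zero =>
    intro i j h
    by_cases e : i = j
    · simp [e]
    · simp [Matrix.one_apply_ne e] at h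
  | succ N ih =>
    intro i j h
    rw [pow_succ, Matrix.mul_apply] at h
    obtain ⟨k, -, hk⟩ := Finset.exists_ne_zero_of_sum_ne_zero h
    have h1 := ih i k (left_ne_zero_of_mul hk)
    have h2 := congrFun (C.wt_of_ne (right_ne_zero_of_mul hk)) a
    simp [hab] at h2
    push_cast
    linarith

theorem Coef.nilp (C : Coef n ι) {a b : Fin n} (hab : a ≠ b) :
    ∃ N : ℕ, C.C (eM a b) ^ N = 0 := by
  refine ⟨(2 * ∑ i, |C.wt i a|).toNat + 1, ?_⟩
  ext i j
  by_contra h
  have h1 := C.wt_of_pow_ne hab _ i j h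
  have h2 : ∀ i, |C.wt i a| ≤ ∑ i, |C.wt i a| := fun i =>
    Finset.single_le_sum (f := fun i => |C.wt i a|) (fun i _ => abs_nonneg _) (Finset.mem_univ i)
  have h3 := Int.self_le_toNat (2 * ∑ i, |C.wt i a|)
  have h4 := h2 i
  have h5 := h2 j
  have h6 := le_abs_self (C.wt i a)
  have h7 := neg_abs_le (C.wt j a)
  push_cast at h1
  linarith

omit [Fintype ι] [DecidableEq ι] in
theorem ptOp_pow_apply {X : Type} [AddCommGroup X] [Module ℂ X] (f : End ℂ X) (N : ℕ) (m : ι → X)
    (i : ι) : (((ptOp ι f : End ℂ (ι → X)) ^ N) m) i = (f ^ N) (m i) := by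
  induction N with
  | zero => rfl
  | succ N ih => rw [pow_succ', pow_succ', End.mul_apply, End.mul_apply, ptOp_apply, ih]

theorem ln_ten (C : Coef n ι) {M : GMod n} {a b : Fin n} (hab : a ≠ b) (h : M.LN a b) :
    (Ten C M).LN a b := by
  intro m
  refine DAHA.nil_add (S := matOp M.V (C.C (eM a b))) (T := ptOp ι (M.ρ (eM a b))) (v := m)
    (LinearMap.ext fun m => (ptOp_matOp _ _ m).symm) ?_ ?_
  · obtain ⟨N, hN⟩ := C.nilp hab
    exact ⟨N, by rw [← map_pow, hN, map_zero, LinearMap.zero_apply]⟩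
  · choose N hN using fun i => h (m i)
    refine ⟨∑ i, N i, funext fun i => ?_⟩
    rw [ptOp_pow_apply]
    exact DAHA.pow_zero_of_le (hN i)
      (Finset.single_le_sum (f := N) (fun i _ => Nat.zero_le _) (Finset.mem_univ i))

end Pool.Agent.KM
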