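import Pool.Agent.Lib.MP_515a76_al.Br2
import Pool.Agent.Lib.MP_515a76_al.GTen

/-! Construction of a projective functor from a natural idempotent on gl_n modules. -/

namespace Pool.Agent.KM

open Module GMod LieAlgebra.SpecialLinear TensorProduct

attribute [local instance 100] LieRing.ofAssociativeRing

variable {n : ℕ} {ι : Type} [Fintype ι] [DecidableEq ι]

/-- The tensor product with the space of functions is the space of vector valued functions. -/
noncomputable def tE (ι : Type) [Fintype ι] [DecidableEq ι] (X : Type) [AddCommGroup X]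
    [Module ℂ X] : (ι → ℂ) ⊗[ℂ] X ≃ₗ[ℂ] (ι → X) :=
  (TensorProduct.comm ℂ (ι → ℂ) X).trans (TensorProduct.piScalarRight ℂ ℂ X ι)

theorem tE_tmul {X : Type} [AddCommGroup X] [Module ℂ X] (z : ι → ℂ) (x : X) :
    tE ι X (z ⊗ₜ[ℂ] x) = fun i => z i • x := by
  simp [tE]

theorem tE_lie (C : Coef n ι) (c : ℤ) (M : SlMod n) (x : sl (Fin n) ℂ)
    (t : ((toSl C.mod).tens M).V) :
    tE ι M.V (⁅x, t⁆ : ((toSl C.mod).tens M).V) = tenρ C (toGl c M) x.1 (tE ι M.V t) := by
  induction t using TensorProduct.induction_on with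
  | zero =>
    have h0 : (⁅x, (0 : ((toSl C.mod).tens M).V)⁆ : ((toSl C.mod).tens M).V) = 0 := lie_zero x
    refine (congrArg (tE ι M.V) h0).trans ?_
    refine (map_zero (tE ι M.V)).trans ?_
    refine Eq.trans ?_ (congrArg (tenρ C (toGl c M) x.1) (map_zero (tE ι M.V))).symm
    exact (map_zero _).symm
  | tmul z m =>
    have h1 : (⁅x, (z ⊗ₜ[ℂ] m : (toSl C.mod).V ⊗[ℂ] M.V)⁆ : (toSl C.mod).V ⊗[ℂ] M.V) =
        ⁅x, z⁆ ⊗ₜ[ℂ] m + z ⊗ₜ[ℂ] ⁅x, m⁆ := TensorProduct.LieModule.lie_tmul_right x z m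
    refine (congrArg (tE ι M.V) h1).trans ?_
    refine (map_add (tE ι M.V) _ _).trans ?_
    have h2 := tE_tmul (ι := ι) (X := M.V) (matOp ℂ (C.C x.1) z) m
    have h3 := tE_tmul (ι := ι) (X := M.V) z ⁅x, m⁆
    have h4 := tE_tmul (ι := ι) (X := M.V) z m
    refine (congrArg₂ (· + ·) h2 h3).trans ?_
    refine Eq.trans ?_ (congrArg (tenρ C (toGl c M) x.1) h4).symm
    funext i
    rw [tenρ_apply', map_smul, toGl_sl]
    simp only [Pi.add_apply, matOp_apply, smul_eq_mul, Finset.sum_smul, smul_smul]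
  | add s t hs ht =>
    have h1 : (⁅x, (s + t : ((toSl C.mod).tens M).V)⁆ : ((toSl C.mod).tens M).V) =
        ⁅x, s⁆ + ⁅x, t⁆ := lie_add x s t
    refine (congrArg (tE ι M.V) h1).trans ?_
    refine (map_add (tE ι M.V) _ _).trans ?_
    refine (congrArg₂ (· + ·) hs ht).trans ?_
    refine Eq.trans ?_ (congrArg (tenρ C (toGl c M) x.1) (map_add (tE ι M.V) s t)).symm
    exact (map_add _ _ _).symm

/-- The identification as an isomorphism of sl_n modules. -/
noncomputable def tEq (C : Coef n ι) (c : ℤ) (M : SlMod n) :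
    SlEquiv ((toSl C.mod).tens M) (toSl (Ten C (toGl c M))) :=
  { tE ι M.V with map_lie' := fun {x t} => tE_lie C c M x t }

theorem tEq_apply (C : Coef n ι) (c : ℤ) (M : SlMod n) (t : ((toSl C.mod).tens M).V) :
    tEq C c M t = tE ι M.V t := rfl

theorem tEq_nat (C : Coef n ι) (c : ℤ) {M M' : SlMod n} (f : SlMod.Hom M M')
    (t : ((toSl C.mod).tens M).V) :
    tEq C c M' ((toSl C.mod).tensMap f t) = ptOp ι f.toLinearMap (tEq C c M t) := by
  induction t using TensorProduct.induction_on with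
  | zero =>
    have h0 : (toSl C.mod).tensMap f (0 : ((toSl C.mod).tens M).V) = 0 := map_zero _
    refine (congrArg (tEq C c M') h0).trans ?_
    refine (map_zero (tEq C c M')).trans ?_
    refine Eq.trans ?_ (congrArg (ptOp ι f.toLinearMap) (map_zero (tEq C c M))).symm
    exact (map_zero (ptOp ι f.toLinearMap)).symm
  | tmul z m =>
    have h1 : (toSl C.mod).tensMap f (z ⊗ₜ[ℂ] m : (toSl C.mod).V ⊗[ℂ] M.V) =
        (z ⊗ₜ[ℂ] f m : (toSl C.mod).V ⊗[ℂ] M'.V) := rfl
    refine (congrArg (tEq C c M') h1).trans ?_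
    have h3 := tE_tmul (ι := ι) (X := M'.V) z (f m)
    have h4 := tE_tmul (ι := ι) (X := M.V) z m
    refine h3.trans ?_
    refine Eq.trans ?_ (congrArg (ptOp ι f.toLinearMap) h4).symm
    funext i
    rw [ptOp_apply, map_smul]
    rfl
  | add s t hs ht =>
    have h1 : (toSl C.mod).tensMap f (s + t : ((toSl C.mod).tens M).V) =
        (toSl C.mod).tensMap f s + (toSl C.mod).tensMap f t := map_add _ s t
    refine (congrArg (tEq C c M') h1).trans ?_
    refine (map_add (tEq C c M') _ _).trans ?_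
    refine (congrArg₂ (· + ·) hs ht).trans ?_
    refine Eq.trans ?_ (congrArg (ptOp ι f.toLinearMap) (map_add (tEq C c M) s t)).symm
    exact (map_add (ptOp ι f.toLinearMap) _ _).symm

/-- A homomorphism of gl_n modules as a homomorphism of sl_n modules. -/
def slHom {X Y : GMod n} (f : X.V →ₗ[ℂ] Y.V) (hf : X.IsHom Y f) : SlMod.Hom (toSl X) (toSl Y) :=
  { f with map_lie' := fun {x v} => hf x.1 v }

theorem slHom_apply {X Y : GMod n} (f : X.V →ₗ[ℂ] Y.V) (hf : X.IsHom Y f) (v : (toSl X).V) :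
    slHom f hf v = f v := rfl

/-- Transport of an endomorphism along an isomorphism. -/
noncomputable def conjHom {P Q : SlMod n} (e : SlEquiv P Q) (g : SlMod.Hom Q Q) : SlMod.Hom P P :=
  e.symm.toLieModuleHom.comp (g.comp e.toLieModuleHom)

theorem conjHom_apply {P Q : SlMod n} (e : SlEquiv P Q) (g : SlMod.Hom Q Q) (v : P.V) :
    e (conjHom e g v) = g (e v) := e.apply_symm_apply _

/-- An isomorphism restricts to corresponding submodules. -/
theorem exists_sub_equiv {P : SlMod n} {X : GMod n} (e : SlEquiv P (toSl X)) (S : P.Sub)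
    (N : Submodule ℂ X.V) (hN : X.Stable N) (h : ∀ v : P.V, v ∈ S ↔ e v ∈ N) :
    Nonempty (SlEquiv (P.sub S) (toSl (X.sub N hN))) := by
  refine ⟨{ toFun := fun v => (⟨e (show S from v).1, (h _).1 (show S from v).2⟩ : N)
            map_add' := fun v w => Subtype.ext (map_add e _ _)
            map_smul' := fun t v => Subtype.ext (map_smul e _ _)
            map_lie' := fun {x v} => Subtype.ext (e.toLieModuleHom.map_lie x (show S from v).1)
            invFun := fun w => (⟨e.symm (show N from w).1, (h _).2 (by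
              rw [e.apply_symm_apply]; exact (show N from w).2)⟩ : S)
            left_inv := fun v => Subtype.ext (e.symm_apply_apply _)
            right_inv := fun w => Subtype.ext (e.apply_symm_apply _) }⟩

theorem exists_functor (C : Coef n ι) (c c' : ℤ) (p : ∀ X : GMod n, End ℂ (ι → X.V))
    (N : ∀ X : GMod n, Submodule ℂ (ι → X.V)) (hN : ∀ X : GMod n, (Ten C X).Stable (N X))
    (hom : ∀ X : GMod n, X.Blk (cnt (rhoC n c)) → (Ten C X).IsHom (Ten C X) (p X))
    (h1 : ∀ X : GMod n, X.Blk (cnt (rhoC n c)) → ∀ m, p X m ∈ N X)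
    (h2 : ∀ X : GMod n, X.Blk (cnt (rhoC n c)) → ∀ m ∈ N X, p X m = m)
    (nat : ∀ X Y : GMod n, X.Blk (cnt (rhoC n c)) → Y.Blk (cnt (rhoC n c)) →
      ∀ f : X.V →ₗ[ℂ] Y.V, X.IsHom Y f → ∀ m, ptOp ι f (p X m) = p Y (ptOp ι f m))
    (blk : ∀ X : GMod n, X.Blk (cnt (rhoC n c)) →
      ((Ten C X).sub (N X) (hN X)).Blk (cnt (rhoC n c'))) :
    ∃ T : SlMod.ProjFunctor n, ∀ (M : SlMod n) (hM : M.InO0),
      Nonempty (SlEquiv (T.obj M hM) (toSl ((Ten C (toGl c M)).sub (N (toGl c M)) (hN _)))) := by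
  let q : ∀ M : SlMod n, M.InO0 → SlMod.Hom ((toSl C.mod).tens M) ((toSl C.mod).tens M) :=
    fun M hM => conjHom (tEq C c M) (slHom (X := Ten C (toGl c M)) (Y := Ten C (toGl c M))
      (p (toGl c M)) (hom _ (blk_toGl hM c)))
  have hq : ∀ (M : SlMod n) (hM : M.InO0) (t : ((toSl C.mod).tens M).V),
      tEq C c M (q M hM t) = p (toGl c M) (tEq C c M t) := fun M hM t => conjHom_apply _ _ t
  have hr : ∀ (M : SlMod n) (hM : M.InO0) (t : ((toSl C.mod).tens M).V),
      t ∈ (q M hM).range ↔ tEq C c M t ∈ N (toGl c M) := by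
    intro M hM t
    rw [LieModuleHom.mem_range]
    constructor
    · rintro ⟨s, rfl⟩
      rw [hq M hM]
      exact h1 _ (blk_toGl hM c) _
    · intro ht
      refine ⟨t, (tEq C c M).injective ?_⟩
      rw [hq M hM]
      exact h2 _ (blk_toGl hM c) _ ht
  have he : ∀ (M : SlMod n) (hM : M.InO0),
      Nonempty (SlEquiv (((toSl C.mod).tens M).sub (q M hM).range)
        (toSl ((Ten C (toGl c M)).sub (N (toGl c M)) (hN _)))) :=
    fun M hM => exists_sub_equiv (X := Ten C (toGl c M)) (tEq C c M) _ _ (hN _) (hr M hM)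
  refine ⟨{ V := toSl C.mod
            fin := inferInstanceAs (FiniteDimensional ℂ (ι → ℂ))
            e := { p := q, idem := fun M hM => ?_, nat := fun M M' hM hM' f => ?_ }
            mem := fun M hM => ?_ }, he⟩
  · refine LieModuleHom.ext fun t => (tEq C c M).injective ?_
    rw [LieModuleHom.comp_apply, hq M hM, hq M hM]
    exact h2 _ (blk_toGl hM c) _ (h1 _ (blk_toGl hM c) _)
  · refine LieModuleHom.ext fun t => (tEq C c M').injective ?_
    rw [LieModuleHom.comp_apply, LieModuleHom.comp_apply, hq M' hM', tEq_nat, tEq_nat,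
      hq M hM]
    exact (nat _ _ (blk_toGl hM c) (blk_toGl hM' c) _ (isHom_toGl f) _).symm
  · obtain ⟨e⟩ := he M hM
    have hb := blk _ (blk_toGl hM c)
    exact inO0_of_blk (c := c') (Adm.iso hb (iso_toGl_of_equiv hb e).symm)

end Pool.Agent.KM
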