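import Pool.Agent.Lib.MP_515a76_al.GHW

/-! Existence, universal property and character of Verma modules. -/

namespace Pool.Agent.KM

open Module

variable {n : ℕ}

namespace GV

/-- Strictly lower triangular matrices. -/
def IsLow (A : Mat n) : Prop := ∀ a b, a ≤ b → A a b = 0

/-- Upper triangular matrices. -/
def IsUp (A : Mat n) : Prop := ∀ a b, b < a → A a b = 0

theorem isLow_eM (p : Low n) : IsLow (eM p.1.1 p.1.2) := by
  intro a b hab
  have : ¬ (p.1.1 = a ∧ p.1.2 = b) := by
    rintro ⟨rfl, rfl⟩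
    exact absurd p.2 (not_lt.mpr hab)
  simp [this]

theorem IsLow.mul {A B : Mat n} (hA : IsLow A) (hB : IsLow B) : IsLow (A * B) := by
  intro a b hab
  rw [Matrix.mul_apply]
  refine Finset.sum_eq_zero fun c _ => ?_
  rcases le_or_gt a c with h | h
  · rw [hA a c h, zero_mul]
  · rw [hB c b (h.le.trans hab), mul_zero]

theorem IsLow.br {A B : Mat n} (hA : IsLow A) (hB : IsLow B) : IsLow (A * B - B * A) := by
  intro a b hab
  rw [Matrix.sub_apply, hA.mul hB a b hab, hB.mul hA a b hab, sub_zero]

theorem IsUp.mul {A B : Mat n} (hA : IsUp A) (hB : IsUp B) : IsUp (A * B) := by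
  intro a b hab
  rw [Matrix.mul_apply]
  refine Finset.sum_eq_zero fun c _ => ?_
  rcases le_or_gt a c with h | h
  · rw [hB c b (hab.trans_le h), mul_zero]
  · rw [hA a c h, zero_mul]

theorem IsUp.mul_diag {A B : Mat n} (hA : IsUp A) (hB : IsUp B) (j : Fin n) :
    (A * B) j j = A j j * B j j := by
  rw [Matrix.mul_apply, Finset.sum_eq_single j]
  · intro c _ hc
    rcases lt_or_gt_of_ne hc with h | h
    · rw [hA j c h, zero_mul]
    · rw [hB c j h, mul_zero]
  · simp

theorem exists_split (A : Mat n) : ∃ L R : Mat n, IsLow L ∧ IsUp R ∧ A = L + R := by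
  refine ⟨Matrix.of fun a b => if b < a then A a b else 0,
    Matrix.of fun a b => if b < a then 0 else A a b, ?_, ?_, ?_⟩
  · intro a b hab
    simp [not_lt.mpr hab]
  · intro a b hab
    simp [hab]
  · ext a b
    by_cases h : b < a <;> simp [h]

/-- The strictly lower triangular part of a matrix in the enveloping algebra. -/
noncomputable def low : Mat n →ₗ[ℂ] Um n where
  toFun := fun A => ∑ p : Low n, A p.1.1 p.1.2 • Um.f p
  map_add' := fun A B => by simp [add_smul, Finset.sum_add_distrib]
  map_smul' := fun c A => by simp [Finset.smul_sum, smul_smul]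

theorem low_apply (A : Mat n) : low A = ∑ p : Low n, A p.1.1 p.1.2 • Um.f p := rfl

theorem low_eM (p : Low n) : low (eM p.1.1 p.1.2) = Um.f p := by
  rw [low_apply, Finset.sum_eq_single p]
  · simp
  · intro q _ hq
    have : ¬ (p.1.1 = q.1.1 ∧ p.1.2 = q.1.2) := fun hh => hq (Subtype.ext (Prod.ext hh.1 hh.2)).symm
    simp [this]
  · simp

theorem low_up {A : Mat n} (hA : IsUp A) : low A = 0 := by
  rw [low_apply]
  exact Finset.sum_eq_zero fun p _ => by rw [hA _ _ p.2, zero_smul]

theorem f_comm (p q : Low n) : Um.f p * Um.f q - Um.f q * Um.f p =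
    low (eM p.1.1 p.1.2 * eM q.1.1 q.1.2 - eM q.1.1 q.1.2 * eM p.1.1 p.1.2) := by
  have h := RingQuot.mkAlgHom_rel ℂ (UmRel.comm p q)
  simp only [map_sub, map_mul, lowF, map_sum, map_smul] at h
  exact h

/-- Induction over strictly lower triangular matrices. -/
theorem IsLow.ind {P : Mat n → Prop} (h0 : P 0) (he : ∀ p : Low n, P (eM p.1.1 p.1.2))
    (hadd : ∀ A B, P A → P B → P (A + B)) (hsmul : ∀ (c : ℂ) A, P A → P (c • A)) {A : Mat n}
    (hA : IsLow A) : P A := by
  rw [← sum_low A hA]
  exact Finset.sum_induction _ P hadd h0 fun p _ => hsmul _ _ (he p)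

theorem low_br_f {A : Mat n} (hA : IsLow A) (q : Low n) :
    low A * Um.f q - Um.f q * low A = low (A * eM q.1.1 q.1.2 - eM q.1.1 q.1.2 * A) := by
  refine IsLow.ind (P := fun A => low A * Um.f q - Um.f q * low A =
    low (A * eM q.1.1 q.1.2 - eM q.1.1 q.1.2 * A)) (by simp) (fun p => ?_) (fun A B hA hB => ?_)
    (fun c A hA => ?_) hA
  · simp only [low_eM, f_comm]
  · have : (A + B) * eM q.1.1 q.1.2 - eM q.1.1 q.1.2 * (A + B) =
        (A * eM q.1.1 q.1.2 - eM q.1.1 q.1.2 * A) + (B * eM q.1.1 q.1.2 - eM q.1.1 q.1.2 * B) := by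
      noncomm_ring
    simp only [this, map_add, ← hA, ← hB]
    noncomm_ring
  · have : (c • A) * eM q.1.1 q.1.2 - eM q.1.1 q.1.2 * (c • A) =
        c • (A * eM q.1.1 q.1.2 - eM q.1.1 q.1.2 * A) := by
      rw [smul_sub, smul_mul_assoc, mul_smul_comm]
    rw [this, map_smul, map_smul, ← hA, smul_sub, smul_mul_assoc, mul_smul_comm]

/-- The bracket with a fixed matrix on the right. -/
noncomputable def brR (B : Mat n) : Mat n →ₗ[ℂ] Mat n :=
  LinearMap.mulRight ℂ B - LinearMap.mulLeft ℂ B

theorem brR_apply (B A : Mat n) : brR B A = A * B - B * A := rfl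

theorem br_add (A B B' : Mat n) :
    A * (B + B') - (B + B') * A = (A * B - B * A) + (A * B' - B' * A) := by noncomm_ring

theorem br_smul (c : ℂ) (A B : Mat n) : A * (c • B) - (c • B) * A = c • (A * B - B * A) := by
  rw [smul_sub, smul_mul_assoc, mul_smul_comm]

/-- Families of elements of the enveloping algebra indexed linearly by matrices. -/
def TT (n : ℕ) : Type := Mat n →ₗ[ℂ] Um n

noncomputable instance : AddCommGroup (TT n) := inferInstanceAs (AddCommGroup (Mat n →ₗ[ℂ] Um n))

noncomputable instance : Module ℂ (TT n) := inferInstanceAs (Module ℂ (Mat n →ₗ[ℂ] Um n))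

/-- The underlying linear map. -/
def TT.ev : TT n ≃ₗ[ℂ] (Mat n →ₗ[ℂ] Um n) := LinearEquiv.refl ℂ (Mat n →ₗ[ℂ] Um n)

theorem TT.ext {τ τ' : TT n} (h : ∀ A, TT.ev τ A = TT.ev τ' A) : τ = τ' :=
  TT.ev.injective (LinearMap.ext h)

/-- The auxiliary action of one matrix. -/
noncomputable def G1 (B : Mat n) : End ℂ (TT n) where
  toFun := fun τ => TT.ev.symm ((LinearMap.mulLeft ℂ (low B)).comp (TT.ev τ) + (TT.ev τ).comp (brR B))
  map_add' := fun τ τ' => by
    refine TT.ext fun A => ?_
    simp [mul_add]; abel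
  map_smul' := fun c τ => by
    refine TT.ext fun A => ?_
    simp

theorem G1_apply (B : Mat n) (τ : TT n) (A : Mat n) :
    TT.ev (G1 B τ) A = low B * TT.ev τ A + TT.ev τ (A * B - B * A) := rfl

/-- The auxiliary action on families of elements indexed by matrices. -/
noncomputable def G : Mat n →ₗ[ℂ] End ℂ (TT n) where
  toFun := G1
  map_add' := fun B B' => by
    refine LinearMap.ext fun τ => TT.ext fun A => ?_
    rw [LinearMap.add_apply, map_add, LinearMap.add_apply, G1_apply, G1_apply, G1_apply, br_add,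
      map_add, map_add, add_mul]
    abel
  map_smul' := fun c B => by
    refine LinearMap.ext fun τ => TT.ext fun A => ?_
    rw [LinearMap.smul_apply, map_smul, LinearMap.smul_apply, G1_apply, G1_apply, br_smul,
      map_smul, map_smul, smul_mul_assoc, smul_add]
    rfl

theorem G_apply (B : Mat n) (τ : TT n) (A : Mat n) :
    TT.ev (G B τ) A = low B * TT.ev τ A + TT.ev τ (A * B - B * A) := rfl

theorem G_comm (p q : Low n) :
    G (eM p.1.1 p.1.2) * G (eM q.1.1 q.1.2) - G (eM q.1.1 q.1.2) * G (eM p.1.1 p.1.2) =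
      G (eM p.1.1 p.1.2 * eM q.1.1 q.1.2 - eM q.1.1 q.1.2 * eM p.1.1 p.1.2) := by
  refine LinearMap.ext fun τ => TT.ext fun A => ?_
  have key : ∀ P Q : Mat n, A * (P * Q - Q * P) - (P * Q - Q * P) * A =
      ((A * P - P * A) * Q - Q * (A * P - P * A)) - ((A * Q - Q * A) * P - P * (A * Q - Q * A)) := by
    intro P Q; noncomm_ring
  rw [G_apply, ← f_comm, key, map_sub (TT.ev τ), LinearMap.sub_apply, map_sub TT.ev]
  simp only [LinearMap.sub_apply, Module.End.mul_apply, G_apply, low_eM, mul_add, sub_mul,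
    mul_assoc]
  abel

/-- The auxiliary representation of the enveloping algebra. -/
noncomputable def Phi : Um n →ₐ[ℂ] End ℂ (TT n) :=
  RingQuot.liftAlgHom ℂ ⟨FreeAlgebra.lift ℂ fun p : Low n => G (eM p.1.1 p.1.2), by
    rintro _ _ ⟨p, q⟩
    simp only [map_sub, map_mul, FreeAlgebra.lift_ι_apply, lowF, map_sum, map_smul]
    rw [G_comm]
    conv_lhs => rw [← sum_low _ (low_comm_low p q)]
    simp only [map_sum, map_smul]⟩

theorem Phi_f (p : Low n) : Phi (Um.f p) = G (eM p.1.1 p.1.2) := by
  simp [Phi, Um.f]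

/-- The character of the upper triangular matrices. -/
noncomputable def chi (a : Wt n) : Mat n →ₗ[ℂ] ℂ where
  toFun := fun A => ∑ j : Fin n, A j j * ((a j + (j : ℕ) : ℤ) : ℂ)
  map_add' := fun A B => by simp [add_mul, Finset.sum_add_distrib]
  map_smul' := fun c A => by simp [Finset.mul_sum, mul_assoc]

theorem chi_apply (a : Wt n) (A : Mat n) :
    chi a A = ∑ j : Fin n, A j j * ((a j + (j : ℕ) : ℤ) : ℂ) := rfl

theorem chi_zero (a : Wt n) {A : Mat n} (h : ∀ j, A j j = 0) : chi a A = 0 := by
  rw [chi_apply]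
  exact Finset.sum_eq_zero fun j _ => by rw [h j, zero_mul]

/-- The action on the generator. -/
noncomputable def tau (a : Wt n) : Mat n →ₗ[ℂ] Um n :=
  low + (LinearMap.toSpanSingleton ℂ (Um n) 1).comp (chi a)

theorem tau_apply (a : Wt n) (A : Mat n) : tau a A = low A + chi a A • 1 := rfl

/-- The action on the Verma module. -/
noncomputable def rho (a : Wt n) : Mat n →ₗ[ℂ] End ℂ (Um n) :=
  LinearMap.flip (TT.ev.toLinearMap.comp
    ((LinearMap.applyₗ (TT.ev.symm (tau a))).comp (Phi (n := n)).toLinearMap))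

theorem rho_apply (a : Wt n) (A : Mat n) (u : Um n) :
    rho a A u = TT.ev (Phi u (TT.ev.symm (tau a))) A := rfl

theorem rho_one (a : Wt n) (A : Mat n) : rho a A 1 = low A + chi a A • 1 := by
  rw [rho_apply, map_one]; rfl

theorem rho_f (a : Wt n) (A : Mat n) (p : Low n) (u : Um n) :
    rho a A (Um.f p * u) =
      Um.f p * rho a A u + rho a (A * eM p.1.1 p.1.2 - eM p.1.1 p.1.2 * A) u := by
  rw [rho_apply, map_mul, Module.End.mul_apply, Phi_f, G_apply, low_eM]; rfl

theorem rho_low (a : Wt n) (u : Um n) : ∀ B : Mat n, IsLow B → rho a B u = low B * u := by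
  induction u using Um.induction with
  | h1 =>
    intro B hB
    rw [rho_one, chi_zero a fun j => hB j j le_rfl]; simp
  | hf p u ih =>
    intro B hB
    rw [rho_f, ih B hB, ih _ (hB.br (isLow_eM p)), ← low_br_f hB, sub_mul, mul_assoc, mul_assoc]
    abel
  | hadd u v hu hv => intro B hB; rw [map_add, hu B hB, hv B hB, mul_add]
  | hsmul c u hu => intro B hB; rw [map_smul, hu B hB, mul_smul_comm]

theorem rho_low_mul (a : Wt n) (A : Mat n) (u : Um n) {B : Mat n} (hB : IsLow B) :
    rho a A (low B * u) = low B * rho a A u + rho a (A * B - B * A) u := by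
  refine IsLow.ind (P := fun B => rho a A (low B * u) =
    low B * rho a A u + rho a (A * B - B * A) u) (by simp) (fun p => ?_) (fun B B' hB hB' => ?_)
    (fun c B hB => ?_) hB
  · simp only [low_eM, rho_f]
  · rw [br_add]
    simp only [map_add, add_mul, hB, hB', LinearMap.add_apply]
    abel
  · rw [br_smul]
    simp only [map_smul, smul_mul_assoc, hB, LinearMap.smul_apply, smul_add]

theorem comm_low (a : Wt n) (A : Mat n) (u : Um n) {B : Mat n} (hB : IsLow B) :
    rho a A (rho a B u) - rho a B (rho a A u) = rho a (A * B - B * A) u := by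
  rw [rho_low a _ B hB, rho_low a _ B hB, rho_low_mul a A u hB]
  abel

theorem comm_up (a : Wt n) {A B : Mat n} (hA : IsUp A) (hB : IsUp B) :
    rho a A (rho a B 1) - rho a B (rho a A 1) = rho a (A * B - B * A) 1 := by
  have h1 : low (A * B - B * A) = 0 := by
    rw [map_sub, low_up (hA.mul hB), low_up (hB.mul hA), sub_zero]
  have h2 : chi a (A * B - B * A) = 0 := chi_zero a fun j => by
    rw [Matrix.sub_apply, hA.mul_diag hB, hB.mul_diag hA, mul_comm, sub_self]
  simp only [rho_one, low_up hA, low_up hB, zero_add, map_smul, h1, h2, smul_smul, zero_smul,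
    mul_comm (chi a A), sub_self]

theorem comm_one (a : Wt n) (A B : Mat n) :
    rho a A (rho a B 1) - rho a B (rho a A 1) = rho a (A * B - B * A) 1 := by
  obtain ⟨L, R, hL, hR, rfl⟩ := exists_split A
  obtain ⟨L', R', hL', hR', rfl⟩ := exists_split B
  have h1 := comm_low a (L + R) 1 hL'
  have h2 := comm_low a R' 1 hL
  have h3 := comm_up a hR hR'
  have e : (L + R) * (L' + R') - (L' + R') * (L + R) =
      ((L + R) * L' - L' * (L + R)) - (R' * L - L * R') + (R * R' - R' * R) := by noncomm_ring
  rw [e, map_add (rho a) _ (R * R' - R' * R), map_sub (rho a) _ (R' * L - L * R'),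
    LinearMap.add_apply _ (rho a (R * R' - R' * R)), LinearMap.sub_apply, ← h1, ← h2, ← h3]
  simp only [map_add, LinearMap.add_apply]
  abel

theorem comm_all (a : Wt n) (u : Um n) : ∀ A B : Mat n,
    rho a A (rho a B u) - rho a B (rho a A u) = rho a (A * B - B * A) u := by
  induction u using Um.induction with
  | h1 => exact comm_one a
  | hf p u ih =>
    intro A B
    set E : Mat n := eM p.1.1 p.1.2 with hE
    have h1 := ih A B
    have h2 := ih (A * E - E * A) B
    have h3 := ih A (B * E - E * B)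
    have e : (A * B - B * A) * E - E * (A * B - B * A) =
        ((A * E - E * A) * B - B * (A * E - E * A)) +
          (A * (B * E - E * B) - (B * E - E * B) * A) := by noncomm_ring
    rw [rho_f a (A * B - B * A), ← hE, e, map_add, LinearMap.add_apply, ← h1, ← h2, ← h3]
    simp only [rho_f, map_add, ← hE, mul_sub (Um.f p)]
    abel
  | hadd u v hu hv =>
    intro A B
    simp only [map_add, ← hu A B, ← hv A B]; abel
  | hsmul c u hu =>
    intro A B
    simp only [map_smul, ← hu A B, smul_sub]

/-- The Verma module. -/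
noncomputable abbrev verma (a : Wt n) : GMod n where
  V := Um n
  ρ := rho a
  comm := fun A B => LinearMap.ext fun u => comm_all a u A B

theorem verma_act (a : Wt n) (u : Um n) : (verma a).act u (1 : Um n) = u := by
  induction u using Um.induction with
  | h1 => simp
  | hf p u ih =>
    rw [map_mul, Module.End.mul_apply, ih, GMod.act_f]
    change rho a _ u = _
    rw [rho_low a u _ (isLow_eM p), low_eM]
  | hadd u v hu hv => rw [map_add, LinearMap.add_apply, hu, hv]
  | hsmul c u hu => rw [map_smul, LinearMap.smul_apply, hu]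

theorem isUp_eM {i j : Fin n} (h : i ≤ j) : IsUp (eM i j) := by
  intro s t hst
  have : ¬ (i = s ∧ j = t) := by
    rintro ⟨rfl, rfl⟩
    exact absurd hst (not_lt.mpr h)
  simp [this]

theorem verma_isVerma (a : Wt n) : (verma a).IsVerma a (1 : Um n) := by
  refine ⟨⟨(GMod.mem_W _ _ _).mpr fun j => ?_, fun i j hij => ?_⟩, ?_⟩
  · change rho a _ 1 = _
    rw [rho_one, low_up (isUp_eM le_rfl), zero_add, chi_apply, Finset.sum_eq_single j]
    · simp
    · intro t _ ht
      simp [ht.symm]
    · simp
  · change rho a _ 1 = _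
    rw [rho_one, low_up (isUp_eM hij.le), zero_add, chi_zero, zero_smul]
    intro t
    have : ¬ (i = t ∧ j = t) := by
      rintro ⟨rfl, rfl⟩
      exact lt_irrefl _ hij
    simp [this]
  · have : ((verma a).orb (1 : Um n) : Um n → Um n) = id := funext fun u => verma_act a u
    rw [this]
    exact Function.bijective_id

/-- The span of the monomials of a given weight. -/
noncomputable def Ug (β : Wt n) : Submodule ℂ (Um n) :=
  Submodule.span ℂ (Um.mon '' {l | lowWt l = β})

theorem eq_of_le_indep {V : Type} [AddCommGroup V] [Module ℂ V] {ι : Type}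
    {S W : ι → Submodule ℂ V} (hW : iSupIndep W) (hle : ∀ i, S i ≤ W i) (hS : ⨆ i, S i = ⊤)
    (i : ι) : S i = W i := by
  refine le_antisymm (hle i) ?_
  have h1 : S i ⊔ (⨆ (j : ι) (_ : j ≠ i), W j) = ⊤ := by
    rw [eq_top_iff, ← hS]
    refine iSup_le fun j => ?_
    by_cases hj : j = i
    · subst hj; exact le_sup_left
    · exact le_sup_of_le_right ((hle j).trans (le_iSup₂_of_le (f := fun j (_ : j ≠ i) => W j) j hj le_rfl))
  have h2 : (S i ⊔ (⨆ (j : ι) (_ : j ≠ i), W j)) ⊓ W i = S i ⊔ (⨆ (j : ι) (_ : j ≠ i), W j) ⊓ W i :=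
    sup_inf_assoc_of_le _ (hle i)
  rw [h1, top_inf_eq, (hW i).symm.eq_bot, sup_bot_eq] at h2
  exact h2.le

theorem W_eq_map {M : GMod n} {a : Wt n} {v : M.V} (h : M.IsVerma a v) (ξ : Wt n) :
    (Ug (ξ - a)).map (M.orb v) = M.W ξ := by
  refine eq_of_le_indep (S := fun ξ => (Ug (ξ - a)).map (M.orb v)) M.W_indep (fun b => ?_) ?_ ξ
  · rw [Ug, Submodule.map_span_le]
    rintro _ ⟨l, hl, rfl⟩
    have := GMod.mon_mem_W h.1.1 l
    rw [show lowWt l = b - a from hl, add_sub_cancel] at this
    exact this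
  · rw [eq_top_iff, ← LinearMap.range_eq_top.mpr h.2.2, ← Submodule.map_top, ← Um.span_mon,
      Submodule.map_span_le]
    rintro _ ⟨l, rfl⟩
    refine Submodule.mem_iSup_of_mem (a + lowWt l) (Submodule.mem_map_of_mem ?_)
    exact Submodule.subset_span ⟨l, by simp, rfl⟩

theorem finrank_W_eq {M : GMod n} {a : Wt n} {v : M.V} (h : M.IsVerma a v) (ξ : Wt n) :
    finrank ℂ (M.W ξ) = finrank ℂ (Ug (ξ - a)) := by
  rw [← W_eq_map h ξ]
  exact (Submodule.equivMapOfInjective _ h.2.1 _).finrank_eq.symm

theorem um_one_ne_zero : (1 : Um n) ≠ 0 := by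
  intro h
  have := congrArg Um.aug h
  simp at this

open MvPolynomial in
/-- The derivation of the polynomial ring attached to a matrix. -/
noncomputable def der : Mat n →ₗ[ℂ]
    Derivation ℂ (MvPolynomial (Fin n) ℂ) (MvPolynomial (Fin n) ℂ) where
  toFun := fun A => mkDerivation ℂ fun b => ∑ a, A a b • X a
  map_add' := fun A B => by
    refine derivation_ext fun b => ?_
    simp [mkDerivation_X, add_smul, Finset.sum_add_distrib]
  map_smul' := fun c A => by
    refine derivation_ext fun b => ?_
    simp [mkDerivation_X, Finset.smul_sum, smul_smul]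

open MvPolynomial in
theorem der_X (A : Mat n) (b : Fin n) :
    der A (X b) = ∑ a, A a b • (X a : MvPolynomial (Fin n) ℂ) := by
  simp [der, mkDerivation_X]

open MvPolynomial in
theorem der_comm (A B : Mat n) : ⁅der A, der B⁆ = der (A * B - B * A) := by
  refine derivation_ext fun b => ?_
  have key : ∀ A B : Mat n, der A (der B (X b)) = der (A * B) (X b) := by
    intro A B
    simp only [der_X, map_sum, Derivation.map_smul, Finset.smul_sum, smul_smul, Matrix.mul_apply,
      Finset.sum_smul]
    rw [Finset.sum_comm]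
    refine Finset.sum_congr rfl fun a _ => Finset.sum_congr rfl fun c _ => ?_
    rw [mul_comm]
  rw [Derivation.commutator_apply, key, key, map_sub, Derivation.sub_apply]

/-- The polynomial representation. -/
noncomputable abbrev polyMod (n : ℕ) : GMod n where
  V := MvPolynomial (Fin n) ℂ
  ρ :=
    { toFun := fun A => (der A).toLinearMap
      map_add' := fun A B => by rw [map_add]; rfl
      map_smul' := fun c A => by rw [map_smul]; rfl }
  comm := fun A B => by
    refine LinearMap.ext fun q => ?_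
    have := congrArg (fun D => D q) (der_comm A B)
    simp only [Derivation.commutator_apply] at this
    exact this

open MvPolynomial in
theorem der_eM (a b : Fin n) (q : MvPolynomial (Fin n) ℂ) :
    der (eM a b) q = X a * pderiv b q := by
  have : der (eM a b) = (X a : MvPolynomial (Fin n) ℂ) • pderiv b := by
    refine derivation_ext fun t => ?_
    rw [der_X, Derivation.smul_apply, Finset.sum_eq_single a]
    · by_cases h : b = t
      · subst h; simp
      · simp [h, pderiv_X_of_ne (Ne.symm h)]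
    · intro s _ hs
      simp [hs.symm]
    · simp
  rw [this]; rfl

open MvPolynomial in
theorem act_mon (N : ℕ) (s0 : Fin n →₀ ℕ) (h0 : ∀ t, N ≤ s0 t) (l : List (Low n))
    (hl : l.length ≤ N) : ∃ (s : Fin n →₀ ℕ) (c : ℂ), c ≠ 0 ∧ (∀ t, N ≤ s t + l.length) ∧
      (polyMod n).act (Um.mon l) (monomial s0 1) = monomial s c := by
  induction l with
  | nil => exact ⟨s0, 1, one_ne_zero, by simpa using h0, by simp [Um.mon]⟩
  | cons p l ih =>
    obtain ⟨s, c, hc, hs, he⟩ := ih (by simp at hl; omega)
    have hp : 1 ≤ s p.1.2 := by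
      have := hs p.1.2
      simp at hl; omega
    refine ⟨Finsupp.single p.1.1 1 + (s - Finsupp.single p.1.2 1), c * s p.1.2, ?_, ?_, ?_⟩
    · exact mul_ne_zero hc (Nat.cast_ne_zero.mpr (by omega))
    · intro t
      have := hs t
      simp only [Finsupp.add_apply, Finsupp.tsub_apply, Finsupp.single_apply, List.length_cons]
      split_ifs <;> omega
    · have : Um.mon (p :: l) = Um.f p * Um.mon l := by simp [Um.mon]
      rw [this, map_mul, Module.End.mul_apply, he, GMod.act_f]
      change der _ _ = _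
      rw [der_eM, pderiv_monomial, X, monomial_mul, one_mul]

theorem mon_append (l l' : List (Low n)) : Um.mon (l ++ l') = Um.mon l * Um.mon l' := by
  simp [Um.mon]

theorem mon_replicate (k : ℕ) (p : Low n) : Um.mon (List.replicate k p) = Um.f p ^ k := by
  simp [Um.mon]

theorem anti_of_adj {b : Wt n} (hb : Function.Injective b)
    (h : ∀ i j : Fin n, (j : ℕ) = i + 1 → b j ≤ b i) : StrictAnti b := by
  cases n with
  | zero => intro i; exact i.elim0
  | succ m =>
    rw [Fin.strictAnti_iff_succ_lt]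
    intro i
    refine lt_of_le_of_ne (h _ _ (by simp)) fun e => ?_
    exact (Fin.castSucc_lt_succ (i := i)).ne' (hb e)

theorem exists_mon_sing {M : GMod n} {a : Wt n} {v : M.V} (hv : M.Sing a v) (ha : StrictAnti a)
    {b : Wt n} (hb : cnt b = cnt a) : ∃ l, M.Sing b (M.act (Um.mon l) v) := by
  have : Finite {b : Wt n // cnt b = cnt a} := (finite_cnt (cnt a)).to_subtype
  have wf : WellFounded fun x y : {b : Wt n // cnt b = cnt a} => toLex y.1 < toLex x.1 := by
    have : IsTrans {b : Wt n // cnt b = cnt a} fun x y => toLex y.1 < toLex x.1 :=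
      ⟨fun _ _ _ h1 h2 => h2.trans h1⟩
    have : Std.Irrefl fun x y : {b : Wt n // cnt b = cnt a} => toLex y.1 < toLex x.1 :=
      ⟨fun _ => lt_irrefl _⟩
    exact Finite.wellFounded_of_trans_of_irrefl _
  suffices H : ∀ x : {b : Wt n // cnt b = cnt a}, ∃ l, M.Sing x.1 (M.act (Um.mon l) v) from
    H ⟨b, hb⟩
  intro x
  induction x using wf.induction with
  | _ x ih =>
    obtain ⟨b, hb⟩ := x
    by_cases hex : ∃ i j : Fin n, (j : ℕ) = i + 1 ∧ b i < b j
    · obtain ⟨i, j, hij, hlt⟩ := hex
      have hij' : i < j := by rw [Fin.lt_def]; omega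
      have hc : cnt (fun t => b (Equiv.swap i j t)) = cnt a :=
        ((cnt_eq_iff b _).mpr ⟨Equiv.swap i j, rfl⟩).symm.trans hb
      obtain ⟨l, hl⟩ := ih ⟨_, hc⟩ ⟨i, fun t ht => by
        simp [Equiv.swap_apply_of_ne_of_ne ht.ne (ht.trans hij').ne], by simpa using hlt⟩
      have hk : (fun t => b (Equiv.swap i j t)) i - (fun t => b (Equiv.swap i j t)) j =
          ((b j - b i).toNat : ℕ) := by
        simp only [Equiv.swap_apply_left, Equiv.swap_apply_right]
        omega
      have := GMod.Sing.pow hl hij hk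
      simp only [Equiv.swap_apply_self] at this
      refine ⟨List.replicate (b j - b i).toNat ⟨(j, i), hij'⟩ ++ l, ?_⟩
      rw [mon_append, mon_replicate, map_mul, map_pow, GMod.act_f]
      exact this
    · obtain ⟨σ, hσ⟩ := (cnt_eq_iff a b).mp hb.symm
      have hinj : Function.Injective b := by
        rw [hσ]; exact ha.injective.comp σ.injective
      have hanti : StrictAnti b := anti_of_adj hinj fun i j hij =>
        not_lt.mp fun hlt => hex ⟨i, j, hij, hlt⟩
      have : b = a := toLex.injective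
        (le_antisymm (lex_max_of_anti ha hb) (lex_max_of_anti hanti hb.symm))
      subst this
      exact ⟨[], by simpa [Um.mon] using hv⟩

end GV

theorem exists_verma (a : Wt n) : ∃ (M : GMod n) (v : M.V), M.IsVerma a v :=
  ⟨GV.verma a, (1 : Um n), GV.verma_isVerma a⟩

theorem GMod.IsVerma.ne_zero {M : GMod n} {a : Wt n} {v : M.V} (h : M.IsVerma a v) : v ≠ 0 := by
  intro h0
  refine GV.um_one_ne_zero (n := n) (h.2.1 ?_)
  rw [map_zero, GMod.orb_apply, h0, map_zero]

theorem GMod.IsVerma.lift {M N : GMod n} {a : Wt n} {v : M.V} (h : M.IsVerma a v) {y : N.V}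
    (hy : N.Sing a y) :
    ∃ f : M.V →ₗ[ℂ] N.V, M.IsHom N f ∧ f v = y ∧ ∀ u, f (M.act u v) = N.act u y := by
  let e : Um n ≃ₗ[ℂ] M.V := LinearEquiv.ofBijective (M.orb v) h.2
  have key : ∀ u, ((N.orb y).comp e.symm.toLinearMap) (M.act u v) = N.act u y := by
    intro u
    have : M.act u v = e u := rfl
    rw [this, LinearMap.comp_apply, LinearEquiv.coe_coe, e.symm_apply_apply, GMod.orb_apply]
  have hs : (M.prod N).Sing a ((v, y) : M.V × N.V) := by
    refine ⟨(GMod.mem_W _ _ _).mpr fun j => Prod.ext ?_ ?_, fun i j hij => Prod.ext ?_ ?_⟩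
    · exact (GMod.mem_W _ _ _).mp h.1.1 j
    · exact (GMod.mem_W _ _ _).mp hy.1 j
    · exact h.1.2 i j hij
    · exact hy.2 i j hij
  have h1 : (M.prod N).IsHom M (LinearMap.fst ℂ M.V N.V) := fun _ _ => rfl
  have h2 : (M.prod N).IsHom N (LinearMap.snd ℂ M.V N.V) := fun _ _ => rfl
  refine ⟨(N.orb y).comp e.symm.toLinearMap, fun A m => ?_, ?_, key⟩
  · obtain ⟨u, rfl⟩ := h.2.2 m
    obtain ⟨u', hu'⟩ := hs.stable_orb A _ ⟨u, rfl⟩
    have e1 := congrArg (LinearMap.fst ℂ M.V N.V) hu'
    have e2 := congrArg (LinearMap.snd ℂ M.V N.V) hu'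
    rw [GMod.orb_apply, GMod.orb_apply, h1, h1.act, h1.act] at e1
    rw [GMod.orb_apply, GMod.orb_apply, h2, h2.act, h2.act] at e2
    simp only [LinearMap.fst_apply, LinearMap.snd_apply] at e1 e2
    rw [GMod.orb_apply, ← e1, key, key, e2]
  · have := key 1
    simpa using this

/-- The partition function. -/
noncomputable def Pf (n : ℕ) (β : Wt n) : ℕ :=
  finrank ℂ ((exists_verma (0 : Wt n)).choose.W (-β))

theorem GV.Pf_eq (β : Wt n) : Pf n β = finrank ℂ (GV.Ug (-β)) := by
  obtain ⟨v, hv⟩ := (exists_verma (0 : Wt n)).choose_spec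
  rw [Pf, GV.finrank_W_eq hv, sub_zero]

theorem GMod.IsVerma.finrank_W {M : GMod n} {a : Wt n} {v : M.V} (h : M.IsVerma a v) (ξ : Wt n) :
    finrank ℂ (M.W ξ) = Pf n (a - ξ) := by
  rw [GV.Pf_eq, GV.finrank_W_eq h, neg_sub]

theorem Pf_zero : Pf n 0 = 1 := by
  have : GV.Ug (-(0 : Wt n)) = Submodule.span ℂ {(1 : Um n)} := by
    rw [GV.Ug]
    congr 1
    ext u
    constructor
    · rintro ⟨l, hl, rfl⟩
      have : l = [] := by
        by_contra hne
        have := lex_lowWt hne
        rw [show lowWt l = -0 from hl, neg_zero] at this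
        exact lt_irrefl _ this
      subst this
      simp [Um.mon]
    · rintro rfl
      exact ⟨[], by simp [lowWt], by simp [Um.mon]⟩
  rw [GV.Pf_eq, this, finrank_span_singleton GV.um_one_ne_zero]

theorem Pf_ne_zero {β : Wt n} (h : Pf n β ≠ 0) : toLex (0 : Wt n) ≤ toLex β := by
  by_contra hlt
  apply h
  have : GV.Ug (-β) = ⊥ := by
    rw [GV.Ug, Submodule.span_eq_bot]
    rintro _ ⟨l, hl, rfl⟩
    exfalso
    have hl' : lowWt l = -β := hl
    apply hlt
    by_cases hne : l = []
    · subst hne
      have : β = 0 := by simpa [lowWt] using hl'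
      rw [this]
    · have h1 := (lex_add_right β).mpr (lex_lowWt hne)
      rw [hl', neg_add_cancel, zero_add] at h1
      exact h1.le
  rw [GV.Pf_eq, this, finrank_bot]

/-- Products of powers of simple lowering operators do not vanish in the enveloping algebra. -/
theorem Um.mon_simple_ne_zero (l : List (Low n)) : Um.mon l ≠ 0 := by
  intro h0
  obtain ⟨s, c, hc, -, he⟩ := GV.act_mon l.length
    (Finsupp.equivFunOnFinite.symm fun _ => l.length) (fun t => le_rfl) l le_rfl
  rw [h0, map_zero, LinearMap.zero_apply] at he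
  exact hc (MvPolynomial.monomial_eq_zero.mp he.symm)

/-- Every simple module of the block of a dominant weight is a subquotient of its Verma module. -/
theorem GMod.IsVerma.exists_sing {M : GMod n} {a : Wt n} {v : M.V} (h : M.IsVerma a v)
    (ha : StrictAnti a) {b : Wt n} (hb : cnt b = cnt a) : ∃ w, w ≠ 0 ∧ M.Sing b w := by
  obtain ⟨l, hl⟩ := GV.exists_mon_sing h.1 ha hb
  refine ⟨_, fun h0 => Um.mon_simple_ne_zero l (h.2.1 ?_), hl⟩
  rw [map_zero, GMod.orb_apply, h0]

end Pool.Agent.KM
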