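import Pool.Agent.Lib.MP_515a76_al.Br2
import Pool.Agent.Lib.MP_515a76_al.GVerma

/-! Verma modules, simple modules, projective covers and decompositions over sl_n. -/

namespace Pool.Agent.KM

open Module GMod LieAlgebra.SpecialLinear

attribute [local instance 100] LieRing.ofAssociativeRing

variable {n : ℕ} {c : ℤ}

theorem br4_hom_ext {M N : SlMod n} {f g : SlMod.Hom M N} (h : f.toLinearMap = g.toLinearMap) :
    f = g :=
  LieModuleHom.ext fun v => LinearMap.congr_fun h v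

theorem br4_bij {X : Type} [AddCommGroup X] [Module ℂ X] {φ : End ℂ X} {a : ℂ} {k : ℕ}
    (ha : a ≠ 0) (h : (φ - a • (1 : End ℂ X)) ^ k = 0) : IsUnit φ := by
  have h1 : IsUnit (a • (1 : End ℂ X)) := by
    rw [← Algebra.algebraMap_eq_smul_one]
    exact ha.isUnit.map _
  have h2 := IsNilpotent.isUnit_add_left_of_commute ⟨k, h⟩ h1
    ((Commute.one_right _).smul_right a)
  rwa [add_sub_cancel] at h2

theorem isVerma0_of {D : SlMod n} {v : D.V} (h : (toGl c D).IsVerma (rhoC n c) v) :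
    D.IsVerma0 := by
  refine ⟨v, (isSing_zero_iff D v).2 h.1, fun M m hm => ?_⟩
  obtain ⟨f, hf, hv, -⟩ := h.lift (N := toGl c M) ((isSing_zero_iff M m).1 hm)
  obtain ⟨g, rfl⟩ := exists_slHom hf
  refine ⟨g, hv, fun g' hg' => br4_hom_ext ?_⟩
  exact hom_ext_orb h.2.2 (isHom_toGl g') hf (hg'.trans hv.symm)

theorem isSimpleHW_of {L : SlMod n} (h : (toGl c L).Simple)
    (hB : (toGl c L).Blk (cnt (rhoC n c))) : ∃ w, L.IsSimpleHW (SlMod.dot w) := by
  have := h.1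
  obtain ⟨b, v, h0, hv, hb⟩ := hB.exists_sing
  obtain ⟨σ, rfl⟩ := (cnt_eq_iff (rhoC n c) b).1 (Set.mem_singleton_iff.1 hb).symm
  exact ⟨σ.symm, (simple_toGl_iff L).1 h, v, h0, (isSing_dot_iff L σ.symm v).2 hv⟩

theorem cover_of {P : SlMod n} (hB : (toGl c P).Blk (cnt (rhoC n c))) [Nontrivial P.V]
    (hp : GProj (toGl c P) (cnt (rhoC n c))) (hl : GLocal (toGl c P)) :
    ∃ (x : Equiv.Perm (Fin n)) (Lx : SlMod n), Lx.IsSimpleHW (SlMod.dot x) ∧ P.IsProjCover Lx := by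
  obtain ⟨K, hK, hs⟩ := hB.exists_simple_quot
  obtain ⟨K', rfl⟩ := exists_slSub hK
  let π : SlMod.Hom P (P.quot K') := LieSubmodule.Quotient.mk' K'
  have hπ : Function.Surjective π := LieSubmodule.Quotient.surjective_mk' K'
  have hπ0 : ∀ v, π v = 0 ↔ v ∈ K' := fun v => LieSubmodule.Quotient.mk_eq_zero (N := K')
  have hπh : (toGl c P).IsHom (toGl c (P.quot K')) π.toLinearMap := isHom_toGl π
  have hle : K'.toSubmodule ≤ LinearMap.ker π.toLinearMap := fun v hv => (hπ0 v).2 hv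
  have hiso : ((toGl c P).quot K'.toSubmodule hK).Iso (toGl c (P.quot K')) := by
    refine iso_of_bijective (hπh.liftQ _ hK hle) ⟨?_, ?_⟩
    · rw [← LinearMap.ker_eq_bot]
      exact Submodule.ker_liftQ_eq_bot _ _ _ fun v hv => (hπ0 v).1 hv
    · intro y
      obtain ⟨v, rfl⟩ := hπ y
      exact ⟨Submodule.Quotient.mk v, rfl⟩
  have hLs := hs.iso hiso
  have hLB : (toGl c (P.quot K')).Blk (cnt (rhoC n c)) := Adm.of_surj hπh hπ hB
  obtain ⟨x, hx⟩ := isSimpleHW_of hLs hLB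
  refine ⟨x, P.quot K', hx, ⟨inO0_of_blk hB, fun M N hM hN f hf g => ?_⟩, π, hπ, fun N hN => ?_⟩
  · obtain ⟨h, hh, he⟩ := hp (toGl c M) (toGl c N) (blk_toGl hM c) (blk_toGl hN c) f.toLinearMap
      (isHom_toGl f) hf g.toLinearMap (isHom_toGl g)
    obtain ⟨h', rfl⟩ := exists_slHom hh
    exact ⟨h', br4_hom_ext he⟩
  · have hS : (toGl c P).Stable N.toSubmodule := stable_toGl N
    have hsurj : Function.Surjective (π.toLinearMap.comp N.toSubmodule.subtype) := by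
      intro y
      obtain ⟨v, rfl⟩ := hπ y
      have hv : v ∈ N ⊔ π.ker := by rw [hN]; exact LieSubmodule.mem_top v
      obtain ⟨a, ha, b, hb, rfl⟩ := (LieSubmodule.mem_sup _ _ _).1 hv
      refine ⟨⟨a, ha⟩, ?_⟩
      rw [map_add, LieModuleHom.mem_ker.1 hb, add_zero]
      rfl
    obtain ⟨h, hh, he⟩ := hp _ _ (hB.sub _ hS) hLB _ (hπh.comp (isHom_subtype _ _ hS)) hsurj
      π.toLinearMap hπh
    obtain ⟨a, k, hk⟩ := hl (N.toSubmodule.subtype.comp h) ((isHom_subtype _ _ hS).comp hh)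
    have ha : a ≠ 0 := by
      rintro rfl
      rw [zero_smul, sub_zero] at hk
      have h1 : ∀ (j : ℕ) (v : P.V),
          π (((N.toSubmodule.subtype.comp h : End ℂ P.V) ^ j) v) = π v := by
        intro j
        induction j with
        | zero => intro v; rfl
        | succ j ih =>
          intro v
          rw [pow_succ', Module.End.mul_apply, ← ih v]
          exact LinearMap.congr_fun he _
      have := hLs.1
      obtain ⟨y, hy⟩ := exists_ne (0 : (P.quot K').V)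
      obtain ⟨v, rfl⟩ := hπ y
      refine hy ?_
      rw [← h1 k v, hk, LinearMap.zero_apply, map_zero]
    have h2 := ((Module.End.isUnit_iff _).1 (br4_bij ha hk)).2
    rw [eq_top_iff]
    intro v _
    obtain ⟨u, rfl⟩ := h2 v
    exact (h u).2

theorem idem_of_local {P : SlMod n} (hl : GLocal (toGl c P)) (q : SlMod.Hom P P)
    (hq : q.comp q = q) : q = 0 ∨ q = LieModuleHom.id := by
  obtain ⟨a, k, hk⟩ := hl q.toLinearMap (isHom_toGl q)
  have hi : IsIdempotentElem (q.toLinearMap : End ℂ P.V) :=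
    congrArg LieModuleHom.toLinearMap hq
  by_cases ha : a = 0
  · subst ha
    rw [zero_smul, sub_zero] at hk
    refine Or.inl (br4_hom_ext ?_)
    have h1 := hi.pow_succ_eq k
    rw [pow_succ, hk, zero_mul] at h1
    exact h1.symm
  · exact Or.inr (br4_hom_ext ((IsIdempotentElem.iff_eq_one_of_isUnit (br4_bij ha hk)).1 hi))

theorem GProj.iso {X Y : GMod n} {B : ℤ → ℤ} (h : GProj X B) (e : X.Iso Y) : GProj Y B := by
  obtain ⟨e, he⟩ := e
  intro M N hM hN f hf hs g hg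
  obtain ⟨u, hu, hfu⟩ := h M N hM hN f hf hs (g.comp e.toLinearMap) (hg.comp he)
  refine ⟨u.comp e.symm.toLinearMap, hu.comp he.symm, LinearMap.ext fun y => ?_⟩
  have := LinearMap.congr_fun hfu (e.symm y)
  simpa using this

theorem GLocal.iso {X Y : GMod n} (h : GLocal X) (e : X.Iso Y) : GLocal Y := by
  obtain ⟨e, he⟩ := e
  intro φ hφ
  obtain ⟨a, k, hk⟩ := h (e.symm.toLinearMap.comp (φ.comp e.toLinearMap))
    (he.symm.comp (hφ.comp he))
  refine ⟨a, k, ?_⟩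
  have h1 := congrArg (e.conjAlgEquiv ℂ) hk
  rw [map_pow, map_sub, map_smul, map_one, map_zero] at h1
  rw [← h1]
  congr 2
  ext y
  simp

theorem decomp_of {P : SlMod n} {X : GMod n} (N : Submodule ℂ X.V) (hN : X.Stable N)
    (e : (toGl c P).Iso (X.sub N hN)) {N₁ N₂ : Submodule ℂ X.V} (h₁ : X.Stable N₁)
    (h₂ : X.Stable N₂) (n₁ : N₁ ≠ ⊥) (n₂ : N₂ ≠ ⊥) (hd : Disjoint N₁ N₂) (hs : N₁ ⊔ N₂ = N) :
    ∃ K₁ K₂ : P.Sub, K₁ ≠ ⊥ ∧ K₂ ≠ ⊥ ∧ IsCompl K₁ K₂ := by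
  obtain ⟨e, he⟩ := e
  have hf : (toGl c P).IsHom X (N.subtype.comp e.toLinearMap) := (isHom_subtype _ _ hN).comp he
  set f := N.subtype.comp e.toLinearMap with hfdef
  have hinj : Function.Injective f := N.subtype_injective.comp e.injective
  have hsur : ∀ y ∈ N, ∃ v, f v = y := fun y hy => ⟨e.symm ⟨y, hy⟩, by simp [hfdef]⟩
  obtain ⟨K₁, hK₁⟩ := exists_slSub (hf.stable_comap h₁)
  obtain ⟨K₂, hK₂⟩ := exists_slSub (hf.stable_comap h₂)
  have m₁ : ∀ v, v ∈ K₁ ↔ f v ∈ N₁ := fun v => by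
    rw [← LieSubmodule.mem_toSubmodule, hK₁, Submodule.mem_comap]
  have m₂ : ∀ v, v ∈ K₂ ↔ f v ∈ N₂ := fun v => by
    rw [← LieSubmodule.mem_toSubmodule, hK₂, Submodule.mem_comap]
  have ne : ∀ (K : P.Sub) (S : Submodule ℂ X.V), (∀ v, v ∈ K ↔ f v ∈ S) → S ≠ ⊥ → S ≤ N →
      K ≠ ⊥ := by
    intro K S hm hS hle hK
    obtain ⟨y, hy, hy0⟩ := Submodule.exists_mem_ne_zero_of_ne_bot hS
    obtain ⟨v, rfl⟩ := hsur y (hle hy)
    have := (hm v).2 hy
    rw [hK, LieSubmodule.mem_bot] at this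
    exact hy0 (by rw [this, map_zero])
  refine ⟨K₁, K₂, ne K₁ N₁ m₁ n₁ (hs ▸ le_sup_left), ne K₂ N₂ m₂ n₂ (hs ▸ le_sup_right), ?_, ?_⟩
  · rw [disjoint_iff, eq_bot_iff]
    intro v hv
    rw [LieSubmodule.mem_inf] at hv
    rw [LieSubmodule.mem_bot]
    refine hinj ?_
    rw [map_zero]
    exact Submodule.disjoint_def.1 hd _ ((m₁ v).1 hv.1) ((m₂ v).1 hv.2)
  · rw [codisjoint_iff, eq_top_iff]
    intro v _
    have hv : f v ∈ N₁ ⊔ N₂ := by rw [hs]; exact (e v).2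
    obtain ⟨a, ha, b, hb, hab⟩ := Submodule.mem_sup.1 hv
    obtain ⟨a', rfl⟩ := hsur a (hs ▸ Submodule.mem_sup_left ha)
    obtain ⟨b', rfl⟩ := hsur b (hs ▸ Submodule.mem_sup_right hb)
    exact (LieSubmodule.mem_sup _ _ _).2
      ⟨a', (m₁ _).2 ha, b', (m₂ _).2 hb, hinj (by rw [map_add, hab])⟩

end Pool.Agent.KM
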