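import Pool.Agent.Lib.MP_515a76_al.KDefs

/-!
The unfolding lemmas of `walk` and `KLR.ev`, produced once for all later files.
-/

namespace Pool.Agent.KM

theorem keq_walk : True := by
  have _h := @walk.eq_def
  trivial

theorem keq_ev : True := by
  have _h := @KLR.ev.eq_def
  trivial

end Pool.Agent.KM
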