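import Pool.Agent.Lib.MP_515a76_al.KDefs
import Pool.Agent.Lib.MP_515a76_al.KEq

/-!
Modules over gl_n(C): weights, blocks, Verma modules, tensoring with finite dimensional
coefficient representations, translation functors.
-/

namespace Pool.Agent.KM

open Module

/-- Matrices. -/
abbrev Mat (n : ℕ) : Type := Matrix (Fin n) (Fin n) ℂ

/-- Integral shifted weights. -/
abbrev Wt (n : ℕ) : Type := Fin n → ℤ

/-- The matrix unit. -/
abbrev eM {n : ℕ} (a b : Fin n) : Mat n := Matrix.single a b 1

/-- The number of entries of `a` equal to `c`. -/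
def cnt {n : ℕ} (a : Wt n) : ℤ → ℤ := fun c => ((Finset.univ.filter fun j => a j = c).card : ℤ)

/-- The height of a weight. -/
def ht {n : ℕ} (a : Wt n) : ℤ := ∑ j : Fin n, ((n : ℤ) - (j : ℕ)) * a j

/-- The basis weight. -/
abbrev eps {n : ℕ} (j : Fin n) : Wt n := Pi.single j 1

/-- A module over gl_n. -/
structure GMod (n : ℕ) : Type 1 where
  V : Type
  [acg : AddCommGroup V]
  [mod : Module ℂ V]
  ρ : Mat n →ₗ[ℂ] End ℂ V
  comm : ∀ A B, ρ A * ρ B - ρ B * ρ A = ρ (A * B - B * A)

attribute [instance] GMod.acg GMod.mod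

namespace GMod

variable {n : ℕ}

/-- The action of a matrix unit. -/
abbrev E (M : GMod n) (a b : Fin n) : End ℂ M.V := M.ρ (eM a b)

/-- Homomorphisms. -/
def IsHom (M N : GMod n) (f : M.V →ₗ[ℂ] N.V) : Prop := ∀ A v, f (M.ρ A v) = N.ρ A (f v)

/-- Submodules. -/
def Stable (M : GMod n) (S : Submodule ℂ M.V) : Prop := ∀ A, ∀ v ∈ S, M.ρ A v ∈ S

/-- The action on a submodule. -/
def subρ (M : GMod n) (S : Submodule ℂ M.V) (h : M.Stable S) : Mat n →ₗ[ℂ] End ℂ S where
  toFun := fun A => (M.ρ A).restrict (h A)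
  map_add' := fun A B => by ext v; simp [LinearMap.restrict_apply]
  map_smul' := fun c A => by ext v; simp [LinearMap.restrict_apply]

@[simp] theorem subρ_coe (M : GMod n) (S : Submodule ℂ M.V) (h : M.Stable S) (A : Mat n) (v : S) :
    (M.subρ S h A v : M.V) = M.ρ A v := rfl

/-- A submodule as a module. -/
abbrev sub (M : GMod n) (S : Submodule ℂ M.V) (h : M.Stable S) : GMod n where
  V := S
  ρ := M.subρ S h
  comm := fun A B => by
    ext v
    exact congrArg (fun T : End ℂ M.V => T v) (M.comm A B)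

/-- The action on a quotient. -/
def quotρ (M : GMod n) (S : Submodule ℂ M.V) (h : M.Stable S) :
    Mat n →ₗ[ℂ] End ℂ (M.V ⧸ S) where
  toFun := fun A => S.mapQ S (M.ρ A) (h A)
  map_add' := fun A B => by ext v; simp
  map_smul' := fun c A => by ext v; simp

theorem quotρ_mk (M : GMod n) (S : Submodule ℂ M.V) (h : M.Stable S) (A : Mat n) (v : M.V) :
    M.quotρ S h A (S.mkQ v) = S.mkQ (M.ρ A v) := rfl

/-- The quotient module. -/
abbrev quot (M : GMod n) (S : Submodule ℂ M.V) (h : M.Stable S) : GMod n where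
  V := M.V ⧸ S
  ρ := M.quotρ S h
  comm := fun A B => by
    ext v
    exact congrArg (fun T : End ℂ M.V => S.mkQ (T v)) (M.comm A B)

/-- The action on a direct sum. -/
def prodρ (M N : GMod n) : Mat n →ₗ[ℂ] End ℂ (M.V × N.V) where
  toFun := fun A => (M.ρ A).prodMap (N.ρ A)
  map_add' := fun A B => by ext v <;> simp
  map_smul' := fun c A => by ext v <;> simp

@[simp] theorem prodρ_apply (M N : GMod n) (A : Mat n) (v : M.V × N.V) :
    M.prodρ N A v = (M.ρ A v.1, N.ρ A v.2) := rfl

/-- The direct sum of two modules. -/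
abbrev prod (M N : GMod n) : GMod n where
  V := M.V × N.V
  ρ := M.prodρ N
  comm := fun A B => by
    refine LinearMap.ext fun v => Prod.ext ?_ ?_
    · exact congrArg (fun T : End ℂ M.V => T v.1) (M.comm A B)
    · exact congrArg (fun T : End ℂ N.V => T v.2) (N.comm A B)

/-- Isomorphic modules. -/
def Iso (M N : GMod n) : Prop := ∃ e : M.V ≃ₗ[ℂ] N.V, M.IsHom N e.toLinearMap

/-- The weight space of shifted weight `a`: `E j j` acts by `a j + j`. -/
def W (M : GMod n) (a : Wt n) : Submodule ℂ M.V :=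
  ⨅ j : Fin n, (M.E j j).eigenspace ((a j + (j : ℕ) : ℤ) : ℂ)

theorem mem_W (M : GMod n) (a : Wt n) (v : M.V) :
    v ∈ M.W a ↔ ∀ j, M.E j j v = ((a j + (j : ℕ) : ℤ) : ℂ) • v := by
  simp [W, Submodule.mem_iInf]

/-- A singular vector (possibly zero) of weight `a`. -/
def Sing (M : GMod n) (a : Wt n) (v : M.V) : Prop :=
  v ∈ M.W a ∧ ∀ i j : Fin n, i < j → M.E i j v = 0

/-- `a` is the weight of a nonzero singular vector in a quotient of `M`. -/
def Prim (M : GMod n) (a : Wt n) : Prop :=
  ∃ K, M.Stable K ∧ ∃ v ∈ M.W a, v ∉ K ∧ ∀ i j : Fin n, i < j → M.E i j v ∈ K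

/-- Admissible modules whose primitive weights lie in the blocks `𝔅`. -/
structure Adm (M : GMod n) (𝔅 : Set (ℤ → ℤ)) : Prop where
  finB : 𝔅.Finite
  wt : ⨆ a, M.W a = ⊤
  fin : ∀ a, FiniteDimensional ℂ (M.W a)
  bdd : ∃ h : ℤ, ∀ a, M.W a ≠ ⊥ → ht a ≤ h
  prim : ∀ a, M.Prim a → cnt a ∈ 𝔅

/-- Admissible modules in one block. -/
abbrev Blk (M : GMod n) (B : ℤ → ℤ) : Prop := M.Adm {B}

/-- Simple modules. -/
def Simple (M : GMod n) : Prop := Nontrivial M.V ∧ ∀ S, M.Stable S → S = ⊥ ∨ S = ⊤

/-- `E a b` is locally nilpotent. -/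
def LN (M : GMod n) (a b : Fin n) : Prop := ∀ v, ∃ N : ℕ, (M.E a b ^ N) v = 0

end GMod

/-! ### The enveloping algebra of the lower triangular matrices -/

/-- Positions below the diagonal. -/
abbrev Low (n : ℕ) : Type := {p : Fin n × Fin n // p.2 < p.1}

/-- The strictly lower triangular part of a matrix in the free algebra. -/
noncomputable def lowF {n : ℕ} (A : Mat n) : FreeAlgebra ℂ (Low n) :=
  ∑ p : Low n, A p.1.1 p.1.2 • FreeAlgebra.ι ℂ p

/-- The commutation relations. -/
inductive UmRel (n : ℕ) : FreeAlgebra ℂ (Low n) → FreeAlgebra ℂ (Low n) → Prop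
  | comm (p q : Low n) : UmRel n
      (FreeAlgebra.ι ℂ p * FreeAlgebra.ι ℂ q - FreeAlgebra.ι ℂ q * FreeAlgebra.ι ℂ p)
      (lowF (eM p.1.1 p.1.2 * eM q.1.1 q.1.2 - eM q.1.1 q.1.2 * eM p.1.1 p.1.2))

/-- The enveloping algebra of the strictly lower triangular matrices. -/
abbrev Um (n : ℕ) : Type := RingQuot (UmRel n)

/-- The generators. -/
noncomputable def Um.f {n : ℕ} (p : Low n) : Um n :=
  RingQuot.mkAlgHom ℂ (UmRel n) (FreeAlgebra.ι ℂ p)

theorem sum_low {n : ℕ} (A : Mat n) (hA : ∀ a b, a ≤ b → A a b = 0) :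
    ∑ p : Low n, A p.1.1 p.1.2 • eM p.1.1 p.1.2 = A := by
  ext a b
  simp only [Matrix.sum_apply, Matrix.smul_apply, smul_eq_mul]
  by_cases h : b < a
  · rw [Finset.sum_eq_single (⟨(a, b), h⟩ : Low n)]
    · simp
    · intro p _ hp
      have : ¬ (p.1.1 = a ∧ p.1.2 = b) := fun hh => hp (Subtype.ext (Prod.ext hh.1 hh.2))
      simp [this]
    · simp
  · rw [hA a b (not_lt.mp h)]
    refine Finset.sum_eq_zero fun p _ => ?_
    have : ¬ (p.1.1 = a ∧ p.1.2 = b) := fun hh => h (hh.1 ▸ hh.2 ▸ p.2)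
    simp [this]

theorem low_comm_low {n : ℕ} (p q : Low n) (a b : Fin n) (hab : a ≤ b) :
    (eM p.1.1 p.1.2 * eM q.1.1 q.1.2 - eM q.1.1 q.1.2 * eM p.1.1 p.1.2 : Mat n) a b = 0 := by
  have key : ∀ p q : Low n, (eM p.1.1 p.1.2 * eM q.1.1 q.1.2 : Mat n) a b = 0 := by
    intro p q
    by_cases h : p.1.2 = q.1.1
    · rw [h, Matrix.single_mul_single_same]
      have h1 := p.2
      have h2 := q.2
      have : ¬ (p.1.1 = a ∧ q.1.2 = b) := by
        rintro ⟨rfl, rfl⟩
        rw [h] at h1
        exact absurd (h2.trans h1) (not_lt.mpr hab)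
      simp [Matrix.single, this]
    · rw [Matrix.single_mul_single_of_ne _ _ _ _ h]; rfl
  simp [key]

/-- The action of the enveloping algebra on a module. -/
noncomputable def GMod.act {n : ℕ} (M : GMod n) : Um n →ₐ[ℂ] End ℂ M.V :=
  RingQuot.liftAlgHom ℂ ⟨FreeAlgebra.lift ℂ fun p : Low n => M.E p.1.1 p.1.2, by
    rintro _ _ ⟨p, q⟩
    simp only [map_sub, map_mul, FreeAlgebra.lift_ι_apply, lowF, map_sum, map_smul]
    rw [M.comm]
    conv_lhs => rw [← sum_low _ (low_comm_low p q)]
    simp only [map_sum, map_smul]⟩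

theorem GMod.act_f {n : ℕ} (M : GMod n) (p : Low n) : M.act (Um.f p) = M.E p.1.1 p.1.2 := by
  simp [GMod.act, Um.f]

/-- The augmentation. -/
noncomputable def Um.aug {n : ℕ} : Um n →ₐ[ℂ] ℂ :=
  RingQuot.liftAlgHom ℂ ⟨FreeAlgebra.lift ℂ fun _ : Low n => (0 : ℂ), by
    rintro _ _ ⟨p, q⟩
    simp [lowF]⟩

theorem Um.aug_f {n : ℕ} (p : Low n) : Um.aug (Um.f p) = 0 := by
  simp [Um.aug, Um.f]

/-- The orbit map. -/
noncomputable def GMod.orb {n : ℕ} (M : GMod n) (v : M.V) : Um n →ₗ[ℂ] M.V :=
  (LinearMap.applyₗ v).comp M.act.toLinearMap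

theorem GMod.orb_apply {n : ℕ} (M : GMod n) (v : M.V) (u : Um n) : M.orb v u = M.act u v := rfl

/-- `M` is the Verma module of highest weight `a` with generator `v`. -/
def GMod.IsVerma {n : ℕ} (M : GMod n) (a : Wt n) (v : M.V) : Prop :=
  M.Sing a v ∧ Function.Bijective (M.orb v)

/-! ### Coefficient representations -/

/-- A finite dimensional representation with a basis of weight vectors. -/
structure Coef (n : ℕ) (ι : Type) [Fintype ι] [DecidableEq ι] where
  C : Mat n →ₗ[ℂ] Matrix ι ι ℂ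
  comm : ∀ A B, C A * C B - C B * C A = C (A * B - B * A)
  wt : ι → Wt n
  diag : ∀ j, C (eM j j) = Matrix.diagonal fun i => ((wt i j : ℤ) : ℂ)

section Ten

variable {n : ℕ} {ι : Type} [Fintype ι] [DecidableEq ι]

/-- A matrix acting on `X`-valued functions. -/
def matOp (X : Type) [AddCommGroup X] [Module ℂ X] : Matrix ι ι ℂ →ₐ[ℂ] End ℂ (ι → X) where
  toFun T :=
    { toFun := fun m i => ∑ j, T i j • m j
      map_add' := fun m m' => by ext i; simp [Finset.sum_add_distrib]
      map_smul' := fun c m => by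
        ext i; simp [Finset.smul_sum, smul_smul, mul_comm] }
  map_one' := by
    refine LinearMap.ext fun m => funext fun i => ?_
    simp [Matrix.one_apply]
  map_mul' := fun S T => by
    refine LinearMap.ext fun m => funext fun i => ?_
    simp only [LinearMap.coe_mk, AddHom.coe_mk, Module.End.mul_apply, Matrix.mul_apply,
      Finset.sum_smul, Finset.smul_sum, smul_smul]
    exact Finset.sum_comm
  map_zero' := by
    refine LinearMap.ext fun m => funext fun i => ?_
    simp
  map_add' := fun S T => by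
    refine LinearMap.ext fun m => funext fun i => ?_
    simp [add_smul, Finset.sum_add_distrib]
  commutes' := fun c => by
    refine LinearMap.ext fun m => funext fun i => ?_
    simp [Matrix.algebraMap_matrix_apply, Module.algebraMap_end_apply]

theorem matOp_apply (X : Type) [AddCommGroup X] [Module ℂ X] (T : Matrix ι ι ℂ) (m : ι → X)
    (i : ι) : matOp X T m i = ∑ j, T i j • m j := rfl

/-- A linear map applied pointwise. -/
def ptOp (ι : Type) {X Y : Type} [AddCommGroup X] [Module ℂ X] [AddCommGroup Y] [Module ℂ Y]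
    (f : X →ₗ[ℂ] Y) : (ι → X) →ₗ[ℂ] (ι → Y) := f.compLeft ι

omit [Fintype ι] [DecidableEq ι] in
theorem ptOp_apply {X Y : Type} [AddCommGroup X] [Module ℂ X] [AddCommGroup Y] [Module ℂ Y]
    (f : X →ₗ[ℂ] Y) (m : ι → X) (i : ι) : ptOp ι f m i = f (m i) := rfl

theorem ptOp_matOp {X Y : Type} [AddCommGroup X] [Module ℂ X] [AddCommGroup Y] [Module ℂ Y]
    (f : X →ₗ[ℂ] Y) (T : Matrix ι ι ℂ) (m : ι → X) :
    ptOp ι f (matOp X T m) = matOp Y T (ptOp ι f m) := by
  funext i; simp [ptOp_apply, matOp_apply]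

/-- The action on the tensor product. -/
noncomputable def tenρ (C : Coef n ι) (M : GMod n) : Mat n →ₗ[ℂ] End ℂ (ι → M.V) where
  toFun := fun A => matOp M.V (C.C A) + ptOp ι (M.ρ A)
  map_add' := fun A B => by
    refine LinearMap.ext fun m => funext fun i => ?_
    simp [ptOp_apply]; abel
  map_smul' := fun c A => by
    refine LinearMap.ext fun m => funext fun i => ?_
    simp [ptOp_apply]

theorem tenρ_apply (C : Coef n ι) (M : GMod n) (A : Mat n) (m : ι → M.V) :
    tenρ C M A m = matOp M.V (C.C A) m + ptOp ι (M.ρ A) m := rfl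

theorem tenρ_apply' (C : Coef n ι) (M : GMod n) (A : Mat n) (m : ι → M.V) (i : ι) :
    tenρ C M A m i = ∑ j, C.C A i j • m j + M.ρ A (m i) := rfl

/-- The tensor product of a coefficient representation and a module. -/
noncomputable abbrev Ten (C : Coef n ι) (M : GMod n) : GMod n where
  V := ι → M.V
  ρ := tenρ C M
  comm := fun A B => by
    refine LinearMap.ext fun m => ?_
    have h1 := congrArg (fun T => matOp M.V T m) (C.comm A B)
    have h2 : ptOp ι (M.ρ A) (ptOp ι (M.ρ B) m) - ptOp ι (M.ρ B) (ptOp ι (M.ρ A) m) =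
        ptOp ι (M.ρ (A * B - B * A)) m :=
      funext fun i => congrArg (fun T : End ℂ M.V => T (m i)) (M.comm A B)
    simp only [map_sub, map_mul, LinearMap.sub_apply, Module.End.mul_apply] at h1
    simp only [tenρ_apply, LinearMap.sub_apply, Module.End.mul_apply, map_add, ptOp_matOp, ← h2]
    simp only [map_sub, LinearMap.sub_apply, ← h1]
    abel

/-- The dual representation. -/
noncomputable def Coef.dual (C : Coef n ι) : Coef n ι where
  C :=
    { toFun := fun A => -(C.C A).transpose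
      map_add' := fun A B => by simp [Matrix.transpose_add]; abel
      map_smul' := fun c A => by simp }
  comm := fun A B => by
    simp only [LinearMap.coe_mk, AddHom.coe_mk, neg_mul_neg, ← C.comm, Matrix.transpose_sub,
      Matrix.transpose_mul]
    abel
  wt := fun i => -C.wt i
  diag := fun j => by
    simp [C.diag, Matrix.diagonal_neg]

/-- `C'` is dual to `C`. -/
def IsDual (C C' : Coef n ι) : Prop := ∀ A, C'.C A = -(C.C A).transpose

theorem isDual_dual (C : Coef n ι) : IsDual C C.dual := fun _ => rfl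

theorem IsDual.symm {C C' : Coef n ι} (h : IsDual C C') : IsDual C' C := fun A => by
  rw [h A]; simp

/-- One direction of the adjunction. -/
def adjR {X Y : Type} [AddCommGroup X] [Module ℂ X] [AddCommGroup Y] [Module ℂ Y]
    (g : (ι → X) →ₗ[ℂ] Y) : X →ₗ[ℂ] (ι → Y) :=
  LinearMap.pi fun i => g.comp (LinearMap.single ℂ (fun _ => X) i)

omit [Fintype ι] in
theorem adjR_apply {X Y : Type} [AddCommGroup X] [Module ℂ X] [AddCommGroup Y] [Module ℂ Y]
    (g : (ι → X) →ₗ[ℂ] Y) (x : X) (i : ι) : adjR g x i = g (Pi.single i x) := rfl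

/-- The other direction of the adjunction. -/
def adjL {X Y : Type} [AddCommGroup X] [Module ℂ X] [AddCommGroup Y] [Module ℂ Y]
    (h : X →ₗ[ℂ] (ι → Y)) : (ι → X) →ₗ[ℂ] Y :=
  ∑ i, (LinearMap.proj i).comp (h.comp (LinearMap.proj i))

omit [DecidableEq ι] in
theorem adjL_apply {X Y : Type} [AddCommGroup X] [Module ℂ X] [AddCommGroup Y] [Module ℂ Y]
    (h : X →ₗ[ℂ] (ι → Y)) (m : ι → X) : adjL h m = ∑ i, h (m i) i := by
  simp [adjL]

/-- The mixed Casimir operator. -/
noncomputable def Om (C : Coef n ι) (M : GMod n) : End ℂ (ι → M.V) :=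
  ∑ a : Fin n, ∑ b : Fin n, matOp M.V (C.C (eM a b)) * ptOp ι (M.E b a)

/-- The coefficient representation as a module. -/
noncomputable abbrev Coef.mod (C : Coef n ι) : GMod n where
  V := ι → ℂ
  ρ := (matOp ℂ).toLinearMap.comp C.C
  comm := fun A B => by
    simp only [LinearMap.comp_apply, AlgHom.toLinearMap_apply, ← map_mul, ← map_sub, C.comm]

end Ten

/-- The vector representation. -/
def std (n : ℕ) : Coef n (Fin n) where
  C := LinearMap.id
  comm := fun _ _ => rfl
  wt := fun j => eps j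
  diag := fun j => by
    ext a b
    by_cases h : a = b
    · subst h
      by_cases h2 : j = a
      · subst h2; simp
      · simp [h2]
    · simp [Matrix.diagonal_apply_ne _ h, Matrix.single]
      rintro rfl rfl; exact h rfl

section Translation

variable {n : ℕ} {ι : Type} [Fintype ι] [DecidableEq ι]

theorem comm_units {A : Type} [Ring A] [Algebra ℂ A] (f g : Mat n →ₗ[ℂ] A) (T : Mat n) :
    ∑ a : Fin n, ∑ b : Fin n, (f (T * eM a b - eM a b * T) * g (eM b a) +
      f (eM a b) * g (T * eM b a - eM b a * T)) = 0 := by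
  have h1 : ∀ a b : Fin n, T * eM a b = ∑ c, T c a • eM c b := by
    intro a b; ext x y
    simp [Matrix.mul_apply, Matrix.sum_apply, Matrix.single, ite_and]
  have h2 : ∀ a b : Fin n, eM a b * T = ∑ c, T b c • eM a c := by
    intro a b; ext x y
    simp [Matrix.mul_apply, Matrix.sum_apply, Matrix.single, ite_and]
  simp only [h1, h2, map_sub, map_sum, map_smul, sub_mul, mul_sub, Finset.sum_mul, Finset.mul_sum,
    smul_mul_assoc, mul_smul_comm, Finset.sum_add_distrib, Finset.sum_sub_distrib]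
  have e1 : ∑ a : Fin n, ∑ b : Fin n, ∑ c : Fin n, T c a • (f (eM c b) * g (eM b a)) =
      ∑ a : Fin n, ∑ b : Fin n, ∑ c : Fin n, T a c • (f (eM a b) * g (eM b c)) := by
    rw [Finset.sum_comm]
    conv_rhs => rw [Finset.sum_comm]
    exact Finset.sum_congr rfl fun b _ => Finset.sum_comm
  have e2 : ∑ a : Fin n, ∑ b : Fin n, ∑ c : Fin n, T b c • (f (eM a c) * g (eM b a)) =
      ∑ a : Fin n, ∑ b : Fin n, ∑ c : Fin n, T c b • (f (eM a b) * g (eM c a)) :=
    Finset.sum_congr rfl fun a _ => Finset.sum_comm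
  rw [e1, e2]; abel

/-- The pointwise action as a linear family of operators. -/
def ptρ (ι : Type) (M : GMod n) : Mat n →ₗ[ℂ] End ℂ (ι → M.V) where
  toFun := fun A => ptOp ι (M.ρ A)
  map_add' := fun A B => by
    refine LinearMap.ext fun m => funext fun i => ?_
    simp [ptOp_apply]
  map_smul' := fun c A => by
    refine LinearMap.ext fun m => funext fun i => ?_
    simp [ptOp_apply]

theorem Om_comm (C : Coef n ι) (M : GMod n) (T : Mat n) : Commute (tenρ C M T) (Om C M) := by
  have key := comm_units ((matOp M.V).toLinearMap.comp C.C) (ptρ ι M) T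
  have hm : ∀ (S : Matrix ι ι ℂ) (f : End ℂ M.V),
      ptOp ι f * matOp M.V S = matOp M.V S * ptOp ι f :=
    fun S f => LinearMap.ext fun m => ptOp_matOp f S m
  have hp : ∀ A B : Mat n, ptOp ι (M.ρ (A * B - B * A)) =
      ptOp ι (M.ρ A) * ptOp ι (M.ρ B) - ptOp ι (M.ρ B) * ptOp ι (M.ρ A) := fun A B =>
    LinearMap.ext fun m => funext fun i =>
      (congrArg (fun S : End ℂ M.V => S (m i)) (M.comm A B)).symm
  have hT : tenρ C M T = matOp M.V (C.C T) + ptOp ι (M.ρ T) := rfl
  rw [Commute, SemiconjBy, ← sub_eq_zero, ← key, hT, Om, Finset.mul_sum, Finset.sum_mul,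
    ← Finset.sum_sub_distrib]
  refine Finset.sum_congr rfl fun a _ => ?_
  rw [Finset.mul_sum, Finset.sum_mul, ← Finset.sum_sub_distrib]
  refine Finset.sum_congr rfl fun b _ => ?_
  simp only [LinearMap.comp_apply, AlgHom.toLinearMap_apply, ← C.comm, map_sub (matOp M.V),
    map_mul (matOp M.V), ptρ, LinearMap.coe_mk, AddHom.coe_mk, hp]
  have a1 := hm (C.C T) (M.ρ (eM b a))
  have a2 := hm (C.C (eM a b)) (M.ρ T)
  simp only [mul_add, add_mul, mul_sub, sub_mul, mul_assoc, a1]
  rw [← mul_assoc (ptOp ι (M.ρ T)), a2, mul_assoc]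
  abel

/-- The generalised eigenspace of the mixed Casimir operator. -/
noncomputable def genOm (C : Coef n ι) (M : GMod n) (c : ℤ) : Submodule ℂ (ι → M.V) :=
  (Om C M).maxGenEigenspace ((c : ℤ) : ℂ)

theorem genOm_stable (C : Coef n ι) (M : GMod n) (c : ℤ) : (Ten C M).Stable (genOm C M c) :=
  fun A _ hv => Module.End.mapsTo_maxGenEigenspace_of_comm (Om_comm C M A).symm _ hv

/-- The translation functor moving a particle from `c` to `c + 1`. -/
noncomputable abbrev Fc (M : GMod n) (c : ℤ) : GMod n :=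
  (Ten (std n) M).sub (genOm (std n) M c) (genOm_stable _ _ _)

/-- The translation functor moving a particle from `c + 1` to `c`. -/
noncomputable abbrev Ec (M : GMod n) (c : ℤ) : GMod n :=
  (Ten (std n).dual M).sub (genOm (std n).dual M (-c - n)) (genOm_stable _ _ _)

/-- Iterated `Fc`; the head of the list is applied last. -/
noncomputable def Fit (M : GMod n) : List ℤ → GMod n
  | [] => M
  | c :: l => Fc (Fit M l) c

/-- Iterated `Ec`; the head of the list is applied first. -/
noncomputable def Eit : GMod n → List ℤ → GMod n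
  | M, [] => M
  | M, c :: l => Eit (Ec M c) l

/-- The block after the moves in the list; the head is applied last. -/
def moves (B : ℤ → ℤ) : List ℤ → ℤ → ℤ
  | [] => B
  | c :: l => move (moves B l) c

/-- The list `[i (d-1), ..., i 0]`. -/
def revL (i : ℕ → ℤ) : ℕ → List ℤ
  | 0 => []
  | d + 1 => i d :: revL i d

theorem moves_revL (B : ℤ → ℤ) (i : ℕ → ℤ) (d : ℕ) : moves B (revL i d) = walk B i d := by
  induction d with
  | zero => rfl
  | succ d ih => simp [revL, moves, walk, ih]

end Translation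

end Pool.Agent.KM
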