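import Pool.Agent.Lib.MP_515a76_al.Stmt
import Pool.Agent.Lib.MP_515a76_al.GDefs

/-! Passing between sl_n modules and gl_n modules. -/

namespace Pool.Agent.KM

open Module LieAlgebra.SpecialLinear

attribute [local instance 100] LieRing.ofAssociativeRing

variable {n : ℕ}

/-- The Lie ring action of sl_n on a gl_n module. -/
abbrev GMod.lrm (X : GMod n) : LieRingModule (sl (Fin n) ℂ) X.V where
  bracket x v := X.ρ x.1 v
  add_lie x y v := by simp
  lie_add x v w := by simp
  leibniz_lie x y v := by
    have := congrArg (fun T : End ℂ X.V => T v) (X.comm x.1 y.1)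
    simp only [LinearMap.sub_apply, Module.End.mul_apply] at this
    change X.ρ x.1 (X.ρ y.1 v) = X.ρ (x.1 * y.1 - y.1 * x.1) v + X.ρ y.1 (X.ρ x.1 v)
    rw [← this]; abel

/-- Restriction from gl_n to sl_n. -/
def toSl (X : GMod n) : SlMod n :=
  letI := X.lrm
  { V := X.V
    lm :=
      { smul_lie := fun t x v => by
          change X.ρ (t • x.1) v = t • X.ρ x.1 v
          simp
        lie_smul := fun t x v => by
          change X.ρ x.1 (t • v) = t • X.ρ x.1 v
          simp } }

theorem toSl_lie (X : GMod n) (x : sl (Fin n) ℂ) (v : (toSl X).V) : ⁅x, v⁆ = X.ρ x.1 v := rfl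

/-- The traceless part of a matrix. -/
noncomputable def tl (n : ℕ) : Mat n →ₗ[ℂ] sl (Fin n) ℂ where
  toFun A := ⟨A - (A.trace / n) • (1 : Mat n), by
    change Matrix.trace (A - (A.trace / n) • (1 : Mat n)) = 0
    rcases Nat.eq_zero_or_pos n with h | h
    · subst h; simp [Matrix.trace]
    · have : (n : ℂ) ≠ 0 := by exact_mod_cast h.ne'
      simp [Matrix.trace_sub, Matrix.trace_smul]
      field_simp
      ring⟩
  map_add' A B := by
    apply Subtype.ext
    simp only [Matrix.trace_add, add_div, add_smul]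
    change _ = (A - _) + (B - _)
    abel
  map_smul' c A := by
    apply Subtype.ext
    simp only [Matrix.trace_smul, smul_eq_mul, RingHom.id_apply]
    change _ = c • (A - _)
    rw [smul_sub, smul_smul, mul_div_assoc]

theorem tl_val (A : Mat n) : (tl n A).1 = A - (A.trace / n) • (1 : Mat n) := rfl

/-- The action of gl_n on an sl_n module, the identity acting by `n c`. -/
noncomputable def glρ (c : ℤ) (M : SlMod n) : Mat n →ₗ[ℂ] End ℂ M.V where
  toFun A := LieModule.toEnd ℂ (sl (Fin n) ℂ) M.V (tl n A) + (A.trace * c) • 1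
  map_add' A B := by
    simp only [map_add, Matrix.trace_add, add_mul, add_smul]; abel
  map_smul' t A := by
    simp only [map_smul, Matrix.trace_smul, smul_eq_mul, RingHom.id_apply, smul_add, smul_smul,
      mul_assoc]

theorem glρ_apply (c : ℤ) (M : SlMod n) (A : Mat n) (v : M.V) :
    glρ c M A v = ⁅tl n A, v⁆ + (A.trace * c) • v := rfl

/-- Extension from sl_n to gl_n. -/
noncomputable abbrev toGl (c : ℤ) (M : SlMod n) : GMod n where
  V := M.V
  ρ := glρ c M
  comm := fun A B => by
    refine LinearMap.ext fun v => ?_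
    have h1 : (A * B - B * A).trace = 0 := by
      rw [Matrix.trace_sub, Matrix.trace_mul_comm, sub_self]
    have h2 : tl n (A * B - B * A) = ⁅tl n A, tl n B⁆ := by
      apply Subtype.ext
      rw [sl_bracket, tl_val, tl_val, tl_val, h1]
      simp only [zero_div, zero_smul, sub_zero, sub_mul, mul_sub, smul_mul_assoc, mul_smul_comm,
        one_mul, mul_one, smul_sub, smul_smul]
      rw [mul_comm (B.trace / n)]
      abel
    simp only [LinearMap.sub_apply, Module.End.mul_apply, glρ_apply, h1, h2, zero_mul, zero_smul,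
      add_zero, lie_lie, lie_add, lie_smul, smul_add, smul_smul]
    rw [mul_comm (A.trace * c)]
    abel

/-- The dominant weight `c, c - 1, ...`. -/
def rhoC (n : ℕ) (c : ℤ) : Wt n := fun j => c - (j : ℕ)

theorem rhoC_anti (n : ℕ) (c : ℤ) : StrictAnti (rhoC n c) := fun i j h => by
  have : (i : ℕ) < j := h
  simp only [rhoC]; omega

/-- Projectivity relative to the block `B`. -/
def GProj (P : GMod n) (B : ℤ → ℤ) : Prop :=
  ∀ (M N : GMod n), M.Blk B → N.Blk B → ∀ f : M.V →ₗ[ℂ] N.V, M.IsHom N f → Function.Surjective f →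
    ∀ g : P.V →ₗ[ℂ] N.V, P.IsHom N g → ∃ h : P.V →ₗ[ℂ] M.V, P.IsHom M h ∧ f.comp h = g

/-- Every endomorphism is a scalar plus a nilpotent endomorphism. -/
def GLocal (P : GMod n) : Prop :=
  ∀ φ : End ℂ P.V, P.IsHom P φ → ∃ (c : ℂ) (k : ℕ), (φ - c • (1 : End ℂ P.V)) ^ k = 0

/-- Isomorphisms of sl_n modules. -/
abbrev SlEquiv (M N : SlMod n) : Type := M.V ≃ₗ⁅ℂ, sl (Fin n) ℂ⁆ N.V

end Pool.Agent.KM
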