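import Pool.Agent.Lib.MP_515a76_al.GTen
import Pool.Agent.Lib.MP_515a76_al.DBasic

/-! The translation functors `Fc` and `Ec`: blocks, projections, adjunctions. -/

namespace Pool.Agent.KM

open Module GMod

variable {n : ℕ} {B : ℤ → ℤ}

section Aux

variable {X Y : Type} [AddCommGroup X] [Module ℂ X] [AddCommGroup Y] [Module ℂ Y]

theorem trans_pow_semi {f : X →ₗ[ℂ] Y} {S : End ℂ X} {T : End ℂ Y}
    (h : ∀ v, f (S v) = T (f v)) (N : ℕ) (v : X) : f ((S ^ N) v) = (T ^ N) (f v) := by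
  induction N generalizing v with
  | zero => simp
  | succ N ih => rw [pow_succ, pow_succ, End.mul_apply, End.mul_apply, ih, h]

theorem trans_ptOp_pow (ι : Type) (S : End ℂ X) (N : ℕ) (m : ι → X) (i : ι) :
    (((ptOp ι S : End ℂ (ι → X)) ^ N) m) i = (S ^ N) (m i) :=
  trans_pow_semi (f := LinearMap.proj (R := ℂ) (φ := fun _ : ι => X) i)
    (S := (ptOp ι S : End ℂ (ι → X))) (T := S) (fun _ => rfl) N m

theorem trans_pow_le {S : End ℂ X} {v : X} {N K : ℕ} (h : (S ^ N) v = 0) (hk : N ≤ K) :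
    (S ^ K) v = 0 := by
  obtain ⟨d, rfl⟩ := Nat.exists_eq_add_of_le hk
  rw [add_comm, pow_add, End.mul_apply, h, map_zero]

theorem trans_ptOp_nil {ι : Type} [Fintype ι] {S : End ℂ X} (h : ∀ v, ∃ N : ℕ, (S ^ N) v = 0)
    (m : ι → X) : ∃ N : ℕ, ((ptOp ι S : End ℂ (ι → X)) ^ N) m = 0 := by
  choose N hN using h
  refine ⟨Finset.univ.sup fun i => N (m i), funext fun i => ?_⟩
  rw [trans_ptOp_pow]
  exact trans_pow_le (hN (m i)) (Finset.le_sup (f := fun i => N (m i)) (Finset.mem_univ i))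

/-- Linear maps agreeing on a spanning family of submodules are equal. -/
theorem trans_ext {κ : Type} {S : κ → Submodule ℂ X} (hS : ⨆ k, S k = ⊤) {f g : X →ₗ[ℂ] Y}
    (h : ∀ k, ∀ v ∈ S k, f v = g v) : f = g := by
  have : (⊤ : Submodule ℂ X) ≤ LinearMap.eqLocus f g := by
    rw [← hS]
    exact iSup_le fun k v hv => h k v hv
  exact LinearMap.ext fun v => this Submodule.mem_top

end Aux

theorem cas_ten {ι : Type} [Fintype ι] [DecidableEq ι] (C : Coef n ι) (M : GMod n) :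
    (Ten C M).cas = ptOp ι M.cas + (2 : ℂ) • Om C M +
      matOp M.V (∑ a, ∑ b, C.C (eM a b) * C.C (eM b a)) := by
  have hm : ∀ (S : Matrix ι ι ℂ) (f : End ℂ M.V),
      (ptOp ι f : End ℂ (ι → M.V)) * matOp M.V S = matOp M.V S * ptOp ι f :=
    fun S f => LinearMap.ext fun m => ptOp_matOp f S m
  have hE : ∀ a b : Fin n, (Ten C M).E a b =
      matOp M.V (C.C (eM a b)) + (ptOp ι (M.E a b) : End ℂ (ι → M.V)) := fun _ _ => rfl
  have hp : (ptOp ι M.cas : End ℂ (ι → M.V)) =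
      ∑ a, ∑ b, (ptOp ι (M.E a b) : End ℂ (ι → M.V)) * ptOp ι (M.E b a) := by
    refine LinearMap.ext fun m => funext fun i => ?_
    simp only [GMod.cas, ptOp_apply, LinearMap.sum_apply, Finset.sum_apply, End.mul_apply]
  have hO : Om C M = ∑ a : Fin n, ∑ b : Fin n,
      matOp M.V (C.C (eM b a)) * (ptOp ι (M.E a b) : End ℂ (ι → M.V)) := by
    rw [Om, Finset.sum_comm]
  rw [two_smul]
  nth_rewrite 2 [hO]
  rw [hp, Om, GMod.cas]
  simp only [hE, map_sum, map_mul, ← Finset.sum_add_distrib]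
  refine Finset.sum_congr rfl fun a _ => Finset.sum_congr rfl fun b _ => ?_
  rw [add_mul, mul_add, mul_add, hm]
  abel

theorem trans_std_sum :
    ∑ a : Fin n, ∑ b : Fin n, (std n).C (eM a b) * (std n).C (eM b a) = (n : ℂ) • 1 := by
  have : ∀ a b : Fin n, (std n).C (eM a b) * (std n).C (eM b a) = eM a a := by
    intro a b
    change (eM a b : Mat n) * eM b a = eM a a
    rw [Matrix.single_mul_single_same, one_mul]
  simp only [this, Finset.sum_const, Finset.card_univ, Fintype.card_fin]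
  rw [← Finset.smul_sum, Matrix.sum_single_one, Nat.cast_smul_eq_nsmul]

theorem trans_dual_sum :
    ∑ a : Fin n, ∑ b : Fin n, (std n).dual.C (eM a b) * (std n).dual.C (eM b a) =
      (n : ℂ) • 1 := by
  have : ∀ a b : Fin n, (std n).dual.C (eM a b) * (std n).dual.C (eM b a) = eM b b := by
    intro a b
    change (-(eM a b : Mat n).transpose) * (-(eM b a : Mat n).transpose) = eM b b
    rw [neg_mul_neg, Matrix.transpose_single, Matrix.transpose_single,
      Matrix.single_mul_single_same, one_mul]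
  simp only [this, Finset.sum_const, Finset.card_univ, Fintype.card_fin]
  rw [Matrix.sum_single_one, Nat.cast_smul_eq_nsmul]

/-- The primitive weights of a generalised eigenspace of the mixed Casimir operator. -/
theorem trans_prim {ι : Type} [Fintype ι] [DecidableEq ι] (C : Coef n ι) {κ : ℂ}
    (hC : ∑ a, ∑ b, C.C (eM a b) * C.C (eM b a) = κ • 1) {M : GMod n} (h : M.Blk B) (μ : ℂ)
    (hs : (Ten C M).Stable ((Om C M).maxGenEigenspace μ)) {a' : Wt n}
    (hp : ((Ten C M).sub _ hs).Prim a') :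
    ∃ (a : Wt n) (i : ι), cnt a = B ∧ cnt a' = cnt (a + C.wt i) ∧
      ((chi2 a : ℤ) : ℂ) + 2 * μ + κ = ((chi2 (a + C.wt i) : ℤ) : ℂ) := by
  obtain ⟨a, i, ha, ha'⟩ := ((adm_ten C h).sub _ hs).prim a' hp
  have ha : cnt a = B := ha
  refine ⟨a, i, ha, ha', ?_⟩
  subst ha
  rw [← chi2_congr ha']
  refine hp.eq_of_nilp fun v => ?_
  set S : End ℂ (ι → M.V) := ptOp ι (M.cas - ((chi2 a : ℤ) : ℂ) • (1 : End ℂ M.V)) with hS
  set T : End ℂ (ι → M.V) := (2 : ℂ) • (Om C M - μ • (1 : End ℂ (ι → M.V))) with hT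
  have hhom : M.IsHom M (M.cas - ((chi2 a : ℤ) : ℂ) • (1 : End ℂ M.V)) :=
    (cas_hom M).sub ((isHom_id M).smul _)
  have hc : Commute S T := by
    refine Commute.smul_right (Commute.sub_right ?_ ((Commute.one_right _).smul_right _)) _
    exact LinearMap.ext fun m => ptOp_Om C hhom m
  have h1 : ∃ N : ℕ, (S ^ N) (v : ι → M.V) = 0 := trans_ptOp_nil (fun w => h.cas_nilp w) _
  have h2 : ∃ N : ℕ, (T ^ N) (v : ι → M.V) = 0 := by
    obtain ⟨N, hN⟩ := (End.mem_maxGenEigenspace _ _ _).mp v.2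
    exact ⟨N, by rw [hT, smul_pow, LinearMap.smul_apply, hN, smul_zero]⟩
  obtain ⟨N, hN⟩ := DAHA.nil_add hc h1 h2
  have hST : S + T = (Ten C M).cas -
      (((chi2 a : ℤ) : ℂ) + 2 * μ + κ) • (1 : End ℂ (ι → M.V)) := by
    rw [cas_ten, hC, map_smul, map_one]
    refine LinearMap.ext fun m => funext fun j => ?_
    simp only [hS, hT, LinearMap.add_apply, LinearMap.sub_apply, LinearMap.smul_apply,
      Pi.add_apply, Pi.sub_apply, Pi.smul_apply, ptOp_apply, End.one_apply]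
    module
  refine ⟨N, Subtype.ext ?_⟩
  have := trans_pow_semi (f := ((Om C M).maxGenEigenspace μ).subtype)
    (S := ((Ten C M).sub _ hs).cas -
      (((chi2 a : ℤ) : ℂ) + 2 * μ + κ) • (1 : End ℂ ((Ten C M).sub _ hs).V))
    (T := S + T) (fun w => by
      rw [hST, LinearMap.sub_apply, map_sub, (isHom_subtype (Ten C M) _ hs).cas]
      rfl) N v
  exact this.trans hN

theorem trans_prim_F {M : GMod n} (h : M.Blk B) (μ : ℂ)
    (hs : (Ten (std n) M).Stable ((Om (std n) M).maxGenEigenspace μ)) {a' : Wt n}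
    (hp : ((Ten (std n) M).sub _ hs).Prim a') :
    ∃ c : ℤ, μ = (c : ℂ) ∧ cnt a' = move B c := by
  obtain ⟨a, j, ha, ha', hc⟩ := trans_prim (std n) trans_std_sum h μ hs hp
  change cnt a' = cnt (a + eps j) at ha'
  change _ = ((chi2 (a + eps j) : ℤ) : ℂ) at hc
  rw [chi2_add_eps] at hc
  refine ⟨a j, ?_, by rw [ha', cnt_add_eps, ha]⟩
  push_cast at hc
  linear_combination hc / 2

theorem trans_prim_E {M : GMod n} (h : M.Blk B) (μ : ℂ)
    (hs : (Ten (std n).dual M).Stable ((Om (std n).dual M).maxGenEigenspace μ)) {a' : Wt n}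
    (hp : ((Ten (std n).dual M).sub _ hs).Prim a') :
    ∃ c : ℤ, μ = ((-c - n : ℤ) : ℂ) ∧ cnt a' = unmove B c := by
  obtain ⟨a, j, ha, ha', hc⟩ := trans_prim (std n).dual trans_dual_sum h μ hs hp
  change cnt a' = cnt (a + -eps j) at ha'
  change _ = ((chi2 (a + -eps j) : ℤ) : ℂ) at hc
  rw [← sub_eq_add_neg] at ha' hc
  rw [chi2_sub_eps] at hc
  refine ⟨a j - 1, ?_, by rw [ha', cnt_sub_eps, ha]⟩
  push_cast at hc ⊢
  linear_combination hc / 2

theorem blk_Fc {M : GMod n} (h : M.Blk B) (c : ℤ) : (Fc M c).Blk (move B c) := by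
  refine ((adm_ten (std n) h).sub _ (genOm_stable _ _ _)).mono (Set.finite_singleton _)
    fun a' hp => ?_
  obtain ⟨c', hc, ha⟩ := trans_prim_F h _ (genOm_stable _ _ c) hp
  have : c = c' := by exact_mod_cast hc
  rw [this]
  exact ha

theorem blk_Ec {M : GMod n} (h : M.Blk B) (c : ℤ) : (Ec M c).Blk (unmove B c) := by
  refine ((adm_ten (std n).dual h).sub _ (genOm_stable _ _ _)).mono (Set.finite_singleton _)
    fun a' hp => ?_
  obtain ⟨c', hc, ha⟩ := trans_prim_E h _ (genOm_stable _ _ (-c - n)) hp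
  have h1 : -c - (n : ℤ) = -c' - n := Int.cast_injective hc
  have : c = c' := by omega
  rw [this]
  exact ha

/-- A nonzero generalised eigenspace has a primitive weight. -/
theorem trans_exists_prim {ι : Type} [Fintype ι] [DecidableEq ι] (C : Coef n ι) {M : GMod n}
    (h : M.Blk B) (μ : ℂ) (h0 : (Om C M).maxGenEigenspace μ ≠ ⊥) :
    ∃ a, ((Ten C M).sub _ ((Om_hom C M).stable_gen μ)).Prim a := by
  by_contra hn
  have hsub := ((adm_ten C h).sub _ ((Om_hom C M).stable_gen μ)).subsingleton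
    fun a ha => hn ⟨a, ha⟩
  exact h0 (Submodule.subsingleton_iff_eq_bot.mp hsub)

theorem iSup_genF {M : GMod n} (h : M.Blk B) : ⨆ c : ℤ, genOm (std n) M c = ⊤ := by
  rw [eq_top_iff, ← (adm_ten (std n) h).iSup_gen (Om_hom (std n) M)]
  refine iSup_le fun μ => ?_
  by_cases h0 : (Om (std n) M).maxGenEigenspace μ = ⊥
  · exact h0.le.trans bot_le
  · obtain ⟨a, ha⟩ := trans_exists_prim (std n) h μ h0
    obtain ⟨c, rfl, -⟩ := trans_prim_F h μ _ ha
    exact le_iSup (fun c : ℤ => genOm (std n) M c) c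

theorem iSup_genE {M : GMod n} (h : M.Blk B) : ⨆ c : ℤ, genOm (std n).dual M (-c - n) = ⊤ := by
  rw [eq_top_iff, ← (adm_ten (std n).dual h).iSup_gen (Om_hom (std n).dual M)]
  refine iSup_le fun μ => ?_
  by_cases h0 : (Om (std n).dual M).maxGenEigenspace μ = ⊥
  · exact h0.le.trans bot_le
  · obtain ⟨a, ha⟩ := trans_exists_prim (std n).dual h μ h0
    obtain ⟨c, rfl, -⟩ := trans_prim_E h μ _ ha
    exact le_iSup (fun c : ℤ => genOm (std n).dual M (-c - n)) c

theorem ptOp_mem_genOm {ι : Type} [Fintype ι] [DecidableEq ι] (C : Coef n ι) {M N : GMod n}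
    {f : M.V →ₗ[ℂ] N.V} (hf : M.IsHom N f) {c : ℤ} {m : ι → M.V} (hm : m ∈ genOm C M c) :
    ptOp ι f m ∈ genOm C N c := by
  obtain ⟨k, hk⟩ := (End.mem_maxGenEigenspace _ _ _).mp hm
  refine (End.mem_maxGenEigenspace _ _ _).mpr ⟨k, ?_⟩
  rw [← trans_pow_semi (f := ptOp ι f) (S := Om C M - ((c : ℤ) : ℂ) • 1) (fun v => by
    rw [LinearMap.sub_apply, map_sub, ptOp_Om C hf, LinearMap.sub_apply, LinearMap.smul_apply,
      LinearMap.smul_apply, map_smul]
    rfl), hk, map_zero]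

/-- The projection onto a generalised eigenspace. -/
theorem exists_pr {ι : Type} [Fintype ι] [DecidableEq ι] (C : Coef n ι) (M : GMod n)
    (h : ⨆ c : ℤ, genOm C M c = ⊤) (c : ℤ) :
    ∃ π : End ℂ (ι → M.V), (Ten C M).IsHom (Ten C M) π ∧ (∀ m, π m ∈ genOm C M c) ∧
      (∀ m ∈ genOm C M c, π m = m) ∧ ∀ c', c' ≠ c → ∀ m ∈ genOm C M c', π m = 0 := by
  have hind : iSupIndep fun c : ℤ => genOm C M c :=
    (End.independent_maxGenEigenspace (Om C M)).comp (f := fun c : ℤ => (c : ℂ))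
      Int.cast_injective
  have hc : IsCompl (genOm C M c) (⨆ (c' : ℤ) (_ : c' ≠ c), genOm C M c') := by
    refine ⟨hind c, codisjoint_iff.mpr ?_⟩
    exact (iSup_split_single (fun c : ℤ => genOm C M c) c).symm.trans h
  have h1 : ∀ m ∈ genOm C M c, (genOm C M c).projection _ hc m = m := fun m hm =>
    Submodule.projection_apply_of_mem_left hc hm
  have h2 : ∀ c', c' ≠ c → ∀ m ∈ genOm C M c', (genOm C M c).projection _ hc m = 0 := by
    intro c' hc' m hm
    exact (Submodule.projection_apply_eq_zero_iff hc).mpr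
      (le_iSup₂ (f := fun (c' : ℤ) (_ : c' ≠ c) => genOm C M c') c' hc' hm)
  refine ⟨(genOm C M c).projection _ hc, fun A v => ?_,
    fun m => Submodule.projection_apply_mem hc m, h1, h2⟩
  have : ((genOm C M c).projection _ hc).comp (tenρ C M A) =
      (tenρ C M A).comp ((genOm C M c).projection _ hc) := by
    refine trans_ext h fun c' m hm => ?_
    have hm' : tenρ C M A m ∈ genOm C M c' := genOm_stable C M c' A m hm
    by_cases hcc : c' = c
    · subst hcc
      rw [LinearMap.comp_apply, LinearMap.comp_apply, h1 _ hm, h1 _ hm']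
    · rw [LinearMap.comp_apply, LinearMap.comp_apply, h2 _ hcc _ hm, h2 _ hcc _ hm', map_zero]
  exact LinearMap.congr_fun this v

theorem iSup_genE' {M : GMod n} (h : M.Blk B) : ⨆ c : ℤ, genOm (std n).dual M c = ⊤ := by
  rw [eq_top_iff, ← iSup_genE h]
  exact iSup_le fun c => le_iSup (fun c : ℤ => genOm (std n).dual M c) (-c - n)

/-- Weight vectors in a generalised eigenspace lift along surjections. -/
theorem genF_surj {M N : GMod n} (hM : M.Blk B) {f : M.V →ₗ[ℂ] N.V} (hf : M.IsHom N f)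
    (hs : Function.Surjective f) {c : ℤ} {a : Wt n} {y : Fin n → N.V}
    (hy : y ∈ (Ten (std n) N).W a ⊓ genOm (std n) N c) :
    ∃ m ∈ (Ten (std n) M).W a ⊓ genOm (std n) M c, ptOp (Fin n) f m = y := by
  have hN : N.Blk B := Adm.of_surj hf hs hM
  obtain ⟨π, hπ, hπ1, hπ2, hπ3⟩ := exists_pr (std n) M (iSup_genF hM) c
  obtain ⟨π', -, -, hπ2', hπ3'⟩ := exists_pr (std n) N (iSup_genF hN) c
  obtain ⟨m, hm, hmy⟩ := (ptOp_hom (std n) hf).W_surj (adm_ten (std n) hM).wt hy.1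
    (ptOp_surjective hs y)
  have : (ptOp (Fin n) f).comp π = π'.comp (ptOp (Fin n) f) := by
    refine trans_ext (iSup_genF hM) fun c' m hm => ?_
    have hm' := ptOp_mem_genOm (std n) hf hm
    by_cases hcc : c' = c
    · subst hcc
      rw [LinearMap.comp_apply, LinearMap.comp_apply, hπ2 _ hm, hπ2' _ hm']
    · rw [LinearMap.comp_apply, LinearMap.comp_apply, hπ3 _ hcc _ hm, hπ3' _ hcc _ hm', map_zero]
  refine ⟨π m, ⟨hπ.map_W hm, hπ1 m⟩, ?_⟩
  have h1 := LinearMap.congr_fun this m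
  rw [LinearMap.comp_apply, LinearMap.comp_apply] at h1
  rw [h1]
  have h2 : ptOp (Fin n) f m = y := hmy
  rw [h2]
  exact hπ2' y hy.2

theorem iso_Fc {M N : GMod n} (h : M.Iso N) (c : ℤ) : (Fc M c).Iso (Fc N c) := by
  obtain ⟨e, he⟩ := h
  have hhom : (Fc M c).IsHom (Ten (std n) N)
      ((ptOp (Fin n) e.toLinearMap).comp (genOm (std n) M c).subtype) :=
    (ptOp_hom (std n) he).comp (isHom_subtype _ _ _)
  refine iso_of_bijective (hhom.codRestrict (genOm (std n) N c) (genOm_stable _ _ _)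
    fun v => ptOp_mem_genOm (std n) he v.2) ⟨fun v w hvw => ?_, fun y => ?_⟩
  · exact Subtype.ext (ptOp_injective (ι := Fin n) (f := e.toLinearMap) e.injective
      (congrArg Subtype.val hvw))
  · refine ⟨⟨ptOp (Fin n) e.symm.toLinearMap y.1, ptOp_mem_genOm (std n) he.symm y.2⟩,
      Subtype.ext (funext fun i => ?_)⟩
    exact e.apply_symm_apply (y.1 i)

theorem blk_Fit {M : GMod n} (h : M.Blk B) (l : List ℤ) : (Fit M l).Blk (moves B l) := by
  induction l with
  | nil => exact h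
  | cons c l ih => exact blk_Fc ih c

theorem trans_blk_Ec {Y : GMod n} {c : ℤ} (h : Y.Blk (move B c)) : (Ec Y c).Blk B := by
  have := blk_Ec h c
  rwa [unmove_move] at this

theorem blk_Eit {Y : GMod n} (l : List ℤ) (h : Y.Blk (moves B l)) : (Eit Y l).Blk B := by
  induction l generalizing Y with
  | nil => exact h
  | cons c l ih => exact ih (trans_blk_Ec h)

theorem Eit_append (Y : GMod n) (l l' : List ℤ) : Eit Y (l ++ l') = Eit (Eit Y l) l' := by
  induction l generalizing Y with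
  | nil => rfl
  | cons c l ih => exact ih (Ec Y c)

theorem ln_Fit {M : GMod n} {a b : Fin n} (hab : a ≠ b) (h : M.LN a b) (l : List ℤ) :
    (Fit M l).LN a b := by
  induction l with
  | nil => exact h
  | cons c l ih =>
    exact LN.of_inj (isHom_subtype _ _ (genOm_stable (std n) (Fit M l) c)) Subtype.val_injective
      (ln_ten (std n) hab ih)

theorem ln_Eit {M : GMod n} {a b : Fin n} (hab : a ≠ b) (h : M.LN a b) (l : List ℤ) :
    (Eit M l).LN a b := by
  induction l generalizing M with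
  | nil => exact h
  | cons c l ih =>
    exact ih (LN.of_inj (isHom_subtype _ _ (genOm_stable (std n).dual M (-c - n)))
      Subtype.val_injective (ln_ten (std n).dual hab h))

/-- One step of the adjunction: from maps into an eigenspace to maps out of an eigenspace. -/
theorem trans_step_LR {ι : Type} [Fintype ι] [DecidableEq ι] {C C' : Coef n ι} (hd : IsDual C C')
    {Y Z : GMod n} (hY : ⨆ c : ℤ, genOm C Y c = ⊤) {c d : ℤ}
    (hv : ∀ c', c' ≠ c → ∀ g : genOm C Y c' →ₗ[ℂ] Z.V,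
      ((Ten C Y).sub _ (genOm_stable C Y c')).IsHom Z g → g = 0)
    {f : Y.V →ₗ[ℂ] genOm C' Z d} (hf : Y.IsHom ((Ten C' Z).sub _ (genOm_stable C' Z d)) f)
    (h0 : f ≠ 0) :
    ∃ g : genOm C Y c →ₗ[ℂ] Z.V, ((Ten C Y).sub _ (genOm_stable C Y c)).IsHom Z g ∧ g ≠ 0 := by
  have hg : (Ten C Y).IsHom Z (adjL ((genOm C' Z d).subtype.comp f)) :=
    adjL_hom hd ((isHom_subtype _ _ (genOm_stable C' Z d)).comp hf)
  refine ⟨(adjL ((genOm C' Z d).subtype.comp f)).comp (genOm C Y c).subtype,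
    hg.comp (isHom_subtype _ _ _), fun hz => h0 ?_⟩
  have h1 : adjL ((genOm C' Z d).subtype.comp f) = 0 := by
    refine trans_ext hY fun c' m hm => ?_
    by_cases hcc : c' = c
    · subst hcc
      exact LinearMap.congr_fun hz ⟨m, hm⟩
    · exact LinearMap.congr_fun (hv c' hcc _ (hg.comp (isHom_subtype _ _ _))) ⟨m, hm⟩
  have h2 := adjR_adjL ((genOm C' Z d).subtype.comp f)
  rw [h1] at h2
  refine LinearMap.ext fun y => Subtype.ext ?_
  exact (LinearMap.congr_fun h2 y).symm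

/-- One step of the adjunction: from maps out of an eigenspace to maps into an eigenspace. -/
theorem trans_step_RL {ι : Type} [Fintype ι] [DecidableEq ι] {C C' : Coef n ι} (hd : IsDual C C')
    {Y Z : GMod n} (hY : ⨆ c : ℤ, genOm C Y c = ⊤) (hZ : ⨆ c : ℤ, genOm C' Z c = ⊤) {c d : ℤ}
    (hv : ∀ c', c' ≠ c → ∀ f : Y.V →ₗ[ℂ] genOm C' Z c',
      Y.IsHom ((Ten C' Z).sub _ (genOm_stable C' Z c')) f → f = 0)
    {g : genOm C Y d →ₗ[ℂ] Z.V} (hg : ((Ten C Y).sub _ (genOm_stable C Y d)).IsHom Z g)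
    (h0 : g ≠ 0) :
    ∃ f : Y.V →ₗ[ℂ] genOm C' Z c, Y.IsHom ((Ten C' Z).sub _ (genOm_stable C' Z c)) f ∧ f ≠ 0 := by
  obtain ⟨π, hπ, hπ1, hπ2, -⟩ := exists_pr C Y hY d
  choose p hp hp1 hp2 hp3 using exists_pr C' Z hZ
  have hg0 : (Ten C Y).IsHom Z (g.comp (π.codRestrict (genOm C Y d) hπ1)) :=
    hg.comp (hπ.codRestrict _ (genOm_stable C Y d) hπ1)
  have hf0 := adjR_hom hd hg0
  set f0 := adjR (g.comp (π.codRestrict (genOm C Y d) hπ1)) with hf0def
  have hc : ∀ c', Y.IsHom ((Ten C' Z).sub _ (genOm_stable C' Z c'))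
      (((p c').comp f0).codRestrict (genOm C' Z c') fun y => hp1 c' _) := fun c' =>
    ((hp c').comp hf0).codRestrict _ _ _
  refine ⟨_, hc c, fun hz => h0 ?_⟩
  have h1 : ∀ c' y, p c' (f0 y) = 0 := by
    intro c' y
    by_cases hcc : c' = c
    · subst hcc
      exact congrArg Subtype.val (LinearMap.congr_fun hz y)
    · exact congrArg Subtype.val (LinearMap.congr_fun (hv c' hcc _ (hc c')) y)
  have h2 : f0 = 0 := by
    refine LinearMap.ext fun y => ?_
    have hy : f0 y ∈ ⨆ c : ℤ, genOm C' Z c := hZ ▸ Submodule.mem_top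
    obtain ⟨u, hu, hsum⟩ := (Submodule.mem_iSup_iff_exists_finsupp _ _).mp hy
    have : u = 0 := by
      refine Finsupp.ext fun c' => ?_
      have h3 := h1 c' y
      rw [← hsum, Finsupp.sum, map_sum, Finset.sum_eq_single c'] at h3
      · rw [hp2 c' _ (hu c')] at h3
        exact h3
      · exact fun c'' _ hne => hp3 c' c'' hne _ (hu c'')
      · intro hn
        rw [Finsupp.notMem_support_iff.mp hn, map_zero]
    rw [← hsum, this, Finsupp.sum_zero_index, LinearMap.zero_apply]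
  have h3 := adjL_adjR (g.comp (π.codRestrict (genOm C Y d) hπ1))
  rw [← hf0def, h2] at h3
  refine LinearMap.ext fun v => ?_
  have h4 := LinearMap.congr_fun h3 v.1
  rw [adjL_apply, LinearMap.comp_apply] at h4
  have h5 : π.codRestrict (genOm C Y d) hπ1 v.1 = v := Subtype.ext (hπ2 _ v.2)
  rw [h5] at h4
  rw [← h4]
  simp

theorem trans_disj_E {c c' : ℤ} (h : c' ≠ c) :
    Disjoint ({unmove (move B c) c'} : Set (ℤ → ℤ)) {B} := by
  refine Set.disjoint_singleton.mpr fun hh => h ?_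
  exact unmove_inj (hh.trans (unmove_move B c).symm)

theorem trans_step_left {M Y : GMod n} (c : ℤ) (hM : M.Blk B) (hY : Y.Blk (move B c)) :
    (∃ f : Y.V →ₗ[ℂ] (Fc M c).V, Y.IsHom (Fc M c) f ∧ f ≠ 0) ↔
      ∃ g : (Ec Y c).V →ₗ[ℂ] M.V, (Ec Y c).IsHom M g ∧ g ≠ 0 := by
  constructor
  · rintro ⟨f, hf, h0⟩
    refine trans_step_LR (isDual_dual (std n)).symm (iSup_genE' hY) (fun c' hc' g hg => ?_) hf h0
    obtain ⟨e, rfl⟩ : ∃ e : ℤ, c' = -e - n := ⟨-c' - n, by ring⟩
    exact Adm.hom_eq_zero (blk_Ec hY e) hM (trans_disj_E fun h => hc' (by rw [h])) hg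
  · rintro ⟨g, hg, h0⟩
    refine trans_step_RL (isDual_dual (std n)).symm (iSup_genE' hY) (iSup_genF hM)
      (fun c' hc' f hf => ?_) hg h0
    exact Adm.hom_eq_zero hY (blk_Fc hM c')
      (Set.disjoint_singleton.mpr fun h => hc' (move_inj h).symm) hf

theorem trans_step_right {M Y : GMod n} (c : ℤ) (hM : M.Blk B) (hY : Y.Blk (move B c))
    (h : ∃ f : (Fc M c).V →ₗ[ℂ] Y.V, (Fc M c).IsHom Y f ∧ f ≠ 0) :
    ∃ g : M.V →ₗ[ℂ] (Ec Y c).V, M.IsHom (Ec Y c) g ∧ g ≠ 0 := by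
  obtain ⟨f, hf, h0⟩ := h
  refine trans_step_RL (isDual_dual (std n)) (iSup_genF hM) (iSup_genE' hY)
    (fun c' hc' g hg => ?_) hf h0
  obtain ⟨e, rfl⟩ : ∃ e : ℤ, c' = -e - n := ⟨-c' - n, by ring⟩
  exact Adm.hom_eq_zero hM (blk_Ec hY e) (trans_disj_E fun h => hc' (by rw [h])).symm hg

/-- `Eit` is left adjoint to `Fit` (existence of nonzero maps). -/
theorem adj_left {M Y : GMod n} (l : List ℤ) (hM : M.Blk B) (hY : Y.Blk (moves B l)) :
    (∃ f : Y.V →ₗ[ℂ] (Fit M l).V, Y.IsHom (Fit M l) f ∧ f ≠ 0) ↔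
      ∃ g : (Eit Y l).V →ₗ[ℂ] M.V, (Eit Y l).IsHom M g ∧ g ≠ 0 := by
  induction l generalizing Y with
  | nil => exact Iff.rfl
  | cons c l ih =>
    exact (trans_step_left c (blk_Fit hM l) hY).trans (ih (trans_blk_Ec hY))

/-- `Eit` is right adjoint to `Fit` (existence of nonzero maps). -/
theorem adj_right {M Y : GMod n} (l : List ℤ) (hM : M.Blk B) (hY : Y.Blk (moves B l))
    (h : ∃ f : (Fit M l).V →ₗ[ℂ] Y.V, (Fit M l).IsHom Y f ∧ f ≠ 0) :
    ∃ g : M.V →ₗ[ℂ] (Eit Y l).V, M.IsHom (Eit Y l) g ∧ g ≠ 0 := by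
  induction l generalizing Y with
  | nil => exact h
  | cons c l ih =>
    exact ih (trans_blk_Ec hY) (trans_step_right c (blk_Fit hM l) hY h)

end Pool.Agent.KM
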