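import Pool.Agent.Lib.MP_515a76_al.GPowA
import Pool.Agent.Lib.MP_515a76_al.GTrans
import Pool.Agent.Lib.MP_515a76_al.DBasic

/-! Adding one strand. -/

namespace Pool.Agent.KM

open Module GMod

variable {n d : ℕ} {B : ℤ → ℤ}

/-- Splitting off the last strand. -/
def snocE (n d : ℕ) (X : Type) [AddCommGroup X] [Module ℂ X] :
    (Idx (d + 1) n → X) ≃ₗ[ℂ] (Fin n → Idx d n → X) where
  toFun m := fun j i => m (Fin.snoc i j)
  invFun m := fun i => m (i (Fin.last d)) (Fin.init i)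
  map_add' _ _ := rfl
  map_smul' _ _ := rfl
  left_inv m := by funext i; simp
  right_inv m := by funext j i; simp

section Snoc

variable {X : Type} [AddCommGroup X] [Module ℂ X]

theorem pb_snocE_apply (m : Idx (d + 1) n → X) (j : Fin n) (i : Idx d n) :
    snocE n d X m j i = m (Fin.snoc i j) := rfl

theorem pb_snoc_cast (k : Fin d) (A : Mat n) (m : Idx (d + 1) n → X) (j : Fin n) :
    snocE n d X (matOp X (Dk k.castSucc A) m) j = matOp X (Dk k A) (snocE n d X m j) := by
  funext i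
  rw [pb_snocE_apply, matOp_Dk, matOp_Dk]
  refine Finset.sum_congr rfl fun b _ => ?_
  rw [pb_snocE_apply, Fin.snoc_update, Fin.snoc_castSucc]

theorem pb_snoc_last (A : Mat n) (m : Idx (d + 1) n → X) :
    snocE n d X (matOp X (Dk (Fin.last d) A) m) = matOp (Idx d n → X) A (snocE n d X m) := by
  funext j i
  rw [pb_snocE_apply, matOp_Dk, matOp_apply, Finset.sum_apply]
  refine Finset.sum_congr rfl fun b _ => ?_
  rw [Pi.smul_apply, pb_snocE_apply, Fin.update_snoc_last, Fin.snoc_last]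

theorem pb_snoc_pt (f : End ℂ X) (m : Idx (d + 1) n → X) (j : Fin n) :
    snocE n d X (ptOp (Idx (d + 1) n) f m) j = ptOp (Idx d n) f (snocE n d X m j) := rfl

theorem pb_tpow_C (d : ℕ) (A : Mat n) : (tpow n d).C A = ∑ k : Fin d, Dk k A :=
  LinearMap.sum_apply _ _ _

theorem pb_snoc_sum (s : Finset (Fin d)) (A : Mat n) (m : Idx (d + 1) n → X) (j : Fin n) :
    snocE n d X ((∑ l ∈ s, matOp X (Dk l.castSucc A)) m) j =
      (∑ l ∈ s, matOp X (Dk l A)) (snocE n d X m j) := by
  rw [LinearMap.sum_apply, LinearMap.sum_apply, map_sum, Finset.sum_apply]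
  exact Finset.sum_congr rfl fun l _ => pb_snoc_cast l A m j

theorem pb_filter {Y : Type} [AddCommMonoid Y] (f : Fin (d + 1) → Y) (k : Fin d) :
    ∑ l ∈ Finset.univ.filter fun l => l < k.castSucc, f l =
      ∑ l ∈ Finset.univ.filter fun l => l < k, f l.castSucc := by
  rw [Finset.sum_filter, Finset.sum_filter, Fin.sum_univ_castSucc,
    if_neg (not_lt.2 (Fin.le_last _)), add_zero]
  simp only [Fin.castSucc_lt_castSucc_iff]

theorem pb_filter_last {Y : Type} [AddCommMonoid Y] (f : Fin (d + 1) → Y) :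
    ∑ l ∈ Finset.univ.filter fun l => l < Fin.last d, f l = ∑ l : Fin d, f l.castSucc := by
  rw [Finset.sum_filter, Fin.sum_univ_castSucc, if_neg (lt_irrefl _), add_zero]
  simp only [Fin.castSucc_lt_last, if_true]

end Snoc

theorem pb_tenρ (M : GMod n) (A : Mat n) (m : Idx d n → M.V) :
    tenρ (tpow n d) M A m =
      (∑ l : Fin d, matOp M.V (Dk l A)) m + ptOp (Idx d n) (M.ρ A) m := by
  rw [tenρ_apply, pb_tpow_C, map_sum]

theorem snoc_hom (M : GMod n) : (Ten (tpow n (d + 1)) M).IsHom (Ten (std n) (Ten (tpow n d) M))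
    (snocE n d M.V).toLinearMap := by
  intro A m
  change snocE n d M.V (tenρ (tpow n (d + 1)) M A m) =
    matOp (Idx d n → M.V) A (snocE n d M.V m) +
      ptOp (Fin n) (tenρ (tpow n d) M A) (snocE n d M.V m)
  funext j
  rw [pb_tenρ, Fin.sum_univ_castSucc, LinearMap.add_apply, map_add, map_add, pb_snoc_last,
    Pi.add_apply, Pi.add_apply, Pi.add_apply, pb_snoc_sum, pb_snoc_pt, ptOp_apply, pb_tenρ]
  abel

theorem snoc_x_last (M : GMod n) (m : Idx (d + 1) n → M.V) :
    snocE n d M.V ((daha (d + 1) M).x d m) = Om (std n) (Ten (tpow n d) M) (snocE n d M.V m) := by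
  have h : (daha (d + 1) M).x d = xF M (Fin.last d) := daha_x M (Fin.last d)
  rw [h, xF, Om, LinearMap.sum_apply, LinearMap.sum_apply, map_sum]
  refine Finset.sum_congr rfl fun a _ => ?_
  rw [LinearMap.sum_apply, LinearMap.sum_apply, map_sum]
  refine Finset.sum_congr rfl fun b _ => ?_
  rw [End.mul_apply, End.mul_apply, pb_snoc_last]
  refine congrArg (matOp (Idx d n → M.V) (eM a b)) ?_
  funext j
  change _ = tenρ (tpow n d) M (eM b a) (snocE n d M.V m j)
  rw [pb_filter_last fun l => matOp M.V (Dk l (eM b a)), LinearMap.add_apply, map_add,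
    Pi.add_apply, pb_snoc_sum, pb_snoc_pt, pb_tenρ, add_comm]

theorem snoc_x (M : GMod n) {k : ℕ} (hk : k < d) (m : Idx (d + 1) n → M.V) (j : Fin n) :
    snocE n d M.V ((daha (d + 1) M).x k m) j = (daha d M).x k (snocE n d M.V m j) := by
  have h : (daha (d + 1) M).x k = xF M (Fin.castSucc ⟨k, hk⟩) := daha_x M (Fin.castSucc ⟨k, hk⟩)
  have h' : (daha d M).x k = xF M ⟨k, hk⟩ := daha_x M ⟨k, hk⟩
  rw [h, h', xF, xF, LinearMap.sum_apply, LinearMap.sum_apply, map_sum, Finset.sum_apply]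
  refine Finset.sum_congr rfl fun a _ => ?_
  rw [LinearMap.sum_apply, LinearMap.sum_apply, map_sum, Finset.sum_apply]
  refine Finset.sum_congr rfl fun b _ => ?_
  rw [End.mul_apply, End.mul_apply, pb_snoc_cast,
    pb_filter fun l => matOp M.V (Dk l (eM b a)), LinearMap.add_apply, LinearMap.add_apply, map_add,
    Pi.add_apply, pb_snoc_sum, pb_snoc_pt]

theorem snoc_s (M : GMod n) {r : ℕ} (hr : r + 1 < d) (m : Idx (d + 1) n → M.V) (j : Fin n) :
    snocE n d M.V ((daha (d + 1) M).s r m) j = (daha d M).s r (snocE n d M.V m j) := by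
  rw [daha_s M hr, daha_s M (Nat.lt_succ_of_lt hr)]
  funext i
  rw [pb_snocE_apply, sP_apply, sP_apply, pb_snocE_apply]
  congr 1
  funext k
  have e : (Equiv.swap (⟨r, by omega⟩ : Fin (d + 1)) ⟨r + 1, Nat.lt_succ_of_lt hr⟩) =
      Equiv.swap (Fin.castSucc ⟨r, by omega⟩) (Fin.castSucc ⟨r + 1, hr⟩) := rfl
  rw [e]
  cases k using Fin.lastCases with
  | last =>
    rw [Equiv.swap_apply_of_ne_of_ne (Fin.castSucc_lt_last _).ne' (Fin.castSucc_lt_last _).ne',
      Fin.snoc_last, Fin.snoc_last]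
  | cast k =>
    rw [(Fin.castSucc_injective d).swap_apply, Fin.snoc_castSucc, Fin.snoc_castSucc]

/-- The inclusion of `V ⊗ N` in the next tensor power. -/
def toF (M : GMod n) (N : Submodule ℂ (Idx d n → M.V)) :
    (Fin n → N) →ₗ[ℂ] (Idx (d + 1) n → M.V) :=
  (snocE n d M.V).symm.toLinearMap.comp (ptOp (Fin n) N.subtype)

theorem pb_snoc_toF (M : GMod n) (N : Submodule ℂ (Idx d n → M.V)) (m : Fin n → N) :
    snocE n d M.V (toF M N m) = ptOp (Fin n) N.subtype m :=
  (snocE n d M.V).apply_symm_apply _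

theorem pb_snoc_toF' (M : GMod n) (N : Submodule ℂ (Idx d n → M.V)) (m : Fin n → N) (j : Fin n) :
    snocE n d M.V (toF M N m) j = m j := by
  rw [pb_snoc_toF]; rfl

theorem pb_toF_mem (M : GMod n) (N : Submodule ℂ (Idx d n → M.V)) (m : Fin n → N) (j : Fin n) :
    snocE n d M.V (toF M N m) j ∈ N := by
  rw [pb_snoc_toF']; exact (m j).2

theorem pb_toF_surj (M : GMod n) {N : Submodule ℂ (Idx d n → M.V)} {m : Idx (d + 1) n → M.V}
    (h : ∀ j, snocE n d M.V m j ∈ N) : toF M N (fun j => ⟨snocE n d M.V m j, h j⟩) = m := by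
  apply (snocE n d M.V).injective
  rw [pb_snoc_toF]
  rfl

theorem toF_injective (M : GMod n) (N : Submodule ℂ (Idx d n → M.V)) :
    Function.Injective (toF M N) :=
  (snocE n d M.V).symm.injective.comp (ptOp_injective N.injective_subtype)

theorem toF_hom (M : GMod n) {N : Submodule ℂ (Idx d n → M.V)} (hN : (Ten (tpow n d) M).Stable N) :
    (Ten (std n) ((Ten (tpow n d) M).sub N hN)).IsHom (Ten (tpow n (d + 1)) M) (toF M N) :=
  (snoc_hom M).symm.comp (ptOp_hom (std n) (isHom_subtype (Ten (tpow n d) M) N hN))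

theorem toF_Om (M : GMod n) {N : Submodule ℂ (Idx d n → M.V)} (hN : (Ten (tpow n d) M).Stable N)
    (m : Fin n → N) :
    toF M N (Om (std n) ((Ten (tpow n d) M).sub N hN) m) = (daha (d + 1) M).x d (toF M N m) := by
  apply (snocE n d M.V).injective
  rw [snoc_x_last, pb_snoc_toF, pb_snoc_toF]
  exact ptOp_Om (std n) (isHom_subtype (Ten (tpow n d) M) N hN) m

/-- The translation `Fc` of a submodule, inside the next tensor power. -/
noncomputable def extS (M : GMod n) (N : Submodule ℂ (Idx d n → M.V))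
    (hN : (Ten (tpow n d) M).Stable N) (c : ℤ) : Submodule ℂ (Idx (d + 1) n → M.V) :=
  (genOm (std n) ((Ten (tpow n d) M).sub N hN) c).map (toF M N)

section Gen

variable {X Y : Type} [AddCommGroup X] [Module ℂ X] [AddCommGroup Y] [Module ℂ Y]

theorem pb_pow_sub {f : X →ₗ[ℂ] Y} {S : End ℂ X} {T : End ℂ Y} (h : ∀ v, f (S v) = T (f v))
    (c : ℂ) (N : ℕ) (v : X) :
    f (((S - c • (1 : End ℂ X)) ^ N) v) = ((T - c • (1 : End ℂ Y)) ^ N) (f v) :=
  trans_pow_semi (fun w => by
    simp only [LinearMap.sub_apply, LinearMap.smul_apply, End.one_apply, map_sub, map_smul, h])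
    N v

theorem pb_gen_map {f : X →ₗ[ℂ] Y} {S : End ℂ X} {T : End ℂ Y} (h : ∀ v, f (S v) = T (f v))
    {c : ℂ} {v : X} (hv : v ∈ S.maxGenEigenspace c) : f v ∈ T.maxGenEigenspace c := by
  obtain ⟨k, hk⟩ := (End.mem_maxGenEigenspace _ _ _).1 hv
  exact (End.mem_maxGenEigenspace _ _ _).2 ⟨k, by rw [← pb_pow_sub h, hk, map_zero]⟩

theorem pb_gen_inj {f : X →ₗ[ℂ] Y} {S : End ℂ X} {T : End ℂ Y} (h : ∀ v, f (S v) = T (f v))
    (hf : Function.Injective f) {c : ℂ} {v : X} (hv : f v ∈ T.maxGenEigenspace c) :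
    v ∈ S.maxGenEigenspace c := by
  obtain ⟨k, hk⟩ := (End.mem_maxGenEigenspace _ _ _).1 hv
  refine (End.mem_maxGenEigenspace _ _ _).2 ⟨k, hf ?_⟩
  rw [pb_pow_sub h, hk, map_zero]

end Gen

theorem mem_extS (M : GMod n) {N : Submodule ℂ (Idx d n → M.V)} (hN : (Ten (tpow n d) M).Stable N)
    (c : ℤ) (m : Idx (d + 1) n → M.V) : m ∈ extS M N hN c ↔ (∀ j, snocE n d M.V m j ∈ N) ∧
      m ∈ ((daha (d + 1) M).x d).maxGenEigenspace ((c : ℤ) : ℂ) := by
  constructor
  · rintro ⟨v, hv, rfl⟩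
    exact ⟨pb_toF_mem M N v, pb_gen_map (toF_Om M hN) hv⟩
  · rintro ⟨h1, h2⟩
    refine ⟨_, ?_, pb_toF_surj M h1⟩
    refine pb_gen_inj (toF_Om M hN) (toF_injective M N) ?_
    rwa [pb_toF_surj M h1]

theorem extS_stable (M : GMod n) {N : Submodule ℂ (Idx d n → M.V)}
    (hN : (Ten (tpow n d) M).Stable N) (c : ℤ) : (Ten (tpow n (d + 1)) M).Stable (extS M N hN c) :=
  (toF_hom M hN).stable_map (genOm_stable _ _ _)

theorem extS_iso (M : GMod n) {N : Submodule ℂ (Idx d n → M.V)} (hN : (Ten (tpow n d) M).Stable N)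
    (c : ℤ) : (Fc ((Ten (tpow n d) M).sub N hN) c).Iso
      ((Ten (tpow n (d + 1)) M).sub (extS M N hN c) (extS_stable M hN c)) :=
  ⟨Submodule.equivMapOfInjective (toF M N) (toF_injective M N) _,
    fun A v => Subtype.ext (toF_hom M hN A v.1)⟩

/-- The last `x` keeps all components in a submodule. -/
theorem pb_x_pow_mem (M : GMod n) {N : Submodule ℂ (Idx d n → M.V)}
    (hN : (Ten (tpow n d) M).Stable N) (c : ℂ) (k : ℕ) {m : Idx (d + 1) n → M.V}
    (h : ∀ j, snocE n d M.V m j ∈ N) (j : Fin n) :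
    snocE n d M.V ((((daha (d + 1) M).x d - c • 1) ^ k) m) j ∈ N := by
  rw [← pb_toF_surj M h, ← pb_pow_sub (toF_Om M hN)]
  exact pb_toF_mem M N _ j

theorem extS_sup (M : GMod n) {N₁ N₂ : Submodule ℂ (Idx d n → M.V)}
    (h₁ : (Ten (tpow n d) M).Stable N₁) (h₂ : (Ten (tpow n d) M).Stable N₂) (hd : Disjoint N₁ N₂)
    (c : ℤ) : extS M (N₁ ⊔ N₂) (h₁.sup h₂) c = extS M N₁ h₁ c ⊔ extS M N₂ h₂ c ∧
      Disjoint (extS M N₁ h₁ c) (extS M N₂ h₂ c) := by
  have hz : ∀ m : Idx (d + 1) n → M.V, (∀ j, snocE n d M.V m j ∈ N₁) →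
      (∀ j, snocE n d M.V m j ∈ N₂) → m = 0 := fun m a b => by
    apply (snocE n d M.V).injective
    rw [map_zero]
    exact funext fun j => Submodule.disjoint_def.1 hd _ (a j) (b j)
  refine ⟨le_antisymm (fun m hm => ?_) (sup_le (fun m hm => ?_) fun m hm => ?_),
    Submodule.disjoint_def.2 fun m a b =>
      hz m ((mem_extS M h₁ c m).1 a).1 ((mem_extS M h₂ c m).1 b).1⟩
  · obtain ⟨e1, e2⟩ := (mem_extS M _ c m).1 hm
    choose u hu w hw huw using fun j => Submodule.mem_sup.1 (e1 j)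
    have a1 : ∀ j, snocE n d M.V ((snocE n d M.V).symm u) j ∈ N₁ := fun j => by
      rw [LinearEquiv.apply_symm_apply]; exact hu j
    have a2 : ∀ j, snocE n d M.V ((snocE n d M.V).symm w) j ∈ N₂ := fun j => by
      rw [LinearEquiv.apply_symm_apply]; exact hw j
    have hm' : (snocE n d M.V).symm u + (snocE n d M.V).symm w = m := by
      rw [← map_add, LinearEquiv.symm_apply_eq]
      exact funext huw
    generalize (snocE n d M.V).symm u = u' at a1 hm'
    generalize (snocE n d M.V).symm w = w' at a2 hm'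
    subst hm'
    obtain ⟨k, hk⟩ := (End.mem_maxGenEigenspace _ _ _).1 e2
    rw [map_add] at hk
    have b1 := pb_x_pow_mem M h₁ (c : ℂ) k a1
    have b2 := pb_x_pow_mem M h₂ (c : ℂ) k a2
    have z1 : (((daha (d + 1) M).x d - (c : ℂ) • 1) ^ k) u' = 0 := by
      refine hz _ b1 fun j => ?_
      rw [eq_neg_of_add_eq_zero_left hk, map_neg]
      exact N₂.neg_mem (b2 j)
    rw [z1, zero_add] at hk
    exact Submodule.add_mem_sup
      ((mem_extS M h₁ c _).2 ⟨a1, (End.mem_maxGenEigenspace _ _ _).2 ⟨k, z1⟩⟩)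
      ((mem_extS M h₂ c _).2 ⟨a2, (End.mem_maxGenEigenspace _ _ _).2 ⟨k, hk⟩⟩)
  · obtain ⟨e1, e2⟩ := (mem_extS M h₁ c m).1 hm
    exact (mem_extS M _ c m).2 ⟨fun j => Submodule.mem_sup_left (e1 j), e2⟩
  · obtain ⟨e1, e2⟩ := (mem_extS M h₂ c m).1 hm
    exact (mem_extS M _ c m).2 ⟨fun j => Submodule.mem_sup_right (e1 j), e2⟩

theorem pb_snoc_pow (M : GMod n) {k : ℕ} (hk : k < d) (c : ℂ) (N : ℕ) (m : Idx (d + 1) n → M.V)
    (j : Fin n) : snocE n d M.V ((((daha (d + 1) M).x k - c • 1) ^ N) m) j =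
      (((daha d M).x k - c • 1) ^ N) (snocE n d M.V m j) :=
  pb_pow_sub (f := (LinearMap.proj j).comp (snocE n d M.V).toLinearMap)
    (fun v => snoc_x M hk v j) c N m

theorem pb_mem_G_succ (M : GMod n) (i : ℕ → ℤ) (m : Idx (d + 1) n → M.V) :
    m ∈ (daha (d + 1) M).G i ↔ (∀ j, snocE n d M.V m j ∈ (daha d M).G i) ∧
      m ∈ ((daha (d + 1) M).x d).maxGenEigenspace ((i d : ℤ) : ℂ) := by
  rw [DAHA.mem_G, End.mem_maxGenEigenspace]
  simp only [DAHA.mem_G]
  constructor
  · intro h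
    refine ⟨fun j k hk => ?_, h d (Nat.lt_succ_self d)⟩
    obtain ⟨N, hN⟩ := h k (Nat.lt_succ_of_lt hk)
    exact ⟨N, by rw [← pb_snoc_pow M hk, hN, map_zero, Pi.zero_apply]⟩
  · rintro ⟨h1, h2⟩ k hk
    rcases Nat.lt_succ_iff_lt_or_eq.1 hk with hk' | rfl
    · choose N hN using fun j => h1 j k hk'
      refine ⟨Finset.univ.sup N, (snocE n d M.V).injective ?_⟩
      rw [map_zero]
      funext j
      rw [pb_snoc_pow M hk']
      exact trans_pow_le (hN j) (Finset.le_sup (Finset.mem_univ j))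
    · exact h2

theorem G_succ (M : GMod n) (i : ℕ → ℤ) :
    (daha (d + 1) M).G i = extS M ((daha d M).G i) (G_stable M i) (i d) := by
  ext m
  rw [mem_extS, pb_mem_G_succ]

theorem NN_succ (M : GMod n) (i : ℕ → ℤ) {J : List ℕ} (hJ : ∀ r ∈ J, r + 1 < d) :
    (daha (d + 1) M).NN i J = extS M ((daha d M).NN i J) (NN_stable M i hJ) (i d) := by
  ext m
  rw [mem_extS, DAHA.mem_NN, pb_mem_G_succ]
  simp only [DAHA.mem_NN]
  constructor
  · rintro ⟨⟨h1, h2⟩, h3⟩
    refine ⟨fun j => ⟨h1 j, fun r hr => ?_⟩, h2⟩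
    rw [← snoc_s M (hJ r hr), h3 r hr]
  · rintro ⟨h1, h2⟩
    refine ⟨⟨fun j => (h1 j).1, h2⟩, fun r hr => (snocE n d M.V).injective (funext fun j => ?_)⟩
    rw [snoc_s M (hJ r hr), (h1 j).2 r hr]

theorem pb_iso_congr {M : GMod n} {S T : Submodule ℂ M.V} (hS : M.Stable S) (hT : M.Stable T)
    (h : S = T) : (M.sub S hS).Iso (M.sub T hT) := by
  subst h
  exact Iso.refl _

theorem pb_G_zero (M : GMod n) (i : ℕ → ℤ) (m : Idx 0 n → M.V) : m ∈ (daha 0 M).G i :=
  (DAHA.mem_G _ i m).2 fun k hk => absurd hk (Nat.not_lt_zero k)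

theorem G_iso (M : GMod n) (i : ℕ → ℤ) (d : ℕ) :
    ((Ten (tpow n d) M).sub ((daha d M).G i) (G_stable M i)).Iso (Fit M (revL i d)) := by
  induction d with
  | zero =>
    refine iso_of_bijective (f := (LinearMap.proj (default : Idx 0 n)).comp
      ((daha 0 M).G i).subtype) (fun A v => ?_) ⟨fun v w h => ?_, fun y => ?_⟩
    · change tenρ (tpow n 0) M A v.1 default = M.ρ A (v.1 default)
      rw [pb_tenρ, Finset.univ_eq_empty, Finset.sum_empty, LinearMap.zero_apply, zero_add,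
        ptOp_apply]
    · refine Subtype.ext (funext fun j => ?_)
      rw [Subsingleton.elim j default]
      exact h
    · exact ⟨⟨fun _ => y, pb_G_zero M i _⟩, rfl⟩
  | succ d ih =>
    exact (pb_iso_congr _ _ (G_succ M i)).trans
      ((extS_iso M (G_stable M i) (i d)).symm.trans (iso_Fc ih (i d)))

theorem blk_G {M : GMod n} (h : M.Blk B) (i : ℕ → ℤ) (d : ℕ) :
    ((Ten (tpow n d) M).sub ((daha d M).G i) (G_stable M i)).Blk (walk B i d) := by
  have h1 := blk_Fit h (revL i d)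
  rw [moves_revL] at h1
  exact Adm.iso h1 (G_iso M i d).symm

theorem blk_NN {M : GMod n} (h : M.Blk B) (i : ℕ → ℤ) {J : List ℕ} (hJ : ∀ r ∈ J, r + 1 < d) :
    ((Ten (tpow n d) M).sub ((daha d M).NN i J) (NN_stable M i hJ)).Blk (walk B i d) := by
  have hle : (daha d M).NN i J ≤ (daha d M).G i := inf_le_left
  exact Adm.of_inj (f := Submodule.inclusion hle) (fun _ _ => rfl)
    (Submodule.inclusion_injective hle) (blk_G h i d)

theorem G_eq_bot {M : GMod n} (h : M.Blk B) {i : ℕ → ℤ} (hu : Unreal B d i) :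
    (daha d M).G i = ⊥ := by
  have base : ∀ (d : ℕ) (c : ℤ), walk B i d c < 0 → (daha d M).G i = ⊥ := fun d c hc =>
    Submodule.subsingleton_iff_eq_bot.1 (Blk.subsingleton_of_neg (blk_G h i d) hc)
  induction d with
  | zero =>
    obtain ⟨k, hk, c, hc⟩ := hu
    obtain rfl := Nat.le_zero.1 hk
    exact base 0 c hc
  | succ d ih =>
    obtain ⟨k, hk, c, hc⟩ := hu
    rcases Nat.le_succ_iff.1 hk with hk' | rfl
    · refine eq_bot_iff.2 fun m hm => ?_
      have h1 := ((pb_mem_G_succ M i m).1 hm).1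
      rw [ih ⟨k, hk', c, hc⟩] at h1
      refine (Submodule.mem_bot ℂ).2 ((snocE n d M.V).injective ?_)
      rw [map_zero]
      exact funext fun j => h1 j
    · exact base _ c hc

theorem daha_integral {M : GMod n} (h : M.Blk B) (d : ℕ) : (daha d M).Integral := by
  induction d with
  | zero =>
    exact eq_top_iff.2 fun m _ => Submodule.mem_iSup_of_mem (fun _ => 0) (pb_G_zero M _ m)
  | succ d ih =>
    set S := ⨆ i : ℕ → ℤ, (daha (d + 1) M).G i with hS
    have h1 : ∀ (i : ℕ → ℤ) (v : Fin n → (daha d M).G i), toF M ((daha d M).G i) v ∈ S := by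
      intro i v
      have h2 : (⊤ : Submodule ℂ (Fin n → (daha d M).G i)) ≤ S.comap (toF M ((daha d M).G i)) := by
        rw [← iSup_genF (blk_G h i d)]
        refine iSup_le fun c w hw => ?_
        refine Submodule.mem_iSup_of_mem (Function.update i d c) ?_
        have e : (daha d M).G (Function.update i d c) = (daha d M).G i :=
          DAHA.G_congr _ fun k hk => Function.update_of_ne hk.ne _ _
        rw [pb_mem_G_succ, e, Function.update_self]
        exact (mem_extS M (G_stable M i) c _).1 ⟨w, hw, rfl⟩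
      exact h2 Submodule.mem_top
    have h3 : ∀ (j : Fin n) (u : Idx d n → M.V),
        (snocE n d M.V).symm (Pi.single j u) ∈ S := by
      intro j u
      have h4 : (⊤ : Submodule ℂ (Idx d n → M.V)) ≤ S.comap
          ((snocE n d M.V).symm.toLinearMap.comp
            (LinearMap.single ℂ (fun _ : Fin n => Idx d n → M.V) j)) := by
        rw [← ih]
        refine iSup_le fun i w hw => ?_
        have h5 := h1 i (Pi.single j ⟨w, hw⟩)
        have e : toF M ((daha d M).G i) (Pi.single j ⟨w, hw⟩) =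
            (snocE n d M.V).symm (Pi.single j w) := by
          refine congrArg (snocE n d M.V).symm (funext fun l => ?_)
          rw [ptOp_apply]
          by_cases hl : l = j
          · subst hl
            rw [Pi.single_eq_same, Pi.single_eq_same]
            rfl
          · rw [Pi.single_eq_of_ne hl, Pi.single_eq_of_ne hl, map_zero]
        rw [e] at h5
        exact h5
      exact h4 Submodule.mem_top
    refine eq_top_iff.2 fun m _ => ?_
    rw [← (snocE n d M.V).symm_apply_apply m, ← Finset.univ_sum_single (snocE n d M.V m), map_sum]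
    exact S.sum_mem fun j _ => h3 j _

theorem e_hom {M : GMod n} (h : M.Blk B) (i : ℕ → ℤ) :
    (Ten (tpow n d) M).IsHom (Ten (tpow n d) M) ((daha d M).e i) := fun A m =>
  ((daha d M).map_e (daha d M) (daha_integral h d) (daha_integral h d) (tenρ (tpow n d) M A)
    (fun _ hk v => (daha_x_hom M hk A v).symm) i m).symm

theorem pJ_hom {M : GMod n} (h : M.Blk B) (i : ℕ → ℤ) {J : List ℕ} (hJ : ∀ r ∈ J, r + 1 < d) :
    (Ten (tpow n d) M).IsHom (Ten (tpow n d) M) ((daha d M).pJ i J) := fun A m =>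
  ((daha d M).map_pJ (daha d M) (daha_integral h d) (daha_integral h d) (tenρ (tpow n d) M A)
    (fun _ hk v => (daha_x_hom M hk A v).symm) (fun _ hr v => (daha_s_hom M hr A v).symm) hJ m).symm

end Pool.Agent.KM
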