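import Pool.Agent.Lib.MP_515a76_al.CellA
import Pool.Agent.Lib.MP_515a76_al.GPowB

/-! The idempotent attached to a layer of the Verma filtration. -/

namespace Pool.Agent.KM

open Module GMod

variable {n d : ℕ}

namespace Cell1

theorem map_pow_sub {X Y : Type} [AddCommGroup X] [Module ℂ X] [AddCommGroup Y] [Module ℂ Y]
    (f : X →ₗ[ℂ] Y) {S : End ℂ X} {T : End ℂ Y} (hf : ∀ m, f (S m) = T (f m)) (c : ℂ) (N : ℕ)
    (m : X) : f (((S - c • (1 : End ℂ X)) ^ N) m) = ((T - c • (1 : End ℂ Y)) ^ N) (f m) := by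
  induction N generalizing m with
  | zero => rfl
  | succ N ih =>
    rw [pow_succ, pow_succ, End.mul_apply, End.mul_apply, ih]
    simp only [LinearMap.sub_apply, LinearMap.smul_apply, End.one_apply, map_sub, map_smul, hf]

theorem iOf_fin (ρ : Wt n) (j : Idx d n) (k : Fin d) : iOf ρ j k = res ρ j k := by
  simp [iOf, k.2]

theorem lex_add_left (c a b : Wt n) : toLex (c + a) < toLex (c + b) ↔ toLex a < toLex b := by
  rw [add_comm c a, add_comm c b, lex_add_right]

variable {M : GMod n} {ρ : Wt n} {v : M.V}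

theorem cl_x (h : M.IsVerma ρ v) (k : Fin d) (m : Idx d n → M.V) :
    cl (tpow n d) h ((daha d M).x k m) = Xb ρ k (cl (tpow n d) h m) := by
  rw [daha_x, cl_xF]

theorem cl_mem_gen (h : M.IsVerma ρ v) {i : ℕ → ℤ} {m : Idx d n → M.V}
    (hm : m ∈ (daha d M).G i) (k : Fin d) : ∃ N : ℕ,
      ((Xb ρ k - ((i k : ℤ) : ℂ) • (1 : End ℂ (Idx d n → ℂ))) ^ N) (cl (tpow n d) h m) = 0 := by
  obtain ⟨N, hN⟩ := ((daha d M).mem_G i m).1 hm k k.2
  exact ⟨N, by rw [← map_pow_sub (cl (tpow n d) h) (cl_x h k), hN, map_zero]⟩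

theorem e_single_W (h : M.IsVerma ρ v) (i : ℕ → ℤ) (j : Idx d n) :
    (daha d M).e i (Pi.single j v) ∈ (Ten (tpow n d) M).W (ρ + (tpow n d).wt j) :=
  (e_hom h.blk i).map_W (single_mem_W (tpow n d) h.1.1 j)

theorem cl_e_supp (h : M.IsVerma ρ v) (i : ℕ → ℤ) {j j' : Idx d n}
    (hj : cl (tpow n d) h ((daha d M).e i (Pi.single j v)) j' ≠ 0) :
    (tpow n d).wt j' = (tpow n d).wt j :=
  add_left_cancel (cl_supp (tpow n d) h (e_single_W h i j) hj)

theorem cl_e_single (h : M.IsVerma ρ v) (hρ : StrictAnti ρ) {j₀ : Idx d n} (hj : Monotone j₀)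
    {j : Idx d n} (hle : toLex ((tpow n d).wt j) ≤ toLex ((tpow n d).wt j₀)) {j' : Idx d n}
    (hne : j' ≠ j₀) : cl (tpow n d) h ((daha d M).e (iOf ρ j₀) (Pi.single j v)) j' = 0 := by
  have key := gen_eq_smul hρ hj (z := cl (tpow n d) h ((daha d M).e (iOf ρ j₀) (Pi.single j v)))
    (fun j' h' => by rw [cl_e_supp h _ h']; exact hle)
    (fun k => by
      have := cl_mem_gen h ((daha d M).e_mem (iOf ρ j₀) (Pi.single j v)) k
      rwa [iOf_fin] at this)
  rw [key, Pi.smul_apply, Pi.single_eq_of_ne hne, smul_zero]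

theorem e_e (h : M.IsVerma ρ v) (i : ℕ → ℤ) (m : Idx d n → M.V) :
    (daha d M).e i ((daha d M).e i m) = (daha d M).e i m :=
  (daha d M).e_of_mem (daha_integral h.blk d) ((daha d M).e_mem i m)

theorem e_filS (h : M.IsVerma ρ v) (hρ : StrictAnti ρ) {j₀ : Idx d n} (hj : Monotone j₀)
    {i : Idx d n} (hlt : toLex ((tpow n d).wt i) < toLex ((tpow n d).wt j₀)) {m : Idx d n → M.V}
    (hm : m ∈ Fil (tpow n d) h (ρ + (tpow n d).wt i)) :
    (daha d M).e (iOf ρ j₀) m ∈ FilS (tpow n d) h (ρ + (tpow n d).wt i) := by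
  obtain ⟨Y, y, hy⟩ := exists_verma (ρ + (tpow n d).wt i)
  refine mem_FilS (tpow n d) h hy (endo_Fil (tpow n d) h (e_hom h.blk _) hm) fun i' hi' => ?_
  have hw : (tpow n d).wt i' = (tpow n d).wt i := add_left_cancel hi'
  rw [lay_endo (tpow n d) h (e_hom h.blk _) Y y (i := i') (by rw [hi']; exact hm)]
  refine Finset.sum_eq_zero fun i'' hi'' => ?_
  have hw' : (tpow n d).wt i'' = (tpow n d).wt i' := (Finset.mem_filter.1 hi'').2
  rw [cl_e_single h hρ hj (by rw [hw', hw]; exact hlt.le), zero_smul]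
  rintro rfl
  rw [hw] at hlt
  exact lt_irrefl _ hlt

theorem e_fil (h : M.IsVerma ρ v) (hρ : StrictAnti ρ) {j₀ : Idx d n} (hj : Monotone j₀)
    (m : Idx d n → M.V) :
    (daha d M).e (iOf ρ j₀) m ∈ Fil (tpow n d) h (ρ + (tpow n d).wt j₀) := by
  have wf : WellFounded fun x y : Idx d n =>
      toLex (ρ + (tpow n d).wt y) < toLex (ρ + (tpow n d).wt x) := by
    have : IsTrans (Idx d n) fun x y : Idx d n =>
        toLex (ρ + (tpow n d).wt y) < toLex (ρ + (tpow n d).wt x) :=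
      ⟨fun _ _ _ h1 h2 => h2.trans h1⟩
    have : Std.Irrefl fun x y : Idx d n =>
        toLex (ρ + (tpow n d).wt y) < toLex (ρ + (tpow n d).wt x) := ⟨fun _ => lt_irrefl _⟩
    exact Finite.wellFounded_of_trans_of_irrefl _
  have key : ∀ i : Idx d n, (daha d M).e (iOf ρ j₀) m ∈ Fil (tpow n d) h (ρ + (tpow n d).wt i) →
      (daha d M).e (iOf ρ j₀) m ∈ Fil (tpow n d) h (ρ + (tpow n d).wt j₀) := by
    intro i
    induction i using wf.induction with
    | _ i ih =>
      intro hm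
      rcases le_or_gt (toLex (ρ + (tpow n d).wt j₀)) (toLex (ρ + (tpow n d).wt i)) with h1 | h1
      · exact Fil_anti (tpow n d) h h1 hm
      · have h2 := e_filS h hρ hj ((lex_add_left _ _ _).1 h1) hm
        rw [e_e h] at h2
        rcases filS_cases (tpow n d) h (ρ + (tpow n d).wt i) with h3 | ⟨i', h3, h4⟩
        · rw [h3, Submodule.mem_bot] at h2
          rw [h2]
          exact Submodule.zero_mem _
        · rw [h4] at h2
          exact ih i' h3 h2
  have : Nonempty (Idx d n) := ⟨j₀⟩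
  obtain ⟨i, hi⟩ := fil_top (tpow n d) h
  exact key i (by rw [hi]; trivial)

theorem cl_surj (h : M.IsVerma ρ v) : Function.Surjective (cl (tpow n d) h) := by
  intro z
  refine ⟨∑ j, z j • (Pi.single j v : Idx d n → M.V), ?_⟩
  rw [map_sum]
  simp only [map_smul, cl_single]
  funext j
  simp [Finset.sum_apply, Pi.single_apply]

theorem Xb_comm (h : M.IsVerma ρ v) (k l : Fin d) : Commute (Xb ρ k) (Xb ρ l) := by
  refine LinearMap.ext fun z => ?_
  obtain ⟨m, rfl⟩ := cl_surj h z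
  rw [End.mul_apply, End.mul_apply, ← cl_x h, ← cl_x h, ← cl_x h, ← cl_x h, ← End.mul_apply,
    ← End.mul_apply, (daha d M).xx k l k.2 l.2]

theorem cl_e_self (h : M.IsVerma ρ v) {j₀ : Idx d n} (hj : Monotone j₀) :
    cl (tpow n d) h ((daha d M).e (iOf ρ j₀) (Pi.single j₀ v)) j₀ = 1 := by
  have hind : iSupIndep fun χ : Fin d → ℂ => ⨅ k : Fin d, (Xb ρ k).maxGenEigenspace (χ k) :=
    End.independent_iInf_maxGenEigenspace_of_forall_mapsTo (fun k : Fin d => Xb ρ k)
      fun k l c => End.mapsTo_maxGenEigenspace_of_comm (Xb_comm h l k) c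
  have hdis := hind fun k : Fin d => ((iOf ρ j₀ k : ℤ) : ℂ)
  have hG : ∀ (i : ℕ → ℤ) (m : Idx d n → M.V), m ∈ (daha d M).G i →
      cl (tpow n d) h m ∈ ⨅ k : Fin d, (Xb ρ k).maxGenEigenspace ((i k : ℤ) : ℂ) := by
    intro i m hm
    rw [Submodule.mem_iInf]
    intro k
    rw [End.mem_maxGenEigenspace]
    exact cl_mem_gen h hm k
  have h1 : (daha d M).Gc (iOf ρ j₀) ≤ (⨆ χ : Fin d → ℂ,
      ⨆ _ : χ ≠ fun k : Fin d => ((iOf ρ j₀ k : ℤ) : ℂ),
        ⨅ k : Fin d, (Xb ρ k).maxGenEigenspace (χ k)).comap (cl (tpow n d) h) := by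
    refine iSup_le fun j m hm => ?_
    obtain ⟨j, k, hk, hne⟩ := j
    refine Submodule.mem_iSup_of_mem (fun k : Fin d => ((j k : ℤ) : ℂ))
      (Submodule.mem_iSup_of_mem (fun e => hne ?_) (hG j m hm))
    exact_mod_cast congrFun e ⟨k, hk⟩
  have h2 := h1 ((daha d M).sub_e_mem (daha_integral h.blk d) (iOf ρ j₀) (Pi.single j₀ v))
  have h3 : cl (tpow n d) h (Pi.single j₀ v - (daha d M).e (iOf ρ j₀) (Pi.single j₀ v)) ∈
      ⨅ k : Fin d, (Xb ρ k).maxGenEigenspace ((iOf ρ j₀ k : ℤ) : ℂ) := by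
    rw [map_sub]
    refine Submodule.sub_mem _ ?_ (hG _ _ ((daha d M).e_mem _ _))
    rw [cl_single, Submodule.mem_iInf]
    intro k
    rw [End.mem_maxGenEigenspace]
    refine ⟨1, ?_⟩
    have e1 : Xb ρ k (Pi.single j₀ 1) = XbVec ρ k j₀ := by
      rw [Xb_apply, Finset.sum_eq_single j₀]
      · simp
      · intro b _ hb
        rw [Pi.single_eq_of_ne hb, zero_smul]
      · simp
    rw [pow_one, LinearMap.sub_apply, e1, XbVec_mono ρ hj, iOf_fin]
    simp
  have h4 := (Submodule.disjoint_def.1 hdis) _ h3 h2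
  have h5 := congrFun h4 j₀
  rw [map_sub, cl_single, Pi.sub_apply, Pi.single_eq_same, Pi.zero_apply] at h5
  exact (sub_eq_zero.1 h5).symm

theorem cl_adjR_pow {Y : GMod n} {η : Wt n} (hv : v ∈ M.W ρ) {y : Y.V} (hy : Y.IsVerma η y)
    (k : Fin d) (c : ℂ) (N : ℕ) {g : (Idx d n → M.V) →ₗ[ℂ] Y.V}
    (hg : (Ten (tpow n d) M).IsHom Y g) :
    cl (tpow n d).dual hy (adjR (g.comp ((xF M k - c • (1 : End ℂ (Idx d n → M.V))) ^ N)) v) =
      ((Xb ρ k - c • (1 : End ℂ (Idx d n → ℂ))) ^ N) (cl (tpow n d).dual hy (adjR g v)) := by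
  induction N generalizing g with
  | zero => rfl
  | succ N ih =>
    have hx : (Ten (tpow n d) M).IsHom (Ten (tpow n d) M)
        (xF M k - c • (1 : End ℂ (Idx d n → M.V))) :=
      (xF_hom M k).sub ((isHom_id _).smul c)
    have e1 : g.comp ((xF M k - c • (1 : End ℂ (Idx d n → M.V))) ^ (N + 1)) =
        (g.comp (xF M k - c • (1 : End ℂ (Idx d n → M.V)))).comp
          ((xF M k - c • (1 : End ℂ (Idx d n → M.V))) ^ N) := by
      rw [pow_succ']
      rfl
    have e2 : adjR (g.comp (xF M k - c • (1 : End ℂ (Idx d n → M.V)))) v =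
        adjR (g.comp (xF M k)) v - c • adjR g v := by
      funext i
      simp only [adjR_apply, LinearMap.comp_apply, LinearMap.sub_apply, LinearMap.smul_apply,
        End.one_apply, map_sub, map_smul, Pi.sub_apply, Pi.smul_apply]
    rw [e1, ih (hg.comp hx), e2, map_sub, map_smul, cl_adjR_xF hv hy hg, pow_succ, End.mul_apply]
    rfl

end Cell1

open Cell1 in
theorem cell_layer {M Y : GMod n} {ρ : Wt n} {v : M.V} (h : M.IsVerma ρ v) (hρ : StrictAnti ρ)
    {j₀ : Idx d n} (hj : Monotone j₀) {y : Y.V} (hy : Y.IsVerma (ρ + (tpow n d).wt j₀) y) :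
    (∀ m, (daha d M).e (iOf ρ j₀) m ∈ Fil (tpow n d) h (ρ + (tpow n d).wt j₀)) ∧
    (∀ j, (tpow n d).wt j = (tpow n d).wt j₀ → j ≠ j₀ → ∀ m,
      lay (tpow n d) h Y y j ((daha d M).e (iOf ρ j₀) m) = 0) ∧
    ∃ c : ℂ, c ≠ 0 ∧ cl (tpow n d).dual hy
      (adjR ((lay (tpow n d) h Y y j₀).comp ((daha d M).e (iOf ρ j₀))) v) =
        c • Pi.single j₀ 1 := by
  have he := e_hom (d := d) h.blk (iOf ρ j₀)
  have hI := daha_integral h.blk d
  refine ⟨e_fil h hρ hj, fun j hw hne m => ?_, ?_⟩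
  · rw [← e_e h, lay_endo (tpow n d) h he Y y (i := j) (by rw [hw]; exact e_fil h hρ hj m)]
    refine Finset.sum_eq_zero fun i' hi' => ?_
    have hw' : (tpow n d).wt i' = (tpow n d).wt j := (Finset.mem_filter.1 hi').2
    rw [cl_e_single h hρ hj (by rw [hw', hw]) hne, zero_smul]
  · have hg : (Ten (tpow n d) M).IsHom Y
        ((lay (tpow n d) h Y y j₀).comp ((daha d M).e (iOf ρ j₀))) := by
      intro A m
      rw [LinearMap.comp_apply, LinearMap.comp_apply, he A m,
        lay_hom (tpow n d) h hy.1 A (e_fil h hρ hj m)]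
    have hs := (adjR_hom (isDual_dual (tpow n d)) hg).map_sing h.1
    have key := gen_eq_smul hρ hj (z := cl (tpow n d).dual hy
      (adjR ((lay (tpow n d) h Y y j₀).comp ((daha d M).e (iOf ρ j₀))) v))
      (fun j hj' => by
        have h1 := cl_supp (tpow n d).dual hy hs.1 hj'
        have h2 : (tpow n d).wt j = (tpow n d).wt j₀ := by
          rw [(isDual_dual (tpow n d)).wt] at h1
          linear_combination -h1
        rw [h2])
      (fun k => by
        have h1 : ∀ j : Idx d n, ∃ N : ℕ,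
            (((daha d M).x k - ((iOf ρ j₀ k : ℤ) : ℂ) • (1 : End ℂ (Idx d n → M.V))) ^ N)
              ((daha d M).e (iOf ρ j₀) (Pi.single j v)) = 0 :=
          fun j => ((daha d M).mem_G _ _).1 ((daha d M).e_mem _ _) k k.2
        choose N hN using h1
        refine ⟨Finset.univ.sup N, ?_⟩
        rw [← cl_adjR_pow h.1.1 hy k _ _ hg]
        have h2 : adjR (((lay (tpow n d) h Y y j₀).comp ((daha d M).e (iOf ρ j₀))).comp
            ((xF M k - ((res ρ j₀ k : ℤ) : ℂ) • (1 : End ℂ (Idx d n → M.V))) ^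
              Finset.univ.sup N)) v = 0 := by
          funext j
          have h3 : ∀ m, (daha d M).e (iOf ρ j₀) ((daha d M).x k m) =
              (daha d M).x k ((daha d M).e (iOf ρ j₀) m) := fun m =>
            ((daha d M).map_e (daha d M) hI hI ((daha d M).x k) (fun l hl m => by
              rw [← End.mul_apply, ← End.mul_apply, (daha d M).xx k l k.2 hl]) _ m).symm
          obtain ⟨t, ht⟩ := Nat.exists_eq_add_of_le' (Finset.le_sup (f := N) (Finset.mem_univ j))
          rw [adjR_apply, LinearMap.comp_apply, LinearMap.comp_apply, ← daha_x, ← iOf_fin,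
            map_pow_sub _ h3, ht, pow_add, End.mul_apply, hN, map_zero, map_zero, Pi.zero_apply]
        rw [h2, map_zero])
    refine ⟨_, fun h0 => ?_, key⟩
    rw [h0, zero_smul] at key
    have h1 := congrFun (cl_inj (tpow n d).dual hy hρ hs key) j₀
    rw [adjR_apply, LinearMap.comp_apply, lay_W (tpow n d) h Y y (e_single_W h _ j₀),
      cl_e_self h hj, one_smul, Pi.zero_apply] at h1
    exact hy.ne_zero h1

end Pool.Agent.KM
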