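import Pool.Agent.Lib.MP_515a76_al.Cell1

/-! Every endomorphism of `V^{⊗ d} ⊗ Δ(ρ)` comes from the DAHA action. -/

namespace Pool.Agent.KM

open Module GMod

variable {n d : ℕ}

namespace Cell2

theorem isHom_sum {M N : GMod n} {κ : Type} (s : Finset κ) {f : κ → M.V →ₗ[ℂ] N.V}
    (hf : ∀ k ∈ s, M.IsHom N (f k)) : M.IsHom N (∑ k ∈ s, f k) :=
  Finset.sum_induction _ (M.IsHom N) (fun _ _ ha hb => ha.add hb) (isHom_zero M N) hf

theorem e_mem_H {X : Type} [AddCommGroup X] [Module ℂ X] (D : DAHA d X) (i : ℕ → ℤ) :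
    D.e i ∈ D.H := Algebra.subset_adjoin (Or.inr ⟨i, rfl⟩)

variable {M Y : GMod n} {ρ : Wt n} {v : M.V}

/-- A homomorphism to a Verma module is determined by the class of its adjoint. -/
theorem hom_eq_zero (h : M.IsVerma ρ v) (hρ : StrictAnti ρ) {η : Wt n} {y : Y.V}
    (hy : Y.IsVerma η y) {g : (Idx d n → M.V) →ₗ[ℂ] Y.V} (hg : (Ten (tpow n d) M).IsHom Y g)
    (h0 : cl (tpow n d).dual hy (adjR g v) = 0) : g = 0 := by
  have h1 := adjR_hom (isDual_dual (tpow n d)) hg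
  have h2 : adjR g v = 0 := cl_inj (tpow n d).dual hy hρ (h1.map_sing h.1) h0
  have h3 : adjR g = 0 := hom_ext_orb h.2.2 h1 (isHom_zero _ _) h2
  rw [← adjL_adjR g, h3]
  exact LinearMap.ext fun m => by simp [adjL_apply]

/-- Every homomorphism to the Verma module of a layer factors through a fixed one. -/
theorem hom_fact (h : M.IsVerma ρ v) (hρ : StrictAnti ρ) {j₀ : Idx d n} {y : Y.V}
    (hy : Y.IsVerma (ρ + (tpow n d).wt j₀) y) {g₀ g : (Idx d n → M.V) →ₗ[ℂ] Y.V}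
    (hg₀ : (Ten (tpow n d) M).IsHom Y g₀) {c : ℂ} (hc : c ≠ 0)
    (h0 : cl (tpow n d).dual hy (adjR g₀ v) = c • Pi.single j₀ 1)
    (hg : (Ten (tpow n d) M).IsHom Y g) :
    ∃ s ∈ (daha d M).H, (Ten (tpow n d) M).IsHom (Ten (tpow n d) M) s ∧ g = g₀.comp s := by
  classical
  set z := cl (tpow n d).dual hy (adjR g v) with hz
  have hsupp : ∀ j, z j ≠ 0 → (tpow n d).wt j₀ = (tpow n d).wt j := fun j hj => by
    have h1 := cl_supp (tpow n d).dual hy
      ((adjR_hom (isDual_dual (tpow n d)) hg).map_W h.1.1) hj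
    have h2 : (tpow n d).dual.wt j = -(tpow n d).wt j := rfl
    rw [h2, add_assoc, add_eq_left, add_neg_eq_zero] at h1
    exact h1
  have hw : ∀ j, ∃ w : Equiv.Perm (Fin d), z j ≠ 0 → j = fun k => j₀ (w k) := fun j => by
    by_cases hj : z j = 0
    · exact ⟨1, fun h1 => (h1 hj).elim⟩
    · obtain ⟨w, hw⟩ := exists_perm_of_wt (hsupp j hj)
      exact ⟨w, fun _ => hw⟩
  choose w hw using hw
  have hs : (Ten (tpow n d) M).IsHom (Ten (tpow n d) M)
      (∑ j : Idx d n, (z j / c) • sP M.V (w j)) :=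
    isHom_sum _ fun j _ => (sP_hom M (w j)).smul _
  refine ⟨∑ j : Idx d n, (z j / c) • sP M.V (w j),
    sum_mem fun j _ => Subalgebra.smul_mem _ (sP_mem_H M (w j)) _, hs, ?_⟩
  rw [← sub_eq_zero]
  refine hom_eq_zero h hρ hy (hg.sub (hg₀.comp hs)) ?_
  have e1 : adjR (g - g₀.comp (∑ j : Idx d n, (z j / c) • sP M.V (w j))) v =
      adjR g v - ∑ j : Idx d n, (z j / c) • adjR (g₀.comp (sP M.V (w j))) v := by
    funext i
    simp [adjR_apply, Finset.sum_apply]
  rw [e1, map_sub, map_sum, ← hz, sub_eq_zero]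
  conv_lhs => rw [← Finset.univ_sum_single z]
  refine Finset.sum_congr rfl fun j _ => ?_
  by_cases hj : z j = 0
  · simp [hj]
  · rw [map_smul, adjR_sP, cl_sP_dual, h0, map_smul, sP_single, smul_smul,
      div_mul_cancel₀ _ hc, Equiv.symm_symm, ← hw j hj, ← Pi.single_smul, smul_eq_mul, mul_one]

/-- One layer of an endomorphism is realised in the algebra. -/
theorem layer (h : M.IsVerma ρ v) (hρ : StrictAnti ρ) {j₀ : Idx d n} (hj : Monotone j₀) {y : Y.V}
    (hy : Y.IsVerma (ρ + (tpow n d).wt j₀) y) {j : Idx d n}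
    (hjj : (tpow n d).wt j = (tpow n d).wt j₀) {g : (Idx d n → M.V) →ₗ[ℂ] Y.V}
    (hg : (Ten (tpow n d) M).IsHom Y g) :
    ∃ t ∈ (daha d M).H, (Ten (tpow n d) M).IsHom (Ten (tpow n d) M) t ∧
      (∀ m, t m ∈ Fil (tpow n d) h (ρ + (tpow n d).wt j₀)) ∧
      ∀ j', (tpow n d).wt j' = (tpow n d).wt j₀ → ∀ m,
        lay (tpow n d) h Y y j' (t m) = if j' = j then g m else 0 := by
  classical
  obtain ⟨h1, h2, c, hc, h3⟩ := cell_layer h hρ hj hy
  have he := e_hom (d := d) h.blk (iOf ρ j₀)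
  have hg₀ : (Ten (tpow n d) M).IsHom Y
      ((lay (tpow n d) h Y y j₀).comp ((daha d M).e (iOf ρ j₀))) := fun A m => by
    rw [LinearMap.comp_apply, LinearMap.comp_apply, he A m]
    exact lay_hom (tpow n d) h hy.1 A (h1 m)
  obtain ⟨s, hs1, hs2, hs3⟩ := hom_fact h hρ hy hg₀ hc h3 hg
  obtain ⟨u, hu⟩ := exists_perm_of_wt hjj.symm
  refine ⟨(sP M.V u.symm).comp (((daha d M).e (iOf ρ j₀)).comp s),
    mul_mem (sP_mem_H M u.symm) (mul_mem (e_mem_H _ _) hs1),
    (sP_hom M u.symm).comp (he.comp hs2),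
    fun m => endo_Fil (tpow n d) h (sP_hom M u.symm) (h1 (s m)), fun j' hj' m => ?_⟩
  rw [LinearMap.comp_apply, LinearMap.comp_apply,
    lay_endo (tpow n d) h (sP_hom M u.symm) Y y (hj' ▸ h1 (s m)), Finset.sum_eq_single j₀]
  · rw [cl_sP, cl_single, sP_single, Equiv.symm_symm, ← hu, hs3, Pi.single_apply]
    split_ifs <;> simp
  · intro i hi hne
    rw [h2 i ((Finset.mem_filter.1 hi).2.trans hj') hne, smul_zero]
  · intro hn
    exact (hn (Finset.mem_filter.2 ⟨Finset.mem_univ _, hj'.symm⟩)).elim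

theorem step (h : M.IsVerma ρ v) (hρ : StrictAnti ρ) (j₁ : Idx d n)
    {ψ : End ℂ (Idx d n → M.V)} (hψ : (Ten (tpow n d) M).IsHom (Ten (tpow n d) M) ψ)
    (hr : ∀ m, ψ m ∈ Fil (tpow n d) h (ρ + (tpow n d).wt j₁)) :
    ∃ t ∈ (daha d M).H, (Ten (tpow n d) M).IsHom (Ten (tpow n d) M) t ∧
      ∀ m, (ψ - t) m ∈ FilS (tpow n d) h (ρ + (tpow n d).wt j₁) := by
  classical
  obtain ⟨j₀, hj, hw⟩ := exists_mono j₁
  rw [← hw] at hr ⊢
  obtain ⟨Y, y, hy⟩ := exists_verma (ρ + (tpow n d).wt j₀)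
  have key : ∀ j : Idx d n, ∃ t ∈ (daha d M).H, (Ten (tpow n d) M).IsHom (Ten (tpow n d) M) t ∧
      (∀ m, t m ∈ Fil (tpow n d) h (ρ + (tpow n d).wt j₀)) ∧
      ∀ j', (tpow n d).wt j' = (tpow n d).wt j₀ → ∀ m,
        lay (tpow n d) h Y y j' (t m) = if j' = j then lay (tpow n d) h Y y j (ψ m) else 0 := by
    intro j
    by_cases hjj : (tpow n d).wt j = (tpow n d).wt j₀
    · have hg : (Ten (tpow n d) M).IsHom Y ((lay (tpow n d) h Y y j).comp ψ) := fun A m => by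
        rw [LinearMap.comp_apply, LinearMap.comp_apply, hψ A m]
        exact lay_hom (tpow n d) h (hjj ▸ hy.1) A (hjj ▸ hr m)
      exact layer h hρ hj hy hjj hg
    · refine ⟨0, zero_mem _, isHom_zero _ _, fun m => zero_mem _, fun j' hj' m => ?_⟩
      rw [if_neg fun e : j' = j => hjj (e ▸ hj'), LinearMap.zero_apply, map_zero]
  choose t ht1 ht2 ht3 ht4 using key
  refine ⟨∑ j, t j, sum_mem fun j _ => ht1 j, isHom_sum _ fun j _ => ht2 j, fun m => ?_⟩
  rw [LinearMap.sub_apply, LinearMap.sum_apply]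
  refine mem_FilS (tpow n d) h hy (sub_mem (hr m) (sum_mem fun j _ => ht3 j m)) fun i hi => ?_
  have hi' := add_left_cancel hi
  rw [map_sub, map_sum, Finset.sum_congr rfl fun j _ => ht4 j i hi' m, Finset.sum_ite_eq,
    if_pos (Finset.mem_univ _), sub_self]

end Cell2

open Cell2

theorem cell {M : GMod n} {ρ : Wt n} {v : M.V} (h : M.IsVerma ρ v) (hρ : StrictAnti ρ)
    {ψ : End ℂ (Idx d n → M.V)} (hψ : (Ten (tpow n d) M).IsHom (Ten (tpow n d) M) ψ) :
    ψ ∈ (daha d M).H := by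
  classical
  have key : ∀ (N : ℕ) (j₁ : Idx d n), (Finset.univ.filter fun j : Idx d n =>
      toLex (ρ + (tpow n d).wt j₁) < toLex (ρ + (tpow n d).wt j)).card = N →
      ∀ ψ : End ℂ (Idx d n → M.V), (Ten (tpow n d) M).IsHom (Ten (tpow n d) M) ψ →
      (∀ m, ψ m ∈ Fil (tpow n d) h (ρ + (tpow n d).wt j₁)) → ψ ∈ (daha d M).H := by
    intro N
    induction N using Nat.strong_induction_on with
    | _ N ih =>
      intro j₁ hN ψ hψ hr
      obtain ⟨t, ht1, ht2, ht3⟩ := step h hρ j₁ hψ hr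
      have : ψ - t ∈ (daha d M).H := by
        rcases filS_cases (tpow n d) h (ρ + (tpow n d).wt j₁) with h0 | ⟨i, hi, h0⟩
        · have : ψ - t = 0 := LinearMap.ext fun m => by simpa [h0] using ht3 m
          rw [this]
          exact zero_mem _
        · refine ih _ ?_ i rfl _ (hψ.sub ht2) fun m => h0 ▸ ht3 m
          rw [← hN]
          refine Finset.card_lt_card ⟨fun j hj => ?_, fun hs => ?_⟩
          · exact Finset.mem_filter.2 ⟨Finset.mem_univ _, hi.trans (Finset.mem_filter.1 hj).2⟩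
          · exact lt_irrefl _
              (Finset.mem_filter.1 (hs (Finset.mem_filter.2 ⟨Finset.mem_univ i, hi⟩))).2
      simpa using add_mem this ht1
  rcases isEmpty_or_nonempty (Idx d n) with he | he
  · have : ψ = 0 := LinearMap.ext fun m => Subsingleton.elim _ _
    rw [this]
    exact zero_mem _
  · obtain ⟨i, hi⟩ := fil_top (tpow n d) h
    exact key _ i rfl ψ hψ fun m => hi ▸ Submodule.mem_top

end Pool.Agent.KM
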