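import Pool.Agent.Lib.MP_515a76_al.GelfA
import Pool.Agent.Lib.MP_515a76_al.GAdm

/-! Consequences of linkage. -/

namespace Pool.Agent.KM.GMod

open Module

variable {n : ℕ} {𝔅 𝔅' : Set (ℤ → ℤ)}

section Aux

variable {X Y : Type} [AddCommGroup X] [Module ℂ X] [AddCommGroup Y] [Module ℂ Y]

theorem gb_pow_nat {f : X →ₗ[ℂ] Y} {T : End ℂ X} {T' : End ℂ Y} (h : ∀ v, f (T v) = T' (f v))
    (c : ℂ) (N : ℕ) (v : X) :
    f (((T - c • (1 : End ℂ X)) ^ N) v) = ((T' - c • (1 : End ℂ Y)) ^ N) (f v) := by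
  induction N with
  | zero => rfl
  | succ N ih =>
    rw [pow_succ', pow_succ', End.mul_apply, End.mul_apply, ← ih]
    simp [h]

theorem gb_eig {T : End ℂ X} {w : X} (h0 : w ≠ 0) {χ c : ℂ} (hw : T w = χ • w) {N : ℕ}
    (hN : ((T - c • (1 : End ℂ X)) ^ N) w = 0) : c = χ := by
  have h : ∀ N : ℕ, ((T - c • (1 : End ℂ X)) ^ N) w = (χ - c) ^ N • w := fun N => by
    induction N with
    | zero => simp
    | succ N ih =>
      rw [pow_succ', End.mul_apply, ih, map_smul, pow_succ, mul_smul]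
      simp [hw, sub_smul]
  rw [h] at hN
  exact (sub_eq_zero.1 (eq_zero_of_pow_eq_zero ((smul_eq_zero.1 hN).resolve_right h0))).symm

theorem gb_map_gen {f : X →ₗ[ℂ] Y} {T : End ℂ X} {T' : End ℂ Y} (h : ∀ v, f (T v) = T' (f v))
    {c : ℂ} {v : X} (hv : v ∈ T.maxGenEigenspace c) : f v ∈ T'.maxGenEigenspace c := by
  obtain ⟨N, hN⟩ := (End.mem_maxGenEigenspace _ _ _).1 hv
  exact (End.mem_maxGenEigenspace _ _ _).2 ⟨N, by rw [← gb_pow_nat h, hN, map_zero]⟩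

/-- Generalised eigenvectors lift to generalised eigenvectors. -/
theorem gb_lift_gen {f : X →ₗ[ℂ] Y} {T : End ℂ X} {T' : End ℂ Y} (h : ∀ v, f (T v) = T' (f v))
    (hT : ⨆ c : ℂ, T.maxGenEigenspace c = ⊤) {c : ℂ} {m : X} (hm : f m ∈ T'.maxGenEigenspace c) :
    ∃ m' ∈ T.maxGenEigenspace c, f m' = f m := by
  have h1 : m ∈ T.maxGenEigenspace c ⊔ ⨆ (d : ℂ) (_ : d ≠ c), T.maxGenEigenspace d := by
    rw [← iSup_split_single, hT]
    trivial
  obtain ⟨m₁, hm₁, m₂, hm₂, rfl⟩ := Submodule.mem_sup.1 h1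
  have h2 : (⨆ (d : ℂ) (_ : d ≠ c), T.maxGenEigenspace d) ≤
      (⨆ (d : ℂ) (_ : d ≠ c), T'.maxGenEigenspace d).comap f :=
    iSup₂_le fun d hd v hv => Submodule.mem_iSup_of_mem d
      (Submodule.mem_iSup_of_mem hd (gb_map_gen h hv))
  have h3 : f m₂ ∈ T'.maxGenEigenspace c := by
    have := Submodule.sub_mem _ hm (gb_map_gen h hm₁)
    rwa [map_add, add_sub_cancel_left] at this
  have h4 : f m₂ = 0 :=
    Submodule.disjoint_def.1 (T'.independent_maxGenEigenspace c) _ h3 (h2 hm₂)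
  exact ⟨m₁, hm₁, by rw [map_add, h4, add_zero]⟩

end Aux

theorem Prim.gb_sing {M : GMod n} {a : Wt n} (h : M.Prim a) :
    ∃ K, ∃ hK : M.Stable K, ∃ v : M.V, K.mkQ v ≠ 0 ∧ (M.quot K hK).Sing a (K.mkQ v) := by
  obtain ⟨K, hK, v, hv, h0, hs⟩ := h
  refine ⟨K, hK, v, fun h1 => h0 ((Submodule.Quotient.mk_eq_zero K).1 h1),
    (isHom_mkQ M K hK).map_W hv, fun i j hij => ?_⟩
  exact (Submodule.Quotient.mk_eq_zero K).2 (hs i j hij)

/-- Highest weight modules lie in the block of their highest weight. -/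
theorem hw_blk {M : GMod n} {a : Wt n} {v : M.V} (hv : M.Sing a v)
    (hs : Function.Surjective (M.orb v)) : M.Blk (cnt a) := by
  refine ⟨Set.finite_singleton _, (hw_wt hv.1 hs).1, (hw_wt hv.1 hs).2, ⟨ht a, fun b hb => ?_⟩,
    fun b hb => cnt_eq_of_chi fun k => ?_⟩
  · obtain ⟨w, hw, h0⟩ := Submodule.exists_mem_ne_zero_of_ne_bot hb
    obtain ⟨u, rfl⟩ := hs w
    exact (orb_W_le hv.1 hw h0).2
  · obtain ⟨K, hK, w, h0, hw⟩ := hb.gb_sing
    have h1 : M.z k = chi k a • LinearMap.id :=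
      hom_ext_orb hs (M.z_hom k) (IsHom.smul (f := LinearMap.id) (fun _ _ => rfl) _) (hv.z k)
    have h2 := (isHom_mkQ M K hK).z k w
    rw [hw.z k, h1, LinearMap.smul_apply, LinearMap.id_apply, map_smul] at h2
    exact (smul_left_injective ℂ h0 h2).symm

theorem IsVerma.blk {M : GMod n} {a : Wt n} {v : M.V} (h : M.IsVerma a v) : M.Blk (cnt a) :=
  hw_blk h.1 h.2.2

theorem Sing.blk_orb {M : GMod n} {a : Wt n} {v : M.V} (hv : M.Sing a v) :
    (M.sub _ hv.stable_orb).Blk (cnt a) := by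
  refine hw_blk (v := ⟨v, M.self_mem_orb v⟩) ⟨(mem_W_sub _ _ _ _ _).2 hv.1,
    fun i j hij => Subtype.ext (hv.2 i j hij)⟩ ?_
  rintro ⟨_, u, rfl⟩
  exact ⟨u, Subtype.ext ((isHom_subtype M _ hv.stable_orb).act u _)⟩

/-- A central operator with a generalised eigenvalue: value on primitive weights. -/
theorem Prim.eq_of_nilp {M : GMod n} {a : Wt n} (h : M.Prim a) {c : ℂ}
    (hc : ∀ v, ∃ N : ℕ, ((M.cas - c • (1 : End ℂ M.V)) ^ N) v = 0) : c = ((chi2 a : ℤ) : ℂ) := by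
  obtain ⟨K, hK, w, h0, hw⟩ := h.gb_sing
  obtain ⟨N, hN⟩ := hc w
  refine gb_eig h0 hw.cas (N := N) ?_
  rw [← gb_pow_nat (isHom_mkQ M K hK).cas, hN, map_zero]

/-- An endomorphism of an admissible module is locally finite. -/
theorem Adm.iSup_gen {M : GMod n} (h : M.Adm 𝔅) {f : End ℂ M.V} (hf : M.IsHom M f) :
    ⨆ c : ℂ, f.maxGenEigenspace c = ⊤ := by
  rw [eq_top_iff, ← h.wt]
  refine iSup_le fun a => ?_
  have := h.fin a
  have h1 : ∀ v ∈ M.W a, f v ∈ M.W a := fun v hv => hf.map_W hv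
  have h2 : (⊤ : Submodule ℂ (M.W a)) ≤ (⨆ c : ℂ, f.maxGenEigenspace c).comap (M.W a).subtype := by
    rw [← End.iSup_maxGenEigenspace_eq_top (f.restrict h1)]
    exact iSup_le fun c v hv => Submodule.mem_iSup_of_mem c
      (gb_map_gen (f := (M.W a).subtype) (fun _ => rfl) hv)
  exact fun v hv => h2 (x := ⟨v, hv⟩) trivial

theorem Blk.cas_nilp {M : GMod n} {a : Wt n} (h : M.Blk (cnt a)) (v : M.V) :
    ∃ N : ℕ, ((M.cas - ((chi2 a : ℤ) : ℂ) • (1 : End ℂ M.V)) ^ N) v = 0 := by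
  rw [← End.mem_maxGenEigenspace]
  have h1 : (⊤ : Submodule ℂ M.V) ≤ M.cas.maxGenEigenspace ((chi2 a : ℤ) : ℂ) := by
    rw [← Adm.iSup_gen h M.cas_hom]
    refine iSup_le fun c => ?_
    by_cases hc : c = ((chi2 a : ℤ) : ℂ)
    · exact hc ▸ le_rfl
    · have hS := M.cas_hom.stable_gen c
      have h2 := Adm.sub h _ hS
      have h3 := h2.subsingleton fun b hb => hc <| by
        rw [← chi2_congr (show cnt b = cnt a from h2.prim b hb)]
        refine hb.eq_of_nilp fun w => ?_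
        obtain ⟨N, hN⟩ := (End.mem_maxGenEigenspace _ _ _).1 w.2
        exact ⟨N, Subtype.ext ((gb_pow_nat (isHom_subtype M _ hS).cas c N w).trans hN)⟩
      intro w hw
      have h4 : w = 0 := congrArg Subtype.val (h3.elim ⟨w, hw⟩ 0)
      rw [h4]
      exact Submodule.zero_mem _
  exact h1 trivial

theorem gb_lift_all {M N : GMod n} (hM : M.Adm 𝔅) {f : M.V →ₗ[ℂ] N.V} (hf : M.IsHom N f)
    (hs : Function.Surjective f) {a : Wt n} {y : N.V} (hy : N.Sing a y) (s : Finset ℕ) :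
    ∃ m ∈ ⨅ k ∈ s, (M.z k).maxGenEigenspace (chi k a), f m = y := by
  induction s using Finset.induction_on with
  | empty => simpa using hs y
  | insert k s _ ih =>
    obtain ⟨m, hm, rfl⟩ := ih
    have hS : M.Stable (⨅ k ∈ s, (M.z k).maxGenEigenspace (chi k a)) :=
      stable_iInf fun k => stable_iInf fun _ => (M.z_hom k).stable_gen _
    have h1 := hf.comp (isHom_subtype M _ hS)
    obtain ⟨m', hm', h2⟩ := gb_lift_gen (h1.z k) ((hM.sub _ hS).iSup_gen (z_hom _ k))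
      (c := chi k a) (m := ⟨m, hm⟩) ((End.mem_maxGenEigenspace _ _ _).2 ⟨1, by
        rw [pow_one]
        exact sub_eq_zero.2 (hy.z k)⟩)
    refine ⟨m'.1, ?_, h2⟩
    rw [Finset.iInf_insert]
    exact ⟨gb_map_gen ((isHom_subtype M _ hS).z k) hm', m'.2⟩

/-- Singular vectors of dominant weight lift along surjections. -/
theorem lift_sing {M N : GMod n} (hM : M.Adm 𝔅) {f : M.V →ₗ[ℂ] N.V} (hf : M.IsHom N f)
    (hs : Function.Surjective f) {a : Wt n} (ha : StrictAnti a) {y : N.V} (hy : N.Sing a y) :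
    ∃ m, M.Sing a m ∧ f m = y := by
  classical
  have h1 : ∀ b : Wt n, ∃ k, chi k b = chi k a → cnt b = cnt a := fun b => by
    by_cases hb : cnt b = cnt a
    · exact ⟨0, fun _ => hb⟩
    · obtain ⟨k, hk⟩ := not_forall.1 fun h => hb (cnt_eq_of_chi h)
      exact ⟨k, fun h => absurd h hk⟩
  choose κ hκ using h1
  have h2 : {b : Wt n | cnt b ∈ 𝔅}.Finite :=
    (hM.finB.biUnion fun B _ => finite_cnt (n := n) B).subset fun b hb =>
      Set.mem_biUnion hb rfl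
  obtain ⟨m₀, hm₀, h3⟩ := gb_lift_all hM hf hs hy (h2.toFinset.image κ)
  have hS : M.Stable (⨅ k ∈ h2.toFinset.image κ, (M.z k).maxGenEigenspace (chi k a)) :=
    stable_iInf fun k => stable_iInf fun _ => (M.z_hom k).stable_gen _
  have hA := hM.sub _ hS
  have hi := isHom_subtype M _ hS
  obtain ⟨m, hm, h4⟩ := (hf.comp hi).W_surj hA.wt hy.1 ⟨⟨m₀, hm₀⟩, h3⟩
  refine ⟨m.1, hi.map_sing ⟨hm, fun i j hij => ?_⟩, h4⟩
  by_contra h0
  obtain ⟨b, v, hv0, hv, hb, hle⟩ := hA.exists_sing_ge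
    ((Submodule.ne_bot_iff _).2 ⟨_, E_mem_W hm i j, h0⟩)
  have h5 : v.1 ∈ (M.z (κ b)).maxGenEigenspace (chi (κ b) a) :=
    (Submodule.mem_iInf _).1 ((Submodule.mem_iInf _).1 v.2 (κ b))
      (Finset.mem_image_of_mem κ (h2.mem_toFinset.2 hb))
  obtain ⟨N, hN⟩ := (End.mem_maxGenEigenspace _ _ _).1 h5
  have h6 := gb_eig (fun h => hv0 (Subtype.ext h)) ((hi.map_sing hv).z (κ b)) hN
  exact absurd ((lex_root a hij).trans_le hle) (not_lt.2 (lex_max_of_anti ha (hκ b h6.symm)))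

end Pool.Agent.KM.GMod
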