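import Pool.Agent.Lib.MP_515a76_al.GTen
import Pool.Agent.Lib.MP_515a76_al.GVerma
import Pool.Agent.Lib.MP_515a76_al.GelfB

/-! The Verma filtration of a tensor product with a Verma module. -/

namespace Pool.Agent.KM

open Module GMod

variable {n : ℕ} {ι : Type} [Fintype ι] [DecidableEq ι] (C : Coef n ι) {M : GMod n} {a : Wt n}
  {v : M.V}

/-- The `U(n⁻)`-linear map sending the basis to the vectors `δ_i v`. -/
noncomputable def Phi (M : GMod n) (v : M.V) : (ι → Um n) →ₗ[ℂ] (ι → M.V) :=
  ∑ i, ((Ten C M).orb (Pi.single i v)).comp (LinearMap.proj i)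

theorem gphi_apply (u : ι → Um n) :
    Phi C M v u = ∑ i, (Ten C M).act (u i) (Pi.single i v) := by
  rw [Phi, LinearMap.sum_apply]
  rfl

theorem gphi_single (i : ι) (u : Um n) :
    Phi C M v (Pi.single i u) = (Ten C M).act u (Pi.single i v) := by
  rw [gphi_apply, Finset.sum_eq_single i]
  · simp
  · intro j _ hj
    simp [Pi.single_eq_of_ne hj]
  · simp

theorem gphi_tri {k : ℤ} {m : ι → M.V} (hm : ∀ j, k < ht (C.wt j) → m j = 0) (u : Um n) :
    ∀ i, k ≤ ht (C.wt i) → (Ten C M).act u m i = M.act u (m i) := by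
  induction u using Um.induction with
  | h1 => intro i _; simp
  | hf p u ih =>
    intro i hi
    rw [gh_act_f, gh_act_f, ← ih i hi]
    change tenρ C M _ _ i = _
    rw [tenρ_apply', add_eq_right]
    refine Finset.sum_eq_zero fun j _ => ?_
    by_cases hc : C.C (eM p.1.1 p.1.2) i j = 0
    · rw [hc, zero_smul]
    · have h1 := congrArg ht (C.wt_of_ne hc)
      rw [ht_root] at h1
      have h2 : (p.1.2 : ℕ) < p.1.1 := p.2
      rw [ih j (by omega), hm j (by omega), map_zero, smul_zero]
  | hadd u u' ih ih' =>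
    intro i hi
    rw [map_add, map_add, LinearMap.add_apply, LinearMap.add_apply, Pi.add_apply, ih i hi,
      ih' i hi]
  | hsmul c u ih =>
    intro i hi
    rw [map_smul, map_smul, LinearMap.smul_apply, LinearMap.smul_apply, Pi.smul_apply, ih i hi]

theorem gphi_tri' {i j : ι} (hij : ht (C.wt j) ≤ ht (C.wt i)) (u : Um n) :
    (Ten C M).act u (Pi.single j v) i = M.act u ((Pi.single j v : ι → M.V) i) := by
  refine gphi_tri C (k := ht (C.wt i)) (fun t ht' => ?_) u i le_rfl
  have : t ≠ j := by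
    rintro rfl
    exact absurd hij (not_le.2 ht')
  rw [Pi.single_eq_of_ne this]

theorem Phi_bij (h : M.IsVerma a v) : Function.Bijective (Phi C M v) := by
  classical
  constructor
  · rw [injective_iff_map_eq_zero]
    intro u hu
    by_contra h0
    obtain ⟨i0, hi0, hmax⟩ := Finset.exists_max_image (Finset.univ.filter fun i => u i ≠ 0)
      (fun i => ht (C.wt i)) (by
        obtain ⟨i, hi⟩ := Function.ne_iff.1 h0
        exact ⟨i, by simpa using hi⟩)
    have h1 := congrFun hu i0
    rw [gphi_apply, Finset.sum_apply, Finset.sum_eq_single i0] at h1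
    · rw [gphi_tri' C le_rfl, Pi.single_eq_same] at h1
      exact (Finset.mem_filter.1 hi0).2 (h.2.1 (h1.trans (map_zero _).symm))
    · intro i _ hi
      by_cases hu0 : u i = 0
      · rw [hu0, map_zero, LinearMap.zero_apply]
        rfl
      · rw [gphi_tri' C (hmax i (by simpa using hu0)), Pi.single_eq_of_ne hi.symm, map_zero]
    · simp
  · rw [← LinearMap.range_eq_top, eq_top_iff, ← ten_span C h.2.2]
    refine iSup_le fun i => ?_
    rintro _ ⟨u, rfl⟩
    exact ⟨Pi.single i u, gphi_single C i u⟩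

/-- Coordinates. -/
noncomputable def co (h : M.IsVerma a v) : (ι → M.V) ≃ₗ[ℂ] (ι → Um n) :=
  (LinearEquiv.ofBijective _ (Phi_bij C h)).symm

/-- The filtration by highest weights at least `η`. -/
def Fil (h : M.IsVerma a v) (η : Wt n) : Submodule ℂ (ι → M.V) where
  carrier := {m | ∀ i, toLex (a + C.wt i) < toLex η → co C h m i = 0}
  add_mem' := fun h1 h2 i hi => by simp [h1 i hi, h2 i hi]
  zero_mem' := fun i _ => by simp
  smul_mem' := fun c _ h1 i hi => by simp [h1 i hi]

/-- The filtration by highest weights larger than `η`. -/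
def FilS (h : M.IsVerma a v) (η : Wt n) : Submodule ℂ (ι → M.V) where
  carrier := {m | ∀ i, toLex (a + C.wt i) ≤ toLex η → co C h m i = 0}
  add_mem' := fun h1 h2 i hi => by simp [h1 i hi, h2 i hi]
  zero_mem' := fun i _ => by simp
  smul_mem' := fun c _ h1 i hi => by simp [h1 i hi]

/-- The class in the coinvariants. -/
noncomputable def cl (h : M.IsVerma a v) : (ι → M.V) →ₗ[ℂ] (ι → ℂ) :=
  (ptOp ι (Um.aug (n := n)).toLinearMap).comp (co C h).toLinearMap

/-- The component in a layer of the filtration. -/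
noncomputable def lay (h : M.IsVerma a v) (Y : GMod n) (y : Y.V) (i : ι) : (ι → M.V) →ₗ[ℂ] Y.V :=
  (Y.orb y).comp ((LinearMap.proj i).comp (co C h).toLinearMap)

theorem gphi_co (h : M.IsVerma a v) (u : ι → Um n) : co C h (Phi C M v u) = u :=
  (LinearEquiv.ofBijective _ (Phi_bij C h)).symm_apply_apply u

theorem gphi_eq (h : M.IsVerma a v) (m : ι → M.V) :
    m = ∑ i, (Ten C M).act (co C h m i) (Pi.single i v) := by
  rw [← gphi_apply]
  exact ((LinearEquiv.ofBijective _ (Phi_bij C h)).apply_symm_apply m).symm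

theorem gphi_cl (h : M.IsVerma a v) (m : ι → M.V) (i : ι) :
    cl C h m i = Um.aug (co C h m i) := rfl

theorem gphi_lay (h : M.IsVerma a v) (Y : GMod n) (y : Y.V) (i : ι) (m : ι → M.V) :
    lay C h Y y i m = Y.act (co C h m i) y := rfl

theorem co_single (h : M.IsVerma a v) (i : ι) : co C h (Pi.single i v) = Pi.single i 1 := by
  rw [← gphi_co C h (Pi.single i 1), gphi_single, map_one, Module.End.one_apply]

theorem co_act (h : M.IsVerma a v) (u : Um n) (m : ι → M.V) (i : ι) :
    co C h ((Ten C M).act u m) i = u * co C h m i := by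
  have : (Ten C M).act u m = Phi C M v fun i => u * co C h m i := by
    conv_lhs => rw [gphi_eq C h m]
    rw [gphi_apply, map_sum]
    simp only [map_mul, Module.End.mul_apply]
  rw [this, gphi_co]

theorem cl_single (h : M.IsVerma a v) (i : ι) : cl C h (Pi.single i v) = Pi.single i 1 := by
  funext j
  rw [gphi_cl, co_single]
  by_cases hj : j = i
  · subst hj; simp
  · simp [Pi.single_eq_of_ne hj]

theorem gphi_cl_act (h : M.IsVerma a v) (u : Um n) (m : ι → M.V) :
    cl C h ((Ten C M).act u m) = Um.aug u • cl C h m := by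
  funext i
  rw [gphi_cl, co_act, map_mul, Pi.smul_apply, gphi_cl, smul_eq_mul]

theorem gphi_lay_act (h : M.IsVerma a v) (Y : GMod n) (y : Y.V) (i : ι) (u : Um n)
    (m : ι → M.V) : lay C h Y y i ((Ten C M).act u m) = Y.act u (lay C h Y y i m) := by
  rw [gphi_lay, co_act, map_mul, Module.End.mul_apply, gphi_lay]

theorem cl_low (h : M.IsVerma a v) {s t : Fin n} (hst : t < s) (m : ι → M.V) :
    cl C h ((Ten C M).E s t m) = 0 := by
  rw [← (Ten C M).act_f ⟨(s, t), hst⟩, gphi_cl_act, Um.aug_f, zero_smul]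

theorem gphi_grade (h : M.IsVerma a v) {ξ : Wt n} {m : ι → M.V} (hm : m ∈ (Ten C M).W ξ) (i : ι) :
    co C h m i ∈ GV.Ug (ξ - (a + C.wt i)) := by
  have key := GV.eq_of_le_indep (S := fun ξ : Wt n =>
    (Submodule.pi Set.univ fun i => GV.Ug (ξ - (a + C.wt i))).map (Phi C M v))
    (Ten C M).W_indep (fun b => ?_) ?_ ξ
  · rw [← key] at hm
    obtain ⟨u, hu, rfl⟩ := hm
    rw [gphi_co]
    exact hu i trivial
  · rintro _ ⟨u, hu, rfl⟩
    rw [gphi_apply]
    refine sum_mem fun j _ => ?_
    have : GV.Ug (b - (a + C.wt j)) ≤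
        ((Ten C M).W b).comap ((Ten C M).orb (Pi.single j v)) := by
      rw [GV.Ug, Submodule.span_le]
      rintro _ ⟨l, hl, rfl⟩
      have := mon_mem_W (single_mem_W C h.1.1 j) l
      rw [show lowWt l = b - (a + C.wt j) from hl, add_sub_cancel] at this
      exact this
    exact this (hu j trivial)
  · refine eq_top_iff.2 fun x _ => ?_
    rw [gphi_eq C h x]
    refine sum_mem fun j _ => gh_mem_of_mon ((Ten C M).orb (Pi.single j v)) (fun l => ?_) _
    refine Submodule.mem_iSup_of_mem (a + C.wt j + lowWt l) ⟨Pi.single j (Um.mon l), ?_, ?_⟩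
    · intro k _
      by_cases hk : k = j
      · subst hk
        rw [Pi.single_eq_same]
        exact Submodule.subset_span ⟨l, by simp, rfl⟩
      · rw [Pi.single_eq_of_ne hk]
        exact zero_mem _
    · rw [gphi_single, orb_apply]

theorem gphi_aug_ne {β : Wt n} (hβ : β ≠ 0) {u : Um n} (hu : u ∈ GV.Ug β) : Um.aug u = 0 := by
  have : GV.Ug β ≤ LinearMap.ker (Um.aug (n := n)).toLinearMap := by
    rw [GV.Ug, Submodule.span_le]
    rintro _ ⟨l, hl, rfl⟩
    refine Um.aug_mon ?_
    rintro rfl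
    exact hβ (hl.symm.trans gh_lowWt_nil)
  exact this hu

theorem gphi_ug_zero {u : Um n} (hu : u ∈ GV.Ug 0) : u = Um.aug u • 1 := by
  have : GV.Ug (0 : Wt n) ≤ LinearMap.ker
      (LinearMap.id - (Um.aug (n := n)).toLinearMap.smulRight (1 : Um n)) := by
    rw [GV.Ug, Submodule.span_le]
    rintro _ ⟨l, hl, rfl⟩
    by_cases h0 : l = []
    · subst h0
      simp [gh_mon_nil]
    · have := lex_lowWt h0
      rw [show lowWt l = 0 from hl] at this
      exact absurd this (lt_irrefl _)
  exact sub_eq_zero.1 (this hu)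

theorem gphi_ug_pos {b ξ : Wt n} (hb : toLex b < toLex ξ) {u : Um n} (hu : u ∈ GV.Ug (ξ - b)) :
    u = 0 := by
  have : GV.Ug (ξ - b) ≤ ⊥ := by
    rw [GV.Ug, Submodule.span_le]
    rintro _ ⟨l, hl, rfl⟩
    have h2 := (lex_add_right (a := 0) (b := lowWt l) b).not.2 (gh_lex_le l).not_gt
    rw [zero_add, show lowWt l = ξ - b from hl, sub_add_cancel] at h2
    exact absurd hb h2
  exact this hu

theorem cl_supp (h : M.IsVerma a v) {ξ : Wt n} {m : ι → M.V} (hm : m ∈ (Ten C M).W ξ) {i : ι}
    (hi : cl C h m i ≠ 0) : a + C.wt i = ξ := by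
  by_contra hne
  exact hi (gphi_aug_ne (sub_ne_zero.2 (Ne.symm hne)) (gphi_grade C h hm i))

theorem W_le_Fil (h : M.IsVerma a v) (ξ : Wt n) : (Ten C M).W ξ ≤ Fil C h ξ := by
  intro m hm i hi
  exact gphi_ug_pos hi (gphi_grade C h hm i)

/-- The vectors whose coordinates vanish on a set of weights. -/
def gphiF (h : M.IsVerma a v) (Q : Wt n → Prop) : Submodule ℂ (ι → M.V) where
  carrier := {m | ∀ i, Q (a + C.wt i) → co C h m i = 0}
  add_mem' := fun h1 h2 i hi => by simp [h1 i hi, h2 i hi]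
  zero_mem' := fun i _ => by simp
  smul_mem' := fun c _ h1 i hi => by simp [h1 i hi]

theorem gphi_stable (h : M.IsVerma a v) {Q : Wt n → Prop}
    (hQ : ∀ ξ ξ', toLex ξ ≤ toLex ξ' → Q ξ' → Q ξ) : (Ten C M).Stable (gphiF C h Q) := by
  have hW : ∀ ξ, ¬ Q ξ → (Ten C M).W ξ ≤ gphiF C h Q := fun ξ hξ m hm i hi =>
    W_le_Fil C h ξ hm i (not_le.1 fun hle => hξ (hQ _ _ hle hi))
  have low : ∀ u, ∀ m ∈ gphiF C h Q, (Ten C M).act u m ∈ gphiF C h Q := fun u m hm i hi => by
    rw [co_act, hm i hi, mul_zero]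
  have key : ∀ j, ¬ Q (a + C.wt j) → ∀ u A,
      (Ten C M).ρ A ((Ten C M).act u (Pi.single j v)) ∈ gphiF C h Q := fun j hj u => by
    have hs := single_mem_W C h.1.1 j
    induction u using Um.induction with
    | h1 =>
      intro A
      simp only [map_one, Module.End.one_apply, ρ_eq_sum (Ten C M) A, LinearMap.sum_apply,
        LinearMap.smul_apply]
      refine sum_mem fun s _ => sum_mem fun t _ => Submodule.smul_mem _ _ ?_
      rcases lt_trichotomy s t with hst | rfl | hst
      · exact hW _ (fun hq => hj (hQ _ _ (lex_root _ hst).le hq)) (E_mem_W hs s t)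
      · rw [(mem_W _ _ _).1 hs]
        exact Submodule.smul_mem _ _ (hW _ hj hs)
      · rw [← (Ten C M).act_f ⟨(s, t), hst⟩]
        exact low _ _ (hW _ hj hs)
    | hf p u ih =>
      intro A
      rw [gh_act_f, gh_comm]
      refine add_mem ?_ (ih _)
      have := low (Um.f p) _ (ih A)
      rwa [act_f] at this
    | hadd u u' ih ih' =>
      intro A
      rw [map_add, LinearMap.add_apply, map_add]
      exact add_mem (ih A) (ih' A)
    | hsmul c u ih =>
      intro A
      rw [map_smul, LinearMap.smul_apply, map_smul]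
      exact Submodule.smul_mem _ c (ih A)
  intro A m hm
  rw [gphi_eq C h m, map_sum]
  refine sum_mem fun j _ => ?_
  by_cases hj : Q (a + C.wt j)
  · rw [hm j hj, map_zero, LinearMap.zero_apply, map_zero]
    exact zero_mem _
  · exact key j hj _ A

theorem Fil_stable (h : M.IsVerma a v) (η : Wt n) : (Ten C M).Stable (Fil C h η) := by
  exact gphi_stable C h (Q := fun ξ => toLex ξ < toLex η) fun _ _ h1 h2 => h1.trans_lt h2

theorem FilS_stable (h : M.IsVerma a v) (η : Wt n) : (Ten C M).Stable (FilS C h η) := by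
  exact gphi_stable C h (Q := fun ξ => toLex ξ ≤ toLex η) fun _ _ h1 h2 => h1.trans h2

theorem Fil_anti (h : M.IsVerma a v) {η η' : Wt n} (hle : toLex η ≤ toLex η') :
    Fil C h η' ≤ Fil C h η := by
  intro m hm i hi
  exact hm i (hi.trans_le hle)

theorem filS_cases (h : M.IsVerma a v) (η : Wt n) :
    FilS C h η = ⊥ ∨ ∃ i, toLex η < toLex (a + C.wt i) ∧ FilS C h η = Fil C h (a + C.wt i) := by
  classical
  by_cases hex : ∃ i, toLex η < toLex (a + C.wt i)
  · obtain ⟨i, hi, hmin⟩ := Finset.exists_min_image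
      (Finset.univ.filter fun i => toLex η < toLex (a + C.wt i)) (fun i => toLex (a + C.wt i)) (by
        obtain ⟨i, hi⟩ := hex
        exact ⟨i, Finset.mem_filter.2 ⟨Finset.mem_univ _, hi⟩⟩)
    have hi' := (Finset.mem_filter.1 hi).2
    refine Or.inr ⟨i, hi', le_antisymm (fun m hm j hj => hm j ?_)
      fun m hm j hj => hm j (hj.trans_lt hi')⟩
    by_contra hlt
    exact absurd (hmin j (Finset.mem_filter.2 ⟨Finset.mem_univ _, not_le.1 hlt⟩)) (not_le.2 hj)
  · refine Or.inl (eq_bot_iff.2 fun m hm => ?_)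
    rw [Submodule.mem_bot, ← (co C h).map_eq_zero_iff]
    exact funext fun j => hm j (not_lt.1 fun hj => hex ⟨j, hj⟩)

theorem fil_top (h : M.IsVerma a v) [Nonempty ι] : ∃ i, Fil C h (a + C.wt i) = ⊤ := by
  obtain ⟨i, -, hmin⟩ := Finset.exists_min_image Finset.univ (fun i => toLex (a + C.wt i))
    Finset.univ_nonempty
  exact ⟨i, eq_top_iff.2 fun m _ j hj => absurd (hmin j (Finset.mem_univ _)) (not_le.2 hj)⟩

theorem lay_W (h : M.IsVerma a v) (Y : GMod n) (y : Y.V) {i : ι} {m : ι → M.V}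
    (hm : m ∈ (Ten C M).W (a + C.wt i)) : lay C h Y y i m = cl C h m i • y := by
  have h1 := gphi_grade C h hm i
  rw [sub_self] at h1
  rw [gphi_lay, gphi_cl, gphi_ug_zero h1]
  simp

theorem lay_hom (h : M.IsVerma a v) {Y : GMod n} {y : Y.V} {i : ι} (hy : Y.Sing (a + C.wt i) y)
    (A : Mat n) {m : ι → M.V} (hm : m ∈ Fil C h (a + C.wt i)) :
    lay C h Y y i ((Ten C M).ρ A m) = Y.ρ A (lay C h Y y i m) := by
  have key : ∀ j, toLex (a + C.wt i) ≤ toLex (a + C.wt j) → ∀ u A,
      lay C h Y y i ((Ten C M).ρ A ((Ten C M).act u (Pi.single j v))) =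
        Y.ρ A (lay C h Y y i ((Ten C M).act u (Pi.single j v))) := fun j hj u => by
    have hs := single_mem_W C h.1.1 j
    induction u using Um.induction with
    | h1 =>
      intro A
      have hy' : Y.Sing (a + C.wt j) (lay C h Y y i (Pi.single j v)) := by
        rw [gphi_lay, co_single]
        by_cases hij : i = j
        · subst hij
          simpa using hy
        · rw [Pi.single_eq_of_ne hij, map_zero, LinearMap.zero_apply]
          exact ⟨zero_mem _, fun _ _ _ => map_zero _⟩
      simp only [map_one, Module.End.one_apply, ρ_eq_sum (Ten C M) A, ρ_eq_sum Y A,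
        LinearMap.sum_apply, LinearMap.smul_apply, map_sum, map_smul]
      refine Finset.sum_congr rfl fun s _ => Finset.sum_congr rfl fun t _ => congrArg _ ?_
      rcases lt_trichotomy s t with hst | rfl | hst
      · rw [hy'.2 s t hst, gphi_lay,
          W_le_Fil C h _ (E_mem_W hs s t) i (hj.trans_lt (lex_root _ hst)), map_zero,
          LinearMap.zero_apply]
      · rw [(mem_W _ _ _).1 hs, (mem_W _ _ _).1 hy'.1, map_smul]
      · rw [← (Ten C M).act_f ⟨(s, t), hst⟩, gphi_lay_act, act_f]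
    | hf p u ih =>
      intro A
      have e : ∀ x, lay C h Y y i ((Ten C M).ρ (eM p.1.1 p.1.2) x) =
          Y.ρ (eM p.1.1 p.1.2) (lay C h Y y i x) := fun x => by
        have := gphi_lay_act C h Y y i (Um.f p) x
        rwa [act_f, act_f] at this
      rw [gh_act_f, gh_comm, map_add, e, e, ih, ih, gh_comm Y A]
    | hadd u u' ih ih' =>
      intro A
      simp only [map_add, LinearMap.add_apply, ih, ih']
    | hsmul c u ih =>
      intro A
      simp only [map_smul, LinearMap.smul_apply, ih]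
  rw [gphi_eq C h m]
  simp only [map_sum]
  refine Finset.sum_congr rfl fun j _ => ?_
  by_cases hj : toLex (a + C.wt j) < toLex (a + C.wt i)
  · simp only [hm j hj, map_zero, LinearMap.zero_apply]
  · exact key j (not_lt.1 hj) _ A

theorem mem_FilS (h : M.IsVerma a v) {Y : GMod n} {y : Y.V} {η : Wt n} (hy : Y.IsVerma η y)
    {m : ι → M.V} (hm : m ∈ Fil C h η) (h0 : ∀ i, a + C.wt i = η → lay C h Y y i m = 0) :
    m ∈ FilS C h η := by
  intro j hj
  rcases hj.lt_or_eq with hj | hj
  · exact hm j hj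
  · exact hy.2.1 ((h0 j (toLex.injective hj)).trans (map_zero _).symm)

theorem gphi_endo (h : M.IsVerma a v) {ψ : End ℂ (ι → M.V)} (hψ : (Ten C M).IsHom (Ten C M) ψ)
    (m : ι → M.V) : ψ m = ∑ i, (Ten C M).act (co C h m i) (ψ (Pi.single i v)) := by
  conv_lhs => rw [gphi_eq C h m, map_sum]
  exact Finset.sum_congr rfl fun i _ => hψ.act _ _

theorem cl_endo (h : M.IsVerma a v) {ψ : End ℂ (ι → M.V)} (hψ : (Ten C M).IsHom (Ten C M) ψ)
    (m : ι → M.V) : cl C h (ψ m) = ∑ i, cl C h m i • cl C h (ψ (Pi.single i v)) := by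
  rw [gphi_endo C h hψ m, map_sum]
  exact Finset.sum_congr rfl fun i _ => gphi_cl_act C h _ _

theorem endo_Fil (h : M.IsVerma a v) {ψ : End ℂ (ι → M.V)} (hψ : (Ten C M).IsHom (Ten C M) ψ)
    {η : Wt n} {m : ι → M.V} (hm : m ∈ Fil C h η) : ψ m ∈ Fil C h η := by
  rw [gphi_endo C h hψ m]
  refine sum_mem fun j _ => ?_
  by_cases hj : toLex (a + C.wt j) < toLex η
  · rw [hm j hj, map_zero, LinearMap.zero_apply]
    exact zero_mem _
  · exact (Fil_stable C h η).act_mem _ (Fil_anti C h (not_lt.1 hj)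
      (W_le_Fil C h _ (hψ.map_W (single_mem_W C h.1.1 j))))

theorem lay_endo (h : M.IsVerma a v) {ψ : End ℂ (ι → M.V)} (hψ : (Ten C M).IsHom (Ten C M) ψ)
    (Y : GMod n) (y : Y.V) {i : ι} {m : ι → M.V} (hm : m ∈ Fil C h (a + C.wt i)) :
    lay C h Y y i (ψ m) = ∑ i' ∈ Finset.univ.filter fun i' => C.wt i' = C.wt i,
      cl C h (ψ (Pi.single i' v)) i • lay C h Y y i' m := by
  rw [gphi_endo C h hψ m, map_sum, Finset.sum_filter]
  refine Finset.sum_congr rfl fun j _ => ?_
  have hs := hψ.map_W (single_mem_W C h.1.1 j)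
  rw [gphi_lay_act]
  split_ifs with hj
  · rw [lay_W C h Y y (hj ▸ hs), map_smul, gphi_lay]
  · rcases lt_trichotomy (toLex (a + C.wt j)) (toLex (a + C.wt i)) with hlt | heq | hlt
    · rw [hm j hlt, map_zero, LinearMap.zero_apply]
    · exact absurd (add_left_cancel (toLex.injective heq)) hj
    · rw [gphi_lay, W_le_Fil C h _ hs i hlt, map_zero, LinearMap.zero_apply, map_zero]

/-- Singular vectors of dominant weight are determined by their class. -/
theorem cl_inj (h : M.IsVerma a v) {ξ : Wt n} (hξ : StrictAnti ξ) {m : ι → M.V}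
    (hm : (Ten C M).Sing ξ m) (h0 : cl C h m = 0) : m = 0 := by
  classical
  by_contra hne
  obtain ⟨i, hi, hmin⟩ := Finset.exists_min_image (Finset.univ.filter fun i => co C h m i ≠ 0)
    (fun i => toLex (a + C.wt i)) (by
      obtain ⟨i, hi⟩ := Function.ne_iff.1 ((co C h).map_ne_zero_iff.2 hne)
      exact ⟨i, by simpa using hi⟩)
  have hi' := (Finset.mem_filter.1 hi).2
  have hF : m ∈ Fil C h (a + C.wt i) := fun j hj => by
    by_contra hj'
    exact absurd (hmin j (by simpa using hj')) (not_le.2 hj)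
  obtain ⟨Y, y, hy⟩ := exists_verma (a + C.wt i)
  have hl : lay C h Y y i m ≠ 0 := fun e => hi' (hy.2.1 (e.trans (map_zero _).symm))
  have hs : Y.Sing ξ (lay C h Y y i m) := by
    refine ⟨(mem_W _ _ _).2 fun j => ?_, fun s t hst => ?_⟩
    · rw [← lay_hom C h hy.1 _ hF, (mem_W _ _ _).1 hm.1 j, map_smul]
    · rw [← lay_hom C h hy.1 _ hF, hm.2 s t hst, map_zero]
  have h1 : cnt ξ = cnt (a + C.wt i) := hy.blk.prim ξ (hs.prim hl)
  have h2 := lex_max_of_anti hξ h1.symm
  have h3 : toLex ξ ≤ toLex (a + C.wt i) := not_lt.1 fun hlt => hi' (W_le_Fil C h ξ hm.1 i hlt)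
  have h4 : ξ = a + C.wt i := toLex.injective (le_antisymm h3 h2)
  refine hl ?_
  rw [lay_W C h Y y (h4 ▸ hm.1), h0, Pi.zero_apply, zero_smul]

end Pool.Agent.KM
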