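import Pool.Agent.Lib.MP_515a76_al.CellB
import Pool.Agent.Lib.MP_515a76_al.GPhi

/-! The action of the `x k` on the classes, on both sides of the adjunction. -/

namespace Pool.Agent.KM

open Module GMod

variable {n d : ℕ}

section

variable {ι : Type} [Fintype ι] [DecidableEq ι]

theorem ca_matOp_single (X : Type) [AddCommGroup X] [Module ℂ X] (T : Matrix ι ι ℂ) (j : ι) (x : X) :
    matOp X T (Pi.single j x) = ∑ i, T i j • (Pi.single i x : ι → X) := by
  funext i
  simp [matOp_apply, Pi.single_apply]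

omit [Fintype ι] in
theorem ca_ptOp_single {X : Type} [AddCommGroup X] [Module ℂ X] (f : End ℂ X) (j : ι) (x : X) :
    ptOp ι f (Pi.single j x) = Pi.single j (f x) :=
  funext fun i => Pi.apply_single (fun _ => f) (fun _ => map_zero f) j x i

theorem ca_cl_low_single (C : Coef n ι) {M : GMod n} {ρ : Wt n} {v : M.V} (h : M.IsVerma ρ v)
    {s t : Fin n} (hst : t < s) (i : ι) :
    cl C h (Pi.single i (M.E s t v)) = -matOp ℂ (C.C (eM s t)) (Pi.single i 1) := by
  have h1 : cl C h (tenρ C M (eM s t) (Pi.single i v)) = 0 := cl_low C h hst _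
  rw [tenρ_single, map_add, map_sum] at h1
  simp only [map_smul, cl_single] at h1
  rw [ca_matOp_single, eq_neg_iff_add_eq_zero, add_comm, h1]

end

section

variable (X : Type) [AddCommGroup X] [Module ℂ X]

theorem ca_Dk_single (k : Fin d) (a b : Fin n) (j : Idx d n) (x : X) :
    matOp X (Dk k (eM a b)) (Pi.single j x) =
      if j k = b then Pi.single (Function.update j k a) x else 0 := by
  funext i
  rw [matOp_apply, Finset.sum_eq_single j (fun i' _ h => by simp [h]) (by simp)]
  simp only [Dk, LinearMap.coe_mk, AddHom.coe_mk, Matrix.single_apply, ite_apply, Pi.single_apply,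
    Function.eq_update_iff]
  split_ifs <;> simp_all

theorem ca_Dk_transpose (k : Fin d) (a b : Fin n) : (Dk k (eM a b)).transpose = Dk k (eM b a) := by
  ext i j
  simp only [Dk, LinearMap.coe_mk, AddHom.coe_mk, Matrix.transpose_apply, Matrix.single_apply,
    and_comm, eq_comm (a := j _)]

theorem ca_tpow_update (k : Fin d) (a : Fin n) (j : Idx d n) (x : X) :
    matOp X ((tpow n d).C (eM (j k) a)) (Pi.single (Function.update j k a) x) = Pi.single j x +
      ∑ l, if l ≠ k ∧ j l = a then Pi.single (fun t => j (Equiv.swap k l t)) x else 0 := by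
  simp only [tpow, LinearMap.sum_apply, map_sum, ca_Dk_single]
  rw [← Finset.add_sum_erase _ _ (Finset.mem_univ k), ← Finset.sum_erase (s := Finset.univ) (a := k)
    (by simp)]
  simp only [Function.update_self, if_true, Function.update_idem, Function.update_eq_self]
  congr 1
  refine Finset.sum_congr rfl fun l hl => ?_
  have hl := Finset.ne_of_mem_erase hl
  simp only [Function.update_of_ne hl, ne_eq, hl, not_false_eq_true, true_and]
  split_ifs with h
  · congr 1
    funext t
    simp only [Function.update_apply, Equiv.swap_apply_def]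
    split_ifs <;> simp_all
  · rfl

theorem ca_sum_tpow_update (k : Fin d) (p : Fin n → Prop) [DecidablePred p] (j : Idx d n) (x : X) :
    ∑ a, (if p a then matOp X ((tpow n d).C (eM (j k) a)) (Pi.single (Function.update j k a) x)
      else 0) = ((Finset.univ.filter p).card : ℂ) • (Pi.single j x : Idx d n → X) +
      ∑ l, if l ≠ k ∧ p (j l) then Pi.single (fun t => j (Equiv.swap k l t)) x else 0 := by
  simp only [ca_tpow_update, ite_add_zero, Finset.sum_add_distrib, Finset.ite_sum_zero]
  rw [← Finset.sum_filter, Finset.sum_const, Nat.cast_smul_eq_nsmul, Finset.sum_comm]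
  congr 1
  refine Finset.sum_congr rfl fun l _ => ?_
  rw [Finset.sum_eq_single (j l) (fun a _ h => by simp [h.symm]) (by simp)]
  split_ifs <;> simp_all

end

theorem ca_xF_single (M : GMod n) (k : Fin d) (j : Idx d n) (v : M.V) :
    xF M k (Pi.single j v) = ∑ a, Pi.single (Function.update j k a) (M.E (j k) a v) +
      ∑ l, if l < k then Pi.single (fun t => j (Equiv.swap k l t)) v else 0 := by
  have h1 : ∑ a : Fin n, ∑ b : Fin n, matOp M.V (Dk k (eM a b)) *
      ∑ l ∈ Finset.univ.filter fun l => l < k, matOp M.V (Dk l (eM b a)) =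
      ∑ l ∈ Finset.univ.filter fun l => l < k, sP M.V (Equiv.swap k l) := by
    simp only [Finset.mul_sum]
    rw [Finset.sum_congr rfl fun a _ => Finset.sum_comm, Finset.sum_comm]
    exact Finset.sum_congr rfl fun l hl => sum_Dk_swap _ (Finset.mem_filter.1 hl).2.ne'
  simp only [xF, mul_add, Finset.sum_add_distrib, h1]
  simp [LinearMap.sum_apply, ca_ptOp_single, ca_Dk_single, sP_single, ← Finset.sum_filter]

theorem ca_card_smul_swap (j : Idx d n) (k : Fin d) (p : Fin d → Prop) [DecidablePred p] :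
    (((Finset.univ.filter fun l => p l ∧ j l = j k).card : ℤ) : ℂ) • (Pi.single j 1 : Idx d n → ℂ) =
      ∑ l, if p l ∧ j l = j k then Pi.single (fun t => j (Equiv.swap k l t)) 1 else 0 := by
  rw [Int.cast_natCast, Nat.cast_smul_eq_nsmul, ← Finset.sum_const, Finset.sum_filter]
  refine Finset.sum_congr rfl fun l _ => ?_
  split_ifs with h
  · congr 1
    exact funext fun t => (Equiv.apply_swap_eq_self h.2.symm t).symm
  · rfl

theorem ca_XbVec_eq (ρ : Wt n) (k : Fin d) (j : Idx d n) :
    XbVec ρ k j = (ρ (j k) : ℂ) • Pi.single j 1 +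
      ∑ l, (if l < k then Pi.single (fun t => j (Equiv.swap k l t)) 1 else 0) -
      ∑ l, if l ≠ k ∧ j l < j k then Pi.single (fun t => j (Equiv.swap k l t)) 1 else 0 := by
  rw [XbVec, res, Int.cast_add, add_smul, ca_card_smul_swap]
  simp only [Finset.sum_filter, add_sub_assoc, add_assoc, ← Finset.sum_sub_distrib,
    ← Finset.sum_add_distrib]
  congr 1
  refine Finset.sum_congr rfl fun l _ => ?_
  split_ifs <;> first | omega | simp

theorem ca_XbVec_eq' (ρ : Wt n) (k : Fin d) (j : Idx d n) :
    XbVec ρ k j = (((ρ + (tpow n d).wt j) (j k) : ℤ) - 1 : ℂ) • Pi.single j 1 +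
      ∑ l, (if l ≠ k ∧ j k < j l then Pi.single (fun t => j (Equiv.swap k l t)) 1 else 0) -
      ∑ l, if k < l then Pi.single (fun t => j (Equiv.swap k l t)) 1 else 0 := by
  have h1 : (tpow n d).wt j (j k) =
      (Finset.univ.filter fun l => l ≠ k ∧ j l = j k).card + 1 := by
    simp only [tpow, Finset.sum_apply, Pi.single_apply, Finset.card_filter]
    rw [← Finset.add_sum_erase _ _ (Finset.mem_univ k), ← Finset.sum_erase (s := Finset.univ)
      (a := k) (by simp), if_pos rfl, add_comm, Nat.cast_sum]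
    congr 1
    exact Finset.sum_congr rfl fun l hl => by simp [Finset.ne_of_mem_erase hl, eq_comm]
  rw [ca_XbVec_eq, Pi.add_apply, h1, ← add_assoc, Int.cast_add, Int.cast_one, add_sub_cancel_right,
    Int.cast_add, add_smul, ca_card_smul_swap]
  simp only [add_sub_assoc, add_assoc, ← Finset.sum_sub_distrib, ← Finset.sum_add_distrib]
  congr 1
  refine Finset.sum_congr rfl fun l _ => ?_
  split_ifs <;> first | omega | simp

theorem cl_xF {M : GMod n} {ρ : Wt n} {v : M.V} (h : M.IsVerma ρ v) (k : Fin d)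
    (m : Idx d n → M.V) : cl (tpow n d) h (xF M k m) = Xb ρ k (cl (tpow n d) h m) := by
  rw [cl_endo _ h (xF_hom M k), Xb_apply]
  refine Finset.sum_congr rfl fun j _ => congrArg _ ?_
  have h1 : ∀ a, cl (tpow n d) h (Pi.single (Function.update j k a) (M.E (j k) a v)) =
      (if a = j k then ((ρ (j k) + (j k : ℕ) : ℤ) : ℂ) • Pi.single j 1 else 0) -
      if a < j k then matOp ℂ ((tpow n d).C (eM (j k) a)) (Pi.single (Function.update j k a) 1)
      else 0 := by
    intro a
    rcases lt_trichotomy a (j k) with ha | rfl | ha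
    · rw [ca_cl_low_single _ h ha, if_neg ha.ne, if_pos ha, zero_sub]
    · rw [(M.mem_W _ _).1 h.1.1, Pi.single_smul', map_smul, Function.update_eq_self, cl_single]
      simp
    · simp [h.1.2 _ _ ha, ha.ne', ha.not_gt]
  simp only [ca_xF_single, map_add, map_sum, h1, Finset.sum_sub_distrib, ca_sum_tpow_update,
    apply_ite (cl (tpow n d) h), cl_single, map_zero, Finset.sum_ite_eq', Finset.mem_univ, if_true,
    ca_XbVec_eq, Finset.filter_gt_eq_Iio, Fin.card_Iio]
  push_cast
  module

theorem cl_sP {M : GMod n} {ρ : Wt n} {v : M.V} (h : M.IsVerma ρ v) (w : Equiv.Perm (Fin d))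
    (m : Idx d n → M.V) : cl (tpow n d) h (sP M.V w m) = sP ℂ w (cl (tpow n d) h m) := by
  rw [cl_endo _ h (sP_hom M w)]
  conv_rhs => rw [pi_eq_sum_univ' (cl (tpow n d) h m)]
  simp only [map_sum, map_smul, sP_single, cl_single]

theorem cl_sP_dual {Y : GMod n} {η : Wt n} {y : Y.V} (h : Y.IsVerma η y) (w : Equiv.Perm (Fin d))
    (m : Idx d n → Y.V) :
    cl (tpow n d).dual h (sP Y.V w m) = sP ℂ w (cl (tpow n d).dual h m) := by
  rw [cl_endo _ h (sP_hom_dual Y w)]
  conv_rhs => rw [pi_eq_sum_univ' (cl (tpow n d).dual h m)]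
  simp only [map_sum, map_smul, sP_single, cl_single]

theorem adjR_sP {X Y : Type} [AddCommGroup X] [Module ℂ X] [AddCommGroup Y] [Module ℂ Y]
    (g : (Idx d n → X) →ₗ[ℂ] Y) (w : Equiv.Perm (Fin d)) (v : X) :
    adjR (g.comp (sP X w)) v = sP Y w.symm (adjR g v) := by
  funext i
  simp only [adjR_apply, sP_apply, LinearMap.comp_apply, sP_single]

/-- The coefficient representation on one strand. -/
noncomputable def ca_Ck (k : Fin d) : Coef n (Idx d n) where
  C := Dk k
  comm A B := by rw [map_sub, Dk_mul, Dk_mul]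
  wt i := eps (i k)
  diag a := by
    ext i j
    simp only [Dk, LinearMap.coe_mk, AddHom.coe_mk, Matrix.single_apply, Matrix.diagonal_apply,
      Pi.single_apply]
    by_cases h : i = j
    · subst h
      simp
    · rw [if_neg h]
      split_ifs with h1 h2
      · exact (h (funext fun l => if hl : l = k then hl ▸ h2.1.symm.trans h2.2 else h1 l hl)).elim
      all_goals rfl

theorem ca_Om_Ck_hom (Y : GMod n) (k : Fin d) :
    (Ten (tpow n d).dual Y).IsHom (Ten (tpow n d).dual Y) (Om (ca_Ck k).dual Y) := by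
  intro A m
  have h1 : tenρ (tpow n d).dual Y A = tenρ (ca_Ck k).dual Y A +
      ∑ l ∈ Finset.univ.erase k, matOp Y.V (-(Dk l A).transpose) := by
    change matOp Y.V (-((∑ l, Dk l : Mat n →ₗ[ℂ] _) A).transpose) + _ =
      matOp Y.V (-(Dk k A).transpose) + _ + _
    rw [LinearMap.sum_apply, Matrix.transpose_sum, ← Finset.sum_neg_distrib, map_sum,
      ← Finset.add_sum_erase _ _ (Finset.mem_univ k), add_right_comm]
  have h2 : Commute (tenρ (tpow n d).dual Y A) (Om (ca_Ck k).dual Y) := by
    rw [h1]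
    refine (Om_comm _ Y A).add_left (Commute.sum_left _ _ _ fun l hl =>
      Commute.sum_right _ _ _ fun a _ => Commute.sum_right _ _ _ fun b _ => Commute.mul_right
        (Commute.map (Commute.neg_left (Commute.neg_right ?_)) _) ?_)
    · change _ * (Dk k (eM a b)).transpose = (Dk k (eM a b)).transpose * _
      rw [← Matrix.transpose_mul, ← Matrix.transpose_mul, Dk_comm (Finset.ne_of_mem_erase hl)]
    · exact LinearMap.ext fun m => (ptOp_matOp _ _ m).symm
  exact (congrArg (fun T : End ℂ (Idx d n → Y.V) => T m) h2.eq).symm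

theorem ca_Om_Ck (Y : GMod n) (k : Fin d) : Om (ca_Ck k).dual Y =
    -∑ a, ∑ b, matOp Y.V (Dk k (eM b a)) * ptOp (Idx d n) (Y.E b a) := by
  simp only [Om, ← Finset.sum_neg_distrib]
  refine Finset.sum_congr rfl fun a _ => Finset.sum_congr rfl fun b _ => ?_
  change matOp Y.V (-(Dk k (eM a b)).transpose) * _ = _
  rw [ca_Dk_transpose, map_neg]
  rfl

theorem ca_adjR_xF {M Y : GMod n} (v : M.V) {g : (Idx d n → M.V) →ₗ[ℂ] Y.V}
    (hg : (Ten (tpow n d) M).IsHom Y g) (k : Fin d) : adjR (g.comp (xF M k)) v =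
      -Om (ca_Ck k).dual Y (adjR g v) - (n : ℂ) • adjR g v -
        ∑ l, if k < l then sP Y.V (Equiv.swap k l) (adjR g v) else 0 := by
  funext i
  have h1 : ∀ a, g (Pi.single (Function.update i k a) (M.E (i k) a v)) =
      Y.E (i k) a (g (Pi.single (Function.update i k a) v)) -
      g (matOp M.V ((tpow n d).C (eM (i k) a)) (Pi.single (Function.update i k a) v)) := by
    intro a
    rw [eq_sub_iff_add_eq', ← map_add, ← ca_ptOp_single, ← hg]
    rfl
  have h2 := congrArg g (ca_sum_tpow_update M.V k (fun _ => True) i v)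
  simp only [if_true, map_sum, map_add, map_smul, Finset.filter_true, Finset.card_univ,
    Fintype.card_fin, and_true, apply_ite g, map_zero] at h2
  have h3 : ∑ l, (if l ≠ k then g (Pi.single (fun t => i (Equiv.swap k l t)) v) else 0) =
      ∑ l, (if l < k then g (Pi.single (fun t => i (Equiv.swap k l t)) v) else 0) +
      ∑ l, if k < l then g (Pi.single (fun t => i (Equiv.swap k l t)) v) else 0 := by
    rw [← Finset.sum_add_distrib]
    refine Finset.sum_congr rfl fun l _ => ?_
    split_ifs <;> first | omega | simp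
  have h4 : (-Om (ca_Ck k).dual Y (adjR g v)) i =
      ∑ a, Y.E (i k) a (g (Pi.single (Function.update i k a) v)) := by
    simp [ca_Om_Ck, LinearMap.sum_apply, matOp_Dk, ptOp_apply, adjR_apply, Matrix.single_apply,
      ite_and]
  simp only [adjR_apply, LinearMap.comp_apply, ca_xF_single, map_add, map_sum, h1,
    Finset.sum_sub_distrib, h2, h3, Pi.sub_apply, h4, Pi.smul_apply, Finset.sum_apply, ite_apply,
    sP_apply, Pi.zero_apply, apply_ite g, map_zero]
  abel

theorem ca_cl_Om {Y : GMod n} {η : Wt n} {y : Y.V} (h : Y.IsVerma η y) (k : Fin d) (j : Idx d n) :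
    -cl (tpow n d).dual h (Om (ca_Ck k).dual Y (Pi.single j y)) =
      (η (j k) - 1 + n : ℂ) • Pi.single j 1 +
      ∑ l, if l ≠ k ∧ j k < j l then Pi.single (fun t => j (Equiv.swap k l t)) 1 else 0 := by
  have h1 : ∀ b, cl (tpow n d).dual h (Pi.single (Function.update j k b) (Y.E b (j k) y)) =
      (if b = j k then ((η (j k) + (j k : ℕ) : ℤ) : ℂ) • Pi.single j 1 else 0) +
      if j k < b then matOp ℂ ((tpow n d).C (eM (j k) b)) (Pi.single (Function.update j k b) 1)
      else 0 := by
    intro b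
    rcases lt_trichotomy (j k) b with hb | rfl | hb
    · rw [ca_cl_low_single _ h hb, if_neg hb.ne', if_pos hb, zero_add, ← LinearMap.neg_apply,
        ← map_neg]
      congr 2
      change - -((∑ l, Dk l : Mat n →ₗ[ℂ] _) _).transpose = (∑ l, Dk l : Mat n →ₗ[ℂ] _) _
      simp only [neg_neg, LinearMap.sum_apply, Matrix.transpose_sum, ca_Dk_transpose]
    · rw [(Y.mem_W _ _).1 h.1.1, Pi.single_smul', map_smul, Function.update_eq_self, cl_single]
      simp
    · simp [h.1.2 _ _ hb, hb.ne, hb.not_gt]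
  have h2 : Om (ca_Ck k).dual Y (Pi.single j y) =
      -∑ b, Pi.single (Function.update j k b) (Y.E b (j k) y) := by
    rw [ca_Om_Ck, Finset.sum_comm]
    simp [LinearMap.sum_apply, ca_ptOp_single, ca_Dk_single]
  have h3 : ((n - 1 - (j k : ℕ) : ℕ) : ℂ) = n - 1 - (j k : ℕ) := by
    have := (j k).2
    rw [Nat.cast_sub (by omega), Nat.cast_sub (by omega), Nat.cast_one]
  simp only [h2, map_neg, neg_neg, map_sum, h1, Finset.sum_add_distrib, ca_sum_tpow_update,
    Finset.sum_ite_eq', Finset.mem_univ, if_true, Finset.filter_lt_eq_Ioi, Fin.card_Ioi, h3]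
  push_cast
  module

theorem cl_adjR_xF {M Y : GMod n} {ρ η : Wt n} {v : M.V} (hv : v ∈ M.W ρ) {y : Y.V}
    (h : Y.IsVerma η y) {g : (Idx d n → M.V) →ₗ[ℂ] Y.V} (hg : (Ten (tpow n d) M).IsHom Y g)
    (k : Fin d) : cl (tpow n d).dual h (adjR (g.comp (xF M k)) v) =
      Xb ρ k (cl (tpow n d).dual h (adjR g v)) := by
  have hu := (adjR_hom (isDual_dual _) hg).map_W hv
  simp only [ca_adjR_xF v hg, map_sub, map_neg, map_smul, map_sum, apply_ite (cl (tpow n d).dual h),
    map_zero, cl_sP_dual]
  rw [cl_endo _ h (ca_Om_Ck_hom Y k), Xb_apply]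
  have h1 : ∀ j, cl (tpow n d).dual h (adjR g v) j ≠ 0 → η = ρ + (tpow n d).wt j := fun j hj =>
    sub_eq_iff_eq_add.1 ((sub_eq_add_neg _ _).trans (cl_supp _ h hu hj))
  generalize cl (tpow n d).dual h (adjR g v) = z at h1 ⊢
  have h2 : ∀ T : End ℂ (Idx d n → ℂ), T z = ∑ j, z j • T (Pi.single j 1) := fun T => by
    conv_lhs => rw [pi_eq_sum_univ' z]
    simp only [map_sum, map_smul]
  have h3 : (∑ l, if k < l then sP ℂ (Equiv.swap k l) z else 0) = ∑ j, z j •
      ∑ l, if k < l then (Pi.single (fun t => j (Equiv.swap k l t)) 1 : Idx d n → ℂ) else 0 := by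
    simp only [h2 (sP ℂ _), sP_single, Equiv.symm_swap, Finset.smul_sum, smul_ite, smul_zero,
      Finset.ite_sum_zero]
    exact Finset.sum_comm
  rw [h3, show (n : ℂ) • z = _ from h2 ((n : ℂ) • 1), ← Finset.sum_neg_distrib,
    ← Finset.sum_sub_distrib, ← Finset.sum_sub_distrib]
  refine Finset.sum_congr rfl fun j _ => ?_
  by_cases hj : z j = 0
  · simp [hj]
  rw [← smul_neg, ca_cl_Om, ca_XbVec_eq', ← h1 j hj, LinearMap.smul_apply, End.one_apply]
  module

end Pool.Agent.KM
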