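import Pool.Agent.Lib.MP_515a76_al.GPowA

/-! The action of the `x k` on permutation modules: combinatorics. -/

namespace Pool.Agent.KM

open Module

variable {n d : ℕ}

/-- The residue of the `k`-th step of the path `j` starting at `ρ`. -/
def res (ρ : Wt n) (j : Idx d n) (k : Fin d) : ℤ :=
  ρ (j k) + ((Finset.univ.filter fun l => l < k ∧ j l = j k).card : ℤ)

/-- The residue sequence as a colour word. -/
def iOf (ρ : Wt n) (j : Idx d n) : ℕ → ℤ := fun k => if h : k < d then res ρ j ⟨k, h⟩ else 0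

/-- The image of a basis vector under the induced action of `x k`. -/
noncomputable def XbVec (ρ : Wt n) (k : Fin d) (j : Idx d n) : Idx d n → ℂ :=
  ((res ρ j k : ℤ) : ℂ) • Pi.single j 1 +
    ∑ l ∈ Finset.univ.filter fun l => l < k ∧ j k < j l,
      (Pi.single (fun t => j (Equiv.swap k l t)) 1 : Idx d n → ℂ) -
    ∑ l ∈ Finset.univ.filter fun l => k < l ∧ j l < j k,
      (Pi.single (fun t => j (Equiv.swap k l t)) 1 : Idx d n → ℂ)

/-- The induced action of `x k`. -/
noncomputable def Xb (ρ : Wt n) (k : Fin d) : End ℂ (Idx d n → ℂ) :=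
  ∑ j : Idx d n, (LinearMap.proj j : (Idx d n → ℂ) →ₗ[ℂ] ℂ).smulRight (XbVec ρ k j)

theorem Xb_apply (ρ : Wt n) (k : Fin d) (z : Idx d n → ℂ) :
    Xb ρ k z = ∑ j, z j • XbVec ρ k j := by
  simp [Xb]

namespace CB

theorem wt_apply (j : Idx d n) (t : Fin n) :
    (tpow n d).wt j t = ((Finset.univ.filter fun k => j k = t).card : ℤ) := by
  change (∑ k, eps (j k) : Wt n) t = _
  rw [Finset.sum_apply, Finset.card_filter]
  push_cast
  refine Finset.sum_congr rfl fun k _ => ?_
  by_cases h : j k = t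
  · simp [h]
  · simp [h, Ne.symm h]

theorem wt_perm (j : Idx d n) (w : Equiv.Perm (Fin d)) :
    (tpow n d).wt (fun k => j (w k)) = (tpow n d).wt j :=
  Equiv.sum_comp w fun k => (eps (j k) : Wt n)

theorem lex_lt_of {a b : Wt n} {t : Fin n} (h : ∀ u, u ≤ t → a u ≤ b u) (ht : a t < b t) :
    toLex a < toLex b := by
  obtain ⟨u, hu, hmin⟩ := wellFounded_lt.has_min {u : Fin n | a u ≠ b u} ⟨t, ht.ne⟩
  have hut : u ≤ t := not_lt.mp (hmin t ht.ne)
  refine ⟨u, fun s hs => ?_, lt_of_le_of_ne (h u hut) hu⟩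
  by_contra hne
  exact hmin s hne hs

/-- The potential which is increased by the swaps. -/
def pot (j : Idx d n) : ℤ := ∑ k : Fin d, ((k : ℕ) : ℤ) * ((j k : ℕ) : ℤ)

theorem pot_swap (j : Idx d n) {k l : Fin d} (h : k ≠ l) :
    pot (fun t => j (Equiv.swap k l t)) - pot j =
      (((k : ℕ) : ℤ) - ((l : ℕ) : ℤ)) * (((j l : ℕ) : ℤ) - ((j k : ℕ) : ℤ)) := by
  rw [pot, pot, ← Finset.sum_sub_distrib, Fintype.sum_eq_add k l h]
  · simp only [Equiv.swap_apply_left, Equiv.swap_apply_right]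
    ring
  · intro t ht
    rw [Equiv.swap_apply_of_ne_of_ne ht.1 ht.2, sub_self]

theorem pot_lt_one (j : Idx d n) {k l : Fin d} (h : l < k ∧ j k < j l) :
    pot j < pot fun t => j (Equiv.swap k l t) := by
  have h1 := pot_swap j h.1.ne'
  have h2 : (0 : ℤ) < ((k : ℕ) : ℤ) - ((l : ℕ) : ℤ) := by
    have := Fin.lt_def.mp h.1
    omega
  have h3 : (0 : ℤ) < ((j l : ℕ) : ℤ) - ((j k : ℕ) : ℤ) := by
    have := Fin.lt_def.mp h.2
    omega
  have := mul_pos h2 h3
  linarith

theorem pot_lt_two (j : Idx d n) {k l : Fin d} (h : k < l ∧ j l < j k) :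
    pot j < pot fun t => j (Equiv.swap k l t) := by
  rw [Equiv.swap_comm]
  exact pot_lt_one j h

theorem single_zero {i j : Idx d n} {i' : Idx d n} (h : pot i ≤ pot j) (h' : pot j < pot i') :
    (Pi.single i' 1 : Idx d n → ℂ) i = 0 := by
  refine Pi.single_eq_of_ne ?_ _
  rintro rfl
  exact absurd h (not_le.mpr h')

theorem XbVec_low (ρ : Wt n) (k : Fin d) {i j : Idx d n} (h : pot i ≤ pot j) :
    XbVec ρ k j i = if i = j then ((res ρ j k : ℤ) : ℂ) else 0 := by
  simp only [XbVec, Pi.sub_apply, Pi.add_apply, Finset.sum_apply, Pi.smul_apply, smul_eq_mul]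
  rw [Finset.sum_eq_zero fun l hl => single_zero h (pot_lt_one j (Finset.mem_filter.mp hl).2),
    Finset.sum_eq_zero fun l hl => single_zero h (pot_lt_two j (Finset.mem_filter.mp hl).2)]
  by_cases e : i = j
  · subst e; simp
  · simp [e]

theorem Xb_low (ρ : Wt n) (k : Fin d) {p : ℤ} {z : Idx d n → ℂ} (hz : ∀ j, pot j < p → z j = 0)
    {i : Idx d n} (hi : pot i ≤ p) : Xb ρ k z i = ((res ρ i k : ℤ) : ℂ) * z i := by
  rw [Xb_apply, Finset.sum_apply, Finset.sum_eq_single i]
  · rw [Pi.smul_apply, XbVec_low ρ k le_rfl, if_pos rfl, smul_eq_mul, mul_comm]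
  · intro j _ hj
    rcases lt_or_ge (pot j) p with h | h
    · rw [hz j h, zero_smul]; rfl
    · rw [Pi.smul_apply, XbVec_low ρ k (hi.trans h), if_neg hj.symm, smul_zero]
  · simp

theorem pow_low (ρ : Wt n) (k : Fin d) (c : ℂ) {p : ℤ} {z : Idx d n → ℂ}
    (hz : ∀ j, pot j < p → z j = 0) (N : ℕ) : ∀ i : Idx d n, pot i ≤ p →
      ((Xb ρ k - c • (1 : End ℂ (Idx d n → ℂ))) ^ N) z i = (((res ρ i k : ℤ) : ℂ) - c) ^ N * z i := by
  induction N with
  | zero => intro i _; simp
  | succ N ih =>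
    intro i hi
    have h0 : ∀ j, pot j < p → ((Xb ρ k - c • (1 : End ℂ (Idx d n → ℂ))) ^ N) z j = 0 := by
      intro j hj
      rw [ih j hj.le, hz j hj, mul_zero]
    rw [pow_succ', Module.End.mul_apply, LinearMap.sub_apply, Pi.sub_apply, Xb_low ρ k h0 hi,
      LinearMap.smul_apply, Module.End.one_apply, Pi.smul_apply, ih i hi, smul_eq_mul]
    ring

theorem Xb_single (ρ : Wt n) (k : Fin d) (j : Idx d n) :
    Xb ρ k (Pi.single j 1) = XbVec ρ k j := by
  rw [Xb_apply, Finset.sum_eq_single j]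
  · simp
  · intro i _ hi
    rw [Pi.single_eq_of_ne hi, zero_smul]
  · simp

end CB

theorem XbVec_mono (ρ : Wt n) {j : Idx d n} (hj : Monotone j) (k : Fin d) :
    XbVec ρ k j = ((res ρ j k : ℤ) : ℂ) • Pi.single j 1 := by
  rw [XbVec, Finset.filter_eq_empty_iff.mpr, Finset.filter_eq_empty_iff.mpr]
  · simp
  · rintro l - ⟨h1, h2⟩
    exact absurd (hj h1.le) (not_le.mpr h2)
  · rintro l - ⟨h1, h2⟩
    exact absurd (hj h1.le) (not_le.mpr h2)

theorem res_inj {ρ : Wt n} (hρ : StrictAnti ρ) {j₀ j : Idx d n} (hj : Monotone j₀)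
    (hle : toLex ((tpow n d).wt j) ≤ toLex ((tpow n d).wt j₀)) (h : ∀ k, res ρ j k = res ρ j₀ k) :
    j = j₀ := by
  funext k
  induction k using WellFoundedLT.induction with
  | _ k ih =>
    have hk := h k
    rcases lt_trichotomy (j₀ k) (j k) with hlt | heq | hlt
    · exfalso
      have he : (Finset.univ.filter fun l => l < k ∧ j l = j k) = ∅ := by
        refine Finset.filter_eq_empty_iff.mpr ?_
        rintro l - ⟨h1, h2⟩
        rw [ih l h1] at h2
        exact absurd (h2 ▸ hj h1.le) (not_le.mpr hlt)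
      have := hρ hlt
      rw [res, res, he] at hk
      simp only [Finset.card_empty, Nat.cast_zero, add_zero] at hk
      omega
    · exact heq.symm
    · exfalso
      have hsub : ∀ u, u ≤ j k → (Finset.univ.filter fun l => j₀ l = u) ⊆
          (Finset.univ.filter fun l => j l = u).erase k := by
        intro u hu l hl
        have hl' : j₀ l = u := (Finset.mem_filter.mp hl).2
        have hlk : l < k := by
          by_contra hn
          have := hj (not_lt.mp hn)
          rw [hl'] at this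
          exact absurd (hu.trans_lt hlt) (not_lt.mpr this)
        exact Finset.mem_erase.mpr ⟨hlk.ne, Finset.mem_filter.mpr
          ⟨Finset.mem_univ _, (ih l hlk).trans hl'⟩⟩
      refine absurd hle (not_le.mpr (CB.lex_lt_of (t := j k) (fun u hu => ?_) ?_))
      · rw [CB.wt_apply, CB.wt_apply]
        exact_mod_cast Finset.card_le_card ((hsub u hu).trans (Finset.erase_subset _ _))
      · rw [CB.wt_apply, CB.wt_apply]
        exact_mod_cast (Finset.card_le_card (hsub _ le_rfl)).trans_lt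
          (Finset.card_erase_lt_of_mem (by simp))

theorem gen_eq_smul {ρ : Wt n} (hρ : StrictAnti ρ) {j₀ : Idx d n} (hj : Monotone j₀)
    {z : Idx d n → ℂ}
    (hz : ∀ j, z j ≠ 0 → toLex ((tpow n d).wt j) ≤ toLex ((tpow n d).wt j₀))
    (hn : ∀ k, ∃ N : ℕ,
      ((Xb ρ k - ((res ρ j₀ k : ℤ) : ℂ) • (1 : End ℂ (Idx d n → ℂ))) ^ N) z = 0) :
    z = z j₀ • Pi.single j₀ 1 := by
  by_contra hne
  set z' : Idx d n → ℂ := z - z j₀ • Pi.single j₀ 1 with hz'
  have hs : (Finset.univ.filter fun i => z' i ≠ 0).Nonempty := by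
    by_contra hn'
    apply hne
    rw [← sub_eq_zero]
    funext i
    by_contra hi
    exact hn' ⟨i, Finset.mem_filter.mpr ⟨Finset.mem_univ _, hi⟩⟩
  obtain ⟨i, hi, hmin⟩ := Finset.exists_min_image _ CB.pot hs
  have hi0 : z' i ≠ 0 := (Finset.mem_filter.mp hi).2
  have hij : i ≠ j₀ := by
    rintro rfl
    exact hi0 (by simp [hz'])
  have hzi : z i ≠ 0 := by
    intro h0
    exact hi0 (by simp [hz', h0, hij])
  refine hij (res_inj hρ hj (hz i hzi) fun k => ?_)
  obtain ⟨N, hN⟩ := hn k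
  set T : End ℂ (Idx d n → ℂ) := Xb ρ k - ((res ρ j₀ k : ℤ) : ℂ) • (1 : End ℂ (Idx d n → ℂ))
    with hT
  have h1 : T (Pi.single j₀ 1) = 0 := by
    rw [hT, LinearMap.sub_apply, CB.Xb_single, XbVec_mono ρ hj, LinearMap.smul_apply,
      Module.End.one_apply, sub_self]
  have h2 : (T ^ (N + 1)) z' = 0 := by
    rw [hz', map_sub, map_smul]
    nth_rewrite 1 [pow_succ']
    rw [pow_succ, Module.End.mul_apply, Module.End.mul_apply, hN, h1]
    simp
  have h3 := CB.pow_low ρ k ((res ρ j₀ k : ℤ) : ℂ) (p := CB.pot i) (z := z') (fun j hj' => by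
    by_contra h0
    exact absurd (hmin j (Finset.mem_filter.mpr ⟨Finset.mem_univ _, h0⟩)) (not_le.mpr hj'))
    (N + 1) i le_rfl
  rw [← hT, h2] at h3
  have h4 := (mul_eq_zero.mp h3.symm).resolve_right hi0
  have h5 := sub_eq_zero.mp (pow_eq_zero_iff (Nat.succ_ne_zero N) |>.mp h4)
  exact_mod_cast h5

theorem exists_mono (j : Idx d n) : ∃ j₀ : Idx d n, Monotone j₀ ∧
    (tpow n d).wt j₀ = (tpow n d).wt j :=
  ⟨fun k => j (Tuple.sort j k), Tuple.monotone_sort j, CB.wt_perm j _⟩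

theorem exists_perm_of_wt {j j' : Idx d n} (h : (tpow n d).wt j = (tpow n d).wt j') :
    ∃ w : Equiv.Perm (Fin d), j' = fun k => j (w k) := by
  have hc : ∀ t, Fintype.card {k // j' k = t} = Fintype.card {k // j k = t} := by
    intro t
    have := congrFun h t
    rw [CB.wt_apply, CB.wt_apply] at this
    rw [Fintype.card_subtype, Fintype.card_subtype]
    exact_mod_cast this.symm
  refine ⟨Equiv.ofFiberEquiv (f := j') (g := j) fun t => Fintype.equivOfCardEq (hc t), ?_⟩
  funext k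
  exact (Equiv.ofFiberEquiv_map _ k).symm

theorem wt_perm (j : Idx d n) (w : Equiv.Perm (Fin d)) :
    (tpow n d).wt (fun k => j (w k)) = (tpow n d).wt j :=
  CB.wt_perm j w

end Pool.Agent.KM
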