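import Pool.Agent.Lib.MP_515a76_al.KWords
import Pool.Agent.Lib.MP_515a76_al.KEq

/-! Tightness of the two concrete words. -/

namespace Pool.Agent.KM

variable {X : Type} [AddCommGroup X] [Module ℂ X]

theorem walk_eq (B : ℤ → ℤ) (i : ℕ → ℤ) (k : ℕ) (c : ℤ) :
    walk B i k c = B c - ((Finset.range k).filter fun l => i l = c).card +
      ((Finset.range k).filter fun l => i l + 1 = c).card := by
  simp only [Finset.card_filter]
  push_cast
  induction k with
  | zero => simp [walk]
  | succ k ih =>
    rw [Finset.sum_range_succ, Finset.sum_range_succ]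
    simp only [walk, move, ih, @eq_comm _ c]
    ring

namespace Tight

theorem walk_congr (B : ℤ → ℤ) {i j : ℕ → ℤ} {k : ℕ} (h : ∀ l < k, j l = i l) :
    walk B j k = walk B i k := by
  induction k with
  | zero => rfl
  | succ k ih =>
    simp only [walk]
    rw [ih fun l hl => h l (by omega), h k (by omega)]

theorem walk_perm (B : ℤ → ℤ) (i : ℕ → ℤ) {σ : ℕ → ℕ} (hσ : Function.Bijective σ) {k : ℕ}
    (h : ∀ l, k ≤ l → σ l = l) : walk B (fun l => i (σ l)) k = walk B i k := by
  have key : ∀ P : ℤ → Prop, ∀ [DecidablePred P],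
      ((Finset.range k).filter fun l => P (i (σ l))).card =
        ((Finset.range k).filter fun l => P (i l)).card := by
    intro P _
    have lt : ∀ l, l < k ↔ σ l < k := by
      intro l
      constructor
      · intro hl
        by_contra h1
        have := hσ.1 (h _ (not_lt.1 h1))
        omega
      · intro hl
        by_contra h1
        have := h _ (not_lt.1 h1)
        omega
    refine Finset.card_bij (fun l _ => σ l) ?_ (fun a _ b _ e => hσ.1 e) ?_
    · intro a ha
      simp only [Finset.mem_filter, Finset.mem_range] at ha ⊢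
      exact ⟨(lt a).1 ha.1, ha.2⟩
    · intro b hb
      obtain ⟨a, rfl⟩ := hσ.2 b
      simp only [Finset.mem_filter, Finset.mem_range] at hb
      exact ⟨a, by simp only [Finset.mem_filter, Finset.mem_range]; exact ⟨(lt a).2 hb.1, hb.2⟩,
        rfl⟩
  funext c
  rw [walk_eq, walk_eq, key (fun x => x = c), key (fun x => x + 1 = c)]

theorem step {w : List ℕ} (h : Red w) {r : ℕ} (hr : arr w (r + 1) < arr w r) :
    ∃ w', Br w (w' ++ [r]) ∧ Red w' ∧ arr w' r = arr w (r + 1) ∧ arr w' (r + 1) = arr w r ∧
      ∀ k, k ≠ r → k ≠ r + 1 → arr w' k = arr w k := by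
  obtain ⟨w', hw⟩ := exch_last h hr
  have e := hw.arr_eq.trans (arr_snoc w' r)
  refine ⟨w', hw, (hw.red.1 h).of_append, ?_, ?_, fun k h1 h2 => ?_⟩
  · rw [e]; simp
  · rw [e]; simp
  · rw [e]; simp [Equiv.swap_apply_of_ne_of_ne h1 h2]

theorem br_snoc {w w' u v : List ℕ} {r : ℕ} (h : Br w (w' ++ [r])) (h' : Br w' (u ++ v)) :
    Br w (u ++ (v ++ [r])) := by
  have := h'.context [] [r]
  simp only [List.nil_append, List.append_assoc] at this
  exact Relation.EqvGen.trans _ _ _ h this

theorem down (q n : ℕ) : ∀ w : List ℕ, Red w → (∀ k < q, arr w k = k) → arr w (q + 1 + n) = q →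
    ∃ u v, Br w (u ++ v) ∧ (∀ k < q, arr u k = k) ∧ arr u (q + 1) = q ∧ arr u q = arr w q := by
  induction n with
  | zero =>
    intro w _ h1 h2
    exact ⟨w, [], by rw [List.append_nil]; exact Relation.EqvGen.refl _, h1, h2, rfl⟩
  | succ n ih =>
    intro w h h1 h2
    have inj := (arr_bijective w).1
    have hr : arr w (q + 1 + n + 1) < arr w (q + 1 + n) := by
      change arr w (q + 1 + n + 1) = q at h2
      rw [h2]
      by_contra h3
      rcases (not_lt.1 h3).lt_or_eq with h4 | h4
      · have := inj (h1 _ h4)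
        omega
      · have := inj (h4.trans h2.symm)
        omega
    obtain ⟨w', b, r', e1, -, e3⟩ := step h hr
    obtain ⟨u, v, b', a1, a2, a3⟩ := ih w' r'
      (fun k hk => (e3 k (by omega) (by omega)).trans (h1 k hk)) (e1.trans h2)
    exact ⟨u, _, br_snoc b b', a1, a2, a3.trans (e3 q (by omega) (by omega))⟩

theorem up (q n : ℕ) : ∀ (w : List ℕ) (p : ℕ), Red w → (∀ k, q + 1 < k → arr w k = k) →
    p + n = q → arr w p = q + 1 → ∃ u v, Br w (u ++ v) ∧ (∀ k, q + 1 < k → arr u k = k) ∧
      arr u q = q + 1 ∧ arr u (q + 1) = arr w (q + 1) := by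
  induction n with
  | zero =>
    intro w p _ h1 h2 h3
    obtain rfl : p = q := h2
    exact ⟨w, [], by rw [List.append_nil]; exact Relation.EqvGen.refl _, h1, h3, rfl⟩
  | succ n ih =>
    intro w p h h1 h2 h3
    have inj := (arr_bijective w).1
    have hr : arr w (p + 1) < arr w p := by
      rw [h3]
      by_contra h4
      rcases (not_lt.1 h4).lt_or_eq with h5 | h5
      · have := inj (h1 _ h5)
        omega
      · have := inj (h3.trans h5)
        omega
    obtain ⟨w', b, r', -, e2, e3⟩ := step h hr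
    obtain ⟨u, v, b', a1, a2, a3⟩ := ih w' (p + 1) r'
      (fun k hk => (e3 k (by omega) (by omega)).trans (h1 k hk)) (by omega) (e2.trans h3)
    exact ⟨u, _, br_snoc b b', a1, a2, a3.trans (e3 _ (by omega) (by omega))⟩

end Tight

open Tight

/-- Good words from `i` to `i` do not move the outer strands. -/
theorem peel {d : ℕ} (K : KLR d X) (B : ℤ → ℤ) (i : ℕ → ℤ) (J : List ℕ) (lo hi : ℕ)
    (hlo : ∀ k < lo, walk B i k (i k) = 1)
    (hhi : ∀ k, hi ≤ k → k < d → walk B i k (i k + 1) = 0)
    (hz : ∀ j, Unreal B d j → K.G j = ⊥) {w : List ℕ} (hv : ValidP d w) (hg : K.Good i J w)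
    (ht : tgt i (w.map Let.p) = i) : ∀ p, p < lo ∨ hi ≤ p → arr w p = p := by
  classical
  obtain ⟨hred, -, hk⟩ := hg
  have bij := arr_bijective w
  have hc : ∀ k, i (arr w k) = i k := fun k => congrFun ((tgt_map i w).symm.trans ht) k
  have hd : ∀ p, arr w p ≠ p → p < d := fun p h => by
    by_contra h1
    exact h (arr_of_le hv (not_lt.1 h1))
  intro p₀ hp₀
  by_contra hne
  rcases hp₀ with hp₀ | hp₀
  · have ex : ∃ q, arr w q ≠ q := ⟨p₀, hne⟩
    have q1 := Nat.find_spec ex
    have q2 : ∀ k < Nat.find ex, arr w k = k := fun k hk => not_not.1 (Nat.find_min ex hk)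
    have q3 : Nat.find ex ≤ p₀ := Nat.find_min' ex hne
    generalize Nat.find ex = q at q1 q2 q3
    obtain ⟨p, hp⟩ := bij.2 q
    have h1 : q < p := by
      rcases lt_trichotomy p q with h | h | h
      · have := q2 p h
        omega
      · exact absurd (h ▸ hp) q1
      · exact h
    have h2 := hd p (by omega)
    obtain ⟨u, v, b, a1, a2, a3⟩ := down q (p - q - 1) w hred q2
      (by rw [show q + 1 + (p - q - 1) = p by omega, hp])
    refine hk ⟨u, v, b, hz _ ⟨q + 2, by omega, i q, ?_⟩⟩
    rw [tgt_map]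
    rw [walk, walk, walk_congr B (i := i) (fun l hl => by rw [a1 l hl]), a2, a3, hc]
    simp only [move]
    rw [hlo q (by omega)]
    simp
  · have q1 : arr w (Nat.findGreatest (fun q => arr w q ≠ q) d) ≠ _ :=
      Nat.findGreatest_spec (P := fun q => arr w q ≠ q) (hd _ hne).le hne
    have q2 : ∀ k, Nat.findGreatest (fun q => arr w q ≠ q) d < k → arr w k = k := fun k hk => by
      by_contra h
      exact Nat.findGreatest_is_greatest hk (hd k h).le h
    have q3 : p₀ ≤ Nat.findGreatest (fun q => arr w q ≠ q) d :=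
      Nat.le_findGreatest (hd _ hne).le hne
    generalize Nat.findGreatest (fun q => arr w q ≠ q) d = q at q1 q2 q3
    obtain ⟨p, hp⟩ := bij.2 q
    have h1 : p < q := by
      rcases lt_trichotomy p q with h | h | h
      · exact h
      · exact absurd (h ▸ hp) q1
      · have := q2 p h
        omega
    have h2 := hd q q1
    obtain ⟨q, rfl⟩ : ∃ q', q = q' + 1 := ⟨q - 1, by omega⟩
    obtain ⟨u, v, b, a1, a2, a3⟩ := up q (q - p) w p hred q2 (by omega) hp
    refine hk ⟨u, v, b, hz _ ⟨q, by omega, i (q + 1) + 1, ?_⟩⟩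
    rw [tgt_map]
    have e := congrFun (walk_perm B i (arr_bijective u) (k := q + 2) fun l hl => a1 l (by omega))
      (i (q + 1) + 1)
    have e2 := hhi (q + 1) (by omega) h2
    rw [walk, walk, a2, a3, hc, walk] at e
    simp only [move] at e
    rw [e2] at e
    simp at e
    omega

namespace Tight

/-- The weight of the inversions created by the value `v` placed after the values `P`. -/
def wt (c : ℕ → ℤ) (v : ℕ) : List ℕ → ℤ
  | [] => 0
  | u :: P => (if v < u then invWt (c u) (c v) else 0) + wt c v P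

/-- The value `v` may be placed at position `n` after the values `P`. -/
def ok (c : ℕ → ℤ) (J : List ℕ) (n : ℕ) (P : List ℕ) (v : ℕ) : Bool :=
  decide (c v = c n) && !P.elem v && J.all fun r => !(v == r + 1) || P.elem r

/-- Depth first search over all arrangements. -/
def chk (c : ℕ → ℤ) (J vs : List ℕ) : ℕ → ℕ → List ℕ → ℤ → Bool → Bool
  | 0, _, _, dg, b => b || decide (1 ≤ dg)
  | k + 1, n, P, dg, b => vs.all fun v =>
      !ok c J n P v || chk c J vs k (n + 1) (v :: P) (dg + wt c v P) (b && v == n)

/-- The values placed so far. -/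
def pl (σ : ℕ → ℕ) (lo : ℕ) : ℕ → List ℕ
  | 0 => []
  | t + 1 => σ (lo + t) :: pl σ lo t

/-- The degree so far. -/
def dd (c : ℕ → ℤ) (σ : ℕ → ℕ) (lo : ℕ) : ℕ → ℤ
  | 0 => 0
  | t + 1 => dd c σ lo t + wt c (σ (lo + t)) (pl σ lo t)

theorem mem_pl {σ : ℕ → ℕ} {lo t u : ℕ} : u ∈ pl σ lo t ↔ ∃ k < t, σ (lo + k) = u := by
  induction t with
  | zero => simp [pl]
  | succ t ih =>
    simp only [pl, List.mem_cons, ih]
    constructor
    · rintro (rfl | ⟨k, hk, e⟩)
      · exact ⟨t, by omega, rfl⟩
      · exact ⟨k, by omega, e⟩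
    · rintro ⟨k, hk, e⟩
      rcases Nat.lt_succ_iff_lt_or_eq.1 hk with h | rfl
      · exact Or.inr ⟨k, h, e⟩
      · exact Or.inl e.symm

theorem wt_pl (c : ℕ → ℤ) (σ : ℕ → ℕ) (lo v t : ℕ) : wt c v (pl σ lo t) =
    ∑ k ∈ Finset.range t, if v < σ (lo + k) then invWt (c (σ (lo + k))) (c v) else 0 := by
  induction t with
  | zero => rfl
  | succ t ih => rw [Finset.sum_range_succ, pl, wt, ih, add_comm]

theorem chk_sound {c : ℕ → ℤ} {J vs : List ℕ} {σ : ℕ → ℕ} {lo m : ℕ}
    (h : ∀ t < m, σ (lo + t) ∈ vs ∧ ok c J (lo + t) (pl σ lo t) (σ (lo + t)) = true) (k : ℕ) :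
    ∀ (t : ℕ) (b : Bool), t + k = m → (b = true → ∀ s < t, σ (lo + s) = lo + s) →
      chk c J vs k (lo + t) (pl σ lo t) (dd c σ lo t) b = true →
      (∀ s < m, σ (lo + s) = lo + s) ∨ 1 ≤ dd c σ lo m := by
  induction k with
  | zero =>
    intro t b h1 h2 h3
    obtain rfl : t = m := h1
    simp only [chk, Bool.or_eq_true, decide_eq_true_eq] at h3
    exact h3.imp h2 id
  | succ k ih =>
    intro t b h1 h2 h3
    obtain ⟨a1, a2⟩ := h t (by omega)
    rw [chk, List.all_eq_true] at h3
    have h4 := h3 _ a1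
    rw [a2, Bool.not_true, Bool.false_or] at h4
    refine ih (t + 1) _ (by omega) ?_ h4
    intro hb s hs
    simp only [Bool.and_eq_true, beq_iff_eq] at hb
    rcases Nat.lt_succ_iff_lt_or_eq.1 hs with h5 | rfl
    · exact h2 hb.1 s h5
    · exact hb.2

theorem tight_of_chk {d : ℕ} {i c : ℕ → ℤ} {J : List ℕ} {lo m : ℕ}
    (hc : ∀ k < m, i (lo + k) = c (lo + k)) (hd : lo + m ≤ d) (hJ : ∀ r ∈ J, lo ≤ r)
    (hchk : chk c J (List.range' lo m) m lo [] 0 true = true) {w : List ℕ} (hv : ValidP d w)
    (hred : Red w) (hmin : RMin J w) (ht : tgt i (w.map Let.p) = i)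
    (hfix : ∀ p, p < lo ∨ lo + m ≤ p → arr w p = p) (hw : w ≠ []) :
    1 ≤ deg i (w.map Let.p) := by
  have bij := arr_bijective w
  have hi : ∀ k, i (arr w k) = i k := fun k => congrFun ((tgt_map i w).symm.trans ht) k
  have lo_le : ∀ p, lo ≤ p → lo ≤ arr w p := fun p hp => by
    by_contra h
    have := bij.1 (hfix _ (Or.inl (not_le.1 h)))
    omega
  have lt_hi : ∀ p, p < lo + m → arr w p < lo + m := fun p hp => by
    by_contra h
    have := bij.1 (hfix _ (Or.inr (not_lt.1 h)))
    omega
  have hc' : ∀ k < m, c (arr w (lo + k)) = i (arr w (lo + k)) := fun k hk => by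
    have h1 := lo_le (lo + k) (by omega)
    have h2 := lt_hi (lo + k) (by omega)
    have := hc (arr w (lo + k) - lo) (by omega)
    rw [show lo + (arr w (lo + k) - lo) = arr w (lo + k) by omega] at this
    exact this.symm
  have key := chk_sound (c := c) (J := J) (vs := List.range' lo m) (σ := arr w) (lo := lo) (m := m)
    (fun t ht' => ?_) m 0 true (zero_add m) (fun _ s hs => absurd hs (Nat.not_lt_zero s)) hchk
  · rcases key with key | key
    · refine absurd (hred.eq_nil fun p => ?_) hw
      by_cases h : p < lo ∨ lo + m ≤ p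
      · exact hfix p h
      · have := key (p - lo) (by omega)
        rwa [show lo + (p - lo) = p by omega] at this
    · rw [deg_red i hred hv]
      have s1 : ∀ q, ∑ p ∈ Finset.range (min q lo),
          (if arr w q < arr w p then invWt (i (arr w p)) (i (arr w q)) else 0) = 0 := fun q => by
        refine Finset.sum_eq_zero fun p hp => if_neg ?_
        rw [Finset.mem_range, lt_min_iff] at hp
        rw [hfix p (Or.inl hp.2)]
        by_cases h : q < lo
        · rw [hfix q (Or.inl h)]; omega
        · have := lo_le q (not_lt.1 h); omega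
      have s2 : ∀ t ≤ m, ∑ q ∈ Finset.range (lo + t), ∑ p ∈ Finset.range q,
          (if arr w q < arr w p then invWt (i (arr w p)) (i (arr w q)) else 0) =
          dd c (arr w) lo t := by
        intro t
        induction t with
        | zero =>
          intro _
          refine Finset.sum_eq_zero fun q hq => ?_
          have := s1 q
          rwa [min_eq_left (show q ≤ lo from (Finset.mem_range.1 hq).le)] at this
        | succ t ih =>
          intro h
          have := s1 (lo + t)
          rw [min_eq_right (Nat.le_add_right _ _)] at this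
          rw [← add_assoc, Finset.sum_range_succ, ih (by omega), dd, wt_pl, Finset.sum_range_add,
            this, zero_add]
          congr 1
          refine Finset.sum_congr rfl fun k hk => ?_
          rw [hc' k (by have := Finset.mem_range.1 hk; omega), hc' t (by omega)]
      obtain ⟨e, rfl⟩ := Nat.exists_eq_add_of_le hd
      rw [Finset.sum_range_add, s2 m le_rfl, Finset.sum_eq_zero, add_zero]
      · exact key
      · intro q _
        refine Finset.sum_eq_zero fun p hp => if_neg ?_
        rw [Finset.mem_range] at hp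
        rw [hfix (lo + m + q) (Or.inr (Nat.le_add_right _ _))]
        by_cases h : p < lo + m
        · have := lt_hi p h; omega
        · rw [hfix p (Or.inr (not_lt.1 h))]; omega
  · have h1 := lo_le (lo + t) (by omega)
    have h2 := lt_hi (lo + t) (by omega)
    refine ⟨List.mem_range'_1.2 ⟨h1, h2⟩, ?_⟩
    simp only [ok, Bool.and_eq_true, decide_eq_true_eq, Bool.not_eq_true', List.all_eq_true,
      Bool.or_eq_true, List.elem_eq_mem, decide_eq_false_iff_not, beq_eq_false_iff_ne, mem_pl]
    refine ⟨⟨by rw [hc' t ht', hi, hc t ht'], ?_⟩, fun r hr => ?_⟩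
    · rintro ⟨k, hk, e⟩
      have := bij.1 e
      omega
    · by_cases e : arr w (lo + t) = r + 1
      · right
        obtain ⟨p, hp⟩ := bij.2 r
        have h3 := hmin r hr p _ hp e
        have h4 : lo ≤ p := by
          by_contra h
          have := hfix p (Or.inl (not_le.1 h))
          have := hJ r hr
          omega
        exact ⟨p - lo, by omega, by rw [show lo + (p - lo) = p by omega, hp]⟩
      · exact Or.inl e

theorem chk_q : chk (wd qW) Jq (List.range' 0 16) 16 0 [] 0 true = true := by decide +kernel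

theorem chk_big :
    chk (fun k => wd midW (k - 88)) Jbig (List.range' 88 15) 15 88 [] 0 true = true := by
  decide +kernel

theorem big_mid : ∀ k < 15, iBig (88 + k) = wd midW (88 + k - 88) := by decide +kernel

theorem big_lo : ∀ k < 88, walk B0 iBig k (iBig k) = 1 := by decide +kernel

theorem big_hi : ∀ k < 192, 103 ≤ k → walk B0 iBig k (iBig k + 1) = 0 := by decide +kernel

end Tight

theorem tight_q (K : KLR 16 X) : K.Tight (wd qW) Jq := fun _ hv hg ht hw =>
  tight_of_chk (lo := 0) (m := 16) (fun _ _ => rfl) le_rfl (fun _ _ => Nat.zero_le _) chk_q hv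
    hg.1 hg.2.1 ht
    (fun _ hp => arr_of_le hv (hp.resolve_left (Nat.not_lt_zero _))) hw

theorem tight_big (K : KLR 192 X) (hz : ∀ j, Unreal B0 192 j → K.G j = ⊥) :
    K.Tight iBig Jbig := fun _ hv hg ht hw =>
  tight_of_chk (lo := 88) (m := 15) (c := fun k => wd midW (k - 88)) big_mid (by norm_num)
    (by decide) chk_big hv hg.1 hg.2.1 ht
    (peel K B0 iBig Jbig 88 103 big_lo (fun k h1 h2 => big_hi k h2 h1) hz hv hg ht) hw

end Pool.Agent.KM
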