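import Pool.Agent.Lib.MP_515a76_al.GBasic
import Pool.Agent.Lib.MP_515a76_al.KTight
import Pool.Agent.Lib.MP_515a76_al.BrDefs

/-! Concrete weights and blocks for `n = 16`. -/

namespace Pool.Agent.KM

/-- The highest weight of the simple module `M₀`. -/
def a0 : Wt 16 := ![6, 5, 6, 5, 6, 5, 6, 5, 6, 5, 4, 3, 6, 5, 4, 3]

/-- Simple roots of the parabolic subalgebra. -/
def parL : List ℕ := [0, 2, 4, 6, 8, 9, 10, 12, 13, 14]

/-- Column strict weights. -/
def ColS (a : Wt 16) : Prop := ∀ i j : Fin 16, (j : ℕ) = i + 1 → (i : ℕ) ∈ parL → a j < a i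

/-- Modules in the parabolic category. -/
def Par (M : GMod 16) : Prop := ∀ i j : Fin 16, (j : ℕ) = i + 1 → (i : ℕ) ∈ parL → M.LN j i

/-- The block after `on, mid`. -/
def Blam : ℤ → ℤ := walk B0 iBig 103

theorem data_walk_out (B : ℤ → ℤ) (i : ℕ → ℤ) (d : ℕ) (h : ∀ k < d, -10 ≤ i k ∧ i k ≤ 19) {t : ℤ}
    (ht : t < -10 ∨ 21 ≤ t) : walk B i d t = B t := by
  induction d with
  | zero => rfl
  | succ d ih =>
    have h1 := h d (Nat.lt_succ_self d)
    have h2 := ih fun k hk => h k (Nat.lt_succ_of_lt hk)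
    simp only [walk, move]
    rw [h2, if_neg (by omega), if_neg (by omega)]
    ring

theorem data_cnt_out {n : ℕ} (a : Wt n) (h : ∀ j, -10 ≤ a j ∧ a j ≤ 20) {t : ℤ}
    (ht : t < -10 ∨ 21 ≤ t) : cnt a t = 0 := by
  have : (Finset.univ.filter fun j => a j = t) = ∅ :=
    Finset.filter_eq_empty_iff.mpr fun j _ => by have := h j; omega
  simp [cnt, this]

theorem data_B0_out {t : ℤ} (ht : t < -10 ∨ 21 ≤ t) : B0 t = 0 := if_neg (by omega)

theorem data_ext {f g : ℤ → ℤ} (h : ∀ k < 31, f (((k : ℕ) : ℤ) - 10) = g (((k : ℕ) : ℤ) - 10))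
    (hf : ∀ t, t < -10 ∨ 21 ≤ t → f t = 0) (hg : ∀ t, t < -10 ∨ 21 ≤ t → g t = 0) : f = g := by
  funext t
  by_cases ht : t < -10 ∨ 21 ≤ t
  · rw [hf t ht, hg t ht]
  · have := h (t + 10).toNat (by omega)
    rwa [show (((t + 10).toNat : ℕ) : ℤ) - 10 = t by omega] at this

theorem data_big_bd : ∀ k < 192, -10 ≤ iBig k ∧ iBig k ≤ 19 := by decide +kernel

theorem data_q_bd : ∀ k < 104, -10 ≤ iQ k ∧ iQ k ≤ 19 := by decide +kernel

theorem data_big_out {d : ℕ} (hd : d ≤ 192) (t : ℤ) (ht : t < -10 ∨ 21 ≤ t) :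
    walk B0 iBig d t = 0 :=
  (data_walk_out B0 iBig d (fun k hk => data_big_bd k (by omega)) ht).trans (data_B0_out ht)

theorem data_q_out {d : ℕ} (hd : d ≤ 104) (t : ℤ) (ht : t < -10 ∨ 21 ≤ t) :
    walk B0 iQ d t = 0 :=
  (data_walk_out B0 iQ d (fun k hk => data_q_bd k (by omega)) ht).trans (data_B0_out ht)

theorem data_a0_out (t : ℤ) (ht : t < -10 ∨ 21 ≤ t) : cnt a0 t = 0 :=
  data_cnt_out a0 (by decide +kernel) ht

/-- An explicit block with support in `1, ..., 6`. -/
def exB (c1 c2 c3 c4 c5 c6 : ℤ) : ℤ → ℤ := fun t =>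
  if t = 1 then c1 else if t = 2 then c2 else if t = 3 then c3 else if t = 4 then c4 else
    if t = 5 then c5 else if t = 6 then c6 else 0

theorem data_exB_out (c1 c2 c3 c4 c5 c6 t : ℤ) (ht : t < 1 ∨ 7 ≤ t) :
    exB c1 c2 c3 c4 c5 c6 t = 0 := by
  simp only [exB]
  rw [if_neg (by omega), if_neg (by omega), if_neg (by omega), if_neg (by omega),
    if_neg (by omega), if_neg (by omega)]

theorem data_a0_eq : cnt a0 = exB 0 0 2 2 6 6 :=
  data_ext (by decide +kernel) data_a0_out fun t ht => data_exB_out _ _ _ _ _ _ t (by omega)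

theorem data_lam_eq : Blam = exB 0 0 2 3 5 6 :=
  data_ext (by decide +kernel) (data_big_out (by norm_num))
    fun t ht => data_exB_out _ _ _ _ _ _ t (by omega)

theorem data_q90_eq : walk B0 iQ 90 = exB 2 2 2 2 2 6 :=
  data_ext (by decide +kernel) (data_q_out (by norm_num))
    fun t ht => data_exB_out _ _ _ _ _ _ t (by omega)

theorem data_cnt_pos {n : ℕ} (a : Wt n) (j : Fin n) : 0 < cnt a (a j) := by
  have : 0 < (Finset.univ.filter fun i => a i = a j).card :=
    Finset.card_pos.mpr ⟨j, by simp⟩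
  simp only [cnt]
  exact_mod_cast this

theorem data_cnt_sum_le {n : ℕ} {a b : Wt n} (h : ∀ j, a j ≤ b j) (s : ℤ) (T : Finset ℤ)
    (hT : ∀ t ∈ T, s ≤ t) :
    ∑ t ∈ T, cnt a t ≤ ((Finset.univ.filter fun j => s ≤ b j).card : ℤ) := by
  simp only [cnt]
  rw [← Nat.cast_sum, Finset.sum_card_fiberwise_eq_card_filter, Nat.cast_le]
  refine Finset.card_le_card fun j hj => ?_
  simp only [Finset.mem_filter, Finset.mem_univ, true_and] at hj ⊢
  exact (hT _ hj).trans (h j)

theorem data_col_le {a : Wt 16} (h : ColS a) (h7 : ∀ t, 7 ≤ t → cnt a t = 0) (j : Fin 16) :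
    a j ≤ a0 j := by
  have h6 : ∀ i, a i ≤ 6 := fun i => by
    by_contra hc
    have h1 := data_cnt_pos a i
    rw [h7 _ (by omega)] at h1
    exact lt_irrefl _ h1
  have key : ∀ m : ℕ, ∀ i : Fin 16, (i : ℕ) = m → a i ≤ a0 i := by
    intro m
    induction m with
    | zero =>
      intro i hi
      have : a0 i = 6 := by
        have : ∀ i : Fin 16, (i : ℕ) = 0 → a0 i = 6 := by decide +kernel
        exact this i hi
      rw [this]
      exact h6 i
    | succ m ih =>
      intro i hi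
      have hm : m < 16 := by have := i.2; omega
      have hd : ∀ i i' : Fin 16, (i : ℕ) = i' + 1 →
          a0 i = 6 ∨ ((i' : ℕ) ∈ parL ∧ a0 i + 1 = a0 i') := by decide +kernel
      rcases hd i ⟨m, hm⟩ hi with h1 | ⟨h1, h2⟩
      · rw [h1]
        exact h6 i
      · have h3 := h ⟨m, hm⟩ i hi h1
        have h4 := ih ⟨m, hm⟩ rfl
        omega
  exact key j j rfl

theorem data_move_out (c1 c2 c3 c4 c5 c6 : ℤ) {c : ℤ} (hc : c ≤ 5) (t : ℤ) (ht : 7 ≤ t) :
    move (exB c1 c2 c3 c4 c5 c6) c t = 0 := by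
  simp only [move]
  rw [data_exB_out _ _ _ _ _ _ t (Or.inr ht), if_neg (by omega), if_neg (by omega)]
  rfl

theorem cnt_rho6 : cnt (rhoC 16 6) = B0 :=
  data_ext (by decide +kernel) (fun _ ht => data_cnt_out _ (by decide +kernel) ht)
    fun _ ht => data_B0_out ht

theorem walk_end : walk B0 iBig 192 = cnt (rhoC 16 18) :=
  data_ext (by decide +kernel) (data_big_out le_rfl)
    fun _ ht => data_cnt_out _ (by decide +kernel) ht

theorem walk_q104 : walk B0 iQ 104 = cnt a0 :=
  data_ext (by decide +kernel) (data_q_out le_rfl) data_a0_out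

theorem walk_q103 : walk B0 iQ 103 = Blam :=
  data_ext (by decide +kernel) (data_q_out (by norm_num)) (data_big_out (by norm_num))

theorem move_lam : move Blam 4 = cnt a0 := by
  rw [← walk_q103, ← walk_q104]
  have : iQ 103 = 4 := by decide +kernel
  rw [← this]
  rfl

theorem cnt_a0_diff : cnt a0 5 - cnt a0 4 = 4 := by
  decide +kernel

theorem iP_eq : ∀ k < 103, iP k = iBig k := by
  decide +kernel

theorem iP_103 : iP 103 = 4 := by
  decide +kernel

theorem iQ_103 : iQ 103 = 4 := by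
  decide +kernel

theorem iQ_le : ∀ c ∈ revL iQ 104, c ≤ 5 := by
  decide +kernel

theorem length_revL (i : ℕ → ℤ) (d : ℕ) : (revL i d).length = d := by
  induction d with
  | zero => rfl
  | succ d ih => simp [revL, ih]

theorem farJ_big : FarJ 192 iBig Jbig := by
  unfold FarJ
  decide +kernel

theorem farJ_103 : FarJ 103 iBig Jbig := by
  unfold FarJ
  decide +kernel

theorem on_step : ∀ k < 88, walk B0 iQ (k + 1) (iQ k) = 0 ∧ 1 ≤ walk B0 iQ (k + 1) (iQ k + 1) := by
  decide +kernel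

theorem out_step : ∀ k, 103 ≤ k → k < 192 →
    walk B0 iBig k (iBig k + 1) = 0 ∧ 1 ≤ walk B0 iBig k (iBig k) := by
  have : ∀ k < 192, 103 ≤ k →
      walk B0 iBig k (iBig k + 1) = 0 ∧ 1 ≤ walk B0 iBig k (iBig k) := by decide +kernel
  exact fun k h1 h2 => this k h2 h1

theorem colS_a0 : ColS a0 := by
  unfold ColS
  decide +kernel

theorem col_mu {a : Wt 16} (h : ColS a) (ha : cnt a = cnt a0) : a = a0 := by
  have hle := data_col_le h fun t ht => by
    rw [ha, data_a0_eq]
    exact data_exB_out _ _ _ _ _ _ t (Or.inr ht)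
  obtain ⟨σ, hσ⟩ := (cnt_eq_iff a a0).mp ha
  have hs : ∑ j, a j = ∑ j, a0 j := by
    rw [hσ]
    exact (Equiv.sum_comp σ a).symm
  funext j
  exact (Finset.sum_eq_sum_iff_of_le fun i _ => hle i).mp hs j (Finset.mem_univ j)

theorem col_lam {a : Wt 16} (h : ColS a) {c : ℤ} (hc : c ≤ 5) (h4 : c ≠ 4) :
    cnt a ≠ move Blam c := by
  intro ha
  rw [data_lam_eq] at ha
  have hle := data_col_le h fun t ht => by
    rw [ha]
    exact data_move_out _ _ _ _ _ _ hc t ht
  rcases (show c ≤ 2 ∨ c = 3 ∨ c = 5 by omega) with h2 | rfl | rfl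
  · have h1 := cnt_nonneg a c
    rw [ha] at h1
    have h3 : exB 0 0 2 3 5 6 c = 0 := by
      rcases (show c < 1 ∨ c = 1 ∨ c = 2 by omega) with h0 | rfl | rfl
      · exact data_exB_out _ _ _ _ _ _ c (Or.inl h0)
      · rfl
      · rfl
    simp only [move] at h1
    rw [h3, if_neg (show ¬ c = c + 1 by omega)] at h1
    simp at h1
  · have h1 := data_cnt_sum_le hle 4 {4, 5, 6} (by decide)
    rw [ha] at h1
    exact absurd h1 (by decide +kernel)
  · have h1 := data_cnt_sum_le hle 6 {6} (by decide)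
    rw [ha] at h1
    exact absurd h1 (by decide +kernel)

theorem col_mu4 {a : Wt 16} (h : ColS a) : cnt a ≠ move (cnt a0) 4 := by
  intro ha
  rw [data_a0_eq] at ha
  have hle := data_col_le h fun t ht => by
    rw [ha]
    exact data_move_out _ _ _ _ _ _ (by norm_num) t ht
  have h1 := data_cnt_sum_le hle 5 {5, 6} (by decide)
  rw [ha] at h1
  exact absurd h1 (by decide +kernel)

theorem col_five {a : Wt 16} (h : ColS a) : cnt a ≠ move (walk B0 iQ 90) 5 := by
  intro ha
  rw [data_q90_eq] at ha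
  have hle := data_col_le h fun t ht => by
    rw [ha]
    exact data_move_out _ _ _ _ _ _ (by norm_num) t ht
  have h1 := data_cnt_sum_le hle 6 {6} (by decide)
  rw [ha] at h1
  exact absurd h1 (by decide +kernel)

end Pool.Agent.KM
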