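import Pool.Agent.Lib.MP_515a76_al.KRing
import Pool.Agent.Lib.MP_515a76_al.DBasic

/-! A finite dimensional integral DAHA module is a KLR representation. -/

namespace Pool.Agent.KM.DAHA

open Module

variable {d : ℕ} {X : Type} [AddCommGroup X] [Module ℂ X] (D : DAHA d X)

theorem ext_G (hI : D.Integral) {A B : End ℂ X} (h : ∀ i, ∀ m ∈ D.G i, A m = B m) : A = B := by
  have : ⊤ ≤ LinearMap.eqLocus A B := hI ▸ iSup_le h
  exact LinearMap.ext fun m => this Submodule.mem_top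

theorem exists_glue (hI : D.Integral) (T : (ℕ → ℤ) → End ℂ X) :
    ∃ S : End ℂ X, ∀ i, ∀ m ∈ D.G i, S m = T (fun k => if k < d then i k else 0) m := by
  classical
  let ex : (Fin d → ℤ) → ℕ → ℤ := fun c k => if h : k < d then c ⟨k, h⟩ else 0
  let A : (Fin d → ℤ) → Submodule ℂ X := fun c => D.G (ex c)
  have e : ∀ i, D.G i = A fun k => i k := fun i => D.G_congr fun k hk => by simp [ex, hk]
  have h : DirectSum.IsInternal A := by
    refine DirectSum.isInternal_submodule_of_iSupIndep_of_iSup_eq_top (fun c => ?_) ?_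
    · refine (D.isCompl hI (ex c)).disjoint.mono_right (iSup₂_le fun c' hc => ?_)
      obtain ⟨k, hk⟩ := Function.ne_iff.1 hc
      exact le_iSup_of_le ⟨ex c', k, k.2, by simpa [ex] using hk⟩ le_rfl
    · exact top_le_iff.1 (hI.ge.trans (iSup_le fun i => (e i).le.trans (le_iSup A fun k => i k)))
  refine ⟨(DirectSum.toModule ℂ _ X fun c => T (ex c) ∘ₗ (A c).subtype) ∘ₗ
    (LinearEquiv.ofBijective (DirectSum.coeLinearMap A) h).symm.toLinearMap, fun i m hm => ?_⟩
  have : (LinearEquiv.ofBijective (DirectSum.coeLinearMap A) h).symm m =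
      DirectSum.lof ℂ _ (fun c => A c) (fun k => i k) ⟨m, e i ▸ hm⟩ := by
    rw [LinearEquiv.symm_apply_eq]; simp
  rw [LinearMap.comp_apply, LinearEquiv.coe_coe, this, DirectSum.toModule_lof]
  rfl

theorem swap_lt {r k : ℕ} (hr : r + 1 < d) (hk : k < d) : Equiv.swap r (r + 1) k < d := by
  rw [Equiv.swap_apply_def]; split_ifs <;> omega

theorem phi_mem {r : ℕ} (hr : r + 1 < d) {i : ℕ → ℤ} {m : X} (hm : m ∈ D.G i) :
    D.phi r m ∈ D.G (sw r i) := by
  rw [mem_G] at hm ⊢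
  intro k hk
  obtain ⟨N, hN⟩ := hm _ (swap_lt hr hk)
  have h := D.phi_x hr (swap_lt hr hk)
  rw [Equiv.swap_apply_self] at h
  have h2 : SemiconjBy (D.phi r) (D.x (Equiv.swap r (r + 1) k) - ((sw r i k : ℤ) : ℂ) • 1)
      (D.x k - ((sw r i k : ℤ) : ℂ) • 1) := SemiconjBy.sub_right h (by simp [SemiconjBy])
  exact ⟨N, by rw [← End.mul_apply, ← (h2.pow_right N).eq, End.mul_apply, sw, hN, map_zero]⟩

theorem P_apply (k l : ℕ) (m : X) : D.P k l m = m + D.x k m - D.x l m := rfl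

theorem P_mem {i : ℕ → ℤ} {k l : ℕ} (hk : k < d) (hl : l < d) {m : X} (hm : m ∈ D.G i) :
    D.P k l m ∈ D.G i :=
  sub_mem (add_mem hm (D.x_mem_G i hk hm)) (D.x_mem_G i hl hm)

theorem P_inj {i : ℕ → ℤ} {k l : ℕ} (hk : k < d) (hl : l < d) (h : i k - i l ≠ -1) {m : X}
    (hm : m ∈ D.G i) (h0 : D.P k l m = 0) : m = 0 := by
  obtain ⟨N, hN⟩ := (D.mem_G i m).1 hm l hl
  have c : Commute (D.x k - ((i l - 1 : ℤ) : ℂ) • 1) (D.x l - ((i l : ℤ) : ℂ) • 1) :=
    ((Commute.sub_right (D.xx k l hk hl) ((Commute.one_right _).smul_right _)).sub_left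
      ((Commute.one_left _).smul_left _))
  have e : ∀ n : ℕ, ((D.x k - ((i l - 1 : ℤ) : ℂ) • 1 : End ℂ X) ^ n) m =
      ((D.x l - ((i l : ℤ) : ℂ) • 1 : End ℂ X) ^ n) m := fun n => by
    induction n with
    | zero => rfl
    | succ n ih =>
      rw [pow_succ' (D.x l - _), End.mul_apply, ← ih, ← End.mul_apply, ← (c.pow_left n).eq, pow_succ,
        End.mul_apply, End.mul_apply]
      congr 1
      rw [P_apply] at h0
      simp only [LinearMap.sub_apply, LinearMap.smul_apply, End.one_apply]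
      push_cast
      linear_combination (norm := module) h0
  exact Submodule.disjoint_def.1 (End.disjoint_genEigenspace (D.x k)
    (μ₁ := ((i k : ℤ) : ℂ)) (μ₂ := ((i l - 1 : ℤ) : ℂ)) (by exact_mod_cast (by omega)) ⊤ ⊤) m
    ((End.mem_maxGenEigenspace ..).2 ((D.mem_G i m).1 hm k hk))
    ((End.mem_maxGenEigenspace ..).2 ⟨N, (e N).trans hN⟩)

theorem comm_P {A : End ℂ X} {k l : ℕ} (h1 : Commute A (D.x k)) (h2 : Commute A (D.x l)) :
    Commute A (D.P k l) := ((Commute.one_right A).add_right h1).sub_right h2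

open Classical in
/-- The numerator of the crossing. -/
noncomputable def tau (p : Prop) (r : ℕ) : End ℂ X := if p then 1 - D.s r else D.phi r

theorem tau_pos {p : Prop} (h : p) (r : ℕ) (m : X) : D.tau p r m = m - D.s r m := by
  rw [tau, if_pos h]; rfl

theorem tau_neg {p : Prop} (h : ¬ p) (r : ℕ) : D.tau p r = D.phi r := if_neg h

theorem comm_tau {A : End ℂ X} (p : Prop) {r : ℕ} (h0 : Commute A (D.s r))
    (h1 : Commute A (D.x r)) (h2 : Commute A (D.x (r + 1))) : Commute A (D.tau p r) := by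
  unfold tau
  split_ifs
  · exact (Commute.one_right A).sub_right h0
  · exact ((h1.sub_right h2).mul_right h0).add_right (Commute.one_right A)

theorem x_tau (p : Prop) {r k : ℕ} (hr : r + 1 < d) (hk : k < d) (h1 : k ≠ r) (h2 : k ≠ r + 1) :
    Commute (D.x k) (D.tau p r) :=
  D.comm_tau p (D.sxfar r k hr hk h1 h2).symm (D.xx _ _ hk (by omega)) (D.xx _ _ hk hr)

theorem sw_eq {r : ℕ} {i : ℕ → ℤ} (h : i r = i (r + 1)) : sw r i = i := by
  funext k
  rw [sw, Equiv.swap_apply_def]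
  split_ifs with h1 h2
  exacts [h1 ▸ h.symm, h2 ▸ h, rfl]

theorem sw_l (r : ℕ) (i : ℕ → ℤ) : sw r i r = i (r + 1) := by simp [sw]
theorem sw_r (r : ℕ) (i : ℕ → ℤ) : sw r i (r + 1) = i r := by simp [sw]
theorem sw_o {r k : ℕ} (i : ℕ → ℤ) (h1 : k ≠ r) (h2 : k ≠ r + 1) : sw r i k = i k := by
  rw [sw, Equiv.swap_apply_of_ne_of_ne h1 h2]

theorem tau_mem {r : ℕ} (hr : r + 1 < d) {i : ℕ → ℤ} {m : X} (hm : m ∈ D.G i) :
    D.tau (i r = i (r + 1)) r m ∈ D.G (sw r i) := by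
  by_cases h : i r = i (r + 1)
  · rw [D.tau_pos h, sw_eq h]; exact sub_mem hm (D.s_mem_G hr h hm)
  · rw [D.tau_neg h]; exact D.phi_mem hr hm

/-- The glued operators. -/
structure Conv where
  hI : D.Integral
  y : ℕ → End ℂ X
  U : ℕ → ℕ → End ℂ X
  g : ℕ → ℕ → End ℂ X
  T : ℕ → End ℂ X
  hy : ∀ i k, k < d → ∀ m ∈ D.G i, y k m = D.x k m - ((i k : ℤ) : ℂ) • m
  hU : ∀ {i k l}, k < d → l < d → ∀ {m}, m ∈ D.G i →
    U k l m = if i k - i l = -1 then m else D.P k l m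
  gU : ∀ {k l}, k < d → l < d → g k l * U k l = 1
  Ug : ∀ {k l}, k < d → l < d → U k l * g k l = 1
  g_mem : ∀ {i k l}, k < d → l < d → ∀ {m}, m ∈ D.G i → g k l m ∈ D.G i
  hT : ∀ {i r}, r + 1 < d → ∀ {m}, m ∈ D.G i → T r m = D.tau (i r = i (r + 1)) r m

theorem exists_conv [FiniteDimensional ℂ X] (hI : D.Integral) : Nonempty D.Conv := by
  choose y hy using fun k => D.exists_glue hI fun i => D.x k - ((i k : ℤ) : ℂ) • 1
  choose U hU using fun k l => D.exists_glue hI fun i => if i k - i l = -1 then 1 else D.P k l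
  choose T hT using fun r => D.exists_glue hI fun i => D.tau (i r = i (r + 1)) r
  have h1 : ∀ {i k l}, k < d → l < d → ∀ {m}, m ∈ D.G i →
      U k l m = if i k - i l = -1 then m else D.P k l m := fun {i k l} hk hl m hm => by
    rw [hU k l i m hm]; simp only [if_pos hk, if_pos hl]; split_ifs <;> rfl
  have h2 : ∀ {i k l}, k < d → l < d → ∀ {m}, m ∈ D.G i → ∃ n ∈ D.G i, U k l n = m := by
    intro i k l hk hl m hm
    have a : ∀ n ∈ D.G i, U k l n ∈ D.G i := fun n hn => by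
      rw [h1 hk hl hn]; split_ifs; exacts [hn, D.P_mem hk hl hn]
    obtain ⟨n, hn⟩ := LinearMap.surjective_of_injective (f := (U k l).restrict a)
      ((injective_iff_map_eq_zero _).2 fun n hn => Subtype.ext (by
        have := (h1 hk hl n.2).symm.trans (congrArg Subtype.val hn)
        split_ifs at this with h
        exacts [this, D.P_inj hk hl h n.2 this])) ⟨m, hm⟩
    exact ⟨n, n.2, congrArg Subtype.val hn⟩
  have h3 : ∀ {k l}, k < d → l < d → IsUnit (U k l) := fun hk hl =>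
    (LinearMap.isUnit_iff_range_eq_top _).2 (top_le_iff.1 (hI ▸ iSup_le fun i m hm =>
      let ⟨n, _, e⟩ := h2 hk hl hm; ⟨n, e⟩))
  refine ⟨⟨hI, y, U, fun k l => Ring.inverse (U k l), T, fun i k hk m hm => ?_, h1,
    fun hk hl => Ring.inverse_mul_cancel _ (h3 hk hl), fun hk hl => Ring.mul_inverse_cancel _ (h3 hk hl),
    fun hk hl m hm => ?_, fun {i r} hr m hm => ?_⟩⟩
  · rw [hy k i m hm]; simp only [if_pos hk]; rfl
  · obtain ⟨n, hn, rfl⟩ := h2 hk hl hm
    rwa [← End.mul_apply, Ring.inverse_mul_cancel _ (h3 hk hl)]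
  · rw [hT r i m hm]; simp only [if_pos hr, if_pos (show r < d by omega)]

namespace Conv

variable {D} (C : D.Conv) {i : ℕ → ℤ} {k l r : ℕ} {m : X}

theorem g_U (hk : k < d) (hl : l < d) (m : X) : C.g k l (C.U k l m) = m := by
  rw [← End.mul_apply, C.gU hk hl, End.one_apply]

theorem U_g (hk : k < d) (hl : l < d) (m : X) : C.U k l (C.g k l m) = m := by
  rw [← End.mul_apply, C.Ug hk hl, End.one_apply]

theorem g_one (hk : k < d) (hl : l < d) (hm : m ∈ D.G i) (h : i k - i l = -1) : C.g k l m = m := by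
  have := C.g_U hk hl m
  rwa [C.hU hk hl hm, if_pos h] at this

theorem g_P (hk : k < d) (hl : l < d) (hm : m ∈ D.G i) (h : i k - i l ≠ -1) :
    C.g k l (D.P k l m) = m := by
  have := C.g_U hk hl m
  rwa [C.hU hk hl hm, if_neg h] at this

theorem P_g (hk : k < d) (hl : l < d) (hm : m ∈ D.G i) (h : i k - i l ≠ -1) :
    D.P k l (C.g k l m) = m := by
  have := C.U_g hk hl m
  rwa [C.hU hk hl (C.g_mem hk hl hm), if_neg h] at this

theorem nat {F : End ℂ X} {k' l' : ℕ} (hk : k < d) (hl : l < d) (hk' : k' < d) (hl' : l' < d)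
    (h1 : F * D.P k l = D.P k' l' * F)
    (h2 : ∀ i, ∃ j, j k' = i k ∧ j l' = i l ∧ ∀ m ∈ D.G i, F m ∈ D.G j) (m : X) :
    F (C.g k l m) = C.g k' l' (F m) := by
  have e : F * C.U k l = C.U k' l' * F := D.ext_G C.hI fun i m hm => by
    obtain ⟨j, a, b, c⟩ := h2 i
    rw [End.mul_apply, End.mul_apply, C.hU hk hl hm, C.hU hk' hl' (c m hm), a, b]
    split_ifs
    exacts [rfl, LinearMap.congr_fun h1 m]
  rw [← C.g_U hk' hl' (F _), ← End.mul_apply (C.U k' l'), ← e, End.mul_apply, C.U_g hk hl]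

theorem x_g {t : ℕ} (ht : t < d) (hk : k < d) (hl : l < d) (m : X) :
    D.x t (C.g k l m) = C.g k l (D.x t m) :=
  C.nat hk hl hk hl (D.comm_P (D.xx _ _ ht hk) (D.xx _ _ ht hl))
    (fun i => ⟨i, rfl, rfl, fun _ h => D.x_mem_G i ht h⟩) m

theorem P_g' {a b : ℕ} (ha : a < d) (hb : b < d) (hk : k < d) (hl : l < d) (m : X) :
    D.P a b (C.g k l m) = C.g k l (D.P a b m) := by
  rw [P_apply, P_apply, map_sub, map_add, C.x_g ha hk hl, C.x_g hb hk hl]

theorem g_g {a b : ℕ} (ha : a < d) (hb : b < d) (hk : k < d) (hl : l < d) (m : X) :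
    C.g a b (C.g k l m) = C.g k l (C.g a b m) :=
  C.nat hk hl hk hl (LinearMap.ext fun m => (C.P_g' hk hl ha hb m).symm)
    (fun i => ⟨i, rfl, rfl, fun _ h => C.g_mem ha hb h⟩) m

theorem phi_g (hr : r + 1 < d) (hk : k < d) (hl : l < d) {k' l' : ℕ}
    (e1 : Equiv.swap r (r + 1) k = k') (e2 : Equiv.swap r (r + 1) l = l') (m : X) :
    D.phi r (C.g k l m) = C.g k' l' (D.phi r m) := by
  subst e1 e2
  refine C.nat hk hl (swap_lt hr hk) (swap_lt hr hl) ?_
    (fun i => ⟨sw r i, by simp [sw], by simp [sw], fun _ h => D.phi_mem hr h⟩) m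
  simp only [P, mul_sub, mul_add, sub_mul, add_mul, D.phi_x hr hk, D.phi_x hr hl, mul_one, one_mul]

theorem s_gg {a b : ℕ} (hr : r + 1 < d) (ha : a < d) (hb : b < d) (hk : k < d) (hl : l < d)
    (hm : m ∈ D.G i) (h : i r = i (r + 1)) (e : i a - i b = i k - i l)
    (c : Commute (D.s r) (D.P k l * D.P a b)) :
    D.s r (C.g a b (C.g k l m)) = C.g a b (C.g k l (D.s r m)) := by
  have hs := D.s_mem_G hr h hm
  by_cases h1 : i k - i l = -1
  · rw [C.g_one hk hl hm h1, C.g_one ha hb hm (e.trans h1), C.g_one hk hl hs h1,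
      C.g_one ha hb hs (e.trans h1)]
  · have hz := D.s_mem_G hr h (C.g_mem ha hb (C.g_mem hk hl hm))
    have := LinearMap.congr_fun c.eq (C.g a b (C.g k l m))
    simp only [End.mul_apply] at this
    rw [C.P_g ha hb (C.g_mem hk hl hm) (e ▸ h1), C.P_g hk hl hm h1] at this
    rw [this, C.g_P hk hl (D.P_mem ha hb hz) h1, C.g_P ha hb hz (e ▸ h1)]

/-- The crossing. -/
def ψ (r : ℕ) : End ℂ X := C.g r (r + 1) * C.T r

theorem hψ (hr : r + 1 < d) (hm : m ∈ D.G i) {p : Prop} (h : (i r = i (r + 1)) = p) :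
    C.ψ r m = C.g r (r + 1) (D.tau p r m) := by
  rw [ψ, End.mul_apply, C.hT hr hm, h]

theorem ψ_mem (hr : r + 1 < d) (hm : m ∈ D.G i) : C.ψ r m ∈ D.G (sw r i) := by
  rw [C.hψ hr hm rfl]
  exact C.g_mem (by omega) hr (D.tau_mem hr hm)

theorem ψ_x (hr : r + 1 < d) (hk : k < d) (hm : m ∈ D.G i) :
    C.ψ r (D.x k m) = D.x (Equiv.swap r (r + 1) k) (C.ψ r m) + errY i r k • m := by
  have hr' : r < d := by omega
  rw [C.hψ hr hm rfl, C.hψ hr (D.x_mem_G i hk hm) rfl, C.x_g (swap_lt hr hk) hr' hr, errY, tau,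
    ← End.mul_apply _ (D.x k)]
  split_ifs with h h1 h2
  · rw [h1, D.one_sub_s_x hr, Equiv.swap_apply_left, LinearMap.add_apply, map_add,
      C.g_P hr' hr hm (by omega), one_smul, End.mul_apply]
  · rw [h2, D.one_sub_s_x' hr, Equiv.swap_apply_right, LinearMap.sub_apply, map_sub,
      C.g_P hr' hr hm (by omega), neg_smul, one_smul, End.mul_apply, sub_eq_add_neg]
  · rw [Equiv.swap_apply_of_ne_of_ne h1 h2, sub_mul, D.sxfar r k hr hk h1 h2]
    simp
  · rw [D.phi_x hr hk]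
    simp

theorem ψ_far {t : ℕ} (h : r + 1 < t) (ht : t + 1 < d) (hm : m ∈ D.G i) :
    C.ψ r (C.ψ t m) = C.ψ t (C.ψ r m) := by
  have hr : r + 1 < d := by omega
  have n : ∀ {a k l}, a + 1 < d → k < d → l < d → k ≠ a → k ≠ a + 1 → l ≠ a → l ≠ a + 1 → ∀ m,
      C.T a (C.g k l m) = C.g k l (C.T a m) := fun {a k l} ha hk hl h1 h2 h3 h4 m =>
    C.nat hk hl hk hl (D.ext_G C.hI fun i m hm => by
      rw [End.mul_apply, End.mul_apply, C.hT ha hm, C.hT ha (D.P_mem hk hl hm)]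
      exact LinearMap.congr_fun (D.comm_P (D.x_tau _ ha hk h1 h2).symm
        (D.x_tau _ ha hl h3 h4).symm).eq m)
      (fun i => ⟨sw a i, sw_o i h1 h2, sw_o i h3 h4, fun _ h => C.hT ha h ▸ D.tau_mem ha h⟩) m
  simp only [ψ, End.mul_apply]
  rw [n hr (by omega) ht (by omega) (by omega) (by omega) (by omega),
    n ht (by omega) hr (by omega) (by omega) (by omega) (by omega), C.g_g (by omega) hr (by omega) ht,
    C.hT ht hm, C.hT hr hm, C.hT hr (D.tau_mem ht hm), C.hT ht (D.tau_mem hr hm),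
    sw_o i (by omega) (by omega), sw_o i (by omega) (by omega), sw_o i (by omega) (by omega),
    sw_o i (by omega) (by omega)]
  refine congrArg _ (congrArg _ (LinearMap.congr_fun (D.comm_tau _ (D.comm_tau _
    (D.far r t h ht).symm (D.sxfar t r ht (by omega) (by omega) (by omega))
    (D.sxfar t _ ht hr (by omega) (by omega))).symm (D.x_tau _ hr (by omega) (by omega) (by omega)).symm
    (D.x_tau _ hr ht (by omega) (by omega)).symm).eq m))

theorem s_ψ (hr : r + 1 < d) (hm : m ∈ D.G i) (h : i r = i (r + 1)) :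
    D.s r (C.ψ r m) = C.ψ r m ∧ D.P r (r + 1) (C.ψ r m) = m - D.s r m := by
  have hz := C.ψ_mem hr hm
  rw [sw_eq h] at hz
  have e : D.P r (r + 1) (C.ψ r m) = m - D.s r m := by
    rw [C.hψ hr hm rfl, D.tau_pos h,
      C.P_g (by omega) hr (sub_mem hm (D.s_mem_G hr h hm)) (by omega)]
  refine ⟨sub_eq_zero.1 (D.P_inj hr (show r < d by omega) (by omega)
    (sub_mem (D.s_mem_G hr h hz) hz) ?_), e⟩
  have := LinearMap.congr_fun (D.one_add_s_P hr) (C.ψ r m)
  have ss := LinearMap.congr_fun (D.ss r hr) m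
  simp only [End.mul_apply, LinearMap.add_apply, LinearMap.sub_apply, End.one_apply, e] at this ss
  rw [← this, map_sub, ss]
  abel

theorem ψ_sq (hr : r + 1 < d) (hm : m ∈ D.G i) : C.ψ r (C.ψ r m) =
    if i r = i (r + 1) then 0 else if i r - i (r + 1) = -1 then C.y r m - C.y (r + 1) m
    else if i r - i (r + 1) = 1 then C.y (r + 1) m - C.y r m else m := by
  have hr' : r < d := by omega
  by_cases h : i r = i (r + 1)
  · rw [if_pos h, C.hψ hr (sw_eq h ▸ C.ψ_mem hr hm) rfl, D.tau_pos h, (C.s_ψ hr hm h).1, sub_self,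
      map_zero]
  rw [if_neg h, C.hψ hr (C.ψ_mem hr hm) rfl, D.tau_neg (by rw [sw_l, sw_r]; exact Ne.symm h),
    C.hψ hr hm rfl, D.tau_neg h,
    C.phi_g hr hr' hr (Equiv.swap_apply_left ..) (Equiv.swap_apply_right ..),
    ← End.mul_apply (D.phi r), D.phi_sq hr, End.mul_apply, ← C.P_g' hr' hr hr hr',
    C.hy i r hr' m hm, C.hy i _ hr m hm]
  split_ifs with h1 h2
  · rw [C.g_P hr hr' hm (by omega), C.g_one hr' hr (D.P_mem hr' hr hm) h1, P_apply,
      show i (r + 1) = i r + 1 by omega]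
    push_cast
    module
  · rw [C.g_one hr hr' (D.P_mem hr hr' hm) (by omega), C.g_P hr' hr (D.P_mem hr hr' hm) h1, P_apply,
      show i r = i (r + 1) + 1 by omega]
    push_cast
    module
  · rw [C.g_P hr hr' hm (by omega), C.g_P hr' hr hm h1]

theorem ψ_braid (hr : r + 2 < d) (hm : m ∈ D.G i) :
    C.ψ r (C.ψ (r + 1) (C.ψ r m)) = C.ψ (r + 1) (C.ψ r (C.ψ (r + 1) m)) + errB i r • m := by
  have h1 : r < d := by omega
  have h2 : r + 1 < d := by omega
  have w1 : Equiv.swap r (r + 1) (r + 2) = r + 2 :=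
    Equiv.swap_apply_of_ne_of_ne (by omega) (by omega)
  have w2 : Equiv.swap (r + 1) (r + 1 + 1) r = r :=
    Equiv.swap_apply_of_ne_of_ne (by omega) (by omega)
  have a1 := C.phi_g h2 h2 hr (Equiv.swap_apply_right ..) w1
  have a2 := C.phi_g h2 h1 hr (Equiv.swap_apply_left ..) w1
  have a3 := C.phi_g h2 h2 h1 (Equiv.swap_apply_right ..) (Equiv.swap_apply_left ..)
  have b1 : ∀ v, D.phi (r + 1) (C.g r (r + 1) v) = C.g r (r + 2) (D.phi (r + 1) v) :=
    C.phi_g hr h1 h2 w2 (Equiv.swap_apply_left ..)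
  have b2 : ∀ v, D.phi (r + 1) (C.g r (r + 2) v) = C.g r (r + 1) (D.phi (r + 1) v) :=
    C.phi_g hr h1 hr w2 (Equiv.swap_apply_right ..)
  have b3 : ∀ v, D.phi (r + 1) (C.g (r + 2) (r + 1) v) = C.g (r + 1) (r + 2) (D.phi (r + 1) v) :=
    C.phi_g hr hr h2 (Equiv.swap_apply_right ..) (Equiv.swap_apply_left ..)
  have c1 := C.g_g h1 hr h1 h2
  have c2 := C.g_g h2 hr h1 h2
  have c3 := C.g_g h2 hr h1 hr
  have q1 : sw r i (r + 2) = i (r + 2) := sw_o i (by omega) (by omega)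
  have q2 : ∀ i, sw (r + 1) i r = i r := fun i => sw_o i (by omega) (by omega)
  have q3 : ∀ i, sw (r + 1) i (r + 1) = i (r + 2) := sw_l (r + 1)
  have q4 : ∀ i, sw (r + 1) i (r + 2) = i (r + 1) := sw_r (r + 1)
  have q5 : ∀ i, sw r i (r + 2) = i (r + 2) := fun i => sw_o i (by omega) (by omega)
  have s1 : ∀ {j v}, v ∈ D.G j → j r = j (r + 1) → D.s r (C.g r (r + 2) (C.g (r + 1) (r + 2) v)) =
      C.g r (r + 2) (C.g (r + 1) (r + 2) (D.s r v)) := fun hv h => by
    rw [← c3, ← c3]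
    exact C.s_gg h2 h2 hr h1 hr hv h (by rw [h]) (D.s_comm_PP h2 hr (by omega) (by omega)).2
  have s2 : ∀ {j v}, v ∈ D.G j → j (r + 1) = j (r + 2) →
      D.s (r + 1) (C.g r (r + 1) (C.g r (r + 2) v)) =
        C.g r (r + 1) (C.g r (r + 2) (D.s (r + 1) v)) := fun hv h => by
    rw [← c1, ← c1]
    exact C.s_gg hr h1 hr h1 h2 hv h (by rw [h]) (D.s_comm_PP hr h1 (by omega) (by omega)).1
  have m1 := C.ψ_mem h2 hm
  have m2 := C.ψ_mem hr hm
  have L1 := C.hψ h2 hm rfl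
  have L2 : _ = C.g (r + 1) (r + 2) _ := C.hψ (p := i r = i (r + 2)) hr m1 (by rw [sw_r, ← q1])
  have L3 := C.hψ (p := i (r + 1) = i (r + 2)) h2 (C.ψ_mem hr m1) (by rw [q2, q3, sw_l, q1])
  have R1 : _ = C.g (r + 1) (r + 2) _ := C.hψ (p := i (r + 1) = i (r + 2)) hr hm rfl
  have R2 := C.hψ (p := i r = i (r + 2)) h2 m2 (by rw [q2, q3])
  have R3 : _ = C.g (r + 1) (r + 2) _ := C.hψ (p := i r = i (r + 1)) hr (C.ψ_mem h2 m2)
    (by rw [sw_r, q2, show sw r _ (r + 1 + 1) = _ from q5 _, q4])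
  rw [L3, L2, R3, R2, errB]
  by_cases e1 : i r = i (r + 2)
  · rw [if_pos e1]
    by_cases e2 : i r = i (r + 1)
    · have e3 : i (r + 1) = i (r + 2) := by omega
      rw [sw_eq e2] at m1
      rw [sw_eq e3] at m2
      obtain ⟨z1, z2⟩ := C.s_ψ h2 hm e2
      obtain ⟨z3, z4⟩ := C.s_ψ hr hm e3
      have n1 := sub_mem m1 (D.s_mem_G hr e3 m1)
      have n2 := sub_mem m2 (D.s_mem_G h2 e2 m2)
      have k1 := D.aaa_left hr z1
      have k2 := D.aaa_right hr z3
      have k3 := LinearMap.congr_fun (D.aaa_eq hr) m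
      simp only [End.mul_apply, LinearMap.sub_apply _ (D.s _), End.one_apply] at k1 k2 k3
      rw [z2, k3] at k1
      rw [show D.P (r + 1) (r + 2) _ = _ from z4] at k2
      rw [if_neg (by omega), if_neg (by omega), zero_smul, add_zero, D.tau_pos e3, D.tau_pos e1,
        D.tau_pos e2, D.tau_pos e1, ← C.g_P h1 hr n1 (by omega), ← C.g_P h1 hr n2 (by omega), c3,
        s1 (D.P_mem h1 hr n1) e2, s2 (D.P_mem h1 hr n2) e3, ← map_sub, ← map_sub, ← map_sub,
        ← map_sub, k1, k2, c2, c3]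
    · have e3 : i (r + 1) ≠ i (r + 2) := by omega
      have k1 : C.g r (r + 1) (D.tau (i (r + 1) = i (r + 2)) r (C.g (r + 1) (r + 2)
          (D.tau (i r = i (r + 2)) (r + 1) (C.ψ r m)))) =
          C.g r (r + 1) (C.g r (r + 2) (D.abaA r (C.g (r + 1) r m))) := by
        rw [D.tau_neg e3, D.tau_pos e1, a1, L1, D.tau_neg e2, ← a3]; rfl
      have k2 : C.g (r + 1) (r + 2) (D.tau (i r = i (r + 1)) (r + 1) (C.g r (r + 1)
          (D.tau (i r = i (r + 2)) r (C.ψ (r + 1) m)))) =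
          C.g (r + 1) (r + 2) (C.g r (r + 2) (D.abaB r (C.g (r + 2) (r + 1) m))) := by
        rw [D.tau_neg e2, D.tau_pos e1, b1, R1, D.tau_neg e3, ← b3]; rfl
      have u1 : sw r (sw r i) = i := funext fun k => by simp [sw]
      have u2 : sw (r + 1) (sw (r + 1) i) = i := funext fun k => by simp [sw]
      have mA : ∀ {v}, v ∈ D.G i → D.abaA r v ∈ D.G i := fun hv =>
        u1 ▸ D.phi_mem h2 (sub_mem (D.phi_mem h2 hv)
          (D.s_mem_G hr (by rw [sw_r, e1]; exact q1.symm) (D.phi_mem h2 hv)))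
      have mB : ∀ {v}, v ∈ D.G i → D.abaB r v ∈ D.G i := fun hv =>
        u2 ▸ D.phi_mem hr (sub_mem (D.phi_mem hr hv)
          (D.s_mem_G h2 (by rw [q2, q3, e1]) (D.phi_mem hr hv)))
      have dA : D.abaD r m = D.abaA r m + D.P r (r + 1) (D.P r (r + 2) m) := rfl
      have dB : D.abaD r m = D.abaB r m + D.P (r + 1) (r + 2) (D.P r (r + 2) m) :=
        LinearMap.congr_fun (D.abaD_eq hr) m
      have mD : D.abaD r m ∈ D.G i := dA ▸ add_mem (mA hm) (D.P_mem h1 h2 (D.P_mem h1 hr hm))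
      have fA : i (r + 1) - i r ≠ -1 →
          D.abaA r (C.g (r + 1) r m) = C.g (r + 1) (r + 2) (D.abaD r m) := fun h => by
        rw [← C.g_P h2 hr (mA (C.g_mem h2 h1 hm)) (by omega), ← End.mul_apply (D.P _ _),
          D.aba_A hr, End.mul_apply, C.P_g h2 h1 hm h]
      have fB : i (r + 2) - i (r + 1) ≠ -1 →
          D.abaB r (C.g (r + 2) (r + 1) m) = C.g r (r + 1) (D.abaD r m) := fun h => by
        rw [← C.g_P h1 h2 (mB (C.g_mem hr h2 hm)) (by omega), ← End.mul_apply (D.P _ _),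
          D.aba_B hr, End.mul_apply, C.P_g hr h2 hm h]
      rw [k1, k2]
      split_ifs with f1 f2
      · rw [fA (by omega), C.g_one h1 h2 (C.g_mem h1 hr (C.g_mem h2 hr mD)) (by omega),
          C.g_one hr h2 hm (by omega), c3, dB, map_add, map_add,
          C.g_P h2 hr (D.P_mem h1 hr hm) (by omega), C.g_P h1 hr hm (by omega), one_smul]
      · rw [fB (by omega), C.g_one h2 hr (C.g_mem h1 hr (C.g_mem h1 h2 mD)) (by omega),
          C.g_one h2 h1 hm (by omega), ← c1, dA, map_add, map_add,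
          C.g_P h1 h2 (D.P_mem h1 hr hm) (by omega), C.g_P h1 hr hm (by omega), neg_smul, one_smul,
          add_neg_cancel_right]
      · rw [fA (by omega), fB (by omega), zero_smul, add_zero, c1, c2, c3]
  rw [if_neg e1, zero_smul, add_zero, D.tau_neg e1, D.tau_neg e1, L1, R1, b1, a1]
  by_cases e2 : i r = i (r + 1)
  · have e3 : i (r + 1) ≠ i (r + 2) := by omega
    have k := LinearMap.congr_fun (D.phi_phi_s hr) m
    simp only [End.mul_apply] at k
    rw [D.tau_neg e3, D.tau_neg e3, D.tau_pos e2, D.tau_pos e2, a1, a2,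
      s2 (D.phi_mem h2 (D.phi_mem hr hm)) (by rw [sw_r, q5, q2, q4, e2]), map_sub (D.phi _),
      map_sub (D.phi _), k, ← map_sub, ← map_sub, c2, c3]
  by_cases e3 : i (r + 1) = i (r + 2)
  · have k := LinearMap.congr_fun (D.phi_phi_s' hr) m
    simp only [End.mul_apply] at k
    rw [D.tau_neg e2, D.tau_neg e2, D.tau_pos e3, D.tau_pos e3, b1, b2, c3,
      s1 (D.phi_mem hr (D.phi_mem h2 hm)) (by rw [q2, q3, sw_l, q5, e3]), map_sub (D.phi _),
      map_sub (D.phi _), k, ← map_sub, ← map_sub, c1, c2, c3]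
  · have k := LinearMap.congr_fun (D.phi_braid hr) m
    simp only [End.mul_apply] at k
    rw [D.tau_neg e2, D.tau_neg e2, D.tau_neg e3, D.tau_neg e3, a1, a2, b1, b2, k, c1, c2, c3]

/-- The KLR representation. -/
def klr : KLR d X where
  G := D.G
  y := C.y
  ψ := C.ψ
  y_mem i k hk m hm := by
    rw [C.hy i k hk m hm]; exact sub_mem (D.x_mem_G i hk hm) (Submodule.smul_mem _ _ hm)
  p_mem _ _ hr _ hm := C.ψ_mem hr hm
  yy i k l hk hl m hm := by
    have a := fun k hk => sub_mem (D.x_mem_G i (k := k) hk hm) (Submodule.smul_mem _ (i k : ℂ) hm)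
    have c : D.x k (D.x l m) = D.x l (D.x k m) := LinearMap.congr_fun (D.xx k l hk hl) m
    rw [C.hy i k hk m hm, C.hy i l hl m hm, C.hy i k hk _ (a l hl), C.hy i l hl _ (a k hk)]
    simp only [map_sub, map_smul, c]
    module
  py i r k hr hk m hm := by
    rw [C.hy i k hk m hm, C.hy _ _ (swap_lt hr hk) _ (C.ψ_mem hr hm), map_sub, map_smul,
      C.ψ_x hr hk hm, sw, Equiv.swap_apply_self]
    abel
  far _ _ _ h ht _ hm := C.ψ_far h ht hm
  sq _ _ hr _ hm := C.ψ_sq hr hm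
  braid _ _ hr _ hm := C.ψ_braid hr hm

end Conv

theorem exists_klr [FiniteDimensional ℂ X] (hI : D.Integral) :
    ∃ K : KLR d X, K.G = D.G ∧
      (∀ i k, k < d → ∀ m ∈ D.G i, K.y k m = D.x k m - ((i k : ℤ) : ℂ) • m) ∧
      (∀ i r, r + 1 < d → i r = i (r + 1) → ∀ m ∈ D.G i,
        D.s r m = m - (K.ψ r m + K.y r (K.ψ r m) - K.y (r + 1) (K.ψ r m)) ∧
          (K.ψ r m = 0 ↔ D.s r m = m)) ∧
      (∀ i r, r + 1 < d → i r ≠ i (r + 1) → ∀ m ∈ D.G i,
        D.phi r m = if i (r + 1) - i r = -1 then K.ψ r m else D.P r (r + 1) (K.ψ r m)) := by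
  obtain ⟨C⟩ := D.exists_conv hI
  refine ⟨C.klr, rfl, C.hy, fun i r hr h m hm => ⟨?_, ?_⟩, fun i r hr h m hm => ?_⟩
  · have hz := sw_eq h ▸ C.ψ_mem hr hm
    have e := (C.s_ψ hr hm h).2
    change _ = m - (C.ψ r m + C.y r (C.ψ r m) - C.y (r + 1) (C.ψ r m))
    rw [C.hy i r (by omega) _ hz, C.hy i _ hr _ hz, h]
    rw [P_apply] at e
    linear_combination (norm := module) e
  · change C.ψ r m = 0 ↔ _
    refine ⟨fun e => ?_, fun e => by rw [C.hψ hr hm rfl, D.tau_pos h, e, sub_self, map_zero]⟩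
    have := (C.s_ψ hr hm h).2
    rw [e, map_zero] at this
    exact (sub_eq_zero.1 this.symm).symm
  · have := C.hU (show r < d by omega) hr (C.ψ_mem hr hm)
    rw [sw_l, sw_r] at this
    refine Eq.trans ?_ this
    rw [C.hψ hr hm rfl, C.U_g (by omega) hr, D.tau_neg h]

end Pool.Agent.KM.DAHA
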