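import Pool.Agent.Lib.MP_515a76_al.KB
import Pool.Agent.Lib.MP_515a76_al.KConv

/-! The two statements on DAHA modules used for category O. -/

namespace Pool.Agent.KM

open Module

variable {X : Type} [AddCommGroup X] [Module ℂ X]

namespace KMain

lemma unif [FiniteDimensional ℂ X] {T : End ℂ X} {m : X} (h : ∃ N : ℕ, (T ^ N) m = 0) :
    (T ^ finrank ℂ X) m = 0 :=
  let ⟨N, hN⟩ := h
  LinearMap.mem_ker.1 (End.ker_pow_le_ker_pow_finrank T N (LinearMap.mem_ker.2 hN))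

lemma pow_le {T : End ℂ X} {m : X} {a k : ℕ} (h : (T ^ a) m = 0) (hk : a ≤ k) :
    (T ^ k) m = 0 := by
  obtain ⟨c, rfl⟩ := Nat.exists_eq_add_of_le' hk
  rw [pow_add, End.mul_apply, h, map_zero]

lemma nil_sub {A A' : End ℂ X} (hc : Commute A A') {m : X} {a b : ℕ} (h : (A ^ a) m = 0)
    (h' : (A' ^ b) m = 0) : ((A - A') ^ (a + b)) m = 0 := by
  rw [sub_eq_add_neg, hc.neg_right.add_pow, LinearMap.sum_apply]
  refine Finset.sum_eq_zero fun k _ => ?_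
  rw [← Nat.cast_comm, End.mul_apply]
  rcases le_or_gt a k with hk | hk
  · rw [(hc.neg_right.pow_pow _ _).eq, End.mul_apply, pow_le h hk, map_zero, map_zero]
  · rw [End.mul_apply, neg_pow, End.mul_apply, pow_le h' (by omega), map_zero, map_zero, map_zero]

lemma exists_quot (H : Subalgebra ℂ (End ℂ X)) {T : End ℂ X} (hT : T ∈ H) (a : ℂ) (N : ℕ) :
    ∃ Q ∈ H, (T * T - a • (1 : End ℂ X)) ^ N = Q * T + (-a) ^ N • (1 : End ℂ X) := by
  induction N with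
  | zero => exact ⟨0, H.zero_mem, by simp⟩
  | succ N ih =>
    obtain ⟨Q, hQ, h⟩ := ih
    refine ⟨T * T * Q - a • Q + (-a) ^ N • T, H.add_mem (H.sub_mem (H.mul_mem (H.mul_mem hT hT) hQ)
      (H.smul_mem hQ _)) (H.smul_mem hT _), ?_⟩
    rw [pow_succ', h, pow_succ']
    simp only [mul_add, add_mul, sub_mul, mul_assoc, smul_mul_assoc, mul_smul_comm, one_mul,
      mul_one, smul_sub, smul_smul, neg_mul, neg_smul, mul_comm a]
    abel

variable {d : ℕ} (K : KLR d X)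

/-- The span of the operators of valid words. -/
def Wd : Submodule ℂ (End ℂ X) := Submodule.span ℂ {T | ∃ w, Valid d w ∧ T = K.ev w}

lemma ev_Wd {w : List Let} (hw : Valid d w) : K.ev w ∈ Wd K := Submodule.subset_span ⟨w, hw, rfl⟩

lemma Wd_mul_ev {Z : End ℂ X} (hZ : Z ∈ Wd K) {w : List Let} (hw : Valid d w) :
    Z * K.ev w ∈ Wd K := by
  induction hZ using Submodule.span_induction with
  | mem T hT =>
    obtain ⟨v, hv, rfl⟩ := hT
    rw [← K.ev_append]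
    exact ev_Wd K fun l hl => (List.mem_append.1 hl).elim (hw l) (hv l)
  | zero => simp
  | add a b _ _ ha hb => rw [add_mul]; exact add_mem ha hb
  | smul c a _ ha => rw [smul_mul_assoc]; exact Submodule.smul_mem _ _ ha

/-- On `G i` the operator is a combination of words. -/
def OkAt (i : ℕ → ℤ) : Submodule ℂ (End ℂ X) where
  carrier := {T | ∃ Z ∈ Wd K, ∀ m ∈ K.G i, T m = Z m}
  add_mem' := fun ⟨Z, h1, h2⟩ ⟨Z', h3, h4⟩ =>
    ⟨Z + Z', add_mem h1 h3, fun m hm => by simp [h2 m hm, h4 m hm]⟩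
  zero_mem' := ⟨0, zero_mem _, fun _ _ => rfl⟩
  smul_mem' := fun c _ ⟨Z, h1, h2⟩ =>
    ⟨c • Z, Submodule.smul_mem _ _ h1, fun m hm => by simp [h2 m hm]⟩

variable {K}

lemma OkAt.congr {i : ℕ → ℤ} {T T' : End ℂ X} (h : T ∈ OkAt K i) (h' : ∀ m ∈ K.G i, T' m = T m) :
    T' ∈ OkAt K i :=
  let ⟨Z, h1, h2⟩ := h
  ⟨Z, h1, fun m hm => (h' m hm).trans (h2 m hm)⟩

lemma OkAt.ev (i : ℕ → ℤ) {w : List Let} (hw : Valid d w) : K.ev w ∈ OkAt K i :=
  ⟨_, ev_Wd K hw, fun _ _ => rfl⟩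

lemma OkAt.one (i : ℕ → ℤ) : (1 : End ℂ X) ∈ OkAt K i := OkAt.ev i (w := []) fun _ h => nomatch h

lemma OkAt.op (i : ℕ → ℤ) {l : Let} (h : l.ok d) : K.op l ∈ OkAt K i := by
  simpa [KLR.ev] using OkAt.ev (K := K) i (w := [l]) fun l' hl => List.mem_singleton.1 hl ▸ h

lemma OkAt.mul {i : ℕ → ℤ} {T T' : End ℂ X} (h : ∀ j, T ∈ OkAt K j) (h' : T' ∈ OkAt K i) :
    T * T' ∈ OkAt K i := by
  obtain ⟨Z, h1, h2⟩ := h'
  refine OkAt.congr (T := T * Z) ?_ fun m hm => by simp [h2 m hm]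
  clear h2
  induction h1 using Submodule.span_induction with
  | mem T hT =>
    obtain ⟨w, hw, rfl⟩ := hT
    obtain ⟨Z, h3, h4⟩ := h (tgt i w)
    exact ⟨Z * K.ev w, Wd_mul_ev K h3 hw, fun m hm => h4 _ (K.ev_mem i hw hm)⟩
  | zero => simp
  | add a b _ _ ha hb => rw [mul_add]; exact add_mem ha hb
  | smul c a _ ha => rw [mul_smul_comm]; exact Submodule.smul_mem _ _ ha

variable (K)

/-- The operators that are combinations of words on every `G i`. -/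
def Ok : Subalgebra ℂ (End ℂ X) where
  carrier := {T | ∀ i, T ∈ OkAt K i}
  mul_mem' := fun h h' i => OkAt.mul h (h' i)
  add_mem' := fun h h' i => add_mem (h i) (h' i)
  algebraMap_mem' := fun c i => by
    rw [Algebra.algebraMap_eq_smul_one]
    exact Submodule.smul_mem _ _ (OkAt.one i)

/-- The properties of the KLR representation attached to a DAHA module. -/
structure Conv (D : DAHA d X) (K : KLR d X) : Prop where
  hG : K.G = D.G
  hy : ∀ i k, k < d → ∀ m ∈ D.G i, K.y k m = D.x k m - ((i k : ℤ) : ℂ) • m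
  heq : ∀ i r, r + 1 < d → i r = i (r + 1) → ∀ m ∈ D.G i,
    D.s r m = m - (K.ψ r m + K.y r (K.ψ r m) - K.y (r + 1) (K.ψ r m)) ∧
      (K.ψ r m = 0 ↔ D.s r m = m)
  hne : ∀ i r, r + 1 < d → i r ≠ i (r + 1) → ∀ m ∈ D.G i,
    D.phi r m = if i (r + 1) - i r = -1 then K.ψ r m else D.P r (r + 1) (K.ψ r m)

lemma exists_conv [FiniteDimensional ℂ X] (D : DAHA d X) (hI : D.Integral) : ∃ K, Conv D K :=
  let ⟨K, h1, h2, h3, h4⟩ := D.exists_klr hI
  ⟨K, h1, h2, h3, h4⟩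

variable {K} {D : DAHA d X}

lemma Conv.nilp (c : Conv D K) : K.Nilp := by
  intro i m hm k hk
  rw [c.hG] at hm
  obtain ⟨N, hN⟩ := (D.mem_G i m).1 hm k hk
  refine ⟨N, Eq.trans ?_ hN⟩
  clear hN
  induction N generalizing m with
  | zero => rfl
  | succ N ih =>
    have h1 : K.y k m = (D.x k - ((i k : ℤ) : ℂ) • (1 : End ℂ X)) m := by simp [c.hy i k hk m hm]
    rw [pow_succ, pow_succ, End.mul_apply, End.mul_apply, ← h1]
    exact ih _ (c.hG ▸ K.y_mem i k hk m (c.hG ▸ hm))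

lemma Conv.mem_N (c : Conv D K) {i : ℕ → ℤ} {J : List ℕ}
    (hJ : ∀ r ∈ J, r + 1 < d ∧ i r = i (r + 1)) (m : X) : m ∈ K.N i J ↔ m ∈ D.NN i J := by
  rw [K.mem_N, D.mem_NN, c.hG]
  exact and_congr_right fun hm => forall₂_congr fun r hr =>
    (c.heq i r (hJ r hr).1 (hJ r hr).2 m hm).2

lemma Conv.ok_x (c : Conv D K) {k : ℕ} (hk : k < d) : D.x k ∈ Ok K := fun i =>
  OkAt.congr (add_mem (OkAt.op i (l := .y k) hk)
    (Submodule.smul_mem _ ((i k : ℤ) : ℂ) (OkAt.one i))) fun m hm => by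
      simp [KLR.op, c.hy i k hk m (c.hG ▸ hm)]

lemma Conv.ok_e (c : Conv D K) (hI : D.Integral) (j : ℕ → ℤ) : D.e j ∈ Ok K := fun i => by
  by_cases h : ∃ k < d, i k ≠ j k
  · exact OkAt.congr (zero_mem _) fun m hm => D.e_of_ne hI h (c.hG ▸ hm)
  · push Not at h
    exact OkAt.congr (OkAt.one i) fun m hm => D.e_of_mem hI (D.G_congr h ▸ c.hG ▸ hm)

lemma Conv.ok_s [FiniteDimensional ℂ X] (c : Conv D K) {r : ℕ} (hr : r + 1 < d) :
    D.s r ∈ Ok K := fun i => by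
  have hp : K.ψ r ∈ OkAt K i := OkAt.op i (l := .p r) hr
  have hr' : r < d := by omega
  by_cases h : i r = i (r + 1)
  · refine OkAt.congr (sub_mem (OkAt.one i) (sub_mem (add_mem hp
      (OkAt.mul (fun j => OkAt.op j (l := .y r) hr') hp))
      (OkAt.mul (fun j => OkAt.op j (l := .y (r + 1)) hr) hp))) fun m hm => ?_
    simpa [KLR.op] using (c.heq i r hr h m (c.hG ▸ hm)).1
  have hT : D.x r - D.x (r + 1) ∈ Ok K := sub_mem (c.ok_x hr') (c.ok_x hr)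
  have hphi : D.phi r ∈ OkAt K i := by
    by_cases h1 : i (r + 1) - i r = -1
    · exact OkAt.congr hp fun m hm => by rw [c.hne i r hr h m (c.hG ▸ hm), if_pos h1]
    · have hP : D.P r (r + 1) ∈ Ok K := sub_mem (add_mem (one_mem _) (c.ok_x hr')) (c.ok_x hr)
      exact OkAt.congr (OkAt.mul hP hp) fun m hm => by
        rw [c.hne i r hr h m (c.hG ▸ hm), if_neg h1, End.mul_apply]
  set δ : ℂ := ((i r : ℤ) : ℂ) - ((i (r + 1) : ℤ) : ℂ) with hδ
  have hδ0 : δ ≠ 0 := sub_ne_zero.2 fun h' => h (Int.cast_injective h')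
  obtain ⟨Q, hQ, hq⟩ := exists_quot (Ok K) hT (δ * δ) (finrank ℂ X)
  have hb : (-(δ * δ)) ^ finrank ℂ X ≠ 0 := pow_ne_zero _ (neg_ne_zero.2 (mul_ne_zero hδ0 hδ0))
  refine OkAt.congr (Submodule.smul_mem _ (-((-(δ * δ)) ^ finrank ℂ X)⁻¹)
    (OkAt.mul hQ (sub_mem hphi (OkAt.one i)))) fun m hm => ?_
  rw [c.hG, D.mem_G] at hm
  obtain ⟨a, ha⟩ := hm r hr'
  obtain ⟨b, hb'⟩ := hm (r + 1) hr
  have hxx : Commute (D.x r) (D.x (r + 1)) := D.xx r (r + 1) hr' hr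
  have h1 := nil_sub ((hxx.sub_right ((Commute.one_right _).smul_right _)).sub_left
    ((Commute.one_left _).smul_left _)) ha hb'
  set T := D.x r - D.x (r + 1) with hTd
  have h2 : D.x r - ((i r : ℤ) : ℂ) • (1 : End ℂ X) -
      (D.x (r + 1) - ((i (r + 1) : ℤ) : ℂ) • (1 : End ℂ X)) = T - δ • (1 : End ℂ X) := by
    rw [hTd, hδ, sub_smul]; abel
  have h3 : T * T - (δ * δ) • (1 : End ℂ X) = (T + δ • 1) * (T - δ • 1) := by
    simp only [add_mul, mul_sub, smul_mul_assoc, mul_smul_comm, one_mul, mul_one, smul_add,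
      smul_smul]
    abel
  have h4 : Commute (T + δ • (1 : End ℂ X)) (T - δ • 1) :=
    ((Commute.refl T).sub_right ((Commute.one_right _).smul_right _)).add_left
      ((Commute.one_left _).smul_left _)
  have h5 : ((T * T - (δ * δ) • (1 : End ℂ X)) ^ finrank ℂ X) m = 0 :=
    unif ⟨a + b, by rw [h3, h4.mul_pow, End.mul_apply, ← h2, h1, map_zero]⟩
  have h6 : Commute (D.s r) ((T * T - (δ * δ) • (1 : End ℂ X)) ^ finrank ℂ X) :=
    ((D.s_comm_sq hr).sub_right ((Commute.one_right _).smul_right _)).pow_right _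
  have h7 : ((T * T - (δ * δ) • (1 : End ℂ X)) ^ finrank ℂ X) (D.s r m) = 0 := by
    rw [← End.mul_apply, ← h6.eq, End.mul_apply, h5, map_zero]
  rw [hq, LinearMap.add_apply, End.mul_apply, LinearMap.smul_apply, End.one_apply] at h7
  have h8 : (D.phi r - 1) m = T (D.s r m) := by simp [DAHA.phi, hTd]
  rw [LinearMap.smul_apply, End.mul_apply, h8, eq_neg_of_add_eq_zero_left h7, neg_smul_neg,
    smul_smul, inv_mul_cancel₀ hb, one_smul]

lemma Conv.ok [FiniteDimensional ℂ X] (c : Conv D K) (hI : D.Integral) : D.H ≤ Ok K := by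
  refine Algebra.adjoin_le ?_
  rintro T ((⟨k, hk, rfl⟩ | ⟨r, hr, rfl⟩) | ⟨j, rfl⟩)
  · exact c.ok_x hk
  · exact c.ok_s hr
  · exact c.ok_e hI j

lemma Conv.local [FiniteDimensional ℂ X] (c : Conv D K) (hI : D.Integral) {i : ℕ → ℤ}
    {J : List ℕ} (hJ : ∀ r ∈ J, r + 1 < d ∧ i r = i (r + 1)) (ht : K.Tight i J) {B : End ℂ X}
    (hB : B ∈ D.H) (hBN : ∀ m ∈ D.NN i J, B m ∈ D.NN i J) :
    ∃ a : ℂ, ∀ m ∈ D.NN i J, ((B - a • (1 : End ℂ X)) ^ finrank ℂ X) m = 0 := by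
  obtain ⟨Z, h1, h2⟩ := c.ok hI hB i
  have hN : ∀ m ∈ K.N i J, B m ∈ K.N i J := fun m hm =>
    (c.mem_N hJ _).2 (hBN m ((c.mem_N hJ m).1 hm))
  have hG : ∀ m ∈ K.N i J, m ∈ K.G i := fun m hm => ((K.mem_N i J m).1 hm).1
  have h3 : B.domRestrict (K.N i J) = (D.e i * Z).domRestrict (K.N i J) := LinearMap.ext fun m => by
    rw [LinearMap.domRestrict_apply, LinearMap.domRestrict_apply, End.mul_apply,
      ← h2 _ (hG _ m.2), D.e_of_mem hI (c.hG ▸ hG _ (hN _ m.2))]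
  obtain ⟨a, ha⟩ := K.tight_local c.nilp hJ ht B hN (by
    rw [h3]
    clear h2 h3
    induction h1 using Submodule.span_induction with
    | mem T hT =>
      obtain ⟨w, hw, rfl⟩ := hT
      by_cases h : ∃ k < d, tgt i w k ≠ i k
      · have : (D.e i * K.ev w).domRestrict (K.N i J) = 0 := LinearMap.ext fun m =>
          D.e_of_ne hI h (c.hG ▸ K.ev_mem i hw (hG _ m.2))
        rw [this]
        exact zero_mem _
      · push Not at h
        have h4 : tgt i w = i := funext fun k => (lt_or_ge k d).elim (h k) (tgt_of_le i hw)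
        refine Submodule.subset_span ⟨w, hw, h4, LinearMap.ext fun m => D.e_of_mem hI ?_⟩
        have := K.ev_mem i hw (hG _ m.2)
        rwa [h4, c.hG] at this
    | zero => rw [mul_zero]; exact zero_mem _
    | add a b _ _ ha hb => rw [mul_add]; exact add_mem ha hb
    | smul t a _ ha => rw [mul_smul_comm]; exact Submodule.smul_mem _ t ha)
  exact ⟨a, fun m hm => unif (ha m ((c.mem_N hJ m).2 hm))⟩

lemma nn_restrict {S : Submodule ℂ X} {D' : DAHA d S}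
    (hs : ∀ r, r + 1 < d → ∀ m : S, (D'.s r m : X) = D.s r m)
    (hG : ∀ (i : ℕ → ℤ) (m : S), m ∈ D'.G i ↔ (m : X) ∈ D.G i) {i : ℕ → ℤ} {J : List ℕ}
    (hJ : ∀ r ∈ J, r + 1 < d ∧ i r = i (r + 1)) (m : S) :
    m ∈ D'.NN i J ↔ (m : X) ∈ D.NN i J := by
  rw [D'.mem_NN, D.mem_NN, hG]
  exact and_congr_right fun _ => forall₂_congr fun r hr => by
    rw [← hs r (hJ r hr).1, Subtype.coe_inj]

lemma wd_append (l : List ℤ) :
    (fun k => if k < 88 then wd onW k else wd l (k - 88)) = wd (onW ++ l) := by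
  have h : onW.length = 88 := by decide +kernel
  funext k
  unfold wd
  split_ifs with hk
  · rw [List.getD_append _ _ _ _ (h ▸ hk)]
  · rw [List.getD_append_right _ _ _ _ (by omega), h]

end KMain

open KMain

/-- Locality of the endomorphism algebra. -/
theorem ka (D : DAHA 192 X) (hI : D.Integral) (hz : ∀ j, Unreal B0 192 j → D.G j = ⊥)
    (S : Submodule ℂ X) [FiniteDimensional ℂ S] (hS : D.Inv S) (B : End ℂ X) (hB : B ∈ D.H)
    (hBN : ∀ m ∈ D.NN iBig Jbig, B m ∈ D.NN iBig Jbig) :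
    ∃ (c : ℂ) (N : ℕ), ∀ m ∈ D.NN iBig Jbig ⊓ S, ((B - c • (1 : End ℂ X)) ^ N) m = 0 := by
  obtain ⟨D', hI', -, hs, hG, hH⟩ := D.exists_restrict hI S hS
  obtain ⟨B', hB', hBB⟩ := hH B hB
  obtain ⟨K, c⟩ := exists_conv D' hI'
  have hJ : ∀ r ∈ Jbig, r + 1 < 192 ∧ iBig r = iBig (r + 1) := by decide +kernel
  obtain ⟨a, ha⟩ := c.local hI' hJ (tight_big K fun j hj => by
      rw [c.hG, eq_bot_iff]
      intro m hm
      have := (hG j m).1 hm
      rw [hz j hj, Submodule.mem_bot] at this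
      exact (Submodule.mem_bot ℂ).2 (Subtype.ext this)) hB' fun m hm => by
    rw [nn_restrict hs hG hJ] at hm ⊢
    rw [hBB]
    exact hBN _ hm
  refine ⟨a, finrank ℂ S, fun m hm => ?_⟩
  have h1 : ∀ (N : ℕ) (m : S), ((B - a • (1 : End ℂ X)) ^ N) m =
      (((B' - a • (1 : End ℂ S)) ^ N) m : S) := by
    intro N
    induction N with
    | zero => intro m; rfl
    | succ N ih =>
      intro m
      rw [pow_succ, pow_succ, End.mul_apply, End.mul_apply, ← ih]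
      simp [hBB]
  have h2 := h1 (finrank ℂ S) ⟨m, hm.2⟩
  rw [ha _ ((nn_restrict hs hG hJ _).2 hm.1)] at h2
  exact h2

/-- Non-cyclicity. -/
theorem kb (D : DAHA 104 X) (hI : D.Integral) (S : Submodule ℂ X) [FiniteDimensional ℂ S]
    (hS : D.Inv S) (h : D.G iQ ⊓ S ≠ ⊥) (y : End ℂ X) (hy : y = D.x 103 - (4 : ℂ) • 1) :
    (∃ q ∈ D.G iQ ⊓ S, y (y (y q)) ≠ 0) ∧
    ¬ ∃ t ∈ D.NN iP Jbig ⊓ S, D.NN iP Jbig ⊓ S ≤
      Submodule.span ℂ {t, y t, y (y t), y (y (y t))} := by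
  obtain ⟨D', hI', hx, hs, hG, -⟩ := D.exists_restrict hI S hS
  obtain ⟨K, c⟩ := exists_conv D' hI'
  obtain ⟨P, hPG, hPy, hPp⟩ := exists_shiftK (lo := 88) (d := 16) K (wd onW)
  have hQ : P.G (wd qW) = K.G iQ := by rw [hPG, wd_append]; rfl
  have hP : P.G (wd (midW ++ [4])) = K.G iP := by rw [hPG, wd_append, ← List.append_assoc]; rfl
  have hJ : ∀ r ∈ Jbig, r + 1 < 104 ∧ iP r = iP (r + 1) := by decide +kernel
  have hN : ∀ m : S, m ∈ P.N (wd (midW ++ [4])) Jmid ↔ (m : X) ∈ D.NN iP Jbig := fun m => by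
    rw [← nn_restrict hs hG hJ, ← c.mem_N hJ, P.mem_N, K.mem_N, hP]
    simp [Jmid, Jbig, hPp]
  have hyy : ∀ i : ℕ → ℤ, i 103 = 4 → ∀ m ∈ K.G i, K.y 103 m ∈ K.G i ∧
      ((K.y 103 m : S) : X) = y m := fun i hi m hm => ⟨K.y_mem i 103 (by norm_num) m hm, by
    rw [c.hy i 103 (by norm_num) m (c.hG ▸ hm), hi, hy]
    simp [hx 103 (by norm_num)]⟩
  have hy3 : ∀ i : ℕ → ℤ, i 103 = 4 → ∀ m ∈ K.G i, ((K.y 103 m : S) : X) = y m ∧
      ((K.y 103 (K.y 103 m) : S) : X) = y (y m) ∧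
      ((K.y 103 (K.y 103 (K.y 103 m)) : S) : X) = y (y (y m)) := fun i hi m hm => by
    obtain ⟨h1, h2⟩ := hyy i hi m hm
    obtain ⟨h3, h4⟩ := hyy i hi _ h1
    exact ⟨h2, by rw [h4, h2], by rw [(hyy i hi _ h3).2, h4, h2]⟩
  obtain ⟨⟨q, hq, hq3⟩, h2⟩ := kb_klr P (fun i m hm k hk => by
      rw [hPy]
      exact c.nilp _ m (hPG i ▸ hm) _ (by omega)) (by
    obtain ⟨m, hm, hm0⟩ := (Submodule.ne_bot_iff _).1 h
    rw [hQ, c.hG]
    exact (Submodule.ne_bot_iff _).2 ⟨⟨m, hm.2⟩, (hG _ _).2 hm.1, fun h0 =>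
      hm0 (congrArg Subtype.val h0)⟩)
  rw [hPy] at hq3 h2
  rw [hQ] at hq
  refine ⟨⟨q, ⟨(hG _ _).1 (c.hG ▸ hq), q.2⟩, fun h0 => hq3 (Subtype.ext ?_)⟩, ?_⟩
  · exact (hy3 iQ (by decide +kernel) q hq).2.2.trans h0
  · rintro ⟨t, ht, hle⟩
    have ht' := (hN ⟨t, ht.2⟩).2 ht.1
    obtain ⟨h3, h4, h5⟩ := hy3 iP (by decide +kernel) ⟨t, ht.2⟩ (hP ▸ ((P.mem_N _ _ _).1 ht').1)
    refine h2 ⟨⟨t, ht.2⟩, ht', fun m hm => ?_⟩
    rw [← Submodule.apply_mem_span_image_iff_mem_span S.injective_subtype]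
    simp only [Set.image_insert_eq, Set.image_singleton, Submodule.subtype_apply, h3, h4, h5]
    exact hle ⟨(hN m).1 hm, m.2⟩

end Pool.Agent.KM
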