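import Pool.Agent.Lib.MP_515a76_al.Cell2
import Pool.Agent.Lib.MP_515a76_al.Data
import Pool.Agent.Lib.MP_515a76_al.KMain

/-! The projective functor sends the dominant Verma module to an indecomposable projective. -/

namespace Pool.Agent.KM

open Module GMod

theorem gproj_summand {n : ℕ} {ι : Type} [Fintype ι] [DecidableEq ι] (C : Coef n ι) {M : GMod n}
    {ρ : Wt n} {v : M.V} (h : M.IsVerma ρ v) (hρ : StrictAnti ρ) (N : Submodule ℂ (ι → M.V))
    (hN : (Ten C M).Stable N) (p : End ℂ (ι → M.V)) (hp : (Ten C M).IsHom (Ten C M) p)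
    (h1 : ∀ m, p m ∈ N) (h2 : ∀ m ∈ N, p m = m) (B : ℤ → ℤ) : GProj ((Ten C M).sub N hN) B := by
  intro M' N' hM' _ f hf hs g hg
  have hg' : (Ten C M).IsHom N' (g.comp (p.codRestrict N h1)) :=
    hg.comp (hp.codRestrict N hN h1)
  have hR := adjR_hom (isDual_dual C) hg'
  obtain ⟨m, hm, hfm⟩ := lift_sing (adm_ten C.dual hM') (ptOp_hom C.dual hf) (ptOp_surjective hs)
    hρ (hR.map_sing h.1)
  obtain ⟨k, hk, hkv, -⟩ := h.lift hm
  have he : (ptOp ι f).comp k = adjR (g.comp (p.codRestrict N h1)) :=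
    hom_ext_orb (N := Ten C.dual N') h.2.2 ((ptOp_hom C.dual hf).comp hk) hR
      ((congrArg (ptOp ι f) hkv).trans hfm)
  refine ⟨(adjL k).comp N.subtype,
    (adjL_hom (isDual_dual C) hk).comp (isHom_subtype (Ten C M) N hN), LinearMap.ext fun x => ?_⟩
  have e1 : f (adjL k x.1) = adjL ((ptOp ι f).comp k) x.1 := by
    rw [adjL_apply, adjL_apply, map_sum]
    rfl
  have e2 : p.codRestrict N h1 x.1 = x := Subtype.ext (h2 x.1 x.2)
  change f (adjL k x.1) = g x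
  rw [e1, he, adjL_adjR, LinearMap.comp_apply, e2]

theorem glocal_of_top {n : ℕ} {P : GMod n} {B : ℤ → ℤ} (N : Submodule ℂ P.V) (hN : P.Stable N)
    (hB : (P.sub N hN).Blk B) (p : End ℂ P.V) (hp : P.IsHom P p) (h1 : ∀ m, p m ∈ N)
    (h2 : ∀ m ∈ N, p m = m)
    (H : ∀ ψ : End ℂ P.V, P.IsHom P ψ → (∀ m ∈ N, ψ m ∈ N) →
      ∃ (c : ℂ) (k : ℕ), ∀ m ∈ N ⊓ P.admTop {B}, ((ψ - c • (1 : End ℂ P.V)) ^ k) m = 0) :
    GLocal (P.sub N hN) := by
  intro φ hφ
  have hψ : P.IsHom P (N.subtype.comp (φ.comp (p.codRestrict N h1))) :=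
    (isHom_subtype P N hN).comp (hφ.comp (hp.codRestrict N hN h1))
  obtain ⟨c, k, hk⟩ := H _ hψ fun m _ => (φ (p.codRestrict N h1 m)).2
  refine ⟨c, k, ?_⟩
  have hc : (P.sub N hN).IsHom (P.sub N hN) (φ - c • (1 : End ℂ N)) :=
    hφ.sub ((isHom_id _).smul c)
  have hpow : (P.sub N hN).IsHom (P.sub N hN) ((φ - c • (1 : End ℂ N)) ^ k) := fun A w =>
    (trans_pow_semi (f := (P.sub N hN).ρ A) (fun u => (hc A u).symm) k w).symm
  have hle := hB.le_of_W (GMod.stable_top _) hpow.stable_ker fun a ha x hx => by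
    have e := gb_pow_nat (f := N.subtype) (T := φ)
      (T' := N.subtype.comp (φ.comp (p.codRestrict N h1))) (fun u => by
        have e2 : p.codRestrict N h1 u.1 = u := Subtype.ext (h2 u.1 u.2)
        change (φ u).1 = (φ (p.codRestrict N h1 u.1)).1
        rw [e2]) c k x
    refine LinearMap.mem_ker.mpr (Subtype.ext (e.trans (hk _ ⟨x.2, ?_⟩)))
    exact W_le_admTop ha ((mem_W_sub P N hN a x).mp hx.2)
  exact LinearMap.ext fun x => LinearMap.mem_ker.mp (hle Submodule.mem_top)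

theorem hom_admTop {n : ℕ} {P : GMod n} {f : End ℂ P.V} (hf : P.IsHom P f) (𝔅 : Set (ℤ → ℤ)) :
    ∀ m ∈ P.admTop 𝔅, f m ∈ P.admTop 𝔅 := by
  have : P.admTop 𝔅 ≤ (P.admTop 𝔅).comap f :=
    iSup_le fun a x hx => W_le_admTop a.2 (hf.map_W hx)
  exact fun m hm => this hm

theorem finite_admTop {n : ℕ} {P : GMod n} (h : ∀ a, FiniteDimensional ℂ (P.W a)) (B : ℤ → ℤ) :
    FiniteDimensional ℂ (P.admTop {B}) := by
  have : Finite {a : Wt n // cnt a ∈ ({B} : Set (ℤ → ℤ))} := finite_cnt (n := n) B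
  have := fun a : {a : Wt n // cnt a ∈ ({B} : Set (ℤ → ℤ))} => h a.1
  unfold admTop
  infer_instance

theorem inv_admTop {n d : ℕ} (M : GMod n) (𝔅 : Set (ℤ → ℤ)) :
    (daha d M).Inv ((Ten (tpow n d) M).admTop 𝔅) :=
  ⟨fun _ hk => hom_admTop (daha_x_hom M hk) 𝔅, fun _ hr => hom_admTop (daha_s_hom M hr) 𝔅⟩

/-- The value of the functor on a module. -/
noncomputable abbrev Rbig (M : GMod 16) : GMod 16 :=
  (Ten (tpow 16 192) M).sub ((daha 192 M).NN iBig Jbig)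
    (NN_stable M iBig fun r hr => (farJ_big.1 r hr).1)

theorem glA_local {M : GMod 16} {v : M.V} (h : M.IsVerma (rhoC 16 6) v) : GLocal (Rbig M) := by
  have hb : M.Blk B0 := cnt_rho6 ▸ h.blk
  have hI := daha_integral hb 192
  have hJ : ∀ r ∈ Jbig, r + 1 < 192 := fun r hr => (farJ_big.1 r hr).1
  refine glocal_of_top (P := Ten (tpow 16 192) M) _ _ (blk_NN hb iBig hJ)
    ((daha 192 M).pJ iBig Jbig) (pJ_hom hb iBig hJ) ((daha 192 M).pJ_mem farJ_big)
    (fun _ hm => (daha 192 M).pJ_of_mem hI hm) fun ψ hψ hN => ?_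
  have := finite_admTop (adm_ten (tpow 16 192) hb).fin (walk B0 iBig 192)
  exact ka (daha 192 M) hI (fun _ hj => G_eq_bot hb hj) _ (inv_admTop M _) ψ
    (cell h (rhoC_anti 16 6) hψ) hN

theorem glA_proj {M : GMod 16} {v : M.V} (h : M.IsVerma (rhoC 16 6) v) (B : ℤ → ℤ) :
    GProj (Rbig M) B := by
  have hb : M.Blk B0 := cnt_rho6 ▸ h.blk
  exact gproj_summand (tpow 16 192) h (rhoC_anti 16 6) _ _ ((daha 192 M).pJ iBig Jbig)
    (pJ_hom hb iBig fun r hr => (farJ_big.1 r hr).1) ((daha 192 M).pJ_mem farJ_big)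
    (fun _ hm => (daha 192 M).pJ_of_mem (daha_integral hb 192) hm) B

end Pool.Agent.KM
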