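import Pool.Agent.Lib.MP_515a76_al.BCore
import Pool.Agent.Lib.MP_515a76_al.GPowB
import Pool.Agent.Lib.MP_515a76_al.KMain

/-! The projective functor decomposes a simple module. -/

namespace Pool.Agent.KM

open Module GMod

section General

variable {n d : ℕ} {B : ℤ → ℤ}

theorem gb_surj {L Y : GMod n} (hL : L.Simple) (hB : L.Blk B) (i : ℕ → ℤ)
    (hY : Y.Blk (walk B i d)) {f : Y.V →ₗ[ℂ] (Idx d n → L.V)}
    (hf : Y.IsHom (Ten (tpow n d) L) f) (hr : ∀ v, f v ∈ (daha d L).G i) (h0 : f ≠ 0) :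
    ∃ g : (Eit Y (revL i d)).V →ₗ[ℂ] L.V, (Eit Y (revL i d)).IsHom L g ∧ Function.Surjective g := by
  obtain ⟨e, he⟩ := G_iso L i d
  have h1 := he.comp (hf.codRestrict _ (G_stable L i) hr)
  have h2 : e.toLinearMap.comp (f.codRestrict ((daha d L).G i) hr) ≠ 0 := fun h => h0 (by
    refine LinearMap.ext fun v => ?_
    have h3 : e (f.codRestrict ((daha d L).G i) hr v) = 0 := LinearMap.congr_fun h v
    rw [LinearEquiv.map_eq_zero_iff] at h3
    exact congrArg Subtype.val h3)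
  obtain ⟨g, hg, hg0⟩ := (adj_left (revL i d) hB (by rw [moves_revL]; exact hY)).1 ⟨_, h1, h2⟩
  refine ⟨g, hg, ?_⟩
  rcases hL.2 _ hg.stable_range with h | h
  · exact absurd (LinearMap.range_eq_bot.1 h) hg0
  · exact LinearMap.range_eq_top.1 h

theorem gb_inj {L Y : GMod n} (hL : L.Simple) (hB : L.Blk B) (i : ℕ → ℤ)
    (hY : Y.Blk (walk B i d)) {f : (daha d L).G i →ₗ[ℂ] Y.V}
    (hf : ((Ten (tpow n d) L).sub ((daha d L).G i) (G_stable L i)).IsHom Y f) (h0 : f ≠ 0) :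
    ∃ g : L.V →ₗ[ℂ] (Eit Y (revL i d)).V, L.IsHom (Eit Y (revL i d)) g ∧ Function.Injective g := by
  obtain ⟨e, he⟩ := (G_iso L i d).symm
  have h1 := hf.comp he
  have h2 : f.comp e.toLinearMap ≠ 0 := fun h => h0 (by
    refine LinearMap.ext fun v => ?_
    obtain ⟨w, rfl⟩ := e.surjective v
    exact LinearMap.congr_fun h w)
  obtain ⟨g, hg, hg0⟩ := adj_right (revL i d) hB (by rw [moves_revL]; exact hY) ⟨_, h1, h2⟩
  refine ⟨g, hg, ?_⟩
  rcases hL.2 _ hg.stable_ker with h | h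
  · exact LinearMap.ker_eq_bot.1 h
  · exact absurd (LinearMap.ker_eq_top.1 h) hg0

theorem gb_sub {L R : GMod n} (hL : L.Simple) (hB : L.Blk B) (i : ℕ → ℤ)
    (hR : R.Blk (walk B i d)) {ι : R.V →ₗ[ℂ] (Idx d n → L.V)}
    (hι : R.IsHom (Ten (tpow n d) L) ι) (hinj : Function.Injective ι)
    (hr : ∀ v, ι v ∈ (daha d L).G i) (K) (hK : R.Stable K) (P : Set ℤ)
    (hf : ∀ c ∈ P, Subsingleton (Fc (R.sub K hK) c).V)
    (l : List ℤ) (hl : ∀ c ∈ l, c ∈ P) (hlen : d < l.length) (hF : Nontrivial (Fit L l).V) :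
    K = ⊥ := by
  by_contra hne
  have hY := hR.sub K hK
  have h1 := hι.comp (isHom_subtype _ K hK)
  obtain ⟨g, hg, hs⟩ := gb_surj hL hB i hY h1 (fun v => hr v.1) (fun h => hne (by
    refine (Submodule.eq_bot_iff _).2 fun v hv => hinj ?_
    rw [map_zero]
    exact LinearMap.congr_fun h ⟨v, hv⟩))
  have h2 := subsingleton_Fit_Eit hY P hf (revL i d) l hl (by rw [length_revL]; exact hlen)
  have h3 := subsingleton_Fit_of_surj (blk_Eit (B := B) (revL i d) (by rw [moves_revL]; exact hY))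
    hg hs l h2
  exact not_subsingleton_iff_nontrivial.2 hF h3

theorem gb_quot {L R : GMod n} (hL : L.Simple) (hB : L.Blk B) (i : ℕ → ℤ)
    (hR : R.Blk (walk B i d)) {p : (daha d L).G i →ₗ[ℂ] R.V}
    (hp : ((Ten (tpow n d) L).sub ((daha d L).G i) (G_stable L i)).IsHom R p)
    (hsurj : Function.Surjective p) (K) (hK : R.Stable K) (P : Set ℤ)
    (hf : ∀ c ∈ P, Subsingleton (Fc (R.quot K hK) c).V)
    (l : List ℤ) (hl : ∀ c ∈ l, c ∈ P) (hlen : d < l.length) (hF : Nontrivial (Fit L l).V) :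
    K = ⊤ := by
  by_contra hne
  have hY := hR.quot K hK
  have h1 := (isHom_mkQ _ K hK).comp hp
  obtain ⟨g, hg, hs⟩ := gb_inj hL hB i hY h1 (fun h => hne (by
    refine Submodule.eq_top_iff'.2 fun v => ?_
    obtain ⟨w, rfl⟩ := hsurj v
    exact (Submodule.Quotient.mk_eq_zero K).1 (LinearMap.congr_fun h w)))
  have h2 := subsingleton_Fit_Eit hY P hf (revL i d) l hl (by rw [length_revL]; exact hlen)
  have h3 := subsingleton_Fit_of_inj (blk_Eit (B := B) (revL i d) (by rw [moves_revL]; exact hY))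
    hg hs l h2
  exact not_subsingleton_iff_nontrivial.2 hF h3

theorem gb_proj {L : GMod n} (hB : L.Blk B) (i : ℕ → ℤ) {J : List ℕ}
    (hJ : ∀ r ∈ J, r + 1 < d) (hJ' : FarJ d i J) :
    ∃ p : (daha d L).G i →ₗ[ℂ] (daha d L).NN i J,
      ((Ten (tpow n d) L).sub ((daha d L).G i) (G_stable L i)).IsHom
        ((Ten (tpow n d) L).sub ((daha d L).NN i J) (NN_stable L i hJ)) p ∧
      Function.Surjective p :=
  ⟨_, ((pJ_hom hB i hJ).codRestrict _ (NN_stable L i hJ) ((daha d L).pJ_mem hJ')).comp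
      (isHom_subtype _ _ (G_stable L i)), fun v =>
    ⟨⟨v.1, v.2.1⟩, Subtype.ext ((daha d L).pJ_of_mem (daha_integral hB d) v.2)⟩⟩

theorem gb_extS_congr (M : GMod n) {N N' : Submodule ℂ (Idx d n → M.V)} (h : N = N')
    (hN : (Ten (tpow n d) M).Stable N) (hN' : (Ten (tpow n d) M).Stable N') (c : ℤ) :
    extS M N hN c = extS M N' hN' c := by
  subst h
  rfl

theorem gb_map_TT (M : GMod n) {N : Submodule ℂ (Idx d n → M.V)}
    (hN : (Ten (tpow n d) M).Stable N) (c : ℤ) (a : Wt n) :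
    ((Ten (std n) ((Ten (tpow n d) M).sub N hN)).W a ⊓
      genOm (std n) ((Ten (tpow n d) M).sub N hN) c).map (toF M N) =
      extS M N hN c ⊓ (Ten (tpow n (d + 1)) M).W a := by
  refine le_antisymm ?_ ?_
  · rintro _ ⟨m, ⟨h1, h2⟩, rfl⟩
    exact ⟨⟨m, h2, rfl⟩, (toF_hom M hN).map_W h1⟩
  · rintro _ ⟨⟨m, h1, rfl⟩, h2⟩
    exact ⟨m, ⟨(toF_hom M hN).mem_W_of_inj (toF_injective M N) h2, h1⟩, rfl⟩

theorem gb_toF_y (M : GMod n) {N : Submodule ℂ (Idx d n → M.V)}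
    (hN : (Ten (tpow n d) M).Stable N) (c : ℂ) (m : Fin n → N) :
    toF M N ((Om (std n) ((Ten (tpow n d) M).sub N hN) - c • (1 : End ℂ (Fin n → N))) m) =
      ((daha (d + 1) M).x d - c • (1 : End ℂ (Idx (d + 1) n → M.V))) (toF M N m) := by
  rw [LinearMap.sub_apply, LinearMap.sub_apply, map_sub, toF_Om, LinearMap.smul_apply,
    LinearMap.smul_apply, map_smul]
  rfl

/-- A decomposition of the image of the idempotent on `d` strands. -/
def GbDec (M : GMod n) (i : ℕ → ℤ) (J : List ℕ) (d : ℕ) : Prop :=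
  ∃ N₁ N₂, (Ten (tpow n d) M).Stable N₁ ∧ (Ten (tpow n d) M).Stable N₂ ∧ N₁ ≠ ⊥ ∧
    N₂ ≠ ⊥ ∧ Disjoint N₁ N₂ ∧ N₁ ⊔ N₂ = (daha d M).NN i J

theorem gb_ne_bot {M : GMod n} (hB : M.Blk B) (i : ℕ → ℤ) {J : List ℕ}
    (hJ : ∀ r ∈ J, r + 1 < d) {N : Submodule ℂ (Idx d n → M.V)}
    (hN : (Ten (tpow n d) M).Stable N) (hle : N ≤ (daha d M).NN i J) (h0 : N ≠ ⊥) {c : ℤ}
    (h1 : walk B i d (c + 1) = 0) (h2 : 1 ≤ walk B i d c) : extS M N hN c ≠ ⊥ := by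
  have h3 := (isHom_subtype _ _ hN).codRestrict _ (NN_stable M i hJ) fun v => hle v.2
  have h4 : ((Ten (tpow n d) M).sub N hN).Blk (walk B i d) :=
    Adm.of_inj h3 (fun v w h => Subtype.ext (congrArg (fun x : (daha d M).NN i J => x.1) h))
      (blk_NN hB i hJ)
  haveI : Nontrivial ((Ten (tpow n d) M).sub N hN).V := Submodule.nontrivial_iff_ne_bot.2 h0
  have h5 := nontrivial_Fc h4 h1 h2
  obtain ⟨e, -⟩ := extS_iso M hN c
  exact Submodule.nontrivial_iff_ne_bot.1 e.symm.toEquiv.nontrivial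

theorem gb_step {M : GMod n} (hB : M.Blk B) (i : ℕ → ℤ) {J : List ℕ}
    (hJ : ∀ r ∈ J, r + 1 < d) (h1 : walk B i d (i d + 1) = 0) (h2 : 1 ≤ walk B i d (i d))
    (h : GbDec M i J d) : GbDec M i J (d + 1) := by
  obtain ⟨N₁, N₂, s1, s2, b1, b2, hd, hs⟩ := h
  obtain ⟨e1, e2⟩ := extS_sup M s1 s2 hd (i d)
  refine ⟨extS M N₁ s1 (i d), extS M N₂ s2 (i d), extS_stable M s1 _, extS_stable M s2 _,
    gb_ne_bot hB i hJ s1 (hs ▸ le_sup_left) b1 h1 h2,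
    gb_ne_bot hB i hJ s2 (hs ▸ le_sup_right) b2 h1 h2, e2, ?_⟩
  rw [← e1, NN_succ M i hJ]
  exact gb_extS_congr M hs _ _ _

theorem gb_base {M : GMod n} (i : ℕ → ℤ) {J : List ℕ} (hJ : ∀ r ∈ J, r + 1 < d)
    (h : ∃ N₁ N₂, ((Ten (tpow n d) M).sub ((daha d M).NN i J) (NN_stable M i hJ)).Stable N₁ ∧
      ((Ten (tpow n d) M).sub ((daha d M).NN i J) (NN_stable M i hJ)).Stable N₂ ∧ N₁ ≠ ⊥ ∧
      N₂ ≠ ⊥ ∧ IsCompl N₁ N₂) : GbDec M i J d := by
  obtain ⟨N₁, N₂, s1, s2, b1, b2, hc⟩ := h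
  have hi := Submodule.injective_subtype ((daha d M).NN i J)
  have hb : ∀ N : Submodule ℂ ((daha d M).NN i J), N ≠ ⊥ →
      N.map ((daha d M).NN i J).subtype ≠ ⊥ := fun N h0 h => h0 (by
    refine (Submodule.eq_bot_iff _).2 fun v hv => Subtype.ext ?_
    exact (Submodule.eq_bot_iff _).1 h _ ⟨v, hv, rfl⟩)
  refine ⟨N₁.map ((daha d M).NN i J).subtype, N₂.map ((daha d M).NN i J).subtype,
    (isHom_subtype _ _ _).stable_map s1, (isHom_subtype _ _ _).stable_map s2, hb _ b1, hb _ b2,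
    Submodule.disjoint_map hi hc.disjoint, ?_⟩
  rw [← Submodule.map_sup, hc.sup_eq_top, Submodule.map_top, Submodule.range_subtype]

theorem gb_inv (M : GMod n) (a : Wt n) : (daha d M).Inv ((Ten (tpow n d) M).W a) :=
  ⟨fun _ hk _ hm => (daha_x_hom M hk).map_W hm, fun _ hr _ hm => (daha_s_hom M hr).map_W hm⟩

theorem gb_NN_congr (M : GMod n) {i j : ℕ → ℤ} (h : ∀ k < d, i k = j k) (J : List ℕ) :
    (daha d M).NN i J = (daha d M).NN j J := by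
  rw [DAHA.NN, DAHA.NN, (daha d M).G_congr h]

end General

theorem gb_par_sub {d : ℕ} {L : GMod 16} (hP : Par L) {N : Submodule ℂ (Idx d 16 → L.V)}
    (hN : (Ten (tpow 16 d) L).Stable N) : Par ((Ten (tpow 16 d) L).sub N hN) :=
  Par.of_inj (isHom_subtype _ _ hN) (Submodule.injective_subtype N) (Par.ten _ hP)

theorem gb_G_W {d : ℕ} {L : GMod 16} (hB : L.Blk B0) (hP : Par L) (i : ℕ → ℤ)
    (hw : walk B0 i d = cnt a0) (hF : Nontrivial (Fit L (revL i d)).V) :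
    (daha d L).G i ⊓ (Ten (tpow 16 d) L).W a0 ≠ ⊥ := by
  obtain ⟨e, -⟩ := G_iso L i d
  haveI : Nontrivial ((Ten (tpow 16 d) L).sub ((daha d L).G i) (G_stable L i)).V :=
    e.toEquiv.nontrivial
  have h1 := Par.W_ne_bot (hw ▸ blk_G hB i d) (gb_par_sub hP (G_stable L i))
  obtain ⟨v, hv, h0⟩ := Submodule.exists_mem_ne_zero_of_ne_bot h1
  exact fun h => h0 (Subtype.ext
    ((Submodule.eq_bot_iff _).1 h v.1 ⟨v.2, (mem_W_sub _ _ _ _ _).1 hv⟩))

theorem gb_map_TT' {d : ℕ} (L : GMod 16) {N : Submodule ℂ (Idx d 16 → L.V)}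
    (hN : (Ten (tpow 16 d) L).Stable N) :
    (TT ((Ten (tpow 16 d) L).sub N hN)).map (toF L N) =
      extS L N hN 4 ⊓ (Ten (tpow 16 (d + 1)) L).W a0 :=
  gb_map_TT L hN 4 a0

theorem gb_toF_y' {d : ℕ} (L : GMod 16) {N : Submodule ℂ (Idx d 16 → L.V)}
    (hN : (Ten (tpow 16 d) L).Stable N) (m : Fin 16 → N) :
    toF L N (yT ((Ten (tpow 16 d) L).sub N hN) m) =
      ((daha (d + 1) L).x d - (4 : ℂ) • (1 : End ℂ (Idx (d + 1) 16 → L.V))) (toF L N m) :=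
  gb_toF_y L hN 4 m

theorem gb_tr_q {Z : Type} [AddCommGroup Z] [Module ℂ Z] (R : GMod 16)
    (f : (Fin 16 → R.V) →ₗ[ℂ] Z) (U : Submodule ℂ Z) (hU : (TT R).map f = U)
    (y' : End ℂ Z) (h : ∀ m, f (yT R m) = y' (f m)) (hq : ∃ q ∈ U, y' (y' (y' q)) ≠ 0) :
    ∃ q ∈ TT R, yT R (yT R (yT R q)) ≠ 0 := by
  subst hU
  obtain ⟨_, ⟨q, hq, rfl⟩, h0⟩ := hq
  refine ⟨q, hq, fun h1 => h0 ?_⟩
  rw [← h, ← h, ← h, h1, map_zero]

theorem gb_tr_c {Z : Type} [AddCommGroup Z] [Module ℂ Z] (R : GMod 16)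
    (f : (Fin 16 → R.V) →ₗ[ℂ] Z) (U : Submodule ℂ Z) (hU : (TT R).map f = U)
    (y' : End ℂ Z) (h : ∀ m, f (yT R m) = y' (f m))
    (hq : ¬ ∃ t ∈ U, U ≤ Submodule.span ℂ {t, y' t, y' (y' t), y' (y' (y' t))}) :
    ¬ ∃ t ∈ TT R, TT R ≤ Submodule.span ℂ {t, yT R t, yT R (yT R t), yT R (yT R (yT R t))} := by
  subst hU
  rintro ⟨t, ht, hle⟩
  refine hq ⟨f t, ⟨t, ht, rfl⟩, (Submodule.map_mono hle).trans ?_⟩
  rw [Submodule.map_span]
  simp only [Set.image_insert_eq, Set.image_singleton, h]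
  exact le_rfl

theorem gb_TT_q {d : ℕ} (L : GMod 16) {N : Submodule ℂ (Idx d 16 → L.V)}
    (hN : (Ten (tpow 16 d) L).Stable N) {U : Submodule ℂ (Idx (d + 1) 16 → L.V)}
    (hU : U = extS L N hN 4) {y : End ℂ (Idx (d + 1) 16 → L.V)}
    (hy : y = (daha (d + 1) L).x d - (4 : ℂ) • 1)
    (h : ∃ q ∈ U ⊓ (Ten (tpow 16 (d + 1)) L).W a0, y (y (y q)) ≠ 0) {R : GMod 16}
    (hR : R = (Ten (tpow 16 d) L).sub N hN) : ∃ q ∈ TT R, yT R (yT R (yT R q)) ≠ 0 := by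
  have h1 := gb_map_TT' L hN
  have h2 := gb_toF_y' L hN
  rw [← hU] at h1
  rw [← hy] at h2
  rw [hR]
  exact gb_tr_q _ (toF L N) _ h1 y h2 h

theorem gb_TT_c {d : ℕ} (L : GMod 16) {N : Submodule ℂ (Idx d 16 → L.V)}
    (hN : (Ten (tpow 16 d) L).Stable N) {U : Submodule ℂ (Idx (d + 1) 16 → L.V)}
    (hU : U = extS L N hN 4) {y : End ℂ (Idx (d + 1) 16 → L.V)}
    (hy : y = (daha (d + 1) L).x d - (4 : ℂ) • 1)
    (h : ¬ ∃ t ∈ U ⊓ (Ten (tpow 16 (d + 1)) L).W a0, U ⊓ (Ten (tpow 16 (d + 1)) L).W a0 ≤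
      Submodule.span ℂ {t, y t, y (y t), y (y (y t))}) {R : GMod 16}
    (hR : R = (Ten (tpow 16 d) L).sub N hN) : ¬ ∃ t ∈ TT R, TT R ≤
      Submodule.span ℂ {t, yT R t, yT R (yT R t), yT R (yT R (yT R t))} := by
  have h1 := gb_map_TT' L hN
  have h2 := gb_toF_y' L hN
  rw [← hU] at h1
  rw [← hy] at h2
  rw [hR]
  exact gb_tr_c _ (toF L N) _ h1 y h2 h

/-- The module after `on, mid`. -/
noncomputable abbrev Rmid (L : GMod 16) : GMod 16 :=
  (Ten (tpow 16 103) L).sub ((daha 103 L).NN iBig Jbig)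
    (NN_stable L iBig fun r hr => (farJ_103.1 r hr).1)

theorem gb_blk_mid {L : GMod 16} (hB : L.Blk B0) : (Rmid L).Blk Blam :=
  blk_NN hB iBig fun r hr => (farJ_103.1 r hr).1

theorem gb_par_mid {L : GMod 16} (hP : Par L) : Par (Rmid L) := gb_par_sub hP _

theorem mid_sub {L : GMod 16} (hL : L.Simple) (hB : L.Blk B0) (hP : Par L)
    (hF : Nontrivial (Fit L (revL iQ 104)).V) (K) (hK : (Rmid L).Stable K)
    (h : Subsingleton (Fc ((Rmid L).sub K hK) 4).V) : K = ⊥ := by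
  have hY : ((Rmid L).sub K hK).Blk Blam := (gb_blk_mid hB).sub K hK
  have hPY : Par ((Rmid L).sub K hK) :=
    Par.of_inj (isHom_subtype _ _ hK) (Submodule.injective_subtype K) (gb_par_mid hP)
  have hf := Par.fc_lam hY hPY h
  exact gb_sub (R := Rmid L) (d := 103) hL hB iBig (gb_blk_mid hB) (isHom_subtype _ _ _)
    (Submodule.injective_subtype _) (fun v => v.2.1) K hK _ hf (revL iQ 104) iQ_le
    (by rw [length_revL]; norm_num) hF

theorem mid_quot {L : GMod 16} (hL : L.Simple) (hB : L.Blk B0) (hP : Par L)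
    (hF : Nontrivial (Fit L (revL iQ 104)).V) (K) (hK : (Rmid L).Stable K)
    (h : Subsingleton (Fc ((Rmid L).quot K hK) 4).V) : K = ⊤ := by
  have hY : ((Rmid L).quot K hK).Blk Blam := (gb_blk_mid hB).quot K hK
  have hPY : Par ((Rmid L).quot K hK) :=
    Par.of_surj (isHom_mkQ _ _ hK) (Submodule.mkQ_surjective K) (gb_par_mid hP)
  have hf := Par.fc_lam hY hPY h
  obtain ⟨p, hp, hs⟩ := gb_proj hB iBig (fun r hr => (farJ_103.1 r hr).1) farJ_103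
  exact gb_quot (R := Rmid L) (d := 103) hL hB iBig (gb_blk_mid hB) hp hs K hK _ hf
    (revL iQ 104) iQ_le (by rw [length_revL]; norm_num) hF

theorem mid_decomp {L : GMod 16} (hL : L.Simple) (hB : L.Blk B0) (hP : Par L)
    (hF : Nontrivial (Fit L (revL iQ 104)).V) :
    ∃ N₁ N₂, (Rmid L).Stable N₁ ∧ (Rmid L).Stable N₂ ∧ N₁ ≠ ⊥ ∧ N₂ ≠ ⊥ ∧ IsCompl N₁ N₂ := by
  have hJ : ∀ r ∈ Jbig, r + 1 < 103 := fun r hr => (farJ_103.1 r hr).1
  haveI : FiniteDimensional ℂ ((Ten (tpow 16 (103 + 1)) L).W a0) :=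
    (adm_ten (tpow 16 (103 + 1)) hB).fin a0
  have h104 : 103 + 1 = 104 := rfl
  have k0 := gb_G_W (d := 103 + 1) hB hP iQ (by rw [h104]; exact walk_q104)
    (by rw [h104]; exact hF)
  obtain ⟨k1, k2⟩ := kb (daha (103 + 1) L) (daha_integral hB (103 + 1))
    ((Ten (tpow 16 (103 + 1)) L).W a0) (gb_inv L a0) k0 _ rfl
  have e1 := G_succ (d := 103) L iQ
  rw [iQ_103] at e1
  have e2 := NN_succ L iP hJ
  rw [iP_103, gb_extS_congr L (gb_NN_congr (i := iP) (j := iBig) L iP_eq Jbig) _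
    (NN_stable L iBig hJ)] at e2
  have k3 := gb_TT_q L (G_stable L iQ) e1 rfl k1 rfl
  have k4 := gb_TT_c L (NN_stable L iBig hJ) e2 rfl k2 (R := Rmid L) rfl
  exact bcore (Rmid L) ((Ten (tpow 16 103) L).sub ((daha 103 L).G iQ) (G_stable L iQ))
    (gb_blk_mid hB) (gb_par_mid hP) (walk_q103 ▸ blk_G hB iQ 103) (gb_par_sub hP _) k3 k4
    (mid_sub hL hB hP hF) (mid_quot hL hB hP hF)

theorem glB : ∃ L : GMod 16, L.Simple ∧ L.Blk B0 ∧
    ∃ N₁ N₂, (Ten (tpow 16 192) L).Stable N₁ ∧ (Ten (tpow 16 192) L).Stable N₂ ∧ N₁ ≠ ⊥ ∧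
      N₂ ≠ ⊥ ∧ Disjoint N₁ N₂ ∧ N₁ ⊔ N₂ = (daha 192 L).NN iBig Jbig := by
  obtain ⟨L, hL, hB, hP, hF⟩ := exists_L
  have hJ : ∀ r ∈ Jbig, r + 1 < 103 := fun r hr => (farJ_103.1 r hr).1
  have key : ∀ d, 103 ≤ d → d ≤ 192 → GbDec L iBig Jbig d := by
    intro d hd
    induction d, hd using Nat.le_induction with
    | base => exact fun _ => gb_base iBig hJ (mid_decomp hL hB hP hF)
    | succ d hd ih =>
      intro h
      obtain ⟨h1, h2⟩ := out_step d hd (by omega)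
      exact gb_step hB iBig (fun r hr => (hJ r hr).trans_le hd) h1 h2 (ih (by omega))
  exact ⟨L, hL, hB, key 192 (by norm_num) le_rfl⟩

end Pool.Agent.KM
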