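import Pool.Agent.Lib.MP_515a76_al.Br2
import Pool.Agent.Lib.MP_515a76_al.GVerma

/-! A projective functor is determined by its value on the dominant Verma module. -/

namespace Pool.Agent.KM

open Module GMod LieAlgebra.SpecialLinear

attribute [local instance 100] LieRing.ofAssociativeRing

variable {n : ℕ} {c : ℤ}

namespace Indec

variable {V K M N : SlMod n}

theorem tensMap_apply (f : SlMod.Hom M N) (x : (V.tens M).V) :
    V.tensMap f x = LinearMap.lTensor V.V f.toLinearMap x := rfl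

theorem nat_apply (q : SlMod.NatIdem V) (hM : M.InO0) (hN : N.InO0) (f : SlMod.Hom M N)
    (x : (V.tens M).V) : q.p N hN (V.tensMap f x) = V.tensMap f (q.p M hM x) :=
  LieModuleHom.congr_fun (q.nat M N hM hN f) x

theorem of_inj (q : SlMod.NatIdem V) (hM : M.InO0) (hN : N.InO0) (f : SlMod.Hom M N)
    (hf : Function.Injective f) (h : q.p N hN = 0) : q.p M hM = 0 := by
  ext x
  have h1 := nat_apply q hM hN f x
  rw [h, LieModuleHom.zero_apply, tensMap_apply] at h1
  exact Module.Flat.lTensor_preserves_injective_linearMap (M := V.V) f.toLinearMap hf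
    (h1.symm.trans (map_zero _).symm)

theorem of_surj (q : SlMod.NatIdem V) (hM : M.InO0) (hN : N.InO0) (f : SlMod.Hom M N)
    (hf : Function.Surjective f) (h : q.p M hM = 0) : q.p N hN = 0 := by
  ext y
  obtain ⟨x, rfl⟩ := LinearMap.lTensor_surjective V.V (g := f.toLinearMap) hf y
  have h1 := nat_apply q hM hN f x
  rw [h, LieModuleHom.zero_apply, map_zero] at h1
  exact h1

theorem of_exact (q : SlMod.NatIdem V) (hK : K.InO0) (hM : M.InO0) (hN : N.InO0)
    (f : SlMod.Hom K M) (g : SlMod.Hom M N) (he : Function.Exact f g)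
    (hg : Function.Surjective g) (h : q.p K hK = 0) (h' : q.p N hN = 0) : q.p M hM = 0 := by
  ext x
  have h1 := nat_apply q hM hN g x
  rw [h', LieModuleHom.zero_apply] at h1
  obtain ⟨y, hy⟩ := (lTensor_exact V.V (f := f.toLinearMap) (g := g.toLinearMap) he hg
    (q.p M hM x)).1 h1.symm
  have h2 := nat_apply q hK hM f y
  rw [h, LieModuleHom.zero_apply, map_zero, tensMap_apply, hy] at h2
  exact (LieModuleHom.congr_fun (q.idem M hM) x).symm.trans h2

theorem simple {D : SlMod n} {v : D.V} (h : (toGl c D).IsVerma (rhoC n c) v)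
    (hD : D.InO0) (q : SlMod.NatIdem V) (h0 : q.p D hD = 0) {X : GMod n} (hs : X.Simple)
    (hX : X.Blk (cnt (rhoC n c))) : q.p (toSl X) (inO0_toSl hX) = 0 := by
  have := hs.1
  obtain ⟨b, x, hx0, hx, hb⟩ := hX.exists_sing
  obtain ⟨w, hw0, hw⟩ := h.exists_sing (rhoC_anti n c) (b := b) hb
  have hD' := blk_toGl hD c
  obtain ⟨e, -⟩ := exists_equiv_toSl_toGl (c := c) D
  have h1 := of_surj q hD (inO0_toSl hD') e.toLieModuleHom e.surjective h0
  let Y := (toGl c D).sub _ hw.stable_orb
  have hY : Y.Blk (cnt (rhoC n c)) := hD'.sub _ _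
  let w' : Y.V := ⟨w, self_mem_orb _ w⟩
  have hi := isHom_subtype (toGl c D) _ hw.stable_orb
  have hw' : Y.Sing b w' :=
    ⟨(mem_W_sub _ _ _ _ _).2 hw.1, fun i j hij => Subtype.ext (hw.2 i j hij)⟩
  have hsurj : Function.Surjective (Y.orb w') := by
    rintro ⟨_, u, rfl⟩
    exact ⟨u, Subtype.ext (hi.act u w')⟩
  obtain ⟨i, hi'⟩ := exists_slHom' hi
  have h2 := of_inj q (inO0_toSl hY) (inO0_toSl hD') i
    (fun y z e => Subtype.ext (by rwa [hi', hi'] at e)) h1
  obtain ⟨f, hf, hfw⟩ := hw_to_simple hs hw' hsurj (fun e => hw0 (congrArg Subtype.val e)) hx hx0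
  obtain ⟨g, hg⟩ := exists_slHom' hf
  refine of_surj q (inO0_toSl hY) (inO0_toSl hX) g (fun y => ?_) h2
  obtain ⟨u, rfl⟩ := hs.orb_surj hx hx0 y
  exact ⟨Y.act u w', by rw [hg, hf.act, hfw]; rfl⟩

end Indec

theorem natIdem_vanish {V D : SlMod n} {v : D.V} (h : (toGl c D).IsVerma (rhoC n c) v)
    (hD : D.InO0) (q : SlMod.NatIdem V) (h0 : q.p D hD = 0) (M : SlMod n) (hM : M.InO0) :
    q.p M hM = 0 := by
  have key : ∀ X : GMod n, X.Blk (cnt (rhoC n c)) →
      ∀ hX : X.Blk (cnt (rhoC n c)), q.p (toSl X) (inO0_toSl hX) = 0 := by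
    refine Adm.induction (fun X hs hX => ?_) fun X _ K hK hs ih hX => ?_
    · have : Subsingleton (toSl X).V := hs
      have : Subsingleton (V.tens (toSl X)).V :=
        inferInstanceAs (Subsingleton (TensorProduct ℂ V.V (toSl X).V))
      ext x
      exact Subsingleton.elim _ _
    · obtain ⟨f, hf⟩ := exists_slHom' (isHom_subtype X K hK)
      obtain ⟨g, hg⟩ := exists_slHom' (isHom_mkQ X K hK)
      have e1 : (f : _ → _) = K.subtype := funext hf
      have e2 : (g : _ → _) = K.mkQ := funext hg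
      refine Indec.of_exact q (inO0_toSl (hX.sub K hK)) _ (inO0_toSl (hX.quot K hK)) f g ?_ ?_
        (ih (hX.sub K hK)) (Indec.simple h hD q h0 hs (hX.quot K hK))
      · rw [e1, e2]; exact LinearMap.exact_subtype_mkQ K
      · rw [e2]; exact K.mkQ_surjective
  obtain ⟨e, -⟩ := exists_equiv_toSl_toGl (c := c) M
  exact Indec.of_inj q hM _ e.toLieModuleHom e.injective (key _ (blk_toGl hM c) (blk_toGl hM c))

theorem Indec.nontrivial_iff (T : SlMod.ProjFunctor n) {M : SlMod n} (hM : M.InO0) :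
    Nontrivial (T.obj M hM).V ↔ T.e.p M hM ≠ 0 := by
  constructor
  · rintro ⟨⟨_, x, rfl⟩, ⟨_, y, rfl⟩, hne⟩ h0
    exact hne (Subtype.ext (by change T.e.p M hM x = T.e.p M hM y; rw [h0]; rfl))
  · intro h0
    by_contra hn
    rw [not_nontrivial_iff_subsingleton] at hn
    refine h0 (LieModuleHom.ext fun x => ?_)
    exact congrArg Subtype.val (hn.elim (⟨T.e.p M hM x, x, rfl⟩ : (T.e.p M hM).range) 0)

theorem nontrivial_obj (T : SlMod.ProjFunctor n) {D : SlMod n} {v : D.V}
    (h : (toGl c D).IsVerma (rhoC n c) v) (hD : D.InO0) {M : SlMod n} {hM : M.InO0}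
    (hne : Nontrivial (T.obj M hM).V) : Nontrivial (T.obj D hD).V :=
  (Indec.nontrivial_iff T hD).2 fun h0 =>
    (Indec.nontrivial_iff T hM).1 hne (natIdem_vanish h hD T.e h0 M hM)

theorem isIndec_of (T : SlMod.ProjFunctor n) {D : SlMod n} {v : D.V}
    (h : (toGl c D).IsVerma (rhoC n c) v) (hD : D.InO0) (hne : Nontrivial (T.obj D hD).V)
    (hid : ∀ q : SlMod.Hom (T.obj D hD) (T.obj D hD), q.comp q = q → q = 0 ∨ q = LieModuleHom.id) :
    T.IsIndec := by
  refine ⟨⟨D, hD, (Indec.nontrivial_iff T hD).1 hne⟩, fun q hq => ?_⟩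
  have pq : ∀ M hM x, T.e.p M hM (q.p M hM x) = q.p M hM x := fun M hM x =>
    LieModuleHom.congr_fun (hq M hM).1 x
  have qp : ∀ M hM x, q.p M hM (T.e.p M hM x) = q.p M hM x := fun M hM x =>
    LieModuleHom.congr_fun (hq M hM).2 x
  have pp : ∀ M hM x, T.e.p M hM (T.e.p M hM x) = T.e.p M hM x := fun M hM x =>
    LieModuleHom.congr_fun (T.e.idem M hM) x
  have qq : ∀ M hM x, q.p M hM (q.p M hM x) = q.p M hM x := fun M hM x =>
    LieModuleHom.congr_fun (q.idem M hM) x
  let r : SlMod.Hom (T.obj D hD) (T.obj D hD) :=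
    LieModuleHom.codRestrict (T.e.p D hD).range ((q.p D hD).comp (T.e.p D hD).range.incl)
      fun x => ⟨_, pq D hD _⟩
  have hr : ∀ x, (r ⟨T.e.p D hD x, x, rfl⟩).1 = q.p D hD x := fun x => qp D hD x
  rcases hid r (LieModuleHom.ext fun x => Subtype.ext (qq D hD _)) with h0 | h1
  · refine Or.inl (natIdem_vanish h hD q (LieModuleHom.ext fun x => ?_))
    rw [← hr, h0]; rfl
  · let s : SlMod.NatIdem T.V :=
      { p := fun M hM => T.e.p M hM - q.p M hM
        idem := fun M hM => LieModuleHom.ext fun x => by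
          simp only [LieModuleHom.comp_apply, LieModuleHom.sub_apply, map_sub, pq, qp, pp, qq,
            sub_self, sub_zero]
        nat := fun M N hM hN f => LieModuleHom.ext fun x => by
          simp only [LieModuleHom.comp_apply, LieModuleHom.sub_apply, map_sub,
            Indec.nat_apply _ hM hN] }
    have hs : s.p D hD = 0 := LieModuleHom.ext fun x => by
      change T.e.p D hD x - q.p D hD x = 0
      rw [← hr, h1]
      exact sub_self _
    exact Or.inr fun M hM => (sub_eq_zero.1 (natIdem_vanish h hD s hs M hM)).symm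

end Pool.Agent.KM
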