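import Pool.Agent.Lib.MP_515a76_al.Br3
import Pool.Agent.Lib.MP_515a76_al.Br4
import Pool.Agent.Lib.MP_515a76_al.Indec
import Pool.Agent.Lib.MP_515a76_al.GA
import Pool.Agent.Lib.MP_515a76_al.GB

/-! Assembly. -/

namespace Pool.Agent.KM

open Module GMod LieAlgebra.SpecialLinear

theorem main : ∃ (x z : Equiv.Perm (Fin 16)) (T : SlMod.ProjFunctor 16) (Lz : SlMod 16)
    (hz : Lz.InO0), T.IsTheta x ∧ Lz.IsSimpleHW (SlMod.dot z) ∧
      ∃ N₁ N₂ : (T.obj Lz hz).Sub, N₁ ≠ ⊥ ∧ N₂ ≠ ⊥ ∧ IsCompl N₁ N₂ := by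
  have hJ : ∀ r ∈ Jbig, r + 1 < 192 := fun r hr => (farJ_big.1 r hr).1
  have hblk : ∀ X : GMod 16, X.Blk (cnt (rhoC 16 6)) → (Rbig X).Blk (cnt (rhoC 16 18)) := by
    intro X hX
    have := blk_NN hX iBig hJ
    rwa [cnt_rho6, walk_end] at this
  obtain ⟨T, hT⟩ := exists_functor (tpow 16 192) 6 18 (fun X => (daha 192 X).pJ iBig Jbig)
    (fun X => (daha 192 X).NN iBig Jbig) (fun X => NN_stable X iBig hJ)
    (fun X hX => pJ_hom hX iBig hJ) (fun X _ m => (daha 192 X).pJ_mem farJ_big m)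
    (fun X hX m hm => (daha 192 X).pJ_of_mem (daha_integral hX 192) hm)
    (fun X Y hX hY f hf m => (daha 192 X).map_pJ (daha 192 Y) (daha_integral hX 192)
      (daha_integral hY 192) (ptOp _ f) (fun k hk m => ptOp_x hf hk m)
      (fun r hr m => ptOp_s f hr m) hJ m) hblk
  have hiso : ∀ (M : SlMod 16) (hM : M.InO0), (toGl 18 (T.obj M hM)).Iso (Rbig (toGl 6 M)) := by
    intro M hM
    obtain ⟨e⟩ := hT M hM
    exact iso_toGl_of_equiv (hblk _ (blk_toGl hM 6)) e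
  obtain ⟨L, hLs, hLb, N₁, N₂, h₁, h₂, n₁, n₂, hd, hs⟩ := glB
  rw [← cnt_rho6] at hLb
  have hz : (toSl L).InO0 := inO0_toSl hLb
  have hL : toGl 6 (toSl L) = L := toGl_toSl hLb
  obtain ⟨z, hz'⟩ := isSimpleHW_of (c := 6) (L := toSl L) (hL.symm ▸ hLs) (hL.symm ▸ hLb)
  have hdec : ∃ K₁ K₂ : (T.obj (toSl L) hz).Sub, K₁ ≠ ⊥ ∧ K₂ ≠ ⊥ ∧ IsCompl K₁ K₂ := by
    have e := hiso (toSl L) hz
    rw [hL] at e
    exact decomp_of _ _ e h₁ h₂ n₁ n₂ hd hs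
  obtain ⟨Δ, v, hΔ⟩ := exists_verma (rhoC 16 6)
  have hD : (toSl Δ).InO0 := inO0_toSl hΔ.blk
  have hV : ∃ w, (toGl 6 (toSl Δ)).IsVerma (rhoC 16 6) w := by
    rw [toGl_toSl hΔ.blk]; exact ⟨v, hΔ⟩
  obtain ⟨w, hw⟩ := hV
  have hne : Nontrivial (T.obj (toSl Δ) hD).V := by
    obtain ⟨K₁, K₂, k₁, -, -⟩ := hdec
    refine nontrivial_obj T hw hD (M := toSl L) (hM := hz) ?_
    by_contra hc
    rw [not_nontrivial_iff_subsingleton] at hc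
    exact k₁ (Subsingleton.elim _ _)
  have e := (hiso (toSl Δ) hD).symm
  have hl : GLocal (toGl 18 (T.obj (toSl Δ) hD)) := (glA_local hw).iso e
  obtain ⟨x, Lx, hx, hc⟩ := cover_of (c := 18) (P := T.obj (toSl Δ) hD)
    ((hblk _ hw.blk).iso e) ((glA_proj hw _).iso e) hl
  exact ⟨x, z, T, toSl L, hz,
    ⟨isIndec_of T hw hD hne (idem_of_local hl), toSl Δ, Lx, hD, isVerma0_of hw, hx, hc⟩, hz', hdec⟩

end Pool.Agent.KM
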