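import Pool.Agent.Lib.MP_515a76_al.GBasic

/-! The Grothendieck group as a tensor power of the vector representation of sl infinity. -/

namespace Pool.Agent.KM

variable {n : ℕ}

/-- Formal combinations of weights. -/
abbrev Fock (n : ℕ) : Type := Wt n →₀ ℤ

/-- Move one entry from `c` to `c + 1`. -/
noncomputable def fF (c : ℤ) : Fock n →ₗ[ℤ] Fock n :=
  Finsupp.linearCombination ℤ fun a : Wt n =>
    ∑ j ∈ Finset.univ.filter fun j => a j = c, Finsupp.single (a + eps j) (1 : ℤ)

/-- Move one entry from `c + 1` to `c`. -/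
noncomputable def eF (c : ℤ) : Fock n →ₗ[ℤ] Fock n :=
  Finsupp.linearCombination ℤ fun a : Wt n =>
    ∑ j ∈ Finset.univ.filter fun j => a j = c + 1, Finsupp.single (a - eps j) (1 : ℤ)

/-- Supported in the block `B`. -/
def InB (v : Fock n) (B : ℤ → ℤ) : Prop := ∀ a ∈ v.support, cnt a = B

/-- Iterated `fF`; the head is applied last. -/
noncomputable def fFs (v : Fock n) : List ℤ → Fock n
  | [] => v
  | c :: l => fF c (fFs v l)

/-- Iterated `eF`; the head is applied first. -/
noncomputable def eFs : Fock n → List ℤ → Fock n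
  | v, [] => v
  | v, c :: l => eFs (eF c v) l

theorem inB_iff {v : Fock n} {B : ℤ → ℤ} : InB v B ↔ v ∈ Finsupp.supported ℤ ℤ {a | cnt a = B} :=
  Iff.rfl

theorem InB.map_mem {M : Type} [AddCommGroup M] {v : Fock n} {B : ℤ → ℤ} (h : InB v B)
    {F : Fock n →ₗ[ℤ] M} {P : Submodule ℤ M}
    (H : ∀ a, cnt a = B → F (Finsupp.single a 1) ∈ P) : F v ∈ P := by
  rw [inB_iff, Finsupp.supported_eq_span_single] at h
  refine (Submodule.span_le (p := P.comap F)).2 ?_ h
  rintro _ ⟨a, ha, rfl⟩
  exact H a ha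

theorem InB.map_eq {v : Fock n} {B : ℤ → ℤ} (h : InB v B) {F G : Fock n →ₗ[ℤ] Fock n}
    (H : ∀ a, cnt a = B → F (Finsupp.single a 1) = G (Finsupp.single a 1)) : F v = G v := by
  have := h.map_mem (F := F - G) (P := ⊥) fun a ha => by simp [H a ha]
  simpa [sub_eq_zero] using this

theorem fF_single (c : ℤ) (a : Wt n) : fF c (Finsupp.single a 1) =
    ∑ j, if a j = c then Finsupp.single (a + eps j) 1 else 0 := by
  simp [fF, Finset.sum_filter]

theorem eF_single (c : ℤ) (a : Wt n) : eF c (Finsupp.single a 1) =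
    ∑ j, if a j = c + 1 then Finsupp.single (a - eps j) 1 else 0 := by
  simp [eF, Finset.sum_filter]

theorem InB.fF {v : Fock n} {B : ℤ → ℤ} (h : InB v B) (c : ℤ) : InB (fF c v) (move B c) := by
  refine inB_iff.2 (h.map_mem fun a ha => ?_)
  rw [fF_single]
  refine Submodule.sum_mem _ fun j _ => ?_
  split_ifs with hj
  · exact Finsupp.single_mem_supported ℤ 1 (by rw [Set.mem_ofPred_eq, cnt_add_eps, ha, hj])
  · exact zero_mem _

theorem InB.eF {v : Fock n} {B : ℤ → ℤ} (h : InB v B) (c : ℤ) : InB (eF c v) (unmove B c) := by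
  refine inB_iff.2 (h.map_mem fun a ha => ?_)
  rw [eF_single]
  refine Submodule.sum_mem _ fun j _ => ?_
  split_ifs with hj
  · exact Finsupp.single_mem_supported ℤ 1
      (by rw [Set.mem_ofPred_eq, cnt_sub_eps, ha, hj, add_sub_cancel_right])
  · exact zero_mem _

theorem cnt_smul (a : Wt n) (c : ℤ) (v : Fock n) :
    cnt a c • v = ∑ j, if a j = c then v else 0 := by
  simp [cnt, ← Finset.sum_filter]

theorem fF_eF {v : Fock n} {B : ℤ → ℤ} (h : InB v B) (c c' : ℤ) :
    fF c (eF c' v) = eF c' (fF c v) + (if c = c' then B (c + 1) - B c else 0) • v := by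
  refine h.map_eq (F := fF c ∘ₗ eF c') (G := eF c' ∘ₗ fF c +
    (if c = c' then B (c + 1) - B c else 0) • LinearMap.id) fun a ha => ?_
  have key : ∀ j i : Fin n, ((if a j = c' + 1 then if (a - eps j) i = c then
      Finsupp.single (a - eps j + eps i) 1 else 0 else 0 : Fock n)) =
      (if a i = c then if (a + eps i) j = c' + 1 then Finsupp.single (a + eps i - eps j) 1 else 0
        else 0) + if i = j then if c = c' then (if a j = c + 1 then Finsupp.single a 1 else 0) -
          (if a j = c then Finsupp.single a 1 else 0) else 0 else 0 := by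
    intro j i
    by_cases hij : i = j
    · subst hij
      simp only [Pi.sub_apply, Pi.add_apply, Pi.single_eq_same, sub_add_cancel, add_sub_cancel_right]
      split_ifs <;> first | omega | simp
    · simp only [Pi.sub_apply, Pi.add_apply, Pi.single_eq_of_ne hij, Pi.single_eq_of_ne' hij,
        sub_zero, add_zero, if_neg hij, sub_add_eq_add_sub]
      split_ifs <;> rfl
  simp only [LinearMap.comp_apply, LinearMap.add_apply, LinearMap.smul_apply, LinearMap.id_apply,
    fF_single, eF_single, map_sum, apply_ite (fF c), apply_ite (eF c'), map_zero,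
    Finset.ite_sum_zero, key, Finset.sum_add_distrib, Finset.sum_ite_eq', Finset.mem_univ, if_true]
  rw [Finset.sum_comm]
  congr 1
  split_ifs
  · rw [sub_smul, ← ha, cnt_smul, cnt_smul, Finset.sum_sub_distrib]
  · simp

theorem fFs_add (v w : Fock n) (l : List ℤ) : fFs (v + w) l = fFs v l + fFs w l := by
  induction l with
  | nil => rfl
  | cons c l ih => simp only [fFs, ih, map_add]

theorem eFs_concat (v : Fock n) (l : List ℤ) (c : ℤ) : eFs v (l ++ [c]) = eF c (eFs v l) := by
  induction l generalizing v with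
  | nil => rfl
  | cons d l ih => exact ih _

theorem exists_inB {v : Fock n} {B : ℤ → ℤ} (h : InB v B) (l : List ℤ) :
    ∃ B', InB (eFs v l) B' := by
  induction l generalizing v B with
  | nil => exact ⟨B, h⟩
  | cons d l ih => exact ih (h.eF d)

theorem sl_two {v : Fock n} {B : ℤ → ℤ} (h : InB v B) {c : ℤ} (hf : fF c v = 0) (k : ℕ) :
    (∃ B', InB (eFs v (List.replicate k c)) B' ∧ B' (c + 1) - B' c = B (c + 1) - B c - 2 * k) ∧
    fF c (eFs v (List.replicate (k + 1) c)) =
      ((k + 1) * (B (c + 1) - B c - k)) • eFs v (List.replicate k c) := by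
  induction k with
  | zero => exact ⟨⟨B, h, by simp⟩, by simp [eFs, fF_eF h, hf]⟩
  | succ k ih =>
    obtain ⟨⟨B', h1, h2⟩, h3⟩ := ih
    have h4 : InB (eFs v (List.replicate (k + 1) c)) (unmove B' c) := by
      rw [List.replicate_succ', eFs_concat]
      exact h1.eF c
    have h5 : unmove B' c (c + 1) - unmove B' c c = B (c + 1) - B c - 2 * (k + 1 : ℕ) := by
      simp [unmove]
      omega
    refine ⟨⟨_, h4, h5⟩, ?_⟩
    rw [List.replicate_succ' (n := k + 1), eFs_concat, fF_eF h4, h3, if_pos rfl, h5, map_smul,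
      ← eFs_concat, ← List.replicate_succ', ← add_smul]
    congr 1
    push_cast
    ring

theorem eFs_ne_zero {v : Fock n} {B : ℤ → ℤ} (h : InB v B) (h0 : v ≠ 0) {c : ℤ} (hf : fF c v = 0)
    {k : ℕ} (hk : (k : ℤ) ≤ B (c + 1) - B c) : eFs v (List.replicate k c) ≠ 0 := by
  induction k with
  | zero => exact h0
  | succ k ih =>
    intro h1
    have h2 := (sl_two h hf k).2
    rw [h1, map_zero, eq_comm, smul_eq_zero] at h2
    push_cast at hk
    exact h2.elim (mul_pos (by omega) (by omega)).ne' (ih (by omega))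

theorem fF_ne_zero {v : Fock n} {B : ℤ → ℤ} (h : InB v B) (h0 : v ≠ 0) {c : ℤ}
    (h1 : B (c + 1) = 0) (h2 : 1 ≤ B c) : fF c v ≠ 0 := by
  intro hf
  have h3 : eF c v = 0 := h.map_eq (G := 0) fun a ha => by
    have h4 : ∀ j, a j ≠ c + 1 := by simpa [← ha, cnt] using h1
    simp [eF_single, h4]
  have h4 := fF_eF h c c
  rw [h3, hf, map_zero, map_zero, zero_add, if_pos rfl, eq_comm, smul_eq_zero] at h4
  exact h4.elim (by omega) h0

theorem fF_eFs_mem {v : Fock n} {B : ℤ → ℤ} (h : InB v B) {c : ℤ} (hf : fF c v = 0) (l : List ℤ) :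
    fF c (eFs v l) ∈ Submodule.span ℤ {w | ∃ l' : List ℤ, l'.length < l.length ∧ w = eFs v l'} := by
  induction l using List.reverseRecOn with
  | nil => simp [eFs, hf]
  | append_singleton l d ih =>
    obtain ⟨B', h1⟩ := exists_inB h l
    rw [eFs_concat, fF_eF h1]
    refine add_mem ?_ (Submodule.smul_mem _ _ (Submodule.subset_span ⟨l, by simp, rfl⟩))
    refine Submodule.mem_comap.1 (Submodule.span_le.2 ?_ ih)
    rintro _ ⟨l', h2, rfl⟩
    exact Submodule.subset_span ⟨l' ++ [d], by simpa using h2, (eFs_concat _ _ _).symm⟩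

/-- A vector killed by all `fF c`, `c ∈ P`, is killed by long words after short words. -/
theorem fFs_eFs_eq_zero {v : Fock n} {B : ℤ → ℤ} (h : InB v B) (P : Set ℤ)
    (hf : ∀ c ∈ P, fF c v = 0) (l l' : List ℤ) (hl' : ∀ c ∈ l', c ∈ P)
    (hlen : l.length < l'.length) : fFs (eFs v l) l' = 0 := by
  have key : fFs (eFs v l) l' ∈ Submodule.span ℤ
      {w | ∃ m : List ℤ, m.length + l'.length ≤ l.length ∧ w = eFs v m} := by
    clear hlen
    induction l' with
    | nil => exact Submodule.subset_span ⟨l, le_rfl, rfl⟩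
    | cons c l' ih =>
      refine (Submodule.mem_comap (f := fF c)).1 (Submodule.span_le.2 ?_
        (ih fun d hd => hl' d (List.mem_cons_of_mem _ hd)))
      rintro _ ⟨m, h2, rfl⟩
      refine Submodule.span_mono ?_ (fF_eFs_mem h (hf c (hl' c List.mem_cons_self)) m)
      rintro _ ⟨m', h3, rfl⟩
      exact ⟨m', by rw [List.length_cons]; omega, rfl⟩
  refine (Submodule.span_le (p := ⊥)).2 ?_ key
  rintro _ ⟨m, h2, -⟩
  omega

/-- Components in different blocks can be compared separately. -/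
theorem eq_of_blocks {κ : Type} [DecidableEq κ] (s : Finset κ) (Bk : κ → ℤ → ℤ)
    (hB : ∀ k ∈ s, ∀ k' ∈ s, Bk k = Bk k' → k = k') (v w : κ → Fock n)
    (hv : ∀ k ∈ s, InB (v k) (Bk k)) (hw : ∀ k ∈ s, InB (w k) (Bk k))
    (h : ∑ k ∈ s, v k = ∑ k ∈ s, w k) : ∀ k ∈ s, v k = w k := by
  intro k hk
  ext a
  have h0 : ∀ {u : Fock n} {B}, InB u B → cnt a ≠ B → u a = 0 := fun hu hB =>
    Finsupp.notMem_support_iff.1 fun ha => hB (hu a ha)
  by_cases ha : cnt a = Bk k
  · have h1 : ∀ u : κ → Fock n, (∀ k ∈ s, InB (u k) (Bk k)) → (∑ k ∈ s, u k) a = u k a :=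
      fun u hu => by
        rw [Finsupp.finsetSum_apply]
        exact Finset.sum_eq_single_of_mem k hk fun j hj hjk =>
          h0 (hu j hj) fun e => hjk (hB j hj k hk (e.symm.trans ha))
    rw [← h1 v hv, h, h1 w hw]
  · rw [h0 (hv k hk) ha, h0 (hw k hk) ha]

end Pool.Agent.KM
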