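import Pool.Agent.Lib.MP_515a76_al.GDefs

/-! Homomorphisms, submodules, weight spaces, counting functions. -/

namespace Pool.Agent.KM

open Module

variable {n : ℕ}

theorem cnt_eq_iff (a b : Wt n) :
    cnt a = cnt b ↔ ∃ σ : Equiv.Perm (Fin n), b = fun j => a (σ j) := by
  constructor
  · intro h
    have e : ∀ c, {j // b j = c} ≃ {j // a j = c} := fun c => Fintype.equivOfCardEq (by
      have h1 := congrFun h c
      simp only [cnt, Nat.cast_inj] at h1
      simp only [Fintype.card_subtype, h1])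
    exact ⟨Equiv.ofFiberEquiv e, funext fun j => (Equiv.ofFiberEquiv_map e j).symm⟩
  · rintro ⟨σ, rfl⟩
    funext c
    simp only [cnt, Nat.cast_inj]
    exact (Finset.card_equiv σ (by simp)).symm

theorem finite_cnt (B : ℤ → ℤ) : {a : Wt n | cnt a = B}.Finite := by
  rcases Set.eq_empty_or_nonempty {a : Wt n | cnt a = B} with h | ⟨a, ha⟩
  · rw [h]
    exact Set.finite_empty
  · refine (Set.finite_range fun σ : Equiv.Perm (Fin n) => fun j => a (σ j)).subset fun b hb => ?_
    obtain ⟨σ, h⟩ := (cnt_eq_iff a b).1 (ha.trans hb.symm)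
    exact ⟨σ, h.symm⟩

theorem cnt_nonneg (a : Wt n) (c : ℤ) : 0 ≤ cnt a c := by
  exact Int.natCast_nonneg _

theorem gb_eps_apply (j k : Fin n) : eps j k = if k = j then 1 else 0 := Pi.single_apply _ _ _

theorem gb_eps_same (j : Fin n) : eps j j = 1 := Pi.single_eq_same _ _

theorem gb_eps_of_ne {j k : Fin n} (h : k ≠ j) : eps j k = 0 := Pi.single_eq_of_ne h _

theorem GBasic.cnt_split (a : Wt n) (j : Fin n) (c : ℤ) : cnt a c = (if a j = c then 1 else 0) +
    ∑ i ∈ Finset.univ.erase j, if a i = c then (1 : ℤ) else 0 := by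
  rw [Finset.add_sum_erase Finset.univ (fun i => if a i = c then (1 : ℤ) else 0)
    (Finset.mem_univ j), cnt, Finset.card_filter]
  push_cast
  rfl

theorem cnt_add_eps (a : Wt n) (j : Fin n) : cnt (a + eps j) = move (cnt a) (a j) := by
  funext c
  rw [move, GBasic.cnt_split _ j, GBasic.cnt_split a j]
  have h : ∑ i ∈ Finset.univ.erase j, (if (a + eps j : Wt n) i = c then (1 : ℤ) else 0) =
      ∑ i ∈ Finset.univ.erase j, if a i = c then (1 : ℤ) else 0 :=
    Finset.sum_congr rfl fun i hi => by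
      rw [Pi.add_apply, gb_eps_of_ne (Finset.ne_of_mem_erase hi), add_zero]
  rw [h, Pi.add_apply, gb_eps_same]
  split_ifs <;> omega

theorem unmove_move (B : ℤ → ℤ) (c : ℤ) : unmove (move B c) c = B := by
  funext t
  simp only [unmove, move]
  ring

theorem cnt_sub_eps (a : Wt n) (j : Fin n) : cnt (a - eps j) = unmove (cnt a) (a j - 1) := by
  have h := cnt_add_eps (a - eps j) j
  rw [sub_add_cancel, Pi.sub_apply, gb_eps_same] at h
  rw [h, unmove_move]

theorem move_unmove (B : ℤ → ℤ) (c : ℤ) : move (unmove B c) c = B := by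
  funext t
  simp only [unmove, move]
  ring

theorem move_inj {B : ℤ → ℤ} {c c' : ℤ} (h : move B c = move B c') : c = c' := by
  have h1 := congrFun h c
  simp only [move] at h1
  split_ifs at h1 <;> omega

theorem unmove_inj {B : ℤ → ℤ} {c c' : ℤ} (h : unmove B c = unmove B c') : c = c' := by
  have h1 := congrFun h c
  simp only [unmove] at h1
  split_ifs at h1 <;> omega

theorem ht_add (a b : Wt n) : ht (a + b) = ht a + ht b := by
  simp only [ht, Pi.add_apply, mul_add, Finset.sum_add_distrib]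

theorem ht_root (a : Wt n) (i j : Fin n) :
    ht (a + eps i - eps j) = ht a + ((j : ℕ) : ℤ) - ((i : ℕ) : ℤ) := by
  simp only [ht, Pi.add_apply, Pi.sub_apply, mul_add, mul_sub, Finset.sum_add_distrib,
    Finset.sum_sub_distrib, Pi.single_apply, mul_ite, mul_one, mul_zero, Finset.sum_ite_eq',
    Finset.mem_univ, if_true]
  ring

theorem lex_root (a : Wt n) {i j : Fin n} (h : i < j) : toLex a < toLex (a + eps i - eps j) := by
  refine ⟨i, fun k hk => ?_, ?_⟩
  · change a k = a k + eps i k - eps j k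
    rw [gb_eps_of_ne (ne_of_lt hk), gb_eps_of_ne (ne_of_lt (lt_trans hk h)), add_zero, sub_zero]
  · change a i < a i + eps i i - eps j i
    rw [gb_eps_same, gb_eps_of_ne h.ne]
    omega

theorem lex_add_right {a b : Wt n} (c : Wt n) : toLex (a + c) < toLex (b + c) ↔ toLex a < toLex b := by
  constructor
  · rintro ⟨i, h1, h2⟩
    exact ⟨i, fun k hk => add_right_cancel (h1 k hk : a k + c k = b k + c k),
      lt_of_add_lt_add_right (h2 : a i + c i < b i + c i)⟩
  · rintro ⟨i, h1, h2⟩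
    exact ⟨i, fun k hk => congrArg (· + c k) (h1 k hk : a k = b k),
      (add_lt_add_left (h2 : a i < b i) (c i) : a i + c i < b i + c i)⟩

/-- A strictly decreasing weight is the largest weight of its block. -/
theorem lex_max_of_anti {a : Wt n} (ha : StrictAnti a) {b : Wt n} (hb : cnt b = cnt a) :
    toLex b ≤ toLex a := by
  obtain ⟨σ, rfl⟩ := (cnt_eq_iff a b).1 hb.symm
  refine not_lt.1 ?_
  rintro ⟨i, h1, h2⟩
  have h3 : σ i < i := ha.lt_iff_gt.1 (h2 : a i < a (σ i))
  have h4 : σ i = σ (σ i) := ha.injective (h1 _ h3 : a (σ i) = a (σ (σ i)))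
  exact h3.ne (σ.injective h4).symm

namespace GMod

theorem E_comm (M : GMod n) (a b c d : Fin n) :
    M.E a b * M.E c d - M.E c d * M.E a b =
      (if b = c then M.E a d else 0) - (if d = a then M.E c b else 0) := by
  have h : ∀ a b c d : Fin n, M.ρ (eM a b * eM c d) = if b = c then M.E a d else 0 := by
    intro a b c d
    split_ifs with h
    · rw [h, Matrix.single_mul_single_same, one_mul]
    · rw [Matrix.single_mul_single_of_ne _ _ _ _ h, map_zero]
  rw [M.comm, map_sub, h, h]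

theorem ρ_eq_sum (M : GMod n) (A : Mat n) : M.ρ A = ∑ a, ∑ b, A a b • M.E a b := by
  conv_lhs => rw [Matrix.matrix_eq_sum_single A]
  simp only [map_sum, ← map_smul, Matrix.smul_single, smul_eq_mul, mul_one]

theorem isHom_of_E {M N : GMod n} {f : M.V →ₗ[ℂ] N.V}
    (h : ∀ a b v, f (M.E a b v) = N.E a b (f v)) : M.IsHom N f := by
  intro A v
  simp only [ρ_eq_sum _ A, LinearMap.sum_apply, LinearMap.smul_apply, map_sum, map_smul, h]

theorem stable_of_E {M : GMod n} {S : Submodule ℂ M.V} (h : ∀ a b, ∀ v ∈ S, M.E a b v ∈ S) :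
    M.Stable S := by
  intro A v hv
  simp only [ρ_eq_sum _ A, LinearMap.sum_apply, LinearMap.smul_apply]
  exact S.sum_mem fun a _ => S.sum_mem fun b _ => S.smul_mem _ (h a b v hv)

theorem isHom_id (M : GMod n) : M.IsHom M LinearMap.id := fun _ _ => rfl

theorem IsHom.comp {M N P : GMod n} {f : M.V →ₗ[ℂ] N.V} {g : N.V →ₗ[ℂ] P.V} (hg : N.IsHom P g)
    (hf : M.IsHom N f) : M.IsHom P (g.comp f) := fun A v => by
  simp [hf A v, hg A]

theorem IsHom.add {M N : GMod n} {f g : M.V →ₗ[ℂ] N.V} (hf : M.IsHom N f) (hg : M.IsHom N g) :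
    M.IsHom N (f + g) := fun A v => by simp [hf A v, hg A v]

theorem IsHom.sub {M N : GMod n} {f g : M.V →ₗ[ℂ] N.V} (hf : M.IsHom N f) (hg : M.IsHom N g) :
    M.IsHom N (f - g) := fun A v => by simp [hf A v, hg A v]

theorem IsHom.smul {M N : GMod n} {f : M.V →ₗ[ℂ] N.V} (hf : M.IsHom N f) (c : ℂ) :
    M.IsHom N (c • f) := fun A v => by simp [hf A v]

theorem isHom_zero (M N : GMod n) : M.IsHom N 0 := fun A v => by simp

theorem isHom_subtype (M : GMod n) (S : Submodule ℂ M.V) (h : M.Stable S) :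
    (M.sub S h).IsHom M S.subtype := fun _ _ => rfl

theorem isHom_mkQ (M : GMod n) (S : Submodule ℂ M.V) (h : M.Stable S) :
    M.IsHom (M.quot S h) S.mkQ := fun _ _ => rfl

theorem IsHom.codRestrict {M N : GMod n} {f : M.V →ₗ[ℂ] N.V} (hf : M.IsHom N f)
    (S : Submodule ℂ N.V) (hS : N.Stable S) (h : ∀ v, f v ∈ S) :
    M.IsHom (N.sub S hS) (f.codRestrict S h) := fun A v => Subtype.ext (hf A v)

theorem IsHom.liftQ {M N : GMod n} {f : M.V →ₗ[ℂ] N.V} (hf : M.IsHom N f)
    (S : Submodule ℂ M.V) (hS : M.Stable S) (h : S ≤ LinearMap.ker f) :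
    (M.quot S hS).IsHom N (S.liftQ f h) := by
  intro A v
  obtain ⟨v, rfl⟩ := S.mkQ_surjective v
  exact hf A v

theorem IsHom.symm {M N : GMod n} {e : M.V ≃ₗ[ℂ] N.V} (h : M.IsHom N e.toLinearMap) :
    N.IsHom M e.symm.toLinearMap := by
  intro A v
  apply e.injective
  have h1 := h A (e.symm v)
  simp only [LinearEquiv.coe_coe, LinearEquiv.apply_symm_apply] at h1 ⊢
  exact h1.symm

theorem Iso.refl (M : GMod n) : M.Iso M := ⟨LinearEquiv.refl _ _, fun _ _ => rfl⟩

theorem Iso.symm {M N : GMod n} (h : M.Iso N) : N.Iso M := by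
  obtain ⟨e, he⟩ := h
  exact ⟨e.symm, he.symm⟩

theorem Iso.trans {M N P : GMod n} (h : M.Iso N) (h' : N.Iso P) : M.Iso P := by
  obtain ⟨e, he⟩ := h
  obtain ⟨e', he'⟩ := h'
  exact ⟨e.trans e', he'.comp he⟩

theorem iso_of_bijective {M N : GMod n} {f : M.V →ₗ[ℂ] N.V} (hf : M.IsHom N f)
    (hb : Function.Bijective f) : M.Iso N := ⟨LinearEquiv.ofBijective f hb, hf⟩

theorem stable_bot (M : GMod n) : M.Stable ⊥ := by
  intro A v hv
  rw [Submodule.mem_bot] at hv ⊢
  rw [hv, map_zero]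

theorem stable_top (M : GMod n) : M.Stable ⊤ := fun _ _ _ => trivial

theorem Stable.inf {M : GMod n} {S T : Submodule ℂ M.V} (hS : M.Stable S) (hT : M.Stable T) :
    M.Stable (S ⊓ T) := by
  exact fun A v hv => ⟨hS A v hv.1, hT A v hv.2⟩

theorem Stable.sup {M : GMod n} {S T : Submodule ℂ M.V} (hS : M.Stable S) (hT : M.Stable T) :
    M.Stable (S ⊔ T) := by
  intro A v hv
  obtain ⟨x, hx, y, hy, rfl⟩ := Submodule.mem_sup.1 hv
  rw [map_add]
  exact Submodule.add_mem_sup (hS A x hx) (hT A y hy)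

theorem stable_iSup {M : GMod n} {κ : Sort*} {S : κ → Submodule ℂ M.V} (h : ∀ k, M.Stable (S k)) :
    M.Stable (⨆ k, S k) := by
  intro A
  have h1 : (⨆ k, S k) ≤ (⨆ k, S k).comap (M.ρ A) :=
    iSup_le fun k v hv => le_iSup S k (h k A v hv)
  exact h1

theorem stable_iInf {M : GMod n} {κ : Sort*} {S : κ → Submodule ℂ M.V} (h : ∀ k, M.Stable (S k)) :
    M.Stable (⨅ k, S k) := by
  intro A v hv
  rw [Submodule.mem_iInf] at hv ⊢
  exact fun k => h k A v (hv k)

theorem IsHom.stable_map {M N : GMod n} {f : M.V →ₗ[ℂ] N.V} (hf : M.IsHom N f)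
    {S : Submodule ℂ M.V} (hS : M.Stable S) : N.Stable (S.map f) := by
  rintro A _ ⟨v, hv, rfl⟩
  exact ⟨M.ρ A v, hS A v hv, hf A v⟩

theorem IsHom.stable_comap {M N : GMod n} {f : M.V →ₗ[ℂ] N.V} (hf : M.IsHom N f)
    {S : Submodule ℂ N.V} (hS : N.Stable S) : M.Stable (S.comap f) := by
  intro A v hv
  rw [Submodule.mem_comap] at hv ⊢
  rw [hf A v]
  exact hS A _ hv

theorem IsHom.stable_ker {M N : GMod n} {f : M.V →ₗ[ℂ] N.V} (hf : M.IsHom N f) :
    M.Stable (LinearMap.ker f) := by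
  exact hf.stable_comap N.stable_bot

theorem IsHom.stable_range {M N : GMod n} {f : M.V →ₗ[ℂ] N.V} (hf : M.IsHom N f) :
    N.Stable (LinearMap.range f) := by
  rintro A _ ⟨v, rfl⟩
  exact ⟨M.ρ A v, hf A v⟩

theorem IsHom.stable_gen {M : GMod n} {f : End ℂ M.V} (hf : M.IsHom M f) (c : ℂ) :
    M.Stable (f.maxGenEigenspace c) := by
  exact fun A _ hv => Module.End.mapsTo_maxGenEigenspace_of_comm
    (show Commute f (M.ρ A) from LinearMap.ext fun v => hf A v) _ hv

theorem E_mem_W {M : GMod n} {a : Wt n} {v : M.V} (hv : v ∈ M.W a) (i j : Fin n) :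
    M.E i j v ∈ M.W (a + eps i - eps j) := by
  rw [mem_W] at hv ⊢
  intro k
  have h := congrArg (fun T : End ℂ M.V => T v) (M.E_comm k k i j)
  simp only [LinearMap.sub_apply, Module.End.mul_apply, hv k, map_smul] at h
  rw [sub_eq_iff_eq_add] at h
  rw [h, Pi.sub_apply, Pi.add_apply, gb_eps_apply, gb_eps_apply]
  by_cases h1 : k = i <;> by_cases h2 : j = k
  · subst h1 h2
    simp
  · subst h1
    simp only [h2, Ne.symm h2, if_true, if_false, LinearMap.zero_apply, sub_zero]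
    push_cast
    module
  · subst h2
    simp only [h1, if_true, if_false, LinearMap.zero_apply]
    push_cast
    module
  · simp [h1, h2, Ne.symm h2]

theorem IsHom.map_W {M N : GMod n} {f : M.V →ₗ[ℂ] N.V} (hf : M.IsHom N f) {a : Wt n} {v : M.V}
    (hv : v ∈ M.W a) : f v ∈ N.W a := by
  rw [mem_W] at hv ⊢
  intro j
  rw [← hf, hv, map_smul]

theorem IsHom.map_sing {M N : GMod n} {f : M.V →ₗ[ℂ] N.V} (hf : M.IsHom N f) {a : Wt n}
    {v : M.V} (hv : M.Sing a v) : N.Sing a (f v) := by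
  exact ⟨hf.map_W hv.1, fun i j h => by rw [← hf, hv.2 i j h, map_zero]⟩

/-- The weight components of a vector of a submodule lie in the submodule. -/
theorem Stable.gb_mem_of_sum {M : GMod n} {S : Submodule ℂ M.V} (hS : M.Stable S)
    (s : Finset (Wt n)) : ∀ x : Wt n → M.V, (∀ a ∈ s, x a ∈ M.W a) → ∑ a ∈ s, x a ∈ S →
      ∀ a ∈ s, x a ∈ S := by
  induction s using Finset.induction_on with
  | empty => simp
  | insert b s hb ih =>
    intro x hx hs
    have h1 : ∀ a ∈ s, x a ∈ S := fun a ha => by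
      obtain ⟨j, hj⟩ := Function.ne_iff.1 (ne_of_mem_of_not_mem ha hb)
      have h2 := S.sub_mem (hS (eM j j) _ hs) (S.smul_mem ((b j + (j : ℕ) : ℤ) : ℂ) hs)
      have h3 : M.E j j (∑ a ∈ insert b s, x a) - ((b j + (j : ℕ) : ℤ) : ℂ) •
          ∑ a ∈ insert b s, x a = ∑ c ∈ s, ((c j - b j : ℤ) : ℂ) • x c := by
        rw [map_sum, Finset.smul_sum, ← Finset.sum_sub_distrib, Finset.sum_insert hb,
          (M.mem_W b _).1 (hx b (Finset.mem_insert_self b s)) j, sub_self, zero_add]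
        refine Finset.sum_congr rfl fun c hc => ?_
        rw [(M.mem_W c _).1 (hx c (Finset.mem_insert_of_mem hc)) j]
        push_cast
        module
      have h4 := ih (fun c => ((c j - b j : ℤ) : ℂ) • x c)
        (fun c hc => (M.W c).smul_mem _ (hx c (Finset.mem_insert_of_mem hc))) (h3 ▸ h2) a ha
      exact (S.smul_mem_iff (Int.cast_ne_zero.2 (sub_ne_zero.2 hj))).1 h4
    intro a ha
    rcases Finset.mem_insert.1 ha with rfl | ha
    · rw [Finset.sum_insert hb] at hs
      exact (S.add_mem_iff_left (S.sum_mem h1)).1 hs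
    · exact h1 a ha

theorem gb_eq_of_sum {M : GMod n} {s : Finset (Wt n)} {x : Wt n → M.V}
    (hx : ∀ b ∈ s, x b ∈ M.W b) {a : Wt n} (ha : a ∈ s) (h : ∑ b ∈ s, x b ∈ M.W a) :
    x a = ∑ b ∈ s, x b := by
  have h1 := M.stable_bot.gb_mem_of_sum s (fun b => x b - if b = a then ∑ b ∈ s, x b else 0)
    (fun b hb => (M.W b).sub_mem (hx b hb) (by
      split_ifs with h2
      · exact h2 ▸ h
      · exact Submodule.zero_mem _))
    (by simp [Finset.sum_sub_distrib, ha]) a ha
  simpa [sub_eq_zero] using h1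

theorem gb_decomp {M : GMod n} (hw : ⨆ a, M.W a = ⊤) (v : M.V) :
    ∃ x : Wt n →₀ M.V, (∀ b, x b ∈ M.W b) ∧
      ∀ s : Finset (Wt n), x.support ⊆ s → ∑ b ∈ s, x b = v := by
  obtain ⟨x, hx, h⟩ := (Submodule.mem_iSup_iff_exists_finsupp M.W v).1 (hw ▸ Submodule.mem_top)
  exact ⟨x, hx, fun s hs => by rw [← h, Finsupp.sum_of_support_subset x hs _ fun _ _ => rfl]⟩

theorem W_indep (M : GMod n) : iSupIndep M.W := by
  rw [iSupIndep_iff_finsetSum_eq_zero_imp_eq_zero]
  intro s x hx h a ha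
  exact M.stable_bot.gb_mem_of_sum s x hx h a ha

theorem mem_W_sub (M : GMod n) (S : Submodule ℂ M.V) (h : M.Stable S) (a : Wt n) (v : S) :
    v ∈ (M.sub S h).W a ↔ (v : M.V) ∈ M.W a := by
  rw [(M.sub S h).mem_W, mem_W]
  exact forall_congr' fun j => Subtype.ext_iff

/-- Submodules of weight modules are graded. -/
theorem Stable.eq_iSup {M : GMod n} (hw : ⨆ a, M.W a = ⊤) {S : Submodule ℂ M.V}
    (hS : M.Stable S) : S = ⨆ a, S ⊓ M.W a := by
  refine le_antisymm (fun v hv => ?_) (iSup_le fun a => inf_le_left)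
  obtain ⟨x, hx, h⟩ := gb_decomp hw v
  have h1 := h _ (Finset.Subset.refl _)
  have h2 := hS.gb_mem_of_sum x.support x (fun a _ => hx a) (h1 ▸ hv)
  rw [← h1]
  exact Submodule.sum_mem _ fun a ha => le_iSup (fun a => S ⊓ M.W a) a ⟨h2 a ha, hx a⟩

/-- A weight vector in a sum of submodules is a sum of weight vectors. -/
theorem W_inf_sup {M : GMod n} (hw : ⨆ a, M.W a = ⊤) {S T : Submodule ℂ M.V} (hS : M.Stable S)
    (hT : M.Stable T) (a : Wt n) : M.W a ⊓ (S ⊔ T) = (M.W a ⊓ S) ⊔ (M.W a ⊓ T) := by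
  refine le_antisymm (fun v hv => ?_) le_inf_sup
  obtain ⟨p, hp, q, hq, rfl⟩ := Submodule.mem_sup.1 hv.2
  obtain ⟨x, hx, h⟩ := gb_decomp hw p
  obtain ⟨y, hy, h'⟩ := gb_decomp hw q
  have ha := Finset.mem_insert_self a (x.support ∪ y.support)
  have h1 := h _ (Finset.subset_union_left.trans (Finset.subset_insert a (x.support ∪ y.support)))
  have h2 := h' _ (Finset.subset_union_right.trans (Finset.subset_insert a (x.support ∪ y.support)))
  have h3 : ∑ b ∈ insert a (x.support ∪ y.support), (x b + y b) = p + q := by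
    rw [Finset.sum_add_distrib, h1, h2]
  have h4 := gb_eq_of_sum (x := fun b => x b + y b)
    (fun b _ => (M.W b).add_mem (hx b) (hy b)) ha (h3 ▸ hv.1)
  rw [← h3, ← h4]
  exact Submodule.add_mem_sup ⟨hx a, hS.gb_mem_of_sum _ x (fun b _ => hx b) (h1 ▸ hp) a ha⟩
    ⟨hy a, hT.gb_mem_of_sum _ y (fun b _ => hy b) (h2 ▸ hq) a ha⟩

theorem IsHom.W_surj {M N : GMod n} {f : M.V →ₗ[ℂ] N.V} (hf : M.IsHom N f)
    (hw : ⨆ a, M.W a = ⊤) {a : Wt n} {y : N.V} (hy : y ∈ N.W a) (hr : y ∈ LinearMap.range f) :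
    ∃ v ∈ M.W a, f v = y := by
  obtain ⟨v, rfl⟩ := hr
  obtain ⟨x, hx, h⟩ := gb_decomp hw v
  have h1 := h _ (Finset.subset_insert a x.support)
  have h2 : ∑ b ∈ insert a x.support, f (x b) = f v := by rw [← map_sum, h1]
  refine ⟨x a, hx a, ?_⟩
  rw [← h2]
  exact gb_eq_of_sum (x := fun b => f (x b)) (fun b _ => hf.map_W (hx b))
    (Finset.mem_insert_self a _) (h2 ▸ hy)

theorem finrank_W_add {M : GMod n} (hw : ⨆ a, M.W a = ⊤) (S : Submodule ℂ M.V) (h : M.Stable S)
    (a : Wt n) [FiniteDimensional ℂ (M.W a)] :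
    finrank ℂ (M.W a) = finrank ℂ ((M.sub S h).W a) + finrank ℂ ((M.quot S h).W a) := by
  let g : M.W a →ₗ[ℂ] (M.quot S h).W a :=
    S.mkQ.restrict fun v hv => (M.isHom_mkQ S h).map_W hv
  have hg : LinearMap.range g = ⊤ := by
    rw [LinearMap.range_eq_top]
    intro y
    obtain ⟨v, hv, e⟩ := (M.isHom_mkQ S h).W_surj hw y.2 (S.mkQ_surjective y.1)
    exact ⟨⟨v, hv⟩, Subtype.ext e⟩
  have h1 : (LinearMap.ker g).map (M.W a).subtype = ((M.sub S h).W a).map S.subtype := by
    ext v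
    constructor
    · rintro ⟨w, hw, rfl⟩
      exact ⟨⟨w.1, (Submodule.Quotient.mk_eq_zero S).1 (congrArg Subtype.val hw)⟩,
        (M.mem_W_sub S h a _).2 w.2, rfl⟩
    · rintro ⟨w, hw, rfl⟩
      exact ⟨⟨w.1, (M.mem_W_sub S h a _).1 hw⟩,
        Subtype.ext ((Submodule.Quotient.mk_eq_zero S).2 w.2), rfl⟩
  have h2 := g.finrank_range_add_finrank_ker
  rw [hg, finrank_top, ← Submodule.finrank_map_subtype_eq, h1,
    Submodule.finrank_map_subtype_eq] at h2
  exact h2.symm.trans (add_comm _ _)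

theorem Iso.finrank_W {M N : GMod n} (h : M.Iso N) (a : Wt n) :
    finrank ℂ (M.W a) = finrank ℂ (N.W a) := by
  obtain ⟨e, he⟩ := h
  have h1 : (M.W a).map e.toLinearMap = N.W a := by
    refine le_antisymm ?_ fun y hy => ⟨e.symm y, he.symm.map_W hy, e.apply_symm_apply y⟩
    rintro _ ⟨v, hv, rfl⟩
    exact he.map_W hv
  rw [← h1, LinearEquiv.finrank_map_eq]

end GMod

end Pool.Agent.KM
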