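import Pool.Agent.Lib.MP_515a76_al.GTrans
import Pool.Agent.Lib.MP_515a76_al.GVerma
import Pool.Agent.Lib.MP_515a76_al.Fock

/-! Characters. -/

namespace Pool.Agent.KM

open Module GMod

variable {n : ℕ} {B : ℤ → ℤ}

/-- `v` is the class of `M` in the basis of Verma modules. -/
def IsCh (M : GMod n) (v : Fock n) : Prop :=
  ∀ ξ, (finrank ℂ (M.W ξ) : ℤ) = v.sum fun a c => c * (Pf n (a - ξ) : ℤ)

/-- The pairing of a class with a weight. -/
noncomputable def chEv (ξ : Wt n) : Fock n →ₗ[ℤ] ℤ :=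
  Finsupp.linearCombination ℤ fun a : Wt n => (Pf n (a - ξ) : ℤ)

theorem chEv_eq (ξ : Wt n) (v : Fock n) :
    (v.sum fun a c => c * (Pf n (a - ξ) : ℤ)) = chEv ξ v := rfl

theorem chEv_single (ξ a : Wt n) : chEv ξ (Finsupp.single a 1) = (Pf n (a - ξ) : ℤ) := by
  simp [chEv]

theorem isCh_iff {M : GMod n} {v : Fock n} :
    IsCh M v ↔ ∀ ξ, (finrank ℂ (M.W ξ) : ℤ) = chEv ξ v := Iff.rfl

theorem le_of_Pf {a b : Wt n} (h : Pf n (a - b) ≠ 0) : toLex b ≤ toLex a := by
  refine not_lt.1 fun k => not_lt.2 (Pf_ne_zero h) ?_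
  have := (lex_add_right (a := a) (b := b) (-b)).2 k
  rwa [add_neg_cancel, ← sub_eq_add_neg] at this

theorem ch_unique' {v : Fock n} (h : ∀ ξ, (v.sum fun a c => c * (Pf n (a - ξ) : ℤ)) = 0) :
    v = 0 := by
  by_contra h0
  obtain ⟨a, ha, hmax⟩ := Finset.exists_max_image v.support (toLex : Wt n → Lex (Wt n))
    (Finsupp.support_nonempty_iff.2 h0)
  have := h a
  rw [Finsupp.sum, Finset.sum_eq_single a, sub_self, Pf_zero, Nat.cast_one, mul_one] at this
  · exact Finsupp.mem_support_iff.1 ha this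
  · intro b hb ne
    have : Pf n (b - a) = 0 := by
      by_contra k
      exact ne (toLex.injective (le_antisymm (hmax b hb) (le_of_Pf k)))
    rw [this, Nat.cast_zero, mul_zero]
  · exact fun k => absurd ha k

theorem ch_unique {M : GMod n} {v w : Fock n} (hv : IsCh M v) (hw : IsCh M w) : v = w := by
  refine sub_eq_zero.1 (ch_unique' fun ξ => ?_)
  rw [chEv_eq, map_sub, ← isCh_iff.1 hv, ← isCh_iff.1 hw, sub_self]

theorem isCh_zero (M : GMod n) [Subsingleton M.V] : IsCh M 0 := fun ξ => by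
  rw [finrank_zero_of_subsingleton, Finsupp.sum_zero_index, Nat.cast_zero]

theorem ch_exists_aux (U : Finset (Wt n)) :
    (∀ u ∈ U, ∀ s, cnt s = B → toLex s ≤ toLex u → s ∈ U) → ∀ M : GMod n, M.Blk B →
      (∀ s, cnt s = B → M.W s ≠ ⊥ → s ∈ U) → ∃ v, IsCh M v ∧ InB v B := by
  classical
  induction U using Finset.induction_on_max_value (toLex : Wt n → Lex (Wt n)) with
  | empty =>
    intro _ M h hw
    rcases subsingleton_or_nontrivial M.V with k | k
    · exact ⟨0, isCh_zero M, fun a ha => absurd ha (by simp)⟩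
    · obtain ⟨b, v, v0, hv, hb⟩ := h.exists_sing
      exact absurd (hw b hb ((Submodule.ne_bot_iff _).2 ⟨v, hv.1, v0⟩)) (by simp)
  | insert a U na hmax ih =>
    intro low
    have low' : ∀ u ∈ U, ∀ s, cnt s = B → toLex s ≤ toLex u → s ∈ U := by
      intro u hu s hs le
      rcases Finset.mem_insert.1 (low u (Finset.mem_insert_of_mem hu) s hs le) with rfl | k
      · exact (toLex.injective (le_antisymm le (hmax u hu))).symm ▸ hu
      · exact k
    have base : ∀ M : GMod n, M.Blk B → (∀ s, cnt s = B → M.W s ≠ ⊥ → s ∈ insert a U) →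
        (cnt a = B → finrank ℂ (M.W a) = 0) → ∃ v, IsCh M v ∧ InB v B := by
      intro M h hw h0
      refine ih low' M h fun s hs ne => ?_
      rcases Finset.mem_insert.1 (hw s hs ne) with rfl | k
      · have := h.fin s
        exact absurd (Submodule.finrank_eq_zero.1 (h0 hs)) ne
      · exact k
    by_cases ha : cnt a = B
    swap
    · exact fun M h hw => base M h hw fun e => absurd e ha
    suffices H : ∀ (d : ℕ) (M : GMod n), finrank ℂ (M.W a) ≤ d → M.Blk B →
        (∀ s, cnt s = B → M.W s ≠ ⊥ → s ∈ insert a U) → ∃ v, IsCh M v ∧ InB v B from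
      fun M => H _ M le_rfl
    intro d
    induction d with
    | zero => exact fun M hd h hw => base M h hw fun _ => Nat.le_zero.1 hd
    | succ d ihd =>
      intro M hd h hw
      by_cases h0 : M.W a = ⊥
      · exact base M h hw fun _ => by rw [h0, finrank_bot]
      obtain ⟨b, v, v0, hv, hb, le⟩ := h.exists_sing_ge h0
      obtain rfl : a = b := by
        rcases Finset.mem_insert.1 (hw b hb ((Submodule.ne_bot_iff _).2 ⟨v, hv.1, v0⟩)) with e | k
        · exact e.symm
        · exact toLex.injective (le_antisymm le (hmax b k))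
      obtain ⟨D, v₀, hD⟩ := exists_verma a
      obtain ⟨f, hf, fv, -⟩ := hD.lift hv
      have bD : D.Blk B := ha ▸ hD.blk
      have iso : (D.quot _ hf.stable_ker).Iso (M.sub _ hf.stable_range) :=
        ⟨f.quotKerEquivRange, fun A x => by
          obtain ⟨x, rfl⟩ := Submodule.mkQ_surjective _ x
          exact Subtype.ext (hf A x)⟩
      have e1 : ∀ ξ, Pf n (a - ξ) = finrank ℂ ((D.sub _ hf.stable_ker).W ξ) +
          finrank ℂ ((M.sub _ hf.stable_range).W ξ) := fun ξ => by
        have := bD.fin ξ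
        rw [← hD.finrank_W ξ, finrank_W_add bD.wt _ hf.stable_ker ξ, iso.finrank_W ξ]
      have e2 : ∀ ξ, finrank ℂ (M.W ξ) = finrank ℂ ((M.sub _ hf.stable_range).W ξ) +
          finrank ℂ ((M.quot _ hf.stable_range).W ξ) := fun ξ => by
        have := h.fin ξ
        exact finrank_W_add h.wt _ hf.stable_range ξ
      have pos : finrank ℂ ((M.sub _ hf.stable_range).W a) ≠ 0 := by
        have := (h.sub _ hf.stable_range).fin a
        rw [Ne, Submodule.finrank_eq_zero]
        exact (Submodule.ne_bot_iff _).2 ⟨⟨v, v₀, fv⟩, (mem_W_sub _ _ _ _ _).2 hv.1,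
          fun e => v0 (congrArg Subtype.val e)⟩
      obtain ⟨vK, cK, bK⟩ := base _ (bD.sub _ hf.stable_ker) (fun s hs ne => by
        have := (bD.sub _ hf.stable_ker).fin s
        have := mt Submodule.finrank_eq_zero.1 ne
        have := e1 s
        exact low a (Finset.mem_insert_self _ _) s hs (le_of_Pf (by omega))) (fun _ => by
        have := e1 a
        rw [sub_self, Pf_zero] at this
        omega)
      obtain ⟨vQ, cQ, bQ⟩ := ihd _ (by have := e2 a; omega) (h.quot _ hf.stable_range)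
        (fun s hs ne => hw s hs fun e => by
          have := (h.quot _ hf.stable_range).fin s
          have := mt Submodule.finrank_eq_zero.1 ne
          have := e2 s
          rw [e, finrank_bot] at this
          omega)
      refine ⟨Finsupp.single a 1 - vK + vQ, isCh_iff.2 fun ξ => ?_, fun s hs => ?_⟩
      · rw [map_add, map_sub, chEv_single, ← isCh_iff.1 cK, ← isCh_iff.1 cQ, e1, e2]
        push_cast
        ring
      · rcases Finset.mem_union.1 (Finsupp.support_add hs) with k | k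
        · rcases Finset.mem_union.1 (Finsupp.support_sub k) with k | k
          · rw [Finset.mem_singleton.1 (Finsupp.support_single_subset k), ha]
          · exact bK s k
        · exact bQ s k

theorem ch_exists {M : GMod n} (h : M.Blk B) : ∃ v, IsCh M v ∧ InB v B := by
  refine ch_exists_aux (finite_cnt B).toFinset (fun _ _ s hs _ => ?_) M h fun s hs _ => ?_ <;>
    exact (Set.Finite.mem_toFinset _).2 hs

theorem ch_zero_iff {M : GMod n} (h : M.Blk B) {v : Fock n} (hv : IsCh M v) :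
    v = 0 ↔ Subsingleton M.V := by
  constructor
  · rintro rfl
    have : ∀ ξ, M.W ξ = ⊥ := fun ξ => by
      have := h.fin ξ
      have e := hv ξ
      rw [Finsupp.sum_zero_index, Nat.cast_eq_zero] at e
      exact Submodule.finrank_eq_zero.1 e
    have e := h.wt
    simp only [this, iSup_bot] at e
    exact (Submodule.subsingleton_iff ℂ).1 (subsingleton_of_bot_eq_top e)
  · intro _
    exact ch_unique hv (isCh_zero M)

theorem ch_add {M : GMod n} (h : M.Blk B) (S : Submodule ℂ M.V) (hS : M.Stable S) {v w : Fock n}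
    (hv : IsCh (M.sub S hS) v) (hw : IsCh (M.quot S hS) w) : IsCh M (v + w) := by
  refine isCh_iff.2 fun ξ => ?_
  have := h.fin ξ
  rw [finrank_W_add h.wt S hS ξ, map_add, ← isCh_iff.1 hv, ← isCh_iff.1 hw, Nat.cast_add]

theorem finrank_W_ten {ι : Type} [Fintype ι] [DecidableEq ι] (C : Coef n ι) {M : GMod n}
    (h : ∀ a, FiniteDimensional ℂ (M.W a)) (ξ : Wt n) :
    finrank ℂ ((Ten C M).W ξ) = ∑ i, finrank ℂ (M.W (ξ - C.wt i)) := by
  let e : (Ten C M).W ξ ≃ₗ[ℂ] ∀ i, M.W (ξ - C.wt i) :=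
    { toFun := fun m i => ⟨m.1 i, (mem_W_ten C M ξ m.1).1 m.2 i⟩
      map_add' := fun _ _ => rfl
      map_smul' := fun _ _ => rfl
      invFun := fun g => ⟨fun i => g i, (mem_W_ten C M ξ _).2 fun i => (g i).2⟩
      left_inv := fun _ => rfl
      right_inv := fun _ => rfl }
  rw [e.finrank_eq, finrank_pi_fintype]

theorem finrank_W_decomp {N : GMod n} (S : ℤ → Submodule ℂ N.V) (hS : ∀ c, N.Stable (S c))
    (htop : ⨆ c, S c = ⊤) (π : ℤ → End ℂ N.V) (hπ : ∀ c, N.IsHom N (π c) ∧ (∀ m, π c m ∈ S c) ∧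
      (∀ m ∈ S c, π c m = m) ∧ ∀ c', c' ≠ c → ∀ m ∈ S c', π c m = 0) (T : Finset ℤ)
    (hT : ∀ c ∉ T, ∀ m ∈ S c, m = 0) (ξ : Wt n)
    (fin : ∀ c, FiniteDimensional ℂ ((N.sub (S c) (hS c)).W ξ)) :
    finrank ℂ (N.W ξ) = ∑ c ∈ T, finrank ℂ ((N.sub (S c) (hS c)).W ξ) := by
  have tot : ∀ m : N.V, ∑ c : T, π c m = m := by
    intro m
    have hm : m ∈ ⨆ c, S c := htop ▸ Submodule.mem_top
    induction hm using Submodule.iSup_induction' with
    | mem c m hm =>
      by_cases hc : c ∈ T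
      · rw [Finset.sum_eq_single (⟨c, hc⟩ : T) (fun c' _ ne => (hπ c').2.2.2 c
          (fun e => ne (Subtype.ext e.symm)) m hm) (by simp)]
        exact (hπ c).2.2.1 m hm
      · rw [hT c hc m hm]
        simp
    | zero => simp
    | add x y _ _ hx hy => simp only [map_add, Finset.sum_add_distrib, hx, hy]
  let e : N.W ξ ≃ₗ[ℂ] ∀ c : T, (N.sub (S c) (hS c)).W ξ :=
    { toFun := fun m c => ⟨⟨π c m, (hπ c).2.1 m⟩, (mem_W_sub _ _ _ _ _).2 ((hπ c).1.map_W m.2)⟩
      map_add' := fun x y => funext fun c => Subtype.ext (Subtype.ext (map_add (π c) x.1 y.1))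
      map_smul' := fun r x => funext fun c => Subtype.ext (Subtype.ext (map_smul (π c) r x.1))
      invFun := fun g => ⟨∑ c : T, (g c).1.1, Submodule.sum_mem _ fun c _ =>
        (mem_W_sub _ _ _ _ _).1 (g c).2⟩
      left_inv := fun m => Subtype.ext (tot m)
      right_inv := fun g => funext fun c => Subtype.ext (Subtype.ext (by
        change π c (∑ c : T, (g c).1.1) = (g c).1.1
        rw [map_sum, Finset.sum_eq_single c (fun c' _ ne => (hπ c).2.2.2 c'
          (fun e => ne (Subtype.ext e)) _ (g c').1.2) (by simp)]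
        exact (hπ c).2.2.1 _ (g c).1.2)) }
  rw [e.finrank_eq, finrank_pi_fintype,
    Finset.sum_coe_sort T fun c => finrank ℂ ((N.sub (S c) (hS c)).W ξ)]

theorem lin_eq_of_support (f g : Fock n →ₗ[ℤ] ℤ) (v : Fock n)
    (h : ∀ a ∈ v.support, f (Finsupp.single a 1) = g (Finsupp.single a 1)) : f v = g v := by
  rw [← Finsupp.sum_single v, Finsupp.sum, map_sum, map_sum]
  refine Finset.sum_congr rfl fun a ha => ?_
  rw [← Finsupp.smul_single_one, map_smul, map_smul, h a ha]

theorem ch_gen (C : Coef n (Fin n)) {M : GMod n} (h : M.Blk B) {v : Fock n} (hv : IsCh M v)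
    (S : ℤ → Submodule ℂ (Ten C M).V) (hS : ∀ c, (Ten C M).Stable (S c)) (htop : ⨆ c, S c = ⊤)
    (hπ : ∀ c, ∃ π : End ℂ (Ten C M).V, (Ten C M).IsHom (Ten C M) π ∧ (∀ m, π m ∈ S c) ∧
      (∀ m ∈ S c, π m = m) ∧ ∀ c', c' ≠ c → ∀ m ∈ S c', π m = 0) (T : Finset ℤ)
    (Bk : ℤ → ℤ → ℤ) (hinj : ∀ c c', Bk c = Bk c' → c = c')
    (blk : ∀ c, ((Ten C M).sub (S c) (hS c)).Blk (Bk c)) (hT : ∀ c ∉ T, ∃ t, Bk c t < 0)
    (op : ℤ → Fock n →ₗ[ℤ] Fock n) (hop : ∀ c, InB (op c v) (Bk c))
    (hsum : ∀ a ∈ v.support, ∑ c ∈ T, op c (Finsupp.single a 1) =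
      ∑ j, Finsupp.single (a + C.wt j) 1) {c : ℤ} (hc : c ∈ T) :
    IsCh ((Ten C M).sub (S c) (hS c)) (op c v) := by
  choose π hπ using hπ
  choose w hw using fun c => ch_exists (blk c)
  have hT' : ∀ c ∉ T, ∀ m ∈ S c, m = 0 := fun c hc m hm => by
    obtain ⟨t, ht⟩ := hT c hc
    have := (blk c).subsingleton_of_neg ht
    exact congrArg Subtype.val (Subsingleton.elim (⟨m, hm⟩ : S c) 0)
  have key : ∑ c ∈ T, w c = ∑ c ∈ T, op c v := by
    refine sub_eq_zero.1 (ch_unique' fun ξ => ?_)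
    have e := lin_eq_of_support ((chEv ξ).comp (∑ c ∈ T, op c)) (∑ j, chEv (ξ - C.wt j)) v
      fun a ha => by
        rw [LinearMap.comp_apply, LinearMap.sum_apply, LinearMap.sum_apply, hsum a ha, map_sum]
        refine Finset.sum_congr rfl fun j _ => ?_
        rw [chEv_single, chEv_single, sub_sub_eq_add_sub]
    rw [LinearMap.comp_apply, LinearMap.sum_apply, LinearMap.sum_apply] at e
    rw [chEv_eq, map_sub, e, map_sum, sub_eq_zero]
    have e2 := (finrank_W_decomp S hS htop π hπ T hT' ξ fun c => (blk c).fin ξ).symm.trans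
      (finrank_W_ten C h.fin ξ)
    rw [Finset.sum_congr rfl fun c _ => (isCh_iff.1 (hw c).1 ξ).symm,
      Finset.sum_congr rfl fun j _ => (isCh_iff.1 hv (ξ - C.wt j)).symm]
    exact_mod_cast e2
  rw [← eq_of_blocks T Bk (fun c _ c' _ => hinj c c') w (fun c => op c v) (fun c _ => (hw c).2)
    (fun c _ => hop c) key c hc]
  exact (hw c).1

theorem cnt_eq_zero {b : Wt n} {c : ℤ} (h : c ∉ Finset.univ.image b) : cnt b c = 0 := by
  rw [cnt, Finset.filter_false_of_mem, Finset.card_empty, Nat.cast_zero]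
  exact fun j _ e => h (Finset.mem_image.2 ⟨j, Finset.mem_univ _, e⟩)

theorem mem_image_of_cnt {a b : Wt n} (h : cnt a = cnt b) (j : Fin n) :
    a j ∈ Finset.univ.image b := by
  obtain ⟨σ, rfl⟩ := (cnt_eq_iff b a).1 h.symm
  exact Finset.mem_image_of_mem _ (Finset.mem_univ _)

theorem IsCh.inB {M : GMod n} (h : M.Blk B) {v : Fock n} (hv : IsCh M v) : InB v B := by
  obtain ⟨w, h1, h2⟩ := ch_exists h
  rwa [ch_unique hv h1]

theorem ch_Fc {M : GMod n} (h : M.Blk B) {v : Fock n} (hv : IsCh M v) (c : ℤ) :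
    IsCh (Fc M c) (fF c v) := by
  rcases subsingleton_or_nontrivial M.V with k | k
  · rw [(ch_zero_iff h hv).2 k, map_zero]
    exact isCh_zero _
  obtain ⟨b, -, -, -, rfl⟩ := h.exists_sing
  have hB := hv.inB h
  refine ch_gen (std n) h hv (genOm (std n) M) (genOm_stable _ _) (iSup_genF h)
    (exists_pr _ M (iSup_genF h)) (insert c (Finset.univ.image b)) (move (cnt b))
    (fun _ _ => move_inj) (blk_Fc h) (fun c' hc' => ⟨c', ?_⟩) fF hB.fF (fun a ha => ?_)
    (Finset.mem_insert_self _ _)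
  · simp [move, cnt_eq_zero fun e => hc' (Finset.mem_insert_of_mem e)]
  · simp only [fF, Finsupp.linearCombination_single, one_smul]
    exact Finset.sum_fiberwise_of_maps_to
      (fun j _ => Finset.mem_insert_of_mem (mem_image_of_cnt (hB a ha) j)) _

theorem ch_Ec {M : GMod n} (h : M.Blk B) {v : Fock n} (hv : IsCh M v) (c : ℤ) :
    IsCh (Ec M c) (eF c v) := by
  rcases subsingleton_or_nontrivial M.V with k | k
  · rw [(ch_zero_iff h hv).2 k, map_zero]
    exact isCh_zero _
  obtain ⟨b, -, -, -, rfl⟩ := h.exists_sing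
  have hB := hv.inB h
  refine ch_gen (std n).dual h hv (fun c => genOm (std n).dual M (-c - n))
    (fun _ => genOm_stable _ _ _) (iSup_genE h) (fun c => ?_)
    (insert c ((Finset.univ.image b).image fun t => t - 1)) (unmove (cnt b))
    (fun _ _ => unmove_inj) (blk_Ec h) (fun c' hc' => ⟨c' + 1, ?_⟩) eF hB.eF (fun a ha => ?_)
    (Finset.mem_insert_self _ _)
  · obtain ⟨π, h1, h2, h3, h4⟩ := exists_pr _ M (iSup_genE' h) (-c - n)
    exact ⟨π, h1, h2, h3, fun c' ne => h4 _ (by omega)⟩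
  · have : cnt b (c' + 1) = 0 := cnt_eq_zero fun e => hc' (Finset.mem_insert_of_mem
      (Finset.mem_image.2 ⟨_, e, add_sub_cancel_right _ _⟩))
    simp [unmove, this]
  · simp only [eF, Finsupp.linearCombination_single, one_smul, ← sub_eq_iff_eq_add,
      sub_eq_add_neg a]
    exact Finset.sum_fiberwise_of_maps_to (g := fun j => a j - 1)
      (fun j _ => Finset.mem_insert_of_mem
        (Finset.mem_image_of_mem _ (mem_image_of_cnt (hB a ha) j))) _

end Pool.Agent.KM
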