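import Pool.Agent.Lib.MP_515a76_al.GChar

/-! Consequences of the character formulas for translation functors. -/

namespace Pool.Agent.KM

open Module GMod

variable {n : ℕ} {B : ℤ → ℤ}

theorem ch_Fit {M : GMod n} (h : M.Blk B) {v : Fock n} (hv : IsCh M v) (l : List ℤ) :
    IsCh (Fit M l) (fFs v l) := by
  induction l with
  | nil => exact hv
  | cons c l ih => exact ch_Fc (blk_Fit h l) ih c

theorem ch_Eit {M : GMod n} (h : M.Blk B) {v : Fock n} (hv : IsCh M v) (l : List ℤ) :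
    IsCh (Eit M l) (eFs v l) ∧ ∃ B', (Eit M l).Blk B' := by
  induction l generalizing M B v with
  | nil => exact ⟨hv, B, h⟩
  | cons c l ih => exact ih (blk_Ec h c) (ch_Ec h hv c)

namespace GChar2

theorem ne_zero_iff {M : GMod n} (h : M.Blk B) {v : Fock n} (hv : IsCh M v) :
    v ≠ 0 ↔ Nontrivial M.V := by
  rw [Ne, ch_zero_iff h hv, not_subsingleton_iff_nontrivial]

theorem sum_add (v w : Fock n) (ξ : Wt n) : ((v + w).sum fun a c => c * (Pf n (a - ξ) : ℤ)) =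
    (v.sum fun a c => c * (Pf n (a - ξ) : ℤ)) + w.sum fun a c => c * (Pf n (a - ξ) : ℤ) :=
  Finsupp.sum_add_index' (fun _ => zero_mul _) fun _ _ _ => add_mul _ _ _

theorem iso_iff {M N : GMod n} (h : M.Blk B) (e : M.Iso N) (l : List ℤ) :
    Subsingleton (Fit M l).V ↔ Subsingleton (Fit N l).V := by
  obtain ⟨v, hv, -⟩ := ch_exists h
  have hw : IsCh N v := fun ξ => by rw [← e.finrank_W]; exact hv ξ
  rw [← ch_zero_iff (blk_Fit h l) (ch_Fit h hv l),
    ← ch_zero_iff (blk_Fit (h.iso e) l) (ch_Fit (h.iso e) hw l)]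

end GChar2

open GChar2

/-- Translation out of a wall is faithful. -/
theorem nontrivial_Fc {M : GMod n} (h : M.Blk B) [Nontrivial M.V] {c : ℤ} (h1 : B (c + 1) = 0)
    (h2 : 1 ≤ B c) : Nontrivial (Fc M c).V := by
  obtain ⟨v, hv, hB⟩ := ch_exists h
  exact (ne_zero_iff (blk_Fc h c) (ch_Fc h hv c)).1
    (fF_ne_zero hB ((ne_zero_iff h hv).2 ‹_›) h1 h2)

theorem nontrivial_Eit {M : GMod n} (h : M.Blk B) [Nontrivial M.V] {c : ℤ}
    (hf : Subsingleton (Fc M c).V) {k : ℕ} (hk : (k : ℤ) ≤ B (c + 1) - B c) :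
    Nontrivial (Eit M (List.replicate k c)).V := by
  obtain ⟨v, hv, hB⟩ := ch_exists h
  obtain ⟨h1, B', h2⟩ := ch_Eit h hv (List.replicate k c)
  exact (ne_zero_iff h2 h1).1 (eFs_ne_zero hB ((ne_zero_iff h hv).2 ‹_›)
    ((ch_zero_iff (blk_Fc h c) (ch_Fc h hv c)).2 hf) hk)

theorem subsingleton_Fit_Eit {K : GMod n} (h : K.Blk B) (P : Set ℤ)
    (hf : ∀ c ∈ P, Subsingleton (Fc K c).V) (l l' : List ℤ) (hl' : ∀ c ∈ l', c ∈ P)
    (hlen : l.length < l'.length) : Subsingleton (Fit (Eit K l) l').V := by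
  obtain ⟨v, hv, hB⟩ := ch_exists h
  obtain ⟨h1, B', h2⟩ := ch_Eit h hv l
  exact (ch_zero_iff (blk_Fit h2 l') (ch_Fit h2 h1 l')).1 (fFs_eFs_eq_zero hB P
    (fun c hc => (ch_zero_iff (blk_Fc h c) (ch_Fc h hv c)).2 (hf c hc)) l l' hl' hlen)

theorem subsingleton_Fit_iff {M : GMod n} (h : M.Blk B) (S : Submodule ℂ M.V) (hS : M.Stable S)
    (l : List ℤ) : Subsingleton (Fit M l).V ↔
      Subsingleton (Fit (M.sub S hS) l).V ∧ Subsingleton (Fit (M.quot S hS) l).V := by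
  obtain ⟨v, hv, -⟩ := ch_exists (h.sub S hS)
  obtain ⟨w, hw, -⟩ := ch_exists (h.quot S hS)
  have h1 := ch_Fit (h.sub S hS) hv l
  have h2 := ch_Fit (h.quot S hS) hw l
  rw [← ch_zero_iff (blk_Fit h l) (ch_Fit h (ch_add h S hS hv hw) l),
    ← ch_zero_iff (blk_Fit (h.sub S hS) l) h1, ← ch_zero_iff (blk_Fit (h.quot S hS) l) h2, fFs_add]
  refine ⟨fun e => ?_, fun e => by rw [e.1, e.2, add_zero]⟩
  have k := fun ξ => sum_add (fFs v l) (fFs w l) ξ
  simp only [e, Finsupp.sum_zero_index] at k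
  constructor <;> refine ch_unique' fun ξ => ?_ <;> have := k ξ <;> have := h1 ξ <;>
    have := h2 ξ <;> omega

theorem subsingleton_Fit_of_surj {M N : GMod n} (h : M.Blk B) {f : M.V →ₗ[ℂ] N.V}
    (hf : M.IsHom N f) (hs : Function.Surjective f) (l : List ℤ)
    (h0 : Subsingleton (Fit M l).V) : Subsingleton (Fit N l).V := by
  have hK : M.Stable (LinearMap.ker f) := fun A v hv => by
    rw [LinearMap.mem_ker, hf A v, LinearMap.mem_ker.1 hv, map_zero]
  have e : (M.quot _ hK).Iso N := ⟨f.quotKerEquivOfSurjective hs, fun A v => by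
    obtain ⟨v, rfl⟩ := Submodule.mkQ_surjective _ v
    exact hf A v⟩
  exact (iso_iff (h.quot _ hK) e l).1 ((subsingleton_Fit_iff h _ hK l).1 h0).2

theorem subsingleton_Fit_of_inj {M N : GMod n} (h : N.Blk B) {f : M.V →ₗ[ℂ] N.V}
    (hf : M.IsHom N f) (hi : Function.Injective f) (l : List ℤ)
    (h0 : Subsingleton (Fit N l).V) : Subsingleton (Fit M l).V := by
  have hK : N.Stable (LinearMap.range f) := by
    rintro A _ ⟨v, rfl⟩
    exact ⟨_, hf A v⟩
  have e : M.Iso (N.sub _ hK) := ⟨LinearEquiv.ofInjective f hi, fun A v => Subtype.ext (hf A v)⟩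
  exact (iso_iff (Adm.of_inj hf hi h) e l).2 ((subsingleton_Fit_iff h _ hK l).1 h0).1

/-- Some simple subquotient survives; local nilpotency is inherited. -/
theorem exists_simple_Fit {M : GMod n} (h : M.Blk B) (l : List ℤ) [Nontrivial (Fit M l).V] :
    ∃ L : GMod n, L.Simple ∧ L.Blk B ∧ Nontrivial (Fit L l).V ∧
      ∀ a b, M.LN a b → L.LN a b := by
  refine Adm.induction (𝔅 := {B}) (P := fun M => M.Blk B → Nontrivial (Fit M l).V →
    ∃ L : GMod n, L.Simple ∧ L.Blk B ∧ Nontrivial (Fit L l).V ∧ ∀ a b, M.LN a b → L.LN a b)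
    (fun M h0 h h1 => ?_) (fun M h K hK hs ih _ h1 => ?_) M h h ‹_›
  · obtain ⟨v, hv, -⟩ := ch_exists h
    have := (ne_zero_iff (blk_Fit h l) (ch_Fit h hv l)).2 h1
    have e := fFs_add v v l
    rw [(ch_zero_iff h hv).2 h0] at this e
    rw [add_zero] at e
    exact absurd (left_eq_add.1 e) this
  · by_cases h2 : Nontrivial (Fit (M.quot K hK) l).V
    · exact ⟨_, hs, h.quot K hK, h2, fun a b => LN.of_surj (isHom_mkQ M K hK)
        (Submodule.mkQ_surjective K)⟩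
    · obtain ⟨L, a1, a2, a3, a4⟩ := ih (h.sub K hK) (by
        by_contra h3
        exact not_subsingleton_iff_nontrivial.2 h1 ((subsingleton_Fit_iff h K hK l).2
          ⟨not_nontrivial_iff_subsingleton.1 h3, not_nontrivial_iff_subsingleton.1 h2⟩))
      exact ⟨L, a1, a2, a3, fun a b k =>
        a4 a b (LN.of_inj (isHom_subtype M K hK) Subtype.val_injective k)⟩

theorem finrank_Fc_Ec {M : GMod n} (h : M.Blk B) {c : ℤ} (hf : Subsingleton (Fc M c).V)
    (ξ : Wt n) : (finrank ℂ ((Fc (Ec M c) c).W ξ) : ℤ) =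
      (B (c + 1) - B c) * (finrank ℂ (M.W ξ) : ℤ) := by
  obtain ⟨v, hv, hB⟩ := ch_exists h
  rw [ch_Fc (blk_Ec h c) (ch_Ec h hv c) c ξ, fF_eF hB,
    (ch_zero_iff (blk_Fc h c) (ch_Fc h hv c)).2 hf, map_zero, zero_add, if_pos rfl, hv ξ,
    Finsupp.sum_smul_index fun _ => zero_mul _, Finsupp.mul_sum]
  simp only [mul_assoc]

end Pool.Agent.KM
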