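import Pool.Agent.Lib.MP_515a76_al.GBasic

/-! Highest weight vectors and local nilpotency. -/

namespace Pool.Agent.KM

open Module

variable {n : ℕ}

/-- The monomial of a list of generators. -/
noncomputable def Um.mon (l : List (Low n)) : Um n := (l.map Um.f).prod

/-- The weight of a monomial. -/
def lowWt (l : List (Low n)) : Wt n := (l.map fun p => (eps p.1.1 - eps p.1.2 : Wt n)).sum

theorem gh_mon_nil : Um.mon ([] : List (Low n)) = 1 := rfl

theorem gh_mon_cons (p : Low n) (l : List (Low n)) : Um.mon (p :: l) = Um.f p * Um.mon l := by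
  simp [Um.mon]

theorem gh_lowWt_nil : lowWt ([] : List (Low n)) = 0 := rfl

theorem gh_lowWt_cons (p : Low n) (l : List (Low n)) :
    lowWt (p :: l) = lowWt l + eps p.1.1 - eps p.1.2 := by
  simp only [lowWt, List.map_cons, List.sum_cons]
  abel

theorem Um.span_mon : Submodule.span ℂ (Set.range (Um.mon (n := n))) = ⊤ := by
  refine eq_top_iff.2 fun u _ => ?_
  obtain ⟨x, rfl⟩ := RingQuot.mkAlgHom_surjective ℂ (UmRel n) u
  induction x using FreeAlgebra.induction with
  | grade0 r =>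
    rw [AlgHom.commutes, Algebra.algebraMap_eq_smul_one]
    exact Submodule.smul_mem _ _ (Submodule.subset_span ⟨[], rfl⟩)
  | grade1 p => exact Submodule.subset_span ⟨[p], by simp [Um.mon, Um.f]⟩
  | mul x y hx hy =>
    have := Submodule.mul_mem_mul (hx trivial) (hy trivial)
    rw [Submodule.span_mul_span] at this
    rw [map_mul]
    refine Submodule.span_mono ?_ this
    rintro _ ⟨_, ⟨l, rfl⟩, _, ⟨l', rfl⟩, rfl⟩
    exact ⟨l ++ l', by simp [Um.mon]⟩
  | add x y hx hy => rw [map_add]; exact add_mem (hx trivial) (hy trivial)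

theorem Um.induction {P : Um n → Prop} (h1 : P 1) (hf : ∀ p u, P u → P (Um.f p * u))
    (hadd : ∀ u v, P u → P v → P (u + v)) (hsmul : ∀ (c : ℂ) u, P u → P (c • u)) (u : Um n) :
    P u := by
  have hu : u ∈ Submodule.span ℂ (Set.range (Um.mon (n := n))) := Um.span_mon ▸ trivial
  induction hu using Submodule.span_induction with
  | mem x hx =>
    obtain ⟨l, rfl⟩ := hx
    induction l with
    | nil => exact h1
    | cons p l ih => rw [gh_mon_cons]; exact hf _ _ ih
  | zero => simpa using hsmul 0 1 h1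
  | add x y _ _ hx hy => exact hadd _ _ hx hy
  | smul c x _ hx => exact hsmul _ _ hx

theorem gh_mem_of_mon {X : Type} [AddCommGroup X] [Module ℂ X] (F : Um n →ₗ[ℂ] X)
    {S : Submodule ℂ X} (h : ∀ l, F (Um.mon l) ∈ S) (u : Um n) : F u ∈ S := by
  have : Submodule.span ℂ (Set.range (Um.mon (n := n))) ≤ S.comap F :=
    Submodule.span_le.2 (by rintro _ ⟨l, rfl⟩; exact h l)
  exact this (Um.span_mon ▸ trivial)

theorem ht_lowWt (l : List (Low n)) : ht (lowWt l) ≤ -(l.length : ℤ) := by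
  induction l with
  | nil => simp [gh_lowWt_nil, ht]
  | cons p l ih =>
    have : (p.1.2 : ℕ) < p.1.1 := p.2
    rw [gh_lowWt_cons, ht_root, List.length_cons]
    omega

theorem gh_lex_step (a : Wt n) (p : Low n) : toLex (a + eps p.1.1 - eps p.1.2) < toLex a := by
  have := lex_root (a + eps p.1.1 - eps p.1.2) p.2
  rwa [sub_add_cancel, add_sub_cancel_right] at this

theorem gh_lex_le (l : List (Low n)) : toLex (lowWt l) ≤ toLex (0 : Wt n) := by
  induction l with
  | nil => exact le_rfl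
  | cons p l ih => rw [gh_lowWt_cons]; exact (gh_lex_step _ p).le.trans ih

theorem lex_lowWt {l : List (Low n)} (hl : l ≠ []) : toLex (lowWt l) < toLex (0 : Wt n) := by
  obtain ⟨p, l, rfl⟩ := List.exists_cons_of_ne_nil hl
  rw [gh_lowWt_cons]
  exact (gh_lex_step _ p).trans_le (gh_lex_le l)

theorem Um.aug_mon {l : List (Low n)} (hl : l ≠ []) : Um.aug (Um.mon l) = 0 := by
  obtain ⟨p, l, rfl⟩ := List.exists_cons_of_ne_nil hl
  rw [gh_mon_cons, map_mul, Um.aug_f, zero_mul]

namespace GMod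

theorem gh_act_f (M : GMod n) (p : Low n) (u : Um n) (v : M.V) :
    M.act (Um.f p * u) v = M.E p.1.1 p.1.2 (M.act u v) := by
  rw [map_mul, act_f, Module.End.mul_apply]

theorem gh_comm (M : GMod n) (A B : Mat n) (v : M.V) :
    M.ρ A (M.ρ B v) = M.ρ B (M.ρ A v) + M.ρ (A * B - B * A) v := by
  rw [← M.comm]
  simp

theorem IsHom.act {M N : GMod n} {f : M.V →ₗ[ℂ] N.V} (hf : M.IsHom N f) (u : Um n) (v : M.V) :
    f (M.act u v) = N.act u (f v) := by
  induction u using Um.induction with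
  | h1 => simp
  | hf p u ih => rw [gh_act_f, gh_act_f, hf, ih]
  | hadd u u' ih ih' => simp [ih, ih']
  | hsmul c u ih => simp [ih]

theorem Stable.act_mem {M : GMod n} {S : Submodule ℂ M.V} (hS : M.Stable S) (u : Um n) {v : M.V}
    (hv : v ∈ S) : M.act u v ∈ S :=
  S.coe_mem _ |> ((isHom_subtype M S hS).act u ⟨v, hv⟩).subst (motive := (· ∈ S))

theorem mon_mem_W {M : GMod n} {a : Wt n} {v : M.V} (hv : v ∈ M.W a) (l : List (Low n)) :
    M.act (Um.mon l) v ∈ M.W (a + lowWt l) := by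
  induction l with
  | nil => simpa [gh_mon_nil, gh_lowWt_nil] using hv
  | cons p l ih =>
    rw [gh_mon_cons, gh_act_f, gh_lowWt_cons, ← add_sub_assoc, ← add_assoc]
    exact E_mem_W ih _ _

theorem self_mem_orb (M : GMod n) (v : M.V) : v ∈ LinearMap.range (M.orb v) :=
  ⟨1, by simp [orb_apply]⟩

/-- A vector singular modulo a submodule generates, modulo it, the span under `U(n⁻)`. -/
theorem stable_sup_orb {M : GMod n} {K : Submodule ℂ M.V} (hK : M.Stable K) {a : Wt n} {v : M.V}
    (hv : v ∈ M.W a) (hs : ∀ i j : Fin n, i < j → M.E i j v ∈ K) :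
    M.Stable (K ⊔ LinearMap.range (M.orb v)) := by
  have low : ∀ p : Low n, ∀ x ∈ K ⊔ LinearMap.range (M.orb v),
      M.E p.1.1 p.1.2 x ∈ K ⊔ LinearMap.range (M.orb v) := fun p x hx => by
    obtain ⟨k, hk, _, ⟨u, rfl⟩, rfl⟩ := Submodule.mem_sup.1 hx
    rw [map_add]
    exact Submodule.add_mem_sup (hK _ _ hk) ⟨Um.f p * u, gh_act_f M p u v⟩
  have hv' := Submodule.mem_sup_right (S := K) (self_mem_orb M v)
  have key : ∀ u A, M.ρ A (M.act u v) ∈ K ⊔ LinearMap.range (M.orb v) := fun u => by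
    induction u using Um.induction with
    | h1 =>
      intro A
      simp only [map_one, Module.End.one_apply, ρ_eq_sum M A, LinearMap.sum_apply,
        LinearMap.smul_apply]
      refine sum_mem fun i _ => sum_mem fun j _ => Submodule.smul_mem _ _ ?_
      rcases lt_trichotomy i j with h | rfl | h
      · exact Submodule.mem_sup_left (hs i j h)
      · rw [(mem_W M a v).1 hv]
        exact Submodule.smul_mem _ _ hv'
      · exact low ⟨(i, j), h⟩ v hv'
    | hf p u ih =>
      intro A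
      rw [gh_act_f, gh_comm]
      exact add_mem (low p _ (ih _)) (ih _)
    | hadd u u' ih ih' =>
      intro A
      simpa using add_mem (ih A) (ih' A)
    | hsmul c u ih =>
      intro A
      simpa using Submodule.smul_mem _ c (ih A)
  intro A x hx
  obtain ⟨k, hk, _, ⟨u, rfl⟩, rfl⟩ := Submodule.mem_sup.1 hx
  rw [map_add]
  exact add_mem (Submodule.mem_sup_left (hK _ _ hk)) (key u A)

theorem Sing.stable_orb {M : GMod n} {a : Wt n} {v : M.V} (hv : M.Sing a v) :
    M.Stable (LinearMap.range (M.orb v)) := by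
  simpa using stable_sup_orb (stable_bot M) hv.1 hv.2

theorem gh_mem_ne {M : GMod n} {a b : Wt n} (h : b ≠ a) {v : M.V} (hv : v ∈ M.W b) :
    v ∈ ⨆ (c) (_ : c ≠ a), M.W c := Submodule.mem_iSup_of_mem b (Submodule.mem_iSup_of_mem h hv)

theorem gh_eq_zero {M : GMod n} {a : Wt n} {v : M.V} (hv : v ∈ M.W a)
    (h : v ∈ ⨆ (c) (_ : c ≠ a), M.W c) : v = 0 :=
  Submodule.disjoint_def.1 (W_indep M a) v hv h

/-- The top weight component of `u v`. -/
theorem act_eq_aug {M : GMod n} {a : Wt n} {v : M.V} (hv : v ∈ M.W a) {u : Um n}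
    (hu : M.act u v ∈ M.W a) : M.act u v = Um.aug u • v := by
  refine sub_eq_zero.1 (gh_eq_zero (sub_mem hu (Submodule.smul_mem _ _ hv)) ?_)
  refine gh_mem_of_mon (M.orb v - Um.aug.toLinearMap.smulRight v) (fun l => ?_) u
  change M.act (Um.mon l) v - Um.aug (Um.mon l) • v ∈ _
  by_cases hl : l = []
  · simp [hl, gh_mon_nil]
  · rw [Um.aug_mon hl, zero_smul, sub_zero]
    refine gh_mem_ne (fun e => ?_) (mon_mem_W hv l)
    have := lex_lowWt hl
    rw [add_eq_left.1 e] at this
    exact lt_irrefl _ this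

theorem orb_W_le {M : GMod n} {a b : Wt n} {v : M.V} (hv : v ∈ M.W a) {u : Um n}
    (hu : M.act u v ∈ M.W b) (h0 : M.act u v ≠ 0) : toLex b ≤ toLex a ∧ ht b ≤ ht a := by
  by_contra h
  refine h0 (gh_eq_zero hu (gh_mem_of_mon (M.orb v) (fun l => ?_) u))
  refine gh_mem_ne (fun e => h ?_) (mon_mem_W hv l)
  have h1 := ht_lowWt l
  have h2 := (lex_add_right (a := 0) (b := lowWt l) a).not.2 (gh_lex_le l).not_gt
  rw [zero_add, add_comm, e] at h2
  rw [← e, ht_add] at *
  exact ⟨not_lt.1 h2, by omega⟩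

theorem hw_wt {M : GMod n} {a : Wt n} {v : M.V} (hv : v ∈ M.W a)
    (hs : Function.Surjective (M.orb v)) :
    ⨆ b, M.W b = ⊤ ∧ ∀ b, FiniteDimensional ℂ (M.W b) := by
  refine ⟨eq_top_iff.2 fun x _ => ?_, fun b => ?_⟩
  · obtain ⟨u, rfl⟩ := hs x
    exact gh_mem_of_mon _ (fun l => Submodule.mem_iSup_of_mem _ (mon_mem_W hv l)) u
  have hf : {l : List (Low n) | a + lowWt l = b}.Finite :=
    (List.finite_length_le (Low n) (ht a - ht b).toNat).subset fun l hl => by
      have h1 := ht_lowWt l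
      have h2 : ht b = ht a + ht (lowWt l) := by rw [← ht_add, hl]
      change l.length ≤ _
      omega
  have := FiniteDimensional.span_of_finite ℂ (hf.image fun l => M.act (Um.mon l) v)
  refine Submodule.finiteDimensional_of_le (S₂ := Submodule.span ℂ
    ((fun l => M.act (Um.mon l) v) '' {l : List (Low n) | a + lowWt l = b})) fun x hx => ?_
  obtain ⟨u, rfl⟩ := hs x
  obtain ⟨s, hs, y, hy, e⟩ := Submodule.mem_sup.1 (gh_mem_of_mon (M.orb v) (S := Submodule.span ℂ
      ((fun l => M.act (Um.mon l) v) '' {l : List (Low n) | a + lowWt l = b}) ⊔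
      ⨆ (c) (_ : c ≠ b), M.W c) (fun l => by
    by_cases hl : a + lowWt l = b
    · exact Submodule.mem_sup_left (Submodule.subset_span ⟨l, hl, rfl⟩)
    · exact Submodule.mem_sup_right (gh_mem_ne hl (mon_mem_W hv l))) u)
  have h1 : s ∈ M.W b := by
    refine Submodule.span_le.2 ?_ hs
    rintro _ ⟨l, hl, rfl⟩
    exact hl ▸ mon_mem_W hv l
  have h2 : y = 0 := gh_eq_zero (by simpa [← e] using sub_mem hx h1) hy
  rwa [← e, h2, add_zero]

theorem hom_ext_orb {M N : GMod n} {v : M.V} (hs : Function.Surjective (M.orb v))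
    {f g : M.V →ₗ[ℂ] N.V} (hf : M.IsHom N f) (hg : M.IsHom N g) (h : f v = g v) : f = g := by
  refine LinearMap.ext fun x => ?_
  obtain ⟨u, rfl⟩ := hs x
  rw [orb_apply, hf.act, hg.act, h]

theorem Simple.orb_surj {M : GMod n} (hM : M.Simple) {a : Wt n} {v : M.V} (hv : M.Sing a v)
    (h0 : v ≠ 0) : Function.Surjective (M.orb v) :=
  LinearMap.range_eq_top.1 ((hM.2 _ hv.stable_orb).resolve_left fun e =>
    h0 ((Submodule.mem_bot ℂ).1 (e ▸ self_mem_orb M v)))

theorem Simple.iso {M N : GMod n} (hM : M.Simple) (h : M.Iso N) : N.Simple := by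
  obtain ⟨e, he⟩ := h
  have := hM.1
  refine ⟨e.injective.nontrivial, fun S hS => ?_⟩
  rw [← Submodule.map_comap_eq_of_surjective (f := e.toLinearMap) e.surjective S]
  refine (hM.2 _ (he.stable_comap hS)).imp (fun h => ?_) fun h => ?_
  · rw [h, Submodule.map_bot]
  · rw [h, Submodule.map_top, LinearEquiv.range]

theorem gh_prod_act (M N : GMod n) (u : Um n) (v : M.V) (w : N.V) :
    (M.prod N).act u (v, w) = (M.act u v, N.act u w) :=
  Prod.ext (IsHom.act (M := M.prod N) (f := LinearMap.fst ℂ _ _) (fun _ _ => rfl) u _)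
    (IsHom.act (M := M.prod N) (f := LinearMap.snd ℂ _ _) (fun _ _ => rfl) u _)

theorem gh_prod_sing {M N : GMod n} {a : Wt n} {v : M.V} {w : N.V} (hv : M.Sing a v)
    (hw : N.Sing a w) : (M.prod N).Sing a (v, w) :=
  ⟨(mem_W _ _ _).2 fun j => Prod.ext ((mem_W _ _ _).1 hv.1 j) ((mem_W _ _ _).1 hw.1 j),
    fun i j h => Prod.ext (hv.2 i j h) (hw.2 i j h)⟩

/-- A highest weight module maps to any module generated with more relations. -/
theorem gh_lift {M N : GMod n} {a : Wt n} {v : M.V} {w : N.V} (hv : M.Sing a v)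
    (hs : Function.Surjective (M.orb v)) (hw : N.Sing a w)
    (h : ∀ u, M.act u v = 0 → N.act u w = 0) : ∃ f : M.V →ₗ[ℂ] N.V, M.IsHom N f ∧ f v = w := by
  obtain ⟨g, hg⟩ := (M.orb v).exists_rightInverse_of_surjective (LinearMap.range_eq_top.2 hs)
  have e : ∀ u, (N.orb w ∘ₗ g) (M.act u v) = N.act u w := fun u => by
    have h1 : M.act (g (M.act u v)) v = M.act u v := LinearMap.congr_fun hg (M.act u v)
    have := h (g (M.act u v) - u) (by rw [map_sub, LinearMap.sub_apply, h1, sub_self])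
    rwa [map_sub, LinearMap.sub_apply, sub_eq_zero] at this
  refine ⟨N.orb w ∘ₗ g, fun A x => ?_, by simpa using e 1⟩
  obtain ⟨u, rfl⟩ := hs x
  obtain ⟨u', hu'⟩ := (gh_prod_sing hv hw).stable_orb A _ ⟨u, rfl⟩
  rw [orb_apply, orb_apply, gh_prod_act, gh_prod_act] at hu'
  have h1 : M.act u' v = M.ρ A (M.act u v) := congrArg Prod.fst hu'
  have h2 : N.act u' w = N.ρ A (N.act u w) := congrArg Prod.snd hu'
  rw [orb_apply, e, ← h1, e, h2]

/-- A highest weight module maps onto the simple module with the same highest weight. -/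
theorem hw_to_simple {M L : GMod n} (hL : L.Simple) {a : Wt n} {v : M.V} {w : L.V}
    (hv : M.Sing a v) (hs : Function.Surjective (M.orb v)) (hv0 : v ≠ 0) (hw : L.Sing a w)
    (hw0 : w ≠ 0) : ∃ f : M.V →ₗ[ℂ] L.V, M.IsHom L f ∧ f v = w := by
  have hi : L.IsHom (M.prod L) (LinearMap.inr ℂ _ _) := fun A x => Prod.ext (by simp) rfl
  refine gh_lift hv hs hw fun u hu => ?_
  rcases hL.2 _ (hi.stable_comap (gh_prod_sing hv hw).stable_orb) with h | h
  · refine (Submodule.mem_bot ℂ).1 (h ▸ ⟨u, ?_⟩)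
    rw [orb_apply, gh_prod_act, hu]
    rfl
  · obtain ⟨u', hu'⟩ : w ∈ Submodule.comap (LinearMap.inr ℂ M.V L.V)
      (LinearMap.range ((M.prod L).orb (v, w))) := h ▸ trivial
    rw [orb_apply, gh_prod_act] at hu'
    have h1 : M.act u' v = 0 := congrArg Prod.fst hu'
    have h2 : L.act u' w = w := congrArg Prod.snd hu'
    have h3 := act_eq_aug hv.1 (u := u') (h1 ▸ zero_mem _)
    have h4 := act_eq_aug hw.1 (u := u') (h2.symm ▸ hw.1)
    rw [h1, eq_comm, smul_eq_zero_iff_left hv0] at h3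
    rw [h2, h3, zero_smul] at h4
    exact absurd h4 hw0

/-- Two simple modules with the same highest weight are isomorphic. -/
theorem Simple.iso_of_sing {M N : GMod n} (hM : M.Simple) (hN : N.Simple) {a : Wt n} {v : M.V}
    {w : N.V} (hv : M.Sing a v) (hw : N.Sing a w) (hv0 : v ≠ 0) (hw0 : w ≠ 0) : M.Iso N := by
  obtain ⟨f, hf, e⟩ := hw_to_simple hN hv (hM.orb_surj hv hv0) hv0 hw hw0
  refine iso_of_bijective hf ⟨LinearMap.ker_eq_bot.1 ((hM.2 _ hf.stable_ker).resolve_right
    fun h => hw0 ?_), LinearMap.range_eq_top.1 ((hN.2 _ hf.stable_range).resolve_left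
    fun h => hw0 ((Submodule.mem_bot ℂ).1 (h ▸ ⟨v, e⟩)))⟩
  rw [← e]
  exact (h ▸ trivial : v ∈ LinearMap.ker f)

theorem gh_hom_pow {M N : GMod n} {f : M.V →ₗ[ℂ] N.V} (hf : M.IsHom N f) (A : Mat n) (k : ℕ)
    (v : M.V) : f ((M.ρ A ^ k) v) = (N.ρ A ^ k) (f v) := by
  induction k with
  | zero => simp
  | succ k ih => rw [pow_succ', pow_succ', Module.End.mul_apply, Module.End.mul_apply, hf, ih]

theorem LN.of_inj {M N : GMod n} {f : M.V →ₗ[ℂ] N.V} (hf : M.IsHom N f)
    (hi : Function.Injective f) {a b : Fin n} (h : N.LN a b) : M.LN a b := fun v =>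
  (h (f v)).imp fun k hk => hi (by rw [gh_hom_pow hf, hk, map_zero])

theorem LN.of_surj {M N : GMod n} {f : M.V →ₗ[ℂ] N.V} (hf : M.IsHom N f)
    (hs : Function.Surjective f) {a b : Fin n} (h : M.LN a b) : N.LN a b := fun w => by
  obtain ⟨v, rfl⟩ := hs w
  exact (h v).imp fun k hk => by rw [← gh_hom_pow hf, hk, map_zero]

theorem gh_mem_nil {X : Type} [AddCommGroup X] [Module ℂ X] {T : End ℂ X} {v : X} :
    v ∈ T.maxGenEigenspace 0 ↔ ∃ N : ℕ, (T ^ N) v = 0 := by
  simp [Module.End.mem_maxGenEigenspace]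

theorem gh_nil_step {M : GMod n} {e A : Mat n}
    (h : ∀ w ∈ (M.ρ e).maxGenEigenspace 0, M.ρ (e * A - A * e) w ∈ (M.ρ e).maxGenEigenspace 0) :
    ∀ w ∈ (M.ρ e).maxGenEigenspace 0, M.ρ A w ∈ (M.ρ e).maxGenEigenspace 0 := fun w hw => by
  obtain ⟨N, hN⟩ := gh_mem_nil.1 hw
  induction N generalizing w with
  | zero => simp [show w = 0 from hN]
  | succ N ih =>
    have h1 : (M.ρ e ^ N) (M.ρ e w) = 0 := by rwa [pow_succ, Module.End.mul_apply] at hN
    have h2 := add_mem (ih _ (gh_mem_nil.2 ⟨N, h1⟩) h1) (h w hw)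
    rw [← gh_comm] at h2
    obtain ⟨k, hk⟩ := gh_mem_nil.1 h2
    exact gh_mem_nil.2 ⟨k + 1, by rwa [pow_succ, Module.End.mul_apply]⟩

/-- The vectors on which a root vector acts nilpotently form a submodule. -/
theorem ln_of_gen {M : GMod n} {v : M.V} (hs : Function.Surjective (M.orb v)) {a b : Fin n}
    (hab : a ≠ b) (h : ∃ N : ℕ, (M.E a b ^ N) v = 0) : M.LN a b := fun x => by
  have he : (eM a b * eM a b : Mat n) = 0 := Matrix.single_mul_single_of_ne _ _ _ _ hab.symm _
  have hS : M.Stable ((M.E a b).maxGenEigenspace 0) := fun A =>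
    gh_nil_step (gh_nil_step (gh_nil_step fun w _ => by
      simp only [mul_sub, sub_mul, mul_assoc, he, mul_zero]
      simp only [← mul_assoc, he, zero_mul, mul_zero, sub_self, map_zero, LinearMap.zero_apply,
        zero_mem]))
  obtain ⟨u, rfl⟩ := hs x
  exact gh_mem_nil.1 (hS.act_mem u (gh_mem_nil.2 h))

theorem gh_E_comm (M : GMod n) (a b c d : Fin n) (v : M.V) :
    M.E a b (M.E c d v) = M.E c d (M.E a b v) +
      ((if b = c then M.E a d v else 0) - (if d = a then M.E c b v else 0)) := by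
  have := LinearMap.congr_fun (E_comm M a b c d) v
  simp only [LinearMap.sub_apply, Module.End.mul_apply, sub_eq_iff_eq_add'] at this
  rw [this]
  split_ifs <;> rfl

theorem gh_pow_mem {M : GMod n} {a : Wt n} {v : M.V} (hv : v ∈ M.W a) (i j : Fin n) (k : ℕ) :
    (M.E j i ^ k) v ∈ M.W (a + (k : ℤ) • (eps j - eps i)) := by
  induction k with
  | zero => simpa using hv
  | succ k ih =>
    rw [pow_succ', Module.End.mul_apply]
    convert E_mem_W ih j i using 2
    push_cast
    rw [add_smul, one_smul]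
    abel

theorem gh_sl2 {M : GMod n} {a : Wt n} {v : M.V} (hv : M.Sing a v) {i j : Fin n}
    (hij : (j : ℕ) = i + 1) (k : ℕ) : M.E i j ((M.E j i ^ (k + 1)) v) =
      (((k + 1) * (a i - a j - 1 - k) : ℤ) : ℂ) • (M.E j i ^ k) v := by
  have hne : i ≠ j := fun e => by rw [e] at hij; omega
  have h : ∀ m : ℕ, M.E i j ((M.E j i ^ (m + 1)) v) = M.E j i (M.E i j ((M.E j i ^ m) v)) +
      ((a i - a j - 1 - 2 * m : ℤ) : ℂ) • (M.E j i ^ m) v := fun m => by
    have hw := (mem_W _ _ _).1 (gh_pow_mem hv.1 i j m)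
    rw [pow_succ', Module.End.mul_apply, gh_E_comm, if_pos rfl, if_pos rfl, hw, hw, ← sub_smul]
    congr 2
    simp [hne, hne.symm, hij]
    ring
  induction k with
  | zero =>
    rw [h, pow_zero, Module.End.one_apply, hv.2 i j (by rw [Fin.lt_def]; omega)]
    simp
  | succ k ih =>
    rw [h, ih, map_smul, ← Module.End.mul_apply, ← pow_succ', ← add_smul]
    congr 1
    push_cast
    ring

/-- Lowering a singular vector along a simple root. -/
theorem Sing.pow {M : GMod n} {a : Wt n} {v : M.V} (hv : M.Sing a v) {i j : Fin n}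
    (hij : (j : ℕ) = i + 1) {k : ℕ} (hk : a i - a j = k) :
    M.Sing (fun t => a (Equiv.swap i j t)) ((M.E j i ^ k) v) := by
  have hne : i ≠ j := fun e => by rw [e] at hij; omega
  have other : ∀ m : ℕ, ∀ s t : Fin n, s < t → ¬ (s = i ∧ t = j) →
      M.E s t ((M.E j i ^ m) v) = 0 := fun m => by
    induction m with
    | zero => exact fun s t h _ => hv.2 s t h
    | succ m ih =>
      intro s t h h'
      rw [pow_succ', Module.End.mul_apply, gh_E_comm, ih s t h h', map_zero, zero_add]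
      simp only [Fin.lt_def, Fin.ext_iff] at h h' ih ⊢
      rw [ite_eq_right_iff.2 fun e => ih s i (by omega) (by omega),
        ite_eq_right_iff.2 fun e => ih j t (by omega) (by omega), sub_zero]
  refine ⟨?_, fun s t h => ?_⟩
  · convert gh_pow_mem hv.1 i j k using 2
    funext t
    rw [Equiv.swap_apply_def]
    split_ifs with h1 h2
    · simp [h1, hne, ← hk]
    · simp [h2, hne.symm, ← hk]
    · simp [h1, h2]
  by_cases h' : s = i ∧ t = j
  · obtain ⟨rfl, rfl⟩ := h'
    rcases k with _ | k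
    · exact hv.2 _ _ h
    · rw [gh_sl2 hv hij, hk]
      simp
  · exact other k s t h h'

theorem Prim.lt_of_ln {M : GMod n} {a : Wt n} (h : M.Prim a) {i j : Fin n}
    (hij : (j : ℕ) = i + 1) (hl : M.LN j i) : a j < a i := by
  classical
  obtain ⟨K, hK, v, hv, hv0, hs⟩ := h
  have hq := isHom_mkQ M K hK
  have h1 : (M.quot K hK).Sing a (K.mkQ v) :=
    ⟨hq.map_W hv, fun s t hst => (Submodule.Quotient.mk_eq_zero K).2 (hs s t hst)⟩
  have h2 := hl.of_surj hq K.mkQ_surjective (K.mkQ v)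
  have h3 := Nat.find_spec h2
  have h4 := fun m => Nat.find_min h2 (m := m)
  generalize Nat.find h2 = N at h3 h4
  rcases N with _ | N
  · exact absurd ((Submodule.Quotient.mk_eq_zero K).1 h3) hv0
  have h5 := gh_sl2 h1 hij N
  rw [h3, map_zero, eq_comm, smul_eq_zero_iff_left (h4 N (Nat.lt_succ_self N)), Int.cast_eq_zero,
    mul_eq_zero] at h5
  omega

end GMod

end Pool.Agent.KM
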