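import Pool.Agent.Lib.MP_515a76_al.Data
import Pool.Agent.Lib.MP_515a76_al.GChar2

/-! The parabolic category, the module `M₀` and the simple module `L`. -/

namespace Pool.Agent.KM

open Module GMod

theorem Par.of_inj {M N : GMod 16} {f : M.V →ₗ[ℂ] N.V} (hf : M.IsHom N f)
    (hi : Function.Injective f) (h : Par N) : Par M :=
  fun i j hij hp => (h i j hij hp).of_inj hf hi

theorem Par.of_surj {M N : GMod 16} {f : M.V →ₗ[ℂ] N.V} (hf : M.IsHom N f)
    (hs : Function.Surjective f) (h : Par M) : Par N :=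
  fun i j hij hp => (h i j hij hp).of_surj hf hs

theorem gp_ne {i j : Fin 16} (hij : (j : ℕ) = i + 1) : j ≠ i := fun h => by
  rw [h] at hij; omega

theorem Par.ten {ι : Type} [Fintype ι] [DecidableEq ι] (C : Coef 16 ι) {M : GMod 16} (h : Par M) :
    Par (Ten C M) :=
  fun i j hij hp => ln_ten C (gp_ne hij) (h i j hij hp)

theorem Par.colS {M : GMod 16} (h : Par M) {a : Wt 16} (ha : M.Prim a) : ColS a :=
  fun i j hij hp => ha.lt_of_ln hij (h i j hij hp)

theorem Par.vanish {M : GMod 16} {B : ℤ → ℤ} (hB : M.Blk B) (h : Par M)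
    (h0 : ∀ a, ColS a → cnt a ≠ B) : Subsingleton M.V :=
  hB.subsingleton fun a ha => h0 a (h.colS ha) (hB.prim a ha)

theorem Par.fc {M : GMod 16} (h : Par M) (c : ℤ) : Par (Fc M c) :=
  (h.ten (std 16)).of_inj (isHom_subtype _ _ _) Subtype.val_injective

theorem Par.eit {M : GMod 16} (h : Par M) (l : List ℤ) : Par (Eit M l) :=
  fun i j hij hp => ln_Eit (gp_ne hij) (h i j hij hp) l

theorem Par.fc_lam {K : GMod 16} (hB : K.Blk Blam) (h : Par K) (h4 : Subsingleton (Fc K 4).V) :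
    ∀ c ∈ {c : ℤ | c ≤ 5}, Subsingleton (Fc K c).V := by
  intro c hc
  by_cases hc4 : c = 4
  · subst hc4; exact h4
  · exact Par.vanish (blk_Fc hB c) (h.fc c) fun a ha => col_lam ha hc hc4

/-- A nonzero module of the parabolic block of `a0` has a nonzero vector of weight `a0`. -/
theorem Par.W_ne_bot {M : GMod 16} (hB : M.Blk (cnt a0)) (h : Par M) [Nontrivial M.V] :
    M.W a0 ≠ ⊥ := by
  obtain ⟨b, v, hv0, hv, hb⟩ := hB.exists_sing
  have : b = a0 := col_mu (h.colS (hv.prim hv0)) hb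
  subst this
  intro h0
  exact hv0 ((Submodule.eq_bot_iff _).mp h0 v hv.1)

theorem exists_M0 : ∃ (M : GMod 16) (v : M.V), M.Simple ∧ M.Sing a0 v ∧ v ≠ 0 ∧
    M.Blk (cnt a0) ∧ Par M ∧ Subsingleton (Fc M 4).V ∧ finrank ℂ (M.W a0) = 1 := by
  obtain ⟨D, w, hD⟩ := exists_verma a0
  have : Nontrivial D.V := ⟨⟨w, 0, hD.ne_zero⟩⟩
  obtain ⟨K, hK, hS⟩ := hD.blk.exists_simple_quot
  have hq := isHom_mkQ D K hK
  have hv : (D.quot K hK).Sing a0 (K.mkQ w) := hq.map_sing hD.1
  have hsurj : Function.Surjective ((D.quot K hK).orb (K.mkQ w)) := by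
    intro y
    obtain ⟨x, rfl⟩ := K.mkQ_surjective y
    obtain ⟨u, rfl⟩ := hD.2.2 x
    exact ⟨u, (hq.act u w).symm⟩
  have hv0 : K.mkQ w ≠ 0 := by
    intro h0
    obtain ⟨x, y, hxy⟩ := hS.1
    obtain ⟨u, rfl⟩ := hsurj x
    obtain ⟨u', rfl⟩ := hsurj y
    refine hxy ?_
    rw [GMod.orb_apply, GMod.orb_apply, h0, map_zero, map_zero]
  have hB := hD.blk.quot K hK
  have hP : Par (D.quot K hK) := by
    intro i j hij hp
    have hlt := colS_a0 i j hij hp
    refine ln_of_gen hsurj (gp_ne hij) ⟨(a0 i - a0 j).toNat, ?_⟩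
    by_contra h0
    have hs := hv.pow hij (k := (a0 i - a0 j).toNat) (by omega)
    obtain ⟨u, hu⟩ := hS.orb_surj hs h0 (K.mkQ w)
    rw [GMod.orb_apply] at hu
    have h1 := (orb_W_le hs.1 (u := u) (b := a0) (by rw [hu]; exact hv.1) (by rw [hu]; exact hv0)).1
    have hij' : i < j := by rw [Fin.lt_def]; omega
    refine absurd h1 (not_le.mpr ⟨i, fun t ht => ?_, ?_⟩)
    · simp only [Pi.toLex_apply]
      rw [Equiv.swap_apply_of_ne_of_ne (ne_of_lt ht) (ne_of_lt (lt_trans ht hij'))]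
    · simpa using hlt
  refine ⟨D.quot K hK, K.mkQ w, hS, hv, hv0, hB, hP,
    Par.vanish (blk_Fc hB 4) (hP.fc 4) fun a ha => col_mu4 ha, ?_⟩
  have : (D.quot K hK).W a0 = Submodule.span ℂ {K.mkQ w} := by
    refine le_antisymm (fun y hy => ?_) ((Submodule.span_singleton_le_iff_mem _ _).mpr hv.1)
    obtain ⟨u, rfl⟩ := hsurj y
    rw [GMod.orb_apply] at hy ⊢
    rw [act_eq_aug hv.1 hy]
    exact Submodule.smul_mem _ _ (Submodule.mem_span_singleton_self _)
  rw [this, finrank_span_singleton hv0]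

/-- The modules met on the way back. -/
def GoodAt (k : ℕ) (Y : GMod 16) : Prop := Y.Blk (walk B0 iQ k) ∧ Par Y ∧ Nontrivial Y.V

theorem gp_moves (k m : ℕ) (c : ℤ) (hc : ∀ t < m, iQ (k + t) = c) :
    moves (walk B0 iQ k) (List.replicate m c) = walk B0 iQ (k + m) := by
  induction m with
  | zero => rfl
  | succ m ih =>
    rw [List.replicate_succ, moves, ih fun t ht => hc t (by omega), ← Nat.add_assoc, walk,
      hc m (by omega)]

theorem gp_step {k m : ℕ} {c : ℤ} (hc : ∀ t < m, iQ (k + t) = c) {Y : GMod 16}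
    (h : GoodAt (k + m) Y) (hf : Subsingleton (Fc Y c).V)
    (hm : (m : ℤ) ≤ walk B0 iQ (k + m) (c + 1) - walk B0 iQ (k + m) c) :
    GoodAt k (Eit Y (List.replicate m c)) := by
  obtain ⟨h1, h2, h3⟩ := h
  exact ⟨blk_Eit _ (by rw [gp_moves k m c hc]; exact h1), h2.eit _, nontrivial_Eit h1 hf hm⟩

theorem gp_zero {k : ℕ} {c : ℤ} {Y : GMod 16} (h : GoodAt k Y) (h0 : walk B0 iQ k c = 0) :
    Subsingleton (Fc Y c).V :=
  (blk_Fc h.1 c).subsingleton_of_neg (c := c) (by simp [move, h0])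

theorem gp_on : ∀ k ≤ 88, ∀ Y : GMod 16, GoodAt k Y → GoodAt 0 (Eit Y (revL iQ k)) := by
  intro k
  induction k with
  | zero => intro _ Y h; exact h
  | succ k ih =>
    intro hk Y h
    obtain ⟨h1, h2⟩ := on_step k (by omega)
    have := gp_step (k := k) (m := 1) (c := iQ k) (fun t ht => by
      obtain rfl : t = 0 := by omega
      rfl) h (gp_zero h h1) (by rw [h1]; simpa using h2)
    exact ih (by omega) _ this

theorem exists_L : ∃ L : GMod 16, L.Simple ∧ L.Blk B0 ∧ Par L ∧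
    Nontrivial (Fit L (revL iQ 104)).V := by
  obtain ⟨M, v, hS, -, -, hB, hP, hF, -⟩ := exists_M0
  have g0 : GoodAt (100 + 4) M := ⟨by rw [show 100 + 4 = 104 from rfl, walk_q104]; exact hB, hP, hS.1⟩
  have g1 := gp_step (c := 4) (by decide +kernel) g0 hF (by decide +kernel)
  have g2 := gp_step (k := 98) (m := 2) (c := 2) (by decide +kernel) g1
    (gp_zero g1 (by decide +kernel)) (by decide +kernel)
  have g3 := gp_step (k := 96) (m := 2) (c := 1) (by decide +kernel) g2
    (gp_zero g2 (by decide +kernel)) (by decide +kernel)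
  have g4 := gp_step (k := 92) (m := 4) (c := 3) (by decide +kernel) g3
    (gp_zero g3 (by decide +kernel)) (by decide +kernel)
  have g5 := gp_step (k := 90) (m := 2) (c := 2) (by decide +kernel) g4
    (gp_zero g4 (by decide +kernel)) (by decide +kernel)
  have g6 := gp_step (k := 88) (m := 2) (c := 5) (by decide +kernel) g5
    (Par.vanish (blk_Fc g5.1 5) (g5.2.1.fc 5) fun a ha => col_five ha) (by decide +kernel)
  have g7 := gp_on 88 le_rfl _ g6
  have hl : revL iQ 104 = List.replicate 4 4 ++ (List.replicate 2 2 ++ (List.replicate 2 1 ++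
      (List.replicate 4 3 ++ (List.replicate 2 2 ++ (List.replicate 2 5 ++ revL iQ 88))))) := by
    decide +kernel
  simp only [← Eit_append, List.append_assoc] at g7
  rw [← hl] at g7
  obtain ⟨b1, b2, b3⟩ := g7
  have hM : M.Blk (moves B0 (revL iQ 104)) := by rw [moves_revL, walk_q104]; exact hB
  obtain ⟨f, -, hf⟩ := (adj_left (revL iQ 104) b1 hM).mpr ⟨LinearMap.id, isHom_id _, by
    intro h0
    obtain ⟨x, y, hxy⟩ := b3
    exact hxy ((LinearMap.congr_fun h0 x).trans (LinearMap.congr_fun h0 y).symm)⟩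
  have : Nontrivial (Fit (Eit M (revL iQ 104)) (revL iQ 104)).V := by
    by_contra hc
    rw [not_nontrivial_iff_subsingleton] at hc
    exact hf (LinearMap.ext fun x => Subsingleton.elim _ _)
  obtain ⟨L, l1, l2, l3, l4⟩ := exists_simple_Fit b1 (revL iQ 104)
  exact ⟨L, l1, l2, fun i j hij hp => l4 _ _ (b2 i j hij hp), l3⟩

end Pool.Agent.KM
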