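import Pool.Agent.Lib.MP_515a76_al.GBasic

/-! Tensor powers of the vector representation and the DAHA action. -/

namespace Pool.Agent.KM

open Module GMod

variable {n d : ℕ}

/-- Multi-indices. -/
abbrev Idx (d n : ℕ) : Type := Fin d → Fin n

/-- A matrix acting on the `k`-th strand. -/
def Dk (k : Fin d) : Mat n →ₗ[ℂ] Matrix (Idx d n) (Idx d n) ℂ where
  toFun A := fun i j => if ∀ l, l ≠ k → i l = j l then A (i k) (j k) else 0
  map_add' A B := by
    ext i j
    simp only [Matrix.add_apply]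
    split_ifs <;> simp
  map_smul' c A := by
    ext i j
    simp only [Matrix.smul_apply, RingHom.id_apply]
    split_ifs <;> simp

theorem matOp_Dk (X : Type) [AddCommGroup X] [Module ℂ X] (k : Fin d) (A : Mat n)
    (m : Idx d n → X) (i : Idx d n) :
    matOp X (Dk k A) m i = ∑ b, A (i k) b • m (Function.update i k b) := by
  rw [matOp_apply]
  symm
  refine Fintype.sum_of_injective (fun b => Function.update i k b)
    (Function.update_injective i k) _ _ ?_ ?_
  · intro j hj
    have : ¬ ∀ l, l ≠ k → i l = j l := by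
      intro h
      apply hj
      refine ⟨j k, funext fun l => ?_⟩
      by_cases hl : l = k
      · subst hl; simp
      · simp [Function.update_of_ne hl, h l hl]
    change (if ∀ l, l ≠ k → i l = j l then A (i k) (j k) else 0) • m j = 0
    rw [if_neg this, zero_smul]
  · intro b
    have : ∀ l, l ≠ k → i l = Function.update i k b l := fun l hl => by
      rw [Function.update_of_ne hl]
    change _ = (if ∀ l, l ≠ k → i l = Function.update i k b l then
      A (i k) (Function.update i k b k) else 0) • m _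
    rw [if_pos this, Function.update_self]

theorem gpa_matOp_inj {ι : Type} [Fintype ι] [DecidableEq ι] {S T : Matrix ι ι ℂ}
    (h : matOp ℂ S = matOp ℂ T) : S = T := by
  ext i j
  have := congrArg (fun F : End ℂ (ι → ℂ) => F (Pi.single j 1) i) h
  simpa [matOp_apply, Pi.single_apply] using this

theorem gpa_matOp_unit (X : Type) [AddCommGroup X] [Module ℂ X] (k : Fin d) (a b : Fin n)
    (m : Idx d n → X) (i : Idx d n) :
    matOp X (Dk k (eM a b)) m i = if i k = a then m (Function.update i k b) else 0 := by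
  rw [matOp_Dk, Finset.sum_eq_single b]
  · by_cases h : i k = a
    · simp [h]
    · simp [h, Ne.symm h]
  · intro c _ hc
    simp [Ne.symm hc]
  · simp

theorem Dk_mul (k : Fin d) (A B : Mat n) : Dk k (A * B) = Dk k A * Dk k B := by
  refine gpa_matOp_inj (LinearMap.ext fun m => funext fun i => ?_)
  simp only [map_mul, Module.End.mul_apply, matOp_Dk, Function.update_self, Function.update_idem,
    Matrix.mul_apply, Finset.sum_smul, Finset.smul_sum, smul_smul]
  exact Finset.sum_comm

theorem Dk_one (k : Fin d) : Dk k (1 : Mat n) = 1 := by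
  refine gpa_matOp_inj (LinearMap.ext fun m => funext fun i => ?_)
  simp [matOp_Dk, Matrix.one_apply]

theorem Dk_comm {k l : Fin d} (h : k ≠ l) (A B : Mat n) : Dk k A * Dk l B = Dk l B * Dk k A := by
  refine gpa_matOp_inj (LinearMap.ext fun m => funext fun i => ?_)
  simp only [map_mul, Module.End.mul_apply, matOp_Dk, Function.update_of_ne h,
    Function.update_of_ne h.symm, Finset.smul_sum, smul_smul]
  rw [Finset.sum_comm]
  refine Finset.sum_congr rfl fun b _ => Finset.sum_congr rfl fun c _ => ?_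
  rw [mul_comm, Function.update_comm h]

theorem tpow_comm (A B : Mat n) :
    (∑ k : Fin d, Dk k) A * (∑ k : Fin d, Dk k) B - (∑ k : Fin d, Dk k) B * (∑ k : Fin d, Dk k) A =
      (∑ k : Fin d, Dk k) (A * B - B * A) := by
  simp only [LinearMap.sum_apply]
  rw [Finset.sum_mul_sum, Finset.sum_mul_sum, Finset.sum_comm (f := fun k l => Dk k B * Dk l A),
    ← Finset.sum_sub_distrib]
  refine Finset.sum_congr rfl fun k _ => ?_
  rw [← Finset.sum_sub_distrib, Finset.sum_eq_single k]
  · rw [map_sub, Dk_mul, Dk_mul]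
  · intro l _ hl
    rw [Dk_comm hl.symm, sub_self]
  · simp

theorem tpow_diag (j : Fin n) : (∑ k : Fin d, Dk k) (eM j j) =
    Matrix.diagonal fun i : Idx d n => (((∑ k, eps (i k) : Wt n) j : ℤ) : ℂ) := by
  ext i i'
  simp only [LinearMap.sum_apply, Matrix.sum_apply]
  by_cases h : i = i'
  · subst h
    simp only [Matrix.diagonal_apply_eq, Finset.sum_apply, Int.cast_sum]
    refine Finset.sum_congr rfl fun k _ => ?_
    change (if ∀ l, l ≠ k → i l = i l then eM j j (i k) (i k) else 0) = _
    rw [if_pos fun _ _ => rfl]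
    by_cases hj : j = i k
    · subst hj; simp
    · simp [hj]
  · rw [Matrix.diagonal_apply_ne _ h]
    refine Finset.sum_eq_zero fun k _ => ?_
    change (if ∀ l, l ≠ k → i l = i' l then eM j j (i k) (i' k) else 0) = _
    split_ifs with h1
    · have : ¬ (j = i k ∧ j = i' k) := by
        rintro ⟨h2, h3⟩
        refine h (funext fun l => ?_)
        by_cases hl : l = k
        · subst hl; exact h2.symm.trans h3
        · exact h1 l hl
      simp [this]
    · rfl

/-- The `d`-th tensor power of the vector representation. -/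
noncomputable def tpow (n d : ℕ) : Coef n (Idx d n) where
  C := ∑ k : Fin d, Dk k
  comm := tpow_comm
  wt := fun i => ∑ k, eps (i k)
  diag := tpow_diag

/-- Permutation of the strands. -/
def sP (X : Type) [AddCommGroup X] [Module ℂ X] (w : Equiv.Perm (Fin d)) :
    End ℂ (Idx d n → X) := LinearMap.funLeft ℂ X fun i : Idx d n => fun k => i (w k)

theorem sP_apply (X : Type) [AddCommGroup X] [Module ℂ X] (w : Equiv.Perm (Fin d))
    (m : Idx d n → X) (i : Idx d n) : sP X w m i = m fun k => i (w k) := rfl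

theorem sP_mul (X : Type) [AddCommGroup X] [Module ℂ X] (u w : Equiv.Perm (Fin d)) :
    sP (n := n) X (u * w) = sP X u * sP X w := rfl

theorem sP_one (X : Type) [AddCommGroup X] [Module ℂ X] :
    sP (n := n) X (1 : Equiv.Perm (Fin d)) = 1 := rfl

theorem sP_single (X : Type) [AddCommGroup X] [Module ℂ X] (w : Equiv.Perm (Fin d)) (j : Idx d n)
    (x : X) : sP X w (Pi.single j x) = Pi.single (fun k => j (w.symm k)) x := by
  funext i
  rw [sP_apply, Pi.single_apply, Pi.single_apply]
  refine if_congr ⟨fun h => funext fun k => ?_, fun h => funext fun k => ?_⟩ rfl rfl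
  · rw [← h]; simp
  · rw [h]; simp

theorem sum_Dk_swap (X : Type) [AddCommGroup X] [Module ℂ X] {k l : Fin d} (h : k ≠ l) :
    ∑ a : Fin n, ∑ b : Fin n, matOp X (Dk k (eM a b)) * matOp X (Dk l (eM b a)) =
      sP X (Equiv.swap k l) := by
  refine LinearMap.ext fun m => funext fun i => ?_
  simp only [LinearMap.sum_apply, Finset.sum_apply, Module.End.mul_apply, gpa_matOp_unit,
    Function.update_of_ne h.symm, sP_apply]
  rw [Finset.sum_eq_single (i k), Finset.sum_eq_single (i l)]
  · simp only [if_true]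
    congr 1
    funext t
    by_cases h1 : t = l
    · subst h1; simp
    · by_cases h2 : t = k
      · subst h2; simp [Function.update_of_ne h1]
      · rw [Function.update_of_ne h1, Function.update_of_ne h2, Equiv.swap_apply_of_ne_of_ne h2 h1]
  · intro b _ hb
    simp [Ne.symm hb]
  · simp
  · intro a _ ha
    simp [Ne.symm ha]
  · simp

theorem sP_Dk (X : Type) [AddCommGroup X] [Module ℂ X] (w : Equiv.Perm (Fin d)) (k : Fin d)
    (A : Mat n) : sP X w * matOp X (Dk k A) = matOp X (Dk (w k) A) * sP X w := by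
  refine LinearMap.ext fun m => funext fun i => ?_
  simp only [Module.End.mul_apply, sP_apply, matOp_Dk]
  refine Finset.sum_congr rfl fun b _ => ?_
  congr 2
  exact (Function.update_comp_eq_of_injective i w.injective k b).symm

/-- The mixed Casimir operator between strand `k` and everything before it. -/
noncomputable def xF (M : GMod n) (k : Fin d) : End ℂ (Idx d n → M.V) :=
  ∑ a : Fin n, ∑ b : Fin n, matOp M.V (Dk k (eM a b)) *
    (ptOp (Idx d n) (M.E b a) +
      ∑ l ∈ Finset.univ.filter fun l => l < k, matOp M.V (Dk l (eM b a)))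

/-- The `x k` indexed by natural numbers. -/
noncomputable def xN (d : ℕ) (M : GMod n) (k : ℕ) : End ℂ (Idx d n → M.V) :=
  if h : k < d then xF M ⟨k, h⟩ else 0

/-- The `s r` indexed by natural numbers. -/
def sN (d : ℕ) (M : GMod n) (r : ℕ) : End ℂ (Idx d n → M.V) :=
  if h : r + 1 < d then sP M.V (Equiv.swap ⟨r, by omega⟩ ⟨r + 1, h⟩) else 1

/-- The action on the strands in `S` and the module. -/
noncomputable def gpaR (M : GMod n) (S : Finset (Fin d)) : Mat n →ₗ[ℂ] End ℂ (Idx d n → M.V) :=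
  ptρ (Idx d n) M + ∑ l ∈ S, (matOp M.V).toLinearMap.comp (Dk l)

theorem gpaR_apply (M : GMod n) (S : Finset (Fin d)) (A : Mat n) :
    gpaR M S A = ptOp (Idx d n) (M.ρ A) + ∑ l ∈ S, matOp M.V (Dk l A) := by
  simp only [gpaR, LinearMap.add_apply, LinearMap.sum_apply]
  rfl

theorem gpa_xF_eq (M : GMod n) (k : Fin d) : xF M k = ∑ a : Fin n, ∑ b : Fin n,
    matOp M.V (Dk k (eM a b)) * gpaR M (Finset.univ.filter fun l => l < k) (eM b a) := by
  simp only [gpaR_apply]
  rfl

theorem gpa_pt_mat {X : Type} [AddCommGroup X] [Module ℂ X] (f : End ℂ X)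
    (T : Matrix (Idx d n) (Idx d n) ℂ) : Commute (matOp X T) (ptOp (Idx d n) f) :=
  LinearMap.ext fun m => (ptOp_matOp f T m).symm

theorem gpa_D_D (X : Type) [AddCommGroup X] [Module ℂ X] {k l : Fin d} (h : k ≠ l) (A B : Mat n) :
    Commute (matOp X (Dk k A)) (matOp X (Dk l B)) := by
  rw [Commute, SemiconjBy, ← map_mul, ← map_mul, Dk_comm h]

theorem gpa_D_R (M : GMod n) {S : Finset (Fin d)} {k : Fin d} (hk : k ∉ S) (A B : Mat n) :
    Commute (matOp M.V (Dk k A)) (gpaR M S B) := by
  rw [gpaR_apply]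
  refine (gpa_pt_mat _ _).add_right (Commute.sum_right _ _ _ fun l hl => gpa_D_D _ ?_ _ _)
  rintro rfl
  exact hk hl

theorem gpaR_insert (M : GMod n) {S : Finset (Fin d)} {k : Fin d} (hk : k ∉ S) (A : Mat n) :
    gpaR M (insert k S) A = matOp M.V (Dk k A) + gpaR M S A := by
  rw [gpaR_apply, gpaR_apply, Finset.sum_insert hk]
  abel

theorem gpa_D_lie (X : Type) [AddCommGroup X] [Module ℂ X] (k : Fin d) (A B : Mat n) :
    matOp X (Dk k (A * B - B * A)) =
      matOp X (Dk k A) * matOp X (Dk k B) - matOp X (Dk k B) * matOp X (Dk k A) := by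
  rw [map_sub, map_sub, Dk_mul, Dk_mul, map_mul, map_mul]

theorem gpaR_lie (M : GMod n) (S : Finset (Fin d)) (A B : Mat n) :
    gpaR M S (A * B - B * A) = gpaR M S A * gpaR M S B - gpaR M S B * gpaR M S A := by
  induction S using Finset.induction_on with
  | empty =>
    simp only [gpaR_apply, Finset.sum_empty, add_zero]
    exact LinearMap.ext fun m => funext fun i =>
      (congrArg (fun S : End ℂ M.V => S (m i)) (M.comm A B)).symm
  | insert k S hk ih =>
    rw [gpaR_insert M hk, gpaR_insert M hk, gpaR_insert M hk, ih, gpa_D_lie]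
    have h1 := (gpa_D_R M hk A B).eq
    have h2 := (gpa_D_R M hk B A).eq
    simp only [mul_add, add_mul, h1, h2]
    abel

theorem gpa_cas {R : Type} [Ring R] [Algebra ℂ R] (f g : Mat n →ₗ[ℂ] R)
    (hf : ∀ A B, f (A * B - B * A) = f A * f B - f B * f A)
    (hg : ∀ A B, g (A * B - B * A) = g A * g B - g B * g A)
    (hfg : ∀ A B, Commute (f A) (g B)) (T : Mat n) :
    Commute (f T + g T) (∑ a : Fin n, ∑ b : Fin n, f (eM a b) * g (eM b a)) := by
  have key := comm_units f g T
  rw [Commute, SemiconjBy, ← sub_eq_zero, ← key, Finset.mul_sum, Finset.sum_mul,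
    ← Finset.sum_sub_distrib]
  refine Finset.sum_congr rfl fun a _ => ?_
  rw [Finset.mul_sum, Finset.sum_mul, ← Finset.sum_sub_distrib]
  refine Finset.sum_congr rfl fun b _ => ?_
  rw [hf, hg]
  have a1 := (hfg T (eM b a)).eq
  have a2 := (hfg (eM a b) T).eq
  simp only [mul_add, add_mul, mul_sub, sub_mul, mul_assoc, ← a1]
  rw [← mul_assoc (g T), ← a2, mul_assoc]
  abel

theorem gpa_D_x (M : GMod n) {k l : Fin d} (h : k < l) (A : Mat n) :
    Commute (matOp M.V (Dk l A)) (xF M k) := by
  rw [gpa_xF_eq]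
  refine Commute.sum_right _ _ _ fun a _ => Commute.sum_right _ _ _ fun b _ => ?_
  refine (gpa_D_D _ h.ne' _ _).mul_right (gpa_D_R M ?_ _ _)
  simpa using h.le

theorem gpa_R_x (M : GMod n) {k : Fin d} {S : Finset (Fin d)} (hS : ∀ l, l ≤ k → l ∈ S)
    (A : Mat n) : Commute (gpaR M S A) (xF M k) := by
  have hk : k ∉ Finset.univ.filter fun l => l < k := by simp
  have h0 : Commute (gpaR M (insert k (Finset.univ.filter fun l => l < k)) A) (xF M k) := by
    rw [gpaR_insert M hk, gpa_xF_eq]
    exact gpa_cas ((matOp M.V).toLinearMap.comp (Dk k)) (gpaR M _) (gpa_D_lie M.V k)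
      (gpaR_lie M _) (gpa_D_R M hk) A
  have hsub : insert k (Finset.univ.filter fun l => l < k) ⊆ S := by
    intro l hl
    apply hS
    simp only [Finset.mem_insert, Finset.mem_filter, Finset.mem_univ, true_and] at hl
    exact hl.elim le_of_eq le_of_lt
  have h1 : gpaR M S A = gpaR M (insert k (Finset.univ.filter fun l => l < k)) A +
      ∑ l ∈ S \ insert k (Finset.univ.filter fun l => l < k), matOp M.V (Dk l A) := by
    rw [gpaR_apply, gpaR_apply, ← Finset.sum_sdiff hsub]
    abel
  rw [h1]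
  refine h0.add_left (Commute.sum_left _ _ _ fun l hl => gpa_D_x M ?_ A)
  simp only [Finset.mem_sdiff, Finset.mem_insert, Finset.mem_filter, Finset.mem_univ, true_and,
    not_or, not_lt] at hl
  exact lt_of_le_of_ne hl.2.2 (Ne.symm hl.2.1)

theorem gpa_x_x (M : GMod n) {k l : Fin d} (h : k < l) : Commute (xF M l) (xF M k) := by
  rw [gpa_xF_eq M l]
  refine Commute.sum_left _ _ _ fun a _ => Commute.sum_left _ _ _ fun b _ => ?_
  refine (gpa_D_x M h _).mul_left (gpa_R_x M (fun t ht => ?_) _)
  simpa using lt_of_le_of_lt ht h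

theorem gpa_ten (M : GMod n) (A : Mat n) : tenρ (tpow n d) M A = gpaR M Finset.univ A := by
  rw [gpaR_apply, add_comm, ← map_sum, ← LinearMap.sum_apply]
  rfl

theorem gpa_sP_pt {X : Type} [AddCommGroup X] [Module ℂ X] (w : Equiv.Perm (Fin d))
    (f : End ℂ X) : sP (n := n) X w * ptOp (Idx d n) f = ptOp (Idx d n) f * sP X w := rfl

theorem gpa_sP_sum (X : Type) [AddCommGroup X] [Module ℂ X] (w : Equiv.Perm (Fin d))
    {S T : Finset (Fin d)} (h : ∀ l, l ∈ S ↔ w l ∈ T) (A : Mat n) :
    sP X w * ∑ l ∈ S, matOp X (Dk l A) = (∑ l ∈ T, matOp X (Dk l A)) * sP X w := by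
  rw [Finset.mul_sum, Finset.sum_mul]
  exact Finset.sum_equiv w h fun l _ => sP_Dk X w l A

theorem gpa_sP_R (M : GMod n) (w : Equiv.Perm (Fin d)) {S T : Finset (Fin d)}
    (h : ∀ l, l ∈ S ↔ w l ∈ T) (A : Mat n) :
    sP M.V w * gpaR M S A = gpaR M T A * sP M.V w := by
  rw [gpaR_apply, gpaR_apply, mul_add, add_mul, gpa_sP_pt, gpa_sP_sum M.V w h]

theorem gpa_sP_x (M : GMod n) (w : Equiv.Perm (Fin d)) (k : Fin d) {T : Finset (Fin d)}
    (h : ∀ l, l < k ↔ w l ∈ T) : sP M.V w * xF M k =
      (∑ a : Fin n, ∑ b : Fin n, matOp M.V (Dk (w k) (eM a b)) * gpaR M T (eM b a)) *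
        sP M.V w := by
  rw [gpa_xF_eq, Finset.mul_sum, Finset.sum_mul]
  refine Finset.sum_congr rfl fun a _ => ?_
  rw [Finset.mul_sum, Finset.sum_mul]
  refine Finset.sum_congr rfl fun b _ => ?_
  rw [← mul_assoc, sP_Dk, mul_assoc, gpa_sP_R M w (T := T) (fun l => by simpa using h l), mul_assoc]

theorem gpa_transpose (k : Fin d) (A : Mat n) : (Dk k A).transpose = Dk k A.transpose := by
  ext i j
  change (if ∀ l, l ≠ k → j l = i l then A (j k) (i k) else 0) =
    if ∀ l, l ≠ k → i l = j l then A (j k) (i k) else 0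
  exact if_congr ⟨fun h l hl => (h l hl).symm, fun h l hl => (h l hl).symm⟩ rfl rfl

theorem xF_hom (M : GMod n) (k : Fin d) : (Ten (tpow n d) M).IsHom (Ten (tpow n d) M) (xF M k) := by
  intro A v
  have h := (gpa_R_x M (k := k) (S := Finset.univ) (fun l _ => Finset.mem_univ l) A).eq
  rw [← gpa_ten] at h
  exact (congrArg (fun T : End ℂ (Idx d n → M.V) => T v) h).symm

theorem sP_hom (M : GMod n) (w : Equiv.Perm (Fin d)) :
    (Ten (tpow n d) M).IsHom (Ten (tpow n d) M) (sP M.V w) := by
  intro A v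
  have h := gpa_sP_R M w (S := Finset.univ) (T := Finset.univ) (fun l => by simp) A
  rw [← gpa_ten] at h
  exact congrArg (fun T : End ℂ (Idx d n → M.V) => T v) h

theorem sP_hom_dual (M : GMod n) (w : Equiv.Perm (Fin d)) :
    (Ten (tpow n d).dual M).IsHom (Ten (tpow n d).dual M) (sP M.V w) := by
  intro A v
  have h1 : tenρ (tpow n d).dual M A =
      -(∑ l : Fin d, matOp M.V (Dk l A.transpose)) + ptOp (Idx d n) (M.ρ A) := by
    have : (tpow n d).dual.C A = -∑ l : Fin d, Dk l A.transpose := by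
      change -((∑ k : Fin d, Dk k) A).transpose = _
      rw [LinearMap.sum_apply, Matrix.transpose_sum]
      simp only [gpa_transpose]
    rw [← map_sum, ← map_neg, ← this]
    rfl
  have h : sP M.V w * tenρ (tpow n d).dual M A = tenρ (tpow n d).dual M A * sP M.V w := by
    have h2 : Commute (sP M.V w) (∑ l : Fin d, matOp M.V (Dk l A.transpose)) :=
      gpa_sP_sum M.V w (T := Finset.univ) (fun l => by simp) _
    rw [h1]
    exact (h2.neg_right.add_right (gpa_sP_pt w _)).eq
  exact congrArg (fun T : End ℂ (Idx d n → M.V) => T v) h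

theorem gpa_braid {α : Type} [DecidableEq α] {a b c : α} (hab : a ≠ b) (hac : a ≠ c)
    (hbc : b ≠ c) : Equiv.swap a b * Equiv.swap b c * Equiv.swap a b =
      Equiv.swap b c * Equiv.swap a b * Equiv.swap b c := by
  have h1 := Equiv.swap_mul_swap_mul_swap (x := c) (y := b) (z := a) hbc.symm hac.symm
  have h2 := Equiv.swap_mul_swap_mul_swap (x := a) (y := b) (z := c) hab hac
  rw [h2, Equiv.swap_comm a b, Equiv.swap_comm b c, h1, Equiv.swap_comm]

theorem exists_daha (d : ℕ) (M : GMod n) :
    ∃ D : DAHA d (Idx d n → M.V), D.x = xN d M ∧ D.s = sN d M := by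
  refine ⟨⟨xN d M, sN d M, ?_, ?_, ?_, ?_, ?_, ?_⟩, rfl, rfl⟩
  · intro k l hk hl
    rw [xN, xN, dif_pos hk, dif_pos hl]
    rcases lt_trichotomy k l with h | h | h
    · exact (gpa_x_x M (k := ⟨k, hk⟩) (l := ⟨l, hl⟩) h).eq.symm
    · subst h; rfl
    · exact (gpa_x_x M (k := ⟨l, hl⟩) (l := ⟨k, hk⟩) h).eq
  · intro r hr
    rw [sN, dif_pos hr, ← sP_mul, Equiv.swap_mul_self, sP_one]
  · intro r t hrt ht
    have hr : r + 1 < d := by omega
    rw [sN, sN, dif_pos hr, dif_pos ht, ← sP_mul, ← sP_mul]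
    congr 1
    refine (Equiv.Perm.Disjoint.commute fun x => ?_).eq
    by_cases h1 : x.1 ≤ r + 1
    · right
      refine Equiv.swap_apply_of_ne_of_ne (fun h => ?_) (fun h => ?_)
      · rw [h] at h1; simp only at h1; omega
      · rw [h] at h1; simp only at h1; omega
    · left
      refine Equiv.swap_apply_of_ne_of_ne (fun h => ?_) (fun h => ?_)
      · rw [h] at h1; simp only at h1; omega
      · rw [h] at h1; simp only at h1; omega
  · intro r hr
    have h1 : r + 1 < d := by omega
    have h2 : r + 1 + 1 < d := by omega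
    rw [sN, sN, dif_pos h1, dif_pos h2, ← sP_mul, ← sP_mul, ← sP_mul, ← sP_mul]
    congr 1
    exact gpa_braid (by simp [Fin.ext_iff]) (by simp only [ne_eq, Fin.ext_iff]; omega)
      (by simp [Fin.ext_iff])
  · intro r hr
    have h0 : r < d := by omega
    have hp : (⟨r, h0⟩ : Fin d) ∉ Finset.univ.filter fun l => l < (⟨r, h0⟩ : Fin d) := by simp
    have hins : (Finset.univ.filter fun l => l < (⟨r + 1, hr⟩ : Fin d)) =
        insert ⟨r, h0⟩ (Finset.univ.filter fun l => l < (⟨r, h0⟩ : Fin d)) := by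
      ext l
      simp only [Finset.mem_insert, Finset.mem_filter, Finset.mem_univ, true_and, Fin.lt_def,
        Fin.ext_iff]
      omega
    have hne : (⟨r + 1, hr⟩ : Fin d) ≠ ⟨r, h0⟩ := by simp [Fin.ext_iff]
    rw [sN, xN, xN, dif_pos hr, dif_pos h0, dif_pos hr,
      gpa_sP_x M _ _ (T := Finset.univ.filter fun l => l < (⟨r, h0⟩ : Fin d)), gpa_xF_eq, hins]
    · simp only [gpaR_insert M hp, mul_add, Finset.sum_add_distrib, add_mul,
        sum_Dk_swap M.V hne, Equiv.swap_apply_left]
      rw [← sP_mul, Equiv.swap_comm (⟨r + 1, hr⟩ : Fin d), Equiv.swap_mul_self, sP_one]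
      abel
    · intro l
      simp only [Finset.mem_filter, Finset.mem_univ, true_and, Equiv.swap_apply_def, Fin.lt_def,
        Fin.ext_iff]
      split_ifs <;> simp only <;> omega
  · intro r k hr hk h1 h2
    have h0 : r < d := by omega
    have hfix : Equiv.swap (⟨r, h0⟩ : Fin d) ⟨r + 1, hr⟩ ⟨k, hk⟩ = ⟨k, hk⟩ :=
      Equiv.swap_apply_of_ne_of_ne (by simpa [Fin.ext_iff] using h1)
        (by simpa [Fin.ext_iff] using h2)
    rw [sN, xN, dif_pos hr, dif_pos hk,
      gpa_sP_x M _ _ (T := Finset.univ.filter fun l => l < (⟨k, hk⟩ : Fin d)), gpa_xF_eq, hfix]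
    intro l
    simp only [Finset.mem_filter, Finset.mem_univ, true_and, Equiv.swap_apply_def, Fin.lt_def,
      Fin.ext_iff]
    split_ifs <;> simp only <;> omega

/-- The DAHA action on the tensor power. -/
noncomputable def daha (d : ℕ) (M : GMod n) : DAHA d (Idx d n → M.V) := (exists_daha d M).choose

theorem daha_x (M : GMod n) (k : Fin d) : (daha d M).x k = xF M k := by
  rw [daha, (exists_daha d M).choose_spec.1, xN, dif_pos k.2]

theorem daha_s (M : GMod n) {r : ℕ} (h : r + 1 < d) :
    (daha d M).s r = sP M.V (Equiv.swap ⟨r, by omega⟩ ⟨r + 1, h⟩) := by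
  rw [daha, (exists_daha d M).choose_spec.2, sN, dif_pos h]

theorem daha_x_hom (M : GMod n) {k : ℕ} (hk : k < d) :
    (Ten (tpow n d) M).IsHom (Ten (tpow n d) M) ((daha d M).x k) :=
  daha_x M ⟨k, hk⟩ ▸ xF_hom M ⟨k, hk⟩

theorem daha_s_hom (M : GMod n) {r : ℕ} (hr : r + 1 < d) :
    (Ten (tpow n d) M).IsHom (Ten (tpow n d) M) ((daha d M).s r) :=
  daha_s M hr ▸ sP_hom M _

theorem ptOp_x {M N : GMod n} {f : M.V →ₗ[ℂ] N.V} (hf : M.IsHom N f) {k : ℕ} (hk : k < d)
    (m : Idx d n → M.V) :
    ptOp (Idx d n) f ((daha d M).x k m) = (daha d N).x k (ptOp (Idx d n) f m) := by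
  have e1 := daha_x M ⟨k, hk⟩
  have e2 := daha_x N ⟨k, hk⟩
  simp only at e1 e2
  have hp : ∀ (A : Mat n) (m : Idx d n → M.V), ptOp (Idx d n) f (ptOp (Idx d n) (M.ρ A) m) =
      ptOp (Idx d n) (N.ρ A) (ptOp (Idx d n) f m) := fun A m => funext fun i => hf A (m i)
  rw [e1, e2]
  simp only [xF, LinearMap.sum_apply, Module.End.mul_apply, LinearMap.add_apply, map_sum, map_add,
    ptOp_matOp, hp]

theorem ptOp_s {M N : GMod n} (f : M.V →ₗ[ℂ] N.V) {r : ℕ} (hr : r + 1 < d) (m : Idx d n → M.V) :
    ptOp (Idx d n) f ((daha d M).s r m) = (daha d N).s r (ptOp (Idx d n) f m) := by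
  rw [daha_s M hr, daha_s N hr]
  rfl

theorem sP_mem_H (M : GMod n) (w : Equiv.Perm (Fin d)) : sP M.V w ∈ (daha d M).H := by
  cases d with
  | zero =>
    rw [Subsingleton.elim w 1, sP_one]
    exact Subalgebra.one_mem _
  | succ d =>
    have hw : w ∈ Submonoid.closure
        (Set.range fun i : Fin d => Equiv.swap i.castSucc i.succ) := by
      rw [Equiv.Perm.mclosure_swap_castSucc_succ]
      trivial
    induction hw using Submonoid.closure_induction with
    | mem x hx =>
      obtain ⟨i, rfl⟩ := hx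
      have hi : (i : ℕ) + 1 < d + 1 := by omega
      refine Algebra.subset_adjoin (Or.inl (Or.inr ⟨i, hi, ?_⟩))
      rw [daha_s M hi]
      rfl
    | one =>
      rw [sP_one]
      exact Subalgebra.one_mem _
    | mul x y _ _ hx hy =>
      rw [sP_mul]
      exact Subalgebra.mul_mem _ hx hy

theorem G_stable (M : GMod n) (i : ℕ → ℤ) : (Ten (tpow n d) M).Stable ((daha d M).G i) := by
  exact stable_iInf fun k => (daha_x_hom M k.2).stable_gen _

theorem NN_stable (M : GMod n) (i : ℕ → ℤ) {J : List ℕ} (hJ : ∀ r ∈ J, r + 1 < d) :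
    (Ten (tpow n d) M).Stable ((daha d M).NN i J) := by
  exact (G_stable M i).inf (stable_iInf fun r =>
    ((daha_s_hom M (hJ r.1 r.2)).sub (isHom_id _)).stable_ker)

end Pool.Agent.KM
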