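import Pool.Agent.Lib.MP_515a76_al.GBasic

/-! Gelfand invariants and the quadratic Casimir element. -/

namespace Pool.Agent.KM

open Module

variable {n : ℕ}

/-- The triangular matrix governing the eigenvalues. -/
def Tm (a : Wt n) : Matrix (Fin n) (Fin n) ℂ :=
  fun i l => if i = l then ((a i + n - 1 : ℤ) : ℂ) else if i < l then -1 else 0

/-- The eigenvalue of the `k`-th Gelfand invariant. -/
noncomputable def chi (k : ℕ) (a : Wt n) : ℂ := ∑ i, ∑ l, (Tm a ^ k) i l

/-- The eigenvalue of the quadratic Casimir element. -/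
def chi2 (a : Wt n) : ℤ :=
  ∑ j : Fin n, (a j ^ 2 + ((n : ℤ) - 1) * a j + ((n : ℤ) - 1) * (j : ℕ) - ((j : ℕ) : ℤ) ^ 2)

namespace GelfA

open PowerSeries

theorem Tm_mul (a : Wt n) (t : Fin n → ℂ) (i : Fin n) : ∑ m, Tm a i m * t m =
    ((a i + n - 1 : ℤ) : ℂ) * t i - ∑ m, if i < m then t m else 0 := by
  rw [← Finset.sum_ite_eq_of_mem Finset.univ i (fun m => ((a i + n - 1 : ℤ) : ℂ) * t m)
    (Finset.mem_univ i), ← Finset.sum_sub_distrib]
  refine Finset.sum_congr rfl fun m _ => ?_
  rcases lt_trichotomy i m with h | rfl | h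
  · simp [Tm, h, h.ne]
  · simp [Tm]
  · simp [Tm, h.ne', h.not_gt]

theorem row_succ (a : Wt n) (k : ℕ) (i : Fin n) : ∑ l, (Tm a ^ (k + 1)) i l =
    ((a i + n - 1 : ℤ) : ℂ) * ∑ l, (Tm a ^ k) i l -
      ∑ m, if i < m then ∑ l, (Tm a ^ k) m l else 0 := by
  rw [← Tm_mul a fun m => ∑ l, (Tm a ^ k) m l]
  simp only [pow_succ', Matrix.mul_apply, Finset.mul_sum]
  exact Finset.sum_comm

theorem tele {R : Type} [CommRing R] (x : R) : ∀ (n : ℕ) (d S : Fin n → R),
    (∀ i, S i = 1 + x * (d i * S i - ∑ m, if i < m then S m else 0)) →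
    (1 - x * ∑ i, S i) * ∏ i, (1 - x * d i) = ∏ i, (1 - x * (d i + 1))
  | 0, _, _, _ => by simp
  | n + 1, d, S, h => by
    have h0 := h 0
    have ih := tele x n (fun i => d i.succ) (fun i => S i.succ) fun i => by
      simpa [Fin.sum_univ_succ] using h i.succ
    simp only [Fin.sum_univ_succ, lt_self_iff_false, if_false, Fin.succ_pos, if_true,
      zero_add] at h0
    rw [Fin.sum_univ_succ, Fin.prod_univ_succ, Fin.prod_univ_succ, ← ih]
    linear_combination (-x * ∏ i : Fin n, (1 - x * d i.succ)) * h0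

theorem gen_eq (a : Wt n) : (1 - X * mk fun k => chi k a) *
    ∏ i, (1 - X * C ((a i + n - 1 : ℤ) : ℂ)) = ∏ i, (1 - X * C ((a i + 1 + n - 1 : ℤ) : ℂ)) := by
  have h := tele (X : ℂ⟦X⟧) n (fun i => C ((a i + n - 1 : ℤ) : ℂ))
    (fun i => mk fun k => ∑ l, (Tm a ^ k) i l) fun i => by
      ext k
      rcases k with _ | k
      · simp [Matrix.one_apply]
      · rw [coeff_mk, row_succ, map_add, coeff_succ_X_mul, map_sub, coeff_C_mul, coeff_mk, map_sum]
        simp [coeff_one, apply_ite (coeff k)]
  rw [show (mk fun k => chi k a) = ∑ i, mk fun k => ∑ l, (Tm a ^ k) i l by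
    ext k; simp [chi], h]
  refine Finset.prod_congr rfl fun i _ => ?_
  rw [← map_one C, ← map_add]
  congr 3
  push_cast
  ring

theorem ms_eq {A B : Multiset ℂ} (hc : A.card = B.card)
    (h : (A.map fun x => (1 - X * C x : ℂ⟦X⟧)).prod = (B.map fun x => (1 - X * C x : ℂ⟦X⟧)).prod) :
    A = B := by
  have h1 : (A.map fun x => (1 - Polynomial.X * Polynomial.C x : Polynomial ℂ)).prod =
      (B.map fun x => (1 - Polynomial.X * Polynomial.C x : Polynomial ℂ)).prod := by
    apply Polynomial.coe_injective ℂ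
    simp only [← Polynomial.coeToPowerSeries.ringHom_apply, map_multiset_prod, Multiset.map_map,
      Function.comp_def, map_sub, map_mul, map_one]
    simpa only [Polynomial.coeToPowerSeries.ringHom_apply, Polynomial.coe_X, Polynomial.coe_C]
      using h
  have h2 : ∀ (u : ℂ), u ≠ 0 → ∀ A : Multiset ℂ,
      (A.map fun x => Polynomial.X - Polynomial.C x).prod.eval u = u ^ A.card *
      (A.map fun x => (1 - Polynomial.X * Polynomial.C x : Polynomial ℂ)).prod.eval u⁻¹ := by
    intro u hu A
    induction A using Multiset.induction_on with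
    | empty => simp
    | cons x A ih =>
      simp only [Multiset.map_cons, Multiset.prod_cons, Polynomial.eval_mul, ih, Multiset.card_cons,
        Polynomial.eval_sub, Polynomial.eval_X, Polynomial.eval_C, Polynomial.eval_one]
      field_simp
      ring
  rw [← Polynomial.roots_multiset_prod_X_sub_C A, ← Polynomial.roots_multiset_prod_X_sub_C B]
  exact congrArg _ (Polynomial.eq_of_infinite_eval_eq _ _
    ((Set.finite_singleton (0 : ℂ)).infinite_compl.mono
      fun u hu => by rw [Set.mem_ofPred_eq, h2 u hu, h2 u hu, h1, hc]))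

end GelfA

open GelfA

theorem chi2_congr {a b : Wt n} (h : cnt a = cnt b) : chi2 a = chi2 b := by
  obtain ⟨σ, rfl⟩ := (cnt_eq_iff a b).1 h
  simp only [chi2, Finset.sum_add_distrib, Finset.sum_sub_distrib]
  rw [Equiv.sum_comp σ fun j => a j ^ 2, Equiv.sum_comp σ fun j => ((n : ℤ) - 1) * a j]

theorem chi2_add_eps (a : Wt n) (j : Fin n) : chi2 (a + eps j) = chi2 a + 2 * a j + n := by
  rw [add_assoc, ← Finset.sum_ite_eq_of_mem Finset.univ j (fun _ => 2 * a j + n)
    (Finset.mem_univ j), chi2, chi2, ← Finset.sum_add_distrib]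
  refine Finset.sum_congr rfl fun i _ => ?_
  by_cases h : j = i
  · subst h
    simp
    ring
  · simp [h, Ne.symm h]

theorem chi2_sub_eps (a : Wt n) (j : Fin n) : chi2 (a - eps j) = chi2 a - 2 * a j - n + 2 := by
  have := chi2_add_eps (a - eps j) j
  simp only [sub_add_cancel, Pi.sub_apply, Pi.single_eq_same] at this
  linarith

/-- Linkage: the eigenvalues determine the block. -/
theorem cnt_eq_of_chi {a b : Wt n} (h : ∀ k, chi k a = chi k b) : cnt a = cnt b := by
  have h1 := gen_eq a
  have h2 := gen_eq b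
  simp only [h] at h1
  have h3 : (Finset.univ.val.map fun i => a i + 1) + Finset.univ.val.map b =
      (Finset.univ.val.map fun i => b i + 1) + Finset.univ.val.map a := by
    refine Multiset.map_injective (f := fun z : ℤ => ((z + n - 1 : ℤ) : ℂ))
      (fun x y e => by simpa using e) (ms_eq (by simp) ?_)
    simp only [Multiset.map_add, Multiset.map_map, Multiset.prod_add, Function.comp_def,
      ← Finset.prod_eq_multiset_prod, ← h1, ← h2]
    ring
  have h4 : ∀ c, cnt a (c + 1) - cnt b (c + 1) = cnt a c - cnt b c := fun c => by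
    have := congrArg (Multiset.count (c + 1)) h3
    simp only [Multiset.count_add, Multiset.count_map, add_left_inj, ← Finset.filter_val,
      Finset.card_val, eq_comm (a := c + 1)] at this
    simp only [cnt]
    omega
  have h5 : ∀ c, cnt a c - cnt b c = cnt a 0 - cnt b 0 := fun c => by
    induction c using Int.induction_on with
    | zero => rfl
    | succ i ih => rw [h4, ih]
    | pred i ih => rw [← h4, sub_add_cancel, ih]
  obtain ⟨c, hc⟩ := Infinite.exists_notMem_finset (Finset.univ.image a ∪ Finset.univ.image b)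
  have h6 : cnt a c - cnt b c = 0 := by
    simp only [Finset.mem_union, Finset.mem_image, Finset.mem_univ, true_and, not_or,
      not_exists] at hc
    simp [cnt, hc.1, hc.2]
  exact funext fun x => sub_eq_zero.1 ((h5 x).trans ((h5 c).symm.trans h6))

namespace GMod

/-- The matrix of generators. -/
def EE (M : GMod n) : Matrix (Fin n) (Fin n) (End ℂ M.V) := fun a b => M.E a b

/-- The Gelfand invariants. -/
noncomputable def z (M : GMod n) (k : ℕ) : End ℂ M.V := (M.EE ^ k).trace

/-- The quadratic Casimir element. -/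
noncomputable def cas (M : GMod n) : End ℂ M.V := ∑ a, ∑ b, M.E a b * M.E b a

theorem EE_succ (M : GMod n) (k : ℕ) (c d : Fin n) :
    (M.EE ^ (k + 1)) c d = ∑ l, M.E c l * (M.EE ^ k) l d := by
  rw [pow_succ', Matrix.mul_apply]
  rfl

theorem E_comm_EE (M : GMod n) (a b : Fin n) (k : ℕ) : ∀ c d, M.E a b * (M.EE ^ k) c d =
    (M.EE ^ k) c d * M.E a b + (if b = c then (M.EE ^ k) a d else 0) -
      if d = a then (M.EE ^ k) c b else 0 := by
  induction k with
  | zero =>
    intro c d
    simp only [pow_zero, Matrix.one_apply]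
    rw [mul_ite, ite_mul, mul_one, one_mul, mul_zero, zero_mul, add_sub_assoc, left_eq_add,
      sub_eq_zero]
    split_ifs <;> first | rfl | (subst_vars; contradiction)
  | succ k ih =>
    intro c d
    have h : ∀ l, M.E a b * (M.E c l * (M.EE ^ k) l d) = M.E c l * (M.EE ^ k) l d * M.E a b +
        (if b = c then M.E a l * (M.EE ^ k) l d else 0) - (if d = a then M.E c l * (M.EE ^ k) l b
        else 0) + ((if b = l then M.E c l * (M.EE ^ k) a d else 0) -
        if l = a then M.E c b * (M.EE ^ k) l d else 0) := fun l => by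
      rw [← mul_assoc, sub_eq_iff_eq_add.1 (M.E_comm a b c l), add_mul, mul_assoc, ih]
      simp only [sub_mul, mul_sub, mul_add, ite_mul, mul_ite, zero_mul, mul_zero, mul_assoc]
      abel
    simp only [EE_succ, Finset.mul_sum, Finset.sum_mul, h, Finset.sum_add_distrib,
      Finset.sum_sub_distrib, Finset.sum_ite_eq, Finset.sum_ite_eq', Finset.mem_univ, if_true,
      sub_self, add_zero, Finset.sum_ite_irrel, Finset.sum_const_zero]

theorem IsHom.EE {M N : GMod n} {f : M.V →ₗ[ℂ] N.V} (hf : M.IsHom N f) (k : ℕ) (v : M.V) :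
    ∀ c d, f ((M.EE ^ k) c d v) = (N.EE ^ k) c d (f v) := by
  induction k with
  | zero =>
    intro c d
    simp only [pow_zero, Matrix.one_apply]
    split_ifs <;> simp
  | succ k ih =>
    intro c d
    simp only [EE_succ, LinearMap.sum_apply, map_sum, End.mul_apply, hf _ _, ih]

theorem Sing.EE {M : GMod n} {a : Wt n} {v : M.V} (hv : M.Sing a v) (k : ℕ) (i : Fin n) :
    (∀ l < i, (M.EE ^ k) l i v = 0) ∧ (M.EE ^ k) i i v = (∑ l, (Tm a ^ k) i l) • v := by
  induction k generalizing i with
  | zero => exact ⟨fun l hl => by simp [hl.ne], by simp [Matrix.one_apply]⟩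
  | succ k ih =>
    have h : ∀ l m, l < m → M.E l m ((M.EE ^ k) m i v) =
        (M.EE ^ k) l i v - if i = l then (M.EE ^ k) m m v else 0 := fun l m h => by
      have := congrArg (fun T : End ℂ M.V => T v) (M.E_comm_EE l m k m i)
      simpa [hv.2 l m h, apply_ite (fun T : End ℂ M.V => T v)] using this
    simp only [EE_succ, LinearMap.sum_apply, End.mul_apply]
    refine ⟨fun l hl => Finset.sum_eq_zero fun m _ => ?_, ?_⟩
    · rcases lt_trichotomy m i with hm | rfl | hm
      · rw [(ih i).1 m hm, map_zero]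
      · rw [(ih m).2, map_smul, hv.2 l m hl, smul_zero]
      · rw [h l m (hl.trans hm), if_neg hl.ne', (ih i).1 l hl, sub_zero]
    · have h1 : ∀ m, M.E i m ((M.EE ^ k) m i v) = ((if i = m then ((a i + (i : ℕ) : ℤ) : ℂ) *
          ∑ l, (Tm a ^ k) i l else 0) + (if i < m then ∑ l, (Tm a ^ k) i l else 0) -
          if i < m then ∑ l, (Tm a ^ k) m l else 0) • v := fun m => by
        rcases lt_trichotomy m i with hm | rfl | hm
        · simp [(ih i).1 m hm, hm.ne', hm.not_gt]
        · simp [(ih m).2, (M.mem_W a v).1 hv.1 m, smul_smul, mul_comm]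
        · simp [h i m hm, hm, hm.ne, (ih i).2, (ih m).2, sub_smul]
      have h2 : (Finset.univ.filter fun m => i < m).card + (i : ℕ) + 1 = n := by
        have := i.2
        rw [Finset.filter_lt_eq_Ioi, Fin.card_Ioi]
        omega
      simp only [h1, ← Finset.sum_smul, row_succ, Finset.sum_add_distrib, Finset.sum_sub_distrib,
        Finset.sum_ite_eq, Finset.mem_univ, if_true, ← Finset.sum_filter, Finset.sum_const,
        nsmul_eq_mul]
      have h3 := congrArg (Nat.cast : ℕ → ℂ) h2
      congr 2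
      push_cast at h3 ⊢
      linear_combination (∑ l, (Tm a ^ k) i l) * h3

theorem cas_eq_z_two (M : GMod n) : M.cas = M.z 2 := by
  simp only [cas, z, Matrix.trace, Matrix.diag, EE_succ M 1, pow_one]
  rfl

theorem z_hom (M : GMod n) (k : ℕ) : M.IsHom M (M.z k) := by
  refine isHom_of_E fun a b v => ?_
  have : M.E a b * M.z k = M.z k * M.E a b := by
    simp [z, Matrix.trace, Finset.mul_sum, Finset.sum_mul, E_comm_EE, Finset.sum_add_distrib]
  exact (congrArg (fun T : End ℂ M.V => T v) this).symm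

theorem IsHom.z {M N : GMod n} {f : M.V →ₗ[ℂ] N.V} (hf : M.IsHom N f) (k : ℕ) (v : M.V) :
    f (M.z k v) = N.z k (f v) := by
  simp only [GMod.z, Matrix.trace, Matrix.diag, LinearMap.sum_apply, map_sum, hf.EE]

theorem Sing.z {M : GMod n} {a : Wt n} {v : M.V} (hv : M.Sing a v) (k : ℕ) :
    M.z k v = chi k a • v := by
  simp only [GMod.z, Matrix.trace, Matrix.diag, LinearMap.sum_apply, (hv.EE k _).2, chi,
    ← Finset.sum_smul]

theorem cas_hom (M : GMod n) : M.IsHom M M.cas := by
  rw [cas_eq_z_two]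
  exact M.z_hom 2

theorem IsHom.cas {M N : GMod n} {f : M.V →ₗ[ℂ] N.V} (hf : M.IsHom N f) (v : M.V) :
    f (M.cas v) = N.cas (f v) := by
  rw [cas_eq_z_two, cas_eq_z_two, hf.z]

theorem Sing.cas {M : GMod n} {a : Wt n} {v : M.V} (hv : M.Sing a v) :
    M.cas v = ((chi2 a : ℤ) : ℂ) • v := by
  rw [cas_eq_z_two, hv.z]
  congr 1
  have h1 : ∀ i, ∑ l, (Tm a ^ 1) i l = ((a i + (i : ℕ) : ℤ) : ℂ) := fun i => by
    have h2 : (Finset.univ.filter fun m => i < m).card + (i : ℕ) + 1 = n := by
      have := i.2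
      rw [Finset.filter_lt_eq_Ioi, Fin.card_Ioi]
      omega
    have h3 := congrArg (Nat.cast : ℕ → ℂ) h2
    simp only [row_succ a 0, pow_zero, Matrix.one_apply, Finset.sum_ite_eq, Finset.mem_univ, if_true,
      Finset.sum_boole]
    push_cast at h3 ⊢
    linear_combination -h3
  rw [chi2, Int.cast_sum]
  simp only [chi, row_succ a 1, h1]
  rw [Finset.sum_sub_distrib, Finset.sum_comm, ← Finset.sum_sub_distrib]
  refine Finset.sum_congr rfl fun i _ => ?_
  rw [← Finset.sum_filter, Finset.sum_const, Finset.filter_gt_eq_Iio, Fin.card_Iio, nsmul_eq_mul]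
  push_cast
  ring

end GMod

end Pool.Agent.KM
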