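import Pool.Agent.Lib.MP_515a76_al.KWords
import Pool.Agent.Lib.MP_515a76_al.KEq

/-! The spanning theorem for KLR representations and its consequences. -/

namespace Pool.Agent.KM

/-! ### Colours, degrees and lengths of words -/

theorem sp_sw_left (r : ℕ) (i : ℕ → ℤ) : sw r i r = i (r + 1) := by
  simp [sw]

theorem sp_sw_right (r : ℕ) (i : ℕ → ℤ) : sw r i (r + 1) = i r := by
  simp [sw]

theorem sp_sw_other (r : ℕ) (i : ℕ → ℤ) {k : ℕ} (h1 : k ≠ r) (h2 : k ≠ r + 1) :
    sw r i k = i k := by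
  simp [sw, Equiv.swap_apply_of_ne_of_ne h1 h2]

theorem sp_sw_apply (r : ℕ) (i : ℕ → ℤ) (k : ℕ) :
    sw r i k = if k = r then i (r + 1) else if k = r + 1 then i r else i k := by
  split_ifs with h1 h2
  · rw [h1, sp_sw_left]
  · rw [h2, sp_sw_right]
  · exact sp_sw_other r i h1 h2

theorem sp_sw_sw (r : ℕ) (i : ℕ → ℤ) : sw r (sw r i) = i := by
  funext k
  simp [sw]

theorem sp_sw_eq {r : ℕ} {i : ℕ → ℤ} (h : i r = i (r + 1)) : sw r i = i := by
  funext k
  rw [sp_sw_apply]
  split_ifs with h1 h2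
  · rw [h1, h]
  · rw [h2, h]
  · rfl

theorem sp_sw_far {r t : ℕ} (h : r + 1 < t) (i : ℕ → ℤ) : sw t (sw r i) = sw r (sw t i) := by
  funext k
  simp only [sp_sw_apply]
  split_ifs <;> first | rfl | omega

theorem sp_sw_braid (r : ℕ) (i : ℕ → ℤ) :
    sw r (sw (r + 1) (sw r i)) = sw (r + 1) (sw r (sw (r + 1) i)) := by
  funext k
  simp only [sp_sw_apply]
  split_ifs <;> first | rfl | omega

theorem sp_sw_braid_eq {r : ℕ} {i : ℕ → ℤ} (h : i r = i (r + 2)) :
    sw r (sw (r + 1) (sw r i)) = i := by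
  funext k
  simp only [sp_sw_apply]
  split_ifs with h1 h2 h3 h4 h5 h6 h7 h8 h9 <;> first | rfl | omega | skip
  all_goals subst_vars
  all_goals first | rfl | exact h | exact h.symm

theorem sp_swap_lt {d r k : ℕ} (hr : r + 1 < d) (hk : k < d) : Equiv.swap r (r + 1) k < d := by
  rw [Equiv.swap_apply_def]
  split_ifs <;> omega

/-- The number of `ψ`-letters. -/
def spNp : List Let → ℕ
  | [] => 0
  | .y _ :: w => spNp w
  | .p _ :: w => spNp w + 1

theorem sp_np_append (u v : List Let) : spNp (u ++ v) = spNp u + spNp v := by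
  induction u with
  | nil => simp [spNp]
  | cons l u ih => cases l <;> simp [spNp, ih]; omega

theorem sp_np_y (ys : List ℕ) : spNp (ys.map Let.y) = 0 := by
  induction ys with
  | nil => rfl
  | cons k ys ih => simpa [spNp] using ih

theorem sp_np_p (u : List ℕ) : spNp (u.map Let.p) = u.length := by
  induction u with
  | nil => rfl
  | cons k u ih => simpa [spNp] using ih

theorem sp_valid_append {d : ℕ} {u v : List Let} : Valid d (u ++ v) ↔ Valid d u ∧ Valid d v := by
  simp only [Valid, List.mem_append]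
  exact ⟨fun h => ⟨fun l hl => h l (Or.inl hl), fun l hl => h l (Or.inr hl)⟩,
    fun h l hl => hl.elim (h.1 l) (h.2 l)⟩

theorem sp_valid_nil {d : ℕ} : Valid d [] := by
  simp [Valid]

theorem sp_valid_y {d k : ℕ} {v : List Let} : Valid d (.y k :: v) ↔ k < d ∧ Valid d v := by
  simp [Valid, Let.ok]

theorem sp_valid_p {d r : ℕ} {v : List Let} : Valid d (.p r :: v) ↔ r + 1 < d ∧ Valid d v := by
  simp [Valid, Let.ok]

theorem sp_valid_map_y {d : ℕ} {ys : List ℕ} : Valid d (ys.map Let.y) ↔ ∀ k ∈ ys, k < d := by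
  simp [Valid, Let.ok]

theorem sp_valid_map_p {d : ℕ} {u : List ℕ} : Valid d (u.map Let.p) ↔ ValidP d u := by
  simp [Valid, Let.ok, ValidP]

theorem sp_tgt_y (i : ℕ → ℤ) (ys : List ℕ) : tgt i (ys.map Let.y) = i := by
  induction ys with
  | nil => rfl
  | cons k ys ih => simpa [tgt] using ih

theorem sp_deg_y (i : ℕ → ℤ) (ys : List ℕ) : deg i (ys.map Let.y) = ys.length := by
  induction ys with
  | nil => rfl
  | cons k ys ih => simp [deg, ih]; omega

theorem sp_tgt_nw (i : ℕ → ℤ) (ys u : List ℕ) : tgt i (nw ys u) = tgt i (u.map Let.p) := by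
  rw [nw, tgt_append, sp_tgt_y]

theorem sp_deg_nw (i : ℕ → ℤ) (ys u : List ℕ) :
    deg i (nw ys u) = ys.length + deg i (u.map Let.p) := by
  rw [nw, deg_append, sp_tgt_y, sp_deg_y]

theorem sp_invWt_bd (a b : ℤ) : -1 ≤ invWt a b ∧ invWt a b ≤ 1 := by
  unfold invWt
  split_ifs <;> omega

theorem sp_deg_p_bd (u : List ℕ) (i : ℕ → ℤ) :
    -(u.length : ℤ) ≤ deg i (u.map Let.p) ∧ deg i (u.map Let.p) ≤ u.length := by
  induction u generalizing i with
  | nil => simp [deg]
  | cons r u ih =>
    have h1 := ih (sw r i)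
    have h2 := sp_invWt_bd (i (r + 1)) (i r)
    simp only [List.map_cons, deg, List.length_cons, Nat.cast_add, Nat.cast_one]
    omega

end Pool.Agent.KM

namespace Pool.Agent.KM.KLR

variable {d : ℕ} {X : Type} [AddCommGroup X] [Module ℂ X] (K : KLR d X)

theorem ev_append (u v : List Let) : K.ev (u ++ v) = K.ev v * K.ev u := by
  induction u with
  | nil => simp [ev]
  | cons l u ih => simp [ev, ih, mul_assoc]

theorem sp_ev_nil (m : X) : K.ev [] m = m := rfl

theorem sp_ev_y (k : ℕ) (w : List Let) (m : X) : K.ev (.y k :: w) m = K.ev w (K.y k m) := rfl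

theorem sp_ev_p (r : ℕ) (w : List Let) (m : X) : K.ev (.p r :: w) m = K.ev w (K.ψ r m) := rfl

theorem sp_ev_append_apply (u v : List Let) (m : X) : K.ev (u ++ v) m = K.ev v (K.ev u m) := by
  rw [ev_append]; rfl

theorem ev_mem (i : ℕ → ℤ) {w : List Let} (hw : Valid d w) {m : X} (hm : m ∈ K.G i) :
    K.ev w m ∈ K.G (tgt i w) := by
  induction w generalizing i m with
  | nil => exact hm
  | cons l w ih =>
    cases l with
    | y k =>
      rw [sp_valid_y] at hw
      exact ih i hw.2 (K.y_mem i k hw.1 m hm)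
    | p r =>
      rw [sp_valid_p] at hw
      exact ih (sw r i) hw.2 (K.p_mem i r hw.1 m hm)

theorem mem_N (i : ℕ → ℤ) (J : List ℕ) (m : X) :
    m ∈ K.N i J ↔ m ∈ K.G i ∧ ∀ r ∈ J, K.ψ r m = 0 := by
  simp [N, Submodule.mem_iInf]

/-- The span of the restricted good words with given degree and target. -/
noncomputable def spVG (i : ℕ → ℤ) (J : List ℕ) (δ : ℤ) (j : ℕ → ℤ) :
    Submodule ℂ (K.N i J →ₗ[ℂ] X) :=
  Submodule.span ℂ
    {T | ∃ ys u, (∀ k ∈ ys, k < d) ∧ ValidP d u ∧ K.Good i J u ∧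
      deg i (nw ys u) = δ ∧ tgt i (nw ys u) = j ∧ T = (K.ev (nw ys u)).domRestrict (K.N i J)}

/-- The restricted word lies in the span of good words. -/
def spIn (i : ℕ → ℤ) (J : List ℕ) (w : List Let) : Prop :=
  (K.ev w).domRestrict (K.N i J) ∈ K.spVG i J (deg i w) (tgt i w)

/-- All valid words with fewer than `n` letters `ψ` lie in the span. -/
def spLow (i : ℕ → ℤ) (J : List ℕ) (n : ℕ) : Prop := ∀ w, Valid d w → spNp w < n → K.spIn i J w

variable {K}

theorem sp_in_zero {i : ℕ → ℤ} {J : List ℕ} {w : List Let}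
    (h : ∀ m ∈ K.N i J, K.ev w m = 0) : K.spIn i J w := by
  have : (K.ev w).domRestrict (K.N i J) = 0 := LinearMap.ext fun m => h m.1 m.2
  unfold spIn
  rw [this]
  exact Submodule.zero_mem _

/-- Replace a segment `a` by `b` up to a multiple of the empty segment. -/
theorem sp_in_congr {i : ℕ → ℤ} {J : List ℕ} {n : ℕ} (hL : K.spLow i J n) (pre a b post : List Let)
    (c : ℂ) (hpre : Valid d pre) (hpost : Valid d post) (hn : c ≠ 0 → spNp pre + spNp post < n)
    (hdeg : deg (tgt i pre) a = deg (tgt i pre) b) (htgt : tgt (tgt i pre) a = tgt (tgt i pre) b)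
    (hc : c ≠ 0 → deg (tgt i pre) a = 0 ∧ tgt (tgt i pre) a = tgt i pre)
    (hev : ∀ m ∈ K.G (tgt i pre), K.ev a m = K.ev b m + c • m) :
    K.spIn i J (pre ++ a ++ post) ↔ K.spIn i J (pre ++ b ++ post) := by
  have hd : deg i (pre ++ a ++ post) = deg i (pre ++ b ++ post) := by
    simp only [deg_append, tgt_append, hdeg, htgt]
  have ht : tgt i (pre ++ a ++ post) = tgt i (pre ++ b ++ post) := by
    simp only [tgt_append, htgt]
  have hE : c • (K.ev (pre ++ post)).domRestrict (K.N i J) ∈
      K.spVG i J (deg i (pre ++ b ++ post)) (tgt i (pre ++ b ++ post)) := by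
    by_cases h0 : c = 0
    · rw [h0, zero_smul]; exact Submodule.zero_mem _
    · have h1 := hL (pre ++ post) (sp_valid_append.2 ⟨hpre, hpost⟩)
        (by rw [sp_np_append]; exact hn h0)
      have e1 : deg i (pre ++ b ++ post) = deg i (pre ++ post) := by
        rw [← hd]
        simp only [deg_append, tgt_append, (hc h0).1, (hc h0).2, add_zero]
      have e2 : tgt i (pre ++ b ++ post) = tgt i (pre ++ post) := by
        rw [← ht]
        simp only [tgt_append, (hc h0).2]
      rw [e1, e2]
      exact Submodule.smul_mem _ _ h1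
  have hR : (K.ev (pre ++ a ++ post)).domRestrict (K.N i J) =
      (K.ev (pre ++ b ++ post)).domRestrict (K.N i J) +
        c • (K.ev (pre ++ post)).domRestrict (K.N i J) := by
    refine LinearMap.ext fun m => ?_
    have hm : K.ev pre m.1 ∈ K.G (tgt i pre) := K.ev_mem i hpre ((K.mem_N i J m.1).1 m.2).1
    simp only [LinearMap.domRestrict_apply, LinearMap.add_apply, LinearMap.smul_apply,
      sp_ev_append_apply, hev _ hm, map_add, map_smul]
  unfold spIn
  rw [hd, ht, hR]
  exact Submodule.add_mem_iff_left _ hE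

/-- Move a letter `y` past a letter `ψ`. -/
theorem sp_in_yp {i : ℕ → ℤ} {J : List ℕ} {n : ℕ} (hL : K.spLow i J n) (pre post : List Let)
    {r k : ℕ} (hr : r + 1 < d) (hk : k < d) (hpre : Valid d pre) (hpost : Valid d post)
    (hn : spNp pre + spNp post < n) :
    K.spIn i J (pre ++ .y k :: .p r :: post) ↔
      K.spIn i J (pre ++ .p r :: .y (Equiv.swap r (r + 1) k) :: post) := by
  have := sp_in_congr hL pre [.y k, .p r] [.p r, .y (Equiv.swap r (r + 1) k)] post
    (errY (tgt i pre) r k) hpre hpost (fun _ => hn) (by simp [deg]; omega) (by simp [tgt])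
    (by
      intro hc
      have he : tgt i pre r = tgt i pre (r + 1) := by
        by_contra hne
        exact hc (by simp [errY, hne])
      refine ⟨?_, ?_⟩
      · simp [deg, invWt, he]
      · simp only [tgt]; exact sp_sw_eq he)
    (fun m hm => K.py _ r k hr hk m hm)
  simpa using this

/-- Move a letter `y` past a word in the `ψ`. -/
theorem sp_in_y_front {i : ℕ → ℤ} {J : List ℕ} {n : ℕ} (hL : K.spLow i J n) (u : List ℕ)
    (hu : ValidP d u) (post : List Let) (hpost : Valid d post) {k : ℕ} (hk : k < d) :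
    ∃ k' < d, ∀ pre, Valid d pre → spNp pre + u.length + spNp post ≤ n →
      (K.spIn i J (pre ++ .y k' :: u.map Let.p ++ post) ↔
        K.spIn i J (pre ++ u.map Let.p ++ .y k :: post)) := by
  induction u with
  | nil => exact ⟨k, hk, fun pre _ _ => by simp⟩
  | cons r u ih =>
    have hr : r + 1 < d := hu r (by simp)
    have hu' : ValidP d u := fun t ht => hu t (by simp [ht])
    obtain ⟨k1, hk1, h1⟩ := ih hu'
    refine ⟨Equiv.swap r (r + 1) k1, sp_swap_lt hr hk1, fun pre hpre hn => ?_⟩
    have h2 := h1 (pre ++ [.p r]) (sp_valid_append.2 ⟨hpre, sp_valid_p.2 ⟨hr, sp_valid_nil⟩⟩)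
      (by simp only [sp_np_append, spNp, List.length_cons] at hn ⊢; omega)
    have h3 := sp_in_yp hL pre (u.map Let.p ++ post) hr (sp_swap_lt hr hk1) hpre
      (sp_valid_append.2 ⟨sp_valid_map_p.2 hu', hpost⟩)
      (by simp only [sp_np_append, sp_np_p, List.length_cons] at hn ⊢; omega)
    rw [Equiv.swap_apply_self] at h3
    simp only [List.map_cons, List.cons_append, List.append_assoc, List.nil_append] at h2 h3 ⊢
    rw [h3, h2]

/-- Reduction to normal words. -/
theorem sp_in_of_nw {i : ℕ → ℤ} {J : List ℕ} {n : ℕ} (hL : K.spLow i J n)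
    (H : ∀ ys u, (∀ k ∈ ys, k < d) → ValidP d u → u.length ≤ n → K.spIn i J (nw ys u))
    (w : List Let) (hw : Valid d w) (ys u : List ℕ) (hys : ∀ k ∈ ys, k < d) (hu : ValidP d u)
    (hn : u.length + spNp w ≤ n) : K.spIn i J (nw ys u ++ w) := by
  induction w generalizing ys u with
  | nil => simpa using H ys u hys hu (by simpa [spNp] using hn)
  | cons l w ih =>
    cases l with
    | y k =>
      rw [sp_valid_y] at hw
      obtain ⟨k', hk', h1⟩ := sp_in_y_front hL u hu w hw.2 hw.1
      have h2 := h1 (ys.map Let.y) (sp_valid_map_y.2 hys)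
        (by simp only [sp_np_y, spNp] at hn ⊢; omega)
      have h3 := ih hw.2 (ys ++ [k']) u
        (by
          intro t ht
          rcases List.mem_append.1 ht with ht | ht
          · exact hys t ht
          · rw [List.mem_singleton.1 ht]; exact hk') hu (by simpa [spNp] using hn)
      simp only [nw, List.map_append, List.map_cons, List.map_nil, List.cons_append,
        List.append_assoc, List.nil_append] at h2 h3 ⊢
      exact h2.1 h3
    | p r =>
      rw [sp_valid_p] at hw
      have h3 := ih hw.2 ys (u ++ [r]) hys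
        (by
          intro t ht
          rcases List.mem_append.1 ht with ht | ht
          · exact hu t ht
          · rw [List.mem_singleton.1 ht]; exact hw.1)
        (by simp only [spNp, List.length_append, List.length_cons, List.length_nil] at hn ⊢; omega)
      simpa [nw] using h3

theorem sp_in_brStep {i : ℕ → ℤ} {J : List ℕ} {n : ℕ} (hL : K.spLow i J n) {ys : List ℕ}
    (hys : ∀ k ∈ ys, k < d) {a b : List ℕ} (h : BrStep a b) (ha : ValidP d a)
    (hn : a.length ≤ n) : K.spIn i J (nw ys a) ↔ K.spIn i J (nw ys b) := by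
  cases h with
  | far u v r t hrt =>
    have hu : ValidP d u := fun x hx => ha x (by simp [hx])
    have hv : ValidP d v := fun x hx => ha x (by simp [hx])
    have ht : t + 1 < d := ha t (by simp)
    have := sp_in_congr hL (nw ys u) [.p r, .p t] [.p t, .p r] (v.map Let.p) 0
      (sp_valid_append.2 ⟨sp_valid_map_y.2 hys, sp_valid_map_p.2 hu⟩) (sp_valid_map_p.2 hv)
      (fun h => absurd rfl h)
      (by
        simp only [deg]
        rw [sp_sw_other r _ (by omega : t + 1 ≠ r) (by omega), sp_sw_other r _ (by omega : t ≠ r)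
          (by omega), sp_sw_other t _ (by omega : r + 1 ≠ t) (by omega),
          sp_sw_other t _ (by omega : r ≠ t) (by omega)]
        omega)
      (by simp only [tgt]; exact sp_sw_far hrt _)
      (fun h => absurd rfl h)
      (fun m hm => by
        simp only [sp_ev_p, sp_ev_nil, zero_smul, add_zero]
        exact (K.far _ r t hrt ht m hm).symm)
    simpa [nw] using this
  | braid u v r =>
    have hu : ValidP d u := fun x hx => ha x (by simp [hx])
    have hv : ValidP d v := fun x hx => ha x (by simp [hx])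
    have ht : r + 2 < d := ha (r + 1) (by simp)
    have := sp_in_congr hL (nw ys u) [.p r, .p (r + 1), .p r] [.p (r + 1), .p r, .p (r + 1)]
      (v.map Let.p) (errB (tgt i (nw ys u)) r)
      (sp_valid_append.2 ⟨sp_valid_map_y.2 hys, sp_valid_map_p.2 hu⟩) (sp_valid_map_p.2 hv)
      (by
        intro _
        simp only [nw, sp_np_append, sp_np_y, sp_np_p, List.length_append, List.length_cons] at hn ⊢
        omega)
      (by
        have e1 : r ≠ r + 1 + 1 := by omega
        have e2 : r + 1 + 1 ≠ r := by omega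
        simp only [deg, sp_sw_apply]
        simp [e1, e2]
        omega)
      (by simp only [tgt]; exact sp_sw_braid r _)
      (by
        intro hc
        have he : tgt i (nw ys u) r = tgt i (nw ys u) (r + 2) := by
          by_contra hne
          exact hc (by simp [errB, hne])
        have he2 : tgt i (nw ys u) (r + 1) = tgt i (nw ys u) r + 1 ∨
            tgt i (nw ys u) (r + 1) = tgt i (nw ys u) r - 1 := by
          by_contra hne
          rw [not_or] at hne
          exact hc (by simp only [errB, if_pos he, if_neg hne.1, if_neg hne.2])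
        refine ⟨?_, ?_⟩
        · simp only [deg, sp_sw_apply]
          simp
          have e : r + 1 + 1 = r + 2 := rfl
          rw [e, ← he]
          unfold invWt
          split_ifs <;> omega
        · simp only [tgt]; exact sp_sw_braid_eq he)
      (fun m hm => K.braid _ r ht m hm)
    simpa [nw] using this

theorem sp_in_br {i : ℕ → ℤ} {J : List ℕ} {n : ℕ} (hL : K.spLow i J n) {ys : List ℕ}
    (hys : ∀ k ∈ ys, k < d) {a b : List ℕ} (h : Br a b) (ha : ValidP d a)
    (hn : a.length ≤ n) : K.spIn i J (nw ys a) ↔ K.spIn i J (nw ys b) := by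
  induction h with
  | rel a b h => exact sp_in_brStep hL hys h ha hn
  | refl a => exact Iff.rfl
  | symm a b h ih =>
    have h' : Br a b := h
    exact (ih (h'.valid.2 ha) (by rw [h'.length_eq]; exact hn)).symm
  | trans a b c h1 h2 ih1 ih2 =>
    have h' : Br a b := h1
    exact (ih1 ha hn).trans (ih2 (h'.valid.1 ha) (by rw [← h'.length_eq]; exact hn))

/-- A word containing `ψ_r ψ_r`. -/
theorem sp_in_sq {i : ℕ → ℤ} {J : List ℕ} {n : ℕ} (hL : K.spLow i J n) (pre post : List Let)
    {r : ℕ} (hr : r + 1 < d) (hpre : Valid d pre) (hpost : Valid d post)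
    (hn : spNp pre + spNp post < n) : K.spIn i J (pre ++ .p r :: .p r :: post) := by
  have hmem : ∀ m : K.N i J, K.ev pre m.1 ∈ K.G (tgt i pre) :=
    fun m => K.ev_mem i hpre ((K.mem_N i J m.1).1 m.2).1
  have htg : tgt i (pre ++ .p r :: .p r :: post) = tgt i (pre ++ post) := by
    simp only [tgt_append, tgt, sp_sw_sw]
  have hY : ∀ k < d, invWt (tgt i pre (r + 1)) (tgt i pre r) +
      invWt (tgt i pre r) (tgt i pre (r + 1)) = 1 →
      (K.ev (pre ++ .y k :: post)).domRestrict (K.N i J) ∈
        K.spVG i J (deg i (pre ++ .p r :: .p r :: post)) (tgt i (pre ++ .p r :: .p r :: post)) := by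
    intro k hk h1
    have h2 := hL (pre ++ .y k :: post) (sp_valid_append.2 ⟨hpre, sp_valid_y.2 ⟨hk, hpost⟩⟩)
      (by simpa [sp_np_append, spNp] using hn)
    have e1 : deg i (pre ++ .p r :: .p r :: post) = deg i (pre ++ .y k :: post) := by
      simp only [deg_append, deg, sp_sw_sw, sp_sw_left, sp_sw_right]
      omega
    have e2 : tgt i (pre ++ .p r :: .p r :: post) = tgt i (pre ++ .y k :: post) := by
      simp only [tgt_append, tgt, sp_sw_sw]
    rw [e1, e2]
    exact h2
  by_cases h0 : tgt i pre r = tgt i pre (r + 1)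
  · refine sp_in_zero fun m hm => ?_
    rw [sp_ev_append_apply, sp_ev_p, sp_ev_p, K.sq _ r hr _ (hmem ⟨m, hm⟩), if_pos h0, map_zero]
  by_cases h1 : tgt i pre r - tgt i pre (r + 1) = -1
  · have hw : invWt (tgt i pre (r + 1)) (tgt i pre r) +
        invWt (tgt i pre r) (tgt i pre (r + 1)) = 1 := by
      unfold invWt
      split_ifs <;> omega
    have hR : (K.ev (pre ++ .p r :: .p r :: post)).domRestrict (K.N i J) =
        (K.ev (pre ++ .y r :: post)).domRestrict (K.N i J) -
          (K.ev (pre ++ .y (r + 1) :: post)).domRestrict (K.N i J) := by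
      refine LinearMap.ext fun m => ?_
      simp only [LinearMap.domRestrict_apply, LinearMap.sub_apply, sp_ev_append_apply, sp_ev_p, sp_ev_y]
      rw [K.sq _ r hr _ (hmem m), if_neg h0, if_pos h1, map_sub]
    unfold spIn
    rw [hR]
    exact Submodule.sub_mem _ (hY r (by omega) hw) (hY (r + 1) hr hw)
  by_cases h2 : tgt i pre r - tgt i pre (r + 1) = 1
  · have hw : invWt (tgt i pre (r + 1)) (tgt i pre r) +
        invWt (tgt i pre r) (tgt i pre (r + 1)) = 1 := by
      unfold invWt
      split_ifs <;> omega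
    have hR : (K.ev (pre ++ .p r :: .p r :: post)).domRestrict (K.N i J) =
        (K.ev (pre ++ .y (r + 1) :: post)).domRestrict (K.N i J) -
          (K.ev (pre ++ .y r :: post)).domRestrict (K.N i J) := by
      refine LinearMap.ext fun m => ?_
      simp only [LinearMap.domRestrict_apply, LinearMap.sub_apply, sp_ev_append_apply, sp_ev_p, sp_ev_y]
      rw [K.sq _ r hr _ (hmem m), if_neg h0, if_neg h1, if_pos h2, map_sub]
    unfold spIn
    rw [hR]
    exact Submodule.sub_mem _ (hY (r + 1) hr hw) (hY r (by omega) hw)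
  · have hR : (K.ev (pre ++ .p r :: .p r :: post)).domRestrict (K.N i J) =
        (K.ev (pre ++ post)).domRestrict (K.N i J) := by
      refine LinearMap.ext fun m => ?_
      simp only [LinearMap.domRestrict_apply, sp_ev_append_apply, sp_ev_p]
      rw [K.sq _ r hr _ (hmem m), if_neg h0, if_neg h1, if_neg h2]
    have h3 := hL (pre ++ post) (sp_valid_append.2 ⟨hpre, hpost⟩) (by rw [sp_np_append]; exact hn)
    have hw : invWt (tgt i pre (r + 1)) (tgt i pre r) +
        invWt (tgt i pre r) (tgt i pre (r + 1)) = 0 := by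
      unfold invWt
      split_ifs <;> omega
    have e1 : deg i (pre ++ .p r :: .p r :: post) = deg i (pre ++ post) := by
      simp only [deg_append, deg, sp_sw_sw, sp_sw_left, sp_sw_right]
      omega
    unfold spIn
    rw [hR, e1, htg]
    exact h3

/-- A word whose first letter `ψ` lies in `J`. -/
theorem sp_in_first {i : ℕ → ℤ} {J : List ℕ} {n : ℕ} (hL : K.spLow i J n) {r : ℕ} (hrJ : r ∈ J)
    (hr : r + 1 < d) (ys : List ℕ) (hys : ∀ k ∈ ys, k < d) (post : List Let)
    (hpost : Valid d post) (hn : spNp post < n) : K.spIn i J (ys.map Let.y ++ .p r :: post) := by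
  induction ys using List.reverseRecOn generalizing post with
  | nil =>
    refine sp_in_zero fun m hm => ?_
    rw [List.map_nil, List.nil_append, sp_ev_p, ((K.mem_N i J m).1 hm).2 r hrJ, map_zero]
  | append_singleton ys k ih =>
    have hk : k < d := hys k (by simp)
    have hys' : ∀ t ∈ ys, t < d := fun t ht => hys t (by simp [ht])
    have h1 := sp_in_yp hL (ys.map Let.y) post hr hk (sp_valid_map_y.2 hys') hpost
      (by rw [sp_np_y]; omega)
    have h2 := ih hys' (.y (Equiv.swap r (r + 1) k) :: post)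
      (sp_valid_y.2 ⟨sp_swap_lt hr hk, hpost⟩) (by simpa [spNp] using hn)
    simpa using h1.2 h2

theorem sp_in_nw {i : ℕ → ℤ} {J : List ℕ} {n : ℕ} (hL : K.spLow i J n) (ys u : List ℕ)
    (hys : ∀ k ∈ ys, k < d) (hu : ValidP d u) (hn : u.length ≤ n) : K.spIn i J (nw ys u) := by
  by_cases h1 : Red u
  swap
  · obtain ⟨a, r, b, h⟩ := not_red h1
    rw [sp_in_br hL hys h hu hn]
    have hv := h.valid.1 hu
    have hl := h.length_eq
    have := sp_in_sq hL (nw ys a) (b.map Let.p) (hv r (by simp))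
      (sp_valid_append.2 ⟨sp_valid_map_y.2 hys, sp_valid_map_p.2 fun x hx => hv x (by simp [hx])⟩)
      (sp_valid_map_p.2 fun x hx => hv x (by simp [hx]))
      (by
        simp only [nw, sp_np_append, sp_np_y, sp_np_p, List.length_append, List.length_cons] at hl ⊢
        omega)
    simpa [nw] using this
  by_cases h2 : RMin J u
  swap
  · obtain ⟨r, hrJ, b, h⟩ := not_rmin h1 h2
    rw [sp_in_br hL hys h hu hn]
    have hv := h.valid.1 hu
    have hl := h.length_eq
    have := sp_in_first hL hrJ (hv r (by simp)) ys hys (b.map Let.p)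
      (sp_valid_map_p.2 fun x hx => hv x (by simp [hx]))
      (by
        simp only [sp_np_p, List.length_cons] at hl ⊢
        omega)
    simpa [nw] using this
  by_cases h3 : ∃ a b, Br u (a ++ b) ∧ K.G (tgt i (a.map Let.p)) = ⊥
  · obtain ⟨a, b, h, hG⟩ := h3
    rw [sp_in_br hL hys h hu hn]
    have hv := h.valid.1 hu
    refine sp_in_zero fun m hm => ?_
    have hm' := K.ev_mem i (w := nw ys a)
      (sp_valid_append.2 ⟨sp_valid_map_y.2 hys, sp_valid_map_p.2 fun x hx => hv x (by simp [hx])⟩)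
      ((K.mem_N i J m).1 hm).1
    rw [sp_tgt_nw, hG, Submodule.mem_bot] at hm'
    have e : nw ys (a ++ b) = nw ys a ++ b.map Let.p := by simp [nw]
    rw [e, sp_ev_append_apply, hm', map_zero]
  · exact Submodule.subset_span ⟨ys, u, hys, hu, ⟨h1, h2, h3⟩, rfl, rfl, rfl⟩

theorem sp_low_all (i : ℕ → ℤ) (J : List ℕ) (n : ℕ) : K.spLow i J n := by
  induction n with
  | zero => intro w _ h; omega
  | succ n ih =>
    intro w hw hn
    have := sp_in_of_nw ih (sp_in_nw ih) w hw [] [] (by simp) (by simp [ValidP])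
      (by simp only [List.length_nil]; omega)
    simpa [nw] using this

variable (K)

/-- On `N i J` every word is a combination of good words of the same degree and target. -/
theorem span_good (i : ℕ → ℤ) (J : List ℕ) (hJ : ∀ r ∈ J, r + 1 < d ∧ i r = i (r + 1))
    (w : List Let) (hw : Valid d w) :
    (K.ev w).domRestrict (K.N i J) ∈ Submodule.span ℂ
      {T | ∃ ys u, (∀ k ∈ ys, k < d) ∧ ValidP d u ∧ K.Good i J u ∧
        deg i (nw ys u) = deg i w ∧ tgt i (nw ys u) = tgt i w ∧
        T = (K.ev (nw ys u)).domRestrict (K.N i J)} := by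
  have _ := hJ
  exact sp_low_all i J (spNp w + 1) w hw (Nat.lt_succ_self _)

/-- If all good words of the right degree and target kill `m`, so does `w`. -/
theorem sp_ev_eq_zero_of_good {i : ℕ → ℤ} {J : List ℕ} (hJ : ∀ r ∈ J, r + 1 < d ∧ i r = i (r + 1))
    {w : List Let} (hw : Valid d w) {m : X} (hm : m ∈ K.N i J)
    (h : ∀ ys u, (∀ k ∈ ys, k < d) → ValidP d u → K.Good i J u → deg i (nw ys u) = deg i w →
      tgt i (nw ys u) = tgt i w → K.ev (nw ys u) m = 0) : K.ev w m = 0 := by
  have h1 := K.span_good i J hJ w hw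
  have h2 : ∀ T ∈ Submodule.span ℂ
      {T : K.N i J →ₗ[ℂ] X | ∃ ys u, (∀ k ∈ ys, k < d) ∧ ValidP d u ∧ K.Good i J u ∧
        deg i (nw ys u) = deg i w ∧ tgt i (nw ys u) = tgt i w ∧
        T = (K.ev (nw ys u)).domRestrict (K.N i J)}, T ⟨m, hm⟩ = 0 := by
    intro T hT
    induction hT using Submodule.span_induction with
    | mem T hT =>
      obtain ⟨ys, u, a1, a2, a3, a4, a5, rfl⟩ := hT
      exact h ys u a1 a2 a3 a4 a5
    | zero => rfl
    | add S T _ _ hS hT => rw [LinearMap.add_apply, hS, hT, add_zero]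
    | smul c T _ hT => rw [LinearMap.smul_apply, hT, smul_zero]
  exact h2 _ h1

theorem tight_neg {i : ℕ → ℤ} {J : List ℕ} (hJ : ∀ r ∈ J, r + 1 < d ∧ i r = i (r + 1))
    (ht : K.Tight i J) {w : List Let} (hw : Valid d w) (htg : tgt i w = i) (hd : deg i w < 0)
    {m : X} (hm : m ∈ K.N i J) : K.ev w m = 0 := by
  refine K.sp_ev_eq_zero_of_good hJ hw hm fun ys u _ hu hg h1 h2 => ?_
  exfalso
  rw [sp_deg_nw] at h1
  rw [sp_tgt_nw, htg] at h2
  by_cases h : u = []
  · subst h
    simp only [List.map_nil, deg] at h1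
    omega
  · have := ht u hu hg h2 h
    omega

theorem tight_zero {i : ℕ → ℤ} {J : List ℕ} (hJ : ∀ r ∈ J, r + 1 < d ∧ i r = i (r + 1))
    (ht : K.Tight i J) {w : List Let} (hw : Valid d w) (htg : tgt i w = i) (hd : deg i w = 0) :
    ∃ c : ℂ, ∀ m ∈ K.N i J, K.ev w m = c • m := by
  have h1 := K.span_good i J hJ w hw
  have h2 : Submodule.span ℂ
      {T : K.N i J →ₗ[ℂ] X | ∃ ys u, (∀ k ∈ ys, k < d) ∧ ValidP d u ∧ K.Good i J u ∧
        deg i (nw ys u) = deg i w ∧ tgt i (nw ys u) = tgt i w ∧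
        T = (K.ev (nw ys u)).domRestrict (K.N i J)} ≤ Submodule.span ℂ {(K.N i J).subtype} := by
    refine Submodule.span_mono ?_
    rintro T ⟨ys, u, _, hu, hg, a1, a2, rfl⟩
    rw [sp_deg_nw] at a1
    rw [sp_tgt_nw, htg] at a2
    by_cases h : u = []
    · subst h
      simp only [List.map_nil, deg] at a1
      have : ys = [] := List.eq_nil_of_length_eq_zero (by omega)
      subst this
      rfl
    · have := ht u hu hg a2 h
      omega
  obtain ⟨c, hc⟩ := Submodule.mem_span_singleton.1 (h2 h1)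
  exact ⟨c, fun m hm => (LinearMap.congr_fun hc ⟨m, hm⟩).symm⟩

theorem sp_mem_N_nil (i : ℕ → ℤ) {m : X} (hm : m ∈ K.G i) : m ∈ K.N i [] :=
  (K.mem_N i [] m).2 ⟨hm, by simp⟩

/-- Words of very negative degree vanish. -/
theorem ev_low (i : ℕ → ℤ) {w : List Let} (hw : Valid d w) (hd : deg i w < -((d * d : ℕ) : ℤ))
    {m : X} (hm : m ∈ K.G i) : K.ev w m = 0 := by
  refine K.sp_ev_eq_zero_of_good (J := []) (by simp) hw (K.sp_mem_N_nil i hm) fun ys u _ hu hg h1 _ => ?_
  exfalso
  rw [sp_deg_nw] at h1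
  have h2 := hg.1.length_le hu
  have h3 := (sp_deg_p_bd u i).1
  omega

theorem sp_y_pow_comm (i : ℕ → ℤ) {k l : ℕ} (hk : k < d) (hl : l < d) (n : ℕ) {m : X}
    (hm : m ∈ K.G i) : (K.y l ^ n) (K.y k m) = K.y k ((K.y l ^ n) m) := by
  induction n generalizing m with
  | zero => rfl
  | succ n ih =>
    rw [pow_succ, Module.End.mul_apply, Module.End.mul_apply, K.yy i l k hl hk m hm,
      ih (K.y_mem i l hl m hm)]

theorem sp_ev_ys_eq_zero (i : ℕ → ℤ) (ys : List ℕ) (hys : ∀ k ∈ ys, k < d) (f : ℕ → ℕ) {m : X}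
    (hm : m ∈ K.G i) (hf : ∀ k < d, (K.y k ^ f k) m = 0)
    (hl : ∑ k ∈ Finset.range d, f k < ys.length) : K.ev (ys.map Let.y) m = 0 := by
  induction ys generalizing f m with
  | nil => simp at hl
  | cons k ys ih =>
    have hk : k < d := hys k (by simp)
    rw [List.map_cons, sp_ev_y]
    by_cases h0 : f k = 0
    · have := hf k hk
      rw [h0, pow_zero, Module.End.one_apply] at this
      rw [this, map_zero, map_zero]
    · refine ih (fun t ht => hys t (by simp [ht])) (Function.update f k (f k - 1))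
        (K.y_mem i k hk m hm) (fun l hld => ?_) ?_
      · by_cases hlk : l = k
        · rw [hlk, Function.update_self, ← Module.End.mul_apply, ← pow_succ,
            Nat.sub_add_cancel (by omega)]
          exact hf k hk
        · rw [Function.update_of_ne hlk, K.sp_y_pow_comm i hk hld _ hm, hf l hld, map_zero]
      · have hmem : k ∈ Finset.range d := Finset.mem_range.2 hk
        rw [Finset.sum_update_of_mem hmem]
        rw [← Finset.add_sum_erase _ _ hmem, List.length_cons] at hl
        rw [Finset.sdiff_singleton_eq_erase]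
        omega

/-- Words of large degree kill a given vector. -/
theorem ev_high (hn : K.Nilp) (i : ℕ → ℤ) {m : X} (hm : m ∈ K.G i) :
    ∃ M : ℤ, ∀ w, Valid d w → M ≤ deg i w → K.ev w m = 0 := by
  have h0 : ∀ k, ∃ N : ℕ, k < d → (K.y k ^ N) m = 0 := by
    intro k
    by_cases hk : k < d
    · obtain ⟨N, hN⟩ := hn i m hm k hk
      exact ⟨N, fun _ => hN⟩
    · exact ⟨0, fun h => absurd h hk⟩
  choose f hf using h0
  refine ⟨((∑ k ∈ Finset.range d, f k + d * d + 1 : ℕ) : ℤ), fun w hw hd => ?_⟩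
  refine K.sp_ev_eq_zero_of_good (J := []) (by simp) hw (K.sp_mem_N_nil i hm)
    fun ys u hys hu hg h1 _ => ?_
  rw [sp_deg_nw] at h1
  have h2 := hg.1.length_le hu
  have h3 := (sp_deg_p_bd u i).2
  rw [nw, sp_ev_append_apply, K.sp_ev_ys_eq_zero i ys hys f hm hf (by omega), map_zero]

/-- A nonzero `G i` contains a nonzero vector killed by the `ψ r`, `r ∈ J`. -/
theorem N_ne_bot {i : ℕ → ℤ} {J : List ℕ} (hJ : ∀ r ∈ J, r + 1 < d ∧ i r = i (r + 1))
    (h : K.G i ≠ ⊥) : K.N i J ≠ ⊥ := by
  intro hN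
  have key : ∀ n : ℕ, ∀ m ∈ K.G i, m ≠ 0 → ∃ w, Valid d w ∧ deg i w = -(n : ℤ) ∧ K.ev w m ≠ 0 := by
    intro n
    induction n with
    | zero => exact fun m _ h0 => ⟨[], sp_valid_nil, rfl, h0⟩
    | succ n ih =>
      intro m hm h0
      have h1 : ¬ ∀ r ∈ J, K.ψ r m = 0 := by
        intro h1
        have : m ∈ K.N i J := (K.mem_N i J m).2 ⟨hm, h1⟩
        rw [hN, Submodule.mem_bot] at this
        exact h0 this
      push Not at h1
      obtain ⟨r, hr, h2⟩ := h1
      have h3 := K.p_mem i r (hJ r hr).1 m hm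
      rw [sp_sw_eq (hJ r hr).2] at h3
      obtain ⟨w, hw, hd, h4⟩ := ih _ h3 h2
      refine ⟨.p r :: w, sp_valid_p.2 ⟨(hJ r hr).1, hw⟩, ?_, h4⟩
      simp only [deg, sp_sw_eq (hJ r hr).2, hd, invWt, (hJ r hr).2, if_true]
      push_cast
      ring
  obtain ⟨m, hm, h0⟩ := (Submodule.ne_bot_iff _).1 h
  obtain ⟨w, hw, hd, h1⟩ := key (d * d + 1) m hm h0
  exact h1 (K.ev_low i hw (by omega) hm)

/-- A combination of words of positive degree from `i` to `i` is nilpotent on each vector. -/
theorem pos_nilp (hn : K.Nilp) (i : ℕ → ℤ) (Z : Module.End ℂ X)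
    (hZ : Z ∈ Submodule.span ℂ {T | ∃ w, Valid d w ∧ tgt i w = i ∧ 1 ≤ deg i w ∧ T = K.ev w})
    {m : X} (hm : m ∈ K.G i) : ∃ N : ℕ, (Z ^ N) m = 0 := by
  have key : ∀ n : ℕ, Z ^ n ∈ Submodule.span ℂ
      {T | ∃ w, Valid d w ∧ tgt i w = i ∧ (n : ℤ) ≤ deg i w ∧ T = K.ev w} := by
    intro n
    induction n with
    | zero => exact Submodule.subset_span ⟨[], sp_valid_nil, rfl, le_refl _, rfl⟩
    | succ n ih =>
      have h1 := Submodule.mul_mem_mul ih hZ
      rw [Submodule.span_mul_span, ← pow_succ] at h1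
      refine Submodule.span_mono ?_ h1
      rintro T ⟨A, ⟨a, ha, ta, da, rfl⟩, B, ⟨b, hb, tb, db, rfl⟩, rfl⟩
      refine ⟨b ++ a, sp_valid_append.2 ⟨hb, ha⟩, by rw [tgt_append, tb, ta], ?_,
        (K.ev_append b a).symm⟩
      rw [deg_append, tb]
      push_cast
      omega
  obtain ⟨M, hM⟩ := K.ev_high hn i hm
  refine ⟨M.toNat, ?_⟩
  have h2 : ∀ T ∈ Submodule.span ℂ
      {T | ∃ w, Valid d w ∧ tgt i w = i ∧ ((M.toNat : ℕ) : ℤ) ≤ deg i w ∧ T = K.ev w},
      T m = 0 := by
    intro T hT
    induction hT using Submodule.span_induction with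
    | mem T hT =>
      obtain ⟨w, a1, _, a3, rfl⟩ := hT
      exact hM w a1 (by omega)
    | zero => rfl
    | add S T _ _ hS hT => rw [LinearMap.add_apply, hS, hT, add_zero]
    | smul c T _ hT => rw [LinearMap.smul_apply, hT, smul_zero]
  exact h2 _ (key _)

/-- Locality: an operator on `N i J` given by words from `i` to `i` is scalar plus nilpotent. -/
theorem tight_local (hn : K.Nilp) {i : ℕ → ℤ} {J : List ℕ}
    (hJ : ∀ r ∈ J, r + 1 < d ∧ i r = i (r + 1)) (ht : K.Tight i J) (B : Module.End ℂ X)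
    (hB : ∀ m ∈ K.N i J, B m ∈ K.N i J)
    (hBw : B.domRestrict (K.N i J) ∈ Submodule.span ℂ
      {T | ∃ w, Valid d w ∧ tgt i w = i ∧ T = (K.ev w).domRestrict (K.N i J)}) :
    ∃ c : ℂ, ∀ m ∈ K.N i J, ∃ N : ℕ, ((B - c • (1 : Module.End ℂ X)) ^ N) m = 0 := by
  have key : ∀ T ∈ Submodule.span ℂ
      {T : K.N i J →ₗ[ℂ] X | ∃ w, Valid d w ∧ tgt i w = i ∧ T = (K.ev w).domRestrict (K.N i J)},
      ∃ c : ℂ, ∃ Z ∈ Submodule.span ℂ
        {T | ∃ w, Valid d w ∧ tgt i w = i ∧ 1 ≤ deg i w ∧ T = K.ev w},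
        ∀ m : K.N i J, T m = c • m.1 + Z m.1 := by
    intro T hT
    induction hT using Submodule.span_induction with
    | mem T hT =>
      obtain ⟨w, a1, a2, rfl⟩ := hT
      rcases lt_trichotomy (deg i w) 0 with h | h | h
      · refine ⟨0, 0, Submodule.zero_mem _, fun m => ?_⟩
        rw [LinearMap.domRestrict_apply, K.tight_neg hJ ht a1 a2 h m.2]
        simp
      · obtain ⟨c, hc⟩ := K.tight_zero hJ ht a1 a2 h
        refine ⟨c, 0, Submodule.zero_mem _, fun m => ?_⟩
        rw [LinearMap.domRestrict_apply, hc m.1 m.2]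
        simp
      · refine ⟨0, K.ev w, Submodule.subset_span ⟨w, a1, a2, h, rfl⟩, fun m => ?_⟩
        rw [LinearMap.domRestrict_apply]
        simp
    | zero => exact ⟨0, 0, Submodule.zero_mem _, fun m => by simp⟩
    | add S T _ _ hS hT =>
      obtain ⟨a, Y, hY, h1⟩ := hS
      obtain ⟨b, Z, hZ, h2⟩ := hT
      refine ⟨a + b, Y + Z, Submodule.add_mem _ hY hZ, fun m => ?_⟩
      rw [LinearMap.add_apply, h1, h2, LinearMap.add_apply, add_smul]
      abel
    | smul c T _ hT =>
      obtain ⟨b, Z, hZ, h2⟩ := hT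
      refine ⟨c * b, c • Z, Submodule.smul_mem _ _ hZ, fun m => ?_⟩
      rw [LinearMap.smul_apply, h2, LinearMap.smul_apply, smul_add, mul_smul]
  obtain ⟨c, Z, hZ, h⟩ := key _ hBw
  have hstep : ∀ m ∈ K.N i J, (B - c • (1 : Module.End ℂ X)) m = Z m := by
    intro m hm
    have := h ⟨m, hm⟩
    rw [LinearMap.domRestrict_apply] at this
    simp only [LinearMap.sub_apply, LinearMap.smul_apply, Module.End.one_apply]
    rw [this]
    simp
  have hpow : ∀ n : ℕ, ∀ m ∈ K.N i J, ((B - c • (1 : Module.End ℂ X)) ^ n) m = (Z ^ n) m := by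
    intro n
    induction n with
    | zero => intro m _; rfl
    | succ n ih =>
      intro m hm
      have hm' : (B - c • (1 : Module.End ℂ X)) m ∈ K.N i J := by
        simp only [LinearMap.sub_apply, LinearMap.smul_apply, Module.End.one_apply]
        exact Submodule.sub_mem _ (hB m hm) (Submodule.smul_mem _ _ hm)
      rw [pow_succ, pow_succ, Module.End.mul_apply, Module.End.mul_apply, ih _ hm', hstep m hm]
  refine ⟨c, fun m hm => ?_⟩
  obtain ⟨N, hN⟩ := K.pos_nilp hn i Z hZ ((K.mem_N i J m).1 hm).1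
  exact ⟨N, by rw [hpow N m hm, hN]⟩

end Pool.Agent.KM.KLR
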