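import Pool.Agent.Lib.MP_515a76_al.KEval
import Pool.Agent.Lib.MP_515a76_al.KSpan
import Pool.Agent.Lib.MP_515a76_al.KTight

/-! The key non-cyclicity statement for KLR representations on 16 strands. -/

namespace Pool.Agent.KM

open Module

variable {X : Type} [AddCommGroup X] [Module ℂ X]

namespace KB

instance (d : ℕ) : DecidablePred (Let.ok d) := fun l =>
  match l with
  | .y k => inferInstanceAs (Decidable (k < d))
  | .p r => inferInstanceAs (Decidable (r + 1 < d))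

instance (d : ℕ) (w : List Let) : Decidable (Valid d w) :=
  inferInstanceAs (Decidable (∀ l ∈ w, l.ok d))

theorem tgt_eq {l l' : List ℤ} {w : List Let} (hv : Valid 16 w) (h1 : l.length = 16)
    (h2 : l'.length = 16) (h : ∀ k < 16, tgt (wd l) w k = wd l' k) : tgt (wd l) w = wd l' := by
  funext k
  rcases lt_or_ge k 16 with hk | hk
  · exact h k hk
  · rw [tgt_of_le _ hv hk, wd, wd, List.getD_eq_default _ _ (h1 ▸ hk),
      List.getD_eq_default _ _ (h2 ▸ hk)]

theorem sw_eq {i : ℕ → ℤ} {r : ℕ} (h : i r = i (r + 1)) : sw r i = i := by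
  funext k
  rw [sw, Equiv.swap_apply_def]
  split_ifs with h1 h2
  · rw [h1, h]
  · rw [h2, h]
  · rfl

theorem eig {T : End ℂ X} {v : X} {c : ℂ} (hv : v ≠ 0) (h : T v = c • v)
    (hn : ∃ N : ℕ, (T ^ N) v = 0) : c = 0 := by
  obtain ⟨N, hN⟩ := hn
  have e : ∀ n : ℕ, (T ^ n) v = c ^ n • v := fun n => by
    induction n with
    | zero => simp
    | succ n ih => rw [pow_succ', End.mul_apply, ih, map_smul, h, smul_smul, pow_succ]
  exact eq_zero_of_pow_eq_zero ((smul_eq_zero.1 (e N ▸ hN)).resolve_right hv)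

/-- The linear algebra core. -/
theorem core (U : Submodule ℂ X) (a b ψ W : End ℂ X) {t q : X} (hq : q ≠ 0) (ht : t ∈ U)
    (ha : ∀ m ∈ U, a m ∈ U) (hb : ∀ m ∈ U, b m ∈ U) (hab : ∀ m ∈ U, a (b m) = b (a m))
    (pa : ∀ m ∈ U, ψ (a m) = b (ψ m) + m) (pb : ∀ m ∈ U, ψ (b m) = a (ψ m) - m)
    (p0 : ψ t = 0) (w0 : W t = 0) (wa : W (a t) = 0) (wb : W (b t) = (-2 : ℂ) • q)
    (n1 : ∃ N : ℕ, ((a + b) ^ N) t = 0) (n2 : ∀ m ∈ U, ∃ N : ℕ, ((b * a) ^ N) m = 0)
    (n3 : ∀ c : ℂ, W (b (a t)) = c • q → c = 0) :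
    ¬ ∃ s ∈ U, U ≤ Submodule.span ℂ {s, b s, b (b s), b (b (b s))} := by
  rintro ⟨s, hs, hU⟩
  obtain ⟨u, hu⟩ : ∃ u, u = a t + b t := ⟨_, rfl⟩
  have uU : u ∈ U := hu ▸ U.add_mem (ha t ht) (hb t ht)
  have e1 : ∀ m ∈ U, ψ m = 0 → ψ (a m + b m) = 0 := fun m hm h => by
    rw [map_add, pa m hm, pb m hm, h]; simp
  have p1 : ψ u = 0 := hu ▸ e1 t ht p0
  have w1 : W u = (-2 : ℂ) • q := by rw [hu, map_add, wa, wb, zero_add]
  have u0 : u ≠ 0 := fun e => by simp [e, hq] at w1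
  have t0 : t ≠ 0 := fun e => u0 (by simp [hu, e])
  have i2 : ∀ c d : ℂ, c • t + d • u = 0 → c = 0 ∧ d = 0 := fun c d h => by
    have := congrArg W h
    rw [map_add, map_smul, map_smul, w0, w1, map_zero] at this
    have hd : d = 0 := by simpa [hq] using this
    exact ⟨by simpa [hd, t0] using h, hd⟩
  have pc : ∀ c : Fin 4 → ℂ, ψ (∑ k, c k • ![t, u, b t, b u] k) = -(c 2 • t + c 3 • u) :=
    fun c => by simp [Fin.sum_univ_four, pb t ht, pb u uU, p0, p1, add_comm]
  have li : LinearIndependent ℂ ![t, u, b t, b u] := Fintype.linearIndependent_iff.2 fun c h => by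
    obtain ⟨h2, h3⟩ := i2 _ _ (neg_eq_zero.1 ((pc c).symm.trans (by rw [h, map_zero])))
    obtain ⟨h0, h1⟩ := i2 (c 0) (c 1) (by simpa [Fin.sum_univ_four, h2, h3] using h)
    intro k
    fin_cases k <;> assumption
  have f4 := finrank_span_eq_card li
  have le : Submodule.span ℂ (Set.range ![t, u, b t, b u]) ≤ U := Submodule.span_le.2 (by
    rintro _ ⟨k, rfl⟩
    fin_cases k
    exacts [ht, uU, hb t ht, hb u uU])
  have hU' : U ≤ Submodule.span ℂ (Set.range ![s, b s, b (b s), b (b (b s))]) := by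
    simpa only [Matrix.range_cons, Matrix.range_empty, Set.union_empty, Set.singleton_union]
      using hU
  have := FiniteDimensional.span_of_finite ℂ (Set.finite_range ![s, b s, b (b s), b (b (b s))])
  have eq := Submodule.eq_of_le_of_finrank_le (le.trans hU')
    (f4 ▸ finrank_range_le_card ![s, b s, b (b s), b (b (b s))])
  have dec : ∀ m ∈ U, ∃ c : Fin 4 → ℂ, ∑ k, c k • ![t, u, b t, b u] k = m := fun m hm =>
    (Submodule.mem_span_range_iff_exists_fun ℂ).1 (eq ▸ hU' hm)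
  have dec' : ∀ m ∈ U, ψ m = 0 → ∃ c d : ℂ, m = c • t + d • u := fun m hm h => by
    obtain ⟨c, rfl⟩ := dec m hm
    obtain ⟨h2, h3⟩ := i2 _ _ (neg_eq_zero.1 ((pc c).symm.trans h))
    exact ⟨c 0, c 1, by simp [Fin.sum_univ_four, h2, h3]⟩
  have g1 : a u + b u = 0 := by
    obtain ⟨c, d, h⟩ := dec' _ (U.add_mem (ha u uU) (hb u uU)) (e1 u uU p1)
    obtain ⟨N, hN⟩ := n1
    have hc : c = 0 := eig (T := (a + b - d • 1) * (a + b)) t0
      (by simp [← hu, h]) ⟨N, by
        rw [Commute.mul_pow ((Commute.refl _).sub_left ((Commute.one_left _).smul_left d)),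
          End.mul_apply, hN, map_zero]⟩
    have hd : d = 0 := eig (T := a + b) u0 (by simpa [hc] using h) ⟨N, by
      rw [hu, ← LinearMap.add_apply, ← End.mul_apply, pow_mul_comm', End.mul_apply, hN, map_zero]⟩
    rw [h, hc, hd, zero_smul, zero_smul, add_zero]
  have k1 : b (a u) = a (b (a t)) + b (b (a t)) := by
    rw [hu, map_add, map_add, hab t ht, hab _ (ha t ht)]
  have g2 : b (a t) = 0 := by
    obtain ⟨c, d, h⟩ := dec' _ (hb _ (ha t ht)) (by rw [pb _ (ha t ht), pa t ht, p0]; simp)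
    have hd : -2 * d = 0 := n3 _ (by
      rw [h, map_add, map_smul, map_smul, w0, w1, smul_zero, zero_add, smul_smul, mul_comm])
    have hc : c = 0 := eig (T := b * a) t0 (by
      rw [End.mul_apply, h, show d = 0 by simpa using hd, zero_smul, add_zero]) (n2 t ht)
    rw [h, hc, show d = 0 by simpa using hd, zero_smul, zero_smul, add_zero]
  have g3 : b (b u) = 0 := by
    rw [eq_neg_of_add_eq_zero_right g1, map_neg, k1, g2]; simp
  have g4 : b (b t) = b u := by rw [hu, map_add, g2, zero_add]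
  have g5 : b (b (b s)) = 0 := by
    obtain ⟨c, rfl⟩ := dec s hs
    simp [Fin.sum_univ_four, g3, g4]
  have le3 : U ≤ Submodule.span ℂ (Set.range ![s, b s, b (b s)]) :=
    hU'.trans (Submodule.span_le.2 (by
      rintro _ ⟨k, rfl⟩
      fin_cases k
      exacts [Submodule.subset_span ⟨0, rfl⟩, Submodule.subset_span ⟨1, rfl⟩,
        Submodule.subset_span ⟨2, rfl⟩, by simp [g5]]))
  have := FiniteDimensional.span_of_finite ℂ (Set.finite_range ![s, b s, b (b s)])
  have := (Submodule.finrank_mono (le.trans le3)).trans (finrank_range_le_card ![s, b s, b (b s)])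
  rw [f4] at this
  simp at this

theorem jq : ∀ r ∈ Jq, r + 1 < 16 ∧ wd qW r = wd qW (r + 1) := by decide +kernel

/-- A word of degree zero acts on `N` by the scalar of the polynomial representation. -/
theorem scal (K : KLR 16 X) {q : X} (hq : q ∈ K.N (wd qW) Jq) {w : List Let} (hv : Valid 16 w)
    (ht : tgt (wd qW) w = wd qW) (hd : deg (wd qW) w = 0) {c : ℂ}
    (h : ∀ L : KLR 16 PolX, L.y = polY → L.ψ = polP → L.ev w polOne = c • polOne) :
    K.ev w q = c • q := by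
  obtain ⟨L, l1, l2, l3⟩ := exists_polK 16
  obtain ⟨P, p1, p2, p3⟩ := exists_prodK K L
  obtain ⟨c', hc⟩ := P.tight_zero jq (tight_q P) hv ht hd
  have h1 := (K.mem_N _ _ _).1 hq
  have h2 := (L.mem_N _ _ _).1 (polOne_mem L l1 l3)
  have e := hc (q, polOne) ((P.mem_N _ _ _).2 ⟨by rw [p1]; exact ⟨h1.1, h2.1⟩, fun r hr => by
    rw [p2, LinearMap.prodMap_apply, h1.2 r hr, h2.2 r hr]; rfl⟩)
  rw [p3, LinearMap.prodMap_apply, h L l2 l3, Prod.smul_mk, Prod.mk.injEq] at e
  rw [e.1, smul_left_injective ℂ polOne_ne e.2]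

theorem far_y {d : ℕ} (K : KLR d X) {i : ℕ → ℤ} {m : X} (hm : m ∈ K.G i) {r k : ℕ}
    (hr : r + 1 < d) (hk : k < d) (h1 : k ≠ r) (h2 : k ≠ r + 1) (h : K.ψ r m = 0) :
    K.ψ r (K.y k m) = 0 := by
  rw [K.py i r k hr hk m hm, h, map_zero, errY, if_neg h1, if_neg h2, ite_self, zero_smul, add_zero]

theorem step {d : ℕ} (K : KLR d X) {i : ℕ → ℤ} {J : List ℕ} {m : X} (hm : m ∈ K.N i J) {t : ℕ}
    (ht : t + 1 < d) (e : i t = i (t + 1)) (hJ : ∀ r ∈ J, r + 1 < t) :
    K.ψ t (K.y t m) ∈ K.N i (J ++ [t]) := by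
  rw [K.mem_N] at hm ⊢
  have h1 := K.y_mem i t (by omega) m hm.1
  refine ⟨by simpa only [sw_eq e] using K.p_mem i t ht _ h1, fun r hr => ?_⟩
  rcases List.mem_append.1 hr with hr | hr
  · have := hJ r hr
    rw [K.far i r t this ht _ h1,
      far_y K hm.1 (by omega) (by omega) (by omega) (by omega) (hm.2 r hr), map_zero]
  · rw [List.mem_singleton.1 hr, K.sq i t ht _ h1, if_pos e]

theorem t0_mem (K : KLR 16 X) {q : X} (hq : q ∈ K.G (wd qW)) :
    K.ev wT q ∈ K.N (wd (midW ++ [4])) (Jmid ++ [14]) := by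
  have hv : Valid 16 (uW.map Let.p) := by decide +kernel
  have h0 := K.ev_mem _ hv hq
  rw [tgt_eq (l' := midW ++ [4]) hv rfl rfl (by decide +kernel)] at h0
  have h1 := (K.mem_N _ [] _).2 ⟨h0, by simp⟩
  have h2 := step K h1 (t := 2) (by norm_num) (by decide +kernel) (by decide)
  have h3 := step K h2 (t := 4) (by norm_num) (by decide +kernel) (by decide)
  have h4 := step K h3 (t := 9) (by norm_num) (by decide +kernel) (by decide)
  have h5 := step K h4 (t := 11) (by norm_num) (by decide +kernel) (by decide)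
  have h6 := step K h5 (t := 14) (by norm_num) (by decide +kernel) (by decide)
  rw [wT, K.ev_append]
  exact h6

end KB

open KB in
theorem kb_klr (K : KLR 16 X) (hn : K.Nilp) (h : K.G (wd qW) ≠ ⊥) :
    (∃ q ∈ K.G (wd qW), K.y 15 (K.y 15 (K.y 15 q)) ≠ 0) ∧
    ¬ ∃ t ∈ K.N (wd (midW ++ [4])) Jmid, K.N (wd (midW ++ [4])) Jmid ≤
      Submodule.span ℂ {t, K.y 15 t, K.y 15 (K.y 15 t), K.y 15 (K.y 15 (K.y 15 t))} := by
  obtain ⟨q, hq, q0⟩ := Submodule.exists_mem_ne_zero_of_ne_bot (K.N_ne_bot jq h)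
  have qG := ((K.mem_N _ _ _).1 hq).1
  have vC : Valid 16 wC := by decide +kernel
  have v0 : Valid 16 (wT ++ wV) := by decide +kernel
  have v1 : Valid 16 (wT ++ [Let.y 14] ++ wV) := by decide +kernel
  have v2 : Valid 16 (wT ++ [Let.y 15] ++ wV) := by decide +kernel
  have v3 : Valid 16 (wT ++ [Let.y 14, Let.y 15] ++ wV) := by decide +kernel
  have eC := scal K hq vC (tgt_eq vC rfl rfl (by decide +kernel)) (by decide +kernel) eval_C
  have e0 := K.tight_neg jq (tight_q K) v0 (tgt_eq v0 rfl rfl (by decide +kernel))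
    (by decide +kernel) hq
  have e1 := scal K hq v1 (tgt_eq v1 rfl rfl (by decide +kernel)) (by decide +kernel) (c := 0)
    fun L a b => by rw [eval_14 L a b, zero_smul]
  have e2 := scal K hq v2 (tgt_eq v2 rfl rfl (by decide +kernel)) (by decide +kernel) eval_15
  have e3 := K.pos_nilp hn _ _ (Submodule.subset_span ⟨_, v3,
    tgt_eq v3 rfl rfl (by decide +kernel), by decide +kernel, rfl⟩) qG
  have ht := (K.mem_N _ _ _).1 (t0_mem K qG)
  have hy : ∀ k, k = 14 ∨ k = 15 → ∀ m ∈ K.N (wd (midW ++ [4])) Jmid,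
      K.y k m ∈ K.N (wd (midW ++ [4])) Jmid := fun k hk m hm => by
    rw [K.mem_N] at hm ⊢
    refine ⟨K.y_mem _ k (by omega) m hm.1, fun r hr => ?_⟩
    have : r ≤ 11 := by revert r; decide
    exact far_y K hm.1 (by omega) (by omega) (by omega) (by omega) (hm.2 r hr)
  have c14 : wd (midW ++ [4]) 14 = wd (midW ++ [4]) (14 + 1) := by decide +kernel
  have one : ∀ w : List Let, Valid 16 w → (∀ i, tgt i w = i) → (∀ i, 1 ≤ deg i w) →
      K.ev w ∈ Submodule.span ℂ {T | ∃ w, Valid 16 w ∧ tgt (wd (midW ++ [4])) w =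
        wd (midW ++ [4]) ∧ 1 ≤ deg (wd (midW ++ [4])) w ∧ T = K.ev w} :=
    fun w a b c => Submodule.subset_span ⟨w, a, b _, c _, rfl⟩
  rw [K.ev_append] at e0
  rw [K.ev_append, K.ev_append] at e1 e2
  refine ⟨⟨q, qG, fun e => q0 ?_⟩, core _ (K.y 14) (K.y 15) (K.ψ 14) (K.ev wV) q0
    ((K.mem_N _ _ _).2 ⟨ht.1, fun r hr => ht.2 r (List.mem_append_left _ hr)⟩) (hy 14 (.inl rfl))
    (hy 15 (.inr rfl)) (fun m hm => K.yy _ 14 15 (by norm_num) (by norm_num) m hm.1)
    (fun m hm => ?_) (fun m hm => ?_) (ht.2 14 (by simp)) e0 (e1.trans (zero_smul _ _)) e2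
    (K.pos_nilp hn _ _ ?_ ht.1) (fun m hm => K.pos_nilp hn _ _ ?_ hm.1) fun c hc => ?_⟩
  · have : K.ψ 12 (K.ψ 13 (K.ψ 14 (K.y 15 (K.y 15 (K.y 15 q))))) = (-1 : ℂ) • q := eC
    simpa [e] using this
  · rw [K.py _ 14 14 (by norm_num) (by norm_num) m hm.1, errY, if_pos c14]
    simp
  · rw [K.py _ 14 (14 + 1) (by norm_num) (by norm_num) m hm.1, errY, if_pos c14]
    simp [sub_eq_add_neg]
  · exact Submodule.add_mem _ (one [.y 14] (by decide) (fun _ => rfl) fun _ => le_rfl)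
      (one [.y 15] (by decide) (fun _ => rfl) fun _ => le_rfl)
  · exact one [.y 14, .y 15] (by decide) (fun _ => rfl) fun _ => by simp [deg]
  · refine eig q0 ?_ e3
    rw [K.ev_append, K.ev_append]
    exact hc

end Pool.Agent.KM
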