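import Mathlib

/-!
Pure algebra: modules over the degenerate affine Hecke algebra (DAHA), representations of the
quiver Hecke (KLR) relations, words, reduced words, and the concrete colour words.
-/

namespace Pool.Agent.KM

open Module

/-! ### Blocks as counting functions -/

/-- Move a particle from `c` to `c + 1`. -/
def move (B : ℤ → ℤ) (c : ℤ) : ℤ → ℤ :=
  fun t => B t - (if t = c then 1 else 0) + (if t = c + 1 then 1 else 0)

/-- Move a particle from `c + 1` to `c`. -/
def unmove (B : ℤ → ℤ) (c : ℤ) : ℤ → ℤ :=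
  fun t => B t + (if t = c then 1 else 0) - (if t = c + 1 then 1 else 0)

/-- The block after the moves `i 0, ..., i (k-1)`. -/
def walk (B : ℤ → ℤ) (i : ℕ → ℤ) : ℕ → ℤ → ℤ
  | 0 => B
  | k + 1 => move (walk B i k) (i k)

/-- Some intermediate count is negative. -/
def Unreal (B : ℤ → ℤ) (d : ℕ) (i : ℕ → ℤ) : Prop := ∃ k ≤ d, ∃ c, walk B i k c < 0

/-! ### DAHA modules -/

/-- A module over the degenerate affine Hecke algebra on `d` strands. -/
structure DAHA (d : ℕ) (X : Type) [AddCommGroup X] [Module ℂ X] where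
  x : ℕ → End ℂ X
  s : ℕ → End ℂ X
  xx : ∀ k l, k < d → l < d → x k * x l = x l * x k
  ss : ∀ r, r + 1 < d → s r * s r = 1
  far : ∀ r t, r + 1 < t → t + 1 < d → s r * s t = s t * s r
  braid : ∀ r, r + 2 < d → s r * s (r + 1) * s r = s (r + 1) * s r * s (r + 1)
  sx : ∀ r, r + 1 < d → s r * x r = x (r + 1) * s r - 1
  sxfar : ∀ r k, r + 1 < d → k < d → k ≠ r → k ≠ r + 1 → s r * x k = x k * s r

namespace DAHA

variable {d : ℕ} {X : Type} [AddCommGroup X] [Module ℂ X] (D : DAHA d X)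

/-- The simultaneous generalised eigenspace. -/
def G (i : ℕ → ℤ) : Submodule ℂ X :=
  ⨅ k : Fin d, (D.x k).maxGenEigenspace ((i k : ℤ) : ℂ)

/-- The sum of the other generalised eigenspaces. -/
def Gc (i : ℕ → ℤ) : Submodule ℂ X :=
  ⨆ j : {j : ℕ → ℤ // ∃ k < d, j k ≠ i k}, D.G j.1

/-- The module is the sum of its integral generalised eigenspaces. -/
def Integral : Prop := ⨆ i : ℕ → ℤ, D.G i = ⊤

open Classical in
/-- The projection onto `G i`. -/
noncomputable def e (i : ℕ → ℤ) : End ℂ X :=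
  if h : IsCompl (D.G i) (D.Gc i) then (D.G i).projection (D.Gc i) h else 0

/-- The algebra generated by the `x k`, `s r` and `e i`. -/
noncomputable def H : Subalgebra ℂ (End ℂ X) :=
  Algebra.adjoin ℂ ({T | ∃ k < d, T = D.x k} ∪ {T | ∃ r, r + 1 < d ∧ T = D.s r} ∪ Set.range D.e)

/-- Vectors of `G i` fixed by all `s r`, `r ∈ J`. -/
def NN (i : ℕ → ℤ) (J : List ℕ) : Submodule ℂ X :=
  D.G i ⊓ ⨅ r : {r // r ∈ J}, LinearMap.ker (D.s r.1 - 1)

/-- The idempotent with image `NN i J`. -/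
noncomputable def pJ (i : ℕ → ℤ) (J : List ℕ) : End ℂ X :=
  (J.map fun r => (1 / 2 : ℂ) • (1 + D.s r)).prod * D.e i

/-- A subspace stable under all generators. -/
def Inv (S : Submodule ℂ X) : Prop :=
  (∀ k < d, ∀ m ∈ S, D.x k m ∈ S) ∧ ∀ r, r + 1 < d → ∀ m ∈ S, D.s r m ∈ S

end DAHA

/-- `J` is a set of pairwise distant simple reflections joining equal colours. -/
def FarJ (d : ℕ) (i : ℕ → ℤ) (J : List ℕ) : Prop :=
  (∀ r ∈ J, r + 1 < d ∧ i r = i (r + 1)) ∧ ∀ r ∈ J, ∀ t ∈ J, r = t ∨ r + 1 < t ∨ t + 1 < r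

/-! ### KLR representations -/

/-- Exchange the colours at `r` and `r + 1`. -/
def sw (r : ℕ) (i : ℕ → ℤ) : ℕ → ℤ := fun k => i (Equiv.swap r (r + 1) k)

/-- The error term in `ψ_r y_k`. -/
def errY (i : ℕ → ℤ) (r k : ℕ) : ℂ :=
  if i r = i (r + 1) then (if k = r then 1 else if k = r + 1 then -1 else 0) else 0

/-- The error term in the braid relation. -/
def errB (i : ℕ → ℤ) (r : ℕ) : ℂ :=
  if i r = i (r + 2) then (if i (r + 1) = i r + 1 then 1 else if i (r + 1) = i r - 1 then -1 else 0)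
  else 0

/-- A representation of the KLR relations of type A on `d` strands. -/
structure KLR (d : ℕ) (X : Type) [AddCommGroup X] [Module ℂ X] where
  G : (ℕ → ℤ) → Submodule ℂ X
  y : ℕ → End ℂ X
  ψ : ℕ → End ℂ X
  y_mem : ∀ i k, k < d → ∀ m ∈ G i, y k m ∈ G i
  p_mem : ∀ i r, r + 1 < d → ∀ m ∈ G i, ψ r m ∈ G (sw r i)
  yy : ∀ i k l, k < d → l < d → ∀ m ∈ G i, y k (y l m) = y l (y k m)
  py : ∀ i r k, r + 1 < d → k < d → ∀ m ∈ G i,
    ψ r (y k m) = y (Equiv.swap r (r + 1) k) (ψ r m) + errY i r k • m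
  far : ∀ i r t, r + 1 < t → t + 1 < d → ∀ m ∈ G i, ψ r (ψ t m) = ψ t (ψ r m)
  sq : ∀ i r, r + 1 < d → ∀ m ∈ G i, ψ r (ψ r m) =
    if i r = i (r + 1) then 0 else if i r - i (r + 1) = -1 then y r m - y (r + 1) m
    else if i r - i (r + 1) = 1 then y (r + 1) m - y r m else m
  braid : ∀ i r, r + 2 < d → ∀ m ∈ G i,
    ψ r (ψ (r + 1) (ψ r m)) = ψ (r + 1) (ψ r (ψ (r + 1) m)) + errB i r • m

/-- Letters of words in the generators. -/
inductive Let : Type
  | y (k : ℕ) : Let
  | p (r : ℕ) : Let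
  deriving DecidableEq

/-- The letter is a generator on `d` strands. -/
def Let.ok (d : ℕ) : Let → Prop
  | .y k => k < d
  | .p r => r + 1 < d

/-- All letters are generators on `d` strands. -/
def Valid (d : ℕ) (w : List Let) : Prop := ∀ l ∈ w, l.ok d

/-- The weight of an inversion whose colours are `a` (left) and `b` (right) after crossing. -/
def invWt (a b : ℤ) : ℤ := if a = b then -1 else if a - b = -1 then 1 else 0

/-- The colours after applying a word (first letter first). -/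
def tgt (i : ℕ → ℤ) : List Let → ℕ → ℤ
  | [] => i
  | .y _ :: w => tgt i w
  | .p r :: w => tgt (sw r i) w

/-- The degree of a word applied to the colours `i`. -/
def deg (i : ℕ → ℤ) : List Let → ℤ
  | [] => 0
  | .y _ :: w => 1 + deg i w
  | .p r :: w => invWt (i (r + 1)) (i r) + deg (sw r i) w

/-- The arrangement after a word of simple transpositions (first letter first). -/
def arrF (a : ℕ → ℕ) : List ℕ → ℕ → ℕ
  | [] => a
  | r :: w => arrF (fun k => a (Equiv.swap r (r + 1) k)) w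

/-- Every step creates an inversion. -/
def RedF (a : ℕ → ℕ) : List ℕ → Prop
  | [] => True
  | r :: w => a r < a (r + 1) ∧ RedF (fun k => a (Equiv.swap r (r + 1) k)) w

/-- `arr w p` is the starting position of the strand that ends at position `p`. -/
def arr (w : List ℕ) : ℕ → ℕ := arrF id w

/-- Reduced words. -/
def Red (w : List ℕ) : Prop := RedF id w

/-- One commutation or braid move. -/
inductive BrStep : List ℕ → List ℕ → Prop
  | far (u v : List ℕ) (r t : ℕ) (h : r + 1 < t) : BrStep (u ++ r :: t :: v) (u ++ t :: r :: v)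
  | braid (u v : List ℕ) (r : ℕ) :
      BrStep (u ++ r :: (r + 1) :: r :: v) (u ++ (r + 1) :: r :: (r + 1) :: v)

/-- Braid equivalence. -/
def Br : List ℕ → List ℕ → Prop := Relation.EqvGen BrStep

/-- All letters are simple transpositions on `d` strands. -/
def ValidP (d : ℕ) (w : List ℕ) : Prop := ∀ r ∈ w, r + 1 < d

/-- The strands starting at `r` and `r + 1` do not cross, for `r ∈ J`. -/
def RMin (J : List ℕ) (w : List ℕ) : Prop :=
  ∀ r ∈ J, ∀ p q, arr w p = r → arr w q = r + 1 → p < q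

/-- The word `y`-letters first, then `ψ`-letters. -/
def nw (ys : List ℕ) (w : List ℕ) : List Let := ys.map Let.y ++ w.map Let.p

namespace KLR

variable {d : ℕ} {X : Type} [AddCommGroup X] [Module ℂ X] (K : KLR d X)

/-- The operator of a letter. -/
def op : Let → End ℂ X
  | .y k => K.y k
  | .p r => K.ψ r

/-- The operator of a word (first letter acts first). -/
def ev : List Let → End ℂ X
  | [] => 1
  | l :: w => ev w * K.op l

/-- Vectors of `G i` killed by the `ψ r`, `r ∈ J`. -/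
def N (i : ℕ → ℤ) (J : List ℕ) : Submodule ℂ X :=
  K.G i ⊓ ⨅ r : {r // r ∈ J}, LinearMap.ker (K.ψ r.1)

/-- A reduced word, minimal for `J`, that does not pass through a zero space. -/
def Good (i : ℕ → ℤ) (J : List ℕ) (w : List ℕ) : Prop :=
  Red w ∧ RMin J w ∧ ¬ ∃ u v, Br w (u ++ v) ∧ K.G (tgt i (u.map Let.p)) = ⊥

/-- All nontrivial good words from `i` to `i` have positive degree. -/
def Tight (i : ℕ → ℤ) (J : List ℕ) : Prop :=
  ∀ w, ValidP d w → K.Good i J w → tgt i (w.map Let.p) = i → w ≠ [] → 1 ≤ deg i (w.map Let.p)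

/-- The `y k` are locally nilpotent. -/
def Nilp : Prop := ∀ i, ∀ m ∈ K.G i, ∀ k < d, ∃ N : ℕ, (K.y k ^ N) m = 0

end KLR

/-! ### Concrete data -/

/-- A colour word as a function. -/
def wd (l : List ℤ) : ℕ → ℤ := fun k => l.getD k 0

/-- The moves `a, a + 1, ..., b - 1`. -/
def run (a b : ℤ) : List ℤ := (List.range (b - a).toNat).map fun t : ℕ => a + (t : ℤ)

/-- Translation onto the wall: 88 moves. -/
def onW : List ℤ :=
  (List.range 16).flatMap fun j : ℕ =>
    run (6 - (j : ℤ)) (([6, 6, 6, 6, 5, 5, 5, 5, 4, 4, 3, 3, 2, 2, 1, 1] : List ℤ).getD j 0)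

/-- The middle word. -/
def midW : List ℤ := [5, 2, 3, 3, 4, 4, 5, 2, 3, 1, 1, 2, 2, 3, 4]

/-- Translation out of the wall: 89 moves. -/
def outW : List ℤ :=
  (List.range 16).flatMap fun j : ℕ =>
    run (([6, 6, 6, 6, 6, 6, 5, 5, 5, 5, 5, 4, 4, 4, 3, 3] : List ℤ).getD j 0) (18 - (j : ℤ))

/-- The comparison word. -/
def qW : List ℤ := [5, 5, 2, 2, 3, 3, 3, 3, 1, 1, 2, 2, 4, 4, 4, 4]

/-- The full colour word, 192 letters. -/
def iBig : ℕ → ℤ := wd (onW ++ midW ++ outW)

/-- The word `on, mid, 4`, 104 letters. -/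
def iP : ℕ → ℤ := wd (onW ++ midW ++ [4])

/-- The word `on, q`, 104 letters. -/
def iQ : ℕ → ℤ := wd (onW ++ qW)

/-- Divided powers of the middle word. -/
def Jmid : List ℕ := [2, 4, 9, 11]

/-- Divided powers of the full word. -/
def Jbig : List ℕ := [90, 92, 97, 99]

/-- Divided powers of the comparison word. -/
def Jq : List ℕ := [0, 2, 4, 5, 6, 8, 10, 12, 13, 14]

/-- The starting block: one particle at each of `-9, ..., 6`. -/
def B0 : ℤ → ℤ := fun t => if -9 ≤ t ∧ t ≤ 6 then 1 else 0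

end Pool.Agent.KM
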