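import Pool.Agent.Lib.MP_515a76_al.KPoly

/-! Three explicit evaluations in the polynomial representation. -/

namespace Pool.Agent.KM

/-- A word from `q` to `mid, 4`. -/
def uW : List ℕ := [1, 3, 2, 4, 3, 7, 8, 11, 10, 9, 8, 7, 6, 5, 12, 11, 10, 9, 8, 7, 6, 4, 5, 11, 12]

/-- A word from `mid, 4` to `q`. -/
def vW : List ℕ := [5, 4, 3, 2, 1, 0, 6, 5, 7, 8, 9, 10, 11, 12, 13, 14, 6, 7, 8, 9, 10, 11, 12, 13,
  4, 5, 3, 4, 2, 10, 9, 8, 7, 6, 5, 4]

/-- The word `uW` followed by the projection onto the invariants. -/
def wT : List Let := uW.map Let.p ++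
  [.y 2, .p 2, .y 4, .p 4, .y 9, .p 9, .y 11, .p 11, .y 14, .p 14]

/-- The word back. -/
def wV : List Let := vW.map Let.p

/-- The nil Hecke word. -/
def wC : List Let := [.y 15, .y 15, .y 15, .p 14, .p 13, .p 12]

open Classical in
/-- The constant polynomial `1` placed at the colours `q`. -/
noncomputable def polOne : PolX := fun j => if j = wd qW then 1 else 0

namespace KEval

open MvPolynomial

/-- Sparse polynomials: a monomial is the list of its variables. -/
abbrev SP : Type := List (List ℕ × ℤ)

/-- The monomial of a list of variables. -/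
noncomputable def mono : List ℕ → Pol
  | [] => 1
  | k :: l => X k * mono l

/-- The polynomial of a sparse polynomial. -/
noncomputable def toPol : SP → Pol
  | [] => 0
  | t :: P => (t.2 : ℂ) • mono t.1 + toPol P

theorem toPol_append (P Q : SP) : toPol (P ++ Q) = toPol P + toPol Q := by
  induction P with
  | nil => simp [toPol]
  | cons t P ih => simp [toPol, ih, add_assoc]

/-- The transposition of `r` and `r + 1`. -/
def sk (r k : ℕ) : ℕ := cond (Nat.beq k r) r.succ (cond (Nat.beq k r.succ) r k)

theorem cond_beq {α : Type} (a b : ℕ) (x y : α) :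
    cond (Nat.beq a b) x y = if a = b then x else y := by
  by_cases h : a = b
  · rw [if_pos h, h, Nat.beq_refl, cond_true]
  · rw [if_neg h, Bool.eq_false_iff.2 fun e => h (Nat.eq_of_beq_eq_true e), cond_false]

theorem sk_def (r k : ℕ) : sk r k = if k = r then r + 1 else if k = r + 1 then r else k := by
  rw [sk, cond_beq, cond_beq]

theorem sk_eq (r k : ℕ) : Equiv.swap r (r + 1) k = sk r k := by
  rw [sk_def, Equiv.swap_apply_def]

/-- Multiplication by `c * X k`. -/
def mulX (k : ℕ) (c : ℤ) (P : SP) : SP := P.map fun t => (k :: t.1, c * t.2)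

theorem toPol_mulX (k : ℕ) (c : ℤ) (P : SP) : toPol (mulX k c P) = (c : ℂ) • (X k * toPol P) := by
  induction P with
  | nil => simp [toPol, mulX]
  | cons t P ih =>
    unfold mulX at ih
    simp only [toPol, mulX, List.map_cons, ih, mono, mul_add, smul_add, Int.cast_mul, mul_smul,
      mul_smul_comm]

theorem sig_mul (r k : ℕ) (f : Pol) : sig r (X k * f) = X (sk r k) * sig r f := by
  simp [sig, sk_eq]

theorem sig_mono (r : ℕ) (l : List ℕ) : sig r (mono l) = mono (l.map (sk r)) := by
  induction l with
  | nil => simp [sig, mono]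
  | cons k l ih => simp only [mono, List.map_cons, sig_mul, ih]

/-- Exchange of two variables. -/
def swp (r : ℕ) (P : SP) : SP := P.map fun t => (t.1.map (sk r), t.2)

theorem toPol_swp (r : ℕ) (P : SP) : toPol (swp r P) = sig r (toPol P) := by
  induction P with
  | nil => simp [toPol, swp]
  | cons t P ih =>
    unfold swp at ih
    simp only [toPol, swp, List.map_cons, ih, map_add, map_smul, sig_mono]

/-- The divided difference of `c` times a monomial. -/
def demL (r : ℕ) (c : ℤ) : List ℕ → SP
  | [] => []
  | k :: l => cond (Nat.beq k r) [(l, c)] (cond (Nat.beq k r.succ) [(l, -c)] []) ++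
      mulX (sk r k) 1 (demL r c l)

theorem diff_ne (r : ℕ) : (X r - X (r + 1) : Pol) ≠ 0 :=
  sub_ne_zero.2 fun h => absurd (X_injective h) (by omega)

theorem toPol_demL (r : ℕ) (c : ℤ) (l : List ℕ) :
    toPol (demL r c l) = (c : ℂ) • dem r (mono l) := by
  induction l with
  | nil =>
    have h := dem_spec r 1
    rw [show sig r 1 = 1 by simp [sig], sub_self] at h
    simp [demL, toPol, mono, (mul_eq_zero.1 h).resolve_left (diff_ne r)]
  | cons k l ih =>
    refine mul_left_cancel₀ (diff_ne r) ?_
    have h := dem_spec r (mono l)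
    rw [demL, toPol_append, toPol_mulX, ih, mul_smul_comm _ (X r - X (r + 1)), dem_spec, mono,
      sig_mul, cond_beq, cond_beq, sk_def, Nat.succ_eq_add_one]
    split_ifs with h1 h2
    · subst h1
      simp only [toPol, smul_eq_C_mul, Int.cast_one, map_one]
      linear_combination (C (c : ℂ) * X (k + 1)) * h
    · subst h2
      simp only [toPol, smul_eq_C_mul, Int.cast_one, map_one, Int.cast_neg, map_neg]
      linear_combination (C (c : ℂ) * X r) * h
    · simp only [toPol, smul_eq_C_mul, Int.cast_one, map_one]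
      linear_combination (C (c : ℂ) * X k) * h

/-- The divided difference. -/
def demP (r : ℕ) : SP → SP
  | [] => []
  | t :: P => demL r t.2 t.1 ++ demP r P

theorem toPol_demP (r : ℕ) (P : SP) : toPol (demP r P) = dem r (toPol P) := by
  induction P with
  | nil => simp [toPol, demP]
  | cons t P ih => simp only [toPol, demP, toPol_append, toPol_demL, ih, map_add, map_smul]

/-- Insertion into a sorted list. -/
def insN (k : ℕ) : List ℕ → List ℕ
  | [] => [k]
  | a :: l => cond (Nat.ble k a) (k :: a :: l) (a :: insN k l)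

theorem mono_insN (k : ℕ) (l : List ℕ) : mono (insN k l) = X k * mono l := by
  induction l with
  | nil => rfl
  | cons a l ih =>
    unfold insN
    cases Nat.ble k a
    · simp only [cond_false, mono, ih, mul_left_comm]
    · rfl

/-- Sorting. -/
def srt : List ℕ → List ℕ
  | [] => []
  | k :: l => insN k (srt l)

theorem mono_srt (l : List ℕ) : mono (srt l) = mono l := by
  induction l with
  | nil => rfl
  | cons a l ih => rw [srt, mono_insN, ih, mono]

/-- Equality test. -/
def beqL : List ℕ → List ℕ → Bool
  | [], [] => true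
  | a :: l, b :: m => cond (Nat.beq a b) (beqL l m) false
  | _, _ => false

theorem eq_of_beqL : ∀ {l m : List ℕ}, beqL l m = true → l = m
  | [], [], _ => rfl
  | a :: l, b :: m, h => by
    rw [beqL, cond_beq] at h
    split_ifs at h with e
    rw [e, eq_of_beqL h]
  | [], _ :: _, h => by simp [beqL] at h
  | _ :: _, [], h => by simp [beqL] at h

/-- Evaluate a natural number before continuing. -/
def fN {α : Type} (n : ℕ) (f : ℕ → α) : α :=
  match n with
  | 0 => f 0
  | m + 1 => f m.succ

theorem fN_eq {α : Type} (n : ℕ) (f : ℕ → α) : fN n f = f n := by cases n <;> rfl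

/-- Evaluate an integer before continuing. -/
def fI {α : Type} (c : ℤ) (f : ℤ → α) : α :=
  match c with
  | .ofNat n => fN n fun n => f (.ofNat n)
  | .negSucc n => fN n fun n => f (.negSucc n)

theorem fI_eq {α : Type} (c : ℤ) (f : ℤ → α) : fI c f = f c := by cases c <;> rw [fI, fN_eq]

/-- Evaluate a list before continuing. -/
def fL {α : Type} : List ℕ → (List ℕ → α) → α
  | [], f => f []
  | k :: l, f => fN k fun k => fL l fun l => f (k :: l)

theorem fL_eq {α : Type} (l : List ℕ) (f : List ℕ → α) : fL l f = f l := by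
  induction l generalizing f with
  | nil => rfl
  | cons k l ih => rw [fL, fN_eq, ih]

/-- Evaluate the spine and the coefficients before continuing, and drop the zero terms. -/
def fP : SP → (SP → SP) → SP
  | [], f => f []
  | (l, c) :: P, f => fI c fun c => fP P fun P => f (cond (Nat.beq c.natAbs 0) P ((l, c) :: P))

theorem fP_eq (P : SP) (f : SP → SP) : ∃ Q, toPol Q = toPol P ∧ fP P f = f Q := by
  induction P generalizing f with
  | nil => exact ⟨[], rfl, rfl⟩
  | cons t P ih =>
    obtain ⟨l, c⟩ := t
    obtain ⟨Q, h1, h2⟩ := ih fun P => f (cond (Nat.beq c.natAbs 0) P ((l, c) :: P))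
    refine ⟨_, ?_, by rw [fP, fI_eq, h2]⟩
    rw [cond_beq]
    split_ifs with h
    · simp [toPol, h1, Int.natAbs_eq_zero.1 h]
    · simp [toPol, h1]

/-- Search trees of terms. -/
inductive Tr : Type
  | nil : Tr
  | node (a : Tr) (h : ℕ) (l : List ℕ) (c : ℤ) (b : Tr) : Tr

/-- The terms of a tree, followed by those of `P`. -/
def Tr.toL : Tr → SP → SP
  | .nil, P => P
  | .node a _ l c b, P => a.toL ((l, c) :: b.toL P)

/-- The polynomial of a tree. -/
noncomputable def Tr.val : Tr → Pol
  | .nil => 0
  | .node a _ l c b => a.val + (c : ℂ) • mono l + b.val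

theorem Tr.toPol_toL (T : Tr) (P : SP) : toPol (T.toL P) = T.val + toPol P := by
  induction T generalizing P with
  | nil => exact (zero_add _).symm
  | node a h l c b ia ib => simp only [toL, val, ia, toPol, ib, add_assoc]

/-- Add one term with key `h`. -/
noncomputable def Tr.ins (h : ℕ) (l : List ℕ) (c : ℤ) (T : Tr) : Tr :=
  Tr.rec (.node .nil h l c .nil) (fun a h' l' c' b ia ib =>
    cond (Nat.ble h h') (cond (cond (Nat.ble h' h) (beqL (srt l) (srt l')) false)
      (.node a h' l' (Int.add c c') b) (.node ia h' l' c' b)) (.node a h' l' c' ib)) T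

theorem Tr.val_ins (h : ℕ) (l : List ℕ) (c : ℤ) (T : Tr) :
    (T.ins h l c).val = (c : ℂ) • mono l + T.val := by
  induction T with
  | nil => simp [ins, val]
  | node a h' l' c' b ia ib =>
    change (cond (Nat.ble h h') (cond (cond (Nat.ble h' h) (beqL (srt l) (srt l')) false)
      (node a h' l' (Int.add c c') b) (node (a.ins h l c) h' l' c' b))
      (node a h' l' c' (b.ins h l c))).val = _
    cases Nat.ble h h'
    · simp only [cond_false, val, ib, add_left_comm]
    cases Nat.ble h' h
    · simp only [cond_false, cond_true, val, ia, add_assoc]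
    cases e : beqL (srt l) (srt l')
    · simp only [cond_false, cond_true, val, ia, add_assoc]
    · have := congrArg mono (eq_of_beqL e)
      rw [mono_srt, mono_srt] at this
      simp only [cond_true, val, Int.add_def, Int.cast_add, add_smul, this, add_assoc, add_left_comm]

/-- A hash value of a monomial. -/
def key : List ℕ → ℕ
  | [] => 0
  | k :: l => Nat.mod (Nat.add (Nat.pow 7 k) (key l)) 1000003

/-- Collect equal monomials. -/
noncomputable def collect : SP → Tr
  | [] => .nil
  | (l, c) :: P => fL l fun l => fI c fun c => fN (key l) fun h => (collect P).ins h l c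

theorem val_collect (P : SP) : (collect P).val = toPol P := by
  induction P with
  | nil => rfl
  | cons t P ih =>
    obtain ⟨l, c⟩ := t
    rw [collect, fL_eq, fI_eq, fN_eq, Tr.val_ins, ih, toPol]

/-- The crossing with colours `j` after the crossing. -/
noncomputable def stepP (j : ℕ → ℤ) (r : ℕ) (P : SP) : SP :=
  (collect (if j r = j (r + 1) then demP r P
    else if j r - j (r + 1) = -1 then mulX r 1 (swp r P) ++ mulX (r + 1) (-1) (swp r P)
    else swp r P)).toL []

theorem toPol_stepP (j : ℕ → ℤ) (r : ℕ) (P : SP) : toPol (stepP j r P) = polOp j r (toPol P) := by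
  unfold stepP polOp
  rw [Tr.toPol_toL, val_collect, toPol, add_zero]
  split_ifs
  · exact toPol_demP r P
  · simp [toPol_append, toPol_mulX, toPol_swp, sub_eq_add_neg, add_mul]
  · exact toPol_swp r P

open Classical in
/-- A polynomial placed at the colours `i`. -/
noncomputable def sgl (i : ℕ → ℤ) (f : Pol) : PolX := fun j => if j = i then f else 0

theorem sw_sw (r : ℕ) (i : ℕ → ℤ) : sw r (sw r i) = i := by
  funext k
  simp [sw]

theorem polP_sgl (r : ℕ) (i : ℕ → ℤ) (P : SP) :
    polP r (sgl i (toPol P)) = sgl (sw r i) (toPol (stepP (sw r i) r P)) := by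
  funext j
  rw [polP_apply, toPol_stepP]
  unfold sgl
  by_cases h : j = sw r i
  · rw [if_pos h, if_pos (by rw [h, sw_sw]), h]
  · rw [if_neg h, if_neg fun e => h (by rw [← e, sw_sw]), map_zero]

theorem polY_sgl (k : ℕ) (i : ℕ → ℤ) (P : SP) :
    polY k (sgl i (toPol P)) = sgl i (toPol (mulX k 1 P)) := by
  funext j
  rw [polY_apply, toPol_mulX]
  unfold sgl
  split_ifs <;> simp

/-- Exchange two neighbouring entries of a list. -/
def swL : ℕ → List ℤ → List ℤ
  | 0, a :: b :: l => b :: a :: l
  | r + 1, a :: l => a :: swL r l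
  | _, l => l

theorem length_swL : ∀ (r : ℕ) (c : List ℤ), (swL r c).length = c.length
  | 0, [] => rfl
  | 0, [_] => rfl
  | 0, _ :: _ :: _ => rfl
  | _ + 1, [] => rfl
  | r + 1, _ :: l => congrArg Nat.succ (length_swL r l)

theorem getD_swL : ∀ (r : ℕ) (c : List ℤ) (k : ℕ), r + 1 < c.length →
    (swL r c).getD k 0 = c.getD (sk r k) 0
  | 0, [], _, h => by simp at h
  | 0, [_], _, h => by simp at h
  | 0, _ :: _ :: _, 0, _ => rfl
  | 0, _ :: _ :: _, 1, _ => rfl
  | 0, _ :: _ :: _, _ + 2, _ => rfl
  | _ + 1, [], _, h => by simp at h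
  | _ + 1, _ :: _, 0, _ => rfl
  | r + 1, a :: l, k + 1, h => by
    have e : sk (r + 1) (k + 1) = sk r k + 1 := by
      simp only [sk_def, Nat.add_right_cancel_iff]
      split_ifs <;> rfl
    rw [e]
    exact getD_swL r l k (Nat.lt_of_succ_lt_succ h)

theorem wd_swL {r : ℕ} {c : List ℤ} (h : r + 1 < c.length) : wd (swL r c) = sw r (wd c) := by
  funext k
  rw [sw, sk_eq]
  exact getD_swL r c k h

/-- The colours after a word. -/
def tgtL (c : List ℤ) : List Let → List ℤ
  | [] => c
  | .y _ :: w => tgtL c w
  | .p r :: w => tgtL (swL r c) w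

/-- Evaluate a word. -/
noncomputable def runP (c : List ℤ) : List Let → SP → SP
  | [], P => P
  | .y k :: w, P => runP c w (mulX k 1 P)
  | .p r :: w, P => fP (stepP (wd (swL r c)) r P) (runP (swL r c) w)

/-- The letter acts on the first sixteen strands. -/
def small : Let → Bool
  | .y _ => true
  | .p r => Nat.ble r 14

theorem ev_sgl (K : KLR 16 PolX) (hy : K.y = polY) (hp : K.ψ = polP) (w : List Let) (c : List ℤ)
    (hc : c.length = 16) (h : w.all small = true) (P : SP) :
    K.ev w (sgl (wd c) (toPol P)) = sgl (wd (tgtL c w)) (toPol (runP c w P)) := by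
  induction w generalizing c P with
  | nil => rfl
  | cons l w ih =>
    rw [List.all_cons, Bool.and_eq_true] at h
    cases l with
    | y k => rw [KLR.ev, Module.End.mul_apply, KLR.op, hy, polY_sgl, ih c hc h.2, tgtL, runP]
    | p r =>
      have := Nat.le_of_ble_eq_true h.1
      obtain ⟨Q, h1, h2⟩ := fP_eq (stepP (wd (swL r c)) r P) (runP (swL r c) w)
      rw [KLR.ev, Module.End.mul_apply, KLR.op, hp, polP_sgl, ← wd_swL (by omega), ← h1,
        ih _ ((length_swL r c).trans hc) h.2, tgtL, runP, h2]

theorem polOne_eq : polOne = sgl (wd qW) (toPol [([], 1)]) := by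
  funext j
  simp [polOne, sgl, toPol, mono]

theorem sgl_nil (i : ℕ → ℤ) : sgl i (toPol []) = 0 := by
  funext j
  simp [sgl, toPol]

theorem sgl_const (c : ℤ) : sgl (wd qW) (toPol [([], c)]) = (c : ℂ) • polOne := by
  funext j
  simp [polOne, sgl, toPol, mono]

theorem run14 : runP qW (wT ++ [Let.y 14] ++ wV) [([], 1)] = [] := by decide +kernel

theorem run15 : runP qW (wT ++ [Let.y 15] ++ wV) [([], 1)] = [([], -2)] := by decide +kernel

theorem runC : runP qW wC [([], 1)] = [([], -1)] := by decide +kernel

theorem runJ : ∀ r ∈ Jq, stepP (sw r (wd qW)) r [([], 1)] = [] := by decide +kernel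

theorem tgt15 : tgtL qW (wT ++ [Let.y 15] ++ wV) = qW := by decide +kernel

theorem tgtC : tgtL qW wC = qW := by decide +kernel

end KEval

open KEval

theorem polOne_ne : polOne ≠ 0 := by
  intro h
  simpa [polOne] using congrFun h (wd qW)

theorem polOne_mem (K : KLR 16 PolX) (hG : K.G = polG) (hp : K.ψ = polP) :
    polOne ∈ K.N (wd qW) Jq := by
  refine Submodule.mem_inf.2 ⟨?_, (Submodule.mem_iInf _).2 fun r => ?_⟩
  · rw [hG]
    exact fun j hj => if_neg hj
  · rw [LinearMap.mem_ker, hp, polOne_eq, polP_sgl, runJ r.1 r.2, sgl_nil]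

theorem eval_14 (K : KLR 16 PolX) (hy : K.y = polY) (hp : K.ψ = polP) :
    K.ev (wT ++ [Let.y 14] ++ wV) polOne = 0 := by
  rw [polOne_eq, ev_sgl K hy hp _ _ rfl (by decide +kernel), run14, sgl_nil]

theorem eval_15 (K : KLR 16 PolX) (hy : K.y = polY) (hp : K.ψ = polP) :
    K.ev (wT ++ [Let.y 15] ++ wV) polOne = (-2 : ℂ) • polOne := by
  conv_lhs => rw [polOne_eq, ev_sgl K hy hp _ _ rfl (by decide +kernel), run15, tgt15, sgl_const]
  norm_num

theorem eval_C (K : KLR 16 PolX) (hy : K.y = polY) (hp : K.ψ = polP) :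
    K.ev wC polOne = (-1 : ℂ) • polOne := by
  conv_lhs => rw [polOne_eq, ev_sgl K hy hp _ _ rfl (by decide +kernel), runC, tgtC, sgl_const]
  norm_num

end Pool.Agent.KM
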