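import Pool.Agent.Lib.MP_515a76_al.KDefs
import Pool.Agent.Lib.MP_515a76_al.KEq

/-! The polynomial representation, products and shifts of KLR representations. -/

namespace Pool.Agent.KM

open MvPolynomial

/-- Polynomials in `y 0, y 1, ...`. -/
abbrev Pol : Type := MvPolynomial ℕ ℂ

/-- Exchange of the variables `r` and `r + 1`. -/
noncomputable def sig (r : ℕ) : Pol →ₗ[ℂ] Pol := (rename (Equiv.swap r (r + 1))).toLinearMap

namespace KP

theorem sig_apply (r : ℕ) (f : Pol) : sig r f = rename (Equiv.swap r (r + 1)) f := rfl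

theorem sig_mul (r : ℕ) (f g : Pol) : sig r (f * g) = sig r f * sig r g := by
  simp only [sig_apply, map_mul]

theorem sig_pow (r : ℕ) (f : Pol) (n : ℕ) : sig r (f ^ n) = sig r f ^ n := by
  simp only [sig_apply, map_pow]

theorem sig_one (r : ℕ) : sig r (1 : Pol) = 1 := by
  simp only [sig_apply, map_one]

theorem sig_C (r : ℕ) (c : ℂ) : sig r (C c : Pol) = C c := by
  simp only [sig_apply, rename_C]

theorem sig_X (r k : ℕ) : sig r (X k : Pol) = X (Equiv.swap r (r + 1) k) := by
  simp only [sig_apply, rename_X]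

theorem sig_X_left (r : ℕ) : sig r (X r : Pol) = X (r + 1) := by
  rw [sig_X, Equiv.swap_apply_left]

theorem sig_X_right (r : ℕ) : sig r (X (r + 1) : Pol) = X r := by
  rw [sig_X, Equiv.swap_apply_right]

theorem sig_X_of_ne {r k : ℕ} (h1 : k ≠ r) (h2 : k ≠ r + 1) : sig r (X k : Pol) = X k := by
  rw [sig_X, Equiv.swap_apply_of_ne_of_ne h1 h2]

theorem sig_sig (r : ℕ) (f : Pol) : sig r (sig r f) = f := by
  simp only [sig_apply, rename_rename]
  have h : (Equiv.swap r (r + 1)) ∘ (Equiv.swap r (r + 1)) = id := by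
    funext k
    simp
  rw [h, rename_id]
  rfl

theorem sig_far {r t : ℕ} (h : r + 1 < t) (f : Pol) : sig r (sig t f) = sig t (sig r f) := by
  simp only [sig_apply, rename_rename]
  have h : (Equiv.swap r (r + 1)) ∘ (Equiv.swap t (t + 1)) =
      (Equiv.swap t (t + 1)) ∘ (Equiv.swap r (r + 1)) := by
    funext k
    simp only [Function.comp, Equiv.swap_apply_def]
    split_ifs <;> omega
  rw [h]

theorem sig_braid (r : ℕ) (f : Pol) :
    sig r (sig (r + 1) (sig r f)) = sig (r + 1) (sig r (sig (r + 1) f)) := by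
  simp only [sig_apply, rename_rename]
  have h : ((Equiv.swap r (r + 1)) ∘ (Equiv.swap (r + 1) (r + 1 + 1))) ∘ (Equiv.swap r (r + 1)) =
      ((Equiv.swap (r + 1) (r + 1 + 1)) ∘ (Equiv.swap r (r + 1))) ∘
        (Equiv.swap (r + 1) (r + 1 + 1)) := by
    funext k
    simp only [Function.comp, Equiv.swap_apply_def]
    split_ifs <;> omega
  rw [← Function.comp_assoc, ← Function.comp_assoc, h]

theorem X_sub_X_ne {a b : ℕ} (h : a ≠ b) : (X a - X b : Pol) ≠ 0 := by
  intro h0
  exact h (X_injective (sub_eq_zero.1 h0))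

theorem delta_ne (r : ℕ) : (X r - X (r + 1) : Pol) ≠ 0 := X_sub_X_ne (by omega)

theorem exists_quot (r : ℕ) (f : Pol) : ∃ g : Pol, (X r - X (r + 1)) * g = f - sig r f := by
  induction f using MvPolynomial.induction_on with
  | C c => exact ⟨0, by rw [sig_C]; ring⟩
  | add p q hp hq =>
    obtain ⟨g, hg⟩ := hp
    obtain ⟨h, hh⟩ := hq
    exact ⟨g + h, by rw [map_add]; linear_combination hg + hh⟩
  | mul_X p k hp =>
    obtain ⟨g, hg⟩ := hp
    by_cases h1 : k = r
    · subst h1
      exact ⟨g * X (k + 1) + p, by rw [sig_mul, sig_X_left]; linear_combination X (k + 1) * hg⟩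
    by_cases h2 : k = r + 1
    · subst h2
      exact ⟨g * X r - p, by rw [sig_mul, sig_X_right]; linear_combination X r * hg⟩
    · exact ⟨g * X k, by rw [sig_mul, sig_X_of_ne h1 h2]; linear_combination X k * hg⟩

end KP

open KP in
theorem exists_dem (r : ℕ) :
    ∃ D : Pol →ₗ[ℂ] Pol, ∀ f, (X r - X (r + 1)) * D f = f - sig r f := by
  choose q hq using exists_quot r
  refine ⟨{ toFun := q, map_add' := fun f g => ?_, map_smul' := fun c f => ?_ }, hq⟩
  · apply mul_left_cancel₀ (delta_ne r)
    rw [mul_add, hq, hq, hq, map_add]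
    ring
  · apply mul_left_cancel₀ (delta_ne r)
    rw [hq, RingHom.id_apply, mul_smul_comm, hq, map_smul, smul_sub]

/-- The divided difference operator. -/
noncomputable def dem (r : ℕ) : Pol →ₗ[ℂ] Pol := (exists_dem r).choose

theorem dem_spec (r : ℕ) (f : Pol) : (X r - X (r + 1)) * dem r f = f - sig r f :=
  (exists_dem r).choose_spec f

/-- The operator on polynomials for a crossing with colours `j` after the crossing. -/
noncomputable def polOp (j : ℕ → ℤ) (r : ℕ) : Pol →ₗ[ℂ] Pol :=
  if j r = j (r + 1) then dem r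
  else if j r - j (r + 1) = -1 then (LinearMap.mulLeft ℂ (X r - X (r + 1) : Pol)).comp (sig r)
  else sig r

/-- The space of the polynomial representation. -/
abbrev PolX : Type := (ℕ → ℤ) → Pol

/-- Functions supported at `i`. -/
def polG (i : ℕ → ℤ) : Submodule ℂ PolX where
  carrier := {f | ∀ j, j ≠ i → f j = 0}
  add_mem' := fun ha hb j hj => by simp [ha j hj, hb j hj]
  zero_mem' := fun _ _ => rfl
  smul_mem' := fun c _ ha j hj => by simp [ha j hj]

/-- Multiplication by `y k`. -/
noncomputable def polY (k : ℕ) : Module.End ℂ PolX :=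
  LinearMap.pi fun j => (LinearMap.mulLeft ℂ (X k : Pol)).comp (LinearMap.proj j)

/-- The crossing. -/
noncomputable def polP (r : ℕ) : Module.End ℂ PolX :=
  LinearMap.pi fun j => (polOp j r).comp (LinearMap.proj (sw r j))

theorem polY_apply (k : ℕ) (f : PolX) (j : ℕ → ℤ) : polY k f j = X k * f j := rfl

theorem polP_apply (r : ℕ) (f : PolX) (j : ℕ → ℤ) : polP r f j = polOp j r (f (sw r j)) := rfl

namespace KP

/-- The crossing operator in terms of the two colours after the crossing. -/
noncomputable def cop (a b : ℤ) (r : ℕ) : Pol →ₗ[ℂ] Pol :=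
  if a = b then dem r
  else if a - b = -1 then (LinearMap.mulLeft ℂ (X r - X (r + 1) : Pol)).comp (sig r)
  else sig r

theorem polOp_eq (j : ℕ → ℤ) (r : ℕ) : polOp j r = cop (j r) (j (r + 1)) r := rfl

/-- The coefficient of `f` in the numerator of a crossing. -/
noncomputable def alp (a b : ℤ) : Pol := if a = b then 1 else 0

/-- The coefficient of the swapped `f` in the numerator of a crossing. -/
noncomputable def bet (a b : ℤ) (u v : Pol) : Pol :=
  if a = b then -1 else if a - b = -1 then (u - v) ^ 2 else u - v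

theorem sig_alp (r : ℕ) (a b : ℤ) : sig r (alp a b) = alp a b := by
  unfold alp
  split_ifs
  · exact sig_one r
  · exact map_zero _

theorem sig_bet (r : ℕ) (a b : ℤ) (u v : Pol) :
    sig r (bet a b u v) = bet a b (sig r u) (sig r v) := by
  unfold bet
  split_ifs
  · rw [map_neg, sig_one]
  · rw [sig_pow, map_sub]
  · rw [map_sub]

theorem cop_spec (a b : ℤ) (r : ℕ) (f : Pol) :
    (X r - X (r + 1)) * cop a b r f = alp a b * f + bet a b (X r) (X (r + 1)) * sig r f := by
  unfold cop alp bet
  split_ifs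
  · rw [dem_spec]
    ring
  · simp only [LinearMap.comp_apply, LinearMap.mulLeft_apply]
    ring
  · ring

theorem cop_py (a b : ℤ) (r k : ℕ) (f : Pol) :
    cop b a r (X k * f) = X (Equiv.swap r (r + 1) k) * cop b a r f +
      (if a = b then (if k = r then (1 : ℂ) else if k = r + 1 then -1 else 0) else 0) • f := by
  apply mul_left_cancel₀ (delta_ne r)
  have h := cop_spec b a r f
  rw [cop_spec, sig_mul, sig_X]
  have key : alp b a * (X k - X (Equiv.swap r (r + 1) k)) * f = (X r - X (r + 1)) *
      ((if a = b then (if k = r then (1 : ℂ) else if k = r + 1 then -1 else 0) else 0) • f) := by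
    unfold alp
    by_cases hab : a = b
    · subst hab
      by_cases h1 : k = r
      · subst h1
        simp
      by_cases h2 : k = r + 1
      · subst h2
        simp
        ring
      · simp [h1, h2, Equiv.swap_apply_of_ne_of_ne h1 h2]
    · have hba : ¬ b = a := fun h => hab h.symm
      simp [hab, hba]
  linear_combination (-X (Equiv.swap r (r + 1) k)) * h + key

theorem cop_far (a b c e : ℤ) {r t : ℕ} (h : r + 1 < t) (f : Pol) :
    cop a b r (cop c e t f) = cop c e t (cop a b r f) := by
  apply mul_left_cancel₀ (mul_ne_zero (delta_ne r) (delta_ne t))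
  have h1 := cop_spec c e t f
  have h2 := congrArg (sig r) h1
  have h3 := cop_spec a b r (cop c e t f)
  have g1 := cop_spec a b r f
  have g2 := congrArg (sig t) g1
  have g3 := cop_spec c e t (cop a b r f)
  simp only [sig_mul, map_add, map_sub, sig_alp, sig_bet,
    sig_X_of_ne (show t ≠ r by omega) (show t ≠ r + 1 by omega),
    sig_X_of_ne (show t + 1 ≠ r by omega) (show t + 1 ≠ r + 1 by omega)] at h2
  simp only [sig_mul, map_add, map_sub, sig_alp, sig_bet,
    sig_X_of_ne (show r ≠ t by omega) (show r ≠ t + 1 by omega),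
    sig_X_of_ne (show r + 1 ≠ t by omega) (show r + 1 ≠ t + 1 by omega)] at g2
  rw [← sig_far h] at g2
  linear_combination (X t - X (t + 1)) * h3 + alp a b * h1 + bet a b (X r) (X (r + 1)) * h2 -
    (X r - X (r + 1)) * g3 - alp c e * g1 - bet c e (X t) (X (t + 1)) * g2

theorem cop_sq (a b : ℤ) (r : ℕ) (f : Pol) :
    cop a b r (cop b a r f) = if a = b then 0 else if a - b = -1 then X r * f - X (r + 1) * f
      else if a - b = 1 then X (r + 1) * f - X r * f else f := by
  apply mul_left_cancel₀ (mul_ne_zero (delta_ne r) (delta_ne r))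
  have h1 := cop_spec b a r f
  have h2 := congrArg (sig r) h1
  have h3 := cop_spec a b r (cop b a r f)
  simp only [sig_mul, map_add, map_sub, sig_alp, sig_bet, sig_X_left, sig_X_right, sig_sig] at h2
  have key : (X r - X (r + 1)) * (X r - X (r + 1)) * cop a b r (cop b a r f) =
      alp a b * (alp b a * f + bet b a (X r) (X (r + 1)) * sig r f) -
        bet a b (X r) (X (r + 1)) * (alp b a * sig r f + bet b a (X (r + 1)) (X r) * f) := by
    linear_combination (X r - X (r + 1)) * h3 + alp a b * h1 - bet a b (X r) (X (r + 1)) * h2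
  rw [key]
  unfold alp bet
  split_ifs <;> first | (exfalso; omega) | ring

theorem cop_braid (a b c : ℤ) (r : ℕ) (f : Pol) :
    cop c b r (cop c a (r + 1) (cop b a r f)) =
      cop b a (r + 1) (cop c a r (cop c b (r + 1) f)) +
        (if a = c then (if b = a + 1 then (1 : ℂ) else if b = a - 1 then -1 else 0) else 0) • f := by
  have hxz : (X r - X (r + 1 + 1) : Pol) ≠ 0 := X_sub_X_ne (by omega)
  have s2 : sig r (X (r + 1 + 1) : Pol) = X (r + 1 + 1) := sig_X_of_ne (by omega) (by omega)
  have t0 : sig (r + 1) (X r : Pol) = X r := sig_X_of_ne (by omega) (by omega)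
  apply mul_left_cancel₀ (mul_ne_zero (mul_ne_zero (mul_ne_zero (delta_ne r) (delta_ne r))
    (mul_ne_zero (delta_ne (r + 1)) (delta_ne (r + 1)))) hxz)
  have f1 := cop_spec b a r f
  have f1t := congrArg (sig (r + 1)) f1
  have f1s := congrArg (sig r) f1
  simp only [sig_mul, map_add, map_sub, sig_alp, sig_bet, sig_X_left, sig_X_right, sig_sig,
    t0] at f1t f1s
  have f1st := congrArg (sig r) f1t
  simp only [sig_mul, map_add, map_sub, sig_alp, sig_bet, sig_X_left, s2] at f1st
  have f2 := cop_spec c a (r + 1) (cop b a r f)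
  have f2s := congrArg (sig r) f2
  simp only [sig_mul, map_add, map_sub, sig_alp, sig_bet, sig_X_right, s2] at f2s
  have f3 := cop_spec c b r (cop c a (r + 1) (cop b a r f))
  have g1 := cop_spec c b (r + 1) f
  have g1s := congrArg (sig r) g1
  have g1t := congrArg (sig (r + 1)) g1
  simp only [sig_mul, map_add, map_sub, sig_alp, sig_bet, sig_X_left, sig_X_right, sig_sig,
    s2] at g1s g1t
  have g1ts := congrArg (sig (r + 1)) g1s
  simp only [sig_mul, map_add, map_sub, sig_alp, sig_bet, sig_X_right, t0] at g1ts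
  rw [← sig_braid] at g1ts
  have g2 := cop_spec c a r (cop c b (r + 1) f)
  have g2t := congrArg (sig (r + 1)) g2
  simp only [sig_mul, map_add, map_sub, sig_alp, sig_bet, sig_X_left, t0] at g2t
  have g3 := cop_spec b a (r + 1) (cop c a r (cop c b (r + 1) f))
  generalize (X r : Pol) = x at *
  generalize (X (r + 1) : Pol) = y at *
  generalize (X (r + 1 + 1) : Pol) = z at *
  have keyL : (x - y) * (x - y) * (y - z) * (x - z) * cop c b r (cop c a (r + 1) (cop b a r f)) =
      alp c b * (alp c a * (x - z) * (alp b a * f + bet b a x y * sig r f) +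
        bet c a y z * (x - y) * (alp b a * sig (r + 1) f + bet b a x z * sig (r + 1) (sig r f))) +
      bet c b x y * (-(alp c a * (y - z) * (alp b a * sig r f + bet b a y x * f)) +
        bet c a x z * (x - y) * (alp b a * sig r (sig (r + 1) f) +
          bet b a y z * sig r (sig (r + 1) (sig r f)))) := by
    linear_combination (x - y) * (y - z) * (x - z) * f3 +
      alp c b * ((x - y) * (x - z) * f2 + alp c a * (x - z) * f1 + bet c a y z * (x - y) * f1t) +
      bet c b x y * ((x - y) * (y - z) * f2s - alp c a * (y - z) * f1s +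
        bet c a x z * (x - y) * f1st)
  have keyR : (y - z) * (y - z) * (x - y) * (x - z) *
      cop b a (r + 1) (cop c a r (cop c b (r + 1) f)) =
      alp b a * (alp c a * (x - z) * (alp c b * f + bet c b y z * sig (r + 1) f) +
        bet c a x y * (y - z) * (alp c b * sig r f + bet c b x z * sig r (sig (r + 1) f))) +
      bet b a y z * (-(alp c a * (x - y) * (alp c b * sig (r + 1) f + bet c b z y * f)) +
        bet c a x z * (y - z) * (alp c b * sig (r + 1) (sig r f) +
          bet c b x y * sig r (sig (r + 1) (sig r f)))) := by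
    linear_combination (y - z) * (x - y) * (x - z) * g3 +
      alp b a * ((y - z) * (x - z) * g2 + alp c a * (x - z) * g1 + bet c a x y * (y - z) * g1s) +
      bet b a y z * ((y - z) * (x - y) * g2t - alp c a * (x - y) * g1t +
        bet c a x z * (y - z) * g1ts)
  have key : ∀ L R E : Pol, ∀ FL FR : Pol,
      (x - y) * (x - y) * (y - z) * (x - z) * L = FL →
      (y - z) * (y - z) * (x - y) * (x - z) * R = FR →
      (y - z) * FL = (x - y) * FR + (x - y) * (x - y) * ((y - z) * (y - z)) * (x - z) * E →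
      (x - y) * (x - y) * ((y - z) * (y - z)) * (x - z) * L =
        (x - y) * (x - y) * ((y - z) * (y - z)) * (x - z) * (R + E) := by
    intro L R E FL FR h1 h2 h3
    linear_combination (y - z) * h1 - (x - y) * h2 + h3
  refine key _ _ _ _ _ keyL keyR ?_
  clear keyL keyR key f1 f1t f1s f1st f2 f2s f3 g1 g1s g1t g1ts g2 g2t g3 s2 t0 hxz
  unfold alp bet
  split_ifs <;> first
    | (exfalso; omega)
    | (simp only [one_smul, neg_smul, zero_smul]; ring)

theorem sw_sw (r : ℕ) (i : ℕ → ℤ) : sw r (sw r i) = i := by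
  funext k
  simp [sw]

theorem sw_left (r : ℕ) (i : ℕ → ℤ) : sw r i r = i (r + 1) := by
  simp [sw]

theorem sw_right (r : ℕ) (i : ℕ → ℤ) : sw r i (r + 1) = i r := by
  simp [sw]

theorem sw_of_ne {r k : ℕ} (i : ℕ → ℤ) (h1 : k ≠ r) (h2 : k ≠ r + 1) : sw r i k = i k := by
  simp only [sw, Equiv.swap_apply_of_ne_of_ne h1 h2]

theorem sw_of_eq {r : ℕ} {i : ℕ → ℤ} (h : i r = i (r + 1)) : sw r i = i := by
  funext k
  by_cases h1 : k = r
  · rw [h1, sw_left, h]
  by_cases h2 : k = r + 1
  · rw [h2, sw_right, h]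
  · exact sw_of_ne i h1 h2

theorem sw_far {r t : ℕ} (h : r + 1 < t) (i : ℕ → ℤ) : sw r (sw t i) = sw t (sw r i) := by
  funext k
  simp only [sw]
  congr 1
  simp only [Equiv.swap_apply_def]
  split_ifs <;> omega

theorem sw_braid (r : ℕ) (i : ℕ → ℤ) :
    sw r (sw (r + 1) (sw r i)) = sw (r + 1) (sw r (sw (r + 1) i)) := by
  funext k
  simp only [sw]
  congr 1
  simp only [Equiv.swap_apply_def]
  split_ifs <;> omega

theorem sw_braid_of_eq {r : ℕ} {i : ℕ → ℤ} (h : i r = i (r + 2)) :
    sw (r + 1) (sw r (sw (r + 1) i)) = i := by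
  funext k
  simp only [sw, Equiv.swap_apply_def]
  split_ifs <;> first
    | rfl
    | (exfalso; omega)
    | (subst_vars; first | rfl | exact h | exact h.symm)

open Classical in
/-- The polynomial `P` placed at the colours `i`. -/
noncomputable def sing (i : ℕ → ℤ) (P : Pol) : PolX := fun j => if j = i then P else 0

theorem sing_mem (i : ℕ → ℤ) (P : Pol) : sing i P ∈ polG i := fun j hj => by
  simp [sing, hj]

theorem eq_sing {i : ℕ → ℤ} {m : PolX} (hm : m ∈ polG i) : m = sing i (m i) := by
  funext j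
  by_cases h : j = i
  · simp [sing, h]
  · simp only [sing, h, if_false]
    exact hm j h

theorem sing_zero (i : ℕ → ℤ) : sing i 0 = 0 := by
  funext j
  simp [sing]

theorem sing_add (i : ℕ → ℤ) (P Q : Pol) : sing i (P + Q) = sing i P + sing i Q := by
  funext j
  by_cases h : j = i <;> simp [sing, h]

theorem sing_sub (i : ℕ → ℤ) (P Q : Pol) : sing i (P - Q) = sing i P - sing i Q := by
  funext j
  by_cases h : j = i <;> simp [sing, h]

theorem sing_smul (i : ℕ → ℤ) (c : ℂ) (P : Pol) : sing i (c • P) = c • sing i P := by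
  funext j
  by_cases h : j = i <;> simp [sing, h]

theorem polY_sing (k : ℕ) (i : ℕ → ℤ) (P : Pol) : polY k (sing i P) = sing i (X k * P) := by
  funext j
  rw [polY_apply]
  by_cases h : j = i <;> simp [sing, h]

theorem polP_sing (r : ℕ) (i : ℕ → ℤ) (P : Pol) :
    polP r (sing i P) = sing (sw r i) (cop (i (r + 1)) (i r) r P) := by
  funext j
  rw [polP_apply]
  by_cases h : j = sw r i
  · subst h
    simp only [sing, sw_sw, if_true, polOp_eq, sw_left, sw_right]
  · have h' : sw r j ≠ i := fun h0 => h (by rw [← h0, sw_sw])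
    simp only [sing, h, h', if_false, map_zero]

end KP

open KP in
theorem exists_polK (d : ℕ) : ∃ K : KLR d PolX, K.G = polG ∧ K.y = polY ∧ K.ψ = polP := by
  refine ⟨{
    G := polG, y := polY, ψ := polP
    y_mem := fun i k _ m hm => ?_
    p_mem := fun i r _ m hm => ?_
    yy := fun i k l _ _ m hm => ?_
    py := fun i r k _ _ m hm => ?_
    far := fun i r t hrt _ m hm => ?_
    sq := fun i r _ m hm => ?_
    braid := fun i r _ m hm => ?_ }, rfl, rfl, rfl⟩
  · rw [eq_sing hm, polY_sing]
    exact sing_mem _ _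
  · rw [eq_sing hm, polP_sing]
    exact sing_mem _ _
  · rw [eq_sing hm, polY_sing, polY_sing, polY_sing, polY_sing, mul_left_comm]
  · rw [eq_sing hm, polY_sing, polP_sing, polP_sing, polY_sing, cop_py, sing_add, sing_smul]
    unfold errY
    by_cases h : i r = i (r + 1)
    · rw [sw_of_eq h]
    · simp only [h, if_false, zero_smul]
  · rw [eq_sing hm, polP_sing, polP_sing, polP_sing, polP_sing, sw_far hrt,
      sw_of_ne i (show r + 1 ≠ t by omega) (show r + 1 ≠ t + 1 by omega),
      sw_of_ne i (show r ≠ t by omega) (show r ≠ t + 1 by omega),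
      sw_of_ne i (show t + 1 ≠ r by omega) (show t + 1 ≠ r + 1 by omega),
      sw_of_ne i (show t ≠ r by omega) (show t ≠ r + 1 by omega), cop_far _ _ _ _ hrt]
  · rw [eq_sing hm, polP_sing, polP_sing, sw_sw, sw_left, sw_right, cop_sq, polY_sing, polY_sing]
    split_ifs
    · exact sing_zero i
    · exact sing_sub _ _ _
    · exact sing_sub _ _ _
    · rfl
  · have e1 : sw r i (r + 1 + 1) = i (r + 2) := sw_of_ne i (by omega) (by omega)
    have e2 : sw (r + 1) (sw r i) r = i (r + 1) := by
      rw [sw_of_ne _ (by omega) (by omega), sw_left]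
    have e3 : sw (r + 1) i r = i r := sw_of_ne i (by omega) (by omega)
    have e4 : sw r (sw (r + 1) i) (r + 1 + 1) = i (r + 1) := by
      rw [sw_of_ne _ (by omega) (by omega), sw_right]
    rw [eq_sing hm, polP_sing, polP_sing, polP_sing, polP_sing, polP_sing, polP_sing]
    simp only [sw_left, sw_right, e1, e2, e3, e4]
    rw [cop_braid (i r) (i (r + 1)) (i (r + 2)), sing_add, sing_smul, sw_braid]
    unfold errB
    by_cases h : i r = i (r + 2)
    · rw [sw_braid_of_eq h]
    · simp only [h, if_false, zero_smul]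

/-- The product of two representations. -/
theorem exists_prodK {d : ℕ} {X Y : Type} [AddCommGroup X] [Module ℂ X] [AddCommGroup Y]
    [Module ℂ Y] (K : KLR d X) (L : KLR d Y) :
    ∃ P : KLR d (X × Y), (∀ i, P.G i = (K.G i).prod (L.G i)) ∧
      (∀ r, P.ψ r = (K.ψ r).prodMap (L.ψ r)) ∧
      ∀ w, P.ev w = (K.ev w).prodMap (L.ev w) := by
  refine ⟨{
    G := fun i => (K.G i).prod (L.G i)
    y := fun k => (K.y k).prodMap (L.y k)
    ψ := fun r => (K.ψ r).prodMap (L.ψ r)
    y_mem := fun i k hk m hm => ⟨K.y_mem i k hk _ hm.1, L.y_mem i k hk _ hm.2⟩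
    p_mem := fun i r hr m hm => ⟨K.p_mem i r hr _ hm.1, L.p_mem i r hr _ hm.2⟩
    yy := fun i k l hk hl m hm => Prod.ext (K.yy i k l hk hl _ hm.1) (L.yy i k l hk hl _ hm.2)
    py := fun i r k hr hk m hm => Prod.ext (K.py i r k hr hk _ hm.1) (L.py i r k hr hk _ hm.2)
    far := fun i r t h1 h2 m hm => Prod.ext (K.far i r t h1 h2 _ hm.1) (L.far i r t h1 h2 _ hm.2)
    sq := fun i r hr m hm => ?_
    braid := fun i r hr m hm => Prod.ext (K.braid i r hr _ hm.1) (L.braid i r hr _ hm.2) },
    fun _ => rfl, fun _ => rfl, fun w => ?_⟩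
  · have h1 := K.sq i r hr _ hm.1
    have h2 := L.sq i r hr _ hm.2
    split_ifs at h1 h2 ⊢ <;> exact Prod.ext h1 h2
  · induction w with
    | nil => rfl
    | cons l w ih =>
      simp only [KLR.ev]
      rw [ih]
      cases l <;> rfl

namespace KP

/-- Colours `pre` on the first `lo` strands, followed by `i`. -/
def extW (lo : ℕ) (pre i : ℕ → ℤ) : ℕ → ℤ := fun k => if k < lo then pre k else i (k - lo)

theorem extW_add (lo : ℕ) (pre i : ℕ → ℤ) (k : ℕ) : extW lo pre i (lo + k) = i k := by
  simp [extW]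

theorem swap_add (lo r k : ℕ) :
    Equiv.swap (lo + r) (lo + r + 1) (lo + k) = lo + Equiv.swap r (r + 1) k := by
  simp only [Equiv.swap_apply_def]
  split_ifs <;> omega

theorem sw_extW (lo : ℕ) (pre i : ℕ → ℤ) (r : ℕ) :
    sw (lo + r) (extW lo pre i) = extW lo pre (sw r i) := by
  funext k
  by_cases h : k < lo
  · rw [sw_of_ne _ (by omega) (by omega)]
    simp [extW, h]
  · obtain ⟨j, rfl⟩ := Nat.exists_eq_add_of_le (not_lt.1 h)
    rw [extW_add]
    simp only [sw]
    rw [swap_add, extW_add]

end KP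

open KP in
/-- Forget the first `lo` strands, whose colours are fixed to be those of `pre`. -/
theorem exists_shiftK {lo d : ℕ} {X : Type} [AddCommGroup X] [Module ℂ X] (K : KLR (lo + d) X)
    (pre : ℕ → ℤ) :
    ∃ P : KLR d X, (∀ i, P.G i = K.G fun k => if k < lo then pre k else i (k - lo)) ∧
      (∀ k, P.y k = K.y (lo + k)) ∧ ∀ r, P.ψ r = K.ψ (lo + r) := by
  have hv : ∀ (i : ℕ → ℤ) (k : ℕ), extW lo pre i (lo + k) = i k := extW_add lo pre
  refine ⟨{
    G := fun i => K.G (extW lo pre i)
    y := fun k => K.y (lo + k)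
    ψ := fun r => K.ψ (lo + r)
    y_mem := fun i k hk m hm => K.y_mem _ _ (by omega) m hm
    p_mem := fun i r hr m hm => ?_
    yy := fun i k l hk hl m hm => K.yy _ _ _ (by omega) (by omega) m hm
    py := fun i r k hr hk m hm => ?_
    far := fun i r t h1 h2 m hm => K.far _ _ _ (by omega) (by omega) m hm
    sq := fun i r hr m hm => ?_
    braid := fun i r hr m hm => ?_ }, fun _ => rfl, fun _ => rfl, fun _ => rfl⟩
  · rw [← sw_extW]
    exact K.p_mem _ _ (by omega) m hm
  · have h := K.py _ (lo + r) (lo + k) (by omega) (by omega) m hm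
    rw [swap_add] at h
    rw [h]
    congr 2
    unfold errY
    rw [add_assoc, hv, hv]
    simp only [add_right_inj]
  · have h := K.sq _ (lo + r) (by omega) m hm
    rw [add_assoc, hv, hv] at h
    exact h
  · have h := K.braid _ (lo + r) (by omega) m hm
    unfold errB at h ⊢
    rw [add_assoc, add_assoc, hv, hv, hv] at h
    exact h

end Pool.Agent.KM
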