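import Pool.Agent.Lib.MP_515a76_al.KDefs

/-! Polynomial identities for the intertwiners of the degenerate affine Hecke algebra. -/

set_option linter.unusedSimpArgs false

namespace Pool.Agent.KM.DAHA

open Module

variable {d : ℕ} {X : Type} [AddCommGroup X] [Module ℂ X] (D : DAHA d X)

/-- The intertwiner. -/
def phi (r : ℕ) : End ℂ X := (D.x r - D.x (r + 1)) * D.s r + 1

/-- The element `1 + x k - x l`. -/
def P (k l : ℕ) : End ℂ X := 1 + D.x k - D.x l

theorem sx' {r : ℕ} (hr : r + 1 < d) : D.s r * D.x (r + 1) = D.x r * D.s r + 1 := by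
  have h := congrArg (fun t => D.s r * t * D.s r) (D.sx r hr)
  simp only [mul_sub, sub_mul, mul_one, ← mul_assoc, D.ss r hr, one_mul] at h
  rw [mul_assoc _ (D.s r), D.ss r hr, mul_one] at h
  rw [h, sub_add_cancel]

theorem kr_both {R : Type} [Ring R] {a b c : R} (h : a * b = c) :
    a * b = c ∧ ∀ w, a * (b * w) = c * w := ⟨h, fun w => by rw [← mul_assoc, h]⟩

/-- Rewriting rules for two strands. -/
theorem kr2 {r : ℕ} (hr : r + 1 < d) :
    (D.s r * D.x r = D.x (r + 1) * D.s r - 1 ∧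
      ∀ w, D.s r * (D.x r * w) = (D.x (r + 1) * D.s r - 1) * w) ∧
    (D.s r * D.x (r + 1) = D.x r * D.s r + 1 ∧
      ∀ w, D.s r * (D.x (r + 1) * w) = (D.x r * D.s r + 1) * w) ∧
    (D.s r * D.s r = 1 ∧ ∀ w, D.s r * (D.s r * w) = 1 * w) ∧
    (D.x (r + 1) * D.x r = D.x r * D.x (r + 1) ∧
      ∀ w, D.x (r + 1) * (D.x r * w) = D.x r * D.x (r + 1) * w) :=
  ⟨kr_both (D.sx r hr), kr_both (D.sx' hr), kr_both (D.ss r hr),
    kr_both (D.xx _ _ hr (by omega))⟩

/-- Rewriting rules for a further strand. -/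
theorem krf {r k : ℕ} (hr : r + 1 < d) (hk : k < d) (h1 : k ≠ r) (h2 : k ≠ r + 1) :
    (D.s r * D.x k = D.x k * D.s r ∧ ∀ w, D.s r * (D.x k * w) = D.x k * D.s r * w) ∧
    (D.x k * D.x r = D.x r * D.x k ∧ ∀ w, D.x k * (D.x r * w) = D.x r * D.x k * w) ∧
    (D.x k * D.x (r + 1) = D.x (r + 1) * D.x k ∧
      ∀ w, D.x k * (D.x (r + 1) * w) = D.x (r + 1) * D.x k * w) :=
  ⟨kr_both (D.sxfar r k hr hk h1 h2), kr_both (D.xx _ _ hk (by omega)), kr_both (D.xx _ _ hk hr)⟩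

/-- Rewriting rules for three strands. -/
theorem kr3 {r : ℕ} (hr : r + 2 < d) : r + 1 + 1 = r + 2 ∧
    (D.s (r + 1) * D.x (r + 1) = D.x (r + 2) * D.s (r + 1) - 1 ∧
      ∀ w, D.s (r + 1) * (D.x (r + 1) * w) = (D.x (r + 2) * D.s (r + 1) - 1) * w) ∧
    (D.s (r + 1) * D.x (r + 2) = D.x (r + 1) * D.s (r + 1) + 1 ∧
      ∀ w, D.s (r + 1) * (D.x (r + 2) * w) = (D.x (r + 1) * D.s (r + 1) + 1) * w) ∧
    (D.s (r + 1) * D.s (r + 1) = 1 ∧ ∀ w, D.s (r + 1) * (D.s (r + 1) * w) = 1 * w) ∧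
    (D.s (r + 1) * D.x r = D.x r * D.s (r + 1) ∧
      ∀ w, D.s (r + 1) * (D.x r * w) = D.x r * D.s (r + 1) * w) ∧
    (D.s (r + 1) * (D.s r * D.s (r + 1)) = D.s r * D.s (r + 1) * D.s r ∧
      ∀ w, D.s (r + 1) * (D.s r * (D.s (r + 1) * w)) = D.s r * D.s (r + 1) * D.s r * w) :=
  ⟨rfl, kr_both (D.sx (r + 1) hr), kr_both (D.sx' hr), kr_both (D.ss (r + 1) hr),
    kr_both (D.sxfar (r + 1) r hr (by omega) (by omega) (by omega)),
    by rw [D.braid r hr, mul_assoc], fun w => by rw [D.braid r hr]; simp only [mul_assoc]⟩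

theorem phi_x {r k : ℕ} (hr : r + 1 < d) (hk : k < d) :
    D.phi r * D.x k = D.x (Equiv.swap r (r + 1) k) * D.phi r := by
  by_cases h1 : k = r
  · subst h1
    simp only [Equiv.swap_apply_left, phi, mul_add, add_mul, mul_sub, sub_mul, mul_assoc, mul_one, one_mul,
      D.kr2 hr]
    abel
  by_cases h2 : k = r + 1
  · subst h2
    simp only [Equiv.swap_apply_right, phi, mul_add, add_mul, mul_sub, sub_mul, mul_assoc, mul_one, one_mul,
      D.kr2 hr]
    abel
  simp only [Equiv.swap_apply_of_ne_of_ne h1 h2, phi, mul_add, add_mul, mul_sub, sub_mul, mul_assoc, mul_one, one_mul,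
    D.krf hr hk h1 h2]

theorem phi_sq {r : ℕ} (hr : r + 1 < d) : D.phi r * D.phi r = D.P r (r + 1) * D.P (r + 1) r := by
  simp only [phi, P, mul_add, add_mul, mul_sub, sub_mul, mul_assoc, mul_one, one_mul,
    D.kr2 hr]
  abel

theorem s_comm_sq {r : ℕ} (hr : r + 1 < d) :
    Commute (D.s r) ((D.x r - D.x (r + 1)) * (D.x r - D.x (r + 1))) := by
  simp only [Commute, SemiconjBy, mul_add, add_mul, mul_sub, sub_mul, mul_assoc, mul_one, one_mul,
    D.kr2 hr]
  abel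

theorem one_sub_s_x {r : ℕ} (hr : r + 1 < d) :
    (1 - D.s r) * D.x r = D.x (r + 1) * (1 - D.s r) + D.P r (r + 1) := by
  simp only [P, mul_add, add_mul, mul_sub, sub_mul, mul_assoc, mul_one, one_mul,
    D.kr2 hr]
  abel

theorem one_sub_s_x' {r : ℕ} (hr : r + 1 < d) :
    (1 - D.s r) * D.x (r + 1) = D.x r * (1 - D.s r) - D.P r (r + 1) := by
  simp only [P, mul_add, add_mul, mul_sub, sub_mul, mul_assoc, mul_one, one_mul,
    D.kr2 hr]
  abel

theorem one_add_s_P {r : ℕ} (hr : r + 1 < d) :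
    (1 + D.s r) * D.P r (r + 1) = D.P (r + 1) r * (D.s r - 1) := by
  simp only [P, mul_add, add_mul, mul_sub, sub_mul, mul_assoc, mul_one, one_mul,
    D.kr2 hr]
  abel

theorem s_comm_PP {r k : ℕ} (hr : r + 1 < d) (hk : k < d) (h1 : k ≠ r) (h2 : k ≠ r + 1) :
    Commute (D.s r) (D.P k r * D.P k (r + 1)) ∧ Commute (D.s r) (D.P r k * D.P (r + 1) k) := by
  constructor <;>
  · simp only [Commute, SemiconjBy, P, mul_add, add_mul, mul_sub, sub_mul, mul_assoc, mul_one, one_mul,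
      D.kr2 hr, D.krf hr hk h1 h2]
    abel

theorem phi_phi_s {r : ℕ} (hr : r + 2 < d) :
    D.phi r * D.phi (r + 1) * D.s r = D.s (r + 1) * D.phi r * D.phi (r + 1) := by
  simp only [phi, mul_add, add_mul, mul_sub, sub_mul, mul_assoc, mul_one, one_mul,
    D.kr3 hr, D.kr2 (Nat.lt_of_succ_lt hr), D.krf (Nat.lt_of_succ_lt hr) hr (by omega) (by omega)]
  abel

theorem phi_phi_s' {r : ℕ} (hr : r + 2 < d) :
    D.phi (r + 1) * D.phi r * D.s (r + 1) = D.s r * D.phi (r + 1) * D.phi r := by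
  simp only [phi, mul_add, add_mul, mul_sub, sub_mul, mul_assoc, mul_one, one_mul,
    D.kr3 hr, D.kr2 (Nat.lt_of_succ_lt hr), D.krf (Nat.lt_of_succ_lt hr) hr (by omega) (by omega)]
  abel

theorem phi_braid {r : ℕ} (hr : r + 2 < d) :
    D.phi r * D.phi (r + 1) * D.phi r = D.phi (r + 1) * D.phi r * D.phi (r + 1) := by
  simp only [phi, mul_add, add_mul, mul_sub, sub_mul, mul_assoc, mul_one, one_mul,
    D.kr3 hr, D.kr2 (Nat.lt_of_succ_lt hr), D.krf (Nat.lt_of_succ_lt hr) hr (by omega) (by omega)]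
  abel

theorem kr_fix {A B s : End ℂ X} {z : X} (hz : s z = z) (h : A * (1 + s) = B * (1 + s)) :
    A z = B z := by
  have h1 := LinearMap.congr_fun h z
  simp only [End.mul_apply, LinearMap.add_apply, End.one_apply, hz, ← two_smul ℂ, map_smul] at h1
  exact smul_right_injective X (two_ne_zero' ℂ) h1

/-- Three equal colours, first side. -/
theorem aaa_left {r : ℕ} (hr : r + 2 < d) {z : X} (hz : D.s r z = z) :
    ((1 - D.s r) * D.P r (r + 2) * (1 - D.s (r + 1))) z =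
      ((1 - D.s (r + 1) + D.s r * D.s (r + 1)) * D.P r (r + 1)) z := by
  refine kr_fix hz ?_
  simp only [P, mul_add, add_mul, mul_sub, sub_mul, mul_assoc, mul_one, one_mul,
    D.kr3 hr, D.kr2 (Nat.lt_of_succ_lt hr), D.krf (Nat.lt_of_succ_lt hr) hr (by omega) (by omega)]
  abel

/-- Three equal colours, second side. -/
theorem aaa_right {r : ℕ} (hr : r + 2 < d) {z : X} (hz : D.s (r + 1) z = z) :
    ((1 - D.s (r + 1)) * D.P r (r + 2) * (1 - D.s r)) z =
      ((1 - D.s r + D.s (r + 1) * D.s r) * D.P (r + 1) (r + 2)) z := by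
  refine kr_fix hz ?_
  simp only [P, mul_add, add_mul, mul_sub, sub_mul, mul_assoc, mul_one, one_mul,
    D.kr3 hr, D.kr2 (Nat.lt_of_succ_lt hr), D.krf (Nat.lt_of_succ_lt hr) hr (by omega) (by omega)]
  abel

theorem aaa_eq {r : ℕ} (hr : r + 2 < d) :
    (1 - D.s (r + 1) + D.s r * D.s (r + 1)) * (1 - D.s r) =
      (1 - D.s r + D.s (r + 1) * D.s r) * (1 - D.s (r + 1)) := by
  simp only [mul_add, add_mul, mul_sub, sub_mul, mul_assoc, mul_one, one_mul,
    D.kr3 hr, D.kr2 (Nat.lt_of_succ_lt hr), D.krf (Nat.lt_of_succ_lt hr) hr (by omega) (by omega)]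
  abel

/-- Colours `a b a`: the two triple products. -/
def abaA (r : ℕ) : End ℂ X := D.phi r * (1 - D.s (r + 1)) * D.phi r

/-- Colours `a b a`: the two triple products. -/
def abaB (r : ℕ) : End ℂ X := D.phi (r + 1) * (1 - D.s r) * D.phi (r + 1)

/-- Colours `a b a`: the common part. -/
def abaD (r : ℕ) : End ℂ X := D.abaA r + D.P r (r + 1) * D.P r (r + 2)

theorem abaD_eq {r : ℕ} (hr : r + 2 < d) :
    D.abaD r = D.abaB r + D.P (r + 1) (r + 2) * D.P r (r + 2) := by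
  simp only [phi, P, abaA, abaB, abaD, mul_add, add_mul, mul_sub, sub_mul, mul_assoc, mul_one, one_mul,
    D.kr3 hr, D.kr2 (Nat.lt_of_succ_lt hr), D.krf (Nat.lt_of_succ_lt hr) hr (by omega) (by omega)]
  abel

theorem aba_A {r : ℕ} (hr : r + 2 < d) :
    D.P (r + 1) (r + 2) * D.abaA r = D.abaD r * D.P (r + 1) r := by
  simp only [phi, P, abaA, abaB, abaD, mul_add, add_mul, mul_sub, sub_mul, mul_assoc, mul_one, one_mul,
    D.kr3 hr, D.kr2 (Nat.lt_of_succ_lt hr), D.krf (Nat.lt_of_succ_lt hr) hr (by omega) (by omega)]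
  abel

theorem aba_B {r : ℕ} (hr : r + 2 < d) :
    D.P r (r + 1) * D.abaB r = D.abaD r * D.P (r + 2) (r + 1) := by
  simp only [phi, P, abaA, abaB, abaD, mul_add, add_mul, mul_sub, sub_mul, mul_assoc, mul_one, one_mul,
    D.kr3 hr, D.kr2 (Nat.lt_of_succ_lt hr), D.krf (Nat.lt_of_succ_lt hr) hr (by omega) (by omega)]
  abel

end Pool.Agent.KM.DAHA
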