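import Pool.Agent.Lib.MP_515a76_al.KDefs

/-! Combinatorics of reduced words. -/

namespace Pool.Agent.KM

theorem kw_arrF_append (a : ℕ → ℕ) (u v : List ℕ) : arrF a (u ++ v) = arrF (arrF a u) v := by
  induction u generalizing a with
  | nil => rfl
  | cons r u ih => exact ih _

theorem kw_redF_append (a : ℕ → ℕ) (u v : List ℕ) :
    RedF a (u ++ v) ↔ RedF a u ∧ RedF (arrF a u) v := by
  induction u generalizing a with
  | nil => simp [RedF, arrF]
  | cons r u ih => simp only [List.cons_append, RedF, arrF, ih, and_assoc]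

theorem kw_arrF_eq (a : ℕ → ℕ) (w : List ℕ) : arrF a w = fun k => a (arr w k) := by
  induction w generalizing a with
  | nil => rfl
  | cons r w ih => rw [arr, arrF, arrF, ih, ih]; rfl

theorem kw_arr_nil (k : ℕ) : arr [] k = k := rfl

theorem kw_arr_cons (r : ℕ) (w : List ℕ) :
    arr (r :: w) = fun k => Equiv.swap r (r + 1) (arr w k) := kw_arrF_eq _ w

theorem arr_snoc (w : List ℕ) (r : ℕ) :
    arr (w ++ [r]) = fun k => arr w (Equiv.swap r (r + 1) k) := kw_arrF_append _ _ _

theorem red_snoc (w : List ℕ) (r : ℕ) :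
    Red (w ++ [r]) ↔ Red w ∧ arr w r < arr w (r + 1) := by
  rw [Red, kw_redF_append]
  exact and_congr Iff.rfl (and_iff_left trivial)

theorem Red.of_append {u v : List ℕ} (h : Red (u ++ v)) : Red u := ((kw_redF_append _ _ _).1 h).1

theorem arr_bijective (w : List ℕ) : Function.Bijective (arr w) := by
  induction w with
  | nil => exact Function.bijective_id
  | cons r w ih => rw [kw_arr_cons]; exact (Equiv.swap r (r + 1)).bijective.comp ih

theorem kw_swap_lt_iff {d r : ℕ} (h : r + 1 < d) (p : ℕ) : Equiv.swap r (r + 1) p < d ↔ p < d := by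
  rw [Equiv.swap_apply_def]
  split_ifs <;> omega

theorem arr_of_le {d : ℕ} {w : List ℕ} (h : ValidP d w) {p : ℕ} (hp : d ≤ p) : arr w p = p := by
  induction w with
  | nil => rfl
  | cons r w ih =>
    have := h r (by simp)
    simp only [kw_arr_cons, ih fun t ht => h t (by simp [ht])]
    exact Equiv.swap_apply_of_ne_of_ne (by omega) (by omega)

theorem arr_lt {d : ℕ} {w : List ℕ} (h : ValidP d w) {p : ℕ} (hp : p < d) : arr w p < d := by
  induction w with
  | nil => exact hp
  | cons r w ih =>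
    rw [kw_arr_cons]
    exact (kw_swap_lt_iff (h r (by simp)) _).2 (ih fun t ht => h t (by simp [ht]))

theorem Br.kw_refl {a : List ℕ} : Br a a := Relation.EqvGen.refl a

theorem Br.kw_symm {a b : List ℕ} (h : Br a b) : Br b a := Relation.EqvGen.symm _ _ h

theorem Br.kw_trans {a b c : List ℕ} (h : Br a b) (h' : Br b c) : Br a c :=
  Relation.EqvGen.trans _ _ _ h h'

theorem Br.context {a b : List ℕ} (h : Br a b) (u v : List ℕ) :
    Br (u ++ a ++ v) (u ++ b ++ v) := by
  induction h with
  | rel a b h =>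
    refine Relation.EqvGen.rel _ _ ?_
    cases h with
    | far u' v' r t h => simpa using BrStep.far (u ++ u') (v' ++ v) r t h
    | braid u' v' r => simpa using BrStep.braid (u ++ u') (v' ++ v) r
  | refl => exact Br.kw_refl
  | symm _ _ _ ih => exact ih.kw_symm
  | trans _ _ _ _ _ ih ih' => exact ih.kw_trans ih'

theorem Br.kw_app {a b : List ℕ} (h : Br a b) (v : List ℕ) : Br (a ++ v) (b ++ v) := h.context [] v

/-- Invariants of single moves are invariants of braid equivalence. -/
theorem Br.kw_inv {α : Sort*} {f : List ℕ → α} (hf : ∀ a b, BrStep a b → f a = f b) {a b : List ℕ}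
    (h : Br a b) : f a = f b := by
  induction h with
  | rel a b h => exact hf a b h
  | refl => rfl
  | symm _ _ _ ih => exact ih.symm
  | trans _ _ _ _ _ ih ih' => exact ih.trans ih'

theorem Br.length_eq {a b : List ℕ} (h : Br a b) : a.length = b.length :=
  h.kw_inv fun a b h => by cases h <;> simp

theorem Br.valid {d : ℕ} {a b : List ℕ} (h : Br a b) : ValidP d a ↔ ValidP d b := by
  refine iff_of_eq (h.kw_inv (f := ValidP d) fun a b h => propext ?_)
  cases h <;> simp only [ValidP, List.forall_mem_append, List.forall_mem_cons] <;> tauto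

theorem kw_swap_far {r t : ℕ} (h : r + 1 < t) (k : ℕ) :
    Equiv.swap r (r + 1) (Equiv.swap t (t + 1) k) = Equiv.swap t (t + 1) (Equiv.swap r (r + 1) k) := by
  simp only [Equiv.swap_apply_def]
  split_ifs <;> omega

theorem kw_swap_braid (r k : ℕ) :
    Equiv.swap r (r + 1) (Equiv.swap (r + 1) (r + 1 + 1) (Equiv.swap r (r + 1) k)) =
      Equiv.swap (r + 1) (r + 1 + 1) (Equiv.swap r (r + 1) (Equiv.swap (r + 1) (r + 1 + 1) k)) := by
  simp only [Equiv.swap_apply_def]
  split_ifs <;> omega

theorem Br.arr_eq {a b : List ℕ} (h : Br a b) : arr a = arr b :=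
  h.kw_inv fun a b h => by
    cases h with
    | far u v r t h => simp only [arr, kw_arrF_append, arrF, kw_swap_far h]
    | braid u v r => simp only [arr, kw_arrF_append, arrF, kw_swap_braid]

theorem Br.red {a b : List ℕ} (h : Br a b) : Red a ↔ Red b := by
  refine iff_of_eq (h.kw_inv (f := Red) fun a b h => propext ?_)
  cases h with
  | far u v r t h =>
    have e1 : Equiv.swap r (r + 1) t = t := Equiv.swap_apply_of_ne_of_ne (by omega) (by omega)
    have e2 : Equiv.swap r (r + 1) (t + 1) = t + 1 :=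
      Equiv.swap_apply_of_ne_of_ne (by omega) (by omega)
    have e3 : Equiv.swap t (t + 1) r = r := Equiv.swap_apply_of_ne_of_ne (by omega) (by omega)
    have e4 : Equiv.swap t (t + 1) (r + 1) = r + 1 :=
      Equiv.swap_apply_of_ne_of_ne (by omega) (by omega)
    simp only [Red, kw_redF_append, RedF, kw_swap_far h, e1, e2, e3, e4]
    tauto
  | braid u v r =>
    have e1 : Equiv.swap r (r + 1) (r + 1 + 1) = r + 1 + 1 :=
      Equiv.swap_apply_of_ne_of_ne (by omega) (by omega)
    have e2 : Equiv.swap (r + 1) (r + 1 + 1) r = r :=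
      Equiv.swap_apply_of_ne_of_ne (by omega) (by omega)
    simp only [Red, kw_redF_append, RedF, kw_swap_braid, e1, e2, Equiv.swap_apply_left,
      Equiv.swap_apply_right]
    tauto

theorem kw_br_far (u : List ℕ) {r t : ℕ} (h : r + 1 < t ∨ t + 1 < r) :
    Br (u ++ [r] ++ [t]) (u ++ [t] ++ [r]) := by
  rcases h with h | h
  · exact Relation.EqvGen.rel _ _ (by simpa using BrStep.far u [] r t h)
  · exact Br.kw_symm (Relation.EqvGen.rel _ _ (by simpa using BrStep.far u [] t r h))

theorem kw_br_braid (u : List ℕ) (r : ℕ) :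
    Br (u ++ [r] ++ [r + 1] ++ [r]) (u ++ [r + 1] ++ [r] ++ [r + 1]) :=
  Relation.EqvGen.rel _ _ (by simpa using BrStep.braid u [] r)

theorem kw_exch_aux (n : ℕ) : ∀ w : List ℕ, w.length < n → Red w → ∀ r, arr w (r + 1) < arr w r →
    ∃ w', Br w (w' ++ [r]) := by
  induction n with
  | zero => exact fun w hw => absurd hw (Nat.not_lt_zero _)
  | succ n ih =>
    intro w hw h r hr
    rcases List.eq_nil_or_concat' w with rfl | ⟨u, t, rfl⟩
    · exact absurd hr (by simp [kw_arr_nil])
    obtain ⟨hu, ht⟩ := (red_snoc u t).1 h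
    have hl : u.length < n := by simpa using hw
    simp only [arr_snoc] at hr
    have two : ∀ s, arr u (s + 1) < arr u s → ∀ s', arr u (Equiv.swap s (s + 1) (s' + 1)) <
        arr u (Equiv.swap s (s + 1) s') → ∃ v, Br u (v ++ [s'] ++ [s]) := fun s hs s' hs' => by
      obtain ⟨v, hv⟩ := ih u hl hu s hs
      have h1 := hv.length_eq
      simp only [hv.arr_eq, arr_snoc, Equiv.swap_apply_self] at hs'
      obtain ⟨v', hv'⟩ := ih v (by simp at h1; omega) (hv.red.1 hu).of_append s' hs'
      exact ⟨v', hv.kw_trans (hv'.kw_app _)⟩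
    by_cases h1 : t = r
    · exact ⟨u, h1 ▸ Br.kw_refl⟩
    by_cases h2 : t = r + 1
    · subst h2
      rw [Equiv.swap_apply_left, Equiv.swap_apply_of_ne_of_ne (by omega) (by omega)] at hr
      obtain ⟨v, hv⟩ := two r (ht.trans hr) (r + 1) (by
        rwa [Equiv.swap_apply_right, Equiv.swap_apply_of_ne_of_ne (by omega) (by omega)])
      exact ⟨_, (hv.kw_app _).kw_trans (kw_br_braid v r).kw_symm⟩
    by_cases h3 : r = t + 1
    · subst h3
      rw [Equiv.swap_apply_right, Equiv.swap_apply_of_ne_of_ne (by omega) (by omega)] at hr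
      obtain ⟨v, hv⟩ := two (t + 1) (hr.trans ht) t (by
        rwa [Equiv.swap_apply_left, Equiv.swap_apply_of_ne_of_ne (by omega) (by omega)])
      exact ⟨_, (hv.kw_app _).kw_trans (kw_br_braid v t)⟩
    rw [Equiv.swap_apply_of_ne_of_ne (by omega) (by omega),
      Equiv.swap_apply_of_ne_of_ne (by omega) (by omega)] at hr
    obtain ⟨v, hv⟩ := ih u hl hu r hr
    exact ⟨_, (hv.kw_app _).kw_trans (kw_br_far v (by omega))⟩

/-- A reduced word with a descent at position `r` can be rewritten to end in `r`. -/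
theorem exch_last {w : List ℕ} (h : Red w) {r : ℕ} (hr : arr w (r + 1) < arr w r) :
    ∃ w', Br w (w' ++ [r]) := kw_exch_aux _ w (Nat.lt_succ_self _) h r hr

theorem Red.eq_nil {w : List ℕ} (h : Red w) (hw : ∀ p, arr w p = p) : w = [] := by
  rcases List.eq_nil_or_concat' w with rfl | ⟨u, t, rfl⟩
  · rfl
  have h1 := ((red_snoc u t).1 h).2
  have h2 := hw t
  have h3 := hw (t + 1)
  simp only [arr_snoc, Equiv.swap_apply_left, Equiv.swap_apply_right] at h2 h3
  omega

/-- Reduced words with the same arrangement are braid equivalent. -/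
theorem kw_br_of_arr_eq {w w' : List ℕ} (h : Red w) (h' : Red w') (e : arr w = arr w') : Br w w' := by
  induction w using List.reverseRecOn generalizing w' with
  | nil => rw [h'.eq_nil fun p => by rw [← e, kw_arr_nil]]; exact Br.kw_refl
  | append_singleton u r ih =>
    obtain ⟨hu, hr⟩ := (red_snoc u r).1 h
    obtain ⟨v, hv⟩ := exch_last h' (r := r) (by simpa [← e, arr_snoc] using hr)
    refine ((ih hu (hv.red.1 h').of_append (funext fun k => ?_)).kw_app _).kw_trans hv.kw_symm
    simpa [arr_snoc] using congrFun (e.trans hv.arr_eq) (Equiv.swap r (r + 1) k)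

/-- The strands starting at `r` and `r + 1` have crossed. -/
def KwCrossed (w : List ℕ) (r : ℕ) : Prop := ∃ p q, arr w p = r + 1 ∧ arr w q = r ∧ p < q

theorem kw_swap_lt {r a b : ℕ} (h : a < b) (h' : ¬ (a = r ∧ b = r + 1)) :
    Equiv.swap r (r + 1) a < Equiv.swap r (r + 1) b := by
  simp only [Equiv.swap_apply_def]
  split_ifs <;> omega

theorem kw_red_cons {w : List ℕ} (h : Red w) {r : ℕ} (hc : ¬ KwCrossed w r) : Red (r :: w) := by
  induction w using List.reverseRecOn with
  | nil => exact ⟨Nat.lt_succ_self r, trivial⟩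
  | append_singleton u s ih =>
    obtain ⟨hu, hs⟩ := (red_snoc u s).1 h
    refine (red_snoc (r :: u) s).2 ⟨ih hu ?_, ?_⟩
    · rintro ⟨p, q, hp, hq, hpq⟩
      refine hc ⟨Equiv.swap s (s + 1) p, Equiv.swap s (s + 1) q, by simpa [arr_snoc] using hp,
        by simpa [arr_snoc] using hq, kw_swap_lt hpq ?_⟩
      rintro ⟨rfl, rfl⟩
      omega
    · rw [kw_arr_cons]
      exact kw_swap_lt hs fun e => hc ⟨s, s + 1, by simpa [arr_snoc] using e.2,
        by simpa [arr_snoc] using e.1, Nat.lt_succ_self s⟩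

theorem kw_exists_red_cons {w : List ℕ} (h : Red w) {r : ℕ} (hc : KwCrossed w r) :
    ∃ w', Red (r :: w') ∧ arr w = arr (r :: w') := by
  induction w using List.reverseRecOn with
  | nil =>
    obtain ⟨p, q, hp, hq, hpq⟩ := hc
    rw [kw_arr_nil] at hp hq
    omega
  | append_singleton u s ih =>
    obtain ⟨hu, hs⟩ := (red_snoc u s).1 h
    by_cases hc' : KwCrossed u r
    · obtain ⟨v, hv, e⟩ := ih hu hc'
      exact ⟨v ++ [s], (red_snoc (r :: v) s).2 ⟨hv, e ▸ hs⟩,
        by rw [← List.cons_append, arr_snoc, arr_snoc, e]⟩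
    refine ⟨u, kw_red_cons hu hc', funext fun k => ?_⟩
    obtain ⟨p, q, hp, hq, hpq⟩ := hc
    have e : p = s ∧ q = s + 1 := by
      by_contra e
      exact hc' ⟨_, _, by simpa [arr_snoc] using hp, by simpa [arr_snoc] using hq, kw_swap_lt hpq e⟩
    obtain ⟨rfl, rfl⟩ := e
    simp only [arr_snoc, Equiv.swap_apply_left, Equiv.swap_apply_right] at hp hq
    rw [arr_snoc, kw_arr_cons, ← hp, ← hq]
    exact (arr_bijective u).1.map_swap _ _ _

/-- A reduced word in which the strands `r`, `r + 1` cross can be rewritten to start with `r`. -/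
theorem exch_first {w : List ℕ} (h : Red w) {r p q : ℕ} (hp : arr w p = r + 1) (hq : arr w q = r)
    (hpq : p < q) : ∃ w', Br w (r :: w') := by
  obtain ⟨w', h', e⟩ := kw_exists_red_cons h ⟨p, q, hp, hq, hpq⟩
  exact ⟨w', kw_br_of_arr_eq h h' e⟩

theorem not_red {w : List ℕ} (h : ¬ Red w) : ∃ u r v, Br w (u ++ r :: r :: v) := by
  induction w using List.reverseRecOn with
  | nil => exact absurd trivial h
  | append_singleton u t ih =>
    by_cases hu : Red u
    · have h1 : arr u t ≠ arr u (t + 1) := fun e => by simpa using (arr_bijective u).1 e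
      have h2 : ¬ arr u t < arr u (t + 1) := fun e => h ((red_snoc u t).2 ⟨hu, e⟩)
      obtain ⟨v, hv⟩ := exch_last hu (r := t) (by omega)
      exact ⟨v, t, [], by simpa using hv.kw_app [t]⟩
    · obtain ⟨a, r, v, hv⟩ := ih hu
      exact ⟨a, r, v ++ [t], by simpa using hv.kw_app [t]⟩

theorem not_rmin {J w : List ℕ} (h : Red w) (hJ : ¬ RMin J w) :
    ∃ r ∈ J, ∃ w', Br w (r :: w') := by
  simp only [RMin, not_forall] at hJ
  obtain ⟨r, hr, p, q, hp, hq, hpq⟩ := hJ
  have : p ≠ q := by
    rintro rfl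
    omega
  exact ⟨r, hr, exch_first h hq hp (by omega)⟩

/-- The weighted number of inversions. -/
def kwInv (d : ℕ) (f : ℕ → ℕ → ℤ) (a : ℕ → ℕ) : ℤ :=
  ∑ q ∈ Finset.range d, ∑ p ∈ Finset.range d, if p < q ∧ a q < a p then f (a p) (a q) else 0

theorem kw_invSum_eq (d : ℕ) (f : ℕ → ℕ → ℤ) (a : ℕ → ℕ) : kwInv d f a =
    ∑ q ∈ Finset.range d, ∑ p ∈ Finset.range q, if a q < a p then f (a p) (a q) else 0 := by
  refine Finset.sum_congr rfl fun q hq => ?_
  rw [← Finset.sum_subset (Finset.range_subset_range.2 (Finset.mem_range.1 hq).le)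
    fun p _ hp => if_neg fun e => hp (Finset.mem_range.2 e.1)]
  exact Finset.sum_congr rfl fun p hp => by simp [Finset.mem_range.1 hp]

theorem kw_invSum_swap {d r : ℕ} (hd : r + 1 < d) (f : ℕ → ℕ → ℤ) {a : ℕ → ℕ} (h : a r < a (r + 1)) :
    kwInv d f (fun k => a (Equiv.swap r (r + 1) k)) = kwInv d f a + f (a (r + 1)) (a r) := by
  have e : ∀ g : ℕ → ℤ, ∑ k ∈ Finset.range d, g (Equiv.swap r (r + 1) k) =
      ∑ k ∈ Finset.range d, g k := fun g =>
    Finset.sum_equiv (Equiv.swap r (r + 1)) (fun k => by simp [kw_swap_lt_iff hd]) fun _ _ => rfl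
  have e2 : f (a (r + 1)) (a r) = ∑ q ∈ Finset.range d, ∑ p ∈ Finset.range d,
      if p = r + 1 then (if q = r then f (a p) (a q) else 0) else 0 := by
    simp [hd, show r < d by omega]
  rw [kwInv, kwInv, ← e, e2, ← Finset.sum_add_distrib]
  refine Finset.sum_congr rfl fun q _ => ?_
  rw [← e, ← Finset.sum_add_distrib]
  refine Finset.sum_congr rfl fun p _ => ?_
  simp only [Equiv.swap_apply_self]
  by_cases h1 : p = r + 1 ∧ q = r
  · obtain ⟨rfl, rfl⟩ := h1
    simp [h]
  by_cases h2 : p = r ∧ q = r + 1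
  · obtain ⟨rfl, rfl⟩ := h2
    simp [h.not_gt]
  have h3 : Equiv.swap r (r + 1) p < Equiv.swap r (r + 1) q ↔ p < q := by
    simp only [Equiv.swap_apply_def]
    split_ifs <;> omega
  rw [← ite_and, if_neg h1, add_zero]
  simp only [h3]

theorem kw_invSum_id (d : ℕ) (f : ℕ → ℕ → ℤ) : kwInv d f (arr []) = 0 :=
  Finset.sum_eq_zero fun _ _ => Finset.sum_eq_zero fun _ _ => if_neg fun e => e.1.not_gt e.2

theorem Red.length_le {d : ℕ} {w : List ℕ} (h : Red w) (hv : ValidP d w) : w.length ≤ d * d := by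
  have e : (w.length : ℤ) = kwInv d (fun _ _ => 1) (arr w) := by
    induction w using List.reverseRecOn with
    | nil => exact (kw_invSum_id _ _).symm
    | append_singleton u r ih =>
      obtain ⟨hu, hr⟩ := (red_snoc u r).1 h
      rw [arr_snoc, kw_invSum_swap (hv r (by simp)) _ hr, ← ih hu fun t ht => hv t (by simp [ht])]
      simp
  have : kwInv d (fun _ _ => 1) (arr w) ≤ ∑ _q ∈ Finset.range d, ∑ _p ∈ Finset.range d, 1 :=
    Finset.sum_le_sum fun _ _ => Finset.sum_le_sum fun _ _ => by split_ifs <;> simp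
  rw [← e] at this
  exact_mod_cast (by simpa using this : (w.length : ℤ) ≤ d * d)

theorem tgt_map (i : ℕ → ℤ) (w : List ℕ) : tgt i (w.map Let.p) = fun k => i (arr w k) := by
  induction w generalizing i with
  | nil => rfl
  | cons r w ih => rw [List.map_cons, tgt, ih, kw_arr_cons]; rfl

theorem tgt_append (i : ℕ → ℤ) (u v : List Let) : tgt i (u ++ v) = tgt (tgt i u) v := by
  induction u generalizing i with
  | nil => rfl
  | cons l u ih => cases l <;> exact ih _

theorem deg_append (i : ℕ → ℤ) (u v : List Let) :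
    deg i (u ++ v) = deg i u + deg (tgt i u) v := by
  induction u generalizing i with
  | nil => simp [deg, tgt]
  | cons l u ih => cases l <;> simp only [List.cons_append, deg, tgt, ih, add_assoc]

theorem tgt_of_le {d : ℕ} (i : ℕ → ℤ) {w : List Let} (h : Valid d w) {k : ℕ} (hk : d ≤ k) :
    tgt i w k = i k := by
  induction w generalizing i with
  | nil => rfl
  | cons l w ih =>
    have h1 := h l (by simp)
    have h2 : Valid d w := fun t ht => h t (by simp [ht])
    cases l with
    | y _ => exact ih _ h2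
    | p r =>
      have h3 : r + 1 < d := h1
      rw [tgt, ih _ h2, sw, Equiv.swap_apply_of_ne_of_ne (by omega) (by omega)]

/-- The degree of a reduced word is the sum of the weights of its inversions. -/
theorem deg_red {d : ℕ} (i : ℕ → ℤ) {w : List ℕ} (h : Red w) (hv : ValidP d w) :
    deg i (w.map Let.p) = ∑ q ∈ Finset.range d, ∑ p ∈ Finset.range q,
      if arr w q < arr w p then invWt (i (arr w p)) (i (arr w q)) else 0 := by
  rw [← kw_invSum_eq d fun a b => invWt (i a) (i b)]
  induction w using List.reverseRecOn with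
  | nil => exact (kw_invSum_id _ _).symm
  | append_singleton u r ih =>
    obtain ⟨hu, hr⟩ := (red_snoc u r).1 h
    rw [arr_snoc, kw_invSum_swap (hv r (by simp)) _ hr, ← ih hu fun t ht => hv t (by simp [ht]),
      List.map_append, deg_append, tgt_map]
    simp [deg]

end Pool.Agent.KM
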