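import Mathlib

/-!
Definitions used in the statement: modules over sl_n(C), category O, its principal block,
projective functors on the principal block.
-/

namespace Pool.Agent.KM

open LieAlgebra.SpecialLinear TensorProduct

attribute [local instance 100] LieRing.ofAssociativeRing

/-- A module over the Lie algebra `sl n ℂ`. -/
structure SlMod (n : ℕ) : Type 1 where
  V : Type
  [acg : AddCommGroup V]
  [mod : Module ℂ V]
  [lrm : LieRingModule (sl (Fin n) ℂ) V]
  [lm : LieModule ℂ (sl (Fin n) ℂ) V]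

attribute [instance] SlMod.acg SlMod.mod SlMod.lrm SlMod.lm

namespace SlMod

variable {n : ℕ}

/-- Homomorphisms of modules. -/
abbrev Hom (M N : SlMod n) : Type := M.V →ₗ⁅ℂ, sl (Fin n) ℂ⁆ N.V

/-- Submodules. -/
abbrev Sub (M : SlMod n) : Type := LieSubmodule ℂ (sl (Fin n) ℂ) M.V

/-- A submodule as a module. -/
def sub (M : SlMod n) (N : M.Sub) : SlMod n := ⟨N⟩

/-- The quotient module. -/
def quot (M : SlMod n) (N : M.Sub) : SlMod n := ⟨M.V ⧸ N⟩

/-- The tensor product of modules. -/
def tens (V M : SlMod n) : SlMod n := ⟨V.V ⊗[ℂ] M.V⟩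

/-- The map `V ⊗ f`. -/
noncomputable def tensMap (V : SlMod n) {M N : SlMod n} (f : Hom M N) :
    Hom (V.tens M) (V.tens N) :=
  TensorProduct.LieModule.map LieModuleHom.id f

/-- `v` has weight `l`: the coroot `E_ii - E_jj` acts on `v` by `l i - l j`. -/
def HasWt (M : SlMod n) (l : Fin n → ℂ) (v : M.V) : Prop :=
  ∀ i j : Fin n, ⁅(singleSubSingle i j (1 : ℂ) : sl (Fin n) ℂ), v⁆ = (l i - l j) • v

/-- `v` has weight `l` and is killed by all `E_ij` with `i < j`. -/
def IsSing (M : SlMod n) (l : Fin n → ℂ) (v : M.V) : Prop :=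
  M.HasWt l v ∧ ∀ (i j : Fin n) (h : i < j), ⁅(single i j h.ne (1 : ℂ) : sl (Fin n) ℂ), v⁆ = 0

/-- The BGG category O: finitely generated, spanned by weight vectors, locally finite for the
upper triangular nilpotent subalgebra. -/
def InO (M : SlMod n) : Prop :=
  (∃ s : Finset M.V, LieSubmodule.lieSpan ℂ (sl (Fin n) ℂ) (s : Set M.V) = ⊤) ∧
  Submodule.span ℂ {v : M.V | ∃ l, M.HasWt l v} = ⊤ ∧
  ∀ v : M.V, ∃ S : Submodule ℂ M.V, v ∈ S ∧ FiniteDimensional ℂ S ∧
    ∀ (i j : Fin n) (h : i < j), ∀ u ∈ S, ⁅(single i j h.ne (1 : ℂ) : sl (Fin n) ℂ), u⁆ ∈ S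

/-- `L` is the simple module of highest weight `l`. -/
def IsSimpleHW (L : SlMod n) (l : Fin n → ℂ) : Prop :=
  LieModule.IsIrreducible ℂ (sl (Fin n) ℂ) L.V ∧ ∃ v : L.V, v ≠ 0 ∧ L.IsSing l v

/-- The weight `w · 0 = w ρ - ρ` with `ρ = (0, -1, ..., -(n-1))`. -/
def dot (w : Equiv.Perm (Fin n)) : Fin n → ℂ := fun j => ((j : ℕ) : ℂ) - ((w.symm j : ℕ) : ℂ)

/-- The principal block: modules in O all of whose simple subquotients are some `L_w`. -/
def InO0 (M : SlMod n) : Prop :=
  M.InO ∧ ∀ (N : M.Sub) (K : (M.sub N).Sub),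
    LieModule.IsIrreducible ℂ (sl (Fin n) ℂ) ((M.sub N).quot K).V →
      ∃ w : Equiv.Perm (Fin n), ((M.sub N).quot K).IsSimpleHW (dot w)

/-- The Verma module of highest weight `0`, by its universal property. -/
def IsVerma0 (D : SlMod n) : Prop :=
  ∃ v : D.V, D.IsSing 0 v ∧ ∀ (M : SlMod n) (m : M.V), M.IsSing 0 m → ∃! f : Hom D M, f v = m

/-- `P` is a projective object of the principal block. -/
def IsProj0 (P : SlMod n) : Prop :=
  P.InO0 ∧ ∀ (M N : SlMod n), M.InO0 → N.InO0 → ∀ (f : Hom M N), Function.Surjective f →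
    ∀ g : Hom P N, ∃ h : Hom P M, f.comp h = g

/-- `P` is a projective cover of `L` in the principal block. -/
def IsProjCover (P L : SlMod n) : Prop :=
  P.IsProj0 ∧ ∃ f : Hom P L, Function.Surjective f ∧ ∀ N : P.Sub, N ⊔ f.ker = ⊤ → N = ⊤

/-- A natural idempotent endomorphism of the functor `V ⊗ -` on the principal block. -/
structure NatIdem (V : SlMod n) where
  p : ∀ M : SlMod n, M.InO0 → Hom (V.tens M) (V.tens M)
  idem : ∀ (M : SlMod n) (hM : M.InO0), (p M hM).comp (p M hM) = p M hM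
  nat : ∀ (M N : SlMod n) (hM : M.InO0) (hN : N.InO0) (f : Hom M N),
    (p N hN).comp (V.tensMap f) = (V.tensMap f).comp (p M hM)

/-- A projective functor from the principal block to itself: a direct summand of `V ⊗ -` with
`V` finite dimensional, given by a natural idempotent, with values in the principal block. -/
structure ProjFunctor (n : ℕ) where
  V : SlMod n
  fin : FiniteDimensional ℂ V.V
  e : NatIdem V
  mem : ∀ (M : SlMod n) (hM : M.InO0), ((V.tens M).sub (e.p M hM).range).InO0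

/-- The value of a projective functor on a module of the principal block. -/
def ProjFunctor.obj (T : ProjFunctor n) (M : SlMod n) (hM : M.InO0) : SlMod n :=
  (T.V.tens M).sub (T.e.p M hM).range

/-- The functor is nonzero and its only direct summands are zero and itself. -/
def ProjFunctor.IsIndec (T : ProjFunctor n) : Prop :=
  (∃ (M : SlMod n) (hM : M.InO0), T.e.p M hM ≠ 0) ∧
  ∀ q : NatIdem T.V,
    (∀ (M : SlMod n) (hM : M.InO0),
      (T.e.p M hM).comp (q.p M hM) = q.p M hM ∧ (q.p M hM).comp (T.e.p M hM) = q.p M hM) →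
    (∀ (M : SlMod n) (hM : M.InO0), q.p M hM = 0) ∨
      (∀ (M : SlMod n) (hM : M.InO0), q.p M hM = T.e.p M hM)

/-- `T` is the projective functor `θ_x`: it is indecomposable and sends the dominant Verma
module to the projective cover of `L_x`. -/
def ProjFunctor.IsTheta (T : ProjFunctor n) (x : Equiv.Perm (Fin n)) : Prop :=
  T.IsIndec ∧ ∃ (D Lx : SlMod n) (hD : D.InO0),
    D.IsVerma0 ∧ Lx.IsSimpleHW (dot x) ∧ (T.obj D hD).IsProjCover Lx

end SlMod

end Pool.Agent.KM
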